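import Pool.Agent.P.MP_f981b0_an.IS.Stmt

/-!
Interface of the project IS, part 4: the sum of the levels and the global statements.
-/

set_option autoImplicit false

open Polynomial Finset Filter Topology
open scoped Nat Real

noncomputable section

namespace Pool.Agent.IS

/-- The big space: component `(n, 0)` is `chi_n`, component `(n, k + 1)` is `c_{n,k}`. -/
abbrev KS : Type := lp (fun _ : ℕ × ℕ => E) 2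

open Classical in
/-- The diagonal operator of a bounded family. -/
def dg (A : ℕ × ℕ → E →L[ℂ] E) : KS →L[ℂ] KS :=
  if h : ∃ T : KS →L[ℂ] KS, ∀ (x : KS) (i : ℕ × ℕ), T x i = A i (x i) then h.choose else 0

/-- The component map. -/
def pr (i : ℕ × ℕ) : KS →L[ℂ] E := lp.evalCLM ℂ (fun _ : ℕ × ℕ => E) 2 i

/-- The coordinates `c_{n,k}` of `x`, cut at `K`. -/
def cc (D n : ℕ) (x : KS) (k : ℕ) : E := if k ≤ KK D then x (n, k + 1) else 0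

/-- The norm of the level `n` part. -/
def eps (D n : ℕ) (x : KS) : ℝ := √(∑ k ∈ range (KK D + 2), ‖x (n, k)‖ ^ 2)

/-- `D'` may follow `D`. -/
def Nxt (M : Model) (D D' : ℕ) : Prop :=
  Big D' ∧ D < D' ∧ 8 * DG D ≤ D' ∧ kap D' ≤ kG D ∧
    kap D' * ZZ D * Real.exp (ZZ D) ≤ 1 / 2 ∧ mu D ≤ D' ∧
    ∃ (D1 m : ℕ) (e0 : ℝ), LCc D' D1 m e0 ∧
      gam M D' D1 e0 (mu D) (2 * Real.exp (ZZ D)) ≤ th D

/-- A good sequence of levels. -/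
def Good (M : Model) (Ds : ℕ → ℕ) : Prop := Big (Ds 0) ∧ ∀ n, Nxt M (Ds n) (Ds (n + 1))

namespace Model

variable (M : Model) (Ds : ℕ → ℕ)

def Vc (i : ℕ × ℕ) : E →L[ℂ] E := if i.2 = 0 then M.VG (Ds i.1) else M.VF (Ds i.1)
/-- The diagonal operator `V~`. -/
def VK : KS →L[ℂ] KS := dg (M.Vc Ds)
/-- `V~` on the levels above `n`. -/
def tailA (n : ℕ) : KS →L[ℂ] KS := dg fun i => if n < i.1 then M.Vc Ds i else 0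
/-- The level `n` part as a vector of `G_n`. -/
def lift (n : ℕ) : KS →L[ℂ] E :=
  ∑ k ∈ range (KK (Ds n) + 1), ((del (Ds n) : ℂ)⁻¹) • (M.su (Ds n) k ∘L M.j (Ds n) ∘L pr (n, k + 1)) +
    ((mu (Ds n) : ℂ)⁻¹) • pr (n, 0)
/-- The map `Th` to `Y`. -/
def Th : KS →L[ℂ] E := ∑' n : ℕ, M.JG (Ds n) ∘L M.lift Ds n
/-- The inclusion of `G_n` in `F(D_{n+1}/8, kap)`. -/
def g8 (n : ℕ) : E →L[ℂ] E := M.inc (DG (Ds n)) (kG (Ds n)) (Ds (n + 1) / 8) (kap (Ds (n + 1)))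
/-- The inclusion of `G_n` in `G_{n+1}`. -/
def gg (n : ℕ) : E →L[ℂ] E := M.j (Ds (n + 1)) ∘L M.i8 (Ds (n + 1)) ∘L M.g8 Ds n
/-- The levels up to `n` as a vector of `G_n` (this is `X_{n+1}`). -/
def head : ℕ → KS →L[ℂ] E
  | 0 => M.lift Ds 0
  | n + 1 => M.gg Ds n ∘L head n + M.lift Ds (n + 1)

end Model

/-- The projection on the levels above `n`. -/
def tailP (n : ℕ) : KS →L[ℂ] KS := dg fun i => if n < i.1 then 1 else 0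

/-- The functional `y_n` on `G_n`. -/
def yn (D n : ℕ) (et : KS) : E →L[ℂ] ℂ := (mu D : ℂ) • innerSL ℂ (et (n, 0))

/-- `et` is orthogonal to the kernel of `Th`. -/
def Perp (M : Model) (Ds : ℕ → ℕ) (et : KS) : Prop :=
  ∀ x : KS, M.Th Ds x = 0 → inner ℂ et x = 0

/-- A Hilbert space operator without invariant subspaces. -/
def NoInv : Prop :=
  ∃ (H : Type) (_ : NormedAddCommGroup H) (_ : InnerProductSpace ℂ H) (_ : CompleteSpace H),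
    ¬ FiniteDimensional ℂ H ∧ ∃ T : H →L[ℂ] H,
      ∀ K : Submodule ℂ H, IsClosed (K : Set H) → (∀ x ∈ K, T x ∈ K) → K = ⊥ ∨ K = ⊤

/-- Diagonal operators. -/
def S_Dg : Prop :=
  (∀ (A : ℕ × ℕ → E →L[ℂ] E) (C : ℝ), 0 ≤ C → (∀ i, ‖A i‖ ≤ C) →
    (∀ (x : KS) (i : ℕ × ℕ), dg A x i = A i (x i)) ∧ ‖dg A‖ ≤ C) ∧
  (∀ (x : KS) (i : ℕ × ℕ), pr i x = x i) ∧
  (∀ (n : ℕ) (x : KS), ‖tailP n x‖ ≤ ‖x‖) ∧
  (∀ x : KS, Tendsto (fun n => ‖tailP n x‖) atTop (𝓝 0)) ∧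
  (∀ (Ds : ℕ → ℕ) (N : ℕ) (x z : KS) (s : Finset ℕ), (∀ n ∈ s, N < n) →
    ∑ n ∈ s, eps (Ds n) n x * eps (Ds n) n z ≤ ‖tailP N x‖ * ‖tailP N z‖) ∧
  ∀ (D n N : ℕ) (x : KS), eps D n x ≤ ‖x‖ ∧ (N < n → eps D n x ≤ ‖tailP N x‖)

/-- Existence of the next level. -/
def S_Par : Prop := ∀ (M : Model) (D : ℕ), Big D → ∃ D', Nxt M D D'

/-- Numerical consequences of `Good`, and norms of polynomials on later spaces. -/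
def S_Good : Prop :=
  ∀ (M : Model) (Ds : ℕ → ℕ), Good M Ds →
    (∀ n, Big (Ds n)) ∧ StrictMono Ds ∧ (∀ n, n ≤ Ds n) ∧
    (∀ n, (∀ v, M.g8 Ds n (M.VG (Ds n) v) = M.V8 (Ds (n + 1)) (M.g8 Ds n v)) ∧ ‖M.g8 Ds n‖ ≤ 1 ∧
      (∀ v, M.gg Ds n (M.VG (Ds n) v) = M.VG (Ds (n + 1)) (M.gg Ds n v)) ∧ ‖M.gg Ds n‖ ≤ 1 ∧
      M.gg Ds n M.one = M.one ∧ (∀ v, M.JG (Ds (n + 1)) (M.gg Ds n v) = M.JG (Ds n) v) ∧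
      ∀ v, M.JF (Ds (n + 1)) (M.i8 (Ds (n + 1)) (M.g8 Ds n v)) = M.JG (Ds n) v) ∧
    (∀ N n, N < n → Sm (M.VG (Ds n)) (ZZ (Ds N)) ∧
      ∀ b : ℂ[X], (∀ l, ‖b.coeff l‖ ≤ ZZ (Ds N) ^ l) →
        ‖aeval M.V b‖ ≤ 2 * Real.exp (ZZ (Ds N)) ∧
        ‖aeval (M.V8 (Ds n)) b‖ ≤ 2 * Real.exp (ZZ (Ds N)) ∧
        ‖aeval (M.VF (Ds n)) b‖ ≤ 2 * Real.exp (ZZ (Ds N)) ∧
        ‖aeval (M.VG (Ds n)) b‖ ≤ 2 * Real.exp (ZZ (Ds N))) ∧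
    (∀ N n, N ≤ n → Real.exp (ZZ (Ds N)) ≤ Real.exp (ZZ (Ds n)) ∧ mu (Ds N) ≤ mu (Ds n)) ∧
    ∀ (N : ℕ) (s : Finset ℕ), (∀ n ∈ s, N < n) →
      2 * Real.exp (ZZ (Ds N)) * ∑ n ∈ s, th (Ds n) ^ 2 ≤ 1

/-- The operators on the big space. -/
def S_VK : Prop :=
  ∀ (M : Model) (Ds : ℕ → ℕ), Good M Ds →
    (∀ (x : KS) (i : ℕ × ℕ), M.VK Ds x i = M.Vc Ds i (x i)) ∧ ‖M.VK Ds‖ ≤ 1 ∧
    ∀ n, ‖M.tailA Ds n‖ ≤ 1 ∧ Sm (M.tailA Ds n) (3 * n1 (Ds n)) ∧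
      (∀ v : KS, -(kG (Ds n)) * ‖v‖ ^ 2 ≤ (inner ℂ v (M.tailA Ds n v)).re) ∧
      (∀ (l : ℕ) (x : KS), tailP n ((M.VK Ds ^ l) x) = (M.tailA Ds n ^ l) (tailP n x)) ∧
      ∀ N, N ≤ n → ∀ b : ℂ[X], (∀ l, ‖b.coeff l‖ ≤ ZZ (Ds N) ^ l) →
        ‖aeval (M.tailA Ds n) b‖ ≤ 2 * Real.exp (ZZ (Ds N))

/-- The maps `lift`, `head`, `Th`. -/
def S_Th : Prop :=
  ∀ (M : Model) (Ds : ℕ → ℕ), Good M Ds →
    (∀ n x, M.lift Ds n x = M.lev (Ds n) (cc (Ds n) n x) + ((mu (Ds n) : ℂ)⁻¹) • x (n, 0)) ∧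
    (∀ n x, ∑ k ∈ range (KK (Ds n) + 1), ‖cc (Ds n) n x k‖ ^ 2 ≤ eps (Ds n) n x ^ 2) ∧
    (∀ n x, ‖M.JG (Ds n) (M.lift Ds n x)‖ ≤ th (Ds n) ^ 2 * ‖x‖) ∧
    (∀ x, HasSum (fun n => M.JG (Ds n) (M.lift Ds n x)) (M.Th Ds x)) ∧
    (∀ n x, M.JG (Ds n) (M.head Ds n x) = ∑ m ∈ range (n + 1), M.JG (Ds m) (M.lift Ds m x)) ∧
    (∀ n x, ‖M.head Ds n x‖ ≤ mu (Ds n) * ‖x‖) ∧
    (∀ n x, M.lift Ds n (M.VK Ds x) = M.VG (Ds n) (M.lift Ds n x)) ∧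
    (∀ n x, M.head Ds n (M.VK Ds x) = M.VG (Ds n) (M.head Ds n x)) ∧
    (∀ x, M.Th Ds (M.VK Ds x) = M.V (M.Th Ds x)) ∧
    ∀ (n k : ℕ) (v : E), M.Th Ds (lp.single 2 (n, k) v) = M.JG (Ds n) (M.lift Ds n (lp.single 2 (n, k) v))

/-- The functionals `y_n`. -/
def S_Yn : Prop :=
  ∀ (M : Model) (Ds : ℕ → ℕ) (et : KS), Good M Ds → Perp M Ds et → ‖et‖ ≤ 1 →
    (∀ n x, yn (Ds n) n et (M.head Ds n x) = inner ℂ et (x - tailP n x)) ∧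
    (∀ n v, yn (Ds (n + 1)) (n + 1) et (M.gg Ds n v) = yn (Ds n) n et v) ∧
    (∀ n (g : ℂ[X]), yn (Ds n) n et (aeval (M.VG (Ds n)) g M.one) =
      yn (Ds 0) 0 et (aeval (M.VG (Ds 0)) g M.one)) ∧
    (∀ n, M.YH (Ds (n + 1)) (yn (Ds (n + 1)) (n + 1) et) (eps (Ds (n + 1)) (n + 1) et)) ∧
    ∀ (n m : ℕ) (g : ℂ[X]), g.natDegree ≤ m →
      ‖yn (Ds n) n et (aeval (M.VG (Ds n)) g M.one)‖ ≤ mu (Ds 0) * (m ! : ℝ) * ‖aeval M.V g M.one‖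

/-- Section 8 (a). -/
def S_G0 : Prop :=
  ∀ (M : Model) (Ds : ℕ → ℕ) (et : KS), Good M Ds → Perp M Ds et → ‖et‖ ≤ 1 → et ≠ 0 →
    ∃ g0 : ℂ[X], yn (Ds 0) 0 et (aeval (M.VG (Ds 0)) (X ^ 5 * g0) M.one) = 1

/-- A zero pair gives the level hypotheses at all high levels. -/
def S_XH : Prop :=
  ∀ (M : Model) (Ds : ℕ → ℕ) (x : KS), Good M Ds → ‖x‖ ≤ 1 → M.Th Ds x ≠ 0 →
    ∃ N0' : ℕ, ∀ n, N0' ≤ n →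
      M.XH (Ds (n + 1)) (M.i8 (Ds (n + 1)) (M.g8 Ds n (M.head Ds n x))) (cc (Ds (n + 1)) (n + 1) x)
        (eps (Ds (n + 1)) (n + 1) x) (‖M.Th Ds x‖ / 2) ∧
      ‖M.g8 Ds n (M.head Ds n x)‖ ≤ Ds (n + 1) ∧ ‖x (n + 1, 0)‖ ≤ 1 ∧
      M.head Ds (n + 1) x =
        M.xp (Ds (n + 1)) (M.i8 (Ds (n + 1)) (M.g8 Ds n (M.head Ds n x))) (cc (Ds (n + 1)) (n + 1) x) +
          ((mu (Ds (n + 1)) : ℂ)⁻¹) • x (n + 1, 0)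

/-- One step of the telescoping sum. -/
def S_Tel : Prop :=
  ∀ (M : Model) (Ds : ℕ → ℕ) (x et : KS), Good M Ds → Perp M Ds et → ‖et‖ ≤ 1 → ‖x‖ ≤ 1 →
    M.Th Ds x ≠ 0 → (∀ l : ℕ, inner ℂ et ((M.VK Ds ^ l) x) = 0) →
    ∃ N0' : ℕ, ∀ N n, N0' ≤ N → N ≤ n → ∀ b : ℂ[X], (∀ l, ‖b.coeff l‖ ≤ ZZ (Ds N) ^ l) →
      ‖yn (Ds (n + 1)) (n + 1) et (aeval (M.VG (Ds (n + 1))) (X ^ 5 * b) (M.head Ds (n + 1) x)) -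
        yn (Ds n) n et (aeval (M.VG (Ds n)) (X ^ 5 * b) (M.head Ds n x))‖ ≤
        2 ^ 40 * (eps (Ds (n + 1)) (n + 1) x * eps (Ds (n + 1)) (n + 1) et / (‖M.Th Ds x‖ / 2)) *
          ‖aeval M.V b (M.JG (Ds n) (M.head Ds n x))‖ + th (Ds n)

/-- The inequality (*). -/
def S_Star : Prop :=
  ∀ (M : Model) (Ds : ℕ → ℕ) (x et : KS), Good M Ds → Perp M Ds et → ‖et‖ ≤ 1 → ‖x‖ ≤ 1 →
    M.Th Ds x ≠ 0 → (∀ l : ℕ, inner ℂ et ((M.VK Ds ^ l) x) = 0) →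
    ∃ N0' : ℕ, ∀ N, N0' ≤ N → ∀ b : ℂ[X], (∀ l, ‖b.coeff l‖ ≤ ZZ (Ds N) ^ l) →
      ‖yn (Ds N) N et (aeval (M.VG (Ds N)) (X ^ 5 * b) (M.head Ds N x))‖ ≤
        2 ^ 40 * (‖tailP N x‖ / (‖M.Th Ds x‖ / 2)) *
          (‖aeval M.V b (M.JG (Ds N) (M.head Ds N x))‖ + 1) + 2 * (1 / 2) ^ N

/-- There is no zero pair. -/
def S_Fin : Prop :=
  ∀ (M : Model) (Ds : ℕ → ℕ) (x et : KS), Good M Ds → Perp M Ds et → ‖et‖ ≤ 1 → ‖x‖ ≤ 1 →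
    M.Th Ds x ≠ 0 → (∀ l : ℕ, inner ℂ et ((M.VK Ds ^ l) x) = 0) → et = 0

/-- From the model to the operator. -/
def S_HT : Prop := ∀ M : Model, NoInv

end Pool.Agent.IS
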