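import Pool.Agent.P.MP_f981b0_an.IS.Mod
import Pool.Agent.P.MP_f981b0_an.IS.Glob

/-!
Project IS: assembly of the model and the choice of the sequence of levels.
-/

set_option autoImplicit false

open Polynomial Finset Filter Topology
open scoped Nat Real

noncomputable section

namespace Pool.Agent.IS

theorem model_of (h2 : SM_Diag) (h5 : SM_V) (h6 : SM_d) (h7 : SM_YN) (h8 : SM_Low) (h9 : SM_F5)
    (h10 : SM_Ipl) : Nonempty Model := by
  obtain ⟨-, hp2, hp3, -, hJ, hw1, hw, hmono, hgain⟩ := h2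
  obtain ⟨hV, hsub, hacc⟩ := h5
  obtain ⟨-, hn, hpow⟩ := h7
  obtain ⟨hl1, hl2, hl3, hl4⟩ := h8
  obtain ⟨hF5, A, hA0, hA⟩ := h9
  have ho : ∀ D k, Adm D k → ∀ i, o1 i ≤ om D k i := fun D k h i => ((hw D k h).2.1 i).1
  have hpos : ∀ D k, Adm D k → ∀ i, 0 < om D k i := fun D k h i => ((hw D k h).1.2.2.2 i).1
  refine ⟨{
    V := VW o1
    one := sg 0
    pi := piW
    VS := fun D k => VW (om D k)
    dS := fun D k => dW (om D k)
    evS := fun D k => evW (om D k)
    JS := fun D k => JW (om D k) o1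
    inc := fun D k D' k' => JW (om D k) (om D' k')
    A := A
    one_norm := by simp [sg]
    accr := hacc
    V_norm := hn
    V_pow := hpow
    A_nonneg := hA0
    coeff_le := hA
    ipl := h10
    pi_norm := fun m => (hp2 m).1
    pi_norm' := fun m => (hp2 m).2
    pi_tendsto := hp3
    VS_sub := fun D k h => (hsub D k h).1
    VS_tail := fun D k h => (hV _ k (hw D k h).1).2.2.2.1
    VS_pow := fun D k h => (hl4 D k h).2.2
    ev_norm := fun D k h => (h6 D k h).1
    d_norm := fun D k h => (h6 D k h).2.1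
    Vd := fun D k h => (h6 D k h).2.2.1
    dV := fun D k h => (h6 D k h).2.2.2.1
    evV := fun D k h => (h6 D k h).2.2.2.2.1
    ev_one := fun D k h => (h6 D k h).2.2.2.2.2.1
    d_one := fun D k h => (h6 D k h).2.2.2.2.2.2
    J_norm := fun D k h => (hJ _ _ fun i => ⟨by simp [o1], ho D k h i⟩).2.1
    J_V := fun D k h => (hl1 _ k _ 0 (hw D k h).1 hw1 (ho D k h)).1
    J_one := fun D k h => (hl1 _ k _ 0 (hw D k h).1 hw1 (ho D k h)).2.1
    J_pi := fun D k h => (hl1 _ k _ 0 (hw D k h).1 hw1 (ho D k h)).2.2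
    low := fun D k h => (hl4 D k h).1
    pi_poly := fun D k h => hl3 _ k (hw D k h).1
    fact := fun D k h => (hl4 D k h).2.1
    F5 := hF5
    inc_norm := fun D k D' k' h h' a b =>
      (hJ _ _ fun i => ⟨hpos D' k' h' i, hmono D k D' k' h h' a b i⟩).2.1
    inc_J := hl2
    inc_V := fun D k D' k' h h' a b =>
      (hl1 _ k _ k' (hw D k h).1 (hw D' k' h').1 (hmono D k D' k' h h' a b)).1
    inc_one := fun D k D' k' h h' a b =>
      (hl1 _ k _ k' (hw D k h).1 (hw D' k' h').1 (hmono D k D' k' h h' a b)).2.1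
    inc_gain := hgain }⟩

theorem exists_good (hP : S_Par) (M : Model) : ∃ Ds : ℕ → ℕ, Good M Ds := by
  classical
  have h0 : Big 65536 := ⟨le_rfl, by norm_num⟩
  choose! f hf using hP M
  let Ds : ℕ → ℕ := fun n => f^[n] 65536
  have hs : ∀ n, Ds (n + 1) = f (Ds n) := fun n => Function.iterate_succ_apply' f n _
  have hb : ∀ n, Big (Ds n) := by
    intro n
    induction n with
    | zero => exact h0
    | succ n ih => rw [hs]; exact (hf _ ih).1
  exact ⟨Ds, hb 0, fun n => by rw [hs]; exact hf _ (hb n)⟩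

end Pool.Agent.IS
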