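import Pool.Agent.P.MP_f981b0_an.IS.Stmt
import Pool.Agent.P.MP_f981b0_an.IS27.Ser

/-!
Almost accretive operators.
-/

set_option autoImplicit false

open Polynomial Finset Filter Topology
open scoped Nat

noncomputable section

namespace Pool.Agent.IS

open Pool.Agent.P.MP_f981b0_an

theorem p_Acc (h1 : S_Res) : S_Acc := by
  intro H _ _ _ A k Z hk hA hs
  have hA' : IS27.Acc A k := hA
  refine ⟨fun t hz ht => ?_, fun n hn hZ hkn => ?_⟩
  · have h0 : t ≠ 0 := by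
      rintro rfl
      rw [Complex.zero_re] at ht
      linarith
    exact hA'.res ht h0 (h1.1 H A Z t⁻¹ hs hz).2.1
  · have hn' : (0 : ℝ) < n := Nat.cast_pos.2 hn
    have hnc : (n : ℂ) ≠ 0 := Nat.cast_ne_zero.2 hn.ne'
    obtain ⟨-, h2, h3, h4, -⟩ := h1.1 H A Z (-(n : ℂ)) hs (by simpa using hZ)
    have e : (((n : ℝ)⁻¹ : ℝ) : ℂ) = (n : ℂ)⁻¹ := by simp
    have h2' : (1 + ((((n : ℝ)⁻¹ : ℝ) : ℂ))⁻¹ • A) * res A (-(n : ℂ)) = 1 := by
      rwa [e, inv_inv, ← sub_neg_eq_add, ← neg_smul]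
    have h3' : res A (-(n : ℂ)) * (1 + ((((n : ℝ)⁻¹ : ℝ) : ℂ))⁻¹ • A) = 1 := by
      rwa [e, inv_inv, ← sub_neg_eq_add, ← neg_smul]
    have hτ : (0 : ℝ) < (n : ℝ)⁻¹ := inv_pos.2 hn'
    have hk2 : k ≤ (n : ℝ)⁻¹ / 2 := by
      rwa [one_div, mul_inv, mul_comm, ← div_eq_mul_inv] at hkn
    have hc : ((((n : ℝ)⁻¹ : ℝ) : ℂ)) ≠ 0 := Complex.ofReal_ne_zero.2 hτ.ne'
    have hW : ‖Wop A n‖ ≤ 1 := hA'.w_le hτ hk2 h2'
    have h5 : (1 - Wop A n) * A = ((((n : ℝ)⁻¹ : ℝ) : ℂ)) • Wop A n := by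
      rw [Wop, sub_sub_cancel]
      exact IS27.w_rel hc h3'
    refine ⟨?_, ?_, hW, ?_, by rw [h5, e], fun N => ?_⟩
    · have h6 : res A (-(n : ℂ)) = 1 - Wop A n := by rw [Wop, sub_sub_cancel]
      rw [h6]
      refine (norm_sub_le _ _).trans ?_
      have := ContinuousLinearMap.norm_id_le (𝕜 := ℂ) (E := H)
      change ‖ContinuousLinearMap.id ℂ H‖ + _ ≤ _
      linarith
    · rw [mul_smul_comm, IS27.w_rel' hc h2', e, smul_smul, mul_inv_cancel₀ hnc, one_smul, Wop]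
    · exact (Commute.one_left A).sub_left h4
    · rw [div_eq_mul_inv]
      exact IS27.norm_one_sub_pow_mul hτ.le h5 hW N

end Pool.Agent.IS
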