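import Pool.Agent.P.MP_f981b0_an.IS.Stmt

/-!
Package B2 of the project IS: the product of the symbol and of `yh` is bounded on the strip.
-/

set_option autoImplicit false

open Polynomial Finset Filter Topology
open scoped Nat Real

noncomputable section

namespace Pool.Agent.IS

theorem B2_n1_pos {D : ℕ} (h : Big D) : (0 : ℝ) < n1 D := by
  have h1 : 0 < D := by have := h.1; omega
  have : 0 < n1 D := by unfold n1; positivity
  exact_mod_cast this

theorem B2_tau {D : ℕ} : tau D * (n1 D : ℝ) = aa D := by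
  have h := th_inv D
  unfold tau n1 aa
  push_cast
  have h2 : (2 : ℝ) ^ (20 * D) = ((2 : ℝ) ^ D) ^ 20 := by rw [← pow_mul, mul_comm]
  rw [h2]
  generalize (2 : ℝ) ^ D = x at h
  generalize th D = s at h
  have h3 : s ^ 20 * x ^ 20 = 1 := by rw [← mul_pow, mul_comm, h, one_pow]
  calc s ^ 20 * (64 * (D : ℝ) * x ^ 20) = 64 * (D : ℝ) * (s ^ 20 * x ^ 20) := by ring
    _ = 64 * (D : ℝ) := by rw [h3, mul_one]

theorem B2_re (D : ℕ) (p : ℂ) : (tp D p).re = (p.re - 1) / (2 * (n1 D : ℝ)) := by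
  unfold tp
  have : (2 * (n1 D : ℂ)) = ((2 * (n1 D : ℝ) : ℝ) : ℂ) := by push_cast; ring
  rw [this, Complex.div_ofReal_re]
  simp

theorem B2_norm (D : ℕ) (p : ℂ) : ‖tp D p‖ = ‖p - 1‖ / (2 * (n1 D : ℝ)) := by
  unfold tp
  rw [norm_div, norm_mul]
  simp

theorem B2_p1 {p : ℂ} (h0 : 0 ≤ p.re) : p + 1 ≠ 0 := by
  intro h
  have := congrArg Complex.re h
  simp at this
  linarith

theorem B2_add {D : ℕ} (hD : Big D) (p : ℂ) :
    tp D p + 1 / (n1 D : ℂ) = (p + 1) / (2 * (n1 D : ℂ)) := by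
  have hn : (n1 D : ℂ) ≠ 0 := by
    have := (B2_n1_pos hD).ne'
    exact_mod_cast this
  unfold tp
  field_simp
  ring

theorem B2_wt {D : ℕ} (hD : Big D) {p : ℂ} (h0 : 0 ≤ p.re) : wt D (tp D p) = wp p := by
  have hn : (n1 D : ℂ) ≠ 0 := by
    have := (B2_n1_pos hD).ne'
    exact_mod_cast this
  have hp := B2_p1 h0
  unfold wt
  rw [B2_add hD]
  unfold tp wp
  field_simp

theorem B2_sq (p : ℂ) : ‖p - 1‖ ^ 2 = (p.re - 1) ^ 2 + p.im ^ 2 ∧
    ‖p + 1‖ ^ 2 = (p.re + 1) ^ 2 + p.im ^ 2 := by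
  constructor <;> rw [Complex.sq_norm, Complex.normSq_apply] <;> simp <;> ring

theorem B2_wp_le {p : ℂ} (h0 : 0 ≤ p.re) : ‖wp p‖ ≤ 1 := by
  have hp : 0 < ‖p + 1‖ := norm_pos_iff.mpr (B2_p1 h0)
  obtain ⟨e1, e2⟩ := B2_sq p
  unfold wp
  rw [norm_div, div_le_one hp]
  refine (abs_le_of_sq_le_sq' ?_ hp.le).2
  nlinarith

theorem B2_wp_ge {p : ℂ} (h0 : 0 ≤ p.re) (h1 : p.re ≤ 1 / 4) : 1 / 2 ≤ ‖wp p‖ := by
  have hp : 0 < ‖p + 1‖ := norm_pos_iff.mpr (B2_p1 h0)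
  obtain ⟨e1, e2⟩ := B2_sq p
  unfold wp
  rw [norm_div, le_div_iff₀ hp]
  refine (abs_le_of_sq_le_sq' ?_ (norm_nonneg _)).2
  nlinarith [sq_nonneg p.im]

theorem p_B2 (h1 : S_Res) (h2 : S_G1) (h3 : S_Y3) (h4 : S_Rem) (h5 : S_Yh) : S_B2 := by
  intro M D y X c e e' x0 hD hy hX hR p p0 p1 p2
  have hn := B2_n1_pos hD
  have hG := h2 M D hD
  have hY := h3 M D y e' hD hy
  obtain ⟨-, -, -, -, hid, hb, -, -⟩ := h4 M D X c e x0 hD hX
  obtain ⟨-, -, -, hyh⟩ := h5 M D y e' hD hy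
  have hD1 : (65536 : ℝ) ≤ D := by exact_mod_cast hD.1
  have haa : (aa D : ℝ) = 64 * D := by unfold aa; push_cast; ring
  set t := tp D p with ht
  have hre : t.re ≤ -(3 / (8 * (n1 D : ℝ))) := by
    rw [ht, B2_re, div_le_iff₀ (by positivity)]
    have : -(3 / (8 * (n1 D : ℝ))) * (2 * (n1 D : ℝ)) = -(3 / 4) := by field_simp; ring
    rw [this]; linarith
  have hpos : 0 < 3 / (8 * (n1 D : ℝ)) := by positivity
  have ht0 : t ≠ 0 := by
    intro h
    rw [h] at hre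
    simp only [Complex.zero_re] at hre
    linarith
  have htn : ‖t‖ ≤ 9 * tau D := by
    rw [ht, B2_norm, div_le_iff₀ (by positivity)]
    have h6 : 9 * tau D * (2 * (n1 D : ℝ)) = 18 * aa D := by
      rw [← B2_tau (D := D)]; ring
    rw [h6]
    have h7 : ‖p - 1‖ ≤ |(p - 1).re| + |(p - 1).im| := Complex.norm_le_abs_re_add_abs_im _
    have h8 : |(p - 1).re| ≤ 1 := by
      rw [abs_le]; simp only [Complex.sub_re, Complex.one_re]; constructor <;> linarith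
    have h9 : (p - 1).im = p.im := by simp
    rw [h9] at h7
    linarith
  have hti : ‖t⁻¹‖ ≤ 3 * (n1 D : ℝ) := by
    have h6 : 3 / (8 * (n1 D : ℝ)) ≤ ‖t‖ := by
      have := Complex.abs_re_le_norm t
      have h7 : -t.re ≤ |t.re| := neg_le_abs _
      linarith
    rw [norm_inv, inv_le_comm₀ (norm_pos_iff.mpr ht0) (by positivity)]
    refine le_trans ?_ h6
    rw [inv_eq_one_div, div_le_div_iff₀ (by positivity) (by positivity)]
    nlinarith
  have hadd : t + 1 / (n1 D : ℂ) ≠ 0 := by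
    rw [ht, B2_add hD]
    have hn' : (n1 D : ℂ) ≠ 0 := by exact_mod_cast hn.ne'
    exact div_ne_zero (B2_p1 p0) (mul_ne_zero two_ne_zero hn')
  have hw : wt D t = wp p := B2_wt hD p0
  have e1 := hid t (wp p) ht0 htn hadd hw.symm
  have e2 := ((hb t (wp p) htn (B2_wp_le p0)).2 y hY 0)
  have e3 := hyh t ht0 hti hadd (by rw [hw]; exact B2_wp_ge p0 p1)
  have e4 := hR t hre htn
  obtain ⟨-, -, hinv, -, -⟩ := h1.1 E (M.VG D) (3 * n1 D) t⁻¹ hG.sm hti
  set r := M.rem D X c t (wp p) with hr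
  have e5 : res (M.VG D) t⁻¹ (r - t⁻¹ • M.VG D r) = r := by
    have := congrArg (fun T : E →L[ℂ] E => T r) hinv
    simpa using this
  have e6 : y (res (M.VG D) t⁻¹ (M.xp D X c)) =
      M.Ft D X c t (wp p) * y (res (M.VG D) t⁻¹ M.one) - y r := by
    rw [e1, map_sub, e5, map_smul, map_sub, map_smul, smul_eq_mul]
  have e7 : M.Ff D X c p * M.yh D y (wp p) = y (res (M.VG D) t⁻¹ (M.xp D X c)) + y r := by
    rw [e6, ← e3, hw]
    unfold Model.Ff
    ring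
  have e8 : 128 * (aa D : ℝ) ≤ Real.exp (Lam D) := by
    have h6 := Real.add_one_le_exp (Lam D)
    have h7 : 128 * (aa D : ℝ) ≤ Lam D := by
      rw [haa]; unfold Lam; nlinarith
    linarith
  simp only [pow_zero, one_apply_eq_self] at e2
  rw [e7]
  calc _ ≤ ‖y (res (M.VG D) t⁻¹ (M.xp D X c))‖ + ‖y r‖ := norm_add_le _ _
    _ ≤ 64 * (aa D : ℝ) + Real.exp (Lam D) / 2 := add_le_add e4 e2
    _ ≤ _ := by linarith

end Pool.Agent.IS
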