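import Pool.Agent.P.MP_f981b0_an.IS.Stmt

set_option autoImplicit false

open Polynomial Finset Filter Topology
open scoped Nat Real

noncomputable section

namespace Pool.Agent.IS

/-- the weights of the Cauchy-Schwarz step -/
def C1_aw (L : ℕ) (A : ℝ) (k : ℕ) : ℝ := if k ≤ L then 1 else min 1 (A / ((k:ℝ) - L))

theorem C1_sum_min (A : ℝ) (hA : 0 ≤ A) (n : ℕ) :
    ∑ m ∈ range n, (min 1 (A / ((m:ℝ) + 1))) ^ 2 ≤ 2 * A := by
  have key : ∀ n : ℕ, ∑ m ∈ range n, (min 1 (A / ((m:ℝ) + 1))) ^ 2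
      ≤ if (n:ℝ) ≤ A then (n:ℝ) else 2 * A - A ^ 2 / n := by
    intro n
    induction n with
    | zero => simp [hA]
    | succ n ih =>
      rw [sum_range_succ]
      have hn : (0:ℝ) ≤ n := Nat.cast_nonneg n
      have h0 : 0 ≤ min 1 (A / ((n:ℝ) + 1)) := le_min (by norm_num) (by positivity)
      have h1 : (min 1 (A / ((n:ℝ) + 1))) ^ 2 ≤ 1 := pow_le_one₀ h0 (min_le_left _ _)
      have h2 : (min 1 (A / ((n:ℝ) + 1))) ^ 2 ≤ (A / ((n:ℝ) + 1)) ^ 2 :=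
        pow_le_pow_left₀ h0 (min_le_right _ _) 2
      push_cast
      by_cases c1 : (n:ℝ) + 1 ≤ A
      · have c2 : (n:ℝ) ≤ A := by linarith
        rw [if_pos c2] at ih
        rw [if_pos c1]
        linarith
      · rw [if_neg c1]
        push Not at c1
        obtain ⟨x, hx⟩ : ∃ x : ℝ, x = A / ((n:ℝ) + 1) := ⟨_, rfl⟩
        have hA' : A = x * ((n:ℝ) + 1) := by rw [hx]; field_simp
        have e1 : A ^ 2 / ((n:ℝ) + 1) = x ^ 2 * ((n:ℝ) + 1) := by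
          rw [hx]; field_simp
        rw [← hx] at h2
        rw [e1, ← hx]
        have hx0 : 0 ≤ x := by rw [hx]; positivity
        have hx1 : x ≤ 1 := by rw [hx, div_le_one (by positivity)]; exact c1.le
        by_cases c2 : (n:ℝ) ≤ A
        · rw [if_pos c2] at ih
          have h3 : 0 ≤ (1 - x) * (x * ((n:ℝ) + 2) - n) := by
            apply mul_nonneg (by linarith)
            nlinarith
          nlinarith
        · rw [if_neg c2] at ih
          push Not at c2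
          have hn0 : (0:ℝ) < n := lt_of_le_of_lt hA c2
          have h3 : x ^ 2 * ((n:ℝ) + 2) ≤ A ^ 2 / n := by
            rw [le_div_iff₀ hn0, hA']
            nlinarith [sq_nonneg x]
          nlinarith
  refine (key n).trans ?_
  split_ifs with c
  · linarith
  · have : 0 ≤ A ^ 2 / n := by positivity
    linarith

theorem C1_sum_aw (L : ℕ) (A : ℝ) (hA : 0 ≤ A) (n : ℕ) :
    ∑ k ∈ range n, C1_aw L A k ^ 2 ≤ L + 1 + 2 * A := by
  calc ∑ k ∈ range n, C1_aw L A k ^ 2 ≤ ∑ k ∈ range (L + 1 + n), C1_aw L A k ^ 2 :=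
        sum_le_sum_of_subset_of_nonneg (range_mono (by omega)) fun _ _ _ => sq_nonneg _
    _ = ∑ k ∈ range (L + 1), C1_aw L A k ^ 2 + ∑ m ∈ range n, C1_aw L A (L + 1 + m) ^ 2 :=
        sum_range_add _ _ _
    _ ≤ _ := by
        apply add_le_add
        · have : ∀ k ∈ range (L + 1), C1_aw L A k ^ 2 = 1 := by
            intro k hk
            have : k ≤ L := by have := mem_range.1 hk; omega
            simp [C1_aw, this]
          rw [sum_congr rfl this]; simp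
        · refine le_trans (le_of_eq ?_) (C1_sum_min A hA n)
          apply sum_congr rfl
          intro m _
          have : ¬ (L + 1 + m ≤ L) := by omega
          simp only [C1_aw, this, if_false]
          congr 3
          push_cast; ring

/-- (C1) for an abstract linear realisation `T` of polynomials. -/
theorem C1_core (D N L kp : ℕ) (Cst e B Mf : ℝ) (T : ℂ[X] →ₗ[ℂ] E) (ph : ℕ → ℂ[X] →ₗ[ℂ] ℂ)
    (n : ℕ → ℝ) (hN : 1 ≤ N) (hC : 0 ≤ Cst) (he : 0 ≤ e) (hB : 0 ≤ B) (hM : 0 ≤ Mf)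
    (hn0 : ∀ k, 0 ≤ n k)
    (hn : ∀ k p, p.natDegree ≤ D → ‖ph k p‖ ≤ n k * ‖T p‖)
    (hsum : ∑ k ∈ range kp, n k ^ 2 ≤ B ^ 2)
    (hper : ∀ (j k : ℕ) (h : ℂ[X]), 2 * j + 1 ≤ max 5 N → h.natDegree ≤ D → X ^ (2 * j + 1) ∣ h →
      (L:ℝ) + Cst / ((j:ℝ) + 1 / 2) ^ 4 ≤ k → ‖ph k h‖ ≤ e * ‖T h‖)
    (P : ℂ[X]) (h5 : X ^ 5 ∣ P) (hPD : P.natDegree ≤ D) (hP : ‖T P‖ ≤ Mf)
    (hcut : ∀ J : ℕ, ∃ h : ℂ[X], h.natDegree ≤ D ∧ X ^ J ∣ h ∧
      ‖T (P - h)‖ ≤ min 1 (6144 * ((J:ℝ) / N) ^ 4) * Mf) :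
    ‖∑ k ∈ range kp, ph k P‖ ≤
      (kp * (2 * e) + B * √(L + 1 + 2 * (6144 * 81 * Cst / (N:ℝ) ^ 4))) * Mf := by
  classical
  set A := 6144 * 81 * Cst / (N:ℝ) ^ 4 with hAdef
  have hN' : (0:ℝ) < N := by exact_mod_cast hN
  have hA : 0 ≤ A := by positivity
  have heM : 0 ≤ e * Mf := mul_nonneg he hM
  have main : ∀ k, ∃ h : ℂ[X], h.natDegree ≤ D ∧ ‖ph k h‖ ≤ 2 * e * Mf ∧
      ‖T (P - h)‖ ≤ C1_aw L A k * Mf := by
    intro k
    by_cases hk : k ≤ L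
    · refine ⟨0, by simp, by rw [map_zero, norm_zero]; linarith, ?_⟩
      simpa [C1_aw, hk] using hP
    have hkL : (1:ℝ) ≤ (k:ℝ) - L := by
      have : L + 1 ≤ k := by omega
      have : ((L + 1 : ℕ) : ℝ) ≤ k := by exact_mod_cast this
      push_cast at this; linarith
    have haw : C1_aw L A k = min 1 (A / ((k:ℝ) - L)) := by simp [C1_aw, hk]
    have haw0 : 0 ≤ C1_aw L A k := by
      rw [haw]; exact le_min (by norm_num) (div_nonneg hA (by linarith))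
    have hex : ∃ j : ℕ, (L:ℝ) + Cst / ((j:ℝ) + 1 / 2) ^ 4 ≤ k := by
      obtain ⟨j, hj⟩ := exists_nat_ge (Cst + 1)
      refine ⟨j, ?_⟩
      have h1 : (1:ℝ) ≤ (j:ℝ) + 1 / 2 := by linarith
      have h2 : (j:ℝ) + 1 / 2 ≤ ((j:ℝ) + 1 / 2) ^ 4 := le_self_pow₀ h1 (by norm_num)
      have h3 : Cst / ((j:ℝ) + 1 / 2) ^ 4 ≤ 1 := by
        rw [div_le_one (by positivity)]; linarith
      linarith
    set j := Nat.find hex with hjdef
    have hj : (L:ℝ) + Cst / ((j:ℝ) + 1 / 2) ^ 4 ≤ k := Nat.find_spec hex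
    by_cases hj2 : j ≤ 2
    · refine ⟨P, hPD, ?_, ?_⟩
      · refine (hper j k P (le_trans (by omega) (le_max_left _ _)) hPD
          ((pow_dvd_pow X (by omega)).trans h5) hj).trans ?_
        have := mul_le_mul_of_nonneg_left hP he
        linarith
      · rw [sub_self, map_zero, norm_zero]; exact mul_nonneg haw0 hM
    have hmin : ¬ ((L:ℝ) + Cst / (((j - 1 : ℕ):ℝ) + 1 / 2) ^ 4 ≤ k) :=
      Nat.find_min hex (by omega)
    have hj3 : (3:ℝ) ≤ j := by exact_mod_cast (by omega : 3 ≤ j)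
    have hc : (((j - 1 : ℕ):ℝ) + 1 / 2) = (j:ℝ) - 1 / 2 := by
      rw [Nat.cast_sub (by omega)]; push_cast; ring
    rw [hc] at hmin
    push Not at hmin
    have hpos : 0 < ((j:ℝ) - 1 / 2) ^ 4 := pow_pos (by linarith) 4
    have h1 : ((k:ℝ) - L) * ((j:ℝ) - 1 / 2) ^ 4 ≤ Cst := by
      have : (k:ℝ) - L ≤ Cst / ((j:ℝ) - 1 / 2) ^ 4 := by linarith
      rwa [le_div_iff₀ hpos] at this
    have h2 : ((2 * j + 1 : ℕ) : ℝ) ^ 4 ≤ 81 * ((j:ℝ) - 1 / 2) ^ 4 := by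
      have : ((2 * j + 1 : ℕ) : ℝ) ≤ 3 * ((j:ℝ) - 1 / 2) := by push_cast; linarith
      calc _ ≤ (3 * ((j:ℝ) - 1 / 2)) ^ 4 := pow_le_pow_left₀ (Nat.cast_nonneg _) this 4
        _ = _ := by ring
    have h3 : 6144 * ((((2 * j + 1 : ℕ) : ℝ)) / N) ^ 4 ≤ A / ((k:ℝ) - L) := by
      rw [le_div_iff₀ (by linarith), hAdef, div_pow, le_div_iff₀ (by positivity)]
      have e1 : 6144 * (((2 * j + 1 : ℕ) : ℝ) ^ 4 / (N:ℝ) ^ 4) * ((k:ℝ) - L) * (N:ℝ) ^ 4
          = 6144 * (((2 * j + 1 : ℕ) : ℝ) ^ 4 * ((k:ℝ) - L)) := by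
        field_simp
      rw [e1]
      have : ((2 * j + 1 : ℕ) : ℝ) ^ 4 * ((k:ℝ) - L) ≤ 81 * ((j:ℝ) - 1 / 2) ^ 4 * ((k:ℝ) - L) :=
        mul_le_mul_of_nonneg_right h2 (by linarith)
      nlinarith
    by_cases hJN : 2 * j + 1 ≤ N
    · obtain ⟨h, hd, hdv, hPh⟩ := hcut (2 * j + 1)
      refine ⟨h, hd, ?_, ?_⟩
      · refine (hper j k h (hJN.trans (le_max_right _ _)) hd hdv hj).trans ?_
        have e1 : T h = T P - T (P - h) := by rw [map_sub]; abel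
        have h6 : ‖T (P - h)‖ ≤ Mf :=
          hPh.trans (mul_le_of_le_one_left hM (min_le_left _ _))
        have h7 : ‖T h‖ ≤ 2 * Mf := by
          rw [e1]; exact (norm_sub_le _ _).trans (by linarith)
        have := mul_le_mul_of_nonneg_left h7 he
        linarith
      · refine hPh.trans (mul_le_mul_of_nonneg_right ?_ hM)
        rw [haw]; exact min_le_min le_rfl h3
    · refine ⟨0, by simp, by rw [map_zero, norm_zero]; linarith, ?_⟩
      have h4 : (1:ℝ) ≤ (((2 * j + 1 : ℕ) : ℝ)) / N := by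
        rw [le_div_iff₀ hN', one_mul]; exact_mod_cast (by omega : N ≤ 2 * j + 1)
      have h5' : (1:ℝ) ≤ ((((2 * j + 1 : ℕ) : ℝ)) / N) ^ 4 := one_le_pow₀ h4
      have : C1_aw L A k = 1 := by rw [haw]; exact min_eq_left (by linarith)
      rw [this]; simpa using hP
  have each : ∀ k, ‖ph k P‖ ≤ 2 * e * Mf + n k * C1_aw L A k * Mf := by
    intro k
    obtain ⟨h, hd, h1, h2⟩ := main k
    have e1 : ph k P = ph k h + ph k (P - h) := by rw [map_sub]; ring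
    have hd2 : (P - h).natDegree ≤ D := (natDegree_sub_le _ _).trans (max_le hPD hd)
    have h3 : ‖ph k (P - h)‖ ≤ n k * C1_aw L A k * Mf := by
      refine (hn k _ hd2).trans ?_
      rw [mul_assoc]
      exact mul_le_mul_of_nonneg_left h2 (hn0 k)
    rw [e1]
    exact (norm_add_le _ _).trans (add_le_add h1 h3)
  have cs : ∑ k ∈ range kp, n k * C1_aw L A k ≤ B * √(L + 1 + 2 * A) := by
    refine (Real.sum_mul_le_sqrt_mul_sqrt _ _ _).trans ?_
    apply mul_le_mul _ (Real.sqrt_le_sqrt (C1_sum_aw L A hA kp)) (Real.sqrt_nonneg _) hB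
    exact Real.sqrt_le_iff.2 ⟨hB, hsum⟩
  calc ‖∑ k ∈ range kp, ph k P‖ ≤ ∑ k ∈ range kp, ‖ph k P‖ := norm_sum_le _ _
    _ ≤ ∑ k ∈ range kp, (2 * e * Mf + n k * C1_aw L A k * Mf) := sum_le_sum fun k _ => each k
    _ = kp * (2 * e) * Mf + (∑ k ∈ range kp, n k * C1_aw L A k) * Mf := by
        rw [sum_add_distrib, sum_mul]; simp; ring
    _ ≤ kp * (2 * e) * Mf + B * √(L + 1 + 2 * A) * Mf := by
        have := mul_le_mul_of_nonneg_right cs hM
        linarith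
    _ = _ := by ring

theorem C1_intertw (i A B : E →L[ℂ] E) (h : ∀ v, i (A v) = B (i v)) (p : ℂ[X]) (v : E) :
    i (aeval A p v) = aeval B p (i v) := by
  have hp : ∀ (l : ℕ) (v : E), i ((A ^ l) v) = (B ^ l) (i v) := by
    intro l
    induction l with
    | zero => intro v; simp
    | succ l ih =>
      intro v
      rw [pow_succ, pow_succ, mul_apply_eq_comp, mul_apply_eq_comp, ih, h]
  induction p using Polynomial.induction_on' with
  | add p q hp' hq => simp [hp', hq]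
  | monomial n a =>
    rw [aeval_monomial, aeval_monomial, mul_apply_eq_comp,
      mul_apply_eq_comp, Algebra.algebraMap_eq_smul_one, ← hp]
    simp

/-- `p ↦ p(A) v` as a linear map. -/
def C1_T (A : E →L[ℂ] E) (v : E) : ℂ[X] →ₗ[ℂ] E where
  toFun p := aeval A p v
  map_add' p q := by simp
  map_smul' a p := by simp

theorem C1_num1 (D : ℕ) (hD : Big D) :
    (k0 D : ℝ) * (2 * (2 ^ 44 * (D : ℝ) ^ 6 * th D ^ 16)) ≤ 1 / (2 * (D : ℝ) ^ 3) := by
  have h1 := hD.num'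
  have h2 := th_inv D
  have h3 := th_pos D
  have hD1 : (1:ℝ) ≤ D := by exact_mod_cast (le_trans (by norm_num) hD.1 : 1 ≤ D)
  have e : (k0 D : ℝ) = ((2:ℝ) ^ D) ^ 15 := by
    unfold k0; push_cast; rw [mul_comm, pow_mul]
  rw [e, le_div_iff₀ (by positivity)]
  generalize (2:ℝ) ^ D = x at *
  generalize th D = t at *
  have e2 : x ^ 15 * (2 * (2 ^ 44 * (D : ℝ) ^ 6 * t ^ 16)) * (2 * (D : ℝ) ^ 3)
      = (x * t) ^ 15 * (2 ^ 46 * (D:ℝ) ^ 9 * t) := by ring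
  rw [e2, h2, one_pow, one_mul]
  refine le_trans ?_ h1
  apply mul_le_mul_of_nonneg_right _ h3.le
  rw [mul_comm]
  exact mul_le_mul (pow_le_pow_right₀ hD1 (by norm_num)) (by norm_num) (by positivity)
    (by positivity)

theorem C1_num2 (D : ℕ) (hD : Big D) :
    del D * √(((D * L1 D + 2 ^ (11 * D) : ℕ) : ℝ) + 1) ≤ 1 / (2 * (D : ℝ) ^ 3) := by
  have h1 := hD.num'
  have h2 := th_inv D
  have h3 := th_pos D
  have hD1 : (1:ℝ) ≤ D := by exact_mod_cast (le_trans (by norm_num) hD.1 : 1 ≤ D)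
  have hx1 : (1:ℝ) ≤ 2 ^ D := one_le_pow₀ (by norm_num)
  have e : ((D * L1 D + 2 ^ (11 * D) : ℕ) : ℝ)
      = (2 ^ 19 * (D:ℝ) ^ 2 + 1) * ((2:ℝ) ^ D) ^ 11 := by
    unfold L1 aa; push_cast; rw [mul_comm 11 D, pow_mul]; ring
  rw [e]
  unfold del
  generalize (2:ℝ) ^ D = x at *
  generalize th D = t at *
  have ht1 : t ≤ 1 := by nlinarith
  have hs : √((2 ^ 19 * (D:ℝ) ^ 2 + 1) * x ^ 11 + 1) ≤ 2 ^ 10 * D * x ^ 6 := by
    apply Real.sqrt_le_iff.2 ⟨by positivity, ?_⟩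
    have a1 : (1:ℝ) ≤ x ^ 11 := one_le_pow₀ hx1
    have a2 : x ^ 11 ≤ x ^ 12 := pow_le_pow_right₀ hx1 (by norm_num)
    have a3 : (1:ℝ) ≤ (D:ℝ) ^ 2 := one_le_pow₀ hD1
    have a4 : (2 ^ 19 * (D:ℝ) ^ 2 + 1) * x ^ 11 + 1 ≤ (2 ^ 19 * (D:ℝ) ^ 2 + 2) * x ^ 11 := by
      linarith
    have a5 : (2 ^ 19 * (D:ℝ) ^ 2 + 2) * x ^ 11 ≤ (2 ^ 20 * (D:ℝ) ^ 2) * x ^ 12 :=
      mul_le_mul (by linarith) a2 (by positivity) (by positivity)
    calc _ ≤ (2 ^ 20 * (D:ℝ) ^ 2) * x ^ 12 := a4.trans a5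
      _ = _ := by ring
  refine (mul_le_mul_of_nonneg_left hs (by positivity)).trans ?_
  rw [le_div_iff₀ (by positivity)]
  have e2 : t ^ 7 * (2 ^ 10 * D * x ^ 6) * (2 * (D : ℝ) ^ 3)
      = (x * t) ^ 6 * (2 ^ 11 * (D:ℝ) ^ 4 * t) := by ring
  rw [e2, h2, one_pow, one_mul]
  refine le_trans ?_ h1
  apply mul_le_mul_of_nonneg_right _ h3.le
  rw [mul_comm]
  exact mul_le_mul (pow_le_pow_right₀ hD1 (by norm_num)) (by norm_num) (by positivity)
    (by positivity)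

theorem p_C1 (hG1 : S_G1) (hPerK : S_PerK) : S_C1 := by
  intro M D y e' s hD hY hGr hs f hf
  have G := hG1 M D hD
  obtain ⟨d, hd⟩ := hD.2
  have hD0 := hD.1
  have hD1 : (1:ℝ) ≤ D := by exact_mod_cast (le_trans (by norm_num) hD.1 : 1 ≤ D)
  have hdel : 0 ≤ del D := by unfold del; exact pow_nonneg (th_pos D).le 7
  have hth := th_pos D
  set Mf := ‖aeval M.V f M.one‖ with hMf
  have hM : 0 ≤ Mf := norm_nonneg _
  let ph : ℕ → ℂ[X] →ₗ[ℂ] ℂ := fun k =>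
    (y : E →ₗ[ℂ] ℂ) ∘ₗ (M.su D k : E →ₗ[ℂ] E) ∘ₗ C1_T (M.VG D) M.one
  have hph : ∀ k p, ph k p = y (M.su D k (aeval (M.VG D) p M.one)) := fun _ _ => rfl
  have hT : ∀ p, C1_T M.V M.one p = aeval M.V p M.one := fun _ => rfl
  have hj : ∀ p : ℂ[X], p.natDegree ≤ D →
      aeval (M.VG D) p M.one = M.j D (aeval M.V p M.one) := by
    intro p hp
    rw [← M.low D (kap D) G.admF p hp]
    have h1 := C1_intertw (M.j D) (M.VS D (kap D)) (M.VG D)
      (M.inc_V _ _ _ _ G.admF G.admG G.le_DG G.kG_le) p M.one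
    have h2 : M.j D M.one = M.one := M.inc_one _ _ _ _ G.admF G.admG G.le_DG G.kG_le
    rw [h1, h2]
  have hPdeg : (X ^ 5 * f).natDegree ≤ f.natDegree + 5 := by
    refine natDegree_mul_le.trans ?_
    have := natDegree_X_pow_le (R := ℂ) 5
    omega
  have core := C1_core D (D / 2) (D * L1 D + 2 ^ (11 * D)) (k0 D)
    (2 ^ 19 * s * (aa D : ℝ) ^ 4) (2 ^ 44 * (D : ℝ) ^ 6 * th D ^ 16) (del D * e') Mf
    (C1_T M.V M.one) ph (fun k => ‖y ∘L M.su D k ∘L M.j D‖) (by omega) (by positivity)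
    (by positivity) (mul_nonneg hdel hY.e0) hM (fun _ => norm_nonneg _)
    (by
      intro k p hp
      rw [hph, hT, hj p hp]
      exact (y ∘L M.su D k ∘L M.j D).le_opNorm _)
    (by
      refine le_trans (sum_le_sum_of_subset_of_nonneg (range_mono ?_) fun _ _ _ => sq_nonneg _)
        hY.sq
      unfold k0 KK
      have : 2 ^ (15 * D) ≤ 2 ^ (20 * D) := Nat.pow_le_pow_right (by norm_num) (by omega)
      omega)
    (by
      intro j k h hj1 hh hdv hk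
      have hjD : 2 * j + 1 ≤ D := by
        rcases le_max_iff.1 hj1 with h | h <;> omega
      rw [hph, hT]
      apply hPerK M D y e' s hD hY hGr hs j h k hjD hh hdv
      refine le_trans ?_ hk
      unfold kj
      have h1 : (2 * (j:ℝ) + 1) ≤ D := by exact_mod_cast hjD
      have h2 : (2 * (j:ℝ) + 1) * (L1 D : ℝ) ≤ D * (L1 D : ℝ) :=
        mul_le_mul_of_nonneg_right h1 (Nat.cast_nonneg _)
      push_cast
      linarith)
    (X ^ 5 * f) (dvd_mul_right _ _) (by omega)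
    (by
      rw [hT, map_mul, map_pow, aeval_X, mul_apply_eq_comp]
      refine ((M.V ^ 5).le_opNorm _).trans (mul_le_of_le_one_left hM ?_)
      refine (M.V_pow 5).trans ?_
      norm_num [Nat.factorial])
    (by
      intro J
      obtain ⟨h, h1, h2, -, h4⟩ := M.ipl (D / 2) J f (by omega)
      exact ⟨h, by omega, h2, h4⟩)
  have e1 : y ((1 - M.u D ^ k0 D) (aeval (M.VG D) (X ^ 5 * f) M.one))
      = ∑ k ∈ range (k0 D), ph k (X ^ 5 * f) := by
    rw [← mul_neg_geom_sum, mul_sum, _root_.sum_apply, map_sum]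
    rfl
  rw [e1]
  refine core.trans (mul_le_mul_of_nonneg_right ?_ hM)
  have hN : ((D / 2 : ℕ) : ℝ) = 4 * d := by
    have : D / 2 = 4 * d := by omega
    rw [this]; push_cast; ring
  have ha : (aa D : ℝ) = 512 * d := by
    unfold aa; rw [hd]; push_cast; ring
  have hd0 : (0:ℝ) < d := by exact_mod_cast (by omega : 0 < d)
  have eA : 2 * (6144 * 81 * (2 ^ 19 * s * (aa D : ℝ) ^ 4) / ((D / 2 : ℕ) : ℝ) ^ 4)
      ≤ 2 ^ 67 * s := by
    rw [hN, ha]
    have : 6144 * 81 * (2 ^ 19 * s * (512 * (d:ℝ)) ^ 4) / (4 * (d:ℝ)) ^ 4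
        = 6144 * 81 * 2 ^ 47 * s := by
      field_simp; ring
    rw [this]
    nlinarith
  have n1' := C1_num1 D hD
  have n2' := C1_num2 D hD
  set Lr : ℝ := ((D * L1 D + 2 ^ (11 * D) : ℕ) : ℝ) with hLr
  have hL0 : 0 ≤ Lr := Nat.cast_nonneg _
  have hsq : √(Lr + 1 + 2 * (6144 * 81 * (2 ^ 19 * s * (aa D : ℝ) ^ 4) / ((D / 2 : ℕ) : ℝ) ^ 4))
      ≤ √(Lr + 1) + √(2 ^ 67 * s) := by
    refine (Real.sqrt_le_sqrt (add_le_add le_rfl eA)).trans ?_
    apply Real.sqrt_le_iff.2 ⟨by positivity, ?_⟩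
    have a1 := Real.sq_sqrt (by linarith : 0 ≤ Lr + 1)
    have a2 := Real.sq_sqrt (by positivity : 0 ≤ 2 ^ 67 * s)
    have a3 : 0 ≤ √(Lr + 1) * √(2 ^ 67 * s) := by positivity
    nlinarith
  have h1 := mul_le_mul_of_nonneg_left hsq (mul_nonneg hdel hY.e0)
  have h2 : del D * e' * √(Lr + 1) ≤ del D * √(Lr + 1) := by
    have : 0 ≤ del D * √(Lr + 1) := by positivity
    calc del D * e' * √(Lr + 1) = e' * (del D * √(Lr + 1)) := by ring
      _ ≤ _ := mul_le_of_le_one_left this hY.e1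
  have h3 : 1 / (D : ℝ) ^ 3 = 1 / (2 * (D : ℝ) ^ 3) + 1 / (2 * (D : ℝ) ^ 3) := by
    field_simp; ring
  rw [h3]
  nlinarith

end Pool.Agent.IS
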