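import Mathlib

/-!
Estimate (C2) of the note of helper26, model-free: summation by parts and log-convexity.
-/

set_option autoImplicit false

open Finset Filter Topology ComplexConjugate

namespace Pool.Agent.P.MP_f981b0_an.IS

/-- An almost log-convex bounded sequence that is small far out is small from index 1 on. -/
theorem logconvex (d : ℕ → ℝ) {γ e0 : ℝ} {L m i : ℕ} (he0 : 0 < e0) (he1 : e0 ≤ 1)
    (hm : 1 ≤ m) (hi : 1 ≤ i) (hL : i + m ≤ L) (hd0 : ∀ l, 0 ≤ d l) (hd2 : ∀ l, l ≤ L → d l ≤ 2)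
    (hfar : d (i + m) < e0 * (e0 / 4) ^ m) (hγ : 2 * m * γ ≤ (e0 * (e0 / 4) ^ m) ^ 2)
    (hc : ∀ l, l + 2 ≤ L → d (l + 1) ^ 2 ≤ d l * d (l + 2) + γ) : d i ≤ e0 := by
  by_contra hcon
  push Not at hcon
  obtain ⟨j, rfl⟩ : ∃ j, i = j + 1 := ⟨i - 1, by omega⟩
  have hmR : (1 : ℝ) ≤ m := by exact_mod_cast hm
  have key : ∀ s, s ≤ m → e0 * (e0 / 4) ^ s ≤ d (j + s + 1) ∧
      e0 / 2 * (1 - s / (2 * m)) * d (j + s) ≤ d (j + s + 1) := by
    intro s
    induction s with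
    | zero =>
      intro _
      refine ⟨by simpa using hcon.le, ?_⟩
      have := hd2 j (by omega)
      simp only [Nat.cast_zero, zero_div, sub_zero, mul_one, add_zero]
      nlinarith
    | succ s ih =>
      intro hs
      obtain ⟨h1, h2⟩ := ih (by omega)
      have h3 := hc (j + s) (by omega)
      have hsR : (s : ℝ) + 1 ≤ m := by exact_mod_cast hs
      set x := d (j + s) with hx
      set y := d (j + s + 1) with hy
      set z := d (j + s + 2) with hz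
      have hx0 : 0 ≤ x := hd0 _
      have hz0 : 0 ≤ z := hd0 _
      have hcm : e0 * (e0 / 4) ^ m ≤ y := by
        refine le_trans (mul_le_mul_of_nonneg_left ?_ he0.le) h1
        exact pow_le_pow_of_le_one (by positivity) (by linarith) (by omega)
      have hcm0 : 0 < e0 * (e0 / 4) ^ m := by positivity
      have hy0 : 0 < y := hcm0.trans_le hcm
      have h4 : 2 * m * γ ≤ y ^ 2 := hγ.trans (pow_le_pow_left₀ hcm0.le hcm 2)
      set u : ℝ := 1 / (2 * m) with hu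
      have hu0 : 0 < u := by positivity
      have hum : u * (2 * m) = 1 := by rw [hu]; field_simp
      have h5 : γ ≤ y ^ 2 * u := by
        rw [hu, mul_one_div, le_div_iff₀ (by positivity)]; linarith
      have hs1 : (s : ℝ) / (2 * m) = s * u := by rw [hu]; ring
      have hs2 : ((s + 1 : ℕ) : ℝ) / (2 * m) = (s + 1) * u := by rw [hu]; push_cast; ring
      have hs0 : (0 : ℝ) ≤ s := Nat.cast_nonneg _
      have hsu : (s + 1) * u ≤ 1 / 2 := by nlinarith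
      rw [hs1] at h2
      set ρ : ℝ := e0 / 2 * (1 - s * u) with hρ
      have hρ0 : 0 ≤ ρ := by rw [hρ]; apply mul_nonneg (by positivity); nlinarith
      have h6 : y ^ 2 * (1 - u) ≤ x * z := by nlinarith
      have h7 : y * (ρ * (1 - u) * y) ≤ y * z :=
        calc y * (ρ * (1 - u) * y) = ρ * (y ^ 2 * (1 - u)) := by ring
          _ ≤ ρ * (x * z) := mul_le_mul_of_nonneg_left h6 hρ0
          _ = ρ * x * z := by ring
          _ ≤ y * z := mul_le_mul_of_nonneg_right h2 hz0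
      have h8 : ρ * (1 - u) * y ≤ z := le_of_mul_le_mul_left h7 hy0
      have h9 : e0 / 2 * (1 - (s + 1) * u) ≤ ρ * (1 - u) := by
        rw [hρ, mul_assoc]
        apply mul_le_mul_of_nonneg_left _ (by positivity)
        nlinarith [mul_nonneg hs0 (mul_pos hu0 hu0).le]
      have h10 : e0 / 2 * (1 - (s + 1) * u) * y ≤ z :=
        (mul_le_mul_of_nonneg_right h9 hy0.le).trans h8
      have h11 : e0 / 4 ≤ e0 / 2 * (1 - (s + 1) * u) := by nlinarith
      refine ⟨?_, ?_⟩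
      · show _ ≤ z
        calc e0 * (e0 / 4) ^ (s + 1) = e0 / 4 * (e0 * (e0 / 4) ^ s) := by ring
          _ ≤ e0 / 4 * y := mul_le_mul_of_nonneg_left h1 (by positivity)
          _ ≤ e0 / 2 * (1 - (s + 1) * u) * y := mul_le_mul_of_nonneg_right h11 hy0.le
          _ ≤ z := h10
      · rw [hs2]; exact h10
  have := (key m le_rfl).1
  rw [show j + m + 1 = j + 1 + m by ring] at this
  linarith

/-- Cauchy-Schwarz for finite sums with given bounds of the two square sums. -/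
theorem cs_bound (u v : ℕ → ℂ) (n : ℕ) {A B : ℝ} (hA : 0 ≤ A) (hB : 0 ≤ B)
    (hu : ∑ k ∈ range n, ‖u k‖ ^ 2 ≤ A ^ 2) (hv : ∑ k ∈ range n, ‖v k‖ ^ 2 ≤ B ^ 2) :
    ‖∑ k ∈ range n, u k * conj (v k)‖ ≤ A * B := by
  have h1 : ‖∑ k ∈ range n, u k * conj (v k)‖ ≤ ∑ k ∈ range n, ‖u k‖ * ‖v k‖ := by
    refine (norm_sum_le _ _).trans (le_of_eq (sum_congr rfl fun k _ => ?_))
    rw [norm_mul, Complex.norm_conj]
  refine h1.trans (abs_le_of_sq_le_sq' ?_ (mul_nonneg hA hB)).2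
  refine (sum_mul_sq_le_sq_mul_sq _ _ _).trans ?_
  rw [mul_pow]
  exact mul_le_mul hu hv (sum_nonneg fun _ _ => by positivity) (by positivity)

theorem shift_bound (v : ℕ → ℂ) {B : ℝ} (hv : ∀ n, ∑ k ∈ range n, ‖v k‖ ^ 2 ≤ B) (n : ℕ) :
    ∑ k ∈ range n, ‖v (k + 1)‖ ^ 2 ≤ B := by
  have := hv (n + 1)
  rw [sum_range_succ'] at this
  have h0 : 0 ≤ ‖v 0‖ ^ 2 := by positivity
  linarith

theorem tendsto_of_sq_bound (v : ℕ → ℂ) {B : ℝ} (hv : ∀ n, ∑ k ∈ range n, ‖v k‖ ^ 2 ≤ B) :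
    Tendsto v atTop (𝓝 0) := by
  have hs : Summable fun k => ‖v k‖ ^ 2 := summable_of_sum_range_le (fun _ => by positivity) hv
  have h1 := hs.tendsto_atTop_zero
  rw [tendsto_zero_iff_norm_tendsto_zero]
  have h2 := h1.sqrt
  simpa using h2

/-- Summation by parts. -/
theorem by_parts (p q : ℕ → ℂ) (n : ℕ) :
    ∑ k ∈ range n, p k * conj (q k - q (k + 1)) =
      p 0 * conj (q 0) - p n * conj (q n) -
        ∑ k ∈ range n, (p k - p (k + 1)) * conj (q (k + 1)) := by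
  induction n with
  | zero => simp
  | succ n ih => rw [sum_range_succ, sum_range_succ, ih, map_sub]; ring

/-- One step of log-convexity. -/
theorem step_bound (p q r : ℕ → ℂ) {τ A B C E Bd : ℝ} (hτ : 0 ≤ τ) (hA : 0 ≤ A) (hB : 0 ≤ B)
    (hC : 0 ≤ C) (hE : 0 ≤ E)
    (hp : ∀ n, ∑ k ∈ range n, ‖p k - p (k + 1)‖ ^ 2 ≤ A ^ 2)
    (hq : ∀ n, ∑ k ∈ range n, ‖q k - q (k + 1)‖ ^ 2 ≤ B ^ 2)
    (hr : ∀ n, ∑ k ∈ range n, ‖r k - r (k + 1)‖ ^ 2 ≤ C ^ 2)
    (hpq : ∀ n, ∑ k ∈ range n, ‖q k - q (k + 1) - τ * p k‖ ^ 2 ≤ E ^ 2)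
    (hqr : ∀ n, ∑ k ∈ range n, ‖r k - r (k + 1) - τ * q k‖ ^ 2 ≤ E ^ 2)
    (hp0 : ‖p 0‖ ≤ Bd) (hq0 : ‖q 0‖ ≤ Bd) (n : ℕ) :
    ∑ k ∈ range n, ‖q k - q (k + 1)‖ ^ 2 ≤ A * C + τ * Bd ^ 2 + A * E + E * B := by
  have hBd : 0 ≤ Bd := (norm_nonneg _).trans hp0
  have hfin : ∀ N, ∑ k ∈ range N, ‖q k - q (k + 1)‖ ^ 2 ≤
      A * C + τ * Bd ^ 2 + A * E + E * B + ‖(τ : ℂ) * (p N * conj (q N))‖ := by
    intro N
    have e1 : ((∑ k ∈ range N, ‖q k - q (k + 1)‖ ^ 2 : ℝ) : ℂ) =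
        (τ : ℂ) * (p 0 * conj (q 0)) - (τ : ℂ) * (p N * conj (q N)) -
          ∑ k ∈ range N, (p k - p (k + 1)) * conj (r (k + 1) - r (k + 1 + 1)) +
          ∑ k ∈ range N, (p k - p (k + 1)) *
            conj (r (k + 1) - r (k + 1 + 1) - τ * q (k + 1)) +
          ∑ k ∈ range N, (q k - q (k + 1) - τ * p k) * conj (q k - q (k + 1)) := by
      have a1 : ((∑ k ∈ range N, ‖q k - q (k + 1)‖ ^ 2 : ℝ) : ℂ) =
          (τ : ℂ) * ∑ k ∈ range N, p k * conj (q k - q (k + 1)) +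
          ∑ k ∈ range N, (q k - q (k + 1) - τ * p k) * conj (q k - q (k + 1)) := by
        rw [mul_sum, ← sum_add_distrib, Complex.ofReal_sum]
        refine sum_congr rfl fun k _ => ?_
        rw [Complex.ofReal_pow, ← Complex.mul_conj']
        ring
      have a2 : (τ : ℂ) * ∑ k ∈ range N, (p k - p (k + 1)) * conj (q (k + 1)) =
          ∑ k ∈ range N, (p k - p (k + 1)) * conj (r (k + 1) - r (k + 1 + 1)) -
          ∑ k ∈ range N, (p k - p (k + 1)) *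
            conj (r (k + 1) - r (k + 1 + 1) - τ * q (k + 1)) := by
        rw [mul_sum, ← sum_sub_distrib]
        refine sum_congr rfl fun k _ => ?_
        simp only [map_sub, map_mul, Complex.conj_ofReal]
        ring
      rw [a1, by_parts, mul_sub, mul_sub, a2]
      ring
    have b1 : ‖(τ : ℂ) * (p 0 * conj (q 0))‖ ≤ τ * Bd ^ 2 := by
      rw [norm_mul, norm_mul, Complex.norm_conj, Complex.norm_real, Real.norm_of_nonneg hτ, sq]
      exact mul_le_mul_of_nonneg_left (mul_le_mul hp0 hq0 (norm_nonneg _) hBd) hτ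
    have b2 := cs_bound (fun k => p k - p (k + 1)) (fun k => r (k + 1) - r (k + 1 + 1)) N hA hC
      (hp N) (shift_bound (fun k => r k - r (k + 1)) hr N)
    have b3 := cs_bound (fun k => p k - p (k + 1))
      (fun k => r (k + 1) - r (k + 1 + 1) - τ * q (k + 1)) N hA hE
      (hp N) (shift_bound (fun k => r k - r (k + 1) - τ * q k) hqr N)
    have b4 := cs_bound (fun k => q k - q (k + 1) - τ * p k) (fun k => q k - q (k + 1)) N hE hB
      (hpq N) (hq N)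
    have b0 : ∑ k ∈ range N, ‖q k - q (k + 1)‖ ^ 2 =
        ‖((∑ k ∈ range N, ‖q k - q (k + 1)‖ ^ 2 : ℝ) : ℂ)‖ := by
      rw [Complex.norm_real, Real.norm_of_nonneg (sum_nonneg fun _ _ => by positivity)]
    rw [b0, e1]
    refine (norm_add_le _ _).trans ?_
    refine (add_le_add_left (norm_add_le _ _) _).trans ?_
    refine (add_le_add_left (add_le_add_left (norm_sub_le _ _) _) _).trans ?_
    refine (add_le_add_left (add_le_add_left (add_le_add_left (norm_sub_le _ _) _) _) _).trans ?_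
    linarith
  have hlim : Tendsto (fun N => (τ : ℂ) * (p N * conj (q N))) atTop (𝓝 0) := by
    rcases hτ.eq_or_lt with h0 | h0
    · simp [← h0]
    have hτ' : (τ : ℂ) ≠ 0 := by exact_mod_cast h0.ne'
    have t1 : Tendsto (fun k => (τ : ℂ) * p k) atTop (𝓝 0) := by
      have := (tendsto_of_sq_bound _ hq).sub (tendsto_of_sq_bound _ hpq)
      simpa using this
    have t2 : Tendsto (fun k => (τ : ℂ) * q k) atTop (𝓝 0) := by
      have := (tendsto_of_sq_bound _ hr).sub (tendsto_of_sq_bound _ hqr)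
      simpa using this
    have t3 : Tendsto q atTop (𝓝 0) := by
      have := t2.const_mul (τ : ℂ)⁻¹
      simpa [← mul_assoc, inv_mul_cancel₀ hτ'] using this
    have t4 : Tendsto (fun k => conj (q k)) atTop (𝓝 0) := by
      have := (Complex.continuous_conj.tendsto 0).comp t3
      simpa [Function.comp_def] using this
    have := t1.mul t4
    simpa [mul_assoc] using this
  have hlim2 : Tendsto (fun N => A * C + τ * Bd ^ 2 + A * E + E * B +
      ‖(τ : ℂ) * (p N * conj (q N))‖) atTop (𝓝 (A * C + τ * Bd ^ 2 + A * E + E * B)) := by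
    have := (tendsto_zero_iff_norm_tendsto_zero.mp hlim).const_add
      (A * C + τ * Bd ^ 2 + A * E + E * B)
    simpa using this
  refine ge_of_tendsto hlim2 (eventually_atTop.mpr ⟨n, fun N hN => le_trans ?_ (hfin N)⟩)
  exact sum_le_sum_of_subset_of_nonneg (range_mono hN) fun _ _ _ => by positivity

/-- Estimate (C2). Here `b l k` is `β^l_(κ0 + k)`. -/
theorem c2 (b : ℕ → ℕ → ℂ) (g : ℕ → ℝ) {τ δ e Bd e0 : ℝ} {L m i : ℕ}
    (hτ : 0 ≤ τ) (hδ : 0 < δ) (he : 0 ≤ e) (he0 : 0 < e0) (he1 : e0 ≤ 1)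
    (hm : 1 ≤ m) (hi : 1 ≤ i) (hL : i + m ≤ L) (hg : ∀ l, 0 ≤ g l ∧ g l ≤ 2)
    (hfar : g (i + m) < e0 * (e0 / 4) ^ m)
    (hγ : 2 * m * (τ * Bd ^ 2 / δ ^ 2 + 4 * e) ≤ (e0 * (e0 / 4) ^ m) ^ 2)
    (h1 : ∀ l, l ≤ L → ∀ n, ∑ k ∈ range n, ‖b l k - b l (k + 1)‖ ^ 2 ≤ (δ * g l) ^ 2)
    (h2 : ∀ l, l < L → ∀ n,
      ∑ k ∈ range n, ‖b (l + 1) k - b (l + 1) (k + 1) - τ * b l k‖ ^ 2 ≤ (δ * e) ^ 2)
    (h3 : ∀ l, l ≤ L → ‖b l 0‖ ≤ Bd) (n : ℕ) :
    ∑ k ∈ range n, ‖b i k - b i (k + 1)‖ ^ 2 ≤ (δ * e0) ^ 2 := by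
  set S : ℕ → ℝ := fun l => ∑' k, ‖b l k - b l (k + 1)‖ ^ 2 with hS
  have hS0 : ∀ l, 0 ≤ S l := fun l => tsum_nonneg fun _ => by positivity
  set d : ℕ → ℝ := fun l => √(S l) / δ with hd
  have hd0 : ∀ l, 0 ≤ d l := fun l => by positivity
  have hSd : ∀ l, S l = (δ * d l) ^ 2 := fun l => by
    rw [hd]; simp only
    rw [mul_div_cancel₀ _ hδ.ne', Real.sq_sqrt (hS0 l)]
  have hsum : ∀ l, l ≤ L → Summable fun k => ‖b l k - b l (k + 1)‖ ^ 2 := fun l hl =>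
    summable_of_sum_range_le (fun _ => by positivity) (h1 l hl)
  have hpart : ∀ l, l ≤ L → ∀ n,
      ∑ k ∈ range n, ‖b l k - b l (k + 1)‖ ^ 2 ≤ (δ * d l) ^ 2 := fun l hl n => by
    rw [← hSd]
    exact (hsum l hl).sum_le_tsum _ fun _ _ => by positivity
  have hle : ∀ l (B : ℝ), (∀ n, ∑ k ∈ range n, ‖b l k - b l (k + 1)‖ ^ 2 ≤ B) →
      (δ * d l) ^ 2 ≤ B := fun l B hB => by
    rw [← hSd]
    exact Real.tsum_le_of_sum_range_le (fun _ => by positivity) hB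
  have hdg : ∀ l, l ≤ L → d l ≤ g l := fun l hl => by
    have := hle l _ (h1 l hl)
    have h' := (abs_le_of_sq_le_sq' this (mul_nonneg hδ.le (hg l).1)).2
    exact le_of_mul_le_mul_left h' hδ
  have hd2 : ∀ l, l ≤ L → d l ≤ 2 := fun l hl => (hdg l hl).trans (hg l).2
  have hc : ∀ l, l + 2 ≤ L →
      d (l + 1) ^ 2 ≤ d l * d (l + 2) + (τ * Bd ^ 2 / δ ^ 2 + 4 * e) := fun l hl => by
    have hs := hle (l + 1) _ (step_bound (b l) (b (l + 1)) (b (l + 2)) hτ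
      (mul_nonneg hδ.le (hd0 l)) (mul_nonneg hδ.le (hd0 (l + 1)))
      (mul_nonneg hδ.le (hd0 (l + 2))) (mul_nonneg hδ.le he)
      (hpart l (by omega)) (hpart (l + 1) (by omega)) (hpart (l + 2) hl)
      (h2 l (by omega)) (h2 (l + 1) (by omega)) (h3 l (by omega)) (h3 (l + 1) (by omega)))
    have hδ2 : 0 < δ ^ 2 := by positivity
    refine le_of_mul_le_mul_left ?_ hδ2
    have e1 : δ ^ 2 * (d l * d (l + 2) + (τ * Bd ^ 2 / δ ^ 2 + 4 * e)) =
        δ * d l * (δ * d (l + 2)) + τ * Bd ^ 2 + δ ^ 2 * e * 2 + δ ^ 2 * e * 2 := by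
      field_simp; ring
    have e2 : δ * d l * (δ * e) ≤ δ ^ 2 * e * 2 := by
      have := mul_le_mul_of_nonneg_left (hd2 l (by omega)) (mul_nonneg hδ2.le he)
      nlinarith
    have e3 : δ * e * (δ * d (l + 1)) ≤ δ ^ 2 * e * 2 := by
      have := mul_le_mul_of_nonneg_left (hd2 (l + 1) (by omega)) (mul_nonneg hδ2.le he)
      nlinarith
    rw [e1, ← mul_pow]
    linarith
  have hfin := logconvex d he0 he1 hm hi hL hd0 hd2 ((hdg _ hL).trans_lt hfar) hγ hc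
  refine (hpart i (by omega) n).trans ?_
  exact pow_le_pow_left₀ (mul_nonneg hδ.le (hd0 i)) (mul_le_mul_of_nonneg_left hfin hδ.le) 2

end Pool.Agent.P.MP_f981b0_an.IS
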