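import Pool.Agent.P.MP_f981b0_an.IS.Stmt
import Pool.Agent.P.MP_f981b0_an.IS.C2

/-! The estimate (C2). -/

set_option autoImplicit false

open Polynomial Finset Filter Topology
open scoped Nat Real

noncomputable section

namespace Pool.Agent.IS

namespace C2_

theorem th_small {D : ℕ} (h : Big D) : (D : ℝ) ^ 6 * 2 ^ 100 * th D ≤ 1 := by
  have h1 := h.num'
  have h2 : (1 : ℝ) ≤ D := by
    have := h.1
    exact_mod_cast (by omega : 1 ≤ D)
  refine le_trans (mul_le_mul_of_nonneg_right ?_ (th_pos D).le) h1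
  exact mul_le_mul (pow_le_pow_right₀ h2 (by norm_num)) (by norm_num) (by positivity)
    (by positivity)

theorem one_le {D : ℕ} (h : Big D) : (1 : ℝ) ≤ D := by
  have := h.1
  exact_mod_cast (by omega : 1 ≤ D)

theorem th_le {D : ℕ} (h : Big D) : 2 ^ 100 * th D ≤ 1 := by
  refine le_trans ?_ (th_small h)
  have := one_le_pow₀ (n := 6) (one_le h)
  have h0 := th_pos D
  nlinarith

theorem room {D : ℕ} (h : Big D) {s : ℝ} (hs : s ≤ 360 * (D : ℝ) ^ 2 / del D ^ 2) :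
    kj D s 0 + L1 D ≤ k0 D := by
  have h1 := th_small h
  have h2 := th_inv D
  have h3 := one_le h
  have h0 := th_pos D
  have e1 : ((2 : ℝ) ^ (11 * D)) = (2 ^ D) ^ 11 := by rw [← pow_mul, mul_comm]
  have e2 : ((2 : ℝ) ^ (15 * D)) = (2 ^ D) ^ 15 := by rw [← pow_mul, mul_comm]
  unfold kj L1 k0 aa
  unfold del at hs
  push_cast
  rw [e1, e2]
  generalize (2 : ℝ) ^ D = x at *
  generalize th D = t at *
  generalize (D : ℝ) = d at *
  have hx : 0 < x := by nlinarith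
  have h4 : d ^ 6 * 2 ^ 100 ≤ x := by
    have := mul_le_mul_of_nonneg_left h1 hx.le
    calc _ = d ^ 6 * 2 ^ 100 * (x * t) := by rw [h2, mul_one]
      _ = x * (d ^ 6 * 2 ^ 100 * t) := by ring
      _ ≤ x := by linarith
  have h5 : s ≤ 360 * d ^ 2 * x ^ 14 := by
    refine hs.trans (le_of_eq ?_)
    rw [div_eq_iff (by positivity)]
    calc _ = 360 * d ^ 2 * (x * t) ^ 14 := by rw [h2]; ring
      _ = _ := by ring
  have h6 : (1 : ℝ) ≤ d ^ 6 := one_le_pow₀ h3
  have h7 : d ≤ d ^ 6 := le_self_pow₀ h3 (by norm_num)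
  have h8 : (1 : ℝ) ≤ x := by nlinarith
  have h9 : x ^ 11 ≤ x ^ 14 := pow_le_pow_right₀ h8 (by norm_num)
  have h10 : 2 ^ 19 * s * (64 * d) ^ 4 / (0 + 1 / 2) ^ 4 ≤ 2 ^ 56 * d ^ 6 * x ^ 14 := by
    have : 2 ^ 19 * s * (64 * d) ^ 4 / (0 + 1 / 2) ^ 4 = 2 ^ 47 * d ^ 4 * s := by ring
    rw [this]
    calc _ ≤ 2 ^ 47 * d ^ 4 * (360 * d ^ 2 * x ^ 14) :=
          mul_le_mul_of_nonneg_left h5 (by positivity)
      _ = 360 * 2 ^ 47 * (d ^ 6 * x ^ 14) := by ring
      _ ≤ 2 ^ 56 * (d ^ 6 * x ^ 14) := mul_le_mul_of_nonneg_right (by norm_num) (by positivity)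
      _ = _ := by ring
  have h11 : 2 ^ 13 * (64 * d) * x ^ 11 ≤ 2 ^ 19 * d ^ 6 * x ^ 14 := by
    calc _ = 2 ^ 19 * (d * x ^ 11) := by ring
      _ ≤ 2 ^ 19 * (d ^ 6 * x ^ 14) :=
          mul_le_mul_of_nonneg_left (mul_le_mul h7 h9 (by positivity) (by positivity))
            (by positivity)
      _ = _ := by ring
  have h12 : x ^ 11 ≤ d ^ 6 * x ^ 14 := h9.trans (le_mul_of_one_le_left (by positivity) h6)
  have h13 : d ^ 6 * 2 ^ 100 * x ^ 14 ≤ x ^ 15 := by
    calc _ ≤ x * x ^ 14 := mul_le_mul_of_nonneg_right h4 (by positivity)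
      _ = _ := by ring
  have h14 : 0 ≤ d ^ 6 * x ^ 14 := by positivity
  nlinarith

theorem exp_small {D : ℕ} (h : Big D) : Real.exp (-(2 ^ D)) ≤ th D ^ 20 / 4 := by
  have h1 := th_le h
  have h2 := th_inv D
  have h0 := th_pos D
  have hx : (0 : ℝ) < 2 ^ D := by positivity
  have h3 := Real.pow_div_factorial_le_exp ((2 : ℝ) ^ D) hx.le 21
  generalize (2 : ℝ) ^ D = x at *
  generalize th D = t at *
  have h4 : ((21 ! : ℕ) : ℝ) ≤ 2 ^ 66 := by norm_num [Nat.factorial]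
  have h5 : x ^ 21 / 2 ^ 66 ≤ Real.exp x :=
    le_trans (div_le_div_of_nonneg_left (by positivity) (by positivity) h4) h3
  rw [Real.exp_neg]
  refine (inv_anti₀ (by positivity) h5).trans ?_
  rw [inv_div, div_le_iff₀ (by positivity)]
  have h6 : 2 ^ 100 ≤ x := by nlinarith
  calc (2 : ℝ) ^ 66 ≤ x / 4 := by linarith
    _ = (x * t) ^ 20 * x / 4 := by rw [h2]; ring
    _ = _ := by ring

theorem geo {η : ℝ} (h0 : 0 < η) (h1 : η ≤ 1 / 2) (n : ℕ) :
    ∑ k ∈ range n, Real.exp (-(η * k)) ^ 2 ≤ 1 / η := by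
  have h2 : Real.exp (-(2 * η)) ≤ 1 - η := by
    have h3 := Real.add_one_le_exp (2 * η)
    rw [Real.exp_neg, inv_le_comm₀ (Real.exp_pos _) (by linarith)]
    refine le_trans ?_ h3
    rw [inv_le_iff_one_le_mul₀ (by linarith)]
    nlinarith
  have h4 : ∀ k : ℕ, Real.exp (-(η * k)) ^ 2 ≤ (1 - η) ^ k := fun k => by
    rw [← Real.exp_nat_mul, show ((2 : ℕ) : ℝ) * -(η * k) = k * -(2 * η) by push_cast; ring,
      Real.exp_nat_mul]
    exact pow_le_pow_left₀ (Real.exp_pos _).le h2 k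
  refine (sum_le_sum fun k _ => h4 k).trans ?_
  have h5 := (hasSum_geometric_of_lt_one (r := 1 - η) (by linarith) (by linarith))
  have h6 := sum_le_hasSum (range n) (fun k _ => pow_nonneg (by linarith) k) h5
  simpa using h6

theorem shift_le {f : ℕ → ℝ} (hf : Summable f) (h0 : ∀ k, 0 ≤ f k) (a n : ℕ) :
    ∑ k ∈ range n, f (a + k) ≤ ∑' k, f k := by
  have h1 := hf.sum_le_tsum (range (a + n)) fun k _ => h0 k
  rw [sum_range_add] at h1
  have h2 : 0 ≤ ∑ k ∈ range a, f k := sum_nonneg fun k _ => h0 k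
  linarith

theorem conv (m : ℂ[X]) (z : ℕ → ℂ) {B : ℝ} (hB : 0 ≤ B)
    (hz : ∀ i n, ∑ k ∈ range n, ‖z (k + i)‖ ^ 2 ≤ B) (n : ℕ) :
    ∑ k ∈ range n, ‖∑ i ∈ m.support, m.coeff i * z (k + i)‖ ^ 2 ≤ l1 m ^ 2 * B := by
  have h1 : ∀ k, ‖∑ i ∈ m.support, m.coeff i * z (k + i)‖ ^ 2 ≤
      l1 m * ∑ i ∈ m.support, ‖m.coeff i‖ * ‖z (k + i)‖ ^ 2 := fun k => by
    refine (pow_le_pow_left₀ (norm_nonneg _) (norm_sum_le _ _) 2).trans ?_
    exact sum_sq_le_sum_mul_sum_of_sq_le_mul _ (fun _ _ => norm_nonneg _)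
      (fun _ _ => by positivity) fun i _ => le_of_eq (by rw [norm_mul]; ring)
  have h2 : 0 ≤ l1 m := sum_nonneg fun _ _ => norm_nonneg _
  refine (sum_le_sum fun k _ => h1 k).trans ?_
  rw [← mul_sum, sum_comm, sq, mul_assoc]
  refine mul_le_mul_of_nonneg_left ?_ h2
  unfold l1
  rw [sum_mul]
  refine sum_le_sum fun i _ => ?_
  rw [← mul_sum]
  exact mul_le_mul_of_nonneg_left (hz i n) (norm_nonneg _)

theorem op_id {A : Type*} [Ring A] [Algebra ℂ A] (u V : A) (m : ℂ[X]) (τ : ℂ) (k L : ℕ) :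
    u ^ k * ((1 - u) * (u ^ L * V - aeval u m) - τ • u ^ L) =
      (1 - u) * u ^ (k + L) * V - ∑ i ∈ m.support, m.coeff i • ((1 - u) * u ^ (k + i)) -
        τ • u ^ (k + L) := by
  have hsu : ∀ i, u ^ k * ((1 - u) * u ^ i) = (1 - u) * u ^ (k + i) := fun i => by
    rw [← mul_assoc, ((Commute.one_right _).sub_right (Commute.pow_self u k)).eq, mul_assoc,
      ← pow_add]
  have ha : aeval u m = ∑ i ∈ m.support, m.coeff i • u ^ i := by
    rw [aeval_def, eval₂_eq_sum, Polynomial.sum]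
    simp only [Algebra.smul_def]
  rw [mul_sub, mul_sub, mul_sub, ← mul_assoc (1 - u), ← mul_assoc, hsu, ha, mul_sum, mul_sum,
    mul_smul_comm, ← pow_add]
  simp only [mul_smul_comm, hsu]

end C2_

open C2_ in
theorem p_C2 (h1 : S_G1) (h2 : S_Y3) (h3 : S_Rel) (_h4 : S_LC) : S_C2 := by
  intro M D y e' s hD hy hg hs0 hs
  have G := h1 M D hD
  have Y := h2 M D y e' hD hy
  have ht := th_pos D
  have hδ : 0 < del D := pow_pos ht 7
  have hj : ∀ l : ℕ, M.j D ((M.VF D ^ l) M.one) = (M.VG D ^ l) M.one := fun l => by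
    induction l with
    | zero => exact M.inc_one _ _ _ _ G.admF G.admG G.le_DG G.kG_le
    | succ l ih =>
      rw [pow_succ', pow_succ', ContinuousLinearMap.mul_apply, ContinuousLinearMap.mul_apply, ← ih]
      exact M.inc_V _ _ _ _ G.admF G.admG G.le_DG G.kG_le _
  have hV : ∀ l : ℕ, ‖(M.V ^ l) M.one‖ ≤ 1 / (l ! : ℝ) := fun l => by
    have := (M.V ^ l).le_opNorm M.one
    rw [M.one_norm, mul_one] at this
    exact this.trans (M.V_pow l)
  have hf1 : ∀ l : ℕ, 1 / (l ! : ℝ) ≤ 1 := fun l =>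
    div_le_one_of_le₀ (by exact_mod_cast Nat.factorial_pos l) (by positivity)
  have hv : ∀ l ≤ D, ‖(M.VF D ^ l) M.one‖ ≤ 1 / (l ! : ℝ) := fun l hl => by
    have := M.low D _ G.admF (X ^ l) (by simpa using hl)
    simp only [map_pow, aeval_X] at this
    exact (congrArg norm this).trans_le (hV l)
  let z : ℕ → ℕ → ℂ := fun l k => y (M.su D k ((M.VG D ^ l) M.one))
  have hz : ∀ l ≤ D, ∀ a n, ∑ k ∈ range n, ‖z l (a + k)‖ ^ 2 ≤ (del D * (2 / (l ! : ℝ))) ^ 2 := by
    intro l hl a n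
    have b1 : ∀ k, ‖z l k‖ ^ 2 ≤ ‖y ∘L M.su D k ∘L M.j D‖ ^ 2 * (1 / (l ! : ℝ)) ^ 2 := fun k => by
      rw [← mul_pow]
      refine pow_le_pow_left₀ (norm_nonneg _) ?_ 2
      have := (y ∘L M.su D k ∘L M.j D).le_opNorm ((M.VF D ^ l) M.one)
      simp only [ContinuousLinearMap.comp_apply, hj] at this
      exact this.trans (mul_le_mul_of_nonneg_left (hv l hl) (norm_nonneg _))
    refine (sum_le_sum fun k _ => b1 (a + k)).trans ?_
    rw [← sum_mul]
    refine (mul_le_mul_of_nonneg_right ((shift_le Y.sm (fun _ => sq_nonneg _) a n).trans Y.sq)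
      (sq_nonneg _)).trans (le_of_eq (by ring))
  have hd0 : ∀ l, 0 ≤ M.dseq D y l := fun l => div_nonneg (Real.sqrt_nonneg _) hδ.le
  have hsq : ∀ l, (del D * M.dseq D y l) ^ 2 = ∑' k, ‖z l (k0 D + k)‖ ^ 2 := fun l => by
    unfold Model.dseq n2
    rw [mul_div_cancel₀ _ hδ.ne', Real.sq_sqrt (tsum_nonneg fun _ => sq_nonneg _)]
  have hle : ∀ l (B : ℝ), (∀ n, ∑ k ∈ range n, ‖z l (k0 D + k)‖ ^ 2 ≤ B) →
      (del D * M.dseq D y l) ^ 2 ≤ B := fun l B hB => by
    rw [hsq]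
    exact Real.tsum_le_of_sum_range_le (fun _ => sq_nonneg _) hB
  have hpart : ∀ l ≤ D, ∀ n, ∑ k ∈ range n, ‖z l (k0 D + k)‖ ^ 2 ≤
      (del D * M.dseq D y l) ^ 2 := fun l hl n => by
    rw [hsq]
    exact (summable_of_sum_range_le (fun _ => sq_nonneg _) (hz l hl _)).sum_le_tsum _
      fun _ _ => sq_nonneg _
  have hd : ∀ l ≤ D, M.dseq D y l ≤ 2 / (l ! : ℝ) := fun l hl =>
    le_of_mul_le_mul_left (abs_le_of_sq_le_sq' (hle l _ (hz l hl _)) (by positivity)).2 hδ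
  refine ⟨hd, fun l hl => ?_⟩
  have hd2 : ∀ l ≤ D, M.dseq D y l ≤ 2 := fun l hl => (hd l hl).trans (by
    have := hf1 l
    rw [div_eq_mul_one_div]
    linarith)
  let b : ℕ → ℕ → ℂ := fun l k => y ((M.u D ^ (k0 D + k)) ((M.VG D ^ l) M.one))
  have hb : ∀ l k, b l k - b l (k + 1) = z l (k0 D + k) := fun l k => by
    simp only [b, z, Model.su, sub_mul, one_mul, ContinuousLinearMap.sub_apply, map_sub,
      ← pow_succ', add_assoc]
  obtain ⟨m0, ms, hm0, -, hlen, hrel⟩ := h3 M D y e' s hD hy hg hs0 0 (Nat.zero_le _)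
  obtain rfl : ms = [] := List.length_eq_zero_iff.1 (by simpa using hlen)
  have hroom := room hD hs
  have hkj : 0 ≤ kj D s 0 := by unfold kj; positivity
  obtain ⟨a, ha⟩ : ∃ a, k0 D = a + L1 D :=
    ⟨k0 D - L1 D, (Nat.sub_add_cancel (by exact_mod_cast (by linarith : (L1 D : ℝ) ≤ k0 D))).symm⟩
  have hka : kj D s 0 ≤ a := by
    rw [ha] at hroom
    push_cast at hroom
    linarith
  have ht1 := th_le hD
  have ht2 : th D ≤ 1 := by linarith
  have hη : 0 < eta D := pow_pos ht 9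
  have hη2 : eta D ≤ 1 / 2 := (pow_le_of_le_one ht.le ht2 (by norm_num)).trans (by linarith)
  have hE : ∀ l, l + 1 ≤ D → ∀ n, ∑ k ∈ range n,
      ‖b (l + 1) k - b (l + 1) (k + 1) - tau D * b l k‖ ^ 2 ≤ (del D * th D ^ 8) ^ 2 := by
    intro l hl n
    let R : ℕ → ℂ := fun k => y ((M.u D ^ (a + k)) (M.Pr D m0 ((M.VG D ^ l) M.one)))
    have c1 : ∀ k, ‖R k‖ ≤ th D ^ 20 / 4 * Real.exp (-(eta D * k)) := fun k => by
      have c2 := hrel (X ^ l) (by simpa using (by omega : l ≤ D)) (a + k) (by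
        push_cast
        linarith [Nat.cast_nonneg (α := ℝ) k])
      simp only [map_pow, aeval_X, Model.prodF, List.map_nil, List.prod_nil,
        ContinuousLinearMap.one_apply] at c2
      refine c2.trans ((mul_le_of_le_one_right (by positivity) ((hV l).trans (hf1 l))).trans ?_)
      refine mul_le_mul (exp_small hD) (Real.exp_le_exp.2 ?_) (by positivity) (by positivity)
      push_cast
      nlinarith
    have c3 : ∑ k ∈ range n, ‖R k‖ ^ 2 ≤ (del D * th D ^ 8) ^ 2 / 4 := by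
      refine (sum_le_sum fun k _ => pow_le_pow_left₀ (norm_nonneg _) (c1 k) 2).trans ?_
      simp only [mul_pow]
      rw [← mul_sum]
      refine (mul_le_mul_of_nonneg_left (geo hη hη2 n) (by positivity)).trans ?_
      unfold eta del
      rw [mul_one_div, div_le_iff₀ (by positivity)]
      calc _ = th D ^ 39 / 4 * (th D / 4) := by ring
        _ ≤ th D ^ 39 / 4 * 1 := mul_le_mul_of_nonneg_left (by linarith) (by positivity)
        _ = _ := by ring
    have c4 := conv m0 (fun k => z l (a + k)) (B := (del D * 2) ^ 2) (by positivity) (fun i n => by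
      have := hz l (by omega) (a + i) n
      refine le_trans (le_of_eq (sum_congr rfl fun k _ => ?_)) (this.trans ?_)
      · rw [add_comm k i, add_assoc]
      · refine pow_le_pow_left₀ (by positivity) (mul_le_mul_of_nonneg_left ?_ hδ.le) 2
        have := hf1 l
        rw [div_eq_mul_one_div]
        linarith) n
    have c5 : l1 m0 ≤ th D ^ 8 / 4 := by
      refine hm0.trans ?_
      have c6 := th_small hD
      have c7 : (D : ℝ) ^ 3 ≤ D ^ 6 := pow_le_pow_right₀ (one_le hD) (by norm_num)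
      unfold rh aa
      push_cast
      have c8 : (D : ℝ) ^ 3 * th D ≤ D ^ 6 * th D := mul_le_mul_of_nonneg_right c7 ht.le
      have c9 : 0 ≤ (D : ℝ) ^ 3 * th D := by positivity
      calc _ = th D ^ 8 * (2 ^ 33 * ((D : ℝ) ^ 3 * th D)) := by ring
        _ ≤ th D ^ 8 * (1 / 4) := mul_le_mul_of_nonneg_left (by nlinarith) (by positivity)
        _ = _ := by ring
    have c6 : l1 m0 ^ 2 * (del D * 2) ^ 2 ≤ (del D * th D ^ 8) ^ 2 / 4 :=
      (mul_le_mul_of_nonneg_right (pow_le_pow_left₀ (sum_nonneg fun _ _ => norm_nonneg _) c5 2)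
        (by positivity)).trans (le_of_eq (by ring))
    have c7 : ∀ k, b (l + 1) k - b (l + 1) (k + 1) - tau D * b l k =
        R k + ∑ i ∈ m0.support, m0.coeff i * z l (a + (k + i)) := fun k => by
      have c8 := congrArg (fun T : E →L[ℂ] E => y (T ((M.VG D ^ l) M.one)))
        (op_id (M.u D) (M.VG D) m0 (tau D) (a + k) (L1 D))
      simp only [ContinuousLinearMap.sub_apply, map_sub, ContinuousLinearMap.sum_apply, map_sum,
        ContinuousLinearMap.smul_apply, map_smul, smul_eq_mul] at c8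
      have c9 : R k = _ := c8
      rw [hb, c9, ha]
      simp only [z, b, Model.su, ha, pow_succ' (M.VG D), add_assoc, add_comm (L1 D) k,
        ContinuousLinearMap.mul_apply]
      ring
    have c8 : ∀ k, ‖b (l + 1) k - b (l + 1) (k + 1) - tau D * b l k‖ ^ 2 ≤
        2 * ‖R k‖ ^ 2 + 2 * ‖∑ i ∈ m0.support, m0.coeff i * z l (a + (k + i))‖ ^ 2 := fun k => by
      rw [c7]
      refine (pow_le_pow_left₀ (norm_nonneg _) (norm_add_le _ _) 2).trans ?_
      nlinarith [sq_nonneg (‖R k‖ - ‖∑ i ∈ m0.support, m0.coeff i * z l (a + (k + i))‖)]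
    refine (sum_le_sum fun k _ => c8 k).trans ?_
    rw [sum_add_distrib, ← mul_sum, ← mul_sum]
    linarith
  have hx : (0 : ℝ) < 2 ^ D := by positivity
  have hB : ∀ l ≤ D, ‖b l 0‖ ≤ D + 2 * √(2 ^ D) := fun l hl => by
    have c1 := (y ∘L (M.u D ^ 0 - M.u D ^ k0 D) ∘L M.j D).le_opNorm ((M.VF D ^ l) M.one)
    simp only [ContinuousLinearMap.comp_apply, hj, pow_zero, ContinuousLinearMap.sub_apply,
      ContinuousLinearMap.one_apply, map_sub] at c1
    have c2 := Y.diff 0 (k0 D) (Nat.zero_le _)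
    have c3 : del D * √((k0 D : ℝ) - (0 : ℕ)) = √(2 ^ D) := by
      have c4 : ((k0 D : ℝ) - (0 : ℕ)) = ((2 ^ D) ^ 7) ^ 2 * 2 ^ D := by
        unfold k0
        push_cast
        rw [sub_zero, mul_comm 15 D, pow_mul]
        ring
      rw [c4, Real.sqrt_mul (sq_nonneg _), Real.sqrt_sq (by positivity), ← mul_assoc]
      unfold del
      rw [← mul_pow, mul_comm (th D), th_inv, one_pow, one_mul]
    rw [mul_assoc, c3, pow_zero] at c2
    have c5 := c1.trans ((mul_le_of_le_one_right (norm_nonneg _) ((hv l hl).trans (hf1 l))).trans c2)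
    have c6 := hy.one l
    have c7 := norm_sub_le (y ((M.VG D ^ l) M.one))
      (y ((M.VG D ^ l) M.one) - y ((M.u D ^ k0 D) ((M.VG D ^ l) M.one)))
    rw [sub_sub_cancel] at c7
    exact c7.trans (add_le_add c6 c5)
  have hτ : 0 ≤ tau D := (pow_pos ht 20).le
  have key := hle (l + 1) _ fun n => by
    have := P.MP_f981b0_an.IS.step_bound (b l) (b (l + 1)) (b (l + 2)) hτ
      (mul_nonneg hδ.le (hd0 l)) (mul_nonneg hδ.le (hd0 (l + 1))) (mul_nonneg hδ.le (hd0 (l + 2)))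
      (by positivity : 0 ≤ del D * th D ^ 8)
      (by simpa only [hb] using hpart l (by omega))
      (by simpa only [hb] using hpart (l + 1) (by omega))
      (by simpa only [hb] using hpart (l + 2) hl) (hE l (by omega)) (hE (l + 1) hl)
      (hB l (by omega)) (hB (l + 1) (by omega)) n
    simpa only [hb] using this
  have hδ2 : 0 < del D ^ 2 := by positivity
  refine le_of_mul_le_mul_left ?_ hδ2
  have e1 : tau D * ((D : ℝ) + 2 * √(2 ^ D)) ^ 2 ≤ del D ^ 2 * (th D ^ 4 / 2) := by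
    have c1 : √((2 : ℝ) ^ D) ^ 2 = 2 ^ D := Real.sq_sqrt hx.le
    have c2 : ((D : ℝ) + 2 * √(2 ^ D)) ^ 2 ≤ 2 * (D : ℝ) ^ 2 + 8 * 2 ^ D := by
      nlinarith [sq_nonneg ((D : ℝ) - 2 * √(2 ^ D))]
    have c3 := th_small hD
    have c4 : (D : ℝ) ^ 2 * th D ≤ D ^ 6 * th D :=
      mul_le_mul_of_nonneg_right (pow_le_pow_right₀ (one_le hD) (by norm_num)) ht.le
    have c5 := th_inv D
    have c6 : 0 ≤ (D : ℝ) ^ 2 * th D := by positivity
    have c7 : (2 * (D : ℝ) ^ 2 + 8 * 2 ^ D) * th D ≤ 10 := by nlinarith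
    refine (mul_le_mul_of_nonneg_left c2 hτ).trans ?_
    unfold tau del
    calc _ = th D ^ 19 * ((2 * (D : ℝ) ^ 2 + 8 * 2 ^ D) * th D) := by ring
      _ ≤ th D ^ 19 * 10 := mul_le_mul_of_nonneg_left c7 (by positivity)
      _ = th D ^ 18 * (10 * th D) := by ring
      _ ≤ th D ^ 18 * (1 / 2) := mul_le_mul_of_nonneg_left (by linarith) (by positivity)
      _ = _ := by ring
  have e2 : th D ^ 8 ≤ th D ^ 4 / 8 := by
    have c1 : th D ^ 4 ≤ th D := pow_le_of_le_one ht.le ht2 (by norm_num)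
    calc _ = th D ^ 4 * th D ^ 4 := by ring
      _ ≤ th D ^ 4 * (1 / 8) := mul_le_mul_of_nonneg_left (by linarith) (by positivity)
      _ = _ := by ring
  have e3 : ∀ l ≤ D, del D ^ 2 * (th D ^ 8 * M.dseq D y l) ≤ del D ^ 2 * (th D ^ 4 / 8 * 2) :=
    fun l hl => mul_le_mul_of_nonneg_left
      (mul_le_mul e2 (hd2 l hl) (hd0 l) (by positivity)) hδ2.le
  have e4 := e3 l (by omega)
  have e5 := e3 (l + 1) (by omega)
  nlinarith

end Pool.Agent.IS
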