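import Pool.Agent.P.MP_f981b0_an.IS.Stmt

/-! The circle on which the full symbol is not small. -/

set_option autoImplicit false

noncomputable section

namespace Pool.Agent.IS

theorem Circ_arc {w : ℂ} {v : ℝ} (hv : 0 < v) (hw : ‖w‖ = Real.exp (-v)) (hre : w.re ≤ 0) :
    1 - w ≠ 0 ∧ ‖(1 + w) / (1 - w)‖ ≤ 1 ∧ 0 ≤ ((1 + w) / (1 - w)).re ∧
      ((1 + w) / (1 - w)).re ≤ 2 * v := by
  have e0 : ‖w‖ ^ 2 = w.re * w.re + w.im * w.im := by rw [Complex.sq_norm, Complex.normSq_apply]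
  have e1 : ‖w‖ ^ 2 = Real.exp (-(2 * v)) := by
    rw [hw, ← Real.exp_nat_mul]; congr 1; push_cast; ring
  have e2 : 1 - 2 * v ≤ ‖w‖ ^ 2 := by rw [e1]; linarith [Real.add_one_le_exp (-(2 * v))]
  have e3 : ‖w‖ ^ 2 ≤ 1 := by rw [e1, Real.exp_le_one_iff]; linarith
  have e4 : Complex.normSq (1 - w) = 1 - 2 * w.re + ‖w‖ ^ 2 := by
    rw [e0, Complex.normSq_apply]; simp; ring
  have e5 : Complex.normSq (1 + w) = 1 + 2 * w.re + ‖w‖ ^ 2 := by
    rw [e0, Complex.normSq_apply]; simp; ring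
  have e6 : 1 ≤ Complex.normSq (1 - w) := by rw [e4]; nlinarith [sq_nonneg ‖w‖]
  have hne : 1 - w ≠ 0 := fun h => by rw [h, map_zero] at e6; linarith
  have e8 : ((1 + w) / (1 - w)).re = (1 - ‖w‖ ^ 2) / Complex.normSq (1 - w) := by
    rw [Complex.div_re, e0]; simp; ring
  refine ⟨hne, ?_, ?_, ?_⟩
  · rw [norm_div, div_le_one (norm_pos_iff.2 hne)]
    refine le_of_sq_le_sq ?_ (norm_nonneg _)
    rw [Complex.sq_norm, Complex.sq_norm]; linarith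
  · rw [e8]; exact div_nonneg (by linarith) (by linarith)
  · rw [e8, div_le_iff₀ (by linarith)]; nlinarith

theorem Circ_core (h1 : S_Prop) (h2 : S_MM) {f : ℂ → ℂ} {a s h Mx ν : ℝ} {p0 : ℂ}
    (ha : 64 ≤ a) (hs : 1 ≤ s) (hh : 0 < h) (hh1 : h ≤ 1) (hMx : 1 ≤ Mx) (hν : 16 ≤ ν)
    (hf : DifferentiableOn ℂ f {p : ℂ | -(1 / 2) < p.re ∧ ‖p‖ < 16 * a + 1})
    (hM : ∀ p : ℂ, 0 ≤ p.re → ‖p‖ ≤ 16 * a → ‖f p‖ ≤ Mx)
    (h01 : ‖p0‖ ≤ 1) (h02 : 0 ≤ p0.re) (h03 : p0.re ≤ 2 * (h / a))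
    (h05 : ‖(p0 - 1) / (p0 + 1)‖ = Real.exp (-(h / a)))
    (h04 : Mx * Real.exp (-(s * h)) < ‖f p0‖) :
    ∃ r2 : ℝ, 2 / ν ^ 2 ≤ r2 ∧ r2 ≤ 2 * (2 / ν ^ 2) ∧ ∀ z : ℂ, ‖z - 1‖ = r2 →
      Real.exp (-(36 * (2 * a * s + 1) * Real.log ν)) ≤ ‖f z‖ := by
  set n : ℕ := ⌈2 * a * s⌉₊ with hn
  have has : 64 ≤ a * s := by nlinarith
  have hn1 : 2 * a * s ≤ n := Nat.le_ceil _
  have hn2 : (n : ℝ) ≤ 2 * a * s + 1 := (Nat.ceil_lt_add_one (by positivity)).le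
  have hν0 : 0 < ν := by linarith
  set ρ : ℝ := 2 / ν ^ 2 with hρ
  have hρ0 : 0 < ρ := by positivity
  have hρ1 : ρ ≤ 1 / 128 := by
    rw [hρ, div_le_div_iff₀ (by positivity) (by norm_num)]; nlinarith
  have hlog : 1 ≤ Real.log ν := by
    rw [Real.le_log_iff_exp_le hν0]
    have := Real.exp_one_lt_d9
    linarith
  have hv : h / a ≤ 1 / 64 := by rw [div_le_div_iff₀ (by linarith) (by norm_num)]; linarith
  have hv0 : 0 < h / a := by positivity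
  have hA : ∃ z : ℂ, ‖z - 1‖ = ρ ∧ Mx * Real.exp (-(n * (3 * Real.log ν))) ≤ ‖f z‖ := by
    by_contra hc
    push Not at hc
    have e0 : |(p0 - 1).re| ≤ ‖p0 - 1‖ := Complex.abs_re_le_norm _
    rw [Complex.sub_re, Complex.one_re, abs_le] at e0
    have e1 := h1 f Mx (16 * a) ρ 1 n hρ0 (by rw [Complex.one_re]; linarith)
      (by rw [norm_one]; linarith) hf hM (fun z hz => (hc z hz).le.trans (by
        rw [show -((n : ℝ) * (3 * Real.log ν)) = n * (-(3 * Real.log ν)) by ring,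
          Real.exp_nat_mul, map_one]
        gcongr
        have b1 : ‖z + 1‖ ≤ 3 := by
          have : z + 1 = (z - 1) + 2 := by ring
          rw [this]
          have b2 := norm_add_le (z - 1) 2
          rw [hz, Complex.norm_ofNat] at b2
          linarith
        have b3 : 0 < ‖z + 1‖ := by
          have : (2 : ℂ) = (z + 1) - (z - 1) := by ring
          have b4 := norm_sub_le (z + 1) (z - 1)
          rw [← this, hz, Complex.norm_ofNat] at b4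
          linarith
        have b5 : Real.exp (-(3 * Real.log ν)) = (ν ^ 3)⁻¹ := by
          rw [Real.exp_neg, show 3 * Real.log ν = (3 : ℕ) * Real.log ν by norm_num,
            Real.exp_nat_mul, Real.exp_log hν0]
        rw [norm_div, hz, b5, le_div_iff₀ b3, inv_mul_le_iff₀ (by positivity)]
        have : ν ^ 3 * ρ = 2 * ν := by rw [hρ]; field_simp
        linarith)) p0 h02 (by linarith) (by linarith [e0.1])
    rw [map_one, h05, Complex.one_re, norm_one, ← Real.exp_nat_mul, mul_assoc, ← Real.exp_add] at e1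
    have e4 : 2 * n * 1 * p0.re / (16 * a - 1) ^ 2 ≤ n * (h / a) / 2 := by
      rw [div_le_div_iff₀ (by nlinarith) (by norm_num)]
      have b1 : 8 ≤ (16 * a - 1) ^ 2 := by nlinarith
      have b2 : 0 ≤ (n : ℝ) * (h / a) := by positivity
      have b3 : (n : ℝ) * p0.re ≤ n * (2 * (h / a)) := by gcongr
      nlinarith
    have e6 : s * h ≤ n * (h / a) / 2 := by
      calc s * h = (2 * a * s) * (h / a) / 2 := by field_simp
        _ ≤ _ := by gcongr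
    have e7 : ‖f p0‖ ≤ Mx * Real.exp (-(s * h)) := by
      refine e1.trans ?_
      gcongr
      linarith
    linarith
  obtain ⟨z0, hz0, hz1⟩ := hA
  have hball : ∀ z ∈ Metric.closedBall (1 : ℂ) (128 * ρ), 0 ≤ z.re ∧ ‖z‖ ≤ 16 * a := by
    intro z hz
    rw [mem_closedBall_iff_norm] at hz
    have e1 : |(z - 1).re| ≤ ‖z - 1‖ := Complex.abs_re_le_norm _
    rw [Complex.sub_re, Complex.one_re, abs_le] at e1
    have e4 : ‖z‖ ≤ ‖z - 1‖ + 1 := by simpa using norm_add_le (z - 1) 1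
    exact ⟨by linarith [e1.1], by linarith⟩
  obtain ⟨r2, hr1, hr2, hr3⟩ := h2 f 1 z0 Mx ρ (n * (3 * Real.log ν)) hρ0 (by linarith)
    (by nlinarith)
    (hf.mono fun z hz => ⟨by linarith [(hball z hz).1], by linarith [(hball z hz).2]⟩)
    (fun z hz => hM z (hball z hz).1 (hball z hz).2) hz0.le hz1
  refine ⟨r2, hr1, hr2, fun z hz => le_trans ?_ (hr3 z hz)⟩
  refine le_trans ?_ (le_mul_of_one_le_left (Real.exp_pos _).le hMx)
  rw [Real.exp_le_exp]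
  nlinarith

theorem Circ_num {D : ℕ} (hD : Big D) {e x0 : ℝ} (he0 : 0 ≤ e) (he1 : e ≤ 1)
    (hx : 1 / (D : ℝ) ≤ x0) :
    (mu D)⁻¹ * (4 * ((DG D : ℝ) + 1)) ≤
      Real.exp (-(36 * (2 * aa D * ss D e x0 + 1) * Real.log (n1 D))) / 2 := by
  have hD1 : (65536 : ℝ) ≤ D := by exact_mod_cast hD.1
  have hD0 : (0 : ℝ) < D := by linarith
  have hx0 : 0 < x0 := lt_of_lt_of_le (by positivity) hx
  have hn : (n1 D : ℝ) = 64 * D * ((2 : ℝ) ^ D) ^ 20 := by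
    unfold n1; push_cast; rw [← pow_mul, mul_comm D 20]
  have hdel : (del D)⁻¹ = ((2 : ℝ) ^ D) ^ 7 := by
    unfold del th; rw [one_div, inv_pow, inv_pow, inv_inv]
  have hdp : 0 < del D := pow_pos (th_pos D) 7
  have h3 : x0⁻¹ ≤ D := by
    rw [inv_le_comm₀ hx0 hD0]; rwa [one_div] at hx
  have h4 : 40 * e ^ 2 / (del D * x0) ^ 2 ≤ 40 * (((2 : ℝ) ^ D) ^ 7 * D) ^ 2 := by
    rw [← hdel, div_eq_mul_inv, ← inv_pow, mul_inv]
    have : e ^ 2 ≤ 1 := pow_le_one₀ he0 he1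
    calc 40 * e ^ 2 * ((del D)⁻¹ * x0⁻¹) ^ 2 ≤ 40 * 1 * ((del D)⁻¹ * D) ^ 2 := by gcongr
      _ = _ := by ring
  have h5 : (D : ℝ) ^ 3 * 2 ^ 30 ≤ 2 ^ D := by
    have b1 := hD.num
    have b2 : (2 : ℝ) ^ (D / 2) ≤ 2 ^ D := pow_le_pow_right₀ (by norm_num) (Nat.div_le_self _ _)
    have b3 : (D : ℝ) ^ 3 ≤ (D : ℝ) ^ 40 := pow_le_pow_right₀ (by linarith) (by norm_num)
    calc (D : ℝ) ^ 3 * 2 ^ 30 ≤ (D : ℝ) ^ 40 * 2 ^ 200 := by gcongr <;> norm_num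
      _ ≤ _ := b1.trans b2
  have hl2 : 0 < Real.log 2 := Real.log_pos (by norm_num)
  have hx1 : (1 : ℝ) ≤ 2 ^ D := one_le_pow₀ (by norm_num)
  have hD3 : (D : ℝ) ≤ (D : ℝ) ^ 3 := le_self_pow₀ (by linarith) (by norm_num)
  have h64 : 64 * (D : ℝ) ≤ 2 ^ D := by nlinarith
  have hν : 2000 ≤ (n1 D : ℝ) := by
    rw [hn]
    have : (1 : ℝ) ≤ ((2 : ℝ) ^ D) ^ 20 := one_le_pow₀ hx1
    nlinarith
  have hν0 : (0 : ℝ) < n1 D := by linarith
  have hlog : Real.log (n1 D) ≤ 21 * D * Real.log 2 := by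
    have b1 : (n1 D : ℝ) ≤ 2 ^ (21 * D) := by
      rw [hn, mul_comm 21 D, pow_mul, pow_succ' _ 20]; gcongr
    have b2 := Real.log_le_log hν0 b1
    rw [Real.log_pow] at b2
    push_cast at b2; exact b2
  have hss : ss D e x0 ≤ 360 * (D : ℝ) ^ 2 * ((2 : ℝ) ^ D) ^ 14 := by
    unfold ss
    have b1 : (1 : ℝ) ≤ ((2 : ℝ) ^ D) ^ 14 := one_le_pow₀ hx1
    have b2 : (((2 : ℝ) ^ D) ^ 7 * D) ^ 2 = (D : ℝ) ^ 2 * ((2 : ℝ) ^ D) ^ 14 := by ring
    rw [b2] at h4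
    nlinarith [sq_nonneg (D : ℝ)]
  have hss0 : 0 ≤ ss D e x0 := by unfold ss; positivity
  have ha : (aa D : ℝ) = 64 * D := by unfold aa; push_cast; ring
  have hkey : (36 * (2 * aa D * ss D e x0 + 1) + 2) * (21 * D) ≤ (n1 D : ℝ) := by
    rw [hn, ha]
    generalize (2 : ℝ) ^ D = x at hss h5 hx1
    have b1 : x ^ 15 ≤ x ^ 20 := pow_le_pow_right₀ hx1 (by norm_num)
    have b2 : (D : ℝ) ^ 3 * 2 ^ 30 * x ^ 14 ≤ x ^ 15 := by rw [pow_succ' x 14]; gcongr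
    have b3 : (1 : ℝ) ≤ x ^ 14 := one_le_pow₀ hx1
    have b4 : (D : ℝ) * ss D e x0 ≤ D * (360 * (D : ℝ) ^ 2 * x ^ 14) := by gcongr
    have b5 : 1 ≤ (D : ℝ) ^ 3 * x ^ 14 := one_le_mul_of_one_le_of_one_le (by linarith) b3
    have b6 : (36 * (2 * (64 * (D : ℝ)) * ss D e x0 + 1) + 2) * 21 ≤ 64 * x ^ 20 := by nlinarith
    nlinarith
  have hmu : mu D = Real.exp (n1 D * Real.log 2) := by
    unfold mu; rw [Real.exp_nat_mul, Real.exp_log (by norm_num)]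
  have hDG : 4 * ((DG D : ℝ) + 1) ≤ Real.exp (2 * Real.log (n1 D)) / 2 := by
    rw [show 2 * Real.log (n1 D) = (2 : ℕ) * Real.log (n1 D) by norm_num, Real.exp_nat_mul,
      Real.exp_log hν0]
    unfold DG; push_cast; nlinarith
  calc (mu D)⁻¹ * (4 * ((DG D : ℝ) + 1))
      ≤ Real.exp (-(n1 D * Real.log 2)) * (Real.exp (2 * Real.log (n1 D)) / 2) := by
        rw [hmu, Real.exp_neg]; gcongr
    _ = Real.exp (-(n1 D * Real.log 2) + 2 * Real.log (n1 D)) / 2 := by rw [Real.exp_add]; ring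
    _ ≤ _ := by
      gcongr
      have b0 : 0 ≤ 36 * (2 * aa D * ss D e x0 + 1) + 2 := by positivity
      have b1 := mul_le_mul_of_nonneg_left hlog b0
      have b2 := mul_le_mul_of_nonneg_right hkey hl2.le
      nlinarith

theorem p_Circ (h1 : S_G1) (h2 : S_Symb) (h3 : S_Prop) (h4 : S_MM) (h5 : S_Rem) (h6 : S_LemJ) :
    S_Circ := by
  intro M D X ch c e x0 hD hX hch
  have g1 := h1 M D hD
  obtain ⟨h, hh0, hh1, w, hw, hwre, hF⟩ := h6 M D X c e x0 hD hX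
  obtain ⟨-, -, hM, hf, -⟩ := h5 M D X c e x0 hD hX
  have hD1 : (65536 : ℝ) ≤ D := by exact_mod_cast hD.1
  have ha : (64 : ℝ) ≤ aa D := by unfold aa; push_cast; linarith
  have hs : 1 ≤ ss D e x0 := by
    have : 0 ≤ 40 * e ^ 2 / (del D * x0) ^ 2 := by positivity
    unfold ss; nlinarith
  have hν : 4000000 ≤ (n1 D : ℝ) := by
    unfold n1; push_cast
    have : (1 : ℝ) ≤ 2 ^ (20 * D) := one_le_pow₀ (by norm_num)
    nlinarith
  have hν0 : (0 : ℝ) < n1 D := by linarith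
  have hn1 : (n1 D : ℂ) ≠ 0 := by exact_mod_cast hν0.ne'
  obtain ⟨hne, b1, b2, b3⟩ := Circ_arc (v := h / aa D) (by positivity) hw hwre
  have e1 : tp D ((1 + w) / (1 - w)) = tw D w := by unfold tp tw; field_simp; ring
  have e2 : wp ((1 + w) / (1 - w)) = w := by
    have : (1 + w) / (1 - w) + 1 = 2 / (1 - w) := by field_simp; ring
    unfold wp; rw [this]; field_simp; ring
  obtain ⟨r2, hr1, hr2, hr3⟩ := Circ_core h3 h4 (f := M.Ff D X c) (p0 := (1 + w) / (1 - w))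
    (ν := n1 D) ha hs hh0 hh1 (one_le_pow₀ (by norm_num)) (by linarith) hf hM b1 b2 b3
    (by rw [← hw]; exact congrArg norm e2) (by rwa [Model.Ff, e1, e2])
  have hZ : (ZZ D)⁻¹ = 2 / (n1 D : ℝ) ^ 2 / (2 * n1 D) := by unfold ZZ; field_simp
  have hr4 : r2 / (2 * n1 D) ≤ 2 * (ZZ D)⁻¹ := by
    rw [hZ, ← mul_div_assoc]; gcongr
  refine ⟨r2 / (2 * n1 D), by rw [hZ]; gcongr, hr4, fun t ht => ?_⟩
  have c1 := hr3 (1 + 2 * (n1 D : ℂ) * t) (by
    rw [add_sub_cancel_left, norm_mul, norm_mul, ht, Complex.norm_ofNat, Complex.norm_natCast]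
    field_simp)
  have c2 : tp D (1 + 2 * (n1 D : ℂ) * t) = t := by unfold tp; field_simp; ring
  have c3 : wp (1 + 2 * (n1 D : ℂ) * t) = wt D t := by
    unfold wp wt
    rw [add_sub_cancel_left, show 1 + 2 * (n1 D : ℂ) * t + 1 =
      2 * (n1 D : ℂ) * (t + 1 / (n1 D : ℂ)) by field_simp; ring,
      mul_div_mul_left _ _ (mul_ne_zero two_ne_zero hn1)]
  rw [Model.Ff, c2, c3] at c1
  have c4 : ‖t‖ * dd (DG D) ≤ 1 / 2 := by
    have d1 : dd (DG D) ≤ 20 * (193 * (n1 D : ℝ)) ^ 2 := by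
      unfold dd DG; push_cast; gcongr; linarith
    have d2 : ‖t‖ ≤ 2 * ((n1 D : ℝ) ^ 3)⁻¹ := by rw [ht]; exact hr4
    calc ‖t‖ * dd (DG D) ≤ 2 * ((n1 D : ℝ) ^ 3)⁻¹ * (20 * (193 * (n1 D : ℝ)) ^ 2) := by
          have : 0 ≤ dd (DG D) := by unfold dd; positivity
          gcongr
      _ = 1489960 / n1 D := by field_simp; norm_num
      _ ≤ 1 / 2 := by rw [div_le_div_iff₀ hν0 (by norm_num)]; linarith
  have c5 := ((h2 M (DG D) (kG D) g1.admG).2.2.1 ch t c4).2.1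
  have hmu : 0 < mu D := by unfold mu; positivity
  have c6 : ‖((mu D : ℂ)⁻¹) * sym (M.dG D) (M.evG D) ch t‖ ≤
      (mu D)⁻¹ * (4 * ((DG D : ℝ) + 1)) := by
    rw [norm_mul, norm_inv, Complex.norm_real, Real.norm_of_nonneg hmu.le]
    gcongr
    refine c5.trans ?_
    calc _ ≤ 4 * ((DG D : ℝ) + 1) * 1 := by gcongr
      _ = _ := mul_one _
  have c7 := Circ_num hD hX.e0 hX.e1 hX.x0
  have c8 := norm_le_add_norm_add (M.Ft D X c t (wt D t))
    (((mu D : ℂ)⁻¹) * sym (M.dG D) (M.evG D) ch t)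
  linarith

end Pool.Agent.IS
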