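import Pool.Agent.P.MP_f981b0_an.IS.Stmt

/-! Division by a contour integral. -/

set_option autoImplicit false

open Polynomial Finset Filter Topology
open scoped Nat Real

noncomputable section

namespace Pool.Agent.IS

namespace DivAux

variable {B : Type} [NormedAddCommGroup B] [NormedSpace ℂ B]

theorem norm_avg_le {f : ℂ → B} {r C : ℝ} (hr : 0 < r) (h : ∀ t : ℂ, ‖t‖ = r → ‖f t‖ ≤ C) :
    ‖Real.circleAverage f 0 r‖ ≤ C := by
  have h1 : ‖∫ θ in (0 : ℝ)..2 * π, f (circleMap 0 r θ)‖ ≤ C * |2 * π - 0| :=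
    intervalIntegral.norm_integral_le_of_norm_le_const fun θ _ => h _ (by simp [abs_of_pos hr])
  have h2 : (0 : ℝ) < 2 * π := Real.two_pi_pos
  rw [sub_zero, abs_of_pos h2] at h1
  rw [Real.circleAverage_def, norm_smul, Real.norm_eq_abs, abs_of_pos (inv_pos.2 h2),
    inv_mul_le_iff₀ h2]
  linarith

theorem avg_inv_pow {r : ℝ} (hr : 0 < r) (l : ℕ) :
    Real.circleAverage (fun t : ℂ => t⁻¹ ^ l) 0 r = if l = 0 then 1 else 0 := by
  split_ifs with h
  · subst h
    simpa using Real.circleAverage_const (1 : ℂ) 0 r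
  · rw [Real.circleAverage_eq_circleIntegral hr.ne']
    have h1 : (∮ z in C(0, r), (z - 0)⁻¹ • z⁻¹ ^ l) = ∮ z in C(0, r), (z - 0) ^ (-((l : ℤ) + 1)) := by
      congr 1
      funext z
      rw [sub_zero, smul_eq_mul, ← pow_succ', inv_pow, zpow_neg]
      norm_cast
    rw [h1, circleIntegral.integral_sub_zpow_of_ne (by omega), smul_zero]

theorem avg_clm {B2 : Type} [NormedAddCommGroup B2] [NormedSpace ℂ B2] [CompleteSpace B]
    [CompleteSpace B2] (L : B →L[ℂ] B2) {f : ℂ → B} {r : ℝ} (hf : CircleIntegrable f 0 r) :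
    Real.circleAverage (fun t => L (f t)) 0 r = L (Real.circleAverage f 0 r) :=
  (L.restrictScalars ℝ).circleAverage_comp_comm hf

theorem avg_smul [CompleteSpace B] {f : ℂ → ℂ} {r : ℝ} (hf : CircleIntegrable f 0 r) (v : B) :
    Real.circleAverage (fun t => f t • v) 0 r = Real.circleAverage f 0 r • v :=
  avg_clm (ContinuousLinearMap.toSpanSingleton ℂ v) hf

theorem cont_inv {r : ℝ} (hr : 0 < r) (l : ℕ) :
    ContinuousOn (fun t : ℂ => t⁻¹ ^ l) (Metric.sphere 0 r) := by
  refine (continuousOn_id.inv₀ fun t ht h0 => ?_).pow l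
  rw [mem_sphere_zero_iff_norm] at ht
  simp only [id] at h0
  rw [h0, norm_zero] at ht
  exact hr.ne ht

theorem tele (A : B →L[ℂ] B) (z : ℂ) (s : B) (n : ℕ) :
    ∑ l ∈ range n, z ^ l • (A ^ l) (s - z • A s) = s - z ^ n • (A ^ n) s := by
  induction n with
  | zero => simp
  | succ n ih =>
    rw [sum_range_succ, ih, map_sub, map_smul, smul_sub, smul_smul, ← pow_succ, pow_succ A]
    simp

end DivAux

open DivAux

theorem p_Div : S_Div := by
  intro B B2 _ _ _ _ _ _ A A2 i2 Z r one x G f q rx rG hr hZ hS hi hq hrx hrG h0 hx hG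
  have hZ0 : 0 ≤ Z := (inv_pos.2 hr).le.trans hZ
  have ci : ∀ {B' : Type} [NormedAddCommGroup B'] {g : ℂ → B'},
      ContinuousOn g (Metric.sphere 0 r) → CircleIntegrable g 0 r := fun h =>
    h.circleIntegrable hr.le
  have hrGc : ContinuousOn rG (Metric.sphere 0 r) :=
    hrG.continuousOn.mono Metric.sphere_subset_closedBall
  set s : ℂ → B2 := fun t => i2 (q t • rx t - rG t) with hs
  have hsc : ContinuousOn s (Metric.sphere 0 r) :=
    i2.continuous.comp_continuousOn ((hq.smul hrx).sub hrGc)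
  obtain ⟨C, hC⟩ := (isCompact_sphere (0 : ℂ) r).exists_bound_of_continuousOn hsc
  obtain ⟨Q, hQ⟩ := (isCompact_sphere (0 : ℂ) r).exists_bound_of_continuousOn hq
  have hinv : ∀ (t : ℂ) (l : ℕ), ‖t‖ = r → ‖t⁻¹ ^ l‖ ≤ Z ^ l := fun t l ht => by
    rw [norm_pow, norm_inv, ht]
    exact pow_le_pow_left₀ (inv_pos.2 hr).le hZ l
  have hav : Real.circleAverage s 0 r = i2 (Real.circleAverage (fun t => q t • rx t) 0 r) := by
    have h1 : Real.circleAverage rG 0 r = 0 := by
      rw [← h0]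
      apply DiffContOnCl.circleAverage
      rw [abs_of_pos hr]
      apply DifferentiableOn.diffContOnCl
      rwa [closure_ball _ hr.ne']
    have k1 : ContinuousOn (fun t => q t • rx t) (Metric.sphere 0 r) := hq.smul hrx
    have k2 : ContinuousOn (fun t => q t • rx t - rG t) (Metric.sphere 0 r) := k1.sub hrGc
    rw [hs, avg_clm i2 (ci k2), Real.circleAverage_fun_sub (ci k1) (ci hrGc), h1, sub_zero]
  have hpt : ∀ t : ℂ, ‖t‖ = r → i2 G - q t • i2 x = s t - t⁻¹ • A2 (s t) := by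
    intro t ht
    simp only [hs]
    rw [← hi, ← map_smul, ← map_smul, ← map_sub, ← map_sub]
    congr 1
    conv_lhs => rw [hG t ht, hx t ht]
    simp only [map_sub, map_smul, smul_sub, mul_smul]
    rw [smul_comm (q t) t⁻¹]
    abel
  have hfin : ∀ n : ℕ, 1 ≤ n →
      ∑ l ∈ range n, Real.circleAverage (fun t => q t * t⁻¹ ^ l) 0 r • (A2 ^ l) (i2 x) =
        i2 (G - Real.circleAverage (fun t => q t • rx t) 0 r) +
          Real.circleAverage (fun t => t⁻¹ ^ n • (A2 ^ n) (s t)) 0 r := by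
    intro n hn
    have h1 : Real.circleAverage (fun t => ∑ l ∈ range n,
        (t⁻¹ ^ l • (A2 ^ l) (i2 G) - (q t * t⁻¹ ^ l) • (A2 ^ l) (i2 x))) 0 r =
        Real.circleAverage (fun t => s t - t⁻¹ ^ n • (A2 ^ n) (s t)) 0 r := by
      refine Real.circleAverage_congr_sphere fun t ht => ?_
      rw [abs_of_pos hr, mem_sphere_zero_iff_norm] at ht
      rw [← tele, ← hpt t ht]
      refine sum_congr rfl fun l _ => ?_
      rw [map_sub, map_smul, smul_sub, smul_smul, mul_comm]
    have c1 : ∀ l : ℕ, ContinuousOn (fun t : ℂ => t⁻¹ ^ l • (A2 ^ l) (i2 G)) (Metric.sphere 0 r) :=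
      fun l => (cont_inv hr l).smul continuousOn_const
    have c2 : ∀ l : ℕ, ContinuousOn (fun t : ℂ => (q t * t⁻¹ ^ l) • (A2 ^ l) (i2 x))
        (Metric.sphere 0 r) := fun l => (hq.mul (cont_inv hr l)).smul continuousOn_const
    have c3 : ContinuousOn (fun t : ℂ => t⁻¹ ^ n • (A2 ^ n) (s t)) (Metric.sphere 0 r) :=
      (cont_inv hr n).smul ((A2 ^ n).continuous.comp_continuousOn hsc)
    have c4 : ∀ l : ℕ, ContinuousOn (fun t : ℂ => t⁻¹ ^ l • (A2 ^ l) (i2 G) -
        (q t * t⁻¹ ^ l) • (A2 ^ l) (i2 x)) (Metric.sphere 0 r) := fun l => (c1 l).sub (c2 l)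
    have c5 : ∀ l : ℕ, ContinuousOn (fun t : ℂ => q t * t⁻¹ ^ l) (Metric.sphere 0 r) :=
      fun l => hq.mul (cont_inv hr l)
    rw [Real.circleAverage_fun_sum fun l _ => ci (c4 l),
      Real.circleAverage_fun_sub (ci hsc) (ci c3), hav] at h1
    have h2 : ∀ l ∈ range n, Real.circleAverage (fun t =>
        t⁻¹ ^ l • (A2 ^ l) (i2 G) - (q t * t⁻¹ ^ l) • (A2 ^ l) (i2 x)) 0 r =
        (if l = 0 then i2 G else 0) -
          Real.circleAverage (fun t => q t * t⁻¹ ^ l) 0 r • (A2 ^ l) (i2 x) := by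
      intro l _
      rw [Real.circleAverage_fun_sub (ci (c1 l)) (ci (c2 l)), avg_smul (ci (cont_inv hr l)),
        avg_smul (ci (c5 l)), avg_inv_pow hr]
      split_ifs with h
      · simp [h]
      · simp
    rw [sum_congr rfl h2, sum_sub_distrib, sum_ite_eq' (range n) 0 fun _ => i2 G,
      if_pos (mem_range.2 hn)] at h1
    rw [map_sub]
    rw [sub_eq_iff_eq_add] at h1
    rw [h1]
    abel
  have hsum : Summable fun l : ℕ =>
      ‖Real.circleAverage (fun t => q t * t⁻¹ ^ l) 0 r • (A2 ^ l) (i2 x)‖ := by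
    refine Summable.of_nonneg_of_le (fun _ => norm_nonneg _) (fun l => ?_)
      ((hS.mul_left (max Q 0)).mul_right ‖i2 x‖)
    have h1 : ‖Real.circleAverage (fun t => q t * t⁻¹ ^ l) 0 r‖ ≤ max Q 0 * Z ^ l :=
      norm_avg_le hr fun t ht => by
        rw [norm_mul]
        exact mul_le_mul ((hQ t (mem_sphere_zero_iff_norm.2 ht)).trans (le_max_left _ _))
          (hinv t l ht) (norm_nonneg _) (le_max_right _ _)
    rw [norm_smul]
    calc _ ≤ max Q 0 * Z ^ l * (‖A2 ^ l‖ * ‖i2 x‖) :=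
          mul_le_mul h1 ((A2 ^ l).le_opNorm _) (norm_nonneg _) (by positivity)
      _ = _ := by ring
  rw [hasSum_iff_tendsto_nat_of_summable_norm hsum]
  have hrem : Tendsto (fun n : ℕ => Real.circleAverage (fun t => t⁻¹ ^ n • (A2 ^ n) (s t)) 0 r)
      atTop (𝓝 0) := by
    have h1 : Tendsto (fun n : ℕ => Z ^ n * ‖A2 ^ n‖ * C) atTop (𝓝 0) := by
      simpa using (Summable.tendsto_atTop_zero hS).mul_const C
    refine squeeze_zero_norm (fun n => norm_avg_le hr fun t ht => ?_) h1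
    rw [norm_smul, mul_assoc]
    exact mul_le_mul (hinv t n ht) ((A2 ^ n).le_of_opNorm_le_of_le le_rfl
      (hC t (mem_sphere_zero_iff_norm.2 ht))) (norm_nonneg _) (by positivity)
  have h3 := hrem.const_add (i2 (G - Real.circleAverage (fun t => q t • rx t) 0 r))
  rw [add_zero] at h3
  refine h3.congr' ?_
  filter_upwards [eventually_ge_atTop 1] with n hn
  exact (hfin n hn).symm

end Pool.Agent.IS
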