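import Pool.Agent.P.MP_f981b0_an.IS.Stmt

/-! The dividing polynomial: numerical part. -/

set_option autoImplicit false

open Polynomial Finset Filter Topology
open scoped Nat Real

noncomputable section

namespace Pool.Agent.IS

theorem End_D {D : ℕ} (h : Big D) : (65536 : ℝ) ≤ D := by exact_mod_cast h.1

theorem End_n (D : ℕ) : 64 * (D : ℝ) ≤ n1 D := by
  have h1 : 1 ≤ 2 ^ (20 * D) := Nat.one_le_two_pow
  have h2 : 64 * D ≤ n1 D := by
    unfold n1
    exact Nat.le_mul_of_pos_right _ h1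
  exact_mod_cast h2

theorem End_tau (D : ℕ) : tau D * n1 D = 64 * D := by
  have h1 := th_inv D
  have h2 : th D ^ 20 * (2 : ℝ) ^ (20 * D) = 1 := by
    rw [mul_comm 20 D, pow_mul, ← mul_pow, mul_comm (th D), h1, one_pow]
  unfold tau n1
  push_cast
  linear_combination (64 * (D : ℝ)) * h2

theorem End_r {D : ℕ} (h : Big D) {r : ℝ} (h1 : (ZZ D)⁻¹ ≤ r) (h2 : r ≤ 2 * (ZZ D)⁻¹) :
    0 < r ∧ r⁻¹ ≤ ZZ D ∧ r ≤ 9 * tau D ∧ r < 1 / (2 * (n1 D : ℝ)) ∧ r * dd (DG D) ≤ 1 / 2 ∧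
      r * dd D ≤ 1 / 2 ∧
      ∀ t : ℂ, ‖t‖ = r → t + 1 / (n1 D : ℂ) ≠ 0 ∧ ‖wt D t‖ ≤ 1 / (n1 D : ℝ) := by
  have hD := End_D h
  have hn := End_n D
  have ht := End_tau D
  have hDG : ((DG D : ℕ) : ℝ) = 192 * n1 D := by unfold DG; push_cast; ring
  unfold ZZ at h1 h2 ⊢
  unfold dd
  rw [hDG]
  have hc : ∀ t : ℂ, ‖t + 1 / (n1 D : ℂ)‖ ≥ 1 / (n1 D : ℝ) - ‖t‖ := fun t => by
    have e1 : ‖(1 / (n1 D : ℂ))‖ = 1 / (n1 D : ℝ) := by simp
    have e2 := norm_sub_norm_le (1 / (n1 D : ℂ)) (-t)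
    rw [e1, norm_neg, sub_neg_eq_add, add_comm] at e2
    exact e2
  unfold wt
  generalize (n1 D : ℂ) = nc at hc ⊢
  generalize (n1 D : ℝ) = n at *
  generalize tau D = τ at *
  generalize (D : ℝ) = d at *
  have hn0 : 4194304 ≤ n := by linarith
  have hnp : 0 < n := by linarith
  have hr0 : 0 < r := lt_of_lt_of_le (by positivity) h1
  have hr3 : r * n ^ 3 ≤ 2 := by
    have := mul_le_mul_of_nonneg_right h2 (pow_pos hnp 3).le
    rwa [mul_assoc, inv_mul_cancel₀ (pow_pos hnp 3).ne', mul_one] at this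
  have hr2 : r * n ^ 2 * 4194304 ≤ 2 := by
    have : r * n ^ 2 * 4194304 ≤ r * n ^ 2 * n := mul_le_mul_of_nonneg_left hn0 (by positivity)
    nlinarith
  have hr1 : r * n * 4194304 ≤ r * n ^ 2 := by
    have : r * n * 4194304 ≤ r * n * n := mul_le_mul_of_nonneg_left hn0 (by positivity)
    nlinarith
  have hrn : 0 < r * n := by positivity
  have hG : r * (20 * (192 * n + 1) ^ 2) ≤ 1 / 2 := by
    have : (192 * n + 1) ^ 2 ≤ (193 * n) ^ 2 := pow_le_pow_left₀ (by positivity) (by linarith) 2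
    have h3 : r * (20 * (192 * n + 1) ^ 2) ≤ r * (20 * (193 * n) ^ 2) :=
      mul_le_mul_of_nonneg_left (by linarith) hr0.le
    nlinarith
  refine ⟨hr0, inv_le_of_inv_le₀ (pow_pos hnp 3) h1, ?_, ?_, hG, ?_, fun t htr => ?_⟩
  · have : r * n ≤ 9 * τ * n := by nlinarith
    exact le_of_mul_le_mul_right this hnp
  · rw [lt_div_iff₀ (by positivity)]
    nlinarith
  · refine le_trans (mul_le_mul_of_nonneg_left ?_ hr0.le) hG
    have : (d + 1) ^ 2 ≤ (192 * n + 1) ^ 2 := pow_le_pow_left₀ (by linarith) (by linarith) 2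
    linarith
  · have h3 := hc t
    rw [htr] at h3
    have h4 : r * n ≤ 1 / n - r := by
      rw [le_sub_iff_add_le, le_div_iff₀ hnp]
      nlinarith
    have h5 : 0 < ‖t + 1 / nc‖ := by linarith
    refine ⟨norm_pos_iff.1 h5, ?_⟩
    rw [norm_div, htr, div_le_div_iff₀ h5 hnp]
    linarith

theorem End_ss {D : ℕ} (e x0 : ℝ) : 320 * (D : ℝ) ^ 2 ≤ ss D e x0 := by
  unfold ss
  have : 0 ≤ 40 * e ^ 2 / (del D * x0) ^ 2 := by positivity
  linarith

theorem End_q {D : ℕ} (h : Big D) {s : ℝ} (hs : 320 * (D : ℝ) ^ 2 ≤ s) {N : ℕ}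
    (hN : 146 * (aa D * s) ≤ N) :
    (1 / (n1 D : ℝ)) ^ N * (4 * ((D : ℝ) + 1) * D) /
      (Real.exp (-(36 * (2 * aa D * s + 1) * Real.log (n1 D))) / 2) * (Real.exp (Lam D) + 1) ≤
      1 / 16 := by
  have hD := End_D h
  have hn := End_n D
  have ha : ((aa D : ℕ) : ℝ) = 64 * D := by unfold aa; push_cast; ring
  rw [ha] at hN ⊢
  unfold Lam
  generalize (n1 D : ℝ) = n at *
  generalize (D : ℝ) = d at *
  have hnp : 0 < n := by linarith
  have hd : 0 < d := by linarith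
  have hL : 1 ≤ Real.log n := by
    rw [Real.le_log_iff_exp_le hnp]
    have := Real.exp_one_lt_d9
    linarith
  have e1 : (1 / n) ^ N = Real.exp (-(N * Real.log n)) := by
    rw [Real.exp_neg, Real.exp_nat_mul, Real.exp_log hnp, one_div, inv_pow]
  have hd3 : 65536 * d ^ 2 ≤ d ^ 3 := by nlinarith [sq_nonneg d]
  have hd2 : 65536 * d ≤ d ^ 2 := by nlinarith
  have hds : 320 * d ^ 3 ≤ d * s := by nlinarith
  have h1 : Real.exp (3000 * d ^ 2) + 1 ≤ 2 * Real.exp (d ^ 3) := by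
    have a1 : Real.exp (3000 * d ^ 2) ≤ Real.exp (d ^ 3) :=
      Real.exp_le_exp.2 (by nlinarith [sq_nonneg d])
    have a2 : 1 ≤ Real.exp (d ^ 3) := Real.one_le_exp (by positivity)
    linarith
  have h2 : 4 * (d + 1) * d ≤ Real.exp (d ^ 3) / 64 := by
    have a1 := Real.add_one_le_exp (d ^ 3)
    nlinarith
  have h3 : -(N * Real.log n) + 36 * (2 * (64 * d) * s + 1) * Real.log n + d ^ 3 + d ^ 3 ≤ 0 := by
    have a1 : 36 * (2 * (64 * d) * s + 1) - N ≤ -(2 * d ^ 3) := by nlinarith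
    have a2 : (36 * (2 * (64 * d) * s + 1) - N) * Real.log n ≤ -(2 * d ^ 3) * Real.log n :=
      mul_le_mul_of_nonneg_right a1 (by linarith)
    have a3 : 2 * d ^ 3 * 1 ≤ 2 * d ^ 3 * Real.log n :=
      mul_le_mul_of_nonneg_left hL (by positivity)
    nlinarith
  have h4 := Real.exp_le_one_iff.2 h3
  rw [Real.exp_add, Real.exp_add, Real.exp_add] at h4
  rw [e1, Real.exp_neg (36 * (2 * (64 * d) * s + 1) * Real.log n)]
  have hA := Real.exp_pos (-(N * Real.log n))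
  generalize Real.exp (-(N * Real.log n)) = A at *
  have hB := Real.exp_pos (36 * (2 * (64 * d) * s + 1) * Real.log n)
  generalize Real.exp (36 * (2 * (64 * d) * s + 1) * Real.log n) = B at *
  have hC := Real.exp_pos (d ^ 3)
  have hE := Real.exp_pos (3000 * d ^ 2)
  generalize Real.exp (d ^ 3) = C at *
  generalize Real.exp (3000 * d ^ 2) = F at *
  have e2 : A * (4 * (d + 1) * d) / (B⁻¹ / 2) * (F + 1) =
      2 * (A * B) * ((4 * (d + 1) * d) * (F + 1)) := by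
    field_simp
  rw [e2]
  have h5 : (4 * (d + 1) * d) * (F + 1) ≤ (C / 64) * (2 * C) :=
    mul_le_mul h2 h1 (by positivity) (by positivity)
  calc 2 * (A * B) * ((4 * (d + 1) * d) * (F + 1)) ≤ 2 * (A * B) * ((C / 64) * (2 * C)) :=
        mul_le_mul_of_nonneg_left h5 (by positivity)
    _ = (A * B * C * C) / 16 := by ring
    _ ≤ 1 / 16 := by linarith

theorem End_k {D : ℕ} (h : Big D) {e x0 : ℝ} (he : 0 ≤ e) (hx : 0 < x0) :
    2 * del D * √((⌈146 * ss D e x0⌉₊ : ℝ)) ≤ 160 * e / x0 + 2 / D := by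
  have hD := End_D h
  have hs := End_ss (D := D) e x0
  have hth := th_pos D
  have hnum := h.num'
  have hth1 : th D ≤ 1 := by unfold th; exact pow_le_one₀ (by norm_num) (by norm_num)
  have hdel : 0 < del D := by unfold del; positivity
  have hdt : del D ≤ th D := by
    unfold del
    calc th D ^ 7 ≤ th D ^ 1 := pow_le_pow_of_le_one hth.le hth1 (by norm_num)
      _ = th D := pow_one _
  have hc : (⌈146 * ss D e x0⌉₊ : ℝ) ≤ 146 * ss D e x0 + 1 :=
    (Nat.ceil_lt_add_one (by nlinarith [sq_nonneg (D : ℝ)])).le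
  have hu : 0 ≤ e / (del D * x0) := by positivity
  have h1 : √((⌈146 * ss D e x0⌉₊ : ℝ)) ≤ 80 * (e / (del D * x0)) + 217 * D := by
    refine Real.sqrt_le_iff.2 ⟨by positivity, hc.trans ?_⟩
    have e1 : ss D e x0 = 40 * (e / (del D * x0)) ^ 2 + 320 * (D : ℝ) ^ 2 := by
      unfold ss; rw [div_pow]; ring
    rw [e1]
    generalize e / (del D * x0) = v at *
    nlinarith [sq_nonneg v, mul_nonneg hu (by linarith : (0 : ℝ) ≤ D)]
  have h2 : 2 * del D * (217 * D) ≤ 2 / D := by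
    rw [le_div_iff₀ (by linarith)]
    have a1 : (D : ℝ) ^ 2 ≤ (D : ℝ) ^ 40 := pow_le_pow_right₀ (by linarith) (by norm_num)
    have a2 : 217 * (D : ℝ) ^ 2 * del D ≤ (D : ℝ) ^ 40 * 2 ^ 200 * th D := by
      refine mul_le_mul ?_ hdt hdel.le (by positivity)
      rw [mul_comm]
      exact mul_le_mul a1 (by norm_num) (by norm_num) (by positivity)
    nlinarith
  have h3 : 2 * del D * (80 * (e / (del D * x0))) = 160 * e / x0 := by
    field_simp
    ring
  calc 2 * del D * √((⌈146 * ss D e x0⌉₊ : ℝ))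
      ≤ 2 * del D * (80 * (e / (del D * x0)) + 217 * D) :=
        mul_le_mul_of_nonneg_left h1 (by positivity)
    _ = 2 * del D * (80 * (e / (del D * x0))) + 2 * del D * (217 * D) := by ring
    _ ≤ _ := by rw [h3]; linarith

end Pool.Agent.IS
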