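import Pool.Agent.P.MP_f981b0_an.IS.PEndA
import Pool.Agent.P.MP_f981b0_an.IS.PEndB

/-! The dividing polynomial. -/

set_option autoImplicit false

open Polynomial Finset Filter Topology
open scoped Nat Real

noncomputable section

namespace Pool.Agent.IS

theorem End_pow_norm {A : E →L[ℂ] E} (h : ‖A‖ ≤ 1) (l : ℕ) (v : E) : ‖(A ^ l) v‖ ≤ ‖v‖ := by
  induction l generalizing v with
  | zero => simp
  | succ l ih =>
    rw [pow_succ]
    show ‖(A ^ l) (A v)‖ ≤ ‖v‖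
    refine (ih _).trans ((A.le_opNorm v).trans ?_)
    exact mul_le_of_le_one_left (norm_nonneg _) h

theorem End_ball {r d : ℝ} (hd : 0 < d) (h : r * d ≤ 1 / 2) :
    Metric.sphere (0 : ℂ) r ⊆ Metric.ball 0 (1 / d) := fun t ht => by
  rw [mem_sphere_zero_iff_norm] at ht
  rw [mem_ball_zero_iff, ht, lt_div_iff₀ hd]
  linarith

theorem p_End (h1 : S_Res) (h2 : S_G1) (h3 : S_Y3) (h4 : S_Symb) (h5 : S_RemW) (h6 : S_Rem)
    (h7 : S_Div) (h8 : S_Circ) : S_End := by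
  intro M D y X0 ch c e e' x0 g0 hB hY hX hch hg0 hγ A2 i2 y2 hS2 hi hy
  have G1 := h2 M D hB
  have Y3 := h3 M D y e' hB hY
  have hD := End_D hB
  obtain ⟨r, hr1, hr2, hlow⟩ := h8 M D X0 ch c e x0 hB hX hch
  obtain ⟨hr, hrZ, hrτ, hrn, hrG, hrF, hw⟩ := End_r hB hr1 hr2
  obtain ⟨-, -, sF3, sF4, -, -⟩ := h4 M D (kap D) G1.admF
  obtain ⟨-, -, sG3, sG4, -, -⟩ := h4 M (DG D) (kG D) G1.admG
  obtain ⟨-, -, -, -, R5, R6, R7, R8⟩ := h6 M D X0 c e x0 hB hX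
  have hx0 : 0 < x0 := lt_of_lt_of_le (by positivity) hX.x0
  have hs := End_ss (D := D) e x0
  set s : ℝ := ss D e x0 with hsd
  set k : ℕ := ⌈146 * s⌉₊ with hk
  set gF : E := aeval (M.VF D) g0 M.one with hgF
  have hgn : ‖gF‖ = ‖aeval M.V g0 M.one‖ := by
    rw [hgF, Model.VF, M.low D (kap D) G1.admF g0 (by omega)]
  obtain ⟨W1, W2, W3, W4⟩ := h5 M D (aa D * k) gF hB
  have hjV : ∀ v, M.j D (M.VF D v) = M.VG D (M.j D v) :=
    M.inc_V D (kap D) (DG D) (kG D) G1.admF G1.admG G1.le_DG G1.kG_le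
  have hj1 : M.j D M.one = M.one :=
    M.inc_one D (kap D) (DG D) (kG D) G1.admF G1.admG G1.le_DG G1.kG_le
  have hjn : ‖M.j D‖ ≤ 1 := M.inc_norm D (kap D) (DG D) (kG D) G1.admF G1.admG G1.le_DG G1.kG_le
  have hmu : (1 : ℝ) ≤ mu D := by unfold mu; exact one_le_pow₀ (by norm_num)
  have hmun : ‖((mu D : ℂ))⁻¹‖ = (mu D)⁻¹ := by
    rw [norm_inv, Complex.norm_real, Real.norm_eq_abs, abs_of_pos (by linarith)]
  have hZ0 : 0 ≤ ZZ D := (inv_pos.2 hr).le.trans hrZ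
  have hSV : Sm M.V (ZZ D) :=
    (h1.2.2 E M.V M.V 0 (ZZ D) M.V_pow (by simp) hZ0 (by simp)).1
  have hddF : 0 < dd D := by unfold dd; positivity
  have hddG : 0 < dd (DG D) := by unfold dd; positivity
  have hsub : Metric.closedBall (0 : ℂ) r ⊆ Metric.ball 0 (1 / (2 * (n1 D : ℝ))) :=
    Metric.closedBall_subset_ball hrn
  have hsub' : Metric.sphere (0 : ℂ) r ⊆ Metric.ball 0 (1 / (2 * (n1 D : ℝ))) :=
    Metric.sphere_subset_closedBall.trans hsub
  have ht0 : ∀ t : ℂ, ‖t‖ = r → t ≠ 0 := fun t ht h0 => by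
    rw [h0, norm_zero] at ht; exact hr.ne ht
  have hn1 : (1 : ℝ) ≤ n1 D := by have := End_n D; linarith
  have hw1 : ∀ t : ℂ, ‖t‖ = r → ‖wt D t‖ ≤ 1 := fun t ht =>
    (hw t ht).2.trans (by rw [div_le_one (by linarith)]; exact hn1)
  set f : ℂ → ℂ := fun t => M.Ft D X0 c t (wt D t) + ((mu D : ℂ)⁻¹) * sym (M.dG D) (M.evG D) ch t
    with hf
  set Lo : ℝ := Real.exp (-(36 * (2 * aa D * s + 1) * Real.log (n1 D))) / 2 with hLo
  have hLo0 : 0 < Lo := by positivity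
  have hf0 : ∀ t : ℂ, ‖t‖ = r → f t ≠ 0 := fun t ht =>
    norm_pos_iff.1 (lt_of_lt_of_le hLo0 (hlow t ht))
  set Gh : ℂ → ℂ := fun t => wt D t ^ (aa D * k) * sym (M.dF D) (M.evF D) gF t with hGh
  set rx : ℂ → E := fun t => M.rem D X0 c t (wt D t) + ((mu D : ℂ)⁻¹) • rho (M.dG D) ch t with hrx
  have cw : ContinuousOn (wt D) (Metric.sphere 0 r) :=
    continuousOn_id.div (continuousOn_id.add continuousOn_const)
      fun t ht => (hw t (mem_sphere_zero_iff_norm.1 ht)).1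
  have cf : ContinuousOn f (Metric.sphere 0 r) :=
    (R8.mono hsub').add (continuousOn_const.mul
      ((sG4 ch).1.continuousOn.mono (End_ball hddG hrG)))
  have cGh : ContinuousOn Gh (Metric.sphere 0 r) :=
    (cw.pow _).mul ((sF4 gF).1.continuousOn.mono (End_ball hddF hrF))
  have cq : ContinuousOn (fun t => Gh t / f t) (Metric.sphere 0 r) :=
    cGh.div cf fun t ht => hf0 t (mem_sphere_zero_iff_norm.1 ht)
  have cρ : ContinuousOn (rho (M.dG D) ch) (Metric.sphere 0 r) :=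
    (sG4 ch).2.1.continuousOn.mono (End_ball hddG hrG)
  have cr : ContinuousOn rx (Metric.sphere 0 r) :=
    (R7.mono hsub').add (cρ.const_smul ((mu D : ℂ)⁻¹))
  have hrho : ∀ t : ℂ, ‖t‖ = r → ‖rho (M.dG D) ch t‖ ≤ 1 := fun t ht =>
    (sG3 ch t (by rw [ht]; exact hrG)).2.2.1.trans hch
  have hNk : 146 * (aa D * s) ≤ ((aa D * k : ℕ) : ℝ) := by
    have a1 : 146 * s ≤ (k : ℝ) := Nat.le_ceil _
    have a2 : (0 : ℝ) ≤ aa D := Nat.cast_nonneg _
    push_cast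
    nlinarith
  have hQC := End_q hB hs hNk
  set Q : ℝ := (1 / (n1 D : ℝ)) ^ (aa D * k) * (4 * ((D : ℝ) + 1) * D) / Lo with hQ
  have hQ0 : 0 ≤ Q := by positivity
  have hE := Real.exp_pos (Lam D)
  have hxi : ∀ t : ℂ, ‖t‖ = r → M.xp D X0 c + ((mu D : ℂ)⁻¹) • ch =
      f t • M.one - (rx t - t⁻¹ • M.VG D (rx t)) := fun t ht => by
    have a1 := R5 t (wt D t) (ht0 t ht) (by rw [ht]; exact hrτ) (hw t ht).1 rfl
    have a2 : ch = sym (M.dG D) (M.evG D) ch t • M.one -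
        (rho (M.dG D) ch t - t⁻¹ • M.VG D (rho (M.dG D) ch t)) :=
      (sG3 ch t (by rw [ht]; exact hrG)).2.2.2 (ht0 t ht)
    simp only [hf, hrx]
    rw [map_add, map_smul]
    generalize sym (M.dG D) (M.evG D) ch t = sy at a2 ⊢
    generalize rho (M.dG D) ch t = ro at a2 ⊢
    rw [a1, a2]
    module
  have hGi : ∀ t : ℂ, ‖t‖ = r → (M.W D ^ (aa D * k)) (M.j D gF) =
      (Gh t / f t * f t) • M.one - (M.remW D (aa D * k) gF t (wt D t) -
        t⁻¹ • M.VG D (M.remW D (aa D * k) gF t (wt D t))) := fun t ht => by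
    rw [div_mul_cancel₀ _ (hf0 t ht)]
    exact W1 t (wt D t) (ht0 t ht) (by rw [ht]; exact hrτ) (hw t ht).1 rfl
  have hqb : ∀ t : ℂ, ‖t‖ = r → ‖Gh t / f t‖ ≤ Q := fun t ht => by
    rw [norm_div]
    refine div_le_div₀ (by positivity) ?_ hLo0 (hlow t ht)
    simp only [hGh]
    rw [norm_mul, norm_pow]
    refine mul_le_mul (pow_le_pow_left₀ (norm_nonneg _) (hw t ht).2 _) ?_ (norm_nonneg _)
      (by positivity)
    refine (sF3 gF t (by rw [ht]; exact hrF)).2.1.trans ?_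
    rw [hgn]
    exact mul_le_mul_of_nonneg_left hγ (by positivity)
  have hC1 : ∀ t : ℂ, ‖t‖ = r → ‖rx t‖ ≤ Real.exp (Lam D) + 1 := fun t ht => by
    refine (norm_add_le _ _).trans (add_le_add
      (R6 t (wt D t) (by rw [ht]; exact hrτ) (hw1 t ht)).1 ?_)
    rw [norm_smul, hmun]
    exact mul_le_one₀ (inv_le_one_of_one_le₀ hmu) (norm_nonneg _) (hrho t ht)
  have hC2 : ∀ t : ℂ, ‖t‖ = r → ‖y ((M.VG D ^ 5) (rx t))‖ ≤ Real.exp (Lam D) + 1 := fun t ht => by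
    simp only [hrx]
    rw [map_add, map_add, map_smul, map_smul]
    have a1 := (R6 t (wt D t) (by rw [ht]; exact hrτ) (hw1 t ht)).2 y Y3 5
    have a2 : ‖y ((M.VG D ^ 5) (rho (M.dG D) ch t))‖ ≤ mu D := by
      refine (y.le_opNorm _).trans ?_
      calc ‖y‖ * ‖(M.VG D ^ 5) (rho (M.dG D) ch t)‖ ≤ mu D * 1 :=
            mul_le_mul hY.norm ((End_pow_norm G1.VG_norm 5 _).trans (hrho t ht)) (norm_nonneg _)
              (by linarith)
        _ = mu D := mul_one _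
    refine (norm_add_le _ _).trans (add_le_add (by linarith) ?_)
    rw [norm_smul, hmun, inv_mul_le_iff₀ (by linarith)]
    linarith
  obtain ⟨b, hb1, hb2, hb3⟩ := End_abs h7 hr hrZ hS2 hSV hi
    (M.J_V (DG D) (kG D) G1.admG) hy (M.J_norm (DG D) (kG D) G1.admG) cq cr (W3.mono hsub) W4
    hxi hGi hqb (by nlinarith) hC1 hC2 hQC
  refine ⟨b, hb1, ?_, ?_⟩
  · have e1 : aeval (M.VG D) (X ^ 5 * g0) M.one = M.j D ((M.VF D ^ 5) gF) := by
      rw [End_pow hjV, hgF, End_aeval hjV, hj1, map_mul, map_pow, aeval_X]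
      rfl
    have e2 : (M.VG D ^ 5) ((M.W D ^ (aa D * k)) (M.j D gF)) =
        (M.u D ^ k) (M.j D ((M.VF D ^ 5) gF)) := by
      rw [End_pow hjV, Model.u, ← pow_mul]
      exact End_pow (S := M.VG D ^ 5) (fun v => by
        have := congrArg (fun T : E →L[ℂ] E => T v) (G1.W_comm.pow_right 5).eq
        exact this.symm) _ _
    have e3 := ((y ∘L (M.u D ^ 0 - M.u D ^ k) ∘L M.j D).le_opNorm ((M.VF D ^ 5) gF))
    have e4 : (y ∘L (M.u D ^ 0 - M.u D ^ k) ∘L M.j D) ((M.VF D ^ 5) gF) =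
        y (M.j D ((M.VF D ^ 5) gF)) - y ((M.u D ^ k) (M.j D ((M.VF D ^ 5) gF))) := by
      simp
    have e5 := Y3.diff 0 k (Nat.zero_le _)
    rw [Nat.cast_zero, sub_zero] at e5
    have e6 := End_k hB hX.e0 hx0
    have e7 : ‖(M.VF D ^ 5) gF‖ ≤ ‖aeval M.V g0 M.one‖ := hgn ▸ End_pow_norm G1.VF_norm 5 gF
    have e8 : ‖y (M.j D ((M.VF D ^ 5) gF)) - y ((M.u D ^ k) (M.j D ((M.VF D ^ 5) gF)))‖ ≤
        (160 * e / x0 + 2 / D) * ‖aeval M.V g0 M.one‖ := by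
      rw [← e4]
      refine e3.trans (mul_le_mul (e5.trans e6) e7 (norm_nonneg _) ?_)
      have := hX.e0
      positivity
    rw [e2] at hb2
    rw [e1]
    rw [norm_sub_rev] at e8
    exact (norm_sub_le_norm_sub_add_norm_sub _ _ _).trans (add_le_add hb2 e8)
  · refine hb3.trans (add_le_add_left ?_ 1)
    refine (End_pow_norm G1.W_norm _ _).trans (((M.j D).le_opNorm gF).trans ?_)
    rw [hgn]
    exact mul_le_of_le_one_left (norm_nonneg _) hjn

end Pool.Agent.IS
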