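import Pool.Agent.P.MP_f981b0_an.IS.Glob

/-!
Package Fin of the project IS: there is no zero pair.
-/

set_option autoImplicit false

open Polynomial Finset Filter Topology
open scoped Nat Real

noncomputable section

namespace Pool.Agent.IS

theorem Fin_lim (t : ℕ → ℝ) (x0 g : ℝ) (ht : Tendsto t atTop (𝓝 0)) :
    ∀ᶠ n : ℕ in atTop, 1 / 8 + (160 * t n / x0 + 2 / ((n : ℝ) + 1)) * g +
      (2 ^ 40 * (t (n + 1) / x0) * (g + 1 + 1) + 2 * (1 / 2) ^ (n + 1)) < 1 := by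
  have h1 : Tendsto (fun n : ℕ => t (n + 1)) atTop (𝓝 0) := ht.comp (tendsto_add_atTop_nat 1)
  have h2 : Tendsto (fun n : ℕ => 2 / ((n : ℝ) + 1)) atTop (𝓝 0) := by
    have h := tendsto_one_div_add_atTop_nhds_zero_nat (𝕜 := ℝ)
    have h' := h.const_mul 2
    simp only [mul_zero] at h'
    refine h'.congr (fun n => ?_)
    ring
  have h3 : Tendsto (fun n : ℕ => ((1 : ℝ) / 2) ^ (n + 1)) atTop (𝓝 0) :=
    (tendsto_pow_atTop_nhds_zero_of_lt_one (by norm_num) (by norm_num)).comp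
      (tendsto_add_atTop_nat 1)
  have h4 : Tendsto (fun n : ℕ => 1 / 8 + (160 * t n / x0 + 2 / ((n : ℝ) + 1)) * g +
      (2 ^ 40 * (t (n + 1) / x0) * (g + 1 + 1) + 2 * (1 / 2) ^ (n + 1))) atTop
      (𝓝 (1 / 8 + (160 * 0 / x0 + 0) * g + (2 ^ 40 * (0 / x0) * (g + 1 + 1) + 2 * 0))) :=
    (tendsto_const_nhds.add ((((ht.const_mul 160).div_const x0).add h2).mul_const g)).add
      ((((h1.div_const x0).const_mul (2 ^ 40)).mul_const (g + 1 + 1)).add (h3.const_mul 2))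
  refine h4.eventually (gt_mem_nhds ?_)
  norm_num

theorem p_Fin (_h1 : S_G1) (h2 : S_Dg) (h3 : S_Good) (_h4 : S_VK) (_h5 : S_Th) (h6 : S_Yn)
    (h7 : S_XH) (h8 : S_G0) (h9 : S_End) (h10 : S_Star) : S_Fin := by
  intro M Ds x et hG hP het hx hTh hz
  by_contra hne
  obtain ⟨g0, hg0⟩ := h8 M Ds et hG hP het hne
  obtain ⟨N0', hN0⟩ := h7 M Ds x hG hx hTh
  obtain ⟨N1, hN1⟩ := h10 M Ds x et hG hP het hx hTh hz
  obtain ⟨hBig, -, hle, hgg, hSm, -, -⟩ := h3 M Ds hG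
  obtain ⟨-, hy2, hy3, hy4, -⟩ := h6 M Ds et hG hP het
  obtain ⟨-, -, -, htail, -, heps⟩ := h2
  have hx0 : 0 < ‖M.Th Ds x‖ / 2 := by
    have := norm_pos_iff.mpr hTh
    linarith
  have hg : 0 ≤ ‖aeval M.V g0 M.one‖ := norm_nonneg _
  have hlim := Fin_lim (fun n => ‖tailP n x‖) (‖M.Th Ds x‖ / 2) ‖aeval M.V g0 M.one‖ (htail x)
  have hev : ∀ᶠ n : ℕ in atTop, ‖aeval M.V g0 M.one‖ ≤ (n : ℝ) :=
    tendsto_natCast_atTop_atTop.eventually_ge_atTop _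
  obtain ⟨n, hn1, hn2, hn3, hn4, hn5⟩ := (hlim.and (hev.and ((eventually_ge_atTop N0').and
    ((eventually_ge_atTop N1).and (eventually_ge_atTop (g0.natDegree + 5)))))).exists
  obtain ⟨hXH, -, hch, hhead⟩ := hN0 n hn3
  have hD : n + 1 ≤ Ds (n + 1) := hle (n + 1)
  have hDR : (n : ℝ) + 1 ≤ (Ds (n + 1) : ℝ) := by exact_mod_cast hD
  obtain ⟨-, -, hV, -, -, -, -⟩ := hgg (n + 1)
  obtain ⟨b, hb, hb1, hb2⟩ := h9 M (Ds (n + 1)) (yn (Ds (n + 1)) (n + 1) et) _ (x (n + 1, 0)) _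
    _ _ _ g0 (hBig (n + 1)) (hy4 n) hXH hch (by omega) (by linarith)
    (M.VG (Ds (n + 1 + 1))) (M.gg Ds (n + 1)) (yn (Ds (n + 1 + 1)) (n + 1 + 1) et)
    (hSm (n + 1) (n + 1 + 1) (by omega)).1 hV (hy2 (n + 1))
  rw [← hhead] at hb1 hb2
  rw [hy3 (n + 1) (X ^ 5 * g0), hg0] at hb1
  have hst := hN1 (n + 1) (by omega) b hb
  have he : eps (Ds (n + 1)) (n + 1) x ≤ ‖tailP n x‖ :=
    (heps (Ds (n + 1)) (n + 1) n x).2 (by omega)
  have hA : 160 * eps (Ds (n + 1)) (n + 1) x / (‖M.Th Ds x‖ / 2) ≤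
      160 * ‖tailP n x‖ / (‖M.Th Ds x‖ / 2) :=
    div_le_div_of_nonneg_right (by linarith) hx0.le
  have hB : (2 : ℝ) / (Ds (n + 1) : ℝ) ≤ 2 / ((n : ℝ) + 1) :=
    div_le_div_of_nonneg_left (by norm_num) (by positivity) hDR
  have hC := mul_le_mul_of_nonneg_right (add_le_add hA hB) hg
  have hE : 2 ^ 40 * (‖tailP (n + 1) x‖ / (‖M.Th Ds x‖ / 2)) *
      (‖aeval M.V b (M.JG (Ds (n + 1)) (M.head Ds (n + 1) x))‖ + 1) ≤
      2 ^ 40 * (‖tailP (n + 1) x‖ / (‖M.Th Ds x‖ / 2)) * (‖aeval M.V g0 M.one‖ + 1 + 1) :=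
    mul_le_mul_of_nonneg_left (by linarith) (by positivity)
  generalize yn (Ds (n + 1)) (n + 1) et
    (aeval (M.VG (Ds (n + 1))) (X ^ 5 * b) (M.head Ds (n + 1) x)) = w at hb1 hst
  have htri : (1 : ℝ) ≤ ‖w - 1‖ + ‖w‖ := by
    have h := norm_sub_le w (w - 1)
    rw [sub_sub_cancel, norm_one] at h
    linarith
  linarith

end Pool.Agent.IS
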