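import Pool.Agent.P.MP_f981b0_an.IS.Glob

/-!
Section 8 (a): the functional `y V ^ 5` does not vanish on the polynomials.
-/

set_option autoImplicit false

open Polynomial Finset Filter Topology
open scoped Nat Real

noncomputable section

namespace Pool.Agent.IS

theorem G0_dense (M : Model) {D : ℕ} {k : ℝ} (h : Adm D k) (L : E →L[ℂ] ℂ)
    (hL : ∀ g : ℂ[X], L (aeval (M.VS D k) g M.one) = 0) (v : E) : L v = 0 := by
  have t : Tendsto (fun m => L (M.pi m v)) atTop (𝓝 (L v)) :=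
    (L.continuous.tendsto v).comp (M.pi_tendsto v)
  have e : (fun m => L (M.pi m v)) = fun _ => 0 := by
    funext m
    obtain ⟨g, -, hg⟩ := M.pi_poly D k h m v
    rw [hg, hL]
  rw [e] at t
  exact tendsto_nhds_unique t tendsto_const_nhds

theorem G0_small (M : Model) {D : ℕ} (hD : Big D) (G : M.G1 D) {y : E →L[ℂ] ℂ} {e' : ℝ}
    (hy : M.YH D y e') (i : ℕ)
    (h : ∀ g : ℂ[X], y (aeval (M.VG D) (X ^ (i + 1) * g) M.one) = 0) :
    ‖y ((M.VG D ^ i) M.one)‖ ≤ del D := by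
  have z : ∀ v, y ((M.VG D ^ (i + 1)) v) = 0 := by
    refine G0_dense M G.admG (y ∘L (M.VG D ^ (i + 1))) fun g => ?_
    have := h g
    rwa [map_mul, map_pow, aeval_X] at this
  have jv : ∀ l : ℕ, M.j D ((M.VF D ^ l) M.one) = (M.VG D ^ l) M.one ∧
      ‖(M.VF D ^ l) M.one‖ ≤ 1 := by
    intro l
    induction l with
    | zero => exact ⟨M.inc_one _ _ _ _ G.admF G.admG G.le_DG G.kG_le, M.one_norm.le⟩
    | succ l ih =>
      rw [pow_succ', pow_succ', mul_apply_eq_comp, mul_apply_eq_comp,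
        ← ih.1]
      refine ⟨M.inc_V _ _ _ _ G.admF G.admG G.le_DG G.kG_le _, ?_⟩
      exact ((M.VF D).le_opNorm _).trans (mul_le_one₀ G.VF_norm (norm_nonneg _) ih.2)
  obtain ⟨R, hR, -⟩ := G.W_fac
  obtain ⟨a, ha⟩ : ∃ a, aa D = a + 1 := ⟨aa D - 1, by have := hD.1; unfold aa; omega⟩
  have zu : y (M.u D ((M.VG D ^ i) M.one)) = 0 := by
    have c : M.u D * M.VG D ^ i = M.VG D ^ (i + 1) * (R * M.W D ^ a) := by
      have c1 : Commute (M.u D) (M.VG D ^ i) := G.W_comm.pow_pow _ _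
      rw [c1.eq, Model.u, ha, pow_succ' (M.W D), pow_succ (M.VG D), mul_assoc, ← mul_assoc _ R,
        ← hR]
    have := z ((R * M.W D ^ a) M.one)
    rwa [← mul_apply_eq_comp, ← c] at this
  have e : y ((M.VG D ^ i) M.one) = (y ∘L M.su D 0 ∘L M.j D) ((M.VF D ^ i) M.one) := by
    simp only [ContinuousLinearMap.comp_apply, (jv i).1, Model.su, pow_zero, mul_one,
      sub_apply, one_apply_eq_self, map_sub, zu, sub_zero]
  have d0 : 0 ≤ del D := pow_nonneg (th_pos D).le 7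
  have n : ‖y ∘L M.su D 0 ∘L M.j D‖ ≤ del D := by
    have s := (single_le_sum (f := fun k => ‖y ∘L M.su D k ∘L M.j D‖ ^ 2)
      (fun _ _ => sq_nonneg _) (mem_range.2 (Nat.succ_pos (KK D)))).trans hy.sq
    exact (abs_le_of_sq_le_sq' s (mul_nonneg d0 hy.e0)).2.trans
      (mul_le_of_le_one_right d0 hy.e1)
  rw [e]
  exact (ContinuousLinearMap.le_opNorm _ _).trans
    ((mul_le_of_le_one_right (norm_nonneg _) (jv i).2).trans n)

theorem p_G0 (h1 : S_G1) (_h2 : S_Y3) (h3 : S_Dg) (h4 : S_Good) (_h5 : S_Th) (h6 : S_Yn) :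
    S_G0 := by
  intro M Ds et hG hP hn hne
  obtain ⟨big, -, le, -⟩ := h4 M Ds hG
  obtain ⟨y1, -, y3, y4, -⟩ := h6 M Ds et hG hP hn
  set ph : ℂ[X] → ℂ := fun g => yn (Ds 0) 0 et (aeval (M.VG (Ds 0)) g M.one) with hf
  have step : ∀ i : ℕ, (∀ g, ph (X ^ (i + 1) * g) = 0) → ∀ g, ph (X ^ i * g) = 0 := by
    intro i h g
    have b : ∀ n : ℕ, ‖ph (X ^ i)‖ ≤ (1 / 2) ^ n := by
      intro n
      have s := G0_small M (big (n + 1)) (h1 M _ (big (n + 1))) (y4 n) i
        fun g => (y3 (n + 1) _).trans (h g)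
      have e := y3 (n + 1) (X ^ i)
      rw [map_pow (aeval (M.VG (Ds (n + 1)))), aeval_X] at e
      rw [e] at s
      refine s.trans ?_
      unfold del th
      rw [← pow_mul]
      exact pow_le_pow_of_le_one (by norm_num) (by norm_num) (by have := le (n + 1); omega)
    have z : ph (X ^ i) = 0 := norm_le_zero_iff.1 (ge_of_tendsto'
      (tendsto_pow_atTop_nhds_zero_of_lt_one (r := (1 / 2 : ℝ)) (by norm_num) (by norm_num)) b)
    have e : X ^ i * g = g.coeff 0 • X ^ i + X ^ (i + 1) * g.divX := by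
      conv_lhs => rw [← g.divX_mul_X_add]
      rw [smul_eq_C_mul]; ring
    have h' := h g.divX
    simp only [hf] at z h' ⊢
    rw [e, map_add, map_smul, add_apply, smul_apply,
      map_add, map_smul, z, h', smul_zero, add_zero]
  by_contra hc
  have p5 : ∀ g, ph (X ^ 5 * g) = 0 := by
    intro g
    by_contra t
    refine hc ⟨(ph (X ^ 5 * g))⁻¹ • g, ?_⟩
    rw [mul_smul_comm, map_smul, smul_apply, map_smul, smul_eq_mul]
    exact inv_mul_cancel₀ t
  have p0 := step 0 (step 1 (step 2 (step 3 (step 4 p5))))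
  have z : ∀ n v, yn (Ds n) n et v = 0 := fun n =>
    G0_dense M (h1 M _ (big n)).admG _ fun g => (y3 n g).trans (by simpa using p0 g)
  have t : Tendsto (fun n => inner ℂ et (et - tailP n et)) atTop (𝓝 (inner ℂ et (et - 0))) :=
    tendsto_const_nhds.inner (tendsto_const_nhds.sub
      (tendsto_zero_iff_norm_tendsto_zero.2 (h3.2.2.2.1 et)))
  have e : (fun n => inner ℂ et (et - tailP n et)) = fun _ => (0 : ℂ) := by
    funext n
    rw [← y1 n et, z]
  rw [e, sub_zero] at t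
  exact hne (inner_self_eq_zero.1 (tendsto_nhds_unique t tendsto_const_nhds))

end Pool.Agent.IS
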