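import Pool.Agent.P.MP_f981b0_an.IS.Stmt
import Pool.Agent.P.MP_f981b0_an.IS27.Abs

/-!
Package G2 of the project IS: the level part is small in `Y` and bounded in `G`.
-/

set_option autoImplicit false

open Polynomial Finset Filter Topology
open scoped Nat Real

noncomputable section

namespace Pool.Agent.IS

theorem G2_sum_mul {A : Type*} [AddCommMonoid A] (f : ℕ → A) (a n : ℕ) :
    ∑ N ∈ range (a * n), f N = ∑ k ∈ range n, ∑ i ∈ range a, f (a * k + i) := by
  induction n with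
  | zero => simp
  | succ n ih => rw [Nat.mul_succ, sum_range_add, ih, sum_range_succ]

theorem G2_pow20 (D : ℕ) : (2 : ℝ) ^ (20 * D) * th D ^ 20 = 1 := by
  rw [mul_comm 20 D, pow_mul, ← mul_pow, th_inv, one_pow]

theorem G2_th_le (D : ℕ) : th D ≤ 1 := by
  unfold th
  exact pow_le_one₀ (by norm_num) (by norm_num)

theorem G2_cs (D : ℕ) (c : ℕ → E) (e : ℝ) (he : 0 ≤ e)
    (hc : ∑ k ∈ range (KK D + 1), ‖c k‖ ^ 2 ≤ e ^ 2) :
    ∑ k ∈ range (KK D + 1), ‖c k‖ ≤ 12 / th D ^ 10 * e := by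
  have ht := th_pos D
  have h1 := sq_sum_le_card_mul_sum_sq (s := range (KK D + 1)) (f := fun k => ‖c k‖)
  rw [card_range] at h1
  have h2 : ((KK D + 1 : ℕ) : ℝ) ≤ (12 / th D ^ 10) ^ 2 := by
    rw [div_pow, le_div_iff₀ (by positivity), ← pow_mul]
    have h3 := G2_pow20 D
    have h4 : th D ^ 20 ≤ 1 := pow_le_one₀ ht.le (G2_th_le D)
    unfold KK
    push_cast
    norm_num
    nlinarith
  refine (pow_le_pow_iff_left₀ (sum_nonneg fun _ _ => norm_nonneg _) (by positivity)
    two_ne_zero).1 ?_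
  rw [mul_pow]
  exact h1.trans (mul_le_mul h2 hc (sum_nonneg fun _ _ => by positivity) (by positivity))

theorem G2_tau {D : ℕ} (hD : Big D) : (aa D : ℝ) / n1 D = th D ^ 20 := by
  have h0 : (0 : ℝ) < D := by
    have := hD.1
    exact_mod_cast (by omega : 0 < D)
  have h3 := G2_pow20 D
  unfold aa n1
  push_cast
  rw [div_eq_iff (by positivity)]
  calc (64 : ℝ) * D = 64 * D * (2 ^ (20 * D) * th D ^ 20) := by rw [h3, mul_one]
    _ = _ := by ring

theorem G2_num {D : ℕ} (hD : Big D) :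
    th D * (2 * ((D : ℝ) + 1) + 12 * dd D) ≤ 1 / 2 := by
  have h1 := hD.num'
  have ht := th_pos D
  have h0 : (1 : ℝ) ≤ D := by
    have := hD.1
    exact_mod_cast (by omega : 1 ≤ D)
  have h2 : (D : ℝ) ^ 2 ≤ (D : ℝ) ^ 40 := pow_le_pow_right₀ h0 (by norm_num)
  have h3 : 2 * ((D : ℝ) + 1) + 12 * dd D ≤ 1000 * (D : ℝ) ^ 2 := by
    unfold dd
    nlinarith
  have h4 : (2000 : ℝ) * (D : ℝ) ^ 2 ≤ (D : ℝ) ^ 40 * 2 ^ 200 := by
    have : (2000 : ℝ) ≤ 2 ^ 200 := by norm_num
    calc (2000 : ℝ) * (D : ℝ) ^ 2 ≤ 2 ^ 200 * (D : ℝ) ^ 40 :=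
          mul_le_mul this h2 (by positivity) (by positivity)
      _ = _ := mul_comm _ _
  have h5 := mul_le_mul_of_nonneg_right h4 ht.le
  have h6 := mul_le_mul_of_nonneg_left h3 ht.le
  linarith

theorem G2_pow_le {A : E →L[ℂ] E} (h : ‖A‖ ≤ 1) (N : ℕ) : ‖A ^ N‖ ≤ 1 := by
  induction N with
  | zero => exact ContinuousLinearMap.norm_id_le
  | succ N ih =>
    rw [pow_succ]
    exact (norm_mul_le _ _).trans (mul_le_one₀ ih (norm_nonneg _) h)

theorem p_G2 (h1 : S_Res) (h2 : S_Acc) (h3 : S_G1) : S_G2 := by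
  intro M D c e hD he hc
  have G := h3 M D hD
  have ht := th_pos D
  have hcs := G2_cs D c e he hc
  have hdel : ‖((del D : ℂ))⁻¹‖ = 1 / th D ^ 7 := by
    rw [norm_inv, Complex.norm_real, Real.norm_eq_abs, one_div]
    unfold del
    rw [abs_of_pos (by positivity)]
  have hn1 : 0 < n1 D := by
    have := hD.1
    unfold n1
    positivity
  have hn1' : (0 : ℝ) < n1 D := by exact_mod_cast hn1
  constructor
  · have hsm : Sm M.V (n1 D) := by
      refine Summable.of_nonneg_of_le (fun l => by positivity) (fun l => ?_)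
        (Real.summable_pow_div_factorial (n1 D))
      rw [div_eq_mul_one_div]
      exact mul_le_mul_of_nonneg_left (M.V_pow l) (by positivity)
    have hacc : ∀ v : E, -(0 : ℝ) * ‖v‖ ^ 2 ≤ (inner ℂ v (M.V v)).re := fun v => by
      have := M.accr v
      have h := sq_nonneg ‖inner ℂ M.one v‖
      linarith
    obtain ⟨-, -, hW, hcomm, -, hsub⟩ :=
      (h2 E M.V 0 (n1 D) le_rfl hacc hsm).2 (n1 D) hn1 le_rfl (by positivity)
    obtain ⟨-, -, hb, -, -⟩ := h1.1 E M.V (n1 D) (-(n1 D : ℂ)) hsm (by simp)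
    set b := res M.V (-(n1 D : ℂ)) with hbdef
    have hWb : Wop M.V (n1 D) = 1 - b := rfl
    set WY := Wop M.V (n1 D) with hWY
    have hJW : ∀ (N : ℕ) (v : E), M.JG D ((M.W D ^ N) v) = (WY ^ N) (M.JG D v) := by
      intro N
      induction N with
      | zero => intro v; rfl
      | succ N ih =>
        intro v
        rw [pow_succ', pow_succ', mul_apply_eq_comp, mul_apply_eq_comp,
          G.J_W, ih]
    have hJj : ∀ v, M.JG D (M.j D v) = M.JF D v := fun v =>
      M.inc_J _ _ _ _ G.admF G.admG G.le_DG G.kG_le v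
    have hJF : ∀ v, M.JF D v = M.evF D v • M.one + M.V (M.JF D (M.dF D v)) := fun v => by
      have e1 := M.Vd _ _ G.admF v
      have e2 := M.J_V _ _ G.admF (M.dF D v)
      have e3 := M.J_one _ _ G.admF
      unfold Model.JF Model.evF Model.dF at *
      rw [← e2, e1, map_sub, map_smul, e3]
      abel
    have hsu : ∀ (k : ℕ) (v : E), M.JG D (M.su D k (M.j D v)) =
        (WY ^ (aa D * k)) ((1 - WY ^ aa D) (M.JF D v)) := fun k v => by
      unfold Model.su Model.u
      rw [← pow_mul, sub_mul, one_mul, ← pow_add, sub_apply, map_sub, hJW, hJW,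
        hJj, sub_apply, map_sub, add_comm (aa D), pow_add]
      rfl
    have hgeo : ∀ k : ℕ, (WY ^ (aa D * k)) ((1 - WY ^ aa D) M.one) =
        ∑ i ∈ range (aa D), (WY ^ (aa D * k + i)) (b M.one) := fun k => by
      have e1 : (1 - WY ^ aa D) = (∑ i ∈ range (aa D), WY ^ i) * b := by
        have e2 : b = 1 - WY := by rw [hWb]; abel
        rw [e2, geom_sum_mul_neg]
      rw [e1, mul_apply_eq_comp, _root_.sum_apply, map_sum]
      refine sum_congr rfl fun i _ => ?_
      rw [pow_add]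
      rfl
    have haa : 0 < aa D := by
      have := hD.1
      unfold aa
      omega
    set g : ℕ → ℂ := fun N => M.evF D (c (N / aa D)) with hg
    have hg' : ∀ k, ∀ i ∈ range (aa D), g (aa D * k + i) = M.evF D (c k) := fun k i hi => by
      simp only [hg]
      rw [Nat.mul_add_div haa, Nat.div_eq_of_lt (mem_range.1 hi), add_zero]
    set S1 : E := ∑ N ∈ range (aa D * (KK D + 1)), g N • (WY ^ N) (b M.one) with hS1
    set S2 : E := ∑ k ∈ range (KK D + 1),
      (WY ^ (aa D * k)) (((1 - WY ^ aa D) * M.V) (M.JF D (M.dF D (c k)))) with hS2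
    have hsplit : M.JG D (M.lev D c) = ((del D : ℂ))⁻¹ • (S1 + S2) := by
      unfold Model.lev
      rw [map_sum, hS1, hS2, G2_sum_mul, ← sum_add_distrib, smul_sum]
      refine sum_congr rfl fun k _ => ?_
      rw [map_smul, hsu, hJF (c k), map_add, map_add, map_smul, map_smul, hgeo, smul_sum]
      congr 2
      refine sum_congr rfl fun i hi => ?_
      rw [hg' k i hi]
    have hB : ‖S1‖ ^ 2 ≤ (1 / (n1 D : ℝ)) * ∑ N ∈ range (aa D * (KK D + 1)), ‖g N‖ ^ 2 := by
      have hb' : b * (1 + (((1 / (n1 D : ℝ) : ℝ) : ℂ))⁻¹ • M.V) = 1 := by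
        rw [neg_smul, sub_neg_eq_add] at hb
        push_cast
        rw [one_div, inv_inv]
        exact hb
      exact Pool.Agent.P.MP_f981b0_an.IS27.bessel (by positivity)
        (fun x => (M.accr x).ge) hb' g _
    have hev : ∀ v, ‖M.evF D v‖ ≤ 2 * ((D : ℝ) + 1) * ‖v‖ := fun v =>
      (M.evF D).le_of_opNorm_le (M.ev_norm _ _ G.admF) v
    have hgs : ∑ N ∈ range (aa D * (KK D + 1)), ‖g N‖ ^ 2 ≤
        aa D * ((2 * ((D : ℝ) + 1)) ^ 2 * e ^ 2) := by
      rw [G2_sum_mul]
      calc ∑ k ∈ range (KK D + 1), ∑ i ∈ range (aa D), ‖g (aa D * k + i)‖ ^ 2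
          ≤ ∑ k ∈ range (KK D + 1), aa D * ((2 * ((D : ℝ) + 1)) ^ 2 * ‖c k‖ ^ 2) := by
            refine sum_le_sum fun k _ => ?_
            rw [sum_congr rfl fun i hi => by rw [hg' k i hi], sum_const, card_range, nsmul_eq_mul,
              ← mul_pow]
            exact mul_le_mul_of_nonneg_left
              (pow_le_pow_left₀ (norm_nonneg _) (hev _) 2) (by positivity)
        _ = aa D * ((2 * ((D : ℝ) + 1)) ^ 2 * ∑ k ∈ range (KK D + 1), ‖c k‖ ^ 2) := by
            rw [mul_sum, mul_sum]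
        _ ≤ _ := by gcongr
    have htau := G2_tau hD
    have hS1n : ‖S1‖ ≤ th D ^ 10 * (2 * ((D : ℝ) + 1)) * e := by
      refine (pow_le_pow_iff_left₀ (norm_nonneg _) (by positivity) two_ne_zero).1 ?_
      refine hB.trans ((mul_le_mul_of_nonneg_left hgs (by positivity)).trans (le_of_eq ?_))
      rw [← mul_assoc, one_div_mul_eq_div, htau]
      ring
    have hWp : ∀ N : ℕ, ‖WY ^ N‖ ≤ 1 := G2_pow_le hW
    have hS2n : ‖S2‖ ≤ th D ^ 10 * (12 * dd D) * e := by
      have hdd : 0 ≤ dd D := by unfold dd; positivity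
      calc ‖S2‖ ≤ ∑ k ∈ range (KK D + 1), th D ^ 20 * dd D * ‖c k‖ := by
            refine (norm_sum_le _ _).trans (sum_le_sum fun k _ => ?_)
            refine ((WY ^ (aa D * k)).le_of_opNorm_le (hWp _) _).trans ?_
            rw [one_mul]
            refine (((1 - WY ^ aa D) * M.V).le_of_opNorm_le (hsub _) _).trans ?_
            rw [htau, mul_assoc]
            refine mul_le_mul_of_nonneg_left ?_ (by positivity)
            refine ((M.JF D).le_of_opNorm_le (M.J_norm _ _ G.admF) _).trans ?_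
            rw [one_mul]
            exact (M.dF D).le_of_opNorm_le (M.d_norm _ _ G.admF) _
        _ = th D ^ 20 * dd D * ∑ k ∈ range (KK D + 1), ‖c k‖ := by rw [mul_sum]
        _ ≤ th D ^ 20 * dd D * (12 / th D ^ 10 * e) :=
            mul_le_mul_of_nonneg_left hcs (by positivity)
        _ = _ := by field_simp
    rw [hsplit, norm_smul, hdel]
    have hnum := G2_num hD
    calc 1 / th D ^ 7 * ‖S1 + S2‖
        ≤ 1 / th D ^ 7 * (th D ^ 10 * (2 * ((D : ℝ) + 1)) * e + th D ^ 10 * (12 * dd D) * e) :=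
          mul_le_mul_of_nonneg_left ((norm_add_le _ _).trans (add_le_add hS1n hS2n))
            (by positivity)
      _ = th D ^ 2 * (th D * (2 * ((D : ℝ) + 1) + 12 * dd D)) * e := by field_simp
      _ ≤ th D ^ 2 * (1 / 2) * e := by gcongr
      _ = _ := by ring
  · have hu : ∀ k : ℕ, ‖M.u D ^ k‖ ≤ 1 := fun k => by
      unfold Model.u
      rw [← pow_mul]
      exact G2_pow_le G.W_norm _
    have hsu : ∀ k : ℕ, ‖M.su D k‖ ≤ 2 := fun k => by
      unfold Model.su
      rw [sub_mul, one_mul, ← pow_succ']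
      refine (norm_sub_le _ _).trans ?_
      have := hu k
      have := hu (k + 1)
      linarith
    have hj : ‖M.j D‖ ≤ 1 := M.inc_norm _ _ _ _ G.admF G.admG G.le_DG G.kG_le
    unfold Model.lev
    calc ‖∑ k ∈ range (KK D + 1), ((del D : ℂ))⁻¹ • M.su D k (M.j D (c k))‖
        ≤ ∑ k ∈ range (KK D + 1), 1 / th D ^ 7 * 2 * ‖c k‖ := by
          refine (norm_sum_le _ _).trans (sum_le_sum fun k _ => ?_)
          rw [norm_smul, hdel, mul_assoc]
          refine mul_le_mul_of_nonneg_left ?_ (by positivity)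
          refine ((M.su D k).le_of_opNorm_le (hsu k) _).trans ?_
          refine mul_le_mul_of_nonneg_left ?_ (by norm_num)
          refine ((M.j D).le_of_opNorm_le hj _).trans ?_
          rw [one_mul]
      _ = 1 / th D ^ 7 * 2 * ∑ k ∈ range (KK D + 1), ‖c k‖ := by rw [mul_sum]
      _ ≤ 1 / th D ^ 7 * 2 * (12 / th D ^ 10 * e) :=
          mul_le_mul_of_nonneg_left hcs (by positivity)
      _ = _ := by field_simp; ring

end Pool.Agent.IS
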