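import Pool.Agent.P.MP_f981b0_an.IS.Glob

/-!
Project IS: numerical consequences of `Good`.
-/

set_option autoImplicit false

open Polynomial Finset Filter Topology
open scoped Nat Real

noncomputable section

namespace Pool.Agent.IS

theorem Good_n1_mono {D D' : ℕ} (h : D ≤ D') : n1 D ≤ n1 D' := by
  unfold n1
  exact Nat.mul_le_mul (Nat.mul_le_mul_left _ h)
    (Nat.pow_le_pow_right (by norm_num) (Nat.mul_le_mul_left _ h))

theorem Good_n1_pos {D : ℕ} (h : Big D) : 1 ≤ n1 D := by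
  unfold n1
  have h1 := h.1
  exact Nat.mul_pos (by omega) (Nat.pow_pos (by norm_num))

theorem Good_ZZ_one {D : ℕ} (h : Big D) : 1 ≤ ZZ D := by
  unfold ZZ
  exact one_le_pow₀ (by exact_mod_cast Good_n1_pos h)

theorem Good_ZZ_mono {D D' : ℕ} (h : D ≤ D') : ZZ D ≤ ZZ D' := by
  unfold ZZ
  exact pow_le_pow_left₀ (Nat.cast_nonneg _) (by exact_mod_cast Good_n1_mono h) 3

theorem Good_mu_mono {D D' : ℕ} (h : D ≤ D') : mu D ≤ mu D' := by
  unfold mu
  exact pow_le_pow_right₀ (by norm_num) (Good_n1_mono h)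

theorem Good_kap_anti {D D' : ℕ} (hD : Big D) (h : D ≤ D') : kap D' ≤ kap D := by
  unfold kap
  have h1 : (0 : ℝ) < D := by
    have := hD.1
    exact_mod_cast (by omega : 0 < D)
  exact div_le_div_of_nonneg_left (by norm_num) h1 (by exact_mod_cast h)

theorem Good_th_anti {D D' : ℕ} (h : D ≤ D') : th D' ≤ th D := by
  unfold th
  exact pow_le_pow_of_le_one (by norm_num) (by norm_num) h

theorem Good_sum_half (s : Finset ℕ) : ∑ n ∈ s, ((1 : ℝ) / 2) ^ n ≤ 2 := by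
  have h := hasSum_geometric_two
  exact sum_le_hasSum s (fun i _ => by positivity) h

theorem p_Good (h1 : S_Res) (h2 : S_G1) : S_Good := by
  intro M Ds hG
  obtain ⟨h0, hN⟩ := hG
  have hBig : ∀ n, Big (Ds n) := by
    intro n
    cases n with
    | zero => exact h0
    | succ n => exact (hN n).1
  have hmono : StrictMono Ds := strictMono_nat_of_lt_succ fun n => (hN n).2.1
  have hle : ∀ n, n ≤ Ds n := fun n => hmono.id_le n
  refine ⟨hBig, hmono, hle, fun n => ?_, fun N n hn => ?_, fun N n hn => ?_, fun N s hs => ?_⟩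
  · have g := h2 M _ (hBig n)
    have g' := h2 M _ (hBig (n + 1))
    obtain ⟨-, -, h8, hk, -⟩ := hN n
    have hD : DG (Ds n) ≤ Ds (n + 1) / 8 := by omega
    have hD8 : Ds (n + 1) / 8 ≤ Ds (n + 1) := Nat.div_le_self _ _
    have a1 := M.inc_V _ _ _ _ g.admG g'.adm8 hD hk
    have a2 := M.inc_V _ _ _ _ g'.adm8 g'.admF hD8 le_rfl
    have a3 := M.inc_V _ _ _ _ g'.admF g'.admG g'.le_DG g'.kG_le
    have b1 := M.inc_norm _ _ _ _ g.admG g'.adm8 hD hk
    have b2 := M.inc_norm _ _ _ _ g'.adm8 g'.admF hD8 le_rfl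
    have b3 := M.inc_norm _ _ _ _ g'.admF g'.admG g'.le_DG g'.kG_le
    have c1 := M.inc_one _ _ _ _ g.admG g'.adm8 hD hk
    have c2 := M.inc_one _ _ _ _ g'.adm8 g'.admF hD8 le_rfl
    have c3 := M.inc_one _ _ _ _ g'.admF g'.admG g'.le_DG g'.kG_le
    have d1 := M.inc_J _ _ _ _ g.admG g'.adm8 hD hk
    have d2 := M.inc_J _ _ _ _ g'.adm8 g'.admF hD8 le_rfl
    have d3 := M.inc_J _ _ _ _ g'.admF g'.admG g'.le_DG g'.kG_le
    refine ⟨fun v => a1 v, b1, fun v => ?_, ?_, ?_, fun v => ?_, fun v => ?_⟩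
    · simp only [Model.gg, Model.g8, Model.j, Model.i8, Model.VG, ContinuousLinearMap.comp_apply]
      rw [a1, a2, a3]
    · unfold Model.gg
      refine (ContinuousLinearMap.opNorm_comp_le _ _).trans ?_
      refine mul_le_one₀ b3 (norm_nonneg _) ?_
      exact (ContinuousLinearMap.opNorm_comp_le _ _).trans (mul_le_one₀ b2 (norm_nonneg _) b1)
    · simp only [Model.gg, Model.g8, Model.j, Model.i8, ContinuousLinearMap.comp_apply]
      rw [c1, c2, c3]
    · simp only [Model.gg, Model.g8, Model.j, Model.i8, Model.JG, ContinuousLinearMap.comp_apply]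
      rw [d3, d2, d1]
    · simp only [Model.g8, Model.i8, Model.JF, Model.JG]
      rw [d2, d1]
  · have g := h2 M _ (hBig n)
    obtain ⟨-, -, -, -, hZ, -⟩ := hN N
    have hZ0 : 0 ≤ ZZ (Ds N) := zero_le_one.trans (Good_ZZ_one (hBig N))
    have hk : kap (Ds n) ≤ kap (Ds (N + 1)) := Good_kap_anti (hBig _) (hmono.monotone hn)
    have hE := (Real.exp_pos (ZZ (Ds N))).le
    have key : ∀ k : ℝ, k ≤ kap (Ds n) → k * ZZ (Ds N) * Real.exp (ZZ (Ds N)) ≤ 1 / 2 := fun k hk' =>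
      (mul_le_mul_of_nonneg_right (mul_le_mul_of_nonneg_right (hk'.trans hk) hZ0) hE).trans hZ
    have R := h1.2.2 E
    have rG := R (M.VG (Ds n)) M.V _ _ M.V_pow (M.VS_sub _ _ g.admG) hZ0 (key _ g.kG_le)
    have rF := R (M.VF (Ds n)) M.V _ _ M.V_pow (M.VS_sub _ _ g.admF) hZ0 (key _ le_rfl)
    have r8 := R (M.V8 (Ds n)) M.V _ _ M.V_pow (M.VS_sub _ _ g.adm8) hZ0 (key _ le_rfl)
    have r0 := R M.V M.V 0 _ M.V_pow (by simp) hZ0 (key _ g.admF.1.le)
    exact ⟨rG.1, fun b hb => ⟨r0.2.2 b hb, r8.2.2 b hb, rF.2.2 b hb, rG.2.2 b hb⟩⟩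
  · have h := hmono.monotone hn
    exact ⟨Real.exp_le_exp.2 (Good_ZZ_mono h), Good_mu_mono h⟩
  · obtain ⟨hB', -, -, -, hZ, -⟩ := hN N
    have hZ1 := Good_ZZ_one (hBig N)
    have hE := (Real.exp_pos (ZZ (Ds N))).le
    have hD : (1 : ℝ) ≤ Ds (N + 1) := by
      have := hB'.1
      exact_mod_cast (by omega : 1 ≤ Ds (N + 1))
    have hk0 : 0 ≤ kap (Ds (N + 1)) := by unfold kap; positivity
    have e1 : kap (Ds (N + 1)) * Real.exp (ZZ (Ds N)) ≤ 1 / 2 := by
      refine le_trans ?_ hZ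
      exact mul_le_mul_of_nonneg_right (le_mul_of_one_le_right hk0 hZ1) hE
    have e2 : Real.exp (ZZ (Ds N)) ≤ (Ds (N + 1) : ℝ) / 4096 := by
      unfold kap at e1
      rw [div_mul_eq_mul_div, div_le_iff₀ (by linarith)] at e1
      rw [le_div_iff₀ (by norm_num)]
      linarith
    have e3 : ∑ n ∈ s, th (Ds n) ^ 2 ≤ th (Ds (N + 1)) * 2 := by
      calc ∑ n ∈ s, th (Ds n) ^ 2 ≤ ∑ n ∈ s, th (Ds (N + 1)) * ((1 : ℝ) / 2) ^ n := by
            refine sum_le_sum fun n hn => ?_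
            rw [sq]
            exact mul_le_mul (Good_th_anti (hmono.monotone (hs n hn))) (Good_th_anti (hle n))
              (th_pos _).le (th_pos _).le
        _ = th (Ds (N + 1)) * ∑ n ∈ s, ((1 : ℝ) / 2) ^ n := by rw [mul_sum]
        _ ≤ _ := mul_le_mul_of_nonneg_left (Good_sum_half s) (th_pos _).le
    have e4 : (Ds (N + 1) : ℝ) * th (Ds (N + 1)) ≤ 1 := by
      refine le_trans (mul_le_mul_of_nonneg_right ?_ (th_pos _).le) hB'.num'
      calc (Ds (N + 1) : ℝ) ≤ (Ds (N + 1) : ℝ) ^ 40 := le_self_pow₀ hD (by norm_num)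
        _ ≤ _ := le_mul_of_one_le_right (by positivity) (one_le_pow₀ (by norm_num))
    have hs0 : 0 ≤ ∑ n ∈ s, th (Ds n) ^ 2 := sum_nonneg fun n _ => sq_nonneg _
    calc 2 * Real.exp (ZZ (Ds N)) * ∑ n ∈ s, th (Ds n) ^ 2
        ≤ 2 * ((Ds (N + 1) : ℝ) / 4096) * (th (Ds (N + 1)) * 2) :=
          mul_le_mul (by linarith) e3 hs0 (by positivity)
      _ = (Ds (N + 1) : ℝ) * th (Ds (N + 1)) / 1024 := by ring
      _ ≤ 1 := by linarith

end Pool.Agent.IS
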