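import Pool.Agent.P.MP_f981b0_an.IS.Stmt

/-! Package Gr of the project IS: the growth bound on the circle of radius `r1`. -/

set_option autoImplicit false

open Polynomial Finset Filter Topology
open scoped Nat Real

noncomputable section

namespace Pool.Agent.IS

theorem Gr_ne {p : ℂ} (h : -(1 / 16) < p.re) : p + 1 ≠ 0 := by
  intro h0
  have := congrArg Complex.re h0
  simp at this
  linarith

theorem Gr_sq {p : ℂ} (h : -(1 / 16) < p.re) :
    ‖wp p‖ ^ 2 * ((p.re + 1) ^ 2 + p.im ^ 2) = (p.re - 1) ^ 2 + p.im ^ 2 := by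
  have h1 : ‖p + 1‖ ≠ 0 := norm_ne_zero_iff.2 (Gr_ne h)
  have h2 : ‖p + 1‖ ^ 2 = (p.re + 1) ^ 2 + p.im ^ 2 := by
    rw [Complex.sq_norm, Complex.normSq_apply]; simp; ring
  have h3 : ‖p - 1‖ ^ 2 = (p.re - 1) ^ 2 + p.im ^ 2 := by
    rw [Complex.sq_norm, Complex.normSq_apply]; simp; ring
  rw [← h2, ← h3, wp, norm_div, div_pow, div_mul_cancel₀ _ (pow_ne_zero 2 h1)]

theorem Gr_half {p : ℂ} (h : -(1 / 16) < p.re) (h' : p.re < 1 / 4) : 1 / 2 ≤ ‖wp p‖ := by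
  have h1 := Gr_sq h
  by_contra hc
  push Not at hc
  have h0 : 0 ≤ ‖wp p‖ := norm_nonneg _
  have h2 : ‖wp p‖ ^ 2 ≤ 1 / 4 := by nlinarith
  have h3 : 0 ≤ (p.re + 1) ^ 2 + p.im ^ 2 := by positivity
  have h4 := mul_le_mul_of_nonneg_right h2 h3
  nlinarith [sq_nonneg p.im]

theorem Gr_one {p : ℂ} (h : p.re = 0) : ‖wp p‖ = 1 := by
  have h1 := Gr_sq (p := p) (by rw [h]; norm_num)
  rw [h] at h1
  have h3 : 0 < ((0 : ℝ) + 1) ^ 2 + p.im ^ 2 := by positivity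
  have h4 : ‖wp p‖ ^ 2 = 1 := by
    apply mul_right_cancel₀ h3.ne'
    rw [h1]; ring
  exact (pow_eq_one_iff_of_nonneg (norm_nonneg _) (by norm_num)).1 h4

theorem Gr_geo (r ph a J et : ℝ) (hr : 1 / 2 ≤ r) (hr1 : r ≤ 1) (ha : 0 < a)
    (h2 : 1 - r ^ 2 ≤ 2 * et / a) (hJ : 1 / 2 ≤ J) (h1 : J * π / a ≤ |ph|) (hpi : |ph| ≤ π)
    (hsm : 32 * et * a ≤ 1) (het : 0 ≤ et) :
    ∃ p : ℂ, wp p = r * Complex.exp (ph * Complex.I) ∧ 0 ≤ p.re ∧ p.re ≤ 1 / 8 ∧
      |p.im| ≤ 3 * a ∧ a * p.re * (1 + p.im ^ 2) ≤ 4 * et * a ^ 4 / J ^ 4 := by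
  set w : ℂ := r * Complex.exp (ph * Complex.I) with hw
  have hu : w.re = r * Real.cos ph := by
    rw [hw, Complex.re_ofReal_mul, Complex.exp_ofReal_mul_I_re]
  have hv : w.im = r * Real.sin ph := by
    rw [hw, Complex.im_ofReal_mul, Complex.exp_ofReal_mul_I_im]
  have hcs := Real.sin_sq_add_cos_sq ph
  have huv : w.re ^ 2 + w.im ^ 2 = r ^ 2 := by
    rw [hu, hv]; linear_combination r ^ 2 * hcs
  obtain ⟨q, hq⟩ : ∃ q : ℝ, q = (1 - w.re) ^ 2 + w.im ^ 2 := ⟨_, rfl⟩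
  have hcos := Real.cos_le_one_sub_mul_cos_sq hpi
  have hJ0 : 0 < J := by linarith
  have hph : (J / a) ^ 2 ≤ 1 / π ^ 2 * ph ^ 2 := by
    have h3 : (J * π / a) ^ 2 ≤ |ph| ^ 2 := pow_le_pow_left₀ (by positivity) h1 2
    rw [sq_abs] at h3
    have h4 : (J / a) ^ 2 = 1 / π ^ 2 * (J * π / a) ^ 2 := by field_simp
    rw [h4]
    exact mul_le_mul_of_nonneg_left h3 (by positivity)
  have hc : 2 * (J / a) ^ 2 ≤ 1 - Real.cos ph := by
    have : 2 / π ^ 2 * ph ^ 2 = 2 * (1 / π ^ 2 * ph ^ 2) := by ring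
    linarith
  have hb0 : 0 < (J / a) ^ 2 := by positivity
  have hq1 : 2 * (J / a) ^ 2 ≤ q := by
    have h5 : q = (1 - r) ^ 2 + 2 * r * (1 - Real.cos ph) := by
      rw [hq]; linear_combination huv - 2 * hu
    have h6 : 1 * (1 - Real.cos ph) ≤ 2 * r * (1 - Real.cos ph) :=
      mul_le_mul_of_nonneg_right (by linarith) (by linarith)
    nlinarith [sq_nonneg (1 - r)]
  have hq0 : 0 < q := by linarith
  have hq4 : q ≤ 4 := by
    have h5 : q = 1 - 2 * w.re + r ^ 2 := by rw [hq]; linear_combination huv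
    have h6 : w.re ^ 2 ≤ 1 := by nlinarith [sq_nonneg w.im]
    have h7 : -1 ≤ w.re := by nlinarith
    nlinarith
  have hn : Complex.normSq (1 - w) = q := by
    rw [hq, Complex.normSq_apply]; simp; ring
  have hne : (1 : ℂ) - w ≠ 0 := by
    intro h0
    rw [h0, map_zero] at hn
    exact hq0.ne hn
  have hre : ((1 + w) / (1 - w)).re = (1 - r ^ 2) / q := by
    rw [Complex.div_re, hn, ← huv]; simp; ring
  have him : ((1 + w) / (1 - w)).im = 2 * w.im / q := by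
    rw [Complex.div_im, hn]; simp; ring
  have hy : (2 * w.im / q) ^ 2 ≤ 4 / q := by
    rw [div_pow, div_le_div_iff₀ (by positivity) hq0]
    have : w.im ^ 2 ≤ q := by rw [hq]; nlinarith [sq_nonneg (1 - w.re)]
    nlinarith
  have hiq : 1 / q ≤ a ^ 2 / (2 * J ^ 2) := by
    have h5 : a ^ 2 / (2 * J ^ 2) = 1 / (2 * (J / a) ^ 2) := by field_simp
    rw [h5]
    exact one_div_le_one_div_of_le (by positivity) hq1
  have hiq2 : a ^ 2 / (2 * J ^ 2) ≤ 2 * a ^ 2 := by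
    rw [div_le_iff₀ (by positivity)]
    have : 1 ≤ 4 * J ^ 2 := by nlinarith
    nlinarith [sq_nonneg a]
  have hr2 : 0 ≤ 1 - r ^ 2 := by nlinarith
  have hx : (1 - r ^ 2) / q ≤ 2 * et / a * (1 / q) := by
    rw [div_eq_mul_one_div]
    exact mul_le_mul_of_nonneg_right h2 (by positivity)
  refine ⟨(1 + w) / (1 - w), ?_, ?_, ?_, ?_, ?_⟩
  · unfold wp
    have h3 : (1 + w) / (1 - w) - 1 = 2 * w / (1 - w) := by field_simp; ring
    have h4 : (1 + w) / (1 - w) + 1 = 2 / (1 - w) := by field_simp; ring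
    rw [h3, h4]; field_simp
  · rw [hre]; positivity
  · rw [hre]
    have h5 : 2 * et / a * (1 / q) ≤ 2 * et / a * (2 * a ^ 2) :=
      mul_le_mul_of_nonneg_left (hiq.trans hiq2) (by positivity)
    have h6 : 2 * et / a * (2 * a ^ 2) = 4 * et * a := by field_simp; ring
    linarith
  · rw [him]
    apply abs_le_of_sq_le_sq _ (by positivity)
    have h5 : 4 / q = 4 * (1 / q) := by ring
    nlinarith [hiq.trans hiq2, sq_nonneg a]
  · rw [hre, him]
    have h5 : 1 + (2 * w.im / q) ^ 2 ≤ 8 * (1 / q) := by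
      have h6 : 1 ≤ 4 / q := by rw [le_div_iff₀ hq0]; linarith
      have h7 : 4 / q = 4 * (1 / q) := by ring
      linarith
    have h8 : 0 ≤ 1 / q := by positivity
    calc a * ((1 - r ^ 2) / q) * (1 + (2 * w.im / q) ^ 2)
        ≤ a * (2 * et / a * (1 / q)) * (8 * (1 / q)) := by gcongr
      _ ≤ a * (2 * et / a * (a ^ 2 / (2 * J ^ 2))) * (8 * (a ^ 2 / (2 * J ^ 2))) := by gcongr
      _ = 4 * et * a ^ 4 / J ^ 4 := by field_simp; ring

theorem Gr_S {D : ℕ} (hD : Big D) :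
    ((aa D * KK D : ℕ) : ℝ) ≤ Real.exp (4 * (aa D : ℝ) - 3 * (aa D : ℝ)) / 4 := by
  have h1 : 4 * (aa D * KK D) ≤ 2 ^ aa D := by
    have h2 : D ≤ 2 ^ D := Nat.lt_two_pow_self.le
    have h3 : 2 ^ 15 ≤ 2 ^ D := Nat.pow_le_pow_right (by norm_num) (by have := hD.1; omega)
    calc 4 * (aa D * KK D) = 2 ^ 15 * D * 2 ^ (20 * D) := by unfold aa KK; ring
      _ ≤ 2 ^ D * 2 ^ D * 2 ^ (20 * D) := by gcongr
      _ = 2 ^ (22 * D) := by rw [← pow_add, ← pow_add]; congr 1; ring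
      _ ≤ 2 ^ aa D := Nat.pow_le_pow_right (by norm_num) (by unfold aa; omega)
  have h2 : (4 : ℝ) * ((aa D * KK D : ℕ) : ℝ) ≤ 2 ^ aa D := by exact_mod_cast h1
  have h3 : (2 : ℝ) ^ aa D ≤ Real.exp (aa D) := by
    rw [← mul_one (aa D : ℝ), Real.exp_nat_mul]
    exact pow_le_pow_left₀ (by norm_num) (by linarith [Real.add_one_le_exp 1]) _
  rw [show 4 * (aa D : ℝ) - 3 * (aa D : ℝ) = aa D by ring]
  linarith

theorem p_Gr (h1 : S_Strip) (h2 : S_Yh) (h3 : S_Line) : S_Gr := by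
  intro M D y X c e e' x0 hD hy hX hR jj ph hj hpi
  obtain ⟨hb, hdiff, -, -⟩ := h2 M D y e' hD hy
  have hs : 0 ≤ ss D e x0 := by unfold ss; positivity
  have hD1 : (1 : ℝ) ≤ D := by exact_mod_cast (by have := hD.1; omega : 1 ≤ D)
  have haD : (aa D : ℝ) = 64 * D := by unfold aa; push_cast; ring
  have ha : (0 : ℝ) < aa D := by rw [haD]; linarith
  have hth := th_pos D
  have het : 0 ≤ eta D := by unfold eta; positivity
  have hsm : 32 * eta D * aa D ≤ 1 := by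
    have h4 := hD.num'
    have h5 : th D ≤ 1 := by unfold th; exact pow_le_one₀ (by norm_num) (by norm_num)
    have h6 : eta D ≤ th D := by
      unfold eta; exact pow_le_of_le_one hth.le h5 (by norm_num)
    have h7 : (D : ℝ) ≤ (D : ℝ) ^ 40 := le_self_pow₀ hD1 (by norm_num)
    calc 32 * eta D * aa D = D * 2048 * eta D := by rw [haD]; ring
      _ ≤ (D : ℝ) ^ 40 * 2 ^ 200 * th D := by gcongr; norm_num
      _ ≤ 1 := h4
  have hea : eta D / aa D ≤ 1 / 2 := by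
    rw [div_le_iff₀ ha]
    nlinarith
  have hea0 : 0 ≤ eta D / aa D := by positivity
  have hr0 : 1 - eta D / aa D ≤ r1 D := by
    have := Real.add_one_le_exp (-(eta D) / aa D)
    rw [neg_div] at this
    unfold r1; rw [neg_div]; linarith
  have hr1 : r1 D ≤ 1 := by
    unfold r1; rw [neg_div]; exact Real.exp_le_one_iff.2 (by linarith)
  have hr2 : 1 - r1 D ^ 2 ≤ 2 * eta D / aa D := by
    rw [mul_div_assoc]; nlinarith
  obtain ⟨p, hp, p0, p1, p2, p3⟩ := Gr_geo (r1 D) ph (aa D) ((jj : ℝ) + 1 / 2) (eta D)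
    (by linarith) hr1 ha hr2 (by have : (0 : ℝ) ≤ jj := Nat.cast_nonneg _; linarith) hj hpi hsm het
  have key := h1 (fun p => M.yh D y (wp p)) (Lam D) (12000 * aa D * ss D e x0)
    ((aa D * KK D : ℕ) : ℝ) (3 * aa D) (4 * aa D) (by positivity) (by positivity) (by linarith)
    (Gr_S hD) ?_ ?_ ?_ ?_ p p0 p1 p2
  · rw [← hp]
    refine key.trans (Real.exp_le_exp.2 ?_)
    have h4 : 9 * (12000 * aa D * ss D e x0) * p.re * (1 + p.im ^ 2) =
        108000 * ss D e x0 * (aa D * p.re * (1 + p.im ^ 2)) := by ring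
    have h5 := mul_le_mul_of_nonneg_left p3 (by positivity : 0 ≤ 108000 * ss D e x0)
    have h6 : 0 ≤ ss D e x0 * eta D * (aa D : ℝ) ^ 4 / ((jj : ℝ) + 1 / 2) ^ 4 := by positivity
    have h7 : 108000 * ss D e x0 * (4 * eta D * (aa D : ℝ) ^ 4 / ((jj : ℝ) + 1 / 2) ^ 4) =
        432000 * (ss D e x0 * eta D * (aa D : ℝ) ^ 4 / ((jj : ℝ) + 1 / 2) ^ 4) := by ring
    have h8 : 2 ^ 19 * ss D e x0 * eta D * (aa D : ℝ) ^ 4 / ((jj : ℝ) + 1 / 2) ^ 4 =
        524288 * (ss D e x0 * eta D * (aa D : ℝ) ^ 4 / ((jj : ℝ) + 1 / 2) ^ 4) := by ring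
    rw [h4, h8]
    linarith
  · refine hdiff.comp (f := wp) ?_ ?_
    · intro z hz
      have hz1 := Gr_ne hz.1
      have : DifferentiableAt ℂ (fun p : ℂ => (p - 1) / (p + 1)) z := by fun_prop (disch := exact hz1)
      exact this.differentiableWithinAt
    · intro z hz
      have := Gr_half hz.1 hz.2.1
      show 1 / 4 < ‖wp z‖
      linarith
  · intro z hz _
    have h4 := hb (wp z) (by rw [Gr_one hz]; norm_num)
    rw [Gr_one hz] at h4
    simpa using h4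
  · intro z hz hi
    exact h3 M D y X c e e' x0 hD hy hX hR z hz hi
  · intro z hz0 hz1 _
    have h4 := Gr_half (p := z) (by linarith) (by linarith)
    refine (hb (wp z) h4).trans ?_
    rw [Real.exp_add]
    refine mul_le_mul_of_nonneg_left (max_le (Real.one_le_exp (Nat.cast_nonneg _)) ?_)
      (Real.exp_pos _).le
    have h5 : ‖wp z‖⁻¹ ≤ Real.exp 1 := by
      have : ‖wp z‖⁻¹ ≤ 2 := by
        rw [inv_le_comm₀ (by linarith) (by norm_num)]; linarith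
      linarith [Real.add_one_le_exp 1]
    rw [← mul_one ((aa D * KK D : ℕ) : ℝ), Real.exp_nat_mul]
    exact pow_le_pow_left₀ (by positivity) h5 _

end Pool.Agent.IS
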