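import Pool.Agent.P.MP_f981b0_an.IS.Stmt
import Pool.Agent.P.MP_f981b0_an.IS58.JCore

set_option autoImplicit false

open Polynomial Finset Filter Topology
open scoped Nat Real

noncomputable section

namespace Pool.Agent.IS

theorem Jet_n1_tau (D : ℕ) : (n1 D : ℝ) * tau D = 64 * D := by
  have h1 := th_inv D
  have h2 : (n1 D : ℝ) = 64 * D * ((2 : ℝ) ^ D) ^ 20 := by
    unfold n1
    push_cast
    rw [mul_comm 20 D, pow_mul]
  rw [h2, tau, mul_assoc, ← mul_pow, h1, one_pow, mul_one]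

theorem Jet_th_le (D : ℕ) : th D ≤ 1 := pow_le_one₀ (by norm_num) (by norm_num)

theorem Jet_dd {D : ℕ} (h : Big D) : 1 ≤ dd D ∧ dd D ≤ 80 * (D : ℝ) ^ 2 := by
  have h1 : (65536 : ℝ) ≤ D := by exact_mod_cast h.1
  unfold dd
  constructor <;> nlinarith

theorem Jet_tau_le (D : ℕ) : tau D ≤ th D * th D := by
  have h1 := Jet_th_le D
  have h2 := th_pos D
  have h3 : th D ^ 20 ≤ th D ^ 2 := pow_le_pow_of_le_one h2.le h1 (by norm_num)
  rw [tau, ← sq]
  exact h3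

theorem Jet_small {D : ℕ} (h : Big D) (c : ℝ) (k : ℕ) (hc : c ≤ 2 ^ 200) (hk : k ≤ 40) :
    c * (D : ℝ) ^ k * th D ≤ 1 := by
  have h1 : (1 : ℝ) ≤ D := by
    have : (65536 : ℝ) ≤ D := by exact_mod_cast h.1
    linarith
  have h2 : (D : ℝ) ^ k ≤ (D : ℝ) ^ 40 := pow_le_pow_right₀ h1 hk
  have h3 : c * (D : ℝ) ^ k ≤ (D : ℝ) ^ 40 * 2 ^ 200 := by
    rw [mul_comm ((D : ℝ) ^ 40)]
    exact mul_le_mul hc h2 (by positivity) (by positivity)
  exact (mul_le_mul_of_nonneg_right h3 (th_pos D).le).trans h.num'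

theorem Jet_inv {D : ℕ} (h : Big D) : 0 < (n1 D : ℝ) ∧ 1 / (n1 D : ℝ) ≤ tau D := by
  have h1 : (65536 : ℝ) ≤ D := by exact_mod_cast h.1
  have h2 := Jet_n1_tau D
  have h3 : 0 < tau D := pow_pos (th_pos D) _
  have h4 : 0 < (n1 D : ℝ) := by
    by_contra h5
    have h6 : (n1 D : ℝ) * tau D ≤ 0 := mul_nonpos_of_nonpos_of_nonneg (not_lt.1 h5) h3.le
    linarith
  refine ⟨h4, ?_⟩
  rw [div_le_iff₀ h4]
  linarith

theorem Jet_half {D : ℕ} (h : Big D) : 1 / (n1 D : ℝ) * dd D ≤ 1 / 2 := by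
  have h1 := Jet_inv h
  have h2 := Jet_dd h
  have h3 := Jet_tau_le D
  have h4 := Jet_small h 160 2 (by norm_num) (by norm_num)
  have h5 := Jet_th_le D
  have h6 := th_pos D
  have h7 : 1 / (n1 D : ℝ) ≤ th D := by nlinarith
  calc 1 / (n1 D : ℝ) * dd D ≤ th D * (80 * (D : ℝ) ^ 2) :=
        mul_le_mul h7 h2.2 (by linarith) h6.le
    _ ≤ 1 / 2 := by linarith

theorem Jet_Mx {D : ℕ} (h : Big D) :
    ((KK D + 2 : ℕ) : ℝ) * (2 * ((D : ℝ) + 1) * 2 ^ (7 * D + 2)) ≤ MF D := by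
  have h1 : (65536 : ℝ) ≤ D := by exact_mod_cast h.1
  have h2 := Jet_small h 4096 1 (by norm_num) (by norm_num)
  have h3 := th_inv D
  have h4 : (1 : ℝ) ≤ 2 ^ D := one_le_pow₀ (by norm_num)
  have h5 : ((KK D + 2 : ℕ) : ℝ) = 128 * ((2 : ℝ) ^ D) ^ 20 + 2 := by
    unfold KK
    push_cast
    rw [mul_comm 20 D, pow_mul]
  have h6 : (2 : ℝ) ^ (7 * D + 2) = 4 * ((2 : ℝ) ^ D) ^ 7 := by
    rw [pow_add, mul_comm 7 D, pow_mul]
    norm_num [mul_comm]
  have h7 : MF D = ((2 : ℝ) ^ D) ^ 30 := by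
    unfold MF
    rw [mul_comm 30 D, pow_mul]
  rw [h5, h6, h7]
  generalize (2 : ℝ) ^ D = x at *
  have h8 : 4096 * (D : ℝ) ≤ x := by
    have h9 : 4096 * (D : ℝ) ^ 1 * th D * x ≤ 1 * x := mul_le_mul_of_nonneg_right h2 (by linarith)
    have h10 : 4096 * (D : ℝ) ^ 1 * th D * x = 4096 * D * (x * th D) := by ring
    rw [h10, h3] at h9
    linarith
  have h11 : 1 ≤ x ^ 20 := one_le_pow₀ h4
  have h12 : x ^ 28 ≤ x ^ 30 := pow_le_pow_right₀ h4 (by norm_num)
  calc (128 * x ^ 20 + 2) * (2 * ((D : ℝ) + 1) * (4 * x ^ 7))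
      ≤ (256 * x ^ 20) * (4 * (D : ℝ) * (4 * x ^ 7)) := by
        apply mul_le_mul (by linarith) _ (by positivity) (by positivity)
        exact mul_le_mul_of_nonneg_right (by linarith) (by positivity)
    _ = 4096 * D * x ^ 27 := by ring
    _ ≤ x * x ^ 27 := mul_le_mul_of_nonneg_right h8 (by positivity)
    _ = x ^ 28 := by ring
    _ ≤ _ := h12

theorem Jet_num {D : ℕ} (h : Big D) (Mx : ℝ) (h0 : 0 ≤ Mx) (hM : Mx ≤ MF D) (l : ℕ)
    (hl : l ≤ 8 * D) :
    16 * D * (MF D * tau D ^ (16 * D) + 2 * Mx * (1 / (n1 D : ℝ) * dd D) ^ (16 * D))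
      * (512 * D) ^ (16 * D) / (1 / (n1 D : ℝ)) ^ l ≤ MF D * tau D ^ (4 * D) := by
  have h1 : (65536 : ℝ) ≤ D := by exact_mod_cast h.1
  obtain ⟨h2, h3⟩ := Jet_inv h
  obtain ⟨h4, h5⟩ := Jet_dd h
  have h6 := Jet_n1_tau D
  have h7 := Jet_tau_le D
  have h8 := th_pos D
  have h9 := Jet_th_le D
  have h10 : 0 < tau D := pow_pos h8 _
  have h11 : 0 ≤ MF D := h0.trans hM
  have h12 := Jet_small h (40960 ^ 4 * 64 ^ 2) 14 (by norm_num) (by norm_num)
  have h13 := Jet_small h 48 1 (by norm_num) (by norm_num)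
  have h14 : 4 * D ≠ 0 := by have := h.1; omega
  generalize (n1 D : ℝ) = n at *
  generalize tau D = T at *
  generalize dd D = d at *
  generalize th D = x at *
  generalize MF D = F at *
  have hT1 : T ≤ 1 := by nlinarith
  have hn1 : 1 ≤ n := by nlinarith
  have e1 : T ^ (16 * D) ≤ (T * d) ^ (16 * D) := pow_le_pow_left₀ h10.le (by nlinarith) _
  have e2 : (1 / n * d) ^ (16 * D) ≤ (T * d) ^ (16 * D) :=
    pow_le_pow_left₀ (by positivity) (mul_le_mul_of_nonneg_right h3 (by linarith)) _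
  have e3 : F * T ^ (16 * D) + 2 * Mx * (1 / n * d) ^ (16 * D) ≤ 3 * F * (T * d) ^ (16 * D) := by
    have e4 := mul_le_mul_of_nonneg_left e1 h11
    have e5 : Mx * (1 / n * d) ^ (16 * D) ≤ F * (T * d) ^ (16 * D) :=
      mul_le_mul hM e2 (by positivity) h11
    linarith
  have e6 : n ^ l ≤ n ^ (8 * D) := pow_le_pow_right₀ hn1 hl
  have e7 : (T * d) ^ (16 * D) * (512 * D) ^ (16 * D) * n ^ (8 * D)
      = T ^ (4 * D) * (T * (d * (512 * D)) ^ 4 * (n * T) ^ 2) ^ (4 * D) := by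
    have e8 : 16 * D = 4 * (4 * D) := by ring
    have e9 : 8 * D = 2 * (4 * D) := by ring
    rw [e8, e9, pow_mul (T * d) 4 (4 * D), pow_mul (512 * (D : ℝ)) 4 (4 * D), pow_mul n 2 (4 * D),
      ← mul_pow, ← mul_pow, ← mul_pow]
    ring
  have e10 : T * (d * (512 * D)) ^ 4 * (n * T) ^ 2 ≤ x := by
    have e11 : (d * (512 * D)) ^ 4 ≤ (80 * (D : ℝ) ^ 2 * (512 * D)) ^ 4 :=
      pow_le_pow_left₀ (by positivity) (mul_le_mul_of_nonneg_right h5 (by positivity)) _
    rw [h6]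
    calc T * (d * (512 * D)) ^ 4 * (64 * D) ^ 2
        ≤ x * x * (80 * (D : ℝ) ^ 2 * (512 * D)) ^ 4 * (64 * D) ^ 2 :=
          mul_le_mul_of_nonneg_right (mul_le_mul h7 e11 (by positivity) (by positivity))
            (by positivity)
      _ = x * (40960 ^ 4 * 64 ^ 2 * (D : ℝ) ^ 14 * x) := by ring
      _ ≤ x * 1 := mul_le_mul_of_nonneg_left h12 h8.le
      _ = x := mul_one x
  have e12 : (T * (d * (512 * D)) ^ 4 * (n * T) ^ 2) ^ (4 * D) ≤ x :=
    (pow_le_pow_left₀ (by positivity) e10 _).trans (pow_le_of_le_one h8.le h9 h14)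
  rw [one_div n, inv_pow, div_inv_eq_mul, ← one_div n]
  calc 16 * D * (F * T ^ (16 * D) + 2 * Mx * (1 / n * d) ^ (16 * D)) * (512 * D) ^ (16 * D) * n ^ l
      ≤ 16 * D * (3 * F * (T * d) ^ (16 * D)) * (512 * D) ^ (16 * D) * n ^ (8 * D) := by
        apply mul_le_mul _ e6 (by positivity) (by positivity)
        apply mul_le_mul_of_nonneg_right _ (by positivity)
        exact mul_le_mul_of_nonneg_left e3 (by positivity)
    _ = 48 * D * F * ((T * d) ^ (16 * D) * (512 * D) ^ (16 * D) * n ^ (8 * D)) := by ring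
    _ = F * T ^ (4 * D) * (48 * D * (T * (d * (512 * D)) ^ 4 * (n * T) ^ 2) ^ (4 * D)) := by
        rw [e7]; ring
    _ ≤ F * T ^ (4 * D) * 1 := by
        apply mul_le_mul_of_nonneg_left _ (by positivity)
        have e13 := mul_le_mul_of_nonneg_left e12 (by positivity : (0 : ℝ) ≤ 48 * D)
        rw [pow_one] at h13
        linarith
    _ = _ := mul_one _

theorem p_Jet (_h1 : S_Lag) (h2 : S_G1) (h3 : S_Symb) (h4 : S_Rem) : S_Jet := by
  intro M D X c e x0 h hB hX h0 h1 hF l hl m hm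
  have hD : 1 ≤ D := by have := hB.1; omega
  have g1 := h2 M D hB
  obtain ⟨s1, -, s3, -⟩ := h3 M D (kap D) g1.admF
  have r1 := (h4 M D X c e x0 hB hX).1
  obtain ⟨i1, i2⟩ := Jet_inv hB
  have hd := (Jet_dd hB).1
  set f : ℕ → ℂ[X] := fun i =>
    ∑ k ∈ range (KK D + 2), monomial k (M.evF D ((M.dF D ^ i) (Xm D X c k))) with hf
  have hev : ∀ i (z : ℂ), (f i).eval z
      = ∑ k ∈ range (KK D + 2), M.evF D ((M.dF D ^ i) (Xm D X c k)) * z ^ k := by
    intro i z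
    simp only [hf, eval_finsetSum, eval_monomial]
  have hb : ∀ i, ∀ z : ℂ, ‖z‖ ≤ 1 → ‖(f i).eval z‖
      ≤ ((KK D + 2 : ℕ) : ℝ) * (2 * ((D : ℝ) + 1) * 2 ^ (7 * D + 2)) * dd D ^ i := by
    intro i z hz
    rw [hev]
    calc _ ≤ ∑ _k ∈ range (KK D + 2), 2 * ((D : ℝ) + 1) * dd D ^ i * 2 ^ (7 * D + 2) := by
          apply norm_sum_le_of_le
          intro k _
          rw [norm_mul, norm_pow]
          have b1 : ‖M.evF D ((M.dF D ^ i) (Xm D X c k))‖
              ≤ 2 * ((D : ℝ) + 1) * dd D ^ i * 2 ^ (7 * D + 2) :=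
            (s1 _ i).trans (mul_le_mul_of_nonneg_left (r1 k) (by positivity))
          exact (mul_le_of_le_one_right (norm_nonneg _) (pow_le_one₀ (norm_nonneg _) hz)).trans b1
      _ = _ := by
          rw [Finset.sum_const, Finset.card_range, nsmul_eq_mul]
          ring
  have hc : ∀ w : ℂ, ‖w‖ = Real.exp (-h / (64 * D)) → w.re ≤ 0 →
      ‖∑' i, (((1 / (n1 D : ℝ) : ℝ) : ℂ) * w / (1 - w)) ^ i * (f i).eval (w ^ (64 * D))‖
        ≤ MF D * tau D ^ (16 * D) := by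
    intro w hw hre
    have b1 : ‖w‖ = Real.exp (-(h / aa D)) := by
      rw [hw, aa, neg_div]
      push_cast
      rfl
    have b2 : ((1 / (n1 D : ℝ) : ℝ) : ℂ) * w / (1 - w) = tw D w := by
      unfold tw
      push_cast
      rw [mul_comm (1 - w), ← div_div, div_mul_eq_mul_div, one_mul]
    have b3 : ‖w‖ ≤ 1 := by
      rw [hw, Real.exp_le_one_iff]
      exact div_nonpos_of_nonpos_of_nonneg (by linarith) (by positivity)
    have b4 := IS58.one_le_sub w hre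
    have b5 : ‖tw D w‖ ≤ 1 / (n1 D : ℝ) := by
      rw [← b2, norm_div, norm_mul, Complex.norm_real, Real.norm_of_nonneg (by positivity),
        div_le_iff₀ (by linarith)]
      exact mul_le_mul_of_nonneg_left (by linarith) (by positivity)
    have b6 : ‖tw D w‖ * dd D ≤ 1 / 2 :=
      (mul_le_mul_of_nonneg_right b5 (by linarith)).trans (Jet_half hB)
    have b7 : HasSum (fun i => ∑ k ∈ range (KK D + 2),
        w ^ (aa D * k) * (M.evF D ((M.dF D ^ i) (Xm D X c k)) * tw D w ^ i))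
        (M.Ft D X c (tw D w) w) :=
      hasSum_sum fun k _ => ((s3 (Xm D X c k) _ b6).1).mul_left _
    have b8 : (fun i => tw D w ^ i * (f i).eval (w ^ (64 * D))) = fun i => ∑ k ∈ range (KK D + 2),
        w ^ (aa D * k) * (M.evF D ((M.dF D ^ i) (Xm D X c k)) * tw D w ^ i) := by
      funext i
      rw [hev, Finset.mul_sum]
      apply Finset.sum_congr rfl
      intro k _
      rw [aa, pow_mul w (64 * D) k]
      ring
    rw [b2, b8, b7.tsum_eq]
    exact hF w b1 hre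
  have key := IS58.jcore0 D hD (1 / (n1 D : ℝ)) (dd D) _ _ h (by positivity) (by linarith)
    (Jet_half hB) (by positivity) h0 h1 f hb hc l m (by omega)
  have hco : (f l).coeff m = M.evF D ((M.dF D ^ l) (Xm D X c m)) := by
    simp only [hf, finsetSum_coeff, coeff_monomial]
    rw [Finset.sum_ite_eq', if_pos (Finset.mem_range.2 (by omega))]
  rw [hco] at key
  have hn := Jet_num hB _ (by positivity) (Jet_Mx hB) l hl
  have he : Real.exp (h * m) * Real.exp (-h) ^ m = 1 := by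
    rw [← Real.exp_nat_mul, ← Real.exp_add]
    have : h * m + m * -h = 0 := by ring
    rw [this, Real.exp_zero]
  have k2 := mul_le_mul_of_nonneg_right key (pow_nonneg (Real.exp_pos (-h)).le m)
  rw [mul_assoc _ (Real.exp (h * m)), he, mul_one] at k2
  exact k2.trans hn

end Pool.Agent.IS
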