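import Pool.Agent.P.MP_f981b0_an.IS.Stmt
import Pool.Agent.P.MP_f981b0_an.IS72.Nod

set_option autoImplicit false

open Polynomial Finset
open scoped Real

namespace Pool.Agent.IS

open P.MP_f981b0_an.IS72 in
theorem p_Ker : S_Ker := by
  intro a N c ha4 hN
  have ha : 1 ≤ a := by omega
  have ha' : (4 : ℝ) ≤ a := by exact_mod_cast ha4
  set p : ℂ[X] := ∑ i ∈ range (2 * N + 1), monomial i (cf a N c i) with hp
  have hc : ∀ m, p.coeff m = if m ∈ range (2 * N + 1) then cf a N c m else 0 := by
    intro m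
    rw [hp, finsetSum_coeff]
    simp_rw [coeff_monomial]
    rw [Finset.sum_ite_eq']
  have hs : p.support ⊆ range (2 * N + 1) := by
    intro m hm
    by_contra h
    exact (mem_support_iff.mp hm) (by rw [hc, if_neg h])
  refine ⟨p, ?_, ?_, fun r ph hr1 hr2 => ?_⟩
  · refine le_trans (Finset.sum_le_sum_of_subset_of_nonneg hs fun _ _ _ => by positivity)
      (le_trans (le_of_eq (Finset.sum_congr rfl fun m hm => ?_)) (cf_sum a N hN c))
    rw [hc, if_pos hm, mul_comm]
  · refine le_trans (Finset.sum_le_sum_of_subset_of_nonneg hs fun _ _ _ => norm_nonneg _) ?_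
    refine (Finset.sum_le_card_nsmul _ _ 1 fun m hm => ?_).trans (by simp)
    rw [hc, if_pos hm]
    refine (cf_le a N ha c m).trans ?_
    rw [div_le_one (by positivity)]; linarith
  have hr0 : 0 < r := (Real.exp_pos _).trans_le hr1
  set s : ℂ := (Real.log r : ℂ) + ph * Complex.I with hsd
  have hw : (r : ℂ) * Complex.exp (ph * Complex.I) = Complex.exp s := by
    rw [hsd, Complex.exp_add, ← Complex.ofReal_exp, Real.exp_log hr0]
  have hre : s.re = Real.log r := by rw [hsd]; simp
  have him : s.im = ph := by rw [hsd]; simp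
  have hl0 : Real.log r ≤ 0 := Real.log_nonpos hr0.le hr2
  have hx : |s.re| ≤ 1 / (4 * a) := by
    rw [hre, abs_of_nonpos hl0]
    have := (Real.le_log_iff_exp_le hr0).mpr hr1
    linarith
  have he : p.eval (Complex.exp s) = Complex.exp s ^ N * chc a N c s := by
    rw [hp, eval_finsetSum, chc_eq, Finset.mul_sum]
    refine Finset.sum_congr rfl fun i _ => ?_
    have := exp_pow_shift N N i le_rfl s
    rw [Nat.sub_self, zero_add] at this
    rw [eval_monomial, this]; ring
  have hn : ‖Complex.exp s ^ N‖ ≤ 1 := by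
    rw [norm_pow, Complex.norm_exp, hre]
    exact pow_le_one₀ (Real.exp_pos _).le (Real.exp_le_one_iff.mpr hl0)
  have ht : tiny a N = (2 * N + 1) * Real.exp (-(N / (32 * (a : ℝ) ^ 2))) := by
    rw [tiny, neg_div]
  have e1 : π / (2 * a) = 2 * (π / (4 * a)) := by field_simp; ring
  have e2 : π / a = 4 * (π / (4 * a)) := by field_simp
  rw [hw, he, ← ht, e1, e2]
  refine ⟨fun h => ?_, fun h1 h2 => ?_⟩
  · rw [← mul_sub_one, norm_mul, norm_sub_rev]
    exact (mul_le_of_le_one_left (norm_nonneg _) hn).trans (chc_near a N ha c s hx (by rwa [him]))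
  · rw [norm_mul]
    exact (mul_le_of_le_one_left (norm_nonneg _) hn).trans
      (chc_far a N ha c s hx (by rwa [him]) (by rwa [him]))

end Pool.Agent.IS
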