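import Pool.Agent.P.MP_f981b0_an.IS.Stmt
import Pool.Agent.P.MP_f981b0_an.IS7.Sbp

/-! Summation by parts, the triangle inequality for `n2` and approximate log-convexity. -/

set_option autoImplicit false

open Polynomial Finset Filter Topology
open scoped Nat Real

noncomputable section

namespace Pool.Agent.IS

namespace LC_P

open Pool.Agent.P.MP_f981b0_an.IS7

theorem n2_nonneg (f : ℕ → ℂ) : 0 ≤ n2 f := Real.sqrt_nonneg _

theorem n2_sq (f : ℕ → ℂ) : n2 f ^ 2 = ∑' k, ‖f k‖ ^ 2 :=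
  Real.sq_sqrt (tsum_nonneg fun _ => sq_nonneg _)

theorem part (f : ℕ → ℂ) (hf : Summable fun k => ‖f k‖ ^ 2) (n : ℕ) :
    ∑ k ∈ range n, ‖f k‖ ^ 2 ≤ n2 f ^ 2 := by
  rw [n2_sq]; exact part_le _ hf n

theorem part' (f : ℕ → ℂ) (hf : Summable fun k => ‖f k‖ ^ 2) (n : ℕ) :
    ∑ k ∈ range n, ‖f (k + 1)‖ ^ 2 ≤ n2 f ^ 2 := by
  rw [n2_sq]; exact part_le' (fun k => ‖f k‖) hf n

theorem sm_add (f g : ℕ → ℂ) (hf : Summable fun k => ‖f k‖ ^ 2)
    (hg : Summable fun k => ‖g k‖ ^ 2) : Summable fun k => ‖f k + g k‖ ^ 2 := by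
  refine Summable.of_nonneg_of_le (fun _ => sq_nonneg _) (fun k => ?_)
    ((hf.add hg).mul_left 2)
  have h := norm_add_le (f k) (g k)
  have h2 : ‖f k + g k‖ ^ 2 ≤ (‖f k‖ + ‖g k‖) ^ 2 := pow_le_pow_left₀ (norm_nonneg _) h 2
  nlinarith [sq_nonneg (‖f k‖ - ‖g k‖)]

theorem sm_sub (f g : ℕ → ℂ) (hf : Summable fun k => ‖f k‖ ^ 2)
    (hg : Summable fun k => ‖g k‖ ^ 2) : Summable fun k => ‖f k - g k‖ ^ 2 := by
  have := sm_add f (fun k => -g k) hf (by simpa using hg)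
  simpa [sub_eq_add_neg] using this

theorem sm_shift (f : ℕ → ℂ) (hf : Summable fun k => ‖f k‖ ^ 2) :
    Summable fun k => ‖f (k + 1)‖ ^ 2 :=
  (summable_nat_add_iff (f := fun k => ‖f k‖ ^ 2) 1).2 hf

theorem to_zero (f : ℕ → ℂ) (hf : Summable fun k => ‖f k‖ ^ 2) :
    Tendsto (fun k => ‖f k‖) atTop (𝓝 0) := by
  have h := hf.tendsto_atTop_zero.sqrt
  simpa using h

theorem tri (f g : ℕ → ℂ) (hf : Summable fun k => ‖f k‖ ^ 2) (hg : Summable fun k => ‖g k‖ ^ 2) :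
    n2 (fun k => f k + g k) ≤ n2 f + n2 g := by
  have h0 : 0 ≤ n2 f + n2 g := add_nonneg (n2_nonneg f) (n2_nonneg g)
  refine (abs_le_of_sq_le_sq' ?_ h0).2
  rw [n2_sq]
  refine (sm_add f g hf hg).tsum_le_of_sum_range_le fun n => ?_
  have h1 := cs (fun k => ‖f k‖) (fun k => ‖g k‖) _ _ (n2_nonneg f) (n2_nonneg g) n
    (part f hf n) (part g hg n)
  have h2 : ∑ k ∈ range n, ‖f k + g k‖ ^ 2 ≤ ∑ k ∈ range n, ‖f k‖ ^ 2 +
      ∑ k ∈ range n, ‖g k‖ ^ 2 + 2 * ∑ k ∈ range n, ‖f k‖ * ‖g k‖ := by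
    rw [mul_sum, ← sum_add_distrib, ← sum_add_distrib]
    refine sum_le_sum fun k _ => ?_
    have h2 : ‖f k + g k‖ ^ 2 ≤ (‖f k‖ + ‖g k‖) ^ 2 :=
      pow_le_pow_left₀ (norm_nonneg _) (norm_add_le _ _) 2
    linarith
  have := part f hf n
  have := part g hg n
  nlinarith

theorem parts (b b' : ℕ → ℂ) (τ e : ℝ) (hτ : 0 < τ) (hb : Summable fun k => ‖b k‖ ^ 2)
    (hb' : Summable fun k => ‖b' k‖ ^ 2) (he : n2 (fun k => b' k - b' (k + 1) - (τ : ℂ) * b k) ≤ e) :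
    τ * n2 b ^ 2 ≤ ‖b 0‖ * ‖b' 0‖ + n2 (fun k => b k - b (k + 1)) * n2 b' + e * n2 b := by
  have e0 : 0 ≤ e := (n2_nonneg _).trans he
  have s1 : Summable fun k => ‖b k - b (k + 1)‖ ^ 2 := sm_sub _ _ hb (sm_shift b hb)
  have s2 : Summable fun k => ‖b' k - b' (k + 1) - (τ : ℂ) * b k‖ ^ 2 := by
    refine sm_sub _ _ (sm_sub _ _ hb' (sm_shift b' hb')) ?_
    simp only [norm_mul, mul_pow]
    exact hb.mul_left _
  have key : ∀ n, τ * ∑ k ∈ range n, ‖b k‖ ^ 2 ≤ ‖b 0‖ * ‖b' 0‖ +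
      n2 (fun k => b k - b (k + 1)) * n2 b' + e * n2 b + ‖b n‖ * ‖b' n‖ := by
    intro n
    have h3 := abel (fun k => (starRingEnd ℂ) (b k)) b' n
    have e1 : ((τ * ∑ k ∈ range n, ‖b k‖ ^ 2 : ℝ) : ℂ) =
        b' 0 * (starRingEnd ℂ) (b 0) - b' n * (starRingEnd ℂ) (b n) -
          ∑ k ∈ range n, b' (k + 1) * (starRingEnd ℂ) (b k - b (k + 1)) -
          ∑ k ∈ range n, (b' k - b' (k + 1) - (τ : ℂ) * b k) * (starRingEnd ℂ) (b k) := by
      simp only [map_sub]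
      rw [← h3, ← sum_sub_distrib, Complex.ofReal_mul, Complex.ofReal_sum, mul_sum]
      refine sum_congr rfl fun k _ => ?_
      rw [Complex.ofReal_pow, ← Complex.mul_conj']
      ring
    have m1 : ‖∑ k ∈ range n, b' (k + 1) * (starRingEnd ℂ) (b k - b (k + 1))‖ ≤
        n2 b' * n2 (fun k => b k - b (k + 1)) := by
      refine (norm_sum_le _ _).trans ?_
      simp only [norm_mul, Complex.norm_conj]
      exact cs _ _ _ _ (n2_nonneg _) (n2_nonneg _) n (part' b' hb' n) (part _ s1 n)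
    have m2 : ‖∑ k ∈ range n, (b' k - b' (k + 1) - (τ : ℂ) * b k) * (starRingEnd ℂ) (b k)‖ ≤
        e * n2 b := by
      refine (norm_sum_le _ _).trans ?_
      simp only [norm_mul, Complex.norm_conj]
      exact cs _ _ _ _ e0 (n2_nonneg _) n
        ((part _ s2 n).trans (pow_le_pow_left₀ (n2_nonneg _) he 2)) (part b hb n)
    have m3 : ∀ m, ‖b' m * (starRingEnd ℂ) (b m)‖ = ‖b m‖ * ‖b' m‖ := by
      intro m; rw [norm_mul, Complex.norm_conj, mul_comm]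
    have e2 : τ * ∑ k ∈ range n, ‖b k‖ ^ 2 = ‖((τ * ∑ k ∈ range n, ‖b k‖ ^ 2 : ℝ) : ℂ)‖ := by
      rw [Complex.norm_real,
        Real.norm_of_nonneg (mul_nonneg hτ.le (sum_nonneg fun _ _ => sq_nonneg _))]
    rw [e2, e1]
    refine (norm_sub_le _ _).trans ?_
    refine (add_le_add ((norm_sub_le _ _).trans (add_le_add ((norm_sub_le _ _).trans
      (add_le_add (m3 0).le (m3 n).le)) m1)) m2).trans (le_of_eq (by ring))
  have t1 : Tendsto (fun n => ‖b 0‖ * ‖b' 0‖ + n2 (fun k => b k - b (k + 1)) * n2 b' +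
      e * n2 b + ‖b n‖ * ‖b' n‖) atTop
      (𝓝 (‖b 0‖ * ‖b' 0‖ + n2 (fun k => b k - b (k + 1)) * n2 b' + e * n2 b + 0 * 0)) :=
    tendsto_const_nhds.add ((to_zero b hb).mul (to_zero b' hb'))
  have := le_of_tendsto_of_tendsto' (hb.hasSum.tendsto_sum_nat.const_mul τ) t1 key
  rw [n2_sq]
  simpa using this

theorem step {x y z θ r c : ℝ} (hy : 0 < y) (hz : 0 ≤ z) (hr : 0 ≤ r) (hxy : r * x ≤ y)
    (h : y ^ 2 ≤ x * z + θ) (hθ : θ ≤ c * y ^ 2) : r * (1 - c) * y ≤ z := by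
  have h1 : r * x * z ≤ y * z := mul_le_mul_of_nonneg_right hxy hz
  have h2 : r * ((1 - c) * y ^ 2) ≤ r * (x * z) := mul_le_mul_of_nonneg_left (by linarith) hr
  have h3 : y * (r * (1 - c) * y) ≤ y * z := by nlinarith
  exact le_of_mul_le_mul_left h3 hy

theorem logconv (d : ℕ → ℝ) (D D1 m : ℕ) (e0 : ℝ) (hc : LCc D D1 m e0) (h0 : ∀ l, 0 ≤ d l)
    (h1 : ∀ l ≤ D, d l ≤ 2 / (l ! : ℝ))
    (h2 : ∀ l, l + 2 ≤ D → d (l + 1) ^ 2 ≤ d l * d (l + 2) + th D ^ 4)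
    (i : ℕ) (hi : 1 ≤ i) (hi' : i ≤ D1 + 1) : d i ≤ e0 := by
  obtain ⟨ea, eb, -, hm, hD, hf, hθ⟩ := hc
  by_contra hcon
  push Not at hcon
  obtain ⟨i, rfl⟩ : ∃ j, i = j + 1 := ⟨i - 1, by omega⟩
  have mp : (0 : ℝ) < m := by exact_mod_cast hm
  have key : ∀ s, s ≤ m → e0 * (e0 / 4) ^ s ≤ d (i + s + 1) ∧
      e0 / 2 * (1 - s / (2 * (m : ℝ))) * d (i + s) ≤ d (i + s + 1) := by
    intro s
    induction s with
    | zero =>
      intro _
      have a1 := h1 i (by omega)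
      have a2 : (1 : ℝ) ≤ (i ! : ℝ) := by exact_mod_cast Nat.factorial_pos i
      have a3 : 2 / (i ! : ℝ) ≤ 2 := div_le_self (by norm_num) a2
      simp only [pow_zero, mul_one, add_zero, Nat.cast_zero, zero_div, sub_zero]
      exact ⟨hcon.le, by nlinarith⟩
    | succ s ih =>
      intro hs
      obtain ⟨i1, i2⟩ := ih (by omega)
      have sm : (s : ℝ) + 1 ≤ m := by exact_mod_cast hs
      have s0 : (0 : ℝ) ≤ s := Nat.cast_nonneg s
      have p0 : 0 < e0 * (e0 / 4) ^ m := by positivity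
      have p1 : e0 * (e0 / 4) ^ m ≤ e0 * (e0 / 4) ^ s :=
        mul_le_mul_of_nonneg_left (pow_le_pow_of_le_one (by positivity) (by linarith) (by omega))
          ea.le
      have y0 : 0 < d (i + s + 1) := lt_of_lt_of_le p0 (p1.trans i1)
      have q1 : (s : ℝ) / (2 * m) ≤ 1 / 2 := by
        rw [div_le_iff₀ (by positivity)]; linarith
      have q2 : ((s : ℝ) + 1) / (2 * m) ≤ 1 / 2 := by
        rw [div_le_iff₀ (by positivity)]; linarith
      have q3 : ((s : ℝ) + 1) / (2 * m) = s / (2 * m) + 1 / (2 * m) := by ring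
      have q4 : 0 ≤ (s : ℝ) / (2 * m) := by positivity
      have q5 : 0 ≤ (1 : ℝ) / (2 * m) := by positivity
      have t1 : th D ^ 4 ≤ 1 / (2 * (m : ℝ)) * d (i + s + 1) ^ 2 := by
        refine hθ.trans ?_
        rw [one_div, mul_comm _ (d (i + s + 1) ^ 2), ← div_eq_mul_inv]
        exact div_le_div_of_nonneg_right (pow_le_pow_left₀ p0.le (p1.trans i1) 2) (by positivity)
      have z := step y0 (h0 (i + s + 2)) (mul_nonneg (by linarith) (by linarith)) i2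
        (h2 (i + s) (by omega)) t1
      have r1 : e0 / 2 * (1 - ((s : ℝ) + 1) / (2 * m)) ≤
          e0 / 2 * (1 - s / (2 * (m : ℝ))) * (1 - 1 / (2 * (m : ℝ))) := by
        rw [q3, mul_assoc]
        exact mul_le_mul_of_nonneg_left (by nlinarith) (by linarith)
      have z2 : e0 / 2 * (1 - ((s : ℝ) + 1) / (2 * m)) * d (i + s + 1) ≤ d (i + s + 2) :=
        (mul_le_mul_of_nonneg_right r1 y0.le).trans z
      have r2 : e0 / 4 ≤ e0 / 2 * (1 - ((s : ℝ) + 1) / (2 * m)) := by nlinarith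
      refine ⟨?_, ?_⟩
      · calc e0 * (e0 / 4) ^ (s + 1) = e0 / 4 * (e0 * (e0 / 4) ^ s) := by ring
          _ ≤ e0 / 4 * d (i + s + 1) := mul_le_mul_of_nonneg_left i1 (by linarith)
          _ ≤ _ := (mul_le_mul_of_nonneg_right r2 y0.le).trans z2
      · push_cast; exact z2
  have a1 := (key m le_rfl).1
  have a2 := h1 (i + m + 1) (by omega)
  have a3 : (m ! : ℝ) ≤ ((i + m + 1)! : ℝ) := by
    exact_mod_cast Nat.factorial_le (by omega)
  have a4 : 2 / ((i + m + 1)! : ℝ) ≤ 2 / (m ! : ℝ) :=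
    div_le_div_of_nonneg_left (by norm_num) (by exact_mod_cast Nat.factorial_pos m) a3
  linarith

end LC_P

theorem p_LC : S_LC :=
  ⟨LC_P.parts, fun f g hf hg => ⟨LC_P.sm_add f g hf hg, LC_P.tri f g hf hg⟩, LC_P.logconv⟩

end Pool.Agent.IS
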