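import Pool.Agent.P.MP_f981b0_an.IS.Lev

/-!
Interface of the project IS, part 3: statements of the packages on general tools and on one level.
-/

set_option autoImplicit false

open Polynomial Finset Filter Topology
open scoped Nat Real

noncomputable section

namespace Pool.Agent.IS

/-! General tools. -/

/-- Power series resolvent: inverse, intertwining, invariance, (F4). -/
def S_Res : Prop :=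
  (∀ (B : Type) [NormedAddCommGroup B] [NormedSpace ℂ B] [CompleteSpace B]
    (A : B →L[ℂ] B) (Z : ℝ) (z : ℂ), Sm A Z → ‖z‖ ≤ Z →
      HasSum (fun l : ℕ => z ^ l • A ^ l) (res A z) ∧
      (1 - z • A) * res A z = 1 ∧ res A z * (1 - z • A) = 1 ∧ Commute (res A z) A ∧
      ∀ (y : B →L[ℂ] ℂ) (v : B), (∀ l : ℕ, y ((A ^ l) v) = 0) →
        ∀ l : ℕ, y ((A ^ l) (res A z v)) = 0) ∧
  (∀ (B B' : Type) [NormedAddCommGroup B] [NormedSpace ℂ B] [CompleteSpace B]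
    [NormedAddCommGroup B'] [NormedSpace ℂ B'] [CompleteSpace B']
    (A : B →L[ℂ] B) (A' : B' →L[ℂ] B') (S : B →L[ℂ] B') (Z : ℝ) (z : ℂ),
      Sm A Z → Sm A' Z → ‖z‖ ≤ Z → (∀ v, S (A v) = A' (S v)) →
      ∀ v, S (res A z v) = res A' z (S v)) ∧
  (∀ (B : Type) [NormedAddCommGroup B] [NormedSpace ℂ B] [CompleteSpace B]
    (A A0 : B →L[ℂ] B) (k Z : ℝ), (∀ l : ℕ, ‖A0 ^ l‖ ≤ 1 / (l ! : ℝ)) → ‖A - A0‖ ≤ k → 0 ≤ Z →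
      k * Z * Real.exp Z ≤ 1 / 2 →
      Sm A Z ∧ (∑' l : ℕ, Z ^ l * ‖A ^ l‖ ≤ 2 * Real.exp Z) ∧
      ∀ b : ℂ[X], (∀ l, ‖b.coeff l‖ ≤ Z ^ l) → ‖aeval A b‖ ≤ 2 * Real.exp Z)

/-- (A): almost accretive operators on a Hilbert space. -/
def S_Acc : Prop :=
  ∀ (H : Type) [NormedAddCommGroup H] [InnerProductSpace ℂ H] [CompleteSpace H]
    (A : H →L[ℂ] H) (k Z : ℝ), 0 ≤ k → (∀ v : H, -k * ‖v‖ ^ 2 ≤ (inner ℂ v (A v)).re) → Sm A Z →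
    (∀ t : ℂ, ‖t⁻¹‖ ≤ Z → t.re < -k → ‖res A t⁻¹‖ ≤ ‖t‖ / (-t.re - k)) ∧
    ∀ n : ℕ, 0 < n → (n : ℝ) ≤ Z → k ≤ 1 / (2 * (n : ℝ)) →
      ‖res A (-(n : ℂ))‖ ≤ 2 ∧ Wop A n = A * ((n : ℂ) • res A (-(n : ℂ))) ∧ ‖Wop A n‖ ≤ 1 ∧
      Commute (Wop A n) A ∧ (1 - Wop A n) * A = ((n : ℂ)⁻¹) • Wop A n ∧
      ∀ N : ℕ, ‖(1 - Wop A n ^ N) * A‖ ≤ (N : ℝ) / n

/-- Lagrange bound and Cauchy bound for coefficients of polynomials. -/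
def S_Lag : Prop :=
  (∀ (n : ℕ) (t : ℕ → ℂ) (R σ v : ℝ) (P : ℂ[X]), 0 < n → 0 < σ → σ ≤ R → P.degree < n →
    (∀ q < n, ‖t q‖ ≤ R) → (∀ q < n, ∀ q' < n, q ≠ q' → σ ≤ ‖t q - t q'‖) →
    (∀ q < n, ‖P.eval (t q)‖ ≤ v) → ∀ l : ℕ, ‖P.coeff l‖ * R ^ l ≤ n * v * (2 * R / σ) ^ n) ∧
  (∀ (P : ℂ[X]) (r v : ℝ), 0 < r → (∀ z : ℂ, ‖z‖ = r → ‖P.eval z‖ ≤ v) →
    ∀ m : ℕ, ‖P.coeff m‖ * r ^ m ≤ v)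

/-- (Prop). -/
def S_Prop : Prop :=
  ∀ (f : ℂ → ℂ) (Mx R r : ℝ) (p1 : ℂ) (n : ℕ), 0 < r → r < p1.re → ‖p1‖ + r < R →
    DifferentiableOn ℂ f {p : ℂ | -(1 / 2) < p.re ∧ ‖p‖ < R + 1} →
    (∀ p : ℂ, 0 ≤ p.re → ‖p‖ ≤ R → ‖f p‖ ≤ Mx) →
    (∀ p : ℂ, ‖p - p1‖ = r → ‖f p‖ ≤ Mx * ‖(p - p1) / (p + (starRingEnd ℂ) p1)‖ ^ n) →
    ∀ p : ℂ, 0 ≤ p.re → ‖p‖ ≤ R → r ≤ ‖p - p1‖ →
      ‖f p‖ ≤ Mx * ‖(p - p1) / (p + (starRingEnd ℂ) p1)‖ ^ n *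
        Real.exp (2 * n * p1.re * p.re / (R - ‖p1‖) ^ 2)

/-- (MM), minimum modulus on a circle. -/
def S_MM : Prop :=
  ∀ (f : ℂ → ℂ) (c z0 : ℂ) (Mx r A : ℝ), 0 < r → 0 < Mx → 1 ≤ A →
    DifferentiableOn ℂ f (Metric.closedBall c (128 * r)) →
    (∀ z ∈ Metric.closedBall c (128 * r), ‖f z‖ ≤ Mx) → ‖z0 - c‖ ≤ r →
    Mx * Real.exp (-A) ≤ ‖f z0‖ →
    ∃ r2 : ℝ, r ≤ r2 ∧ r2 ≤ 2 * r ∧ ∀ z : ℂ, ‖z - c‖ = r2 → Mx * Real.exp (-(12 * A)) ≤ ‖f z‖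

/-- The comparator on the rectangle. -/
def S_Strip : Prop :=
  ∀ (g : ℂ → ℂ) (La A S Y1 Y0 : ℝ), 0 ≤ A → 0 ≤ Y1 → Y1 ≤ Y0 → S ≤ Real.exp (Y0 - Y1) / 4 →
    DifferentiableOn ℂ g {p : ℂ | -(1 / 16) < p.re ∧ p.re < 1 / 4 ∧ |p.im| < Y0 + 1} →
    (∀ p : ℂ, p.re = 0 → |p.im| ≤ Y0 → ‖g p‖ ≤ Real.exp La) →
    (∀ p : ℂ, p.re = 1 / 8 → |p.im| ≤ Y0 → ‖g p‖ ≤ Real.exp (La + A * (1 + p.im ^ 2))) →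
    (∀ p : ℂ, 0 ≤ p.re → p.re ≤ 1 / 8 → |p.im| = Y0 → ‖g p‖ ≤ Real.exp (La + S)) →
    ∀ p : ℂ, 0 ≤ p.re → p.re ≤ 1 / 8 → |p.im| ≤ Y1 →
      ‖g p‖ ≤ Real.exp (La + 1 + 9 * A * p.re * (1 + p.im ^ 2))

/-- The smoothed arc indicator, multiplied by `w ^ N`. -/
def S_Ker : Prop :=
  ∀ (a N : ℕ) (c : ℝ), 4 ≤ a → 0 < N → ∃ ch : ℂ[X],
    (∑ m ∈ ch.support, |(m : ℝ) - N| * ‖ch.coeff m‖ ≤ N) ∧ l1 ch ≤ 2 * N + 1 ∧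
    ∀ r ph : ℝ, Real.exp (-(1 / (4 * (a : ℝ)))) ≤ r → r ≤ 1 →
      (|ph - c| ≤ π / (2 * a) →
        ‖ch.eval (r * Complex.exp (ph * Complex.I)) - (r * Complex.exp (ph * Complex.I)) ^ N‖ ≤
          (2 * N + 1) * Real.exp (-(N / (32 * (a : ℝ) ^ 2)))) ∧
      (π / a ≤ |ph - c| → |ph - c| ≤ 2 * π - π / a →
        ‖ch.eval (r * Complex.exp (ph * Complex.I))‖ ≤
          (2 * N + 1) * Real.exp (-(N / (32 * (a : ℝ) ^ 2))))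

/-- (Nod). -/
def S_Nod : Prop :=
  ∀ D : ℕ, Big D →
    (∀ q : ℤ, q ≠ 0 → |q| ≤ aa D → ∃ m : ℂ[X], l1 m ≤ rh D ∧ ∀ (ph : ℝ) (w : ℂ),
      w = r1 D * Complex.exp (ph * Complex.I) → |ph - π * q / aa D| ≤ π / (2 * aa D) →
      ‖(w ^ aa D) ^ L1 D * tw D w - m.eval (w ^ aa D)‖ ≤ Tn D) ∧
    ∃ m : ℂ[X], l1 m ≤ rh D ∧ ∀ (ph : ℝ) (w : ℂ),
      w = r1 D * Complex.exp (ph * Complex.I) → |ph| ≤ π / (2 * aa D) →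
      ‖(1 - w ^ aa D) * ((w ^ aa D) ^ L1 D * tw D w - m.eval (w ^ aa D)) -
        (tau D : ℂ) * (w ^ aa D) ^ L1 D‖ ≤ Tn D

/-- Summation by parts and approximate log-convexity. -/
def S_LC : Prop :=
  (∀ (b b' : ℕ → ℂ) (τ e : ℝ), 0 < τ → (Summable fun k => ‖b k‖ ^ 2) →
    (Summable fun k => ‖b' k‖ ^ 2) → n2 (fun k => b' k - b' (k + 1) - (τ : ℂ) * b k) ≤ e →
    τ * n2 b ^ 2 ≤ ‖b 0‖ * ‖b' 0‖ + n2 (fun k => b k - b (k + 1)) * n2 b' + e * n2 b) ∧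
  (∀ f g : ℕ → ℂ, (Summable fun k => ‖f k‖ ^ 2) → (Summable fun k => ‖g k‖ ^ 2) →
    (Summable fun k => ‖f k + g k‖ ^ 2) ∧ n2 (fun k => f k + g k) ≤ n2 f + n2 g) ∧
  (∀ (d : ℕ → ℝ) (D D1 m : ℕ) (e0 : ℝ), LCc D D1 m e0 → (∀ l, 0 ≤ d l) →
    (∀ l ≤ D, d l ≤ 2 / (l ! : ℝ)) →
    (∀ l, l + 2 ≤ D → d (l + 1) ^ 2 ≤ d l * d (l + 2) + th D ^ 4) →
    ∀ i, 1 ≤ i → i ≤ D1 + 1 → d i ≤ e0)

/-- Division by a contour integral. -/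
def S_Div : Prop :=
  ∀ (B B2 : Type) [NormedAddCommGroup B] [NormedSpace ℂ B] [CompleteSpace B]
    [NormedAddCommGroup B2] [NormedSpace ℂ B2] [CompleteSpace B2]
    (A : B →L[ℂ] B) (A2 : B2 →L[ℂ] B2) (i2 : B →L[ℂ] B2) (Z r : ℝ) (one x G : B)
    (f q : ℂ → ℂ) (rx rG : ℂ → B), 0 < r → r⁻¹ ≤ Z → Sm A2 Z → (∀ v, i2 (A v) = A2 (i2 v)) →
    ContinuousOn q (Metric.sphere 0 r) → ContinuousOn rx (Metric.sphere 0 r) →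
    DifferentiableOn ℂ rG (Metric.closedBall 0 r) → rG 0 = 0 →
    (∀ t : ℂ, ‖t‖ = r → x = f t • one - (rx t - t⁻¹ • A (rx t))) →
    (∀ t : ℂ, ‖t‖ = r → G = (q t * f t) • one - (rG t - t⁻¹ • A (rG t))) →
    HasSum (fun l : ℕ => Real.circleAverage (fun t => q t * t⁻¹ ^ l) 0 r • (A2 ^ l) (i2 x))
      (i2 (G - Real.circleAverage (fun t => q t • rx t) 0 r))

/-! One scale. -/

/-- Symbols on a scale. -/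
def S_Symb : Prop :=
  ∀ (M : Model) (D : ℕ) (k : ℝ), Adm D k →
    (∀ (g : E) (l : ℕ), ‖M.evS D k ((M.dS D k ^ l) g)‖ ≤ 2 * ((D : ℝ) + 1) * dd D ^ l * ‖g‖) ∧
    (∀ (g : E) (l : ℕ), g = ∑ i ∈ range l, M.evS D k ((M.dS D k ^ i) g) • (M.VS D k ^ i) M.one +
      (M.VS D k ^ l) ((M.dS D k ^ l) g)) ∧
    (∀ (g : E) (t : ℂ), ‖t‖ * dd D ≤ 1 / 2 →
      HasSum (fun l : ℕ => M.evS D k ((M.dS D k ^ l) g) * t ^ l) (sym (M.dS D k) (M.evS D k) g t) ∧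
      ‖sym (M.dS D k) (M.evS D k) g t‖ ≤ 4 * ((D : ℝ) + 1) * ‖g‖ ∧
      ‖rho (M.dS D k) g t‖ ≤ ‖g‖ ∧
      (t ≠ 0 → g = sym (M.dS D k) (M.evS D k) g t • M.one -
        (rho (M.dS D k) g t - t⁻¹ • M.VS D k (rho (M.dS D k) g t)))) ∧
    (∀ g : E, DifferentiableOn ℂ (sym (M.dS D k) (M.evS D k) g) (Metric.ball 0 (1 / dd D)) ∧
      DifferentiableOn ℂ (rho (M.dS D k) g) (Metric.ball 0 (1 / dd D)) ∧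
      rho (M.dS D k) g 0 = 0) ∧
    (∀ (g : ℂ[X]) (l : ℕ), M.evS D k ((M.dS D k ^ l) (aeval (M.VS D k) g M.one)) = g.coeff l) ∧
    (∀ (g : ℂ[X]) (t : ℂ), sym (M.dS D k) (M.evS D k) (aeval (M.VS D k) g M.one) t = g.eval t)

/-! One level. -/

def S_G1 : Prop := ∀ (M : Model) (D : ℕ), Big D → M.G1 D

def S_Y3 : Prop :=
  ∀ (M : Model) (D : ℕ) (y : E →L[ℂ] ℂ) (e' : ℝ), Big D → M.YH D y e' → M.Y3 D y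

/-- (G2). -/
def S_G2 : Prop :=
  ∀ (M : Model) (D : ℕ) (c : ℕ → E) (e : ℝ), Big D → 0 ≤ e →
    ∑ k ∈ range (KK D + 1), ‖c k‖ ^ 2 ≤ e ^ 2 →
    ‖M.JG D (M.lev D c)‖ ≤ th D ^ 2 / 2 * e ∧ ‖M.lev D c‖ ≤ 24 / th D ^ 17 * e

/-- The remainder identity for `W ^ N g`. -/
def S_RemW : Prop :=
  ∀ (M : Model) (D : ℕ) (N : ℕ) (g : E), Big D →
    (∀ t w : ℂ, t ≠ 0 → ‖t‖ ≤ 9 * tau D → t + 1 / (n1 D : ℂ) ≠ 0 → w = wt D t →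
      (M.W D ^ N) (M.j D g) = (w ^ N * sym (M.dF D) (M.evF D) g t) • M.one -
        (M.remW D N g t w - t⁻¹ • M.VG D (M.remW D N g t w))) ∧
    (∀ t w : ℂ, ‖t‖ ≤ 9 * tau D → ‖w‖ ≤ 1 → ‖M.remW D N g t w‖ ≤ (2 * N + 1) * ‖g‖ ∧
      ∀ y : E →L[ℂ] ℂ, M.Y3 D y → ∀ i : ℕ, ‖y ((M.VG D ^ i) (M.remW D N g t w))‖ ≤
        (2 * N + 1) * Real.exp (Lam D - 100 * D) * ‖g‖) ∧
    DifferentiableOn ℂ (fun t => M.remW D N g t (wt D t)) (Metric.ball 0 (1 / (2 * (n1 D : ℝ)))) ∧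
    M.remW D N g 0 (wt D 0) = 0

/-- The symbol and the remainder of `x'`. -/
def S_Rem : Prop :=
  ∀ (M : Model) (D : ℕ) (X : E) (c : ℕ → E) (e x0 : ℝ), Big D → M.XH D X c e x0 →
    (∀ m, ‖Xm D X c m‖ ≤ 2 ^ (7 * D + 2)) ∧
    (∀ t w : ℂ, ‖t‖ ≤ 9 * tau D → ‖w‖ ≤ 1 → ‖M.Ft D X c t w‖ ≤ MF D) ∧
    (∀ p : ℂ, 0 ≤ p.re → ‖p‖ ≤ 16 * (aa D : ℝ) → ‖M.Ff D X c p‖ ≤ MF D) ∧
    DifferentiableOn ℂ (M.Ff D X c) {p : ℂ | -(1 / 2) < p.re ∧ ‖p‖ < 16 * (aa D : ℝ) + 1} ∧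
    (∀ t w : ℂ, t ≠ 0 → ‖t‖ ≤ 9 * tau D → t + 1 / (n1 D : ℂ) ≠ 0 → w = wt D t →
      M.xp D X c = M.Ft D X c t w • M.one -
        (M.rem D X c t w - t⁻¹ • M.VG D (M.rem D X c t w))) ∧
    (∀ t w : ℂ, ‖t‖ ≤ 9 * tau D → ‖w‖ ≤ 1 → ‖M.rem D X c t w‖ ≤ Real.exp (Lam D) ∧
      ∀ y : E →L[ℂ] ℂ, M.Y3 D y → ∀ i : ℕ,
        ‖y ((M.VG D ^ i) (M.rem D X c t w))‖ ≤ Real.exp (Lam D) / 2) ∧
    ContinuousOn (fun t => M.rem D X c t (wt D t)) (Metric.ball 0 (1 / (2 * (n1 D : ℝ)))) ∧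
    ContinuousOn (fun t => M.Ft D X c t (wt D t)) (Metric.ball 0 (1 / (2 * (n1 D : ℝ))))

/-- The function `yh`. -/
def S_Yh : Prop :=
  ∀ (M : Model) (D : ℕ) (y : E →L[ℂ] ℂ) (e' : ℝ), Big D → M.YH D y e' →
    (∀ w : ℂ, 1 / 2 ≤ ‖w‖ → ‖M.yh D y w‖ ≤ Real.exp (Lam D) * max 1 (‖w‖⁻¹ ^ (aa D * KK D))) ∧
    DifferentiableOn ℂ (M.yh D y) {w : ℂ | 1 / 4 < ‖w‖} ∧
    (∀ r : ℝ, 1 / 4 < r →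
      Summable fun N : ℕ => ‖M.nu D y N - M.nu D y (N + 1)‖ * r⁻¹ ^ N) ∧
    ∀ t : ℂ, t ≠ 0 → ‖t⁻¹‖ ≤ 3 * (n1 D : ℝ) → t + 1 / (n1 D : ℂ) ≠ 0 → 1 / 2 ≤ ‖wt D t‖ →
      M.yh D y (wt D t) = y (res (M.VG D) t⁻¹ M.one)

/-- (B2). -/
def S_B2 : Prop :=
  ∀ (M : Model) (D : ℕ) (y : E →L[ℂ] ℂ) (X : E) (c : ℕ → E) (e e' x0 : ℝ), Big D →
    M.YH D y e' → M.XH D X c e x0 → M.RH D y (M.xp D X c) →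
    ∀ p : ℂ, 0 ≤ p.re → p.re ≤ 1 / 4 → |p.im| ≤ 4 * (aa D : ℝ) + 1 →
      ‖M.Ff D X c p * M.yh D y (wp p)‖ ≤ Real.exp (Lam D)

/-- Lemma J, first half: small symbol gives small jets. -/
def S_Jet : Prop :=
  ∀ (M : Model) (D : ℕ) (X : E) (c : ℕ → E) (e x0 h : ℝ), Big D → M.XH D X c e x0 →
    0 ≤ h → h ≤ 1 →
    (∀ w : ℂ, ‖w‖ = Real.exp (-(h / aa D)) → w.re ≤ 0 →
      ‖M.Ft D X c (tw D w) w‖ ≤ MF D * tau D ^ (16 * D)) →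
    ∀ l ≤ 8 * D, ∀ m ≤ KK D + 1, ‖M.evF D ((M.dF D ^ l) (Xm D X c m))‖ * Real.exp (-h) ^ m ≤
      MF D * tau D ^ (4 * D)

/-- Lemma J. -/
def S_LemJ : Prop :=
  ∀ (M : Model) (D : ℕ) (X : E) (c : ℕ → E) (e x0 : ℝ), Big D → M.XH D X c e x0 →
    ∃ h : ℝ, 0 < h ∧ h ≤ 1 ∧ ∃ w : ℂ, ‖w‖ = Real.exp (-(h / aa D)) ∧ w.re ≤ 0 ∧
      MF D * Real.exp (-(ss D e x0 * h)) < ‖M.Ft D X c (tw D w) w‖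

/-- The bound for `yh` on the line `re p = 1 / 8`. -/
def S_Line : Prop :=
  ∀ (M : Model) (D : ℕ) (y : E →L[ℂ] ℂ) (X : E) (c : ℕ → E) (e e' x0 : ℝ), Big D →
    M.YH D y e' → M.XH D X c e x0 → M.RH D y (M.xp D X c) →
    ∀ p : ℂ, p.re = 1 / 8 → |p.im| ≤ 4 * (aa D : ℝ) →
      ‖M.yh D y (wp p)‖ ≤ Real.exp (Lam D + 12000 * aa D * ss D e x0 * (1 + p.im ^ 2))

/-- (Gr). -/
def S_Gr : Prop :=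
  ∀ (M : Model) (D : ℕ) (y : E →L[ℂ] ℂ) (X : E) (c : ℕ → E) (e e' x0 : ℝ), Big D →
    M.YH D y e' → M.XH D X c e x0 → M.RH D y (M.xp D X c) → M.GrH D y (ss D e x0)

/-- (Avg). -/
def S_Avg : Prop :=
  ∀ (M : Model) (D : ℕ) (y : E →L[ℂ] ℂ) (e' : ℝ), Big D → M.YH D y e' →
    M.Sy D y M.one (fun _ => 1) ∧
    (∀ v v' f f', M.Sy D y v f → M.Sy D y v' f' → M.Sy D y (v + v') (fun w => f w + f' w)) ∧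
    (∀ (a : ℂ) v f, M.Sy D y v f → M.Sy D y (a • v) (fun w => a * f w)) ∧
    (∀ v f, M.Sy D y v f → M.Sy D y (M.W D v) (fun w => w * f w)) ∧
    (∀ v f, M.Sy D y v f → M.Sy D y (M.VG D v) (fun w => tw D w * f w))

/-- (Rel). -/
def S_Rel : Prop :=
  ∀ (M : Model) (D : ℕ) (y : E →L[ℂ] ℂ) (e' s : ℝ), Big D → M.YH D y e' → M.GrH D y s → 0 ≤ s →
    ∀ jj : ℕ, jj ≤ D → ∃ (m0 : ℂ[X]) (ms : List ℂ[X]), l1 m0 ≤ rh D ∧ (∀ m ∈ ms, l1 m ≤ rh D) ∧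
      ms.length = 2 * jj ∧ ∀ g : ℂ[X], g.natDegree ≤ D → ∀ k : ℕ, kj D s jj ≤ k →
        ‖y ((M.u D ^ k) (M.Pr D m0 (M.prodF D ms (aeval (M.VG D) g M.one))))‖ ≤
          Real.exp (-(2 ^ D)) * Real.exp (-(eta D * (k - kj D s jj))) * ‖aeval M.V g M.one‖

/-- (Per-k). -/
def S_PerK : Prop :=
  ∀ (M : Model) (D : ℕ) (y : E →L[ℂ] ℂ) (e' s : ℝ), Big D → M.YH D y e' → M.GrH D y s → 0 ≤ s →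
    ∀ (jj : ℕ) (h : ℂ[X]) (k : ℕ), 2 * jj + 1 ≤ D → h.natDegree ≤ D → X ^ (2 * jj + 1) ∣ h →
      ((2 * jj + 1) * L1 D : ℝ) + kj D s jj ≤ k →
      ‖y (M.su D k (aeval (M.VG D) h M.one))‖ ≤
        2 ^ 44 * (D : ℝ) ^ 6 * th D ^ 16 * ‖aeval M.V h M.one‖

/-- (C1). -/
def S_C1 : Prop :=
  ∀ (M : Model) (D : ℕ) (y : E →L[ℂ] ℂ) (e' s : ℝ), Big D → M.YH D y e' → M.GrH D y s → 0 ≤ s →
    ∀ f : ℂ[X], f.natDegree ≤ D / 4 →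
      ‖y ((1 - M.u D ^ k0 D) (aeval (M.VG D) (X ^ 5 * f) M.one))‖ ≤
        (e' * del D * √(2 ^ 67 * s) + 1 / (D : ℝ) ^ 3) * ‖aeval M.V f M.one‖

/-- (C2), the inequalities for `d_l`. -/
def S_C2 : Prop :=
  ∀ (M : Model) (D : ℕ) (y : E →L[ℂ] ℂ) (e' s : ℝ), Big D → M.YH D y e' → M.GrH D y s → 0 ≤ s →
    s ≤ 360 * (D : ℝ) ^ 2 / del D ^ 2 →
    (∀ l ≤ D, M.dseq D y l ≤ 2 / (l ! : ℝ)) ∧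
    ∀ l, l + 2 ≤ D → M.dseq D y (l + 1) ^ 2 ≤ M.dseq D y l * M.dseq D y (l + 2) + th D ^ 4

/-- What the later levels give: (RH) and the shift bound. -/
def S_Tail : Prop :=
  ∀ (M : Model) (D : ℕ) (y : E →L[ℂ] ℂ) (x ch : E), Big D → ‖y‖ ≤ mu D → ‖ch‖ ≤ 1 →
    ∀ (H : Type) [NormedAddCommGroup H] [InnerProductSpace ℂ H] [CompleteSpace H]
      (A : H →L[ℂ] H) (et xi : H), ‖et‖ ≤ 1 → ‖xi‖ ≤ 1 → ‖A‖ ≤ 1 → Sm A (3 * n1 D) →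
      (∀ v : H, -(kG D) * ‖v‖ ^ 2 ≤ (inner ℂ v (A v)).re) →
      (∀ l : ℕ, y ((M.VG D ^ l) (x + ((mu D : ℂ)⁻¹) • ch)) + inner ℂ et ((A ^ l) xi) = 0) →
      M.RH D y x ∧ ∀ (b : ℂ[X]) (β : ℝ), ‖aeval A b‖ ≤ β → ‖aeval (M.VG D) b‖ ≤ β →
        ‖y ((1 - M.u D ^ k0 D) (aeval (M.VG D) (X ^ 5 * b) x))‖ ≤ 2 * th D ^ 5 * β

/-- The natural term. -/
def S_Nat : Prop :=
  ∀ (M : Model) (D D1 : ℕ) (y : E →L[ℂ] ℂ) (c : ℕ → E) (e' e0 β : ℝ) (b : ℂ[X]), Big D →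
    M.YH D y e' → ∑ k ∈ range (KK D + 1), ‖c k‖ ^ 2 ≤ 1 → 1 ≤ D1 → D1 + 1 ≤ D → 0 ≤ e0 →
    (∀ i, 1 ≤ i → i ≤ D1 + 1 → M.dseq D y i ≤ e0) → ‖aeval (M.VF D) b‖ ≤ β →
    ‖y ((M.u D ^ k0 D) (aeval (M.VG D) (X ^ 5 * b) (M.lev D c)))‖ ≤
      β * (2 * (1 / (D1 : ℝ) + kap D) + ((D1 : ℝ) + 1) * M.A D1 * e0)

/-- The `chi` term and the `Psi` term. -/
def S_Psi : Prop :=
  (∀ (M : Model) (D D1 : ℕ) (y : E →L[ℂ] ℂ) (ch : E) (B β : ℝ) (b : ℂ[X]), Big D →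
    ‖y‖ ≤ mu D → ‖ch‖ ≤ 1 → 1 ≤ D1 → D1 + 1 ≤ D → 0 ≤ B → ‖aeval (M.VG D) b‖ ≤ β →
    (∀ g : ℂ[X], g.natDegree ≤ D1 + 1 →
      ‖y (aeval (M.VG D) g M.one)‖ ≤ B * ((D1 + 1)! : ℝ) * ‖aeval M.V g M.one‖) →
    ‖y (aeval (M.VG D) (X ^ 5 * b) (((mu D : ℂ)⁻¹) • ch))‖ ≤
      β * (1 / (D1 : ℝ) + kap D + B * ((D1 + 1)! : ℝ) / mu D)) ∧
  (∀ (M : Model) (D : ℕ) (y : E →L[ℂ] ℂ) (X8 : E) (e e' x0 β : ℝ) (b : ℂ[X]), Big D →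
    M.YH D y e' → M.GrH D y (ss D e x0) → 0 ≤ e → 0 < x0 → ‖X8‖ ≤ D →
    ‖aeval (M.V8 D) b‖ ≤ β →
    ‖y ((1 - M.u D ^ k0 D) (aeval (M.VG D) (X ^ 5 * b) (M.j D (M.i8 D X8))))‖ ≤
      2 ^ 40 * (e * e' / x0) * ‖aeval M.V b (M.JF D (M.i8 D X8))‖ + 3 * β / D)

/-- The level step. -/
def S_Step : Prop :=
  ∀ (M : Model) (D D1 m : ℕ) (y : E →L[ℂ] ℂ) (X8 ch : E) (c : ℕ → E) (e e' x0 e0 B β : ℝ)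
    (b : ℂ[X]), Big D → M.YH D y e' → M.XH D (M.i8 D X8) c e x0 → ‖X8‖ ≤ D → ‖ch‖ ≤ 1 →
    LCc D D1 m e0 → 0 ≤ B → M.RH D y (M.xp D (M.i8 D X8) c) →
    ‖y ((1 - M.u D ^ k0 D) (aeval (M.VG D) (X ^ 5 * b) (M.xp D (M.i8 D X8) c)))‖ ≤
      2 * th D ^ 5 * β →
    ‖aeval (M.V8 D) b‖ ≤ β → ‖aeval (M.VF D) b‖ ≤ β → ‖aeval (M.VG D) b‖ ≤ β →
    (∀ g : ℂ[X], g.natDegree ≤ D1 + 1 →
      ‖y (aeval (M.VG D) g M.one)‖ ≤ B * ((D1 + 1)! : ℝ) * ‖aeval M.V g M.one‖) →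
    ‖y (aeval (M.VG D) (X ^ 5 * b) (M.lev D c + ((mu D : ℂ)⁻¹) • ch))‖ ≤
      2 ^ 40 * (e * e' / x0) * ‖aeval M.V b (M.JF D (M.i8 D X8))‖ + gam M D D1 e0 B β

/-- The circle on which the full symbol is not small. -/
def S_Circ : Prop :=
  ∀ (M : Model) (D : ℕ) (X ch : E) (c : ℕ → E) (e x0 : ℝ), Big D → M.XH D X c e x0 → ‖ch‖ ≤ 1 →
    ∃ r : ℝ, (ZZ D)⁻¹ ≤ r ∧ r ≤ 2 * (ZZ D)⁻¹ ∧ ∀ t : ℂ, ‖t‖ = r →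
      Real.exp (-(36 * (2 * aa D * ss D e x0 + 1) * Real.log (n1 D))) / 2 ≤
        ‖M.Ft D X c t (wt D t) + ((mu D : ℂ)⁻¹) * sym (M.dG D) (M.evG D) ch t‖

/-- The dividing polynomial. -/
def S_End : Prop :=
  ∀ (M : Model) (D : ℕ) (y : E →L[ℂ] ℂ) (X ch : E) (c : ℕ → E) (e e' x0 : ℝ) (g0 : ℂ[X]),
    Big D → M.YH D y e' → M.XH D X c e x0 → ‖ch‖ ≤ 1 → g0.natDegree + 5 ≤ D →
    ‖aeval M.V g0 M.one‖ ≤ D →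
    ∀ (A2 i2 : E →L[ℂ] E) (y2 : E →L[ℂ] ℂ), Sm A2 (ZZ D) → (∀ v, i2 (M.VG D v) = A2 (i2 v)) →
      (∀ v, y2 (i2 v) = y v) →
      ∃ b : ℂ[X], (∀ l, ‖b.coeff l‖ ≤ ZZ D ^ l) ∧
        ‖y (aeval (M.VG D) (Polynomial.X ^ 5 * b) (M.xp D X c + ((mu D : ℂ)⁻¹) • ch)) -
          y (aeval (M.VG D) (Polynomial.X ^ 5 * g0) M.one)‖ ≤
            1 / 8 + (160 * e / x0 + 2 / D) * ‖aeval M.V g0 M.one‖ ∧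
        ‖aeval M.V b (M.JG D (M.xp D X c + ((mu D : ℂ)⁻¹) • ch))‖ ≤ ‖aeval M.V g0 M.one‖ + 1

end Pool.Agent.IS
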