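import Pool.Agent.P.MP_f981b0_an.IS58.JCore
import Pool.Agent.P.MP_f981b0_an.IS.Stmt

/-!
Package Lag.
-/

set_option autoImplicit false

open Polynomial

namespace Pool.Agent.IS

theorem p_Lag : S_Lag := by
  refine ⟨?_, ?_⟩
  · intro n t R σ v P hn hσ hσR hP ht hsep hv l
    have hR : 0 < R := lt_of_lt_of_le hσ hσR
    have hv0 : 0 ≤ v := (norm_nonneg _).trans (hv 0 hn)
    have h := IS58.lagr (Finset.range n) t R σ v hR hσ hv0
      (fun i hi => ht i (Finset.mem_range.1 hi))
      (fun i hi j hj hij => hsep i (Finset.mem_range.1 hi) j (Finset.mem_range.1 hj) hij)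
      P (by rw [Finset.card_range]; exact hP)
      (fun i hi => hv i (Finset.mem_range.1 hi)) l
    rw [Finset.card_range, le_div_iff₀ (pow_pos hR l)] at h
    have h1 : (1 : ℝ) ≤ 2 * R / σ := by
      rw [le_div_iff₀ hσ]
      linarith
    have h2 : (2 * R / σ) ^ (n - 1) ≤ (2 * R / σ) ^ n := pow_le_pow_right₀ h1 (Nat.sub_le n 1)
    exact h.trans (mul_le_mul_of_nonneg_left h2 (mul_nonneg (Nat.cast_nonneg n) hv0))
  · intro P r v hr hb m
    have h := IS58.cauchy P r v hr hb m
    rwa [le_div_iff₀ (pow_pos hr m)] at h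

end Pool.Agent.IS
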