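import Pool.Agent.P.MP_f981b0_an.IS.Stmt

/-! Lemma J: the symbol is not small everywhere on the left arc. -/

set_option autoImplicit false

open Polynomial Finset Filter Topology
open scoped Nat Real

noncomputable section

namespace Pool.Agent.IS

theorem LemJ_exp (n : ℕ) : Real.exp (-((n : ℝ) * Real.log 2)) = (1 / 2) ^ n := by
  rw [Real.exp_neg, Real.exp_nat_mul, Real.exp_log (by norm_num), one_div, inv_pow]

theorem LemJ_tau (D k : ℕ) : tau D ^ k = (1 / 2) ^ (20 * D * k) := by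
  unfold tau th; rw [← pow_mul, ← pow_mul]; congr 1; ring

theorem LemJ_sum (D : ℕ) (X : E) (c : ℕ → E) (m : ℕ) :
    ∑ i ∈ range (m + 1), Xm D X c i = X + ((del D : ℂ)⁻¹) • c m := by
  induction m with
  | zero => simp [Xm]
  | succ m ih =>
    rw [sum_range_succ, ih, Xm, if_neg (Nat.succ_ne_zero m), Nat.add_sub_cancel, smul_sub]
    abel

theorem LemJ_th_le (D : ℕ) : th D ≤ 1 := pow_le_one₀ (by norm_num) (by norm_num)

theorem LemJ_delinv (D : ℕ) : (del D)⁻¹ = ((2 : ℝ) ^ D) ^ 7 := by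
  unfold del th; rw [one_div, inv_pow, inv_pow, inv_inv]

theorem LemJ_del_pos (D : ℕ) : 0 < del D := pow_pos (th_pos D) 7

theorem LemJ_small {D : ℕ} (hD : Big D) : 8192 * (D : ℝ) ^ 2 * th D ≤ 1 := by
  have h1 := hD.num'
  have hD1 : (1 : ℝ) ≤ D := by exact_mod_cast (by have := hD.1; omega : 1 ≤ D)
  have h2 : (D : ℝ) ^ 2 ≤ (D : ℝ) ^ 40 := pow_le_pow_right₀ hD1 (by norm_num)
  have h3 : (8192 : ℝ) ≤ 2 ^ 200 := by norm_num
  have h4 := th_pos D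
  calc 8192 * (D : ℝ) ^ 2 * th D = (D : ℝ) ^ 2 * 8192 * th D := by ring
    _ ≤ (D : ℝ) ^ 40 * 2 ^ 200 * th D := by gcongr
    _ ≤ 1 := h1

theorem LemJ_D_le {D : ℕ} (hD : Big D) : 8192 * (D : ℝ) ^ 2 ≤ 2 ^ D := by
  have h1 := LemJ_small hD
  have h2 := th_inv D
  have h3 : (0 : ℝ) < 2 ^ D := by positivity
  nlinarith

/-- The first error term. -/
theorem LemJ_n1 {D : ℕ} (hD : Big D) :
    ((8 * D : ℕ) : ℝ) * (((KK D : ℝ) + 1) * (MF D * tau D ^ (2 * D))) ≤ 1 / (4 * (D : ℝ)) := by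
  have hD0 : (0 : ℝ) < D := by exact_mod_cast (by have := hD.1; omega : 0 < D)
  have h1 : tau D ^ (2 * D) ≤ th D ^ 51 := by
    unfold tau
    rw [← pow_mul]
    exact pow_le_pow_of_le_one (th_pos D).le (LemJ_th_le D) (by have := hD.1; omega)
  have h2 : (KK D : ℝ) = 128 * ((2 : ℝ) ^ D) ^ 20 := by
    unfold KK; push_cast; rw [← pow_mul, mul_comm D 20]
  have h3 : MF D = ((2 : ℝ) ^ D) ^ 30 := by unfold MF; rw [← pow_mul, mul_comm D 30]
  have h4 := th_inv D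
  have h5 := LemJ_small hD
  have h6 := th_pos D
  have h7 : (1 : ℝ) ≤ 2 ^ D := one_le_pow₀ (by norm_num)
  rw [h2, h3]
  generalize (2 : ℝ) ^ D = x at h4 h7
  have h8 : (1 : ℝ) ≤ x ^ 20 := one_le_pow₀ h7
  have h9 : x ^ 50 * th D ^ 50 = 1 := by rw [← mul_pow, h4, one_pow]
  calc ((8 * D : ℕ) : ℝ) * ((128 * x ^ 20 + 1) * (x ^ 30 * tau D ^ (2 * D)))
      ≤ ((8 * D : ℕ) : ℝ) * ((256 * x ^ 20) * (x ^ 30 * th D ^ 51)) := by
        have : 0 ≤ tau D ^ (2 * D) := by unfold tau; positivity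
        gcongr; linarith
    _ = 2048 * D * th D * (x ^ 50 * th D ^ 50) := by push_cast; ring
    _ = 2048 * D * th D := by rw [h9, mul_one]
    _ ≤ 1 / (4 * (D : ℝ)) := by rw [le_div_iff₀ (by positivity)]; nlinarith

/-- The second error term. -/
theorem LemJ_n2 {D : ℕ} (hD : Big D) :
    (1 / 7 : ℝ) ^ (8 * D) * (2 * ((D : ℝ) + 1) * 32 ^ D) * (2 * ((2 : ℝ) ^ D) ^ 7) ≤
      1 / (4 * (D : ℝ)) := by
  have hD1 : (1 : ℝ) ≤ D := by exact_mod_cast (by have := hD.1; omega : 1 ≤ D)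
  have h1 : (1 / 7 : ℝ) ^ (8 * D) * 32 ^ D * ((2 : ℝ) ^ D) ^ 7 ≤ th D := by
    rw [pow_mul, ← pow_mul (2 : ℝ) D 7, mul_comm D 7, pow_mul, ← mul_pow, ← mul_pow]
    exact pow_le_pow_left₀ (by positivity) (by norm_num) D
  have h5 := LemJ_small hD
  have h6 := th_pos D
  calc (1 / 7 : ℝ) ^ (8 * D) * (2 * ((D : ℝ) + 1) * 32 ^ D) * (2 * ((2 : ℝ) ^ D) ^ 7)
      = 4 * ((D : ℝ) + 1) * ((1 / 7 : ℝ) ^ (8 * D) * 32 ^ D * ((2 : ℝ) ^ D) ^ 7) := by ring
    _ ≤ 4 * (2 * (D : ℝ)) * th D := by gcongr; linarith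
    _ ≤ 1 / (4 * (D : ℝ)) := by
      rw [le_div_iff₀ (by positivity)]
      have : 0 ≤ (D : ℝ) ^ 2 * th D := by positivity
      nlinarith

theorem LemJ_ss_le {D : ℕ} (hD : Big D) {e x0 : ℝ} (he0 : 0 ≤ e) (he1 : e ≤ 1)
    (hx : 1 / (D : ℝ) ≤ x0) : ss D e x0 / 8 ≤ KK D := by
  have hD0 : (0 : ℝ) < D := by exact_mod_cast (by have := hD.1; omega : 0 < D)
  have hx0 : 0 < x0 := lt_of_lt_of_le (by positivity) hx
  have hdel := LemJ_del_pos D
  have h2 : (KK D : ℝ) = 128 * ((2 : ℝ) ^ D) ^ 20 := by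
    unfold KK; push_cast; rw [← pow_mul, mul_comm D 20]
  have h3 : x0⁻¹ ≤ D := by
    rw [inv_le_comm₀ hx0 hD0]; rwa [one_div] at hx
  have h4 : 40 * e ^ 2 / (del D * x0) ^ 2 ≤ 40 * (((2 : ℝ) ^ D) ^ 7 * D) ^ 2 := by
    rw [← LemJ_delinv, div_eq_mul_inv, ← inv_pow, mul_inv]
    have : e ^ 2 ≤ 1 := pow_le_one₀ he0 he1
    calc 40 * e ^ 2 * ((del D)⁻¹ * x0⁻¹) ^ 2 ≤ 40 * 1 * ((del D)⁻¹ * D) ^ 2 := by gcongr
      _ = _ := by ring
  have h5 := LemJ_D_le hD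
  have h7 : (1 : ℝ) ≤ 2 ^ D := one_le_pow₀ (by norm_num)
  unfold ss
  rw [h2]
  generalize (2 : ℝ) ^ D = x at h4 h5 h7
  have h8 : (D : ℝ) ^ 2 ≤ x := by nlinarith [sq_nonneg (D : ℝ)]
  have h9 : (x ^ 7 * D) ^ 2 ≤ x ^ 20 := by
    calc (x ^ 7 * D) ^ 2 = x ^ 14 * (D : ℝ) ^ 2 := by ring
      _ ≤ x ^ 14 * x := by gcongr
      _ = x ^ 15 := by ring
      _ ≤ x ^ 20 := pow_le_pow_right₀ h7 (by norm_num)
  have h10 : x ≤ x ^ 20 := le_self_pow₀ h7 (by norm_num)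
  nlinarith

/-- A vector with small jets is small in `Y`. -/
theorem LemJ_flat (h2 : S_Symb) (M : Model) {D : ℕ} (g1 : M.G1 D) (v : E) (b : ℝ)
    (hb : ∀ l ≤ 8 * D, ‖M.evF D ((M.dF D ^ l) v)‖ ≤ b) :
    ‖M.JF D v‖ ≤ ((8 * D : ℕ) : ℝ) * b +
      (1 / 7 : ℝ) ^ (8 * D) * (2 * ((D : ℝ) + 1) * 32 ^ D) * ‖v‖ := by
  have e1 := (h2 M D (kap D) g1.admF).2.1 v (8 * D)
  have e2 := M.F5 D (kap D) g1.admF g1.kapD.ge (8 * D) v
  have hb0 : 0 ≤ b := (norm_nonneg _).trans (hb 0 (Nat.zero_le _))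
  have e3 : ∀ i : ℕ, ‖M.JS D (kap D) ((M.VS D (kap D) ^ i) M.one)‖ ≤ 1 := by
    intro i
    have a1 : ‖M.VS D (kap D) ^ i‖ ≤ 1 := by
      rcases Nat.eq_zero_or_pos i with rfl | hi
      · rw [pow_zero]; exact ContinuousLinearMap.norm_id_le
      · exact (norm_pow_le' _ hi).trans (pow_le_one₀ (norm_nonneg _) g1.VF_norm)
    have a2 : ‖(M.VS D (kap D) ^ i) M.one‖ ≤ 1 := by
      have := ContinuousLinearMap.le_of_opNorm_le _ a1 M.one
      rwa [M.one_norm, mul_one] at this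
    have := ContinuousLinearMap.le_of_opNorm_le _ (M.J_norm D (kap D) g1.admF)
      ((M.VS D (kap D) ^ i) M.one)
    linarith
  unfold Model.JF
  conv_lhs => rw [e1, map_add, map_sum]
  refine (norm_add_le _ _).trans (add_le_add ?_ e2)
  refine (norm_sum_le _ _).trans ?_
  calc _ ≤ ∑ _i ∈ range (8 * D), b := by
        refine sum_le_sum fun i hi => ?_
        rw [map_smul, norm_smul]
        have := hb i (mem_range.1 hi).le
        calc _ ≤ b * 1 := mul_le_mul this (e3 i) (norm_nonneg _) hb0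
          _ = b := mul_one b
    _ = _ := by rw [sum_const, card_range, nsmul_eq_mul]

theorem p_LemJ (h1 : S_G1) (h2 : S_Symb) (_h3 : S_Rem) (h4 : S_Jet) : S_LemJ := by
  intro M D X c e x0 hD hX
  have g1 := h1 M D hD
  have hD0 : (0 : ℝ) < D := by exact_mod_cast (by have := hD.1; omega : 0 < D)
  have hx0 : 0 < x0 := lt_of_lt_of_le (by positivity) hX.x0
  have hdel := LemJ_del_pos D
  have hl2 : 0 < Real.log 2 := Real.log_pos (by norm_num)
  have hl2' : Real.log 2 ≤ 1 := by have := Real.log_two_lt_d9; linarith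
  set s := ss D e x0 with hs
  have hs1 : 320 * (D : ℝ) ^ 2 ≤ s := by
    rw [hs]; unfold ss
    have : 0 ≤ 40 * e ^ 2 / (del D * x0) ^ 2 := by positivity
    linarith
  have hs0 : 0 < s := lt_of_lt_of_le (by positivity) hs1
  set h := 320 * (D : ℝ) ^ 2 * Real.log 2 / s with hh
  have hh0 : 0 < h := by positivity
  have hh1 : h ≤ 1 := by
    rw [hh, div_le_one hs0]
    calc _ ≤ 320 * (D : ℝ) ^ 2 * 1 := by gcongr
      _ ≤ s := by linarith
  have hsh : s * h = 320 * (D : ℝ) ^ 2 * Real.log 2 := by rw [hh]; field_simp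
  have hexp : Real.exp (-(s * h)) = tau D ^ (16 * D) := by
    rw [LemJ_tau, ← LemJ_exp, hsh]; congr 2; push_cast; ring
  refine ⟨h, hh0, hh1, ?_⟩
  by_contra hc
  push Not at hc
  have hJ := h4 M D X c e x0 h hD hX hh0.le hh1 (fun w hw hre => hexp ▸ hc w hw hre)
  have hK := LemJ_ss_le hD hX.e0 hX.e1 hX.x0
  rw [← hs] at hK
  set m0 := ⌊s / 8⌋₊ with hm0
  have hm1 : (m0 : ℝ) ≤ s / 8 := Nat.floor_le (by positivity)
  have hm2 : s / 8 < m0 + 1 := Nat.lt_floor_add_one _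
  have hm3 : m0 ≤ KK D := by exact_mod_cast hm1.trans hK
  have htau : 0 < tau D ^ (2 * D) := by unfold tau; have := th_pos D; positivity
  have hMF : 0 < MF D := by unfold MF; positivity
  have hjet : ∀ l ≤ 8 * D, ∀ m ≤ m0,
      ‖M.evF D ((M.dF D ^ l) (Xm D X c m))‖ ≤ MF D * tau D ^ (2 * D) := by
    intro l hl m hm
    have a1 := hJ l hl m (by omega)
    have a2 : tau D ^ (2 * D) ≤ Real.exp (-h) ^ m := by
      rw [LemJ_tau, ← LemJ_exp, ← Real.exp_nat_mul, Real.exp_le_exp]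
      have b1 : (m : ℝ) ≤ s / 8 := le_trans (by exact_mod_cast hm) hm1
      have b2 : (m : ℝ) * h ≤ s / 8 * h := by gcongr
      push_cast
      nlinarith
    have a3 : tau D ^ (4 * D) = tau D ^ (2 * D) * tau D ^ (2 * D) := by
      rw [← pow_add]; congr 1; ring
    rw [a3, ← mul_assoc] at a1
    exact le_of_mul_le_mul_right ((mul_le_mul_of_nonneg_left a2 (norm_nonneg _)).trans a1) htau
  have hck : ∀ m ≤ KK D, ‖c m‖ ≤ 1 := by
    intro m hm
    have a1 : ‖c m‖ ^ 2 ≤ ∑ k ∈ range (KK D + 1), ‖c k‖ ^ 2 :=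
      single_le_sum (f := fun k => ‖c k‖ ^ 2) (fun k _ => by positivity)
        (mem_range.2 (by omega))
    have a2 : e ^ 2 ≤ 1 := pow_le_one₀ hX.e0 hX.e1
    have a3 := hX.sq
    nlinarith [norm_nonneg (c m)]
  have hn : ‖((del D : ℂ)⁻¹)‖ = (del D)⁻¹ := by
    rw [norm_inv, Complex.norm_real, Real.norm_of_nonneg hdel.le]
  have hlow : ∀ m ≤ m0, del D * x0 / 2 ≤ ‖c m‖ := by
    intro m hm
    have a1 : ‖X + ((del D : ℂ)⁻¹) • c m‖ ≤ 2 * ((2 : ℝ) ^ D) ^ 7 := by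
      have b1 := hck m (by omega)
      have b2 := hX.nX
      have b3 := LemJ_D_le hD
      have b4 : (1 : ℝ) ≤ 2 ^ D := one_le_pow₀ (by norm_num)
      have b5 : (2 : ℝ) ^ D ≤ ((2 : ℝ) ^ D) ^ 7 := le_self_pow₀ b4 (by norm_num)
      have b6 : (1 : ℝ) ≤ D := by exact_mod_cast (by have := hD.1; omega : 1 ≤ D)
      have b7 : ‖((del D : ℂ)⁻¹) • c m‖ ≤ ((2 : ℝ) ^ D) ^ 7 := by
        rw [norm_smul, hn, LemJ_delinv]
        calc _ ≤ ((2 : ℝ) ^ D) ^ 7 * 1 := by gcongr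
          _ = _ := mul_one _
      have b8 := norm_add_le X (((del D : ℂ)⁻¹) • c m)
      nlinarith
    have a2 := LemJ_flat h2 M g1 (X + ((del D : ℂ)⁻¹) • c m)
      (((KK D : ℝ) + 1) * (MF D * tau D ^ (2 * D))) (fun l hl => by
        rw [← LemJ_sum, map_sum, map_sum]
        refine (norm_sum_le _ _).trans ?_
        calc _ ≤ ∑ _i ∈ range (m + 1), MF D * tau D ^ (2 * D) :=
              sum_le_sum fun i hi => hjet l hl i (by have := mem_range.1 hi; omega)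
          _ = ((m : ℝ) + 1) * (MF D * tau D ^ (2 * D)) := by
              rw [sum_const, card_range, nsmul_eq_mul]; push_cast; ring
          _ ≤ _ := by
              have : (m : ℝ) ≤ KK D := by exact_mod_cast hm.trans hm3
              gcongr)
    have a3 := LemJ_n1 hD
    have a4 := LemJ_n2 hD
    have a5 : (1 / 7 : ℝ) ^ (8 * D) * (2 * ((D : ℝ) + 1) * 32 ^ D) *
        ‖X + ((del D : ℂ)⁻¹) • c m‖ ≤ 1 / (4 * (D : ℝ)) :=
      le_trans (mul_le_mul_of_nonneg_left a1 (by positivity)) a4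
    have a6 : ‖M.JF D (X + ((del D : ℂ)⁻¹) • c m)‖ ≤ x0 / 2 := by
      have : 1 / (4 * (D : ℝ)) = 1 / (D : ℝ) / 4 := by field_simp
      have := hX.x0
      linarith
    have a7 : ‖M.JF D (((del D : ℂ)⁻¹) • c m)‖ ≤ (del D)⁻¹ * ‖c m‖ := by
      have := ContinuousLinearMap.le_of_opNorm_le _ (M.J_norm D (kap D) g1.admF)
        (((del D : ℂ)⁻¹) • c m)
      rwa [one_mul, norm_smul, hn] at this
    have a8 : ‖M.JF D X‖ ≤ ‖M.JF D (X + ((del D : ℂ)⁻¹) • c m)‖ +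
        ‖M.JF D (((del D : ℂ)⁻¹) • c m)‖ := by
      rw [map_add]; exact norm_le_add_norm_add _ _
    have a9 : x0 / 2 ≤ (del D)⁻¹ * ‖c m‖ := by have := hX.low; linarith
    rw [le_inv_mul_iff₀ hdel] at a9
    linarith
  have hsum : ((m0 : ℝ) + 1) * (del D * x0 / 2) ^ 2 ≤ e ^ 2 := by
    calc ((m0 : ℝ) + 1) * (del D * x0 / 2) ^ 2 = ∑ _k ∈ range (m0 + 1), (del D * x0 / 2) ^ 2 := by
          rw [sum_const, card_range, nsmul_eq_mul]; push_cast; ring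
      _ ≤ ∑ k ∈ range (m0 + 1), ‖c k‖ ^ 2 :=
          sum_le_sum fun k hk => pow_le_pow_left₀ (by positivity)
            (hlow k (by have := mem_range.1 hk; omega)) 2
      _ ≤ ∑ k ∈ range (KK D + 1), ‖c k‖ ^ 2 :=
          sum_le_sum_of_subset_of_nonneg (range_subset_range.2 (by omega))
            (fun k _ _ => by positivity)
      _ ≤ e ^ 2 := hX.sq
  have hp : 0 < (del D * x0) ^ 2 := by positivity
  have hfin : s * (del D * x0) ^ 2 = 40 * e ^ 2 + 320 * (D : ℝ) ^ 2 * (del D * x0) ^ 2 := by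
    rw [hs]; unfold ss; field_simp
  have h9 : s / 8 * (del D * x0) ^ 2 < ((m0 : ℝ) + 1) * (del D * x0) ^ 2 := by gcongr
  have h10 : 0 ≤ (D : ℝ) ^ 2 * (del D * x0) ^ 2 := by positivity
  nlinarith [sq_nonneg e]

end Pool.Agent.IS
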