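import Pool.Agent.P.MP_f981b0_an.IS.Stmt

/-! The bound for `yh` on the line `re p = 1 / 8`. -/

set_option autoImplicit false

noncomputable section

namespace Pool.Agent.IS

theorem Line_sq (p p1 : ℂ) :
    ‖p + (starRingEnd ℂ) p1‖ ^ 2 = ‖p - p1‖ ^ 2 + 4 * p1.re * p.re := by
  rw [Complex.sq_norm, Complex.sq_norm, Complex.normSq_apply, Complex.normSq_apply]
  simp only [Complex.add_re, Complex.add_im, Complex.sub_re, Complex.sub_im, Complex.conj_re,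
    Complex.conj_im]
  ring

theorem Line_norm_le (p : ℂ) : ‖p‖ ≤ |p.re| + |p.im| := Complex.norm_le_abs_re_add_abs_im p

/-- The Blaschke factor on the small circle. -/
theorem Line_circ {p1 z : ℂ} (h1 : p1.re = 1 / 8) (hz : ‖z - p1‖ = 1 / 1024) :
    Real.exp (-6) ≤ ‖(z - p1) / (z + (starRingEnd ℂ) p1)‖ := by
  have e1 := Line_sq z p1
  have e2 : |(z - p1).re| ≤ 1 / 1024 := hz ▸ Complex.abs_re_le_norm _
  rw [Complex.sub_re, h1, abs_le] at e2
  rw [hz, h1] at e1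
  have e3 : 0 < ‖z + (starRingEnd ℂ) p1‖ := by
    by_contra hc
    have : ‖z + (starRingEnd ℂ) p1‖ = 0 := le_antisymm (not_lt.1 hc) (norm_nonneg _)
    rw [this] at e1
    nlinarith [e2.1]
  have e4 : ‖z + (starRingEnd ℂ) p1‖ ≤ 257 / 1024 := by
    refine le_of_sq_le_sq_aux e1 e2.2
  have e5 : (257 : ℝ) ≤ Real.exp 6 := by
    have h := Real.exp_one_gt_d9
    have h2 : Real.exp 6 = Real.exp 1 ^ 6 := by rw [← Real.exp_nat_mul]; norm_num
    rw [h2]
    calc (257 : ℝ) ≤ 2.7 ^ 6 := by norm_num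
      _ ≤ _ := by gcongr; linarith
  rw [norm_div, hz, Real.exp_neg, le_div_iff₀ e3, inv_mul_le_iff₀ (Real.exp_pos _)]
  linarith
where
  le_of_sq_le_sq_aux {u x : ℝ} (e1 : u ^ 2 = (1 / 1024) ^ 2 + 4 * (1 / 8) * x)
      (e2 : x - 1 / 8 ≤ 1 / 1024) : u ≤ 257 / 1024 :=
    le_of_sq_le_sq (by nlinarith) (by norm_num)

/-- The Blaschke factor near the imaginary axis. -/
theorem Line_far {p1 p : ℂ} {Q : ℝ} (h1 : p1.re = 1 / 8) (hx : 0 ≤ p.re) (hx' : p.re ≤ 1 / 16)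
    (hQ : ‖p - p1‖ ^ 2 ≤ Q) (hQ1 : 1 ≤ Q) :
    ‖(p - p1) / (p + (starRingEnd ℂ) p1)‖ ≤ Real.exp (-(3 * p.re / (16 * Q))) := by
  have e1 := Line_sq p p1
  rw [h1] at e1
  have e2 : |(p - p1).re| ≤ ‖p - p1‖ := Complex.abs_re_le_norm _
  rw [Complex.sub_re, h1, abs_le] at e2
  have e3 : 0 < ‖p - p1‖ := by linarith [e2.1]
  have e4 : 0 < ‖p + (starRingEnd ℂ) p1‖ ^ 2 := by rw [e1]; positivity
  refine le_of_sq_le_sq ?_ (Real.exp_pos _).le
  rw [norm_div, div_pow, ← Real.exp_nat_mul, div_le_iff₀ e4, e1]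
  set u : ℝ := p.re / (2 * Q) with hu
  have hu0 : 0 ≤ u := by positivity
  have hu1 : u ≤ 1 / 3 := by rw [hu, div_le_iff₀ (by positivity)]; linarith
  have e5 : ((2 : ℕ) : ℝ) * -(3 * p.re / (16 * Q)) = -(3 / 4 * u) := by
    rw [hu]; push_cast; field_simp; ring
  have e6 : 1 - 3 / 4 * u ≤ Real.exp (-(3 / 4 * u)) := by
    linarith [Real.add_one_le_exp (-(3 / 4 * u))]
  have e7 : p.re = 2 * Q * u := by rw [hu]; field_simp
  rw [e5]
  set N : ℝ := ‖p - p1‖ ^ 2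
  have hN : 0 ≤ N := by positivity
  calc N ≤ (1 - 3 / 4 * u) * (N + N * u) := by nlinarith [mul_nonneg hN hu0]
    _ ≤ (1 - 3 / 4 * u) * (N + 4 * (1 / 8) * p.re) := by
        refine mul_le_mul_of_nonneg_left ?_ (by linarith)
        nlinarith [mul_le_mul_of_nonneg_right hQ hu0]
    _ ≤ _ := mul_le_mul_of_nonneg_right e6 (by positivity)

theorem Line_core (h1 : S_Prop) (h2 : S_MM) {f g : ℂ → ℂ} {a s h Mx La : ℝ} {p0 p1 : ℂ}
    (ha : 64 ≤ a) (hs : 1 ≤ s) (hh : 0 < h) (hMx : 1 ≤ Mx)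
    (hf : DifferentiableOn ℂ f {p : ℂ | -(1 / 2) < p.re ∧ ‖p‖ < 16 * a + 1})
    (hM : ∀ p : ℂ, 0 ≤ p.re → ‖p‖ ≤ 16 * a → ‖f p‖ ≤ Mx)
    (h01 : ‖p0‖ ≤ 1) (h02 : h / (4 * a) ≤ p0.re) (h03 : p0.re ≤ 1 / 16)
    (h04 : Mx * Real.exp (-(s * h)) < ‖f p0‖)
    (hg : DifferentiableOn ℂ g {p : ℂ | 0 ≤ p.re ∧ p.re ≤ 1 / 4})
    (hB : ∀ p : ℂ, 0 ≤ p.re → p.re ≤ 1 / 4 → |p.im| ≤ 4 * a + 1 → ‖f p * g p‖ ≤ Real.exp La)
    (hre : p1.re = 1 / 8) (him : |p1.im| ≤ 4 * a) :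
    ‖g p1‖ ≤ Real.exp (La + 12000 * a * s * (1 + p1.im ^ 2)) := by
  set y : ℝ := |p1.im| with hy
  have hy0 : 0 ≤ y := abs_nonneg _
  set Q : ℝ := (2 + y) ^ 2 with hQ
  have hQ1 : 1 ≤ Q := by nlinarith
  set n : ℕ := ⌈32 * a * s * Q⌉₊ with hn
  have hasQ : 1 ≤ a * s * Q := by
    have : 1 ≤ a * s := by nlinarith
    nlinarith
  have hn1 : 32 * a * s * Q ≤ n := Nat.le_ceil _
  have hn2 : (n : ℝ) ≤ 33 * (a * s * Q) := by
    have := (Nat.ceil_lt_add_one (by positivity : 0 ≤ 32 * a * s * Q)).le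
    linarith
  have hp1 : ‖p1‖ ≤ 1 / 8 + y := by
    have := Line_norm_le p1
    rwa [hre, abs_of_pos (by norm_num : (0 : ℝ) < 1 / 8)] at this
  have hx0 : 0 < p0.re := lt_of_lt_of_le (by positivity) h02
  have hball : ∀ z : ℂ, ‖z - p1‖ ≤ 1 / 8 →
      0 ≤ z.re ∧ z.re ≤ 1 / 4 ∧ |z.im| ≤ 4 * a + 1 ∧ ‖z‖ ≤ 16 * a := by
    intro z hz
    have e1 : |(z - p1).re| ≤ 1 / 8 := (Complex.abs_re_le_norm _).trans hz
    have e2 : |(z - p1).im| ≤ 1 / 8 := (Complex.abs_im_le_norm _).trans hz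
    rw [Complex.sub_re, hre, abs_le] at e1
    rw [Complex.sub_im] at e2
    have e3 : |z.im| ≤ |z.im - p1.im| + y := by
      simpa using abs_add_le (z.im - p1.im) p1.im
    have e4 : ‖z‖ ≤ ‖z - p1‖ + ‖p1‖ := by simpa using norm_add_le (z - p1) p1
    exact ⟨by linarith [e1.1], by linarith [e1.2], by linarith, by linarith⟩
  have hA : ∃ z : ℂ, ‖z - p1‖ = 1 / 1024 ∧ Mx * Real.exp (-(6 * n)) ≤ ‖f z‖ := by
    by_contra hc
    push Not at hc
    have e0 : |(p0 - p1).re| ≤ ‖p0 - p1‖ := Complex.abs_re_le_norm _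
    rw [Complex.sub_re, hre, abs_le] at e0
    have e1 := h1 f Mx (16 * a) (1 / 1024) p1 n (by norm_num) (by rw [hre]; norm_num)
      (by linarith) hf hM (fun z hz => (hc z hz).le.trans (by
        rw [show -(6 * (n : ℝ)) = n * (-6) by ring, Real.exp_nat_mul]
        gcongr
        exact Line_circ hre hz)) p0 hx0.le (by linarith) (by linarith [e0.1])
    have e2 : ‖p0 - p1‖ ^ 2 ≤ Q := by
      have := norm_sub_le p0 p1
      rw [hQ]
      gcongr
      linarith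
    have e3 : ‖(p0 - p1) / (p0 + (starRingEnd ℂ) p1)‖ ^ n ≤
        Real.exp (n * -(3 * p0.re / (16 * Q))) := by
      rw [Real.exp_nat_mul]
      gcongr
      exact Line_far hre hx0.le h03 e2 hQ1
    have e4 : 2 * n * p1.re * p0.re / (16 * a - ‖p1‖) ^ 2 ≤ n * (p0.re / (16 * Q)) := by
      have e5 : 4 * Q ≤ (16 * a - ‖p1‖) ^ 2 := by
        calc 4 * Q = (2 * (2 + y)) ^ 2 := by rw [hQ]; ring
          _ ≤ _ := by gcongr; linarith
      calc _ ≤ 2 * n * p1.re * p0.re / (4 * Q) := by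
            rw [hre]; gcongr
        _ = _ := by rw [hre]; field_simp; ring
    have e6 : s * h ≤ n * (p0.re / (8 * Q)) := by
      calc s * h = (32 * a * s * Q) * (h / (4 * a) / (8 * Q)) := by field_simp; ring
        _ ≤ _ := by gcongr
    have e7 : ‖f p0‖ ≤ Mx * Real.exp (-(s * h)) := by
      refine e1.trans ?_
      rw [mul_assoc]
      gcongr
      refine (mul_le_mul e3 (Real.exp_le_exp.2 e4) (Real.exp_pos _).le (Real.exp_pos _).le).trans ?_
      rw [← Real.exp_add, Real.exp_le_exp]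
      have : n * -(3 * p0.re / (16 * Q)) + n * (p0.re / (16 * Q)) = -(n * (p0.re / (8 * Q))) := by
        field_simp; ring
      linarith
    linarith
  obtain ⟨z0, hz0, hz1⟩ := hA
  have h128 : (128 : ℝ) * (1 / 1024) = 1 / 8 := by norm_num
  obtain ⟨r2, hr1, hr2, hr3⟩ := h2 f p1 z0 Mx (1 / 1024) (6 * n) (by norm_num) (by linarith)
    (by linarith)
    (hf.mono fun z hz => by
      rw [h128, mem_closedBall_iff_norm] at hz
      obtain ⟨b1, _, _, b4⟩ := hball z hz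
      exact ⟨by linarith, by linarith⟩)
    (fun z hz => by
      rw [h128, mem_closedBall_iff_norm] at hz
      obtain ⟨b1, _, _, b4⟩ := hball z hz
      exact hM z b1 b4) hz0.le hz1
  have hr0 : 0 < r2 := by linarith
  have key : ‖g p1‖ ≤ Real.exp (La + 72 * n) := by
    refine Complex.norm_le_of_forall_mem_frontier_norm_le (U := Metric.ball p1 r2)
      Metric.isBounded_ball (DifferentiableOn.diffContOnCl (hg.mono fun z hz => ?_))
      (fun z hz => ?_) (subset_closure (Metric.mem_ball_self hr0))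
    · rw [closure_ball _ hr0.ne', mem_closedBall_iff_norm] at hz
      obtain ⟨b1, b2, _, _⟩ := hball z (by linarith)
      exact ⟨b1, b2⟩
    · rw [frontier_ball _ hr0.ne', mem_sphere_iff_norm] at hz
      obtain ⟨b1, b2, b3, _⟩ := hball z (by linarith)
      have e1 := hB z b1 b2 b3
      have e2 := hr3 z hz
      rw [norm_mul] at e1
      have e3 : Real.exp (-(12 * (6 * n))) ≤ ‖f z‖ :=
        (le_mul_of_one_le_left (Real.exp_pos _).le hMx).trans e2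
      have e4 : Real.exp (-(12 * (6 * n))) * ‖g z‖ ≤ Real.exp La :=
        (mul_le_mul_of_nonneg_right e3 (norm_nonneg _)).trans e1
      rw [Real.exp_neg, inv_mul_le_iff₀ (Real.exp_pos _), ← Real.exp_add] at e4
      exact e4.trans (le_of_eq (by congr 1; ring))
  refine key.trans (Real.exp_le_exp.2 ?_)
  have e1 : Q ≤ 5 * (1 + p1.im ^ 2) := by
    rw [hQ, ← sq_abs p1.im, ← hy]
    nlinarith [sq_nonneg (1 - 2 * y)]
  have e2 : a * s * Q ≤ a * s * (5 * (1 + p1.im ^ 2)) := by gcongr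
  have e3 : 0 ≤ a * s * (1 + p1.im ^ 2) := by positivity
  nlinarith

/-- The point `p = (1 + w) / (1 - w)` of a point of the arc. -/
theorem Line_arc {w : ℂ} {v : ℝ} (hv : 0 < v) (hv1 : v ≤ 1 / 64) (hw : ‖w‖ = Real.exp (-v))
    (hre : w.re ≤ 0) : 1 - w ≠ 0 ∧ ‖(1 + w) / (1 - w)‖ ≤ 1 ∧ v / 4 ≤ ((1 + w) / (1 - w)).re ∧
      ((1 + w) / (1 - w)).re ≤ 1 / 16 := by
  have e0 : ‖w‖ ^ 2 = w.re * w.re + w.im * w.im := by rw [Complex.sq_norm, Complex.normSq_apply]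
  have e1 : ‖w‖ ^ 2 = Real.exp (-(2 * v)) := by
    rw [hw, ← Real.exp_nat_mul]; congr 1; push_cast; ring
  have e2 : 1 - 2 * v ≤ ‖w‖ ^ 2 := by rw [e1]; linarith [Real.add_one_le_exp (-(2 * v))]
  have e3 : ‖w‖ ^ 2 ≤ 1 - v := by
    rw [e1, Real.exp_neg, inv_le_iff_one_le_mul₀ (Real.exp_pos _)]
    nlinarith [Real.add_one_le_exp (2 * v)]
  have e4 : Complex.normSq (1 - w) = 1 - 2 * w.re + ‖w‖ ^ 2 := by
    rw [e0, Complex.normSq_apply]; simp; ring
  have e5 : Complex.normSq (1 + w) = 1 + 2 * w.re + ‖w‖ ^ 2 := by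
    rw [e0, Complex.normSq_apply]; simp; ring
  have e6 : 1 ≤ Complex.normSq (1 - w) := by rw [e4]; nlinarith [sq_nonneg ‖w‖]
  have e7 : Complex.normSq (1 - w) ≤ 4 := by
    have := Complex.normSq_nonneg (1 + w)
    linarith
  have hne : 1 - w ≠ 0 := fun h => by rw [h, map_zero] at e6; linarith
  have e8 : ((1 + w) / (1 - w)).re = (1 - ‖w‖ ^ 2) / Complex.normSq (1 - w) := by
    rw [Complex.div_re, e0]; simp; ring
  refine ⟨hne, ?_, ?_, ?_⟩
  · rw [norm_div, div_le_one (norm_pos_iff.2 hne)]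
    refine le_of_sq_le_sq ?_ (norm_nonneg _)
    rw [Complex.sq_norm, Complex.sq_norm]; linarith
  · rw [e8, div_le_div_iff₀ (by norm_num) (by linarith)]; nlinarith
  · rw [e8, div_le_div_iff₀ (by linarith) (by norm_num)]; nlinarith

theorem Line_wp {p : ℂ} (h0 : 0 ≤ p.re) (h1 : p.re ≤ 1 / 4) : p + 1 ≠ 0 ∧ 1 / 4 < ‖wp p‖ := by
  have e1 := Line_sq p 1
  rw [map_one, Complex.one_re] at e1
  have e2 : |(p - 1).re| ≤ ‖p - 1‖ := Complex.abs_re_le_norm _
  rw [Complex.sub_re, Complex.one_re, abs_le] at e2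
  have e3 : 3 / 4 ≤ ‖p - 1‖ := by linarith [e2.1]
  have hne : p + 1 ≠ 0 := fun h => by
    rw [h, norm_zero] at e1; nlinarith
  refine ⟨hne, ?_⟩
  rw [wp, norm_div, div_lt_div_iff₀ (by norm_num) (norm_pos_iff.2 hne)]
  refine lt_of_pow_lt_pow_left₀ 2 (by positivity) ?_
  nlinarith

theorem p_Line (h1 : S_Prop) (h2 : S_MM) (h3 : S_Rem) (h4 : S_Yh) (h5 : S_B2) (h6 : S_LemJ) :
    S_Line := by
  intro M D y X c e e' x0 hD hY hX hR p hp hp'
  obtain ⟨h, hh0, hh1, w, hw, hwre, hF⟩ := h6 M D X c e x0 hD hX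
  obtain ⟨-, -, hM, hf, -⟩ := h3 M D X c e x0 hD hX
  obtain ⟨-, hg, -⟩ := h4 M D y e' hD hY
  have hD1 : (1 : ℝ) ≤ D := by exact_mod_cast le_trans (by norm_num) hD.1
  have ha : (64 : ℝ) ≤ aa D := by unfold aa; push_cast; linarith
  have hs : 1 ≤ ss D e x0 := by
    have : 0 ≤ 40 * e ^ 2 / (del D * x0) ^ 2 := by positivity
    unfold ss; nlinarith
  have hn1 : (n1 D : ℂ) ≠ 0 := by
    have : 0 < D := by exact_mod_cast lt_of_lt_of_le one_pos hD1
    unfold n1; exact_mod_cast (by positivity : 0 < 64 * D * 2 ^ (20 * D)).ne'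
  obtain ⟨hne, b1, b2, b3⟩ := Line_arc (v := h / aa D) (by positivity)
    (by rw [div_le_div_iff₀ (by linarith) (by norm_num)]; linarith) hw hwre
  have e1 : tp D ((1 + w) / (1 - w)) = tw D w := by unfold tp tw; field_simp; ring
  have e2 : wp ((1 + w) / (1 - w)) = w := by
    have : (1 + w) / (1 - w) + 1 = 2 / (1 - w) := by field_simp; ring
    unfold wp; rw [this]; field_simp; ring
  refine Line_core h1 h2 (f := M.Ff D X c) (g := fun p => M.yh D y (wp p))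
    (p0 := (1 + w) / (1 - w)) ha hs hh0 (one_le_pow₀ (by norm_num)) hf hM b1 ?_ b3 ?_ ?_
    (h5 M D y X c e e' x0 hD hY hX hR) hp hp'
  · rwa [div_div, mul_comm] at b2
  · rwa [Model.Ff, e1, e2]
  · refine hg.comp (f := wp) (fun q hq => ?_) (fun q hq => (Line_wp hq.1 hq.2).2)
    have hq1 := (Line_wp hq.1 hq.2).1
    refine DifferentiableAt.differentiableWithinAt ?_
    unfold wp
    fun_prop (disch := exact hq1)

end Pool.Agent.IS
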