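import Pool.Agent.P.MP_f981b0_an.IS.Mod

/-! Diagonal operators and weights of the concrete model. -/

set_option autoImplicit false

open Polynomial Finset Filter Topology
open scoped Nat Real

noncomputable section

namespace Pool.Agent.IS

namespace MDiagP

lemma sg_apply (j i : ℕ) : sg j i = if i = j then 1 else 0 := by
  unfold sg
  rw [lp.single_apply, Pi.single_apply]

lemma smul_sg (i : ℕ) (a : ℂ) : a • sg i = lp.single 2 i a := by
  unfold sg
  rw [← lp.single_smul, smul_eq_mul, mul_one]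

lemma row_le {c : ℕ → ℂ} {C : ℝ} (hC : 0 ≤ C) (hc : ∀ i, ‖c i‖ ≤ C) (i : ℕ) (s : Finset ℕ) :
    ∑ j ∈ s, ‖if i = j then c i else 0‖ ≤ C := by
  simp only [apply_ite norm, norm_zero, sum_ite_eq]
  split_ifs
  exacts [hc i, hC]

lemma col_le {c : ℕ → ℂ} {C : ℝ} (hC : 0 ≤ C) (hc : ∀ i, ‖c i‖ ≤ C) (j : ℕ) (s : Finset ℕ) :
    ∑ i ∈ s, ‖if i = j then c i else 0‖ ≤ C := by
  simp only [apply_ite norm, norm_zero, sum_ite_eq']
  split_ifs
  exacts [hc j, hC]

/-- a diagonal matrix acts coordinatewise -/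
lemma diag (h1 : SM_Schur) {c : ℕ → ℂ} {C : ℝ} (hC : 0 ≤ C) (hc : ∀ i, ‖c i‖ ≤ C) (v : E)
    (i : ℕ) : mat (fun i j => if i = j then c i else 0) v i = c i * v i := by
  have h2 := (h1.1 _ C hC (row_le hC hc) (col_le hC hc)).1
  have h3 := h1.2.2.2.1 ℂ
    (lp.evalCLM ℂ (fun _ : ℕ => ℂ) 2 i ∘L mat fun i j => if i = j then c i else 0)
    (c i • lp.evalCLM ℂ (fun _ : ℕ => ℂ) 2 i) fun j => by
      change mat (fun i j => if i = j then c i else 0) (sg j) i = c i * sg j i
      rw [h2, sg_apply, mul_ite, mul_one, mul_zero]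
  exact DFunLike.congr_fun h3 v

/-- the norm of an operator that acts coordinatewise -/
lemma norm_le (h1 : SM_Schur) {c : ℕ → ℂ} {C : ℝ} (hC : 0 ≤ C) (hc : ∀ i, ‖c i‖ ≤ C)
    (T : E →L[ℂ] E) (hT : ∀ v i, T v i = c i * v i) : ‖T‖ ≤ C :=
  h1.2.1 (fun i j => if i = j then c i else 0) C T hC
    (fun i j => by rw [hT, sg_apply, mul_ite, mul_one, mul_zero]) (row_le hC hc) (col_le hC hc)

lemma pi_apply (h1 : SM_Schur) (m : ℕ) (v : E) (i : ℕ) :
    piW m v i = (if i ≤ m then 1 else 0) * v i := by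
  rw [← diag h1 (c := fun i => if i ≤ m then 1 else 0) zero_le_one
    (fun i => by split_ifs <;> simp) v i]
  unfold piW
  simp only [ite_and]

lemma pi_apply' (h1 : SM_Schur) (m : ℕ) (v : E) (i : ℕ) :
    (1 - piW m) v i = (if i ≤ m then 0 else 1) * v i := by
  change v i - piW m v i = _
  rw [pi_apply h1]
  split_ifs <;> ring

lemma pi_sum (h1 : SM_Schur) (m : ℕ) (v : E) :
    piW m v = ∑ i ∈ range (m + 1), v i • sg i := by
  refine lp.ext (funext fun j => ?_)
  rw [pi_apply h1, lp.coeFn_sum, Finset.sum_apply]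
  simp only [lp.coeFn_smul, Pi.smul_apply, sg_apply, smul_eq_mul, mul_ite, mul_one, mul_zero,
    sum_ite_eq, mem_range, Nat.lt_succ_iff, ite_mul, one_mul, zero_mul]

lemma ratio_le {o o' : ℕ → ℝ} (h : ∀ i, 0 < o' i ∧ o' i ≤ o i) (i : ℕ) :
    ‖((o' i / o i : ℝ) : ℂ)‖ ≤ 1 := by
  have h0 := (h i).1
  have h2 := h0.trans_le (h i).2
  rw [Complex.norm_real, Real.norm_eq_abs, abs_of_pos (div_pos h0 h2), div_le_one h2]
  exact (h i).2

lemma J_apply (h1 : SM_Schur) {o o' : ℕ → ℝ} (h : ∀ i, 0 < o' i ∧ o' i ≤ o i) (v : E) (i : ℕ) :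
    JW o o' v i = ((o' i / o i : ℝ) : ℂ) * v i :=
  diag h1 (c := fun i => ((o' i / o i : ℝ) : ℂ)) zero_le_one (ratio_le h) v i

variable {D : ℕ} {k : ℝ}

lemma om_of_le {i : ℕ} (h : i ≤ D) : om D k i = 1 := by
  rw [om, Ioc_eq_empty (by omega), prod_empty]

lemma om_succ {i : ℕ} (h : D ≤ i) : om D k (i + 1) = om D k i * (k * ((i : ℝ) + 1)) := by
  rw [om, om, prod_Ioc_succ_top h]
  push_cast
  rfl

lemma le_fac (h : 0 < k) {i : ℕ} (hi : D ≤ i) : k * D ≤ k * ((i : ℝ) + 1) := by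
  have : (D : ℝ) ≤ i + 1 := by exact_mod_cast hi.trans (Nat.le_succ i)
  exact mul_le_mul_of_nonneg_left this h.le

lemma one_le_om (h : Adm D k) (i : ℕ) : 1 ≤ om D k i := by
  induction i with
  | zero => rw [om_of_le (Nat.zero_le D)]
  | succ i ih =>
    rcases le_or_gt D i with hi | hi
    · rw [om_succ hi]
      exact one_le_mul_of_one_le_of_one_le ih (by linarith [h.2.2, le_fac h.1 hi])
    · rw [om_of_le hi]

lemma om_pos (h : Adm D k) (i : ℕ) : 0 < om D k i := one_pos.trans_le (one_le_om h i)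

lemma om_le_fact (h : Adm D k) (i : ℕ) : om D k i ≤ (i ! : ℝ) := by
  induction i with
  | zero => rw [om_of_le (Nat.zero_le D)]; simp
  | succ i ih =>
    rcases le_or_gt D i with hi | hi
    · rw [om_succ hi, Nat.factorial_succ, Nat.cast_mul, mul_comm, Nat.cast_succ]
      have h0 : (0 : ℝ) ≤ (i : ℝ) + 1 := by positivity
      exact mul_le_mul (mul_le_of_le_one_left h0 (by linarith [h.2.1])) ih (om_pos h i).le h0
    · rw [om_of_le hi]
      exact_mod_cast Nat.factorial_pos _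

lemma wt_om (h : Adm D k) : Wt (om D k) k := by
  refine ⟨h.1.le, h.2.1, om_of_le (Nat.zero_le D), fun i => ⟨om_pos h i, ?_⟩⟩
  have h0 := om_pos h i
  rcases le_or_gt D i with hi | hi
  · rw [om_succ hi, mul_comm (max _ _)]
    exact ⟨le_mul_of_one_le_right h0.le (by linarith [h.2.2, le_fac h.1 hi]),
      mul_le_mul_of_nonneg_left (le_max_right _ _) h0.le⟩
  · rw [om_of_le hi, om_of_le hi.le, mul_one]
    exact ⟨le_rfl, le_max_left _ _⟩

lemma om_anti {D' : ℕ} {k' : ℝ} (h : Adm D k) (h' : Adm D' k') (hD : D ≤ D') (hk : k' ≤ k)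
    (i : ℕ) : om D' k' i ≤ om D k i := by
  induction i with
  | zero => rw [om_of_le (Nat.zero_le _), om_of_le (Nat.zero_le _)]
  | succ i ih =>
    rcases le_or_gt D' i with hi | hi
    · rw [om_succ hi, om_succ (hD.trans hi)]
      have h0 : (0 : ℝ) ≤ (i : ℝ) + 1 := by positivity
      exact mul_le_mul ih (mul_le_mul_of_nonneg_right hk h0) (mul_nonneg h'.1.le h0)
        (om_pos h i).le
    · rw [om_of_le hi]
      exact one_le_om h _

lemma om_grow {n : ℕ} (h : Adm n k) (hk : k * n = 256) (r : ℕ) : 256 ^ r ≤ om n k (n + r) := by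
  induction r with
  | zero => rw [om_of_le (by omega), pow_zero]
  | succ r ih =>
    rw [← add_assoc, om_succ (Nat.le_add_right n r), pow_succ]
    exact mul_le_mul ih (hk.symm.le.trans (le_fac h.1 (Nat.le_add_right n r))) (by norm_num)
      (om_pos h _).le

lemma om_gain {n : ℕ} (h : Adm n k) (h' : Adm (8 * n) k) (hk : k * n = 256) {i : ℕ}
    (hi : 2 * n ≤ i) : 256 ^ n * om (8 * n) k i ≤ om n k i := by
  induction i, hi using Nat.le_induction with
  | base =>
    rw [om_of_le (by omega), mul_one, two_mul]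
    exact om_grow h hk n
  | succ i hi ih =>
    have h1 : 1 ≤ k * ((i : ℝ) + 1) := by linarith [le_fac (D := n) h.1 (by omega : n ≤ i)]
    have h2 := ((wt_om h').2.2.2 i).2.2
    rw [max_eq_right h1] at h2
    rw [om_succ (D := n) (by omega)]
    calc _ ≤ 256 ^ n * (k * ((i : ℝ) + 1) * om (8 * n) k i) := by gcongr
      _ = 256 ^ n * om (8 * n) k i * (k * ((i : ℝ) + 1)) := by ring
      _ ≤ _ := mul_le_mul_of_nonneg_right ih (by linarith)

end MDiagP

open MDiagP

theorem p_MDiag (h1 : SM_Schur) : SM_Diag := by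
  refine ⟨fun m v i => ?_, fun m => ⟨?_, ?_⟩, fun v => ?_, pi_sum h1, fun o o' h =>
    ⟨J_apply h1 h, norm_le h1 zero_le_one (ratio_le h) _ (J_apply h1 h), fun i => ?_⟩,
    ⟨le_rfl, by norm_num, rfl, fun i => ⟨one_pos, le_rfl, ?_⟩⟩,
    fun D k h => ⟨wt_om h, fun i => ⟨one_le_om h i, om_le_fact h i⟩, fun i hi => om_of_le hi⟩,
    fun D k D' k' h h' hD hk => om_anti h h' hD hk, fun D k h h8 hk => ?_⟩
  · rw [pi_apply h1, ite_mul, one_mul, zero_mul]
  · exact norm_le h1 zero_le_one (fun i => by split_ifs <;> simp) _ (pi_apply h1 m)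
  · exact norm_le h1 zero_le_one (fun i => by split_ifs <;> simp) _ (pi_apply' h1 m)
  · simp only [pi_sum h1, smul_sg]
    exact (lp.hasSum_single (by norm_num) v).tendsto_sum_nat.comp (tendsto_add_atTop_nat 1)
  · refine lp.ext (funext fun j => ?_)
    rw [J_apply h1 h]
    unfold pv
    simp only [lp.coeFn_smul, Pi.smul_apply, sg_apply, smul_eq_mul]
    split_ifs with hj
    · subst hj
      have h2 := ((h j).1.trans_le (h j).2).ne'
      rw [mul_one, mul_one, ← Complex.ofReal_mul]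
      congr 1
      unfold wg
      field_simp
    · rw [mul_zero, mul_zero, mul_zero]
  · simp [o1]
  · obtain ⟨n, rfl⟩ := h8
    have e1 : 8 * n / 8 = n := by omega
    have e2 : 8 * n / 4 = 2 * n := by omega
    rw [e1] at h
    rw [e1, e2]
    push_cast at hk
    have h' : Adm (8 * n) k := ⟨h.1, h.2.1, by push_cast; linarith⟩
    have h2 : ∀ i, 0 < om (8 * n) k i ∧ om (8 * n) k i ≤ om n k i := fun i =>
      ⟨om_pos h' i, om_anti h h' (by omega) le_rfl i⟩
    refine norm_le h1 (c := fun i => (if i ≤ 2 * n then 0 else 1) *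
      ((om (8 * n) k i / om n k i : ℝ) : ℂ)) (by positivity) (fun i => ?_) _ fun v i => ?_
    · split_ifs with hi
      · rw [zero_mul, norm_zero]
        positivity
      · have h3 := om_gain h h' (by linarith) (not_le.1 hi).le
        rw [one_mul, Complex.norm_real, Real.norm_eq_abs,
          abs_of_pos (div_pos (h2 i).1 (om_pos h i)), div_le_iff₀ (om_pos h i), pow_mul,
          show ((1 : ℝ) / 2) ^ 8 = 256⁻¹ by norm_num, inv_pow, le_inv_mul_iff₀ (by positivity)]
        exact h3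
    · rw [mul_apply_eq_comp, pi_apply' h1, J_apply h1 h2, mul_assoc]

end Pool.Agent.IS
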