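import Pool.Agent.P.MP_f981b0_an.IS.Mod
import Pool.Agent.P.MP_f981b0_an.IS6.Schur

/-!
Project IS, package MF5: the smoothing bound (F5) and the coefficient bound.
-/

set_option autoImplicit false

open Polynomial Finset Filter Topology
open scoped Nat Real

noncomputable section

namespace Pool.Agent.IS

theorem MF5_dV (V d : E →L[ℂ] E) (hdV : ∀ v, d (V v) = v) (l : ℕ) (v : E) :
    (d ^ l) ((V ^ l) v) = v := by
  induction l generalizing v with
  | zero => simp
  | succ l ih =>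
    rw [pow_succ d, pow_succ' V, mul_apply_eq_comp, mul_apply_eq_comp,
      hdV, ih]

theorem MF5_le (V d : E →L[ℂ] E) (hdV : ∀ v, d (V v) = v) {l l' : ℕ} (h : l ≤ l') (v : E) :
    (d ^ l) ((V ^ l') v) = (V ^ (l' - l)) v := by
  obtain ⟨r, rfl⟩ := Nat.exists_eq_add_of_le h
  rw [pow_add, mul_apply_eq_comp, MF5_dV V d hdV, Nat.add_sub_cancel_left]

theorem MF5_gt (V d : E →L[ℂ] E) (hdV : ∀ v, d (V v) = v) {l l' : ℕ} (h : l' < l) (v : E)
    (hv : d v = 0) : (d ^ l) ((V ^ l') v) = 0 := by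
  obtain ⟨r, rfl⟩ := Nat.exists_eq_add_of_lt h
  have : l' + r + 1 = r + (1 + l') := by ring
  rw [this, pow_add, pow_add, pow_one, mul_apply_eq_comp,
    mul_apply_eq_comp, MF5_dV V d hdV, hv, map_zero]

theorem MF5_aeval (V : E →L[ℂ] E) (g : ℂ[X]) (n : ℕ) (hg : g.natDegree ≤ n) (v : E) :
    aeval V g v = ∑ l ∈ range (n + 1), g.coeff l • (V ^ l) v := by
  rw [aeval_eq_sum_range' (n := n + 1) (by omega), _root_.sum_apply]
  simp

theorem MF5_J (V V1 J : E →L[ℂ] E) (hJ : ∀ v, J (V v) = V1 (J v)) (l : ℕ) (v : E) :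
    J ((V ^ l) v) = (V1 ^ l) (J v) := by
  induction l with
  | zero => simp
  | succ l ih =>
    rw [pow_succ', pow_succ', mul_apply_eq_comp, mul_apply_eq_comp, hJ, ih]

theorem MF5_sg (i : ℕ) : ‖sg i‖ = 1 := by
  unfold sg
  rw [lp.norm_single (by norm_num)]
  simp

theorem MF5_om (D : ℕ) (k : ℝ) (i : ℕ) : om D k i = 32 ^ (i - D) * P.MP_f981b0_an.IS6.om D (k / 32) i := by
  unfold om P.MP_f981b0_an.IS6.om
  rw [← Nat.card_Ioc, ← prod_const, ← prod_mul_distrib]
  refine prod_congr rfl fun j _ => ?_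
  ring

theorem p_MF5 (h1 : SM_Schur) (h2 : SM_Diag) (h3 : SM_Leg) (h4 : SM_V) (h5 : SM_d) (h6 : SM_YN)
    (h7 : SM_Low) : SM_F5 := by
  obtain ⟨-, -, -, -, hHS⟩ := h1
  obtain ⟨-, -, -, -, -, hW1, hWo, -, -⟩ := h2
  obtain ⟨-, -, -, hdeg, -, hco⟩ := h3
  obtain ⟨hV, -, -⟩ := h4
  obtain ⟨-, -, hpow⟩ := h6
  obtain ⟨hJ, -, -, hlow⟩ := h7
  constructor
  · intro D k hA hk l v
    obtain ⟨hW, hone, -⟩ := hWo D k hA
    obtain ⟨-, -, -, hdV, -, -, hd0⟩ := h5 D k hA
    obtain ⟨hJV, hJ0, -⟩ := hJ (om D k) k o1 0 hW hW1 (fun i => (hone i).1)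
    obtain ⟨-, -, -, -, -, -, hL⟩ := hV (om D k) k hW
    set V := VW (om D k) with hVdef
    set d := dW (om D k) with hddef
    set J := JW (om D k) o1 with hJdef
    let T : E →L[ℂ] E := J ∘L (V ^ l) ∘L (d ^ l)
    have hT : ∀ v, T v = J ((V ^ l) ((d ^ l) v)) := fun v => rfl
    have hb : ∀ l' : ℕ, ‖T ((V ^ l') (sg 0))‖ ≤ if l ≤ l' then 1 / (l' ! : ℝ) else 0 := by
      intro l'
      rw [hT]
      split_ifs with h
      · rw [MF5_le V d hdV h, ← mul_apply_eq_comp (V ^ l), ← pow_add,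
          Nat.add_sub_cancel' h, MF5_J V _ J hJV, hJ0]
        refine (ContinuousLinearMap.le_opNorm _ _).trans ?_
        rw [MF5_sg, mul_one]
        exact hpow l'
      · rw [MF5_gt V d hdV (not_le.1 h) _ hd0]
        simp
    have hp : ∀ i, ‖T (pv (om D k) i)‖ ≤ (1 / 7) ^ l * 32 ^ i := by
      intro i
      rw [← hL i, MF5_aeval V _ i (hdeg i), map_sum]
      refine (norm_sum_le _ _).trans (le_trans (sum_le_sum fun l' _ => ?_) (hco i l))
      rw [map_smul, norm_smul]
      refine (mul_le_mul_of_nonneg_left (hb l') (norm_nonneg _)).trans (le_of_eq ?_)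
      split_ifs
      · ring
      · ring
    have hk2 : 2 ≤ k / 32 * D := by linarith
    have hs : ∀ i, ‖T (sg i)‖ ^ 2 ≤
        ((1 / 7) ^ l * 32 ^ D) ^ 2 * ((2 * (i : ℝ) + 1) / P.MP_f981b0_an.IS6.om D (k / 32) i ^ 2) := by
      intro i
      have ho : 0 < P.MP_f981b0_an.IS6.om D (k / 32) i := P.MP_f981b0_an.IS6.om_pos hk2 i
      have hq : (0 : ℝ) < 2 * (i : ℝ) + 1 := by positivity
      have hsq : 0 < √(2 * (i : ℝ) + 1) := Real.sqrt_pos.2 hq
      have hw : 0 < wg (om D k) i := by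
        unfold wg
        exact div_pos (lt_of_lt_of_le one_pos (hone i).1) hsq
      have e1 := hp i
      unfold pv at e1
      rw [map_smul, norm_smul, Complex.norm_real, Real.norm_eq_abs, abs_of_pos hw] at e1
      have e2 : (32 : ℝ) ^ i ≤ 32 ^ (i - D) * 32 ^ D := by
        rw [← pow_add]
        exact pow_le_pow_right₀ (by norm_num) (by omega)
      have e3 : ‖T (sg i)‖ ≤ (1 / 7) ^ l * 32 ^ D * (√(2 * (i : ℝ) + 1) / P.MP_f981b0_an.IS6.om D (k / 32) i) := by
        unfold wg at e1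
        rw [MF5_om] at e1
        have hx : (0 : ℝ) < 32 ^ (i - D) := by positivity
        have e4 := e1.trans (mul_le_mul_of_nonneg_left e2 (by positivity))
        rw [div_mul_eq_mul_div, div_le_iff₀ hsq] at e4
        rw [← mul_div_assoc, le_div_iff₀ ho]
        refine le_of_mul_le_mul_left ?_ hx
        calc _ = 32 ^ (i - D) * P.MP_f981b0_an.IS6.om D (k / 32) i * ‖T (sg i)‖ := by ring
          _ ≤ _ := e4
          _ = _ := by ring
      refine (pow_le_pow_left₀ (norm_nonneg _) e3 2).trans (le_of_eq ?_)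
      rw [mul_pow _ (_ / _), div_pow (√_), Real.sq_sqrt hq.le]
    have hn : ‖T‖ ≤ (1 / 7) ^ l * (2 * ((D : ℝ) + 1) * 32 ^ D) := by
      refine hHS E T _ (by positivity) fun s => ?_
      refine (sum_le_sum fun i _ => hs i).trans ?_
      rw [← mul_sum]
      refine (mul_le_mul_of_nonneg_left (P.MP_f981b0_an.IS6.ev_sum hk2 s) (by positivity)).trans (le_of_eq ?_)
      ring
    rw [← hT]
    exact (T.le_opNorm v).trans (mul_le_mul_of_nonneg_right hn (norm_nonneg _))
  · refine ⟨fun m => 2 * (((m + 8 : ℕ) : ℝ) + 1) * dd (m + 8) ^ m, fun m => ?_, ?_⟩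
    · unfold dd
      positivity
    · intro m g hg l
      have hdd : 1 ≤ dd (m + 8) := by
        unfold dd
        have : (0 : ℝ) ≤ ((m + 8 : ℕ) : ℝ) := Nat.cast_nonneg _
        nlinarith
      rcases lt_or_ge m l with hl | hl
      · rw [coeff_eq_zero_of_natDegree_lt (lt_of_le_of_lt hg hl), norm_zero]
        positivity
      have hA : Adm (m + 8) (1 / 4) := by
        refine ⟨by norm_num, le_rfl, ?_⟩
        have : (0 : ℝ) ≤ (m : ℝ) := Nat.cast_nonneg _
        push_cast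
        linarith
      obtain ⟨hev, hdn, -, hdV, heV, he0, hd0⟩ := h5 _ _ hA
      obtain ⟨hlo, -, -⟩ := hlow _ _ hA
      rw [← hlo g (by omega)]
      set V := VW (om (m + 8) (1 / 4)) with hVdef
      set d := dW (om (m + 8) (1 / 4)) with hddef
      set ev := evW (om (m + 8) (1 / 4)) with hedef
      have hb : ∀ l' : ℕ, ev ((d ^ l) ((V ^ l') (sg 0))) = if l' = l then 1 else 0 := by
        intro l'
        rcases lt_trichotomy l' l with h | h | h
        · rw [MF5_gt V d hdV h _ hd0, map_zero, if_neg h.ne]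
        · rw [h, MF5_dV V d hdV, he0, if_pos rfl]
        · rw [MF5_le V d hdV h.le, if_neg h.ne']
          obtain ⟨r, hr⟩ : ∃ r, l' - l = r + 1 := ⟨l' - l - 1, by omega⟩
          rw [hr, pow_succ', mul_apply_eq_comp, heV]
      have hc : g.coeff l = ev ((d ^ l) (aeval V g (sg 0))) := by
        rw [MF5_aeval V g m hg, map_sum, map_sum]
        simp only [map_smul, hb, smul_eq_mul, mul_ite, mul_one, mul_zero]
        rw [sum_ite_eq' (range (m + 1)) l, if_pos (mem_range.2 (by omega))]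
      rw [hc]
      have hdl : ‖d ^ l‖ ≤ dd (m + 8) ^ m := by
        rcases Nat.eq_zero_or_pos l with h0 | h0
        · rw [h0, pow_zero]
          exact ContinuousLinearMap.norm_id_le.trans (one_le_pow₀ hdd)
        · exact (norm_pow_le' d h0).trans
            ((pow_le_pow_left₀ (norm_nonneg _) hdn l).trans (pow_le_pow_right₀ hdd hl))
      calc _ ≤ ‖ev‖ * ‖(d ^ l) (aeval V g (sg 0))‖ := ev.le_opNorm _
        _ ≤ 2 * (((m + 8 : ℕ) : ℝ) + 1) * (dd (m + 8) ^ m * ‖aeval V g (sg 0)‖) :=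
            mul_le_mul hev (((d ^ l).le_opNorm _).trans
              (mul_le_mul_of_nonneg_right hdl (norm_nonneg _))) (norm_nonneg _) (by positivity)
        _ = _ := by ring

end Pool.Agent.IS
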