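import Pool.Agent.P.MP_f981b0_an.IS.Mod
import Pool.Agent.P.MP_f981b0_an.IS52.Cutoff

/-! Incomplete polynomials in the concrete model. -/

set_option autoImplicit false

open Polynomial Finset Filter Topology
open scoped Nat Real

noncomputable section

namespace Pool.Agent.IS

theorem MIpl_coeff (g : ℂ[X]) (n : ℕ) : (bor g).coeff n = g.coeff n / (n ! : ℂ) := by
  unfold bor
  rw [finsetSum_coeff]
  simp only [coeff_monomial]
  rw [Finset.sum_ite_eq']
  split_ifs with h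
  · rfl
  · rw [notMem_support_iff.1 h, zero_div]

/-- The inverse of `bor`. -/
def MIpl_inv (g : ℂ[X]) : ℂ[X] := ∑ l ∈ g.support, monomial l (g.coeff l * (l ! : ℂ))

theorem MIpl_inv_coeff (g : ℂ[X]) (n : ℕ) : (MIpl_inv g).coeff n = g.coeff n * (n ! : ℂ) := by
  unfold MIpl_inv
  rw [finsetSum_coeff]
  simp only [coeff_monomial]
  rw [Finset.sum_ite_eq']
  split_ifs with h
  · rfl
  · rw [notMem_support_iff.1 h, zero_mul]

theorem MIpl_fac (n : ℕ) : (n ! : ℂ) ≠ 0 := by exact_mod_cast Nat.factorial_ne_zero n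

theorem MIpl_der (g : ℂ[X]) : derivative (bor (X * g)) = bor g := by
  ext n
  rw [coeff_derivative, MIpl_coeff, MIpl_coeff, coeff_X_mul, Nat.factorial_succ]
  have h1 := MIpl_fac n
  have h2 : ((n : ℂ) + 1) ≠ 0 := by exact_mod_cast Nat.succ_ne_zero n
  push_cast
  field_simp

theorem MIpl_iter (m : ℕ) (g : ℂ[X]) : derivative^[m] (bor (X ^ m * g)) = bor g := by
  induction m with
  | zero => simp
  | succ m ih => rw [Function.iterate_succ_apply, pow_succ', mul_assoc, MIpl_der, ih]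

theorem p_MIpl (h1 : SM_YN) : SM_Ipl := by
  intro N J f hN
  have hn : ∀ g : ℂ[X], ‖aeval (VW o1) g (sg 0)‖ = IS52.L2 (bor g) := fun g => by
    rw [IS52.L2, ← h1.1 g, Real.sqrt_sq (norm_nonneg _)]
  have h5 : X ^ 5 ∣ bor (X ^ 5 * f) := X_pow_dvd_iff.2 fun d hd => by
    rw [MIpl_coeff, X_pow_dvd_iff.1 (dvd_mul_right _ f) d hd, zero_div]
  have hdeg : (bor (X ^ 5 * f)).natDegree ≤ f.natDegree + 5 := by
    rw [natDegree_le_iff_coeff_eq_zero]
    intro n hn'
    have : (X ^ 5 * f : ℂ[X]).natDegree ≤ f.natDegree + 5 :=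
      natDegree_mul_le.trans (by rw [add_comm]; exact Nat.add_le_add_left (natDegree_X_pow_le 5) _)
    rw [MIpl_coeff, coeff_eq_zero_of_natDegree_lt (lt_of_le_of_lt this hn'), zero_div]
  by_cases hJ : N < J
  · refine ⟨0, by simp, dvd_zero _, fun _ => rfl, ?_⟩
    have hN' : (0 : ℝ) < N := by exact_mod_cast hN
    have h2 : (1 : ℝ) ≤ (J : ℝ) / N := by
      rw [le_div_iff₀ hN', one_mul]
      exact_mod_cast hJ.le
    have h3 : (1 : ℝ) ≤ ((J : ℝ) / N) ^ 4 := one_le_pow₀ h2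
    rw [min_eq_left (by linarith), one_mul, sub_zero, hn, hn]
    refine IS52.L2_le_of_sup _ _ (IS52.L2_nonneg _) fun s hs0 hs1 => ?_
    have h4 := IS52.norm_eval_le_pow4 _ h5 s hs0 hs1
    rw [MIpl_iter] at h4
    exact h4.trans (mul_le_of_le_one_left (IS52.L2_nonneg _) (pow_le_one₀ hs0 hs1))
  · obtain ⟨h, hd, hdv, hL⟩ := IS52.cutoff _ h5 N J hN
    refine ⟨MIpl_inv h, ?_, X_pow_dvd_iff.2 fun d hd' => ?_, fun h' => absurd h' hJ, ?_⟩
    · rw [natDegree_le_iff_coeff_eq_zero]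
      intro n hn'
      rw [MIpl_inv_coeff, coeff_eq_zero_of_natDegree_lt (by omega), zero_mul]
    · rw [MIpl_inv_coeff, X_pow_dvd_iff.1 hdv d hd', zero_mul]
    · have h6 : bor (X ^ 5 * f - MIpl_inv h) = bor (X ^ 5 * f) - h := by
        ext n
        rw [coeff_sub, MIpl_coeff, MIpl_coeff, coeff_sub, MIpl_inv_coeff]
        have := MIpl_fac n
        field_simp
      rw [hn, hn, h6]
      rwa [MIpl_iter] at hL

end Pool.Agent.IS
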