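import Pool.Agent.P.MP_f981b0_an.IS.Mod
import Pool.Agent.P.MP_f981b0_an.IS46.Leg

/-!
Package MLeg of the project IS: algebra of the polynomials `Lt`.
-/

set_option autoImplicit false

open Polynomial Finset
open scoped Nat

noncomputable section

namespace Pool.Agent.IS

theorem MLeg_coeff (i l : ℕ) :
    (Lt i).coeff l = (-1) ^ l * (i.choose l : ℂ) * ((i + l).choose i : ℂ) * (l ! : ℂ) := by
  unfold Lt
  rw [finsetSum_coeff]
  simp only [coeff_monomial]
  rw [Finset.sum_ite_eq']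
  split_ifs with h
  · rfl
  · rw [Nat.choose_eq_zero_of_lt (by simpa using h)]
    simp

theorem MLeg_coeff_P (i l : ℕ) :
    (Lt i).coeff l = (-1) ^ i * (IS46.P i).coeff l * (l ! : ℂ) := by
  have h : ((-1 : ℂ) ^ i) * (-1) ^ i = 1 := by rw [← mul_pow]; simp
  rw [MLeg_coeff, IS46.coeff_P, Nat.choose_symm_add, pow_add]
  linear_combination (-((-1) ^ l * (i.choose l : ℂ) * ((i + l).choose l : ℂ) * (l ! : ℂ))) * h

theorem MLeg_zero : Lt 0 = 1 := by
  simp [Lt]

theorem MLeg_one : Lt 1 = 1 - (2 : ℂ) • X := by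
  ext l
  rw [MLeg_coeff]
  rcases l with _ | _ | l
  · simp
  · simp [coeff_one, coeff_X]
  · rw [Nat.choose_eq_zero_of_lt (by omega)]
    simp [coeff_one, coeff_X]

theorem MLeg_rec (j : ℕ) :
    (2 * (2 * ((j : ℂ) + 1) + 1)) • (X * Lt (j + 1)) = Lt j - Lt (j + 2) := by
  ext l
  rcases l with _ | l
  · rw [coeff_smul, coeff_X_mul_zero, coeff_sub, MLeg_coeff, MLeg_coeff]
    simp
  · have h := congrArg (fun p => p.coeff l) (IS46.derivative_P_sub j)
    simp only [coeff_derivative, coeff_C_mul, coeff_sub] at h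
    rw [coeff_smul, coeff_X_mul, coeff_sub, MLeg_coeff_P, MLeg_coeff_P, MLeg_coeff_P,
      Nat.factorial_succ, smul_eq_mul]
    push_cast
    linear_combination ((-1) ^ j * (l ! : ℂ)) * h

theorem MLeg_deg (i : ℕ) : (Lt i).natDegree ≤ i := by
  rw [natDegree_le_iff_coeff_eq_zero]
  intro l hl
  rw [MLeg_coeff, Nat.choose_eq_zero_of_lt hl]
  simp

theorem MLeg_lead (i : ℕ) : (Lt i).coeff i ≠ 0 := by
  rw [MLeg_coeff_P]
  exact mul_ne_zero (mul_ne_zero (pow_ne_zero _ (by norm_num)) (IS46.coeff_P_self_ne i))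
    (by exact_mod_cast Nat.factorial_ne_zero i)

theorem MLeg_span (m : ℕ) : ∀ g : ℂ[X], (∀ l, m ≤ l → g.coeff l = 0) →
    ∃ c : ℕ → ℂ, g = ∑ i ∈ range m, c i • Lt i := by
  induction m with
  | zero =>
    intro g hg
    exact ⟨0, by ext l; simp [hg l (Nat.zero_le l)]⟩
  | succ m ih =>
    intro g hg
    obtain ⟨c, hc⟩ := ih (g - (g.coeff m / (Lt m).coeff m) • Lt m) (fun l hl => by
      rw [coeff_sub, coeff_smul, smul_eq_mul]
      rcases hl.eq_or_lt with rfl | hl
      · rw [div_mul_cancel₀ _ (MLeg_lead _), sub_self]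
      · rw [hg l hl, coeff_eq_zero_of_natDegree_lt ((MLeg_deg m).trans_lt hl), mul_zero, sub_self])
    refine ⟨Function.update c m (g.coeff m / (Lt m).coeff m), ?_⟩
    rw [sum_range_succ, Function.update_self, Finset.sum_congr rfl fun i hi => by
      rw [Function.update_of_ne (Finset.mem_range.1 hi).ne], ← hc, sub_add_cancel]

theorem MLeg_tail (i l : ℕ) :
    ∑ l' ∈ range (i + 1), (if l ≤ l' then ‖(Lt i).coeff l'‖ / (l' ! : ℝ) else 0) ≤
      (1 / 7) ^ l * 32 ^ i := by
  have h8 : ∑ l' ∈ range (i + 1), (7 : ℝ) ^ l' * (i.choose l' : ℝ) = 8 ^ i := by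
    have := add_pow (7 : ℝ) 1 i
    simp only [one_pow, mul_one] at this
    rw [← this]
    norm_num
  calc _ ≤ ∑ l' ∈ range (i + 1), (1 / 7 : ℝ) ^ l * 4 ^ i * ((7 : ℝ) ^ l' * (i.choose l' : ℝ)) := by
        refine Finset.sum_le_sum fun l' hl' => ?_
        split_ifs with h
        · have hf : (0 : ℝ) < (l' ! : ℝ) := by exact_mod_cast Nat.factorial_pos l'
          have h4 : (((i + l').choose i : ℕ) : ℝ) ≤ 4 ^ i := by
            have h1 : (i + l').choose i ≤ 2 ^ (i + l') := Nat.choose_le_two_pow _ _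
            have h2 : 2 ^ (i + l') ≤ 2 ^ (2 * i) :=
              Nat.pow_le_pow_right (by norm_num) (by have := Finset.mem_range.1 hl'; omega)
            have h3 := h1.trans h2
            rw [pow_mul] at h3
            exact_mod_cast h3
          have h7 : (1 : ℝ) ≤ (1 / 7 : ℝ) ^ l * 7 ^ l' := by
            obtain ⟨d, rfl⟩ := Nat.exists_eq_add_of_le h
            rw [pow_add, ← mul_assoc, ← mul_pow]
            norm_num
            exact one_le_pow₀ (by norm_num)
          rw [MLeg_coeff]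
          simp only [norm_mul, norm_pow, norm_neg, norm_one, one_pow, one_mul, Complex.norm_natCast]
          rw [mul_div_assoc, div_self hf.ne', mul_one]
          calc (i.choose l' : ℝ) * (((i + l').choose i : ℕ) : ℝ)
              ≤ (i.choose l' : ℝ) * 4 ^ i := by gcongr
            _ = 1 * ((i.choose l' : ℝ) * 4 ^ i) := (one_mul _).symm
            _ ≤ ((1 / 7 : ℝ) ^ l * 7 ^ l') * ((i.choose l' : ℝ) * 4 ^ i) := by gcongr
            _ = _ := by ring
        · positivity
    _ = (1 / 7) ^ l * 32 ^ i := by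
        rw [← Finset.mul_sum, h8, mul_assoc, ← mul_pow]
        norm_num

theorem p_MLeg : SM_Leg := by
  refine ⟨MLeg_zero, ?_, MLeg_rec, MLeg_deg, fun m g hg => MLeg_span (m + 1) g fun l hl =>
    coeff_eq_zero_of_natDegree_lt (by omega), MLeg_tail⟩
  rw [MLeg_zero, MLeg_one, mul_one, sub_sub_cancel]

end Pool.Agent.IS
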