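import Pool.Agent.P.MP_f981b0_an.IS.Mod
import Pool.Agent.P.MP_f981b0_an.IS78.G1

/-! Polynomial vectors, inclusions and powers in the concrete model. -/

set_option autoImplicit false

open Polynomial Finset Filter Topology
open scoped Nat Real

noncomputable section

namespace Pool.Agent.IS

theorem MLow_wg_ne {o : ℕ → ℝ} {i : ℕ} (h : 0 < o i) : (wg o i : ℂ) ≠ 0 := by
  have : 0 < wg o i := div_pos h (Real.sqrt_pos.2 (by positivity))
  exact_mod_cast this.ne'

theorem MLow_sg {o : ℕ → ℝ} {i : ℕ} (h : 0 < o i) : sg i = (wg o i : ℂ)⁻¹ • pv o i := by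
  rw [pv, smul_smul, inv_mul_cancel₀ (MLow_wg_ne h), one_smul]

theorem MLow_pv0 {o : ℕ → ℝ} (h : o 0 = 1) : pv o 0 = sg 0 := by
  simp [pv, wg, h]

theorem MLow_aeval (h4 : SM_V) {o : ℕ → ℝ} {k : ℝ} (h : Wt o k) (s : Finset ℕ) (c : ℕ → ℂ) :
    aeval (VW o) (∑ i ∈ s, c i • Lt i) (sg 0) = ∑ i ∈ s, c i • pv o i := by
  rw [map_sum, ContinuousLinearMap.sum_apply]
  refine sum_congr rfl fun i _ => ?_
  rw [map_smul, ContinuousLinearMap.smul_apply, (h4.1 o k h).2.2.2.2.2.2 i]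

theorem MLow_one (h1 : SM_Schur) (h2 : SM_Diag) (h4 : SM_V) (o : ℕ → ℝ) (k : ℝ) (o' : ℕ → ℝ)
    (k' : ℝ) (h : Wt o k) (h' : Wt o' k') (hle : ∀ i, o' i ≤ o i) :
    (∀ v, JW o o' (VW o v) = VW o' (JW o o' v)) ∧ JW o o' (sg 0) = sg 0 ∧
      ∀ m v, JW o o' (piW m v) = piW m (JW o o' v) := by
  obtain ⟨j1, -, j3⟩ := h2.2.2.2.2.1 o o' fun i => ⟨(h'.2.2.2 i).1, hle i⟩
  obtain ⟨-, a0, a1, -⟩ := h4.1 o k h
  obtain ⟨-, b0, b1, -⟩ := h4.1 o' k' h'
  refine ⟨?_, ?_, ?_⟩
  · have key : ∀ j, JW o o' (VW o (pv o j)) = VW o' (JW o o' (pv o j)) := by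
      intro j
      rw [j3]
      cases j with
      | zero =>
        have e := congrArg (JW o o') a0
        rw [map_smul, map_sub, j3, j3, ← b0] at e
        exact smul_right_injective E two_ne_zero e
      | succ j =>
        have e := congrArg (JW o o') (a1 j)
        rw [map_smul, map_sub, j3, j3, ← b1 j] at e
        have hne : (2 * (2 * ((j : ℂ) + 1) + 1)) ≠ 0 := by
          exact_mod_cast (by omega : 2 * (2 * (j + 1) + 1) ≠ 0)
        exact smul_right_injective E hne e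
    have e : JW o o' ∘L VW o = VW o' ∘L JW o o' := by
      refine h1.2.2.2.1 E _ _ fun j => ?_
      rw [MLow_sg (h.2.2.2 j).1, map_smul, map_smul]
      exact congrArg _ (key j)
    intro v
    exact congrArg (fun T : E →L[ℂ] E => T v) e
  · have := j3 0
    rwa [MLow_pv0 h.2.2.1, MLow_pv0 h'.2.2.1] at this
  · intro m v
    ext i
    rw [j1, h2.1, h2.1, j1]
    split_ifs
    · rfl
    · exact mul_zero _

theorem p_MLow (h1 : SM_Schur) (h2 : SM_Diag) (h3 : SM_Leg) (h4 : SM_V) (h5 : SM_YN) : SM_Low := by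
  have hJ := h2.2.2.2.2.1
  have w1 : Wt o1 0 := h2.2.2.2.2.2.1
  have hW := h2.2.2.2.2.2.2.1
  have hM := h2.2.2.2.2.2.2.2.1
  refine ⟨MLow_one h1 h2 h4, ?_, ?_, ?_⟩
  · intro D k D' k' a a' hD hk v
    have p1 : ∀ i, 0 < om D k i := fun i => ((hW D k a).1.2.2.2 i).1
    have p2 : ∀ i, 0 < om D' k' i := fun i => ((hW D' k' a').1.2.2.2 i).1
    ext i
    rw [(hJ (om D' k') o1 fun i => ⟨one_pos, ((hW D' k' a').2.1 i).1⟩).1,
      (hJ (om D k) (om D' k') fun i => ⟨p2 i, hM D k D' k' a a' hD hk i⟩).1,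
      (hJ (om D k) o1 fun i => ⟨one_pos, ((hW D k a).2.1 i).1⟩).1, ← mul_assoc,
      ← Complex.ofReal_mul]
    congr 2
    have := (p1 i).ne'
    have := (p2 i).ne'
    field_simp
  · intro o k h m v
    refine ⟨∑ i ∈ range (m + 1), (v i * (wg o i : ℂ)⁻¹) • Lt i, ?_, ?_⟩
    · refine natDegree_sum_le_of_forall_le _ _ fun i hi => (natDegree_smul_le _ _).trans ?_
      exact (h3.2.2.2.1 i).trans (Nat.lt_succ_iff.1 (mem_range.1 hi))
    · rw [MLow_aeval h4 h, h2.2.2.2.1]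
      refine sum_congr rfl fun i _ => ?_
      rw [mul_smul, ← MLow_sg (h.2.2.2 i).1]
  · intro D k a
    obtain ⟨wo, ob, oe⟩ := hW D k a
    refine ⟨?_, ?_, ?_⟩
    · intro g hg
      obtain ⟨c, rfl⟩ := h3.2.2.2.2.1 D g hg
      rw [MLow_aeval h4 wo, MLow_aeval h4 w1]
      refine sum_congr rfl fun i hi => ?_
      rw [pv, pv, wg, wg, oe i (Nat.lt_succ_iff.1 (mem_range.1 hi))]
      rfl
    · intro m g hg
      obtain ⟨c, rfl⟩ := h3.2.2.2.2.1 m g hg
      have f0 : (0 : ℝ) < (m ! : ℝ) := by exact_mod_cast Nat.factorial_pos m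
      obtain ⟨-, j2, j3⟩ := hJ (fun _ => (m ! : ℝ)) (fun i => min (om D k i) (m ! : ℝ))
        fun i => ⟨lt_min (wo.2.2.2 i).1 f0, min_le_right _ _⟩
      have e : ∑ i ∈ range (m + 1), c i • pv (om D k) i =
          JW (fun _ => (m ! : ℝ)) (fun i => min (om D k i) (m ! : ℝ))
            (((m ! : ℝ) : ℂ) • ∑ i ∈ range (m + 1), c i • pv o1 i) := by
        rw [smul_sum, map_sum]
        refine sum_congr rfl fun i hi => ?_
        have hi' : i ≤ m := Nat.lt_succ_iff.1 (mem_range.1 hi)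
        have l1 : om D k i ≤ (m ! : ℝ) :=
          (ob i).2.trans (by exact_mod_cast Nat.factorial_le hi')
        have e1 : ((m ! : ℝ) : ℂ) • pv o1 i = pv (fun _ => (m ! : ℝ)) i := by
          rw [pv, pv, smul_smul, ← Complex.ofReal_mul, wg, wg, o1, mul_one_div]
        rw [smul_comm, map_smul, e1, j3, pv, pv, wg, wg, min_eq_left l1]
      rw [MLow_aeval h4 wo, MLow_aeval h4 w1, e]
      refine (ContinuousLinearMap.le_opNorm _ _).trans ?_
      rw [norm_smul, Complex.norm_real, Real.norm_of_nonneg f0.le]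
      exact mul_le_of_le_one_left (by positivity) j2
    · intro N hN hD
      obtain ⟨-, -, -, t1, t2, t3, -⟩ := h4.1 _ _ wo
      refine (Pool.Agent.P.MP_f981b0_an.IS78.norm_pow_le (VW (om D k)) (VW o1) piW
        (c := 1 / (N : ℝ) + k) D N hD (fun m => (h2.2.1 m).1) (fun m => (h2.2.1 m).2) ?_ ?_
        (h4.2.1 D k a).2 ?_).trans (add_le_add (h5.2.2 N) le_rfl)
      · intro m
        have := t3 m
        rw [mul_assoc, sub_mul, one_mul, sub_eq_zero] at this
        exact this.symm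
      · intro m
        rw [sub_mul, one_mul, ← mul_assoc, t2 m, sub_zero]
      · intro m hm
        refine (t1 m (hN.trans hm)).trans (add_le_add ?_ le_rfl)
        exact one_div_le_one_div_of_le (by exact_mod_cast hN) (by exact_mod_cast hm)

end Pool.Agent.IS
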