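import Mathlib

/-!
Minimum modulus on a circle (lemma MM of the note of helper26).
-/

set_option autoImplicit false

open Polynomial Metric

namespace Pool.Agent.P.MP_f981b0_an.IS

/-- A real monic product of `m` linear factors is at least `m!/2^m` at one of `0, …, m`. -/
theorem exists_node_large (s : Multiset ℝ) :
    ∃ j : ℕ, j ≤ s.card ∧
      ((s.card).factorial : ℝ) / 2 ^ s.card ≤ (s.map fun a => |(j : ℝ) - a|).prod := by
  by_contra hcon
  push Not at hcon
  set q : ℝ[X] := (s.map fun a => X - C a).prod with hq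
  have hmon : q.Monic := monic_multiset_prod_of_monic _ _ fun a _ => monic_X_sub_C a
  have hdeg : q.natDegree = s.card := natDegree_multiset_prod_X_sub_C_eq_card s
  have h1 := congrFun (Polynomial.fwdDiff_iter_degree_eq_factorial q) 0
  rw [fwdDiff_iter_eq_sum_shift, hdeg, hmon.leadingCoeff] at h1
  have hev : ∀ j : ℕ, |q.eval (0 + j • (1 : ℝ))| = (s.map fun a => |(j : ℝ) - a|).prod := by
    intro j
    rw [hq, eval_multiset_prod, Multiset.map_map, ← Real.norm_eq_abs, ← normHom_apply,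
      map_multiset_prod, Multiset.map_map]
    simp
  have h2 : ((s.card).factorial : ℝ) = |∑ k ∈ Finset.range (s.card + 1),
      ((-1 : ℤ) ^ (s.card - k) * (s.card).choose k) • q.eval (0 + k • (1 : ℝ))| := by
    rw [h1]; simp
  have h3 : |∑ k ∈ Finset.range (s.card + 1),
      ((-1 : ℤ) ^ (s.card - k) * (s.card).choose k) • q.eval (0 + k • (1 : ℝ))| <
      ∑ k ∈ Finset.range (s.card + 1),
        ((s.card).choose k : ℝ) * (((s.card).factorial : ℝ) / 2 ^ s.card) := by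
    refine (Finset.abs_sum_le_sum_abs _ _).trans_lt ?_
    refine Finset.sum_lt_sum_of_nonempty (by simp) fun k hk => ?_
    have hk' : k ≤ s.card := Nat.lt_succ_iff.mp (Finset.mem_range.mp hk)
    rw [zsmul_eq_mul, abs_mul, hev]
    have hc : (0 : ℝ) < (s.card).choose k := by exact_mod_cast Nat.choose_pos hk'
    have : |(((-1 : ℤ) ^ (s.card - k) * (s.card).choose k : ℤ) : ℝ)| = (s.card).choose k := by
      push_cast
      rw [abs_mul, abs_pow, abs_neg, abs_one, one_pow, one_mul, abs_of_pos hc]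
    rw [this]
    exact mul_lt_mul_of_pos_left (hcon k hk') hc
  rw [← h2, ← Finset.sum_mul] at h3
  have h4 : ∑ k ∈ Finset.range (s.card + 1), ((s.card).choose k : ℝ) = 2 ^ s.card := by
    exact_mod_cast Nat.sum_range_choose s.card
  rw [h4, mul_div_cancel₀ _ (by positivity)] at h3
  exact lt_irrefl _ h3

theorem prod_map_mul_const (s : Multiset ℂ) (g : ℂ → ℝ) (c : ℝ) :
    (s.map fun a => g a * c).prod = (s.map g).prod * c ^ s.card := by
  rw [Multiset.prod_map_mul]; simp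

/-- For every polynomial there is a radius in `[r, 2r]` on whose circle the polynomial is at least
`32^(-deg)` times any of its values in the disc of radius `r`. -/
theorem poly_circle (P : ℂ[X]) {r : ℝ} (hr : 0 < r) :
    ∃ r2, r ≤ r2 ∧ r2 ≤ 2 * r ∧ ∀ z z0 : ℂ, ‖z‖ = r2 → ‖z0‖ ≤ r →
      ‖P.eval z0‖ ≤ 32 ^ P.natDegree * ‖P.eval z‖ := by
  have hcard : P.roots.card = P.natDegree := IsAlgClosed.card_roots_eq_natDegree
  have hsp : P.Splits := IsAlgClosed.splits P
  have hev : ∀ z : ℂ, ‖P.eval z‖ = ‖P.leadingCoeff‖ * (P.roots.map fun a => ‖z - a‖).prod := by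
    intro z
    rw [hsp.eval_eq_prod_roots, norm_mul, ← normHom_apply (Multiset.prod _), map_multiset_prod,
      Multiset.map_map]
    simp
  set m := P.natDegree with hm
  rcases Nat.eq_zero_or_pos m with h0 | hpos
  · refine ⟨r, le_rfl, by linarith, fun z z0 _ _ => ?_⟩
    have : P.roots = 0 := Multiset.card_eq_zero.mp (hcard.trans h0)
    rw [hev, hev, this, h0]; simp
  have hmR : (0 : ℝ) < m := by exact_mod_cast hpos
  obtain ⟨j, hj, hJ⟩ := exists_node_large
    (P.roots.map fun a => (min ‖a‖ (3 * r) - r) * m / r)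
  rw [Multiset.card_map, hcard] at hj hJ
  rw [Multiset.map_map] at hJ
  have hjR : (j : ℝ) ≤ m := by exact_mod_cast hj
  set x : ℝ := r + j * r / m with hx
  have hx1 : r ≤ x := by rw [hx]; have : 0 ≤ (j : ℝ) * r / m := by positivity
                         linarith
  have hx2 : x ≤ 2 * r := by
    rw [hx]
    have : (j : ℝ) * r / m ≤ r := by rw [div_le_iff₀ hmR]; nlinarith
    linarith
  refine ⟨x, hx1, hx2, fun z z0 hz hz0 => ?_⟩
  -- factorwise comparison
  have hfac : ∀ a : ℂ, ‖z0 - a‖ * |(j : ℝ) - (min ‖a‖ (3 * r) - r) * m / r| ≤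
      ‖z - a‖ * (4 * m) := by
    intro a
    have e1 : (j : ℝ) - (min ‖a‖ (3 * r) - r) * m / r = (x - min ‖a‖ (3 * r)) * (m / r) := by
      rw [hx]; field_simp; ring
    rw [e1, abs_mul, abs_of_pos (div_pos hmR hr)]
    have h1 : ‖z0 - a‖ ≤ r + ‖a‖ := (norm_sub_le _ _).trans (by linarith)
    have h2 : |x - ‖a‖| ≤ ‖z - a‖ := by rw [← hz]; exact abs_norm_sub_norm_le _ _
    have key : (r + ‖a‖) * |x - min ‖a‖ (3 * r)| ≤ |x - ‖a‖| * (4 * r) := by
      rcases le_total ‖a‖ (3 * r) with h | h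
      · rw [min_eq_left h]
        have := abs_nonneg (x - ‖a‖)
        nlinarith
      · rw [min_eq_right h, abs_of_nonpos (by linarith), abs_of_nonpos (by linarith)]
        nlinarith
    have h3 : ‖z0 - a‖ * |x - min ‖a‖ (3 * r)| ≤ ‖z - a‖ * (4 * r) :=
      calc _ ≤ (r + ‖a‖) * |x - min ‖a‖ (3 * r)| :=
            mul_le_mul_of_nonneg_right h1 (abs_nonneg _)
        _ ≤ |x - ‖a‖| * (4 * r) := key
        _ ≤ _ := mul_le_mul_of_nonneg_right h2 (by positivity)
    calc ‖z0 - a‖ * (|x - min ‖a‖ (3 * r)| * (m / r))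
        = ‖z0 - a‖ * |x - min ‖a‖ (3 * r)| * (m / r) := by ring
      _ ≤ ‖z - a‖ * (4 * r) * (m / r) := mul_le_mul_of_nonneg_right h3 (by positivity)
      _ = ‖z - a‖ * (4 * m) := by field_simp
  have hprod : (P.roots.map fun a => ‖z0 - a‖).prod *
      (P.roots.map fun a => |(j : ℝ) - (min ‖a‖ (3 * r) - r) * m / r|).prod ≤
      (P.roots.map fun a => ‖z - a‖).prod * (4 * m) ^ m := by
    rw [← Multiset.prod_map_mul]
    have := prod_map_mul_const P.roots (fun a => ‖z - a‖) (4 * m)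
    rw [hcard] at this
    rw [← this]
    exact Multiset.prod_map_le_prod_map₀ _ _ (fun a _ => by positivity) fun a _ => hfac a
  have hA : 0 ≤ (P.roots.map fun a => ‖z0 - a‖).prod :=
    Multiset.prod_nonneg fun y hy => by
      obtain ⟨a, -, rfl⟩ := Multiset.mem_map.mp hy; positivity
  have hB : 0 ≤ (P.roots.map fun a => ‖z - a‖).prod :=
    Multiset.prod_nonneg fun y hy => by
      obtain ⟨a, -, rfl⟩ := Multiset.mem_map.mp hy; positivity
  have hf : (0 : ℝ) < m.factorial := by exact_mod_cast m.factorial_pos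
  have hexp : (m : ℝ) ^ m ≤ 4 ^ m * m.factorial := by
    have h1 : (m : ℝ) ^ m / m.factorial ≤ Real.exp m := Real.pow_div_factorial_le_exp _ hmR.le m
    have h2 : Real.exp m ≤ 4 ^ m := by
      rw [← mul_one (m : ℝ), Real.exp_nat_mul]
      exact pow_le_pow_left₀ (Real.exp_pos _).le
        ((Real.exp_one_lt_d9.le).trans (by norm_num)) m
    rw [div_le_iff₀ hf] at h1
    nlinarith
  have h5 : (P.roots.map fun a => ‖z0 - a‖).prod * (m.factorial / 2 ^ m) ≤
      (P.roots.map fun a => ‖z - a‖).prod * (4 * m) ^ m :=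
    (mul_le_mul_of_nonneg_left hJ hA).trans hprod
  have h6 : (4 * (m : ℝ)) ^ m ≤ 32 ^ m * (m.factorial / 2 ^ m) := by
    rw [mul_pow]
    calc (4 : ℝ) ^ m * (m : ℝ) ^ m ≤ 4 ^ m * (4 ^ m * m.factorial) :=
          mul_le_mul_of_nonneg_left hexp (by positivity)
      _ = 32 ^ m * (m.factorial / 2 ^ m) := by
          have : (32 : ℝ) ^ m = 4 ^ m * 4 ^ m * 2 ^ m := by
            rw [← mul_pow, ← mul_pow]; norm_num
          rw [this]; field_simp
  have h7 : (P.roots.map fun a => ‖z0 - a‖).prod ≤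
      32 ^ m * (P.roots.map fun a => ‖z - a‖).prod := by
    have hp : (0 : ℝ) < m.factorial / 2 ^ m := by positivity
    refine le_of_mul_le_mul_right ?_ hp
    calc _ ≤ _ := h5
      _ ≤ (P.roots.map fun a => ‖z - a‖).prod * (32 ^ m * (m.factorial / 2 ^ m)) :=
          mul_le_mul_of_nonneg_left h6 hB
      _ = _ := by ring
  rw [hev, hev]
  calc _ ≤ ‖P.leadingCoeff‖ * (32 ^ m * (P.roots.map fun a => ‖z - a‖).prod) :=
        mul_le_mul_of_nonneg_left h7 (norm_nonneg _)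
    _ = _ := by ring

/-- Taylor polynomial of degree `n` with tail at most `2 M 64^(-(n+1))` on the disc of
radius `2 r`. -/
theorem taylor_tail {f : ℂ → ℂ} {c : ℂ} {M r : ℝ} (hr : 0 < r)
    (hf : ∀ z, ‖z - c‖ ≤ 128 * r → DifferentiableAt ℂ f z)
    (hM : ∀ z, ‖z - c‖ ≤ 128 * r → ‖f z‖ ≤ M) (n : ℕ) :
    ∃ P : ℂ[X], P.natDegree ≤ n ∧ ∀ z, ‖z - c‖ ≤ 2 * r →
      ‖f z - P.eval (z - c)‖ ≤ 2 * M * (1 / 64) ^ (n + 1) := by
  have hR : 0 < 128 * r := by positivity
  have hM0 : 0 ≤ M := (norm_nonneg _).trans (hM c (by simp; positivity))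
  have hcl : DifferentiableOn ℂ f (closedBall c (128 * r)) := fun z hz =>
    (hf z (mem_closedBall_iff_norm.mp hz)).differentiableWithinAt
  have hd : DiffContOnCl ℂ f (ball c (128 * r)) := hcl.diffContOnCl_ball subset_rfl
  set a : ℕ → ℂ := fun k => (k.factorial : ℂ)⁻¹ * iteratedDeriv k f c with ha
  have hab : ∀ k, ‖a k‖ ≤ M / (128 * r) ^ k := by
    intro k
    have h := Complex.norm_iteratedDeriv_le_of_forall_mem_sphere_norm_le k hR hd
      (C := M) fun z hz => hM z (mem_sphere_iff_norm.mp hz).le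
    have hk : (0 : ℝ) < k.factorial := by exact_mod_cast k.factorial_pos
    rw [ha]
    simp only [norm_mul, norm_inv, Complex.norm_natCast]
    rw [inv_mul_le_iff₀ hk]
    rwa [mul_div_assoc] at h
  refine ⟨∑ k ∈ Finset.range (n + 1), monomial k (a k), ?_, fun z hz => ?_⟩
  · refine natDegree_sum_le_of_forall_le _ _ fun k hk => ?_
    exact (natDegree_monomial_le _).trans (Nat.lt_succ_iff.mp (Finset.mem_range.mp hk))
  have hs := Complex.hasSum_taylorSeries_on_ball (hcl.mono ball_subset_closedBall)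
    (z := z) (mem_ball_iff_norm.mpr (by linarith))
  have hs' : HasSum (fun k => a k * (z - c) ^ k) (f z) := by
    have : (fun k => a k * (z - c) ^ k) =
        fun k : ℕ => (k.factorial : ℂ)⁻¹ • (z - c) ^ k • iteratedDeriv k f c := by
      funext k
      simp only [ha, smul_eq_mul]; ring
    rw [this]; exact hs
  have ht := (hasSum_nat_add_iff' (n + 1)).mpr hs'
  have hP : (∑ k ∈ Finset.range (n + 1), monomial k (a k) : ℂ[X]).eval (z - c) =
      ∑ k ∈ Finset.range (n + 1), a k * (z - c) ^ k := by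
    simp [eval_finsetSum]
  rw [hP]
  have hg : HasSum (fun k : ℕ => M * (1 / 64 : ℝ) ^ (n + 1) * (1 / 64) ^ k)
      (M * (1 / 64 : ℝ) ^ (n + 1) * (1 - 1 / 64)⁻¹) :=
    (hasSum_geometric_of_lt_one (by norm_num) (by norm_num)).mul_left _
  have hb : ∀ k : ℕ, ‖a (k + (n + 1)) * (z - c) ^ (k + (n + 1))‖ ≤
      M * (1 / 64 : ℝ) ^ (n + 1) * (1 / 64) ^ k := by
    intro k
    rw [norm_mul, norm_pow]
    calc _ ≤ M / (128 * r) ^ (k + (n + 1)) * (2 * r) ^ (k + (n + 1)) :=
          mul_le_mul (hab _) (pow_le_pow_left₀ (norm_nonneg _) hz _) (by positivity)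
            (by positivity)
      _ = M * ((2 * r) / (128 * r)) ^ (k + (n + 1)) := by rw [div_pow]; ring
      _ = M * (1 / 64 : ℝ) ^ (n + 1) * (1 / 64) ^ k := by
          have : (2 * r) / (128 * r) = 1 / 64 := by field_simp; norm_num
          rw [this, pow_add]; ring
  refine (ht.norm_le_of_bounded hg hb).trans ?_
  have : 0 ≤ M * (1 / 64 : ℝ) ^ (n + 1) := by positivity
  nlinarith

/-- Lemma MM: minimum modulus on a circle. -/
theorem mm {f : ℂ → ℂ} {c z0 : ℂ} {M r A : ℝ} (hr : 0 < r) (hA : 1 ≤ A)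
    (hf : ∀ z, ‖z - c‖ ≤ 128 * r → DifferentiableAt ℂ f z)
    (hM : ∀ z, ‖z - c‖ ≤ 128 * r → ‖f z‖ ≤ M)
    (hz0 : ‖z0 - c‖ ≤ r) (h0 : M * Real.exp (-A) ≤ ‖f z0‖) :
    ∃ r2, r ≤ r2 ∧ r2 ≤ 2 * r ∧ ∀ z, ‖z - c‖ = r2 → M * Real.exp (-(12 * A)) ≤ ‖f z‖ := by
  have hM0 : 0 ≤ M := (norm_nonneg _).trans (hM c (by simp; positivity))
  set n : ℕ := ⌈3 / 2 * A⌉₊ with hn
  have hn1 : 3 / 2 * A ≤ n := Nat.le_ceil _
  have hn2 : (n : ℝ) ≤ 3 / 2 * A + 1 := (Nat.ceil_lt_add_one (by positivity)).le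
  obtain ⟨P, hdeg, hP⟩ := taylor_tail hr hf hM n
  obtain ⟨r2, h1, h2, hc⟩ := poly_circle P hr
  refine ⟨r2, h1, h2, fun z hz => ?_⟩
  have e1 := hP z0 (by linarith)
  have e2 := hP z (by linarith)
  have e3 := hc (z - c) (z0 - c) hz hz0
  have e4 : (32 : ℝ) ^ P.natDegree ≤ 32 ^ n := pow_le_pow_right₀ (by norm_num) hdeg
  have e5 : ‖P.eval (z0 - c)‖ ≤ 32 ^ n * ‖P.eval (z - c)‖ :=
    e3.trans (mul_le_mul_of_nonneg_right e4 (norm_nonneg _))
  have t1 : ‖f z0‖ ≤ ‖P.eval (z0 - c)‖ + 2 * M * (1 / 64) ^ (n + 1) := by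
    have := norm_le_norm_add_norm_sub' (f z0) (P.eval (z0 - c))
    linarith
  have t2 : ‖P.eval (z - c)‖ ≤ ‖f z‖ + 2 * M * (1 / 64) ^ (n + 1) := by
    have := norm_le_norm_add_norm_sub (f z) (P.eval (z - c))
    linarith
  -- `2^(-n) ≤ e^(-A)`
  have hl2 : (2 : ℝ) / 3 ≤ Real.log 2 := le_trans (by norm_num) Real.log_two_gt_d9.le
  have hl2' : Real.log 2 ≤ 0.7 := le_trans Real.log_two_lt_d9.le (by norm_num)
  have h2n : (1 / 2 : ℝ) ^ n ≤ Real.exp (-A) := by
    have : (1 / 2 : ℝ) ^ n = Real.exp (-(n * Real.log 2)) := by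
      rw [Real.exp_neg, Real.exp_nat_mul, Real.exp_log (by norm_num)]; simp
    rw [this]
    refine Real.exp_le_exp.mpr ?_
    have : (0 : ℝ) ≤ n := Nat.cast_nonneg _
    nlinarith
  set T : ℝ := 2 * M * (1 / 64) ^ (n + 1) with hT
  have hT1 : 32 ^ n * T ≤ M * Real.exp (-A) / 32 := by
    have : (32 : ℝ) ^ n * T = M * (1 / 2) ^ n / 32 := by
      have h64 : (1 / 2 : ℝ) ^ n = 32 ^ n * (1 / 64) ^ n := by rw [← mul_pow]; norm_num
      rw [hT, h64, pow_succ]; ring
    rw [this]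
    exact div_le_div_of_nonneg_right (mul_le_mul_of_nonneg_left h2n hM0) (by norm_num)
  have hT0 : 0 ≤ T := by positivity
  have h32 : (1 : ℝ) ≤ 32 ^ n := one_le_pow₀ (by norm_num)
  have hT2 : T ≤ 32 ^ n * T := le_mul_of_one_le_left hT0 h32
  have hmain : M * Real.exp (-A) / 2 ≤ 32 ^ n * ‖f z‖ := by
    have : (32 : ℝ) ^ n * ‖P.eval (z - c)‖ ≤ 32 ^ n * (‖f z‖ + T) :=
      mul_le_mul_of_nonneg_left t2 (by positivity)
    have h9 : 0 ≤ M * Real.exp (-A) := by positivity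
    nlinarith
  have hlast : 32 ^ n * Real.exp (-(12 * A)) ≤ Real.exp (-A) / 2 := by
    have a1 : (32 : ℝ) ^ n = Real.exp (n * (5 * Real.log 2)) := by
      rw [Real.exp_nat_mul, show (5 : ℝ) * Real.log 2 = (5 : ℕ) * Real.log 2 by norm_num,
        Real.exp_nat_mul, Real.exp_log (by norm_num)]
      norm_num
    have a2 : Real.exp (-A) / 2 = Real.exp (-A - Real.log 2) := by
      rw [Real.exp_sub, Real.exp_log (by norm_num)]
    rw [a1, a2, ← Real.exp_add]
    refine Real.exp_le_exp.mpr ?_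
    have : (0 : ℝ) ≤ n := Nat.cast_nonneg _
    nlinarith
  refine le_of_mul_le_mul_left ?_ (show (0 : ℝ) < 32 ^ n by positivity)
  calc (32 : ℝ) ^ n * (M * Real.exp (-(12 * A))) = M * (32 ^ n * Real.exp (-(12 * A))) := by ring
    _ ≤ M * (Real.exp (-A) / 2) := mul_le_mul_of_nonneg_left hlast hM0
    _ = M * Real.exp (-A) / 2 := by ring
    _ ≤ _ := hmain

end Pool.Agent.P.MP_f981b0_an.IS
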