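import Pool.Agent.P.MP_f981b0_an.IS.Stmt
import Pool.Agent.P.MP_f981b0_an.IS.MM

/-!
Package MM of the project IS: minimum modulus on a circle.
-/

set_option autoImplicit false

open Polynomial Metric

namespace Pool.Agent.IS

/-- Taylor polynomial of degree `n` with tail at most `2 M 64^(-(n+1))` on the disc of
radius `2 r`. -/
theorem MM_tail {f : ℂ → ℂ} {c : ℂ} {M r : ℝ} (hr : 0 < r)
    (hf : DifferentiableOn ℂ f (closedBall c (128 * r)))
    (hM : ∀ z, ‖z - c‖ ≤ 128 * r → ‖f z‖ ≤ M) (n : ℕ) :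
    ∃ P : ℂ[X], P.natDegree ≤ n ∧ ∀ z, ‖z - c‖ ≤ 2 * r →
      ‖f z - P.eval (z - c)‖ ≤ 2 * M * (1 / 64) ^ (n + 1) := by
  have hR : 0 < 128 * r := by positivity
  have hM0 : 0 ≤ M := (norm_nonneg _).trans (hM c (by simp; positivity))
  have hcl : DifferentiableOn ℂ f (closedBall c (128 * r)) := hf
  have hd : DiffContOnCl ℂ f (ball c (128 * r)) := hcl.diffContOnCl_ball subset_rfl
  set a : ℕ → ℂ := fun k => (k.factorial : ℂ)⁻¹ * iteratedDeriv k f c with ha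
  have hab : ∀ k, ‖a k‖ ≤ M / (128 * r) ^ k := by
    intro k
    have h := Complex.norm_iteratedDeriv_le_of_forall_mem_sphere_norm_le k hR hd
      (C := M) fun z hz => hM z (mem_sphere_iff_norm.mp hz).le
    have hk : (0 : ℝ) < k.factorial := by exact_mod_cast k.factorial_pos
    rw [ha]
    simp only [norm_mul, norm_inv, Complex.norm_natCast]
    rw [inv_mul_le_iff₀ hk]
    rwa [mul_div_assoc] at h
  refine ⟨∑ k ∈ Finset.range (n + 1), monomial k (a k), ?_, fun z hz => ?_⟩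
  · refine natDegree_sum_le_of_forall_le _ _ fun k hk => ?_
    exact (natDegree_monomial_le _).trans (Nat.lt_succ_iff.mp (Finset.mem_range.mp hk))
  have hs := Complex.hasSum_taylorSeries_on_ball (hcl.mono ball_subset_closedBall)
    (z := z) (mem_ball_iff_norm.mpr (by linarith))
  have hs' : HasSum (fun k => a k * (z - c) ^ k) (f z) := by
    have : (fun k => a k * (z - c) ^ k) =
        fun k : ℕ => (k.factorial : ℂ)⁻¹ • (z - c) ^ k • iteratedDeriv k f c := by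
      funext k
      simp only [ha, smul_eq_mul]; ring
    rw [this]; exact hs
  have ht := (hasSum_nat_add_iff' (n + 1)).mpr hs'
  have hP : (∑ k ∈ Finset.range (n + 1), monomial k (a k) : ℂ[X]).eval (z - c) =
      ∑ k ∈ Finset.range (n + 1), a k * (z - c) ^ k := by
    simp [eval_finsetSum]
  rw [hP]
  have hg : HasSum (fun k : ℕ => M * (1 / 64 : ℝ) ^ (n + 1) * (1 / 64) ^ k)
      (M * (1 / 64 : ℝ) ^ (n + 1) * (1 - 1 / 64)⁻¹) :=
    (hasSum_geometric_of_lt_one (by norm_num) (by norm_num)).mul_left _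
  have hb : ∀ k : ℕ, ‖a (k + (n + 1)) * (z - c) ^ (k + (n + 1))‖ ≤
      M * (1 / 64 : ℝ) ^ (n + 1) * (1 / 64) ^ k := by
    intro k
    rw [norm_mul, norm_pow]
    calc _ ≤ M / (128 * r) ^ (k + (n + 1)) * (2 * r) ^ (k + (n + 1)) :=
          mul_le_mul (hab _) (pow_le_pow_left₀ (norm_nonneg _) hz _) (by positivity)
            (by positivity)
      _ = M * ((2 * r) / (128 * r)) ^ (k + (n + 1)) := by rw [div_pow]; ring
      _ = M * (1 / 64 : ℝ) ^ (n + 1) * (1 / 64) ^ k := by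
          have : (2 * r) / (128 * r) = 1 / 64 := by field_simp; norm_num
          rw [this, pow_add]; ring
  refine (ht.norm_le_of_bounded hg hb).trans ?_
  have : 0 ≤ M * (1 / 64 : ℝ) ^ (n + 1) := by positivity
  nlinarith

/-- Lemma MM: minimum modulus on a circle. -/
theorem MM_mm {f : ℂ → ℂ} {c z0 : ℂ} {M r A : ℝ} (hr : 0 < r) (hA : 1 ≤ A)
    (hf : DifferentiableOn ℂ f (closedBall c (128 * r)))
    (hM : ∀ z, ‖z - c‖ ≤ 128 * r → ‖f z‖ ≤ M)
    (hz0 : ‖z0 - c‖ ≤ r) (h0 : M * Real.exp (-A) ≤ ‖f z0‖) :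
    ∃ r2, r ≤ r2 ∧ r2 ≤ 2 * r ∧ ∀ z, ‖z - c‖ = r2 → M * Real.exp (-(12 * A)) ≤ ‖f z‖ := by
  have hM0 : 0 ≤ M := (norm_nonneg _).trans (hM c (by simp; positivity))
  set n : ℕ := ⌈3 / 2 * A⌉₊ with hn
  have hn1 : 3 / 2 * A ≤ n := Nat.le_ceil _
  have hn2 : (n : ℝ) ≤ 3 / 2 * A + 1 := (Nat.ceil_lt_add_one (by positivity)).le
  obtain ⟨P, hdeg, hP⟩ := MM_tail hr hf hM n
  obtain ⟨r2, h1, h2, hc⟩ := Pool.Agent.P.MP_f981b0_an.IS.poly_circle P hr
  refine ⟨r2, h1, h2, fun z hz => ?_⟩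
  have e1 := hP z0 (by linarith)
  have e2 := hP z (by linarith)
  have e3 := hc (z - c) (z0 - c) hz hz0
  have e4 : (32 : ℝ) ^ P.natDegree ≤ 32 ^ n := pow_le_pow_right₀ (by norm_num) hdeg
  have e5 : ‖P.eval (z0 - c)‖ ≤ 32 ^ n * ‖P.eval (z - c)‖ :=
    e3.trans (mul_le_mul_of_nonneg_right e4 (norm_nonneg _))
  have t1 : ‖f z0‖ ≤ ‖P.eval (z0 - c)‖ + 2 * M * (1 / 64) ^ (n + 1) := by
    have := norm_le_norm_add_norm_sub' (f z0) (P.eval (z0 - c))
    linarith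
  have t2 : ‖P.eval (z - c)‖ ≤ ‖f z‖ + 2 * M * (1 / 64) ^ (n + 1) := by
    have := norm_le_norm_add_norm_sub (f z) (P.eval (z - c))
    linarith
  -- `2^(-n) ≤ e^(-A)`
  have hl2 : (2 : ℝ) / 3 ≤ Real.log 2 := le_trans (by norm_num) Real.log_two_gt_d9.le
  have hl2' : Real.log 2 ≤ 0.7 := le_trans Real.log_two_lt_d9.le (by norm_num)
  have h2n : (1 / 2 : ℝ) ^ n ≤ Real.exp (-A) := by
    have : (1 / 2 : ℝ) ^ n = Real.exp (-(n * Real.log 2)) := by
      rw [Real.exp_neg, Real.exp_nat_mul, Real.exp_log (by norm_num)]; simp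
    rw [this]
    refine Real.exp_le_exp.mpr ?_
    have : (0 : ℝ) ≤ n := Nat.cast_nonneg _
    nlinarith
  set T : ℝ := 2 * M * (1 / 64) ^ (n + 1) with hT
  have hT1 : 32 ^ n * T ≤ M * Real.exp (-A) / 32 := by
    have : (32 : ℝ) ^ n * T = M * (1 / 2) ^ n / 32 := by
      have h64 : (1 / 2 : ℝ) ^ n = 32 ^ n * (1 / 64) ^ n := by rw [← mul_pow]; norm_num
      rw [hT, h64, pow_succ]; ring
    rw [this]
    exact div_le_div_of_nonneg_right (mul_le_mul_of_nonneg_left h2n hM0) (by norm_num)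
  have hT0 : 0 ≤ T := by positivity
  have h32 : (1 : ℝ) ≤ 32 ^ n := one_le_pow₀ (by norm_num)
  have hT2 : T ≤ 32 ^ n * T := le_mul_of_one_le_left hT0 h32
  have hmain : M * Real.exp (-A) / 2 ≤ 32 ^ n * ‖f z‖ := by
    have : (32 : ℝ) ^ n * ‖P.eval (z - c)‖ ≤ 32 ^ n * (‖f z‖ + T) :=
      mul_le_mul_of_nonneg_left t2 (by positivity)
    have h9 : 0 ≤ M * Real.exp (-A) := by positivity
    nlinarith
  have hlast : 32 ^ n * Real.exp (-(12 * A)) ≤ Real.exp (-A) / 2 := by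
    have a1 : (32 : ℝ) ^ n = Real.exp (n * (5 * Real.log 2)) := by
      rw [Real.exp_nat_mul, show (5 : ℝ) * Real.log 2 = (5 : ℕ) * Real.log 2 by norm_num,
        Real.exp_nat_mul, Real.exp_log (by norm_num)]
      norm_num
    have a2 : Real.exp (-A) / 2 = Real.exp (-A - Real.log 2) := by
      rw [Real.exp_sub, Real.exp_log (by norm_num)]
    rw [a1, a2, ← Real.exp_add]
    refine Real.exp_le_exp.mpr ?_
    have : (0 : ℝ) ≤ n := Nat.cast_nonneg _
    nlinarith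
  refine le_of_mul_le_mul_left ?_ (show (0 : ℝ) < 32 ^ n by positivity)
  calc (32 : ℝ) ^ n * (M * Real.exp (-(12 * A))) = M * (32 ^ n * Real.exp (-(12 * A))) := by ring
    _ ≤ M * (Real.exp (-A) / 2) := mul_le_mul_of_nonneg_left hlast hM0
    _ = M * Real.exp (-A) / 2 := by ring
    _ ≤ _ := hmain

theorem p_MM : S_MM := by
  intro f c z0 Mx r A hr _ hA hf hM hz0 h0
  exact MM_mm hr hA hf (fun z hz => hM z (mem_closedBall_iff_norm.mpr hz)) hz0 h0

end Pool.Agent.IS
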