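import Pool.Agent.P.MP_f981b0_an.IS.Mod
import Pool.Agent.P.MP_f981b0_an.IS46.Leg

/-! Package MOrth: orthogonality of the shifted Legendre polynomials. -/

set_option autoImplicit false

open Polynomial Finset Filter Topology
open scoped Nat Real

noncomputable section

namespace Pool.Agent.IS

theorem MOrth_coeff_bor (g : ℂ[X]) (l : ℕ) : (bor g).coeff l = g.coeff l / (l ! : ℂ) := by
  unfold bor
  rw [finsetSum_coeff]
  simp only [coeff_monomial]
  rw [Finset.sum_ite_eq' g.support l]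
  by_cases h : l ∈ g.support
  · rw [if_pos h]
  · rw [if_neg h, notMem_support_iff.1 h, zero_div]

theorem MOrth_coeff_Lt (i l : ℕ) : (Lt i).coeff l
    = (-1) ^ l * (i.choose l : ℂ) * ((i + l).choose i : ℂ) * (l ! : ℂ) := by
  unfold Lt
  rw [finsetSum_coeff]
  simp only [coeff_monomial]
  rw [Finset.sum_ite_eq' (range (i + 1)) l]
  by_cases h : l ∈ range (i + 1)
  · rw [if_pos h]
  · rw [if_neg h]
    rw [Finset.mem_range, not_lt] at h
    rw [Nat.choose_eq_zero_of_lt (show i < l by omega)]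
    simp

theorem MOrth_bor_sum (m : ℕ) (c : ℕ → ℂ) :
    bor (∑ i ∈ range m, c i • Lt i)
      = ∑ i ∈ range m, C (c i * (-1) ^ i / (IS46.sq i : ℂ)) * IS46.e i := by
  ext l
  rw [MOrth_coeff_bor, finsetSum_coeff, finsetSum_coeff, sum_div]
  refine sum_congr rfl fun i _ => ?_
  rw [coeff_smul, coeff_C_mul, MOrth_coeff_Lt, IS46.coeff_e, smul_eq_mul,
    Nat.choose_symm_add (a := i) (b := l), pow_add]
  have h1 := IS46.sq_ne i
  have h2 : (l ! : ℂ) ≠ 0 := by exact_mod_cast (Nat.factorial_ne_zero l)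
  have h3 : ((-1 : ℂ) ^ i) ^ 2 = 1 := by
    rw [← pow_mul, mul_comm, pow_mul]; simp
  field_simp
  rw [h3]
  ring

theorem p_MOrth (_h1 : SM_Leg) : SM_Orth := by
  intro m c
  rw [MOrth_bor_sum, IS46.parseval]
  refine sum_congr rfl fun i _ => ?_
  rw [norm_div, norm_mul, norm_pow, norm_neg, norm_one, one_pow, mul_one, Complex.norm_real,
    Real.norm_eq_abs, div_pow, sq_abs, sq (IS46.sq i), IS46.sq_mul_self]

end Pool.Agent.IS
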