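import Pool.Agent.P.MP_f981b0_an.IS.Mod

/-!
Project IS: the operator `V` in orthonormal coordinates for an admissible weight.
-/

set_option autoImplicit false

open Polynomial Finset Filter Topology
open scoped Nat Real

noncomputable section

namespace Pool.Agent.IS

namespace MV

theorem sum_ite_le (s : Finset ℕ) (p : ℕ → Prop) [DecidablePred p] (x : ℝ) (hx : 0 ≤ x)
    (hp : ∀ a b, p a → p b → a = b) : ∑ j ∈ s, (if p j then x else 0) ≤ x := by
  rw [← Finset.sum_filter, Finset.sum_const, nsmul_eq_mul]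
  have h : (s.filter p).card ≤ 1 := Finset.card_le_one.2 fun a ha b hb =>
    hp a b (Finset.mem_filter.1 ha).2 (Finset.mem_filter.1 hb).2
  have h' : ((s.filter p).card : ℝ) ≤ 1 := by exact_mod_cast h
  nlinarith

theorem tri (A : ℕ → ℕ → ℂ) (x y z : ℝ) (hx : 0 ≤ x) (hy : 0 ≤ y) (hz : 0 ≤ z)
    (h : ∀ i j, ‖A i j‖ ≤ (if i = j + 1 then x else 0) + (if j = i + 1 then y else 0) +
      (if i = j then z else 0)) :
    (∀ i (s : Finset ℕ), ∑ j ∈ s, ‖A i j‖ ≤ x + y + z) ∧
      ∀ j (s : Finset ℕ), ∑ i ∈ s, ‖A i j‖ ≤ x + y + z := by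
  constructor
  · intro i s
    refine (Finset.sum_le_sum fun j _ => h i j).trans ?_
    rw [Finset.sum_add_distrib, Finset.sum_add_distrib]
    exact add_le_add (add_le_add (sum_ite_le s _ x hx fun a b ha hb => by omega)
      (sum_ite_le s _ y hy fun a b ha hb => by omega))
      (sum_ite_le s _ z hz fun a b ha hb => by omega)
  · intro j s
    refine (Finset.sum_le_sum fun i _ => h i j).trans ?_
    rw [Finset.sum_add_distrib, Finset.sum_add_distrib]
    exact add_le_add (add_le_add (sum_ite_le s _ x hx fun a b ha hb => by omega)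
      (sum_ite_le s _ y hy fun a b ha hb => by omega))
      (sum_ite_le s _ z hz fun a b ha hb => by omega)

/-- The off-diagonal coefficient. -/
def al (j : ℕ) : ℝ := 1 / (2 * √(2 * (j : ℝ) + 1) * √(2 * ((j : ℝ) + 1) + 1))

theorem al_pos (j : ℕ) : 0 < al j := by
  unfold al
  positivity

theorem al_le (j : ℕ) : al j ≤ 1 / (2 * (2 * (j : ℝ) + 1)) := by
  unfold al
  have h0 : (0 : ℝ) < 2 * (j : ℝ) + 1 := by positivity
  have h1 : √(2 * (j : ℝ) + 1) ≤ √(2 * ((j : ℝ) + 1) + 1) := Real.sqrt_le_sqrt (by linarith)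
  have h2 : √(2 * (j : ℝ) + 1) * √(2 * (j : ℝ) + 1) = 2 * (j : ℝ) + 1 := Real.mul_self_sqrt h0.le
  have h3 : 0 < √(2 * (j : ℝ) + 1) := Real.sqrt_pos.2 h0
  refine one_div_le_one_div_of_le (by positivity) ?_
  nlinarith

/-- The real entries. -/
def ent (o : ℕ → ℝ) (i j : ℕ) : ℝ :=
  if i = j + 1 then -(al j * (o (j + 1) / o j))
  else if j = i + 1 then al i * (o i / o (i + 1))
  else if i = 0 ∧ j = 0 then 1 / 2 else 0

theorem wg_pos {o : ℕ → ℝ} (ho : ∀ i, 0 < o i) (i : ℕ) : 0 < wg o i := by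
  unfold wg
  have := ho i
  positivity

theorem cj_eq {o : ℕ → ℝ} (ho : ∀ i, 0 < o i) (i j : ℕ) : cj o Vm i j = (ent o i j : ℂ) := by
  unfold cj Vm ent
  split_ifs with h1 h2 h3
  · subst h1
    have h : -(1 / (2 * (2 * (j : ℝ) + 1))) * wg o (j + 1) / wg o j =
        -(al j * (o (j + 1) / o j)) := by
      unfold wg al
      have h0 : (0 : ℝ) < 2 * (j : ℝ) + 1 := by positivity
      have h2 := Real.mul_self_sqrt h0.le
      have h3 : 0 < √(2 * (j : ℝ) + 1) := Real.sqrt_pos.2 h0
      have h4 : 0 < √(2 * ((j : ℝ) + 1) + 1) := Real.sqrt_pos.2 (by positivity)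
      have h5 := ho j
      push_cast
      generalize √(2 * (j : ℝ) + 1) = s at *
      generalize √(2 * ((j : ℝ) + 1) + 1) = t at *
      rw [← h2]
      field_simp
    rw [← h]
    push_cast
    ring
  · subst h2
    have h : (1 / (2 * (2 * ((i : ℝ) + 1) + 1))) * wg o i / wg o (i + 1) =
        al i * (o i / o (i + 1)) := by
      unfold wg al
      have h0 : (0 : ℝ) < 2 * ((i : ℝ) + 1) + 1 := by positivity
      have h2 := Real.mul_self_sqrt h0.le
      have h3 : 0 < √(2 * (i : ℝ) + 1) := Real.sqrt_pos.2 (by positivity)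
      have h4 : 0 < √(2 * ((i : ℝ) + 1) + 1) := Real.sqrt_pos.2 h0
      have h5 := ho (i + 1)
      push_cast
      generalize √(2 * (i : ℝ) + 1) = s at *
      generalize √(2 * ((i : ℝ) + 1) + 1) = t at *
      rw [← h2]
      field_simp
    rw [← h]
    push_cast
    ring
  · obtain ⟨rfl, rfl⟩ := h3
    have h : (wg o 0 : ℂ) ≠ 0 := by exact_mod_cast (wg_pos ho 0).ne'
    field_simp
    norm_num
  · simp

theorem fw_le {o : ℕ → ℝ} {k : ℝ} (h : Wt o k) (j : ℕ) :
    al j * (o (j + 1) / o j) ≤ 1 / (2 * (2 * (j : ℝ) + 1)) + k / 2 := by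
  obtain ⟨hk, -, -, ho⟩ := h
  obtain ⟨h1, -, h3⟩ := ho j
  have h4 : o (j + 1) / o j ≤ 1 + k * ((j : ℝ) + 1) := by
    rw [div_le_iff₀ h1]
    refine h3.trans (mul_le_mul_of_nonneg_right (max_le ?_ ?_) h1.le)
    · have : 0 ≤ k * ((j : ℝ) + 1) := by positivity
      linarith
    · linarith
  have h5 : al j * (o (j + 1) / o j) ≤ 1 / (2 * (2 * (j : ℝ) + 1)) * (1 + k * ((j : ℝ) + 1)) :=
    mul_le_mul (al_le j) h4 (div_pos (ho (j + 1)).1 h1).le (by positivity)
  refine h5.trans ?_
  have h6 : 1 / (2 * (2 * (j : ℝ) + 1)) * (k * ((j : ℝ) + 1)) ≤ k / 2 := by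
    rw [one_div, inv_mul_le_iff₀ (by positivity)]
    have : 0 ≤ k * (j : ℝ) := by positivity
    nlinarith
  linarith [mul_add (1 / (2 * (2 * (j : ℝ) + 1))) 1 (k * ((j : ℝ) + 1))]

theorem bw_le {o : ℕ → ℝ} {k : ℝ} (h : Wt o k) (i : ℕ) :
    al i * (o i / o (i + 1)) ≤ 1 / (2 * (2 * (i : ℝ) + 1)) := by
  obtain ⟨-, -, -, ho⟩ := h
  have h4 : o i / o (i + 1) ≤ 1 := (div_le_one (ho (i + 1)).1).2 (ho i).2.1
  have h5 := mul_le_mul_of_nonneg_left h4 (al_pos i).le
  linarith [al_le i]

theorem half_le (j : ℕ) : 1 / (2 * (2 * (j : ℝ) + 1)) ≤ 1 / 2 := by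
  refine one_div_le_one_div_of_le (by norm_num) ?_
  have : (0 : ℝ) ≤ j := Nat.cast_nonneg j
  linarith

theorem sg_apply (j i : ℕ) : sg j i = if i = j then 1 else 0 := by
  unfold sg
  rw [lp.single_apply, Pi.single_apply]

theorem pv_apply (o : ℕ → ℝ) (j i : ℕ) : pv o j i = if i = j then (wg o i : ℂ) else 0 := by
  unfold pv
  rw [lp.coeFn_smul, Pi.smul_apply, sg_apply]
  split_ifs with h
  · subst h
    simp
  · simp

theorem inner_sg (i : ℕ) (w : E) : inner ℂ (sg i) w = w i := by
  unfold sg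
  rw [lp.inner_single_left]
  simp

variable (h1 : SM_Schur) (h2 : SM_Diag)

include h1 in
theorem vw_ent {o : ℕ → ℝ} {k : ℝ} (h : Wt o k) (i j : ℕ) : VW o (sg j) i = cj o Vm i j := by
  have ho : ∀ i, 0 < o i := fun i => (h.2.2.2 i).1
  have hk := h.1
  have := tri (cj o Vm) (1 / 2 + k / 2) (1 / 2) (1 / 2) (by positivity) (by norm_num)
    (by norm_num) fun i j => by
      rw [cj_eq ho, Complex.norm_real, Real.norm_eq_abs]
      unfold ent
      by_cases c1 : i = j + 1
      · subst c1
        have p := mul_pos (al_pos j) (div_pos (ho (j + 1)) (ho j))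
        rw [if_pos rfl, if_pos rfl, if_neg (by omega), if_neg (by omega), abs_neg, abs_of_pos p]
        linarith [fw_le h j, half_le j]
      · by_cases c2 : j = i + 1
        · subst c2
          have p := mul_pos (al_pos i) (div_pos (ho i) (ho (i + 1)))
          rw [if_neg c1, if_pos rfl, if_neg c1, if_pos rfl, if_neg (by omega), abs_of_pos p]
          linarith [bw_le h i, half_le i]
        · rw [if_neg c1, if_neg c2, if_neg c1, if_neg c2]
          by_cases c3 : i = 0 ∧ j = 0
          · rw [if_pos c3, if_pos (by omega)]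
            norm_num
          · rw [if_neg c3]
            split_ifs <;> norm_num
  exact (h1.1 _ _ (by positivity) this.1 this.2).1 i j

include h1 in
theorem vw_pv {o : ℕ → ℝ} {k : ℝ} (h : Wt o k) (i j : ℕ) :
    VW o (pv o j) i = Vm i j * (wg o i : ℂ) := by
  have ho : ∀ i, 0 < o i := fun i => (h.2.2.2 i).1
  have hw : (wg o j : ℂ) ≠ 0 := by exact_mod_cast (wg_pos ho j).ne'
  unfold pv
  rw [map_smul, lp.coeFn_smul, Pi.smul_apply, vw_ent h1 h, smul_eq_mul]
  unfold cj
  field_simp

include h2 in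
theorem pi_sg (m j : ℕ) : piW m (sg j) = if j ≤ m then sg j else 0 := by
  refine lp.ext (funext fun i => ?_)
  rw [h2.1]
  by_cases c : j ≤ m
  · rw [if_pos c, sg_apply]
    split_ifs with a b b
    · rfl
    · rfl
    · omega
    · rfl
  · rw [if_neg c, sg_apply]
    split_ifs with a b
    · omega
    · rfl
    · rfl

include h2 in
theorem co_sg (m j : ℕ) : (1 - piW m) (sg j) = if j ≤ m then 0 else sg j := by
  rw [ContinuousLinearMap.sub_apply, ContinuousLinearMap.one_apply, pi_sg h2]
  split_ifs <;> simp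

include h1 in
theorem rec0 {o : ℕ → ℝ} {k : ℝ} (h : Wt o k) :
    (2 : ℂ) • VW o (pv o 0) = pv o 0 - pv o 1 := by
  refine lp.ext (funext fun i => ?_)
  rw [lp.coeFn_smul, Pi.smul_apply, lp.coeFn_sub, Pi.sub_apply, vw_pv h1 h, pv_apply, pv_apply,
    smul_eq_mul]
  unfold Vm
  by_cases c0 : i = 0
  · subst c0
    simp
  · by_cases c1 : i = 1
    · subst c1
      simp
    · rw [if_neg (by omega), if_neg (by omega), if_neg (by omega), if_neg c0, if_neg c1]
      simp

include h1 in
theorem recS {o : ℕ → ℝ} {k : ℝ} (h : Wt o k) (j : ℕ) :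
    (2 * (2 * ((j : ℂ) + 1) + 1)) • VW o (pv o (j + 1)) = pv o j - pv o (j + 2) := by
  refine lp.ext (funext fun i => ?_)
  rw [lp.coeFn_smul, Pi.smul_apply, lp.coeFn_sub, Pi.sub_apply, vw_pv h1 h, pv_apply, pv_apply,
    smul_eq_mul]
  have hc : (2 * ((j : ℂ) + 1) + 1) ≠ 0 := by
    have : ((2 * (j + 1) + 1 : ℕ) : ℂ) ≠ 0 := Nat.cast_ne_zero.2 (by omega)
    push_cast at this
    exact this
  unfold Vm
  by_cases c0 : i = j
  · subst c0
    rw [if_neg (by omega), if_pos rfl, if_pos rfl, if_neg (by omega)]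
    push_cast
    field_simp
    ring
  · by_cases c1 : i = j + 2
    · subst c1
      rw [if_pos rfl, if_neg (by omega), if_pos rfl]
      push_cast
      field_simp
      ring
    · rw [if_neg (by omega), if_neg (by omega), if_neg (by omega), if_neg c0, if_neg c1]
      simp

include h1 h2 in
theorem tail_norm {o : ℕ → ℝ} {k : ℝ} (h : Wt o k) (m : ℕ) (hm : 1 ≤ m) :
    ‖VW o * (1 - piW m)‖ ≤ 1 / (m : ℝ) + k := by
  have ho : ∀ i, 0 < o i := fun i => (h.2.2.2 i).1
  have hk := h.1
  have hm' : (1 : ℝ) ≤ m := by exact_mod_cast hm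
  have hb : ∀ j : ℕ, m ≤ j → 1 / (2 * (2 * (j : ℝ) + 1)) ≤ 1 / (m : ℝ) / 2 := fun j hj => by
    have hj' : (m : ℝ) ≤ j := by exact_mod_cast hj
    rw [div_div]
    exact one_div_le_one_div_of_le (by positivity) (by linarith)
  have := tri (fun i j => if j ≤ m then 0 else cj o Vm i j) (1 / (m : ℝ) / 2 + k)
    (1 / (m : ℝ) / 2) 0 (by positivity) (by positivity) le_rfl fun i j => by
      by_cases c : j ≤ m
      · rw [if_pos c, norm_zero]
        positivity
      rw [if_neg c, cj_eq ho, Complex.norm_real, Real.norm_eq_abs]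
      unfold ent
      by_cases c1 : i = j + 1
      · subst c1
        have p := mul_pos (al_pos j) (div_pos (ho (j + 1)) (ho j))
        rw [if_pos rfl, if_pos rfl, if_neg (by omega), if_neg (by omega), abs_neg, abs_of_pos p]
        linarith [fw_le h j, hb j (by omega)]
      · by_cases c2 : j = i + 1
        · subst c2
          have p := mul_pos (al_pos i) (div_pos (ho i) (ho (i + 1)))
          rw [if_neg c1, if_pos rfl, if_neg c1, if_pos rfl, if_neg (by omega), abs_of_pos p]
          linarith [bw_le h i, hb i (by omega)]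
        · rw [if_neg c1, if_neg c2, if_neg c1, if_neg c2, if_neg (by omega)]
          simp
  have h3 := h1.2.1 _ _ (VW o * (1 - piW m)) (by positivity) (fun i j => by
    rw [ContinuousLinearMap.mul_apply, co_sg h2]
    split_ifs
    · simp
    · exact vw_ent h1 h i j) this.1 this.2
  linarith

include h1 h2 in
theorem band1 {o : ℕ → ℝ} {k : ℝ} (h : Wt o k) (m : ℕ) :
    piW m * VW o * (1 - piW (m + 1)) = 0 := by
  refine h1.2.2.2.1 E _ _ fun j => ?_
  rw [ContinuousLinearMap.mul_apply, ContinuousLinearMap.mul_apply, co_sg h2,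
    ContinuousLinearMap.zero_apply]
  split_ifs with c
  · simp
  · refine lp.ext (funext fun i => ?_)
    rw [h2.1, vw_ent h1 h]
    unfold cj Vm
    split_ifs with a b c d
    · omega
    · omega
    · omega
    · simp
    · simp

include h1 h2 in
theorem band2 {o : ℕ → ℝ} {k : ℝ} (h : Wt o k) (m : ℕ) :
    (1 - piW (m + 1)) * VW o * piW m = 0 := by
  refine h1.2.2.2.1 E _ _ fun j => ?_
  rw [ContinuousLinearMap.mul_apply, ContinuousLinearMap.mul_apply, pi_sg h2,
    ContinuousLinearMap.zero_apply]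
  split_ifs with c
  · refine lp.ext (funext fun i => ?_)
    rw [ContinuousLinearMap.sub_apply, ContinuousLinearMap.one_apply, lp.coeFn_sub, Pi.sub_apply,
      h2.1, vw_ent h1 h]
    by_cases a : i ≤ m + 1
    · rw [if_pos a]
      simp
    · rw [if_neg a]
      unfold cj Vm
      rw [if_neg (by omega), if_neg (by omega), if_neg (by omega)]
      simp
  · simp

include h1 in
theorem aeval_lt (h3 : SM_Leg) {o : ℕ → ℝ} {k : ℝ} (h : Wt o k) (i : ℕ) :
    aeval (VW o) (Lt i) (sg 0) = pv o i := by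
  have hX : ∀ (c : ℂ) (p : ℂ[X]), aeval (VW o) (c • (X * p)) (sg 0) =
      c • VW o (aeval (VW o) p (sg 0)) := fun c p => by
    rw [map_smul, map_mul, aeval_X, ContinuousLinearMap.smul_apply, ContinuousLinearMap.mul_apply]
  have h0 : aeval (VW o) (Lt 0) (sg 0) = pv o 0 := by
    rw [h3.1, map_one, ContinuousLinearMap.one_apply]
    unfold pv wg
    rw [h.2.2.1]
    simp
  induction i using Nat.twoStepInduction with
  | zero => exact h0
  | one =>
    have e : Lt 1 = Lt 0 - (2 : ℂ) • (X * Lt 0) := by rw [h3.2.1]; ring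
    rw [e, map_sub, ContinuousLinearMap.sub_apply, hX, h0, rec0 h1 h]
    abel
  | more j ih1 ih2 =>
    have e : Lt (j + 2) = Lt j - (2 * (2 * ((j : ℂ) + 1) + 1)) • (X * Lt (j + 1)) := by
      rw [h3.2.2.1]; ring
    rw [e, map_sub, ContinuousLinearMap.sub_apply, hX, ih1, ih2, recS h1 h]
    abel

theorem om_succ (D : ℕ) (k : ℝ) (j : ℕ) :
    om D k (j + 1) = om D k j * if D ≤ j then k * ((j : ℝ) + 1) else 1 := by
  unfold om
  split_ifs with c
  · rw [Finset.prod_Ioc_succ_top c]
    push_cast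
    ring
  · rw [Finset.Ioc_eq_empty (by omega), Finset.Ioc_eq_empty (by omega)]
    simp

include h1 h2 in
theorem diff_norm {D : ℕ} {k : ℝ} (hA : Adm D k) : ‖VW (om D k) - VW o1‖ ≤ k := by
  have hW : Wt (om D k) k := (h2.2.2.2.2.2.2.1 D k hA).1
  have hW1 : Wt o1 0 := h2.2.2.2.2.2.1
  have ho : ∀ i, 0 < om D k i := fun i => (hW.2.2.2 i).1
  have ho1 : ∀ i, 0 < o1 i := fun i => (hW1.2.2.2 i).1
  obtain ⟨hk, -, hD⟩ := hA
  have hr : ∀ j : ℕ, D ≤ j → 2 ≤ k * ((j : ℝ) + 1) := fun j hj => by
    have hj' : (D : ℝ) ≤ j := by exact_mod_cast hj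
    nlinarith
  have := tri (fun i j => cj (om D k) Vm i j - cj o1 Vm i j) (k / 2) (k / 2) 0 (by positivity)
    (by positivity) le_rfl fun i j => by
      rw [cj_eq ho, cj_eq ho1, ← Complex.ofReal_sub, Complex.norm_real, Real.norm_eq_abs]
      unfold ent
      by_cases c1 : i = j + 1
      · subst c1
        rw [if_pos rfl, if_pos rfl, if_pos rfl, if_neg (by omega), if_neg (by omega), om_succ,
          mul_div_cancel_left₀ _ (ho j).ne']
        simp only [o1, div_one, mul_one, add_zero]
        split_ifs with c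
        · have p := al_pos j
          have q := hr j c
          have r : al j * (k * ((j : ℝ) + 1)) ≤ k / 2 := by
            refine (mul_le_mul_of_nonneg_right (al_le j) (by positivity)).trans ?_
            rw [one_div, inv_mul_le_iff₀ (by positivity)]
            have : 0 ≤ k * (j : ℝ) := by positivity
            nlinarith
          rw [abs_le]
          constructor <;> nlinarith
        · simp only [mul_one, sub_self, abs_zero]
          positivity
      · by_cases c2 : j = i + 1
        · subst c2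
          rw [if_neg c1, if_pos rfl, if_neg c1, if_pos rfl, if_neg c1, if_pos rfl,
            if_neg (by omega), om_succ, div_mul_cancel_left₀ (ho i).ne']
          simp only [o1, div_one, mul_one, add_zero, zero_add]
          split_ifs with c
          · have p := al_pos i
            have q := hr i c
            have q1 : 0 < (k * ((i : ℝ) + 1))⁻¹ := by positivity
            have q2 : (k * ((i : ℝ) + 1))⁻¹ ≤ 1 := inv_le_one_of_one_le₀ (by linarith)
            have r : al i ≤ k / 2 := by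
              refine (al_le i).trans ?_
              rw [div_le_iff₀ (by positivity)]
              have : 0 ≤ k * (i : ℝ) := by positivity
              have hi : (D : ℝ) ≤ i := by exact_mod_cast c
              nlinarith
            rw [abs_le]
            constructor <;> nlinarith
          · simp only [inv_one, mul_one, sub_self, abs_zero]
            positivity
        · rw [if_neg c1, if_neg c2, if_neg c1, if_neg c2, if_neg c1, if_neg c2]
          simp
  have h3 := h1.2.1 _ _ (VW (om D k) - VW o1) (by positivity) (fun i j => by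
    rw [ContinuousLinearMap.sub_apply, lp.coeFn_sub, Pi.sub_apply, vw_ent h1 hW,
      vw_ent h1 hW1]) this.1 this.2
  linarith

include h1 h2 in
theorem low_eq {D : ℕ} {k : ℝ} (hA : Adm D k) (m : ℕ) (hm : m < D) :
    VW (om D k) * piW m = VW o1 * piW m := by
  obtain ⟨hW, -, hl⟩ := h2.2.2.2.2.2.2.1 D k hA
  have hW1 : Wt o1 0 := h2.2.2.2.2.2.1
  have ho : ∀ i, 0 < om D k i := fun i => (hW.2.2.2 i).1
  have ho1 : ∀ i, 0 < o1 i := fun i => (hW1.2.2.2 i).1
  refine h1.2.2.2.1 E _ _ fun j => ?_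
  rw [ContinuousLinearMap.mul_apply, ContinuousLinearMap.mul_apply, pi_sg h2]
  split_ifs with c
  · refine lp.ext (funext fun i => ?_)
    rw [vw_ent h1 hW, vw_ent h1 hW1, cj_eq ho, cj_eq ho1]
    congr 1
    unfold ent
    split_ifs with a b d
    · rw [hl j (by omega), hl (j + 1) (by omega)]
      rfl
    · rw [hl i (by omega), hl (i + 1) (by omega)]
      rfl
    · rfl
    · rfl
  · simp

include h1 h2 in
theorem accr (v : E) : 2 * (inner ℂ v (VW o1 v)).re = ‖inner ℂ (sg 0) v‖ ^ 2 := by
  have hW1 : Wt o1 0 := h2.2.2.2.2.2.1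
  have ho1 : ∀ i, 0 < o1 i := fun i => (hW1.2.2.2 i).1
  have e : VW o1 + ContinuousLinearMap.adjoint (VW o1) =
      (innerSL ℂ (sg 0)).smulRight (sg 0) := by
    refine h1.2.2.2.1 E _ _ fun j => lp.ext (funext fun i => ?_)
    have a : ContinuousLinearMap.adjoint (VW o1) (sg j) i = (ent o1 j i : ℂ) := by
      rw [← inner_sg, ContinuousLinearMap.adjoint_inner_right, ← inner_conj_symm, inner_sg,
        vw_ent h1 hW1, cj_eq ho1, Complex.conj_ofReal]
    rw [ContinuousLinearMap.add_apply, lp.coeFn_add, Pi.add_apply, a, vw_ent h1 hW1, cj_eq ho1,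
      ContinuousLinearMap.smulRight_apply, lp.coeFn_smul, Pi.smul_apply, innerSL_apply_apply,
      inner_sg, sg_apply, sg_apply, smul_eq_mul, ← Complex.ofReal_add]
    unfold ent
    simp only [o1, div_one, mul_one]
    by_cases c1 : i = j + 1
    · subst c1
      rw [if_pos rfl, if_neg (by omega), if_pos rfl, if_neg (show j + 1 ≠ 0 by omega)]
      simp
    · by_cases c2 : j = i + 1
      · subst c2
        rw [if_neg c1, if_pos rfl, if_pos rfl, if_neg (show 0 ≠ i + 1 by omega)]
        simp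
      · rw [if_neg c1, if_neg c2, if_neg c2, if_neg c1]
        by_cases c3 : i = 0 ∧ j = 0
        · obtain ⟨rfl, rfl⟩ := c3
          norm_num
        · rw [if_neg c3, if_neg (by omega)]
          by_cases c4 : i = 0
          · rw [if_neg (show ¬ 0 = j by omega)]
            simp
          · rw [if_neg c4]
            simp
  have f : inner ℂ v (VW o1 v) + (starRingEnd ℂ) (inner ℂ v (VW o1 v)) =
      inner ℂ (sg 0) v * (starRingEnd ℂ) (inner ℂ (sg 0) v) := by
    rw [inner_conj_symm, inner_conj_symm, ← ContinuousLinearMap.adjoint_inner_right,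
      ← inner_add_right, ← ContinuousLinearMap.add_apply, e, ContinuousLinearMap.smulRight_apply,
      inner_smul_right, innerSL_apply_apply]
  rw [Complex.add_conj, Complex.mul_conj, Complex.normSq_eq_norm_sq] at f
  exact_mod_cast f

end MV

theorem p_MV (h1 : SM_Schur) (h2 : SM_Diag) (h3 : SM_Leg) : SM_V :=
  ⟨fun _ _ h => ⟨MV.vw_ent h1 h, MV.rec0 h1 h, MV.recS h1 h, MV.tail_norm h1 h2 h,
    MV.band1 h1 h2 h, MV.band2 h1 h2 h, MV.aeval_lt h1 h3 h⟩,
    fun _ _ hA => ⟨MV.diff_norm h1 h2 hA, MV.low_eq h1 h2 hA⟩, MV.accr h1 h2⟩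

end Pool.Agent.IS
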