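import Pool.Agent.P.MP_f981b0_an.IS.Mod
import Pool.Agent.P.MP_f981b0_an.IS55.Vl

/-!
The norm of `Y` is the integral norm, and the norms of the powers of `V`.
-/

set_option autoImplicit false

open Polynomial Finset Filter Topology
open scoped Nat Real

noncomputable section

namespace Pool.Agent.IS

theorem MYN_coeff (g : ℂ[X]) (n : ℕ) : (bor g).coeff n = g.coeff n / (n ! : ℂ) := by
  unfold bor
  rw [finsetSum_coeff]
  simp only [coeff_monomial]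
  rw [Finset.sum_ite_eq' g.support n]
  split_ifs with h
  · rfl
  · rw [notMem_support_iff.1 h, zero_div]

theorem MYN_dvd (g : ℂ[X]) (l : ℕ) : X ^ l ∣ bor (X ^ l * g) := by
  rw [X_pow_dvd_iff]
  intro d hd
  rw [MYN_coeff, coeff_X_pow_mul', if_neg (by omega), zero_div]

theorem MYN_deriv (g : ℂ[X]) (l : ℕ) : derivative^[l] (bor (X ^ l * g)) = bor g := by
  ext n
  rw [coeff_iterate_derivative, MYN_coeff, MYN_coeff, coeff_X_pow_mul, nsmul_eq_mul]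
  have h : ((n + l)! : ℂ) = (n ! : ℂ) * ((n + l).descFactorial l : ℂ) := by
    have := Nat.factorial_mul_descFactorial (n := n + l) (k := l) (by omega)
    rw [Nat.add_sub_cancel] at this
    exact_mod_cast this.symm
  have h1 : (n ! : ℂ) ≠ 0 := by exact_mod_cast Nat.factorial_ne_zero n
  have h2 : ((n + l).descFactorial l : ℂ) ≠ 0 := by
    have : (n + l).descFactorial l ≠ 0 := by
      rw [Ne, Nat.descFactorial_eq_zero_iff_lt]; omega
    exact_mod_cast this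
  rw [h]
  field_simp

theorem MYN_wg (i : ℕ) : wg o1 i ^ 2 = 1 / (2 * (i : ℝ) + 1) := by
  unfold wg o1
  rw [div_pow, Real.sq_sqrt (by positivity), one_pow]

theorem MYN_wg_pos (i : ℕ) : 0 < wg o1 i := by
  unfold wg o1
  positivity

theorem MYN_sum (h2 : SM_Diag) (h5 : SM_V) (m : ℕ) (c : ℕ → ℂ) :
    aeval (VW o1) (∑ i ∈ range (m + 1), c i • Lt i) (sg 0) =
      ∑ i ∈ range (m + 1), (c i * (wg o1 i : ℂ)) • sg i := by
  have hW : Wt o1 0 := h2.2.2.2.2.2.1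
  have hL := (h5.1 o1 0 hW).2.2.2.2.2.2
  rw [map_sum, _root_.sum_apply]
  refine sum_congr rfl fun i _ => ?_
  rw [map_smul, _root_.smul_apply, hL i, pv, smul_smul]

theorem MYN_norm (s : Finset ℕ) (a : ℕ → ℂ) :
    ‖∑ i ∈ s, a i • sg i‖ ^ 2 = ∑ i ∈ s, ‖a i‖ ^ 2 := by
  have e : ∀ i, a i • sg i = lp.single 2 i (a i) := by
    intro i
    unfold sg
    rw [← lp.single_smul, smul_eq_mul, mul_one]
  simp only [e]
  have := lp.norm_sum_single (E := fun _ : ℕ => ℂ) (p := 2) (by norm_num) a s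
  simpa using this

theorem MYN_one (h2 : SM_Diag) (h3 : SM_Leg) (h4 : SM_Orth) (h5 : SM_V) (g : ℂ[X]) :
    ‖aeval (VW o1) g (sg 0)‖ ^ 2 = ∫ s in (0 : ℝ)..1, ‖(bor g).eval (s : ℂ)‖ ^ 2 := by
  obtain ⟨c, hc⟩ := h3.2.2.2.2.1 g.natDegree g le_rfl
  rw [hc, h4, MYN_sum h2 h5, MYN_norm]
  refine sum_congr rfl fun i _ => ?_
  rw [norm_mul, mul_pow, Complex.norm_real, Real.norm_eq_abs, sq_abs, MYN_wg]
  ring

theorem MYN_L2 (h2 : SM_Diag) (h3 : SM_Leg) (h4 : SM_Orth) (h5 : SM_V) (g : ℂ[X]) :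
    ‖aeval (VW o1) g (sg 0)‖ = IS52.L2 (bor g) := by
  unfold IS52.L2
  rw [← MYN_one h2 h3 h4 h5, Real.sqrt_sq (norm_nonneg _)]

theorem MYN_ext (h2 : SM_Diag) (h5 : SM_V) (T : E →L[ℂ] E) (C : ℝ) (hC : 0 ≤ C)
    (h : ∀ g : ℂ[X], ‖T (aeval (VW o1) g (sg 0))‖ ≤ C * ‖aeval (VW o1) g (sg 0)‖) :
    ‖T‖ ≤ C := by
  refine ContinuousLinearMap.opNorm_le_bound _ hC fun v => ?_
  have key : ∀ m, ‖T (piW m v)‖ ≤ C * ‖piW m v‖ := by
    intro m
    have e : piW m v =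
        aeval (VW o1) (∑ i ∈ range (m + 1), (v i / (wg o1 i : ℂ)) • Lt i) (sg 0) := by
      rw [MYN_sum h2 h5, h2.2.2.2.1 m v]
      refine sum_congr rfl fun i _ => ?_
      have : (wg o1 i : ℂ) ≠ 0 := by exact_mod_cast (MYN_wg_pos i).ne'
      rw [div_mul_cancel₀ _ this]
    rw [e]
    exact h _
  have t := h2.2.2.1 v
  exact le_of_tendsto_of_tendsto' ((T.continuous.tendsto v).comp t).norm
    (t.norm.const_mul C) key

theorem MYN_half (P : ℂ[X]) (h : X ^ 1 ∣ P) :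
    IS52.L2 P ≤ 3 / 4 * IS52.L2 (derivative^[1] P) := by
  set M := IS52.L2 (derivative^[1] P) with hM
  have hM0 : 0 ≤ M := IS52.L2_nonneg _
  have hp : ∀ s ∈ Set.Icc (0 : ℝ) 1, ‖P.eval (s : ℂ)‖ ^ 2 ≤ M ^ 2 * s := by
    intro s hs
    have h1 := IS55.pointwise 0 P h s hs.1 hs.2
    have h2 : IS55.cst 0 = 1 := by simp [IS55.cst]
    rw [h2, one_mul, Nat.cast_zero, zero_add (1 / 2 : ℝ), ← Real.sqrt_eq_rpow] at h1
    calc ‖P.eval (s : ℂ)‖ ^ 2 ≤ (M * √s) ^ 2 := pow_le_pow_left₀ (norm_nonneg _) h1 2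
      _ = M ^ 2 * s := by rw [mul_pow, Real.sq_sqrt hs.1]
  have hi : ∫ s in (0 : ℝ)..1, ‖P.eval (s : ℂ)‖ ^ 2 ≤ ∫ s in (0 : ℝ)..1, M ^ 2 * s :=
    intervalIntegral.integral_mono_on (by norm_num)
      (((IS52.cont_eval P).norm.pow 2).intervalIntegrable _ _)
      ((continuous_const.mul continuous_id).intervalIntegrable _ _) hp
  rw [intervalIntegral.integral_const_mul, integral_id] at hi
  unfold IS52.L2
  apply Real.sqrt_le_iff.2
  refine ⟨by positivity, hi.trans ?_⟩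
  change _ ≤ (3 / 4 * M) ^ 2
  nlinarith [sq_nonneg M]

theorem MYN_pow (l : ℕ) (g : ℂ[X]) :
    (VW o1 ^ l) (aeval (VW o1) g (sg 0)) = aeval (VW o1) (X ^ l * g) (sg 0) := by
  rw [map_mul, map_pow, aeval_X, mul_apply_eq_comp]

theorem p_MYN (_h1 : SM_Schur) (h2 : SM_Diag) (h3 : SM_Leg) (h4 : SM_Orth) (h5 : SM_V) :
    SM_YN := by
  refine ⟨MYN_one h2 h3 h4 h5, ?_, fun l => ?_⟩
  · rw [← pow_one (VW o1)]
    refine MYN_ext h2 h5 _ _ (by norm_num) fun g => ?_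
    rw [MYN_pow, MYN_L2 h2 h3 h4 h5, MYN_L2 h2 h3 h4 h5]
    have := MYN_half _ (MYN_dvd g 1)
    rwa [MYN_deriv] at this
  · refine MYN_ext h2 h5 _ _ (by positivity) fun g => ?_
    rw [MYN_pow, MYN_L2 h2 h3 h4 h5, MYN_L2 h2 h3 h4 h5]
    have := IS55.vpow _ l (MYN_dvd g l)
    rw [MYN_deriv] at this
    calc _ ≤ _ := this
      _ = _ := by ring

end Pool.Agent.IS
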