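import Pool.Agent.P.MP_f981b0_an.IS.Mod
import Pool.Agent.P.MP_f981b0_an.IS6.Schur

/-!
Package Model/Md of the project IS: differentiation and evaluation on the scale.
-/

set_option autoImplicit false

open Polynomial Finset Filter Topology
open scoped Nat Real

noncomputable section

namespace Pool.Agent.IS

theorem Md_om (D : ℕ) (k : ℝ) : om D k = Pool.Agent.P.MP_f981b0_an.IS6.om D k := rfl

theorem Md_wg_pos {o : ℕ → ℝ} (ho : ∀ i, 0 < o i) (i : ℕ) : 0 < wg o i := by
  unfold wg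
  have := ho i
  positivity

theorem Md_ext (h1 : SM_Schur) {o : ℕ → ℝ} (ho : ∀ i, 0 < o i) (F : Type) [NormedAddCommGroup F]
    [NormedSpace ℂ F] [CompleteSpace F] (S T : E →L[ℂ] F) (h : ∀ j, S (pv o j) = T (pv o j)) :
    S = T := by
  refine h1.2.2.2.1 F S T fun j => ?_
  have hj := h j
  unfold pv at hj
  rw [map_smul, map_smul] at hj
  have hw : (wg o j : ℂ) ≠ 0 := by exact_mod_cast (Md_wg_pos ho j).ne'
  exact smul_right_injective F hw hj

theorem Md_entry {D : ℕ} {k : ℝ} (h : 2 ≤ k * D) (i j : ℕ) :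
    ‖cj (om D k) dm i j‖ ≤ Pool.Agent.P.MP_f981b0_an.IS6.dm D k i j := by
  have ho : ∀ i, 0 < om D k i := fun i => Pool.Agent.P.MP_f981b0_an.IS6.om_pos h i
  by_cases hc : i < j ∧ (j - i) % 2 = 1
  · unfold cj dm Pool.Agent.P.MP_f981b0_an.IS6.dm
    rw [if_pos hc, if_pos hc.1, norm_div, norm_mul, norm_neg, Complex.norm_real, Complex.norm_real,
      Real.norm_of_nonneg (Md_wg_pos ho i).le, Real.norm_of_nonneg (Md_wg_pos ho j).le]
    have e1 : ‖2 * (2 * (i : ℂ) + 1)‖ = 2 * (2 * (i : ℝ) + 1) := by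
      have : (2 * (2 * (i : ℂ) + 1)) = ((2 * (2 * (i : ℝ) + 1) : ℝ) : ℂ) := by push_cast; ring
      rw [this, Complex.norm_real, Real.norm_of_nonneg (by positivity)]
    rw [e1, ← Md_om, Real.sqrt_mul (by positivity)]
    unfold wg
    have hi : 0 < √(2 * (i : ℝ) + 1) := Real.sqrt_pos.2 (by positivity)
    have hj : 0 < √(2 * (j : ℝ) + 1) := Real.sqrt_pos.2 (by positivity)
    have hs : √(2 * (i : ℝ) + 1) * √(2 * (i : ℝ) + 1) = 2 * (i : ℝ) + 1 :=
      Real.mul_self_sqrt (by positivity)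
    have hoi := ho i
    have hoj := ho j
    apply le_of_eq
    generalize √(2 * (i : ℝ) + 1) = a at *
    generalize √(2 * (j : ℝ) + 1) = b at *
    rw [← hs]
    field_simp
  · have : cj (om D k) dm i j = 0 := by
      unfold cj dm
      rw [if_neg hc]
      simp
    rw [this, norm_zero]
    exact Pool.Agent.P.MP_f981b0_an.IS6.dm_nonneg h i j

theorem Md_d (h1 : SM_Schur) {D : ℕ} {k : ℝ} (h : 2 ≤ k * D) :
    (∀ i j, dW (om D k) (sg j) i = cj (om D k) dm i j) ∧ ‖dW (om D k)‖ ≤ dd D := by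
  refine h1.1 _ (dd D) (by unfold dd; positivity) (fun i s => ?_) (fun j s => ?_)
  · exact (sum_le_sum fun j _ => Md_entry h i j).trans
      (Pool.Agent.P.MP_f981b0_an.IS6.dm_row h i s)
  · exact (sum_le_sum fun i _ => Md_entry h i j).trans
      (Pool.Agent.P.MP_f981b0_an.IS6.dm_col h j s)

theorem Md_ev (h1 : SM_Schur) {D : ℕ} {k : ℝ} (h : 2 ≤ k * D) :
    (∀ j, evW (om D k) (sg j) = 1 / (wg (om D k) j : ℂ)) ∧
      ‖evW (om D k)‖ ≤ 2 * ((D : ℝ) + 1) := by
  have ho : ∀ i, 0 < om D k i := fun i => Pool.Agent.P.MP_f981b0_an.IS6.om_pos h i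
  refine h1.2.2.1 _ _ (by positivity) fun s => ?_
  refine le_trans (le_of_eq (sum_congr rfl fun j _ => ?_))
    (Pool.Agent.P.MP_f981b0_an.IS6.ev_sum h s)
  rw [norm_div, norm_one, Complex.norm_real, Real.norm_of_nonneg (Md_wg_pos ho j).le, ← Md_om]
  unfold wg
  rw [one_div_div, div_pow, Real.sq_sqrt (by positivity)]

theorem Md_pv_apply (o : ℕ → ℝ) (j i : ℕ) : pv o j i = if i = j then (wg o i : ℂ) else 0 := by
  unfold pv sg
  rw [lp.coeFn_smul, Pi.smul_apply, lp.single_apply, Pi.single_apply]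
  split_ifs with hij
  · subst hij; simp
  · simp

theorem Md_d_pv (h1 : SM_Schur) {D : ℕ} {k : ℝ} (h : 2 ≤ k * D) (j i : ℕ) :
    dW (om D k) (pv (om D k) j) i = dm i j * (wg (om D k) i : ℂ) := by
  have ho : ∀ i, 0 < om D k i := fun i => Pool.Agent.P.MP_f981b0_an.IS6.om_pos h i
  have hw : (wg (om D k) j : ℂ) ≠ 0 := by exact_mod_cast (Md_wg_pos ho j).ne'
  unfold pv
  rw [map_smul, lp.coeFn_smul, Pi.smul_apply, (Md_d h1 h).1, smul_eq_mul]
  unfold cj
  field_simp

theorem Md_d0 (h1 : SM_Schur) {D : ℕ} {k : ℝ} (h : 2 ≤ k * D) :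
    dW (om D k) (pv (om D k) 0) = 0 := by
  apply lp.ext
  funext i
  rw [Md_d_pv h1 h]
  simp [dm]

theorem Md_d1 (h1 : SM_Schur) {D : ℕ} {k : ℝ} (h : 2 ≤ k * D) :
    dW (om D k) (pv (om D k) 1) = -((2 : ℂ) • pv (om D k) 0) := by
  apply lp.ext
  funext i
  rw [Md_d_pv h1 h, lp.coeFn_neg, Pi.neg_apply, lp.coeFn_smul, Pi.smul_apply, Md_pv_apply]
  unfold dm
  by_cases hi : i = 0
  · subst hi; simp
  · rw [if_neg (by omega), if_neg hi]; simp

theorem Md_d2 (h1 : SM_Schur) {D : ℕ} {k : ℝ} (h : 2 ≤ k * D) (j : ℕ) :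
    dW (om D k) (pv (om D k) (j + 2)) = dW (om D k) (pv (om D k) j) -
      (2 * (2 * ((j : ℂ) + 1) + 1)) • pv (om D k) (j + 1) := by
  apply lp.ext
  funext i
  rw [Md_d_pv h1 h, lp.coeFn_sub, Pi.sub_apply, Md_d_pv h1 h, lp.coeFn_smul, Pi.smul_apply,
    Md_pv_apply]
  unfold dm
  by_cases hi : i = j + 1
  · subst hi
    rw [if_pos (by omega), if_neg (by omega), if_pos rfl]
    push_cast
    simp
  · rw [if_neg hi]
    by_cases hc : i < j ∧ (j - i) % 2 = 1
    · rw [if_pos hc, if_pos (by omega)]; simp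
    · rw [if_neg hc, if_neg (by omega)]; simp

theorem p_Md (h1 : SM_Schur) (h2 : SM_Diag) (h3 : SM_V) : SM_d := by
  intro D k hA
  have h : 2 ≤ k * D := hA.2.2
  have ho : ∀ i, 0 < om D k i := fun i => Pool.Agent.P.MP_f981b0_an.IS6.om_pos h i
  have hW : Wt (om D k) k := (h2.2.2.2.2.2.2.1 D k hA).1
  obtain ⟨-, hV0, hV1, -⟩ := h3.1 _ _ hW
  have hp0 : pv (om D k) 0 = sg 0 := by
    unfold pv wg
    rw [hW.2.2.1]
    simp
  have hev : ∀ j, evW (om D k) (pv (om D k) j) = 1 := by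
    intro j
    have hw : (wg (om D k) j : ℂ) ≠ 0 := by exact_mod_cast (Md_wg_pos ho j).ne'
    unfold pv
    rw [map_smul, (Md_ev h1 h).1, smul_eq_mul]
    field_simp
  have hc : ∀ j : ℕ, (2 * (2 * ((j : ℂ) + 1) + 1)) ≠ 0 := by
    intro j
    have : (2 * (2 * ((j : ℂ) + 1) + 1)) = ((2 * (2 * (j + 1) + 1) : ℕ) : ℂ) := by push_cast; ring
    rw [this]
    exact Nat.cast_ne_zero.2 (by omega)
  have hVd : ∀ j, VW (om D k) (dW (om D k) (pv (om D k) j)) = pv (om D k) j - pv (om D k) 0 := by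
    intro j
    induction j using Nat.twoStepInduction with
    | zero => rw [Md_d0 h1 h]; simp
    | one => rw [Md_d1 h1 h, map_neg, map_smul, hV0]; abel
    | more j ih _ => rw [Md_d2 h1 h, map_sub, map_smul, ih, hV1]; abel
  refine ⟨(Md_ev h1 h).2, (Md_d h1 h).2, fun v => ?_, fun v => ?_, fun v => ?_, ?_, ?_⟩
  · have e := Md_ext h1 ho E (VW (om D k) ∘L dW (om D k))
      (ContinuousLinearMap.id ℂ E - (evW (om D k)).smulRight (sg 0)) fun j => by
        simp only [ContinuousLinearMap.comp_apply, ContinuousLinearMap.sub_apply,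
          ContinuousLinearMap.id_apply, ContinuousLinearMap.smulRight_apply]
        rw [hVd, hev, one_smul, hp0]
    simpa using DFunLike.congr_fun e v
  · have e := Md_ext h1 ho E (dW (om D k) ∘L VW (om D k)) (ContinuousLinearMap.id ℂ E) fun j => by
      simp only [ContinuousLinearMap.comp_apply, ContinuousLinearMap.id_apply]
      cases j with
      | zero =>
        apply smul_right_injective E (two_ne_zero (α := ℂ))
        simp only []
        rw [← map_smul, hV0, map_sub, Md_d0 h1 h, Md_d1 h1 h]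
        abel
      | succ j =>
        apply smul_right_injective E (hc j)
        simp only []
        rw [← map_smul, hV1, map_sub, Md_d2 h1 h]
        abel
    simpa using DFunLike.congr_fun e v
  · have e := Md_ext h1 ho ℂ (evW (om D k) ∘L VW (om D k)) 0 fun j => by
      simp only [ContinuousLinearMap.comp_apply, ContinuousLinearMap.zero_apply]
      cases j with
      | zero =>
        apply smul_right_injective ℂ (two_ne_zero (α := ℂ))
        simp only []
        rw [← map_smul, hV0, map_sub, hev, hev]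
        simp
      | succ j =>
        apply smul_right_injective ℂ (hc j)
        simp only []
        rw [← map_smul, hV1, map_sub, hev, hev]
        simp
    simpa using DFunLike.congr_fun e v
  · rw [← hp0, hev]
  · rw [← hp0, Md_d0 h1 h]

end Pool.Agent.IS
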