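import Pool.Agent.P.MP_f981b0_an.IS.Stmt

set_option autoImplicit false

open Polynomial Finset Filter Topology
open scoped Nat Real

noncomputable section

namespace Pool.Agent.IS

theorem Nat_aeval {A B S : E →L[ℂ] E} (h : ∀ v, S (A v) = B (S v)) (p : ℂ[X]) (v : E) :
    S (aeval A p v) = aeval B p (S v) := by
  have hp : ∀ (n : ℕ) (v : E), S ((A ^ n) v) = (B ^ n) (S v) := by
    intro n
    induction n with
    | zero => intro v; simp
    | succ n ih => intro v; rw [pow_succ, pow_succ, mul_apply_eq_comp,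
        mul_apply_eq_comp, ih, h]
  simp only [aeval_eq_sum_range, _root_.sum_apply, smul_apply, map_sum, map_smul, hp]

/-- Cauchy-Schwarz against a square summable sequence. -/
theorem Nat_cs (n : ℕ) (a x : ℕ → ℝ) (ha : Summable fun k => a k ^ 2)
    (hx : ∑ k ∈ range n, x k ^ 2 ≤ 1) : ∑ k ∈ range n, a k * x k ≤ √(∑' k, a k ^ 2) := by
  refine Real.le_sqrt_of_sq_le ((sum_mul_sq_le_sq_mul_sq _ _ _).trans ?_)
  have h1 : ∑ k ∈ range n, a k ^ 2 ≤ ∑' k, a k ^ 2 :=
    ha.sum_le_tsum _ fun k _ => sq_nonneg _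
  have h2 : 0 ≤ ∑ k ∈ range n, a k ^ 2 := sum_nonneg fun k _ => sq_nonneg _
  nlinarith

theorem p_Nat (h1 : S_G1) (h2 : S_Y3) : S_Nat := by
  intro M D D1 y c e' e0 β b hD hy hc hD1 hD1' he0 hd hb
  have G := h1 M D hD
  have Y := h2 M D y e' hD hy
  have hβ : 0 ≤ β := (norm_nonneg _).trans hb
  have hdel : 0 < del D := pow_pos (th_pos D) _
  have jV : ∀ v, M.j D (M.VF D v) = M.VG D (M.j D v) :=
    M.inc_V _ _ _ _ G.admF G.admG G.le_DG G.kG_le
  have j1 : M.j D M.one = M.one := M.inc_one _ _ _ _ G.admF G.admG G.le_DG G.kG_le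
  set T : ℕ → E →L[ℂ] ℂ := fun k => y ∘L M.su D (k0 D + k) ∘L M.j D with hT
  have sT : Summable fun k => ‖T k‖ ^ 2 := by
    have := (summable_nat_add_iff (k0 D)).2 Y.sm
    simpa only [hT, add_comm] using this
  have qT : √(∑' k, ‖T k‖ ^ 2) ≤ 2 * del D := by
    refine Real.sqrt_le_iff.2 ⟨by positivity, le_trans ?_ Y.sq⟩
    rw [← Y.sm.sum_add_tsum_nat_add (k0 D)]
    have : 0 ≤ ∑ i ∈ range (k0 D), ‖y ∘L M.su D i ∘L M.j D‖ ^ 2 :=
      sum_nonneg fun k _ => sq_nonneg _
    simp only [hT, add_comm (k0 D)]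
    linarith
  set r : ℕ → ℕ → ℝ := fun l k => ‖T k ((M.VF D ^ (l + 1)) M.one)‖ with hr
  have qr : ∀ l ∈ range (D1 + 1), ∑ k ∈ range (KK D + 1), r l k * ‖c k‖ ≤ del D * e0 := by
    intro l hl
    have hs : Summable fun k => r l k ^ 2 := by
      refine Summable.of_nonneg_of_le (fun k => sq_nonneg _) (fun k => ?_)
        (sT.mul_right (‖(M.VF D ^ (l + 1)) M.one‖ ^ 2))
      rw [← mul_pow]
      exact pow_le_pow_left₀ (norm_nonneg _) ((T k).le_opNorm _) 2
    refine (Nat_cs _ _ _ hs hc).trans ?_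
    have e := hd (l + 1) (by omega) (by have := mem_range.1 hl; omega)
    unfold Model.dseq n2 at e
    rw [div_le_iff₀ hdel, mul_comm] at e
    refine le_of_eq_of_le ?_ e
    have : M.j D ((M.VF D ^ (l + 1)) M.one) = (M.VG D ^ (l + 1)) M.one := by
      have := Nat_aeval jV (X ^ (l + 1)) M.one
      rwa [map_pow, map_pow, aeval_X, aeval_X, j1] at this
    simp only [hr, hT, ContinuousLinearMap.comp_apply, this]
  -- one vector
  have one : ∀ (k : ℕ) (f : E), ‖T k (M.VF D f)‖ ≤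
      (‖T k‖ * (1 / (D1 : ℝ) + kap D) + ∑ l ∈ range (D1 + 1), M.A D1 * r l k) * ‖f‖ := by
    intro k f
    obtain ⟨g, hg, hpi⟩ := M.pi_poly D (kap D) G.admF D1 f
    have e1 : M.VF D f = (M.VF D * (1 - M.pi D1)) f +
        ∑ l ∈ range (D1 + 1), g.coeff l • (M.VF D ^ (l + 1)) M.one := by
      have : M.pi D1 f = ∑ l ∈ range (D1 + 1), g.coeff l • (M.VF D ^ l) M.one := by
        rw [hpi, aeval_eq_sum_range' (Nat.lt_succ_of_le hg), _root_.sum_apply]
        rfl
      simp only [mul_apply_eq_comp, sub_apply,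
        one_apply_eq_self, map_sub, this, map_sum, map_smul, pow_succ']
      abel
    have e2 : ∀ l, ‖g.coeff l‖ ≤ M.A D1 * ‖f‖ := by
      intro l
      refine (M.coeff_le D1 g hg l).trans (mul_le_mul_of_nonneg_left ?_ (M.A_nonneg _))
      rw [← M.low D (kap D) G.admF g (by omega), ← hpi]
      exact ((M.pi D1).le_opNorm f).trans (mul_le_of_le_one_left (norm_nonneg _) (M.pi_norm _))
    rw [e1, map_add, map_sum, add_mul, sum_mul]
    refine (norm_add_le _ _).trans (add_le_add ?_ ((norm_sum_le _ _).trans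
      (sum_le_sum fun l _ => ?_)))
    · rw [mul_assoc]
      refine ((T k).le_opNorm _).trans (mul_le_mul_of_nonneg_left ?_ (norm_nonneg _))
      exact (ContinuousLinearMap.le_opNorm _ _).trans
        (mul_le_mul_of_nonneg_right (M.VS_tail D (kap D) G.admF D1 hD1) (norm_nonneg _))
    · rw [map_smul, norm_smul, mul_right_comm]
      exact mul_le_mul_of_nonneg_right (e2 l) (norm_nonneg _)
  have hf : ∀ k, ‖(M.VF D ^ 4) (aeval (M.VF D) b (c k))‖ ≤ β * ‖c k‖ := by
    intro k
    refine (ContinuousLinearMap.le_opNorm _ _).trans ((mul_le_of_le_one_left (norm_nonneg _)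
      ((norm_pow_le' _ (by norm_num)).trans (pow_le_one₀ (norm_nonneg _) G.VF_norm))).trans ?_)
    exact (ContinuousLinearMap.le_opNorm _ _).trans (mul_le_mul_of_nonneg_right hb (norm_nonneg _))
  have cu : Commute (M.u D) (M.VG D) := G.W_comm.pow_left _
  have term : ∀ k, y ((M.u D ^ k0 D) (aeval (M.VG D) (X ^ 5 * b) (M.su D k (M.j D (c k))))) =
      T k (M.VF D ((M.VF D ^ 4) (aeval (M.VF D) b (c k)))) := by
    intro k
    have c1 : ∀ v, M.su D k (M.VG D v) = M.VG D (M.su D k v) := fun v =>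
      congrArg (fun A : E →L[ℂ] E => A v)
        (((Commute.one_left _).sub_left cu).mul_left (cu.pow_left k)).eq
    have c2 : M.su D (k0 D + k) = M.u D ^ k0 D * M.su D k := by
      unfold Model.su
      rw [pow_add, ← mul_assoc, ← mul_assoc,
        (((Commute.one_left _).sub_left (Commute.refl _)).pow_right (k0 D)).eq]
    have c3 : M.VF D ((M.VF D ^ 4) (aeval (M.VF D) b (c k))) =
        aeval (M.VF D) (X ^ 5 * b) (c k) := by
      rw [map_mul, map_pow, aeval_X, pow_succ' _ 4]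
      rfl
    rw [← Nat_aeval c1, ← Nat_aeval jV, c3]
    simp only [hT, c2, ContinuousLinearMap.comp_apply, mul_apply_eq_comp]
  unfold Model.lev
  simp only [map_sum, map_smul, term]
  have hA := M.A_nonneg D1
  have hκ : 0 ≤ 1 / (D1 : ℝ) + kap D := add_nonneg (by positivity) G.admF.1.le
  calc _ ≤ ∑ k ∈ range (KK D + 1), (del D)⁻¹ * ((‖T k‖ * (1 / (D1 : ℝ) + kap D) +
        ∑ l ∈ range (D1 + 1), M.A D1 * r l k) * (β * ‖c k‖)) := by
        refine (norm_sum_le _ _).trans (sum_le_sum fun k _ => ?_)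
        rw [norm_smul, norm_inv, Complex.norm_real, Real.norm_of_nonneg hdel.le]
        refine mul_le_mul_of_nonneg_left ((one k _).trans
          (mul_le_mul_of_nonneg_left (hf k) ?_)) (by positivity)
        exact add_nonneg (mul_nonneg (norm_nonneg _) hκ)
          (sum_nonneg fun l _ => mul_nonneg hA (norm_nonneg _))
    _ = (del D)⁻¹ * β * ((1 / (D1 : ℝ) + kap D) * ∑ k ∈ range (KK D + 1), ‖T k‖ * ‖c k‖ +
        M.A D1 * ∑ l ∈ range (D1 + 1), ∑ k ∈ range (KK D + 1), r l k * ‖c k‖) := by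
        rw [sum_comm, mul_sum, mul_sum, ← sum_add_distrib, mul_sum]
        refine sum_congr rfl fun k _ => ?_
        rw [← mul_sum, ← sum_mul]
        ring
    _ ≤ (del D)⁻¹ * β * ((1 / (D1 : ℝ) + kap D) * (2 * del D) +
        M.A D1 * (((D1 : ℝ) + 1) * (del D * e0))) := by
        refine mul_le_mul_of_nonneg_left (add_le_add
          (mul_le_mul_of_nonneg_left ((Nat_cs _ _ _ sT hc).trans qT) hκ)
          (mul_le_mul_of_nonneg_left ((sum_le_sum qr).trans ?_) hA)) (by positivity)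
        simp
    _ = _ := by field_simp

end Pool.Agent.IS
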