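import Pool.Agent.P.MP_f981b0_an.IS.Stmt
import Pool.Agent.P.MP_f981b0_an.IS72.Nod

set_option autoImplicit false

open Polynomial Finset
open scoped Real

namespace Pool.Agent.IS

theorem Nod_num (D : ℕ) (h : Big D) :
    (4 * (aa D : ℝ) * (1 / (n1 D : ℝ)) * ((aa D * L1 D : ℕ) : ℝ) ≤ rh D) ∧ eta D ≤ 1 / 4 ∧
    16 * (aa D : ℝ) ^ 2 * (1 / (n1 D : ℝ) / eta D) * (2 * ((aa D * L1 D : ℕ) : ℝ) + 1) *
      Real.exp (-((aa D * L1 D : ℕ) : ℝ) / (32 * (aa D : ℝ) ^ 2)) ≤ Tn D := by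
  have hD : (65536 : ℝ) ≤ D := by exact_mod_cast h.1
  have h1 := h.num
  have h2 : (2 : ℝ) ^ (D / 2) ≤ 2 ^ D := pow_le_pow_right₀ (by norm_num) (Nat.div_le_self _ _)
  have h3 := th_inv D
  have e1 : (aa D : ℝ) = 64 * D := by unfold aa; push_cast; ring
  have e2 : (n1 D : ℝ) = 64 * D * ((2 : ℝ) ^ D) ^ 20 := by
    unfold n1; push_cast; rw [mul_comm 20 D, pow_mul]
  have e3 : ((aa D * L1 D : ℕ) : ℝ) = 8192 * (64 * D) ^ 2 * ((2 : ℝ) ^ D) ^ 11 := by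
    unfold L1 aa; push_cast; rw [mul_comm 11 D, pow_mul]; ring
  have e4 : (KK D : ℝ) = 128 * ((2 : ℝ) ^ D) ^ 20 := by
    unfold KK; push_cast; rw [mul_comm 20 D, pow_mul]
  have e5 : th D = ((2 : ℝ) ^ D)⁻¹ := eq_inv_of_mul_eq_one_right h3
  unfold rh Tn eta
  rw [e3, e1, e2, e4, e5]
  have h4 := h1.trans h2
  generalize (2 : ℝ) ^ D = x at *
  generalize (D : ℝ) = d at *
  have d1 : (1 : ℝ) ≤ d := by linarith
  have d4 : d ^ 4 ≤ d ^ 40 := pow_le_pow_right₀ d1 (by norm_num)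
  have d0 : 1 ≤ d ^ 4 := one_le_pow₀ d1
  have hx : d ^ 4 * 2 ^ 43 ≤ x := by nlinarith
  have hx1 : 4 ≤ x := by nlinarith
  have hx0 : 0 < x := by linarith
  refine ⟨?_, ?_, ?_⟩
  · have : 4 * (64 * d) * (1 / (64 * d * x ^ 20)) * (8192 * (64 * d) ^ 2 * x ^ 11) =
        2 ^ 15 * (64 * d) ^ 2 * x⁻¹ ^ 9 := by field_simp; ring
    rw [this]
    refine mul_le_mul_of_nonneg_right (mul_le_mul_of_nonneg_left
      (pow_le_pow_right₀ (by linarith) (by norm_num)) (by norm_num)) (by positivity)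
  · have : x⁻¹ ≤ 1 / 4 := by rw [one_div]; exact inv_anti₀ (by norm_num) hx1
    have h5 : x⁻¹ ^ 9 ≤ x⁻¹ ^ 1 := pow_le_pow_of_le_one (by positivity) (by linarith) (by norm_num)
    linarith
  · have a1 : -(8192 * (64 * d) ^ 2 * x ^ 11) / (32 * (64 * d) ^ 2) =
        -(64 * x ^ 11) + -(3 / 2) * (128 * x ^ 20) * x⁻¹ ^ 9 := by field_simp; ring
    rw [a1, Real.exp_add, ← mul_assoc]
    refine mul_le_of_le_one_left (Real.exp_pos _).le ?_
    have x1 : 1 ≤ x := by linarith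
    have x11 : 1 ≤ x ^ 11 := one_le_pow₀ x1
    have a2 : 1 / (64 * d * x ^ 20) / x⁻¹ ^ 9 ≤ 1 := by
      have : 1 / (64 * d * x ^ 20) / x⁻¹ ^ 9 = 1 / (64 * d * x ^ 11) := by field_simp
      rw [this, div_le_one (by positivity)]; nlinarith
    have a3 : 2 * (8192 * (64 * d) ^ 2 * x ^ 11) + 1 ≤ 3 * (8192 * (64 * d) ^ 2 * x ^ 11) := by
      have : 1 ≤ d ^ 2 * x ^ 11 := one_le_mul_of_one_le_of_one_le (one_le_pow₀ d1) x11
      nlinarith
    have a4 : 16 * (64 * d) ^ 2 * (1 / (64 * d * x ^ 20) / x⁻¹ ^ 9) *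
        (2 * (8192 * (64 * d) ^ 2 * x ^ 11) + 1) ≤ x * x ^ 11 := by
      calc _ ≤ 16 * (64 * d) ^ 2 * 1 * (3 * (8192 * (64 * d) ^ 2 * x ^ 11)) := by gcongr
        _ = 3 / 4 * (d ^ 4 * 2 ^ 43) * x ^ 11 := by ring
        _ ≤ x * x ^ 11 := mul_le_mul_of_nonneg_right (by linarith) (by positivity)
    have a5 : x * x ^ 11 ≤ Real.exp (64 * x ^ 11) := by
      have b1 : 32 * x ^ 11 ≤ Real.exp (32 * x ^ 11) := by
        linarith [Real.add_one_le_exp (32 * x ^ 11)]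
      have b2 : x ≤ x ^ 11 := by simpa using pow_le_pow_right₀ x1 (show 1 ≤ 11 by norm_num)
      rw [show 64 * x ^ 11 = 32 * x ^ 11 + 32 * x ^ 11 by ring, Real.exp_add]
      exact mul_le_mul (by linarith) (by linarith) (by positivity) (Real.exp_pos _).le
    rw [Real.exp_neg, ← div_eq_mul_inv, div_le_one (Real.exp_pos _)]
    exact a4.trans a5

/-- (Nod) without the kernel statement. -/
theorem p_Nod0 : S_Nod := by
  intro D h
  obtain ⟨h1, h2, h3⟩ := Nod_num D h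
  have hD := h.1
  have ha : 1 ≤ aa D := by unfold aa; omega
  have hN : 1 ≤ aa D * L1 D := by
    refine Nat.mul_pos ha ?_
    unfold L1; positivity
  have he : 0 < eta D := pow_pos (th_pos D) 9
  have hn : (0 : ℝ) < n1 D := by
    have : 0 < n1 D := by unfold n1; positivity
    exact_mod_cast this
  have hw : ∀ (ph : ℝ) (w : ℂ), w = r1 D * Complex.exp (ph * Complex.I) →
      w = Complex.exp (-(eta D : ℂ) / aa D + ph * Complex.I) := by
    intro ph w hw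
    rw [hw, Complex.exp_add, r1]; push_cast; rfl
  have ht : ∀ w : ℂ, tw D w = ((1 / (n1 D : ℝ) : ℝ) : ℂ) * w / (1 - w) := by
    intro w
    rw [tw]; push_cast; rw [mul_comm (1 - w), ← div_div]; ring
  refine ⟨fun q hq0 hq => ?_, ?_⟩
  · obtain ⟨m, hm1, hm2⟩ := P.MP_f981b0_an.IS72.nod_ne (aa D) (aa D * L1 D) (L1 D) ha hN le_rfl
      (1 / (n1 D : ℝ)) (eta D) (by positivity) he h2 q hq0 hq
    refine ⟨m, hm1.trans h1, fun ph w hw' hph => ?_⟩
    rw [ht]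
    exact (hm2 ph hph w (hw ph w hw')).trans h3
  · obtain ⟨m, hm1, hm2⟩ := P.MP_f981b0_an.IS72.nod_zero (aa D) (aa D * L1 D) (L1 D) ha hN le_rfl
      (1 / (n1 D : ℝ)) (eta D) (by positivity) he h2
    refine ⟨m, hm1.trans h1, fun ph w hw' hph => ?_⟩
    have e : (tau D : ℂ) = (aa D : ℂ) * ((1 / (n1 D : ℝ) : ℝ) : ℂ) := by
      have e2 : (n1 D : ℝ) = aa D * ((2 : ℝ) ^ D) ^ 20 := by
        unfold n1 aa; push_cast; rw [mul_comm 20 D, pow_mul]
      have e5 : th D = ((2 : ℝ) ^ D)⁻¹ := eq_inv_of_mul_eq_one_right (th_inv D)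
      have a0 : (0 : ℝ) < aa D := by exact_mod_cast ha
      have : tau D = (aa D : ℝ) * (1 / (n1 D : ℝ)) := by
        rw [tau, e2, e5]; field_simp
      rw [this]; push_cast; rfl
    rw [ht, e]
    exact (hm2 ph hph w (hw ph w hw')).trans h3

theorem p_Nod (_h1 : S_Ker) : S_Nod := p_Nod0

end Pool.Agent.IS
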