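import Pool.Agent.P.MP_f981b0_an.IS.Glob

/-! Existence of the next level. -/

set_option autoImplicit false

open Filter Topology
open scoped Nat

namespace Pool.Agent.IS

theorem Par_mu (n : ℕ) : (n : ℝ) ≤ mu n := by
  have h1 : n ≤ n1 n := by
    unfold n1
    calc n = 1 * n * 1 := by ring
      _ ≤ 64 * n * 2 ^ (20 * n) := by
        gcongr
        · norm_num
        · exact Nat.one_le_two_pow
  have h2 : n ≤ 2 ^ n1 n := h1.trans Nat.lt_two_pow_self.le
  unfold mu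
  exact_mod_cast h2

theorem Par_div (c e : ℝ) (he : 0 < e) : ∀ᶠ n : ℕ in atTop, c / n ≤ e :=
  (tendsto_const_div_atTop_nhds_zero_nat c).eventually (ge_mem_nhds he)

theorem p_Par : S_Par := by
  intro M D hD
  have hb : 0 < 2 * Real.exp (ZZ D) := by positivity
  generalize hβ : 2 * Real.exp (ZZ D) = β at hb
  have hth := th_pos D
  obtain ⟨ε, hε, hεq⟩ : ∃ ε : ℝ, 0 < ε ∧ β * (4 * ε) = th D :=
    ⟨th D / (4 * β), by positivity, by field_simp⟩
  obtain ⟨D1, h1, h2⟩ := ((Par_div 3 ε hε).and (eventually_ge_atTop 1)).exists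
  have hA := M.A_nonneg D1
  obtain ⟨e0, e1, e2, e3⟩ : ∃ e0 : ℝ, 0 < e0 ∧ e0 ≤ 1 ∧ ((D1 : ℝ) + 1) * M.A D1 * e0 ≤ ε := by
    refine ⟨min 1 (ε / (((D1 : ℝ) + 1) * M.A D1 + 1)), by positivity, min_le_left _ _, ?_⟩
    have a : 0 ≤ ((D1 : ℝ) + 1) * M.A D1 := by positivity
    generalize ((D1 : ℝ) + 1) * M.A D1 = x at a
    calc x * min 1 (ε / (x + 1)) ≤ (x + 1) * (ε / (x + 1)) := by
          gcongr
          · linarith
          · exact min_le_right _ _
      _ = ε := by field_simp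
  obtain ⟨m, m1, m2⟩ := (((FloorSemiring.tendsto_pow_div_factorial_atTop (4 / e0)).eventually
    (gt_mem_nhds (half_pos e1))).and (eventually_ge_atTop 1)).exists
  have m3 : 2 / (m ! : ℝ) < e0 * (e0 / 4) ^ m := by
    have a : (0 : ℝ) < (e0 / 4) ^ m := by positivity
    have b : (4 / e0) ^ m * (e0 / 4) ^ m = 1 := by
      rw [← mul_pow, show 4 / e0 * (e0 / 4) = 1 by field_simp, one_pow]
    calc 2 / (m ! : ℝ) = 2 * ((4 / e0) ^ m / (m ! : ℝ)) * (e0 / 4) ^ m := by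
          rw [mul_assoc, div_mul_eq_mul_div, b]; ring
      _ < 2 * (e0 / 2) * (e0 / 4) ^ m := by gcongr
      _ = e0 * (e0 / 4) ^ m := by ring
  have hn1 : 0 < n1 D := by
    have := hD.1
    unfold n1; positivity
  have hk : 0 < kG D := by unfold kG; positivity
  have t1 : ∀ᶠ n : ℕ in atTop, th n ^ 4 ≤ (e0 * (e0 / 4) ^ m) ^ 2 / (2 * m) := by
    have a : Tendsto (fun n : ℕ => th n ^ 4) atTop (𝓝 (0 ^ 4)) :=
      (tendsto_pow_atTop_nhds_zero_of_lt_one (by norm_num) (by norm_num)).pow 4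
    rw [zero_pow (by norm_num)] at a
    exact a.eventually (ge_mem_nhds (by positivity))
  have hmu : 0 ≤ mu D := by unfold mu; positivity
  obtain ⟨N, hN⟩ := eventually_atTop.1 ((Par_div 2048 _ hk).and
    ((Par_div (2048 * ZZ D * Real.exp (ZZ D)) (1 / 2) (by norm_num)).and
    (((tendsto_natCast_atTop_atTop (R := ℝ)).eventually_ge_atTop (mu D)).and (t1.and
    ((Par_div (mu D * ((D1 + 1)! : ℝ)) ε hε).and (Par_div (2 ^ 14) ε hε))))))
  obtain ⟨n, n1', n2, n3⟩ : ∃ n, N ≤ n ∧ Big n ∧ D + 8 * DG D + D1 + m + 3 ≤ n :=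
    ⟨8 * (N + 65536 + (D + 8 * DG D + D1 + m + 3)), by omega, ⟨by omega, dvd_mul_right _ _⟩,
      by omega⟩
  obtain ⟨c1, c2, c3, c4, c5, c6⟩ := hN n n1'
  refine ⟨n, n2, by omega, by omega, c1, ?_, c3, D1, m, e0,
    ⟨e1, e2, h2, m2, by omega, m3, c4⟩, ?_⟩
  · refine le_of_eq_of_le ?_ c2
    unfold kap; ring
  · have hn : (0 : ℝ) < n := by have := n2.1; exact_mod_cast (by omega : 0 < n)
    have c7 : mu D * ((D1 + 1)! : ℝ) / mu n ≤ ε :=
      (div_le_div_of_nonneg_left (by positivity) hn (Par_mu n)).trans c5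
    rw [gam, hβ, ← hεq]
    exact mul_le_mul_of_nonneg_left (by linarith) hb.le

end Pool.Agent.IS
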