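import Pool.Agent.P.MP_f981b0_an.IS.Stmt
import Pool.Agent.P.MP_f981b0_an.IS77.PerK

/-! The estimate (Per-k). -/

set_option autoImplicit false

open Polynomial Finset Filter Topology
open scoped Nat Real

noncomputable section

namespace Pool.Agent.IS

namespace PerK_

theorem comm_aeval {A : Type*} [Ring A] [Algebra ℂ A] {u v : A} (h : Commute u v) (p : ℂ[X]) :
    Commute (aeval u p) v := by
  induction p using Polynomial.induction_on' with
  | add p q hp hq => rw [map_add]; exact hp.add_left hq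
  | monomial n c =>
    rw [aeval_monomial]
    exact Commute.mul_left (Algebra.commutes c v) (h.pow_left n)

theorem map_aeval (S A B : E →L[ℂ] E) (h : ∀ v, S (A v) = B (S v)) (p : ℂ[X]) (v : E) :
    S (aeval A p v) = aeval B p (S v) := by
  have hp : ∀ (n : ℕ) (v : E), S ((A ^ n) v) = (B ^ n) (S v) := by
    intro n
    induction n with
    | zero => intro v; simp
    | succ n ih => intro v; simp only [pow_succ', mul_apply_eq_comp, h, ih]
  induction p using Polynomial.induction_on' with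
  | add p q hp hq => simp only [map_add, add_apply, hp, hq]
  | monomial n c =>
    simp only [aeval_monomial, mul_apply_eq_comp, Algebra.algebraMap_eq_smul_one,
      smul_apply, one_apply_eq_self, map_smul, hp]

/-- The expansion for commuting operators. -/
theorem perk_op (u V : E →L[ℂ] E) (huv : Commute u V) (y : E →L[ℂ] ℂ) (g : E) (ms : List ℂ[X])
    (m0 : ℂ[X]) (ρ dd c1 c2 : ℝ) (τ : ℂ) (L J : ℕ) (hJ : J = ms.length + 1) (hdd : 0 ≤ dd)
    (hc1 : 0 ≤ c1) (hc2 : 0 ≤ c2) (h0 : l1 m0 ≤ ρ) (hs : ∀ m ∈ ms, l1 m ≤ ρ)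
    (h1 : ∀ k i : ℕ, i ≤ J → ‖y (((1 - u) * u ^ k) ((V ^ i) g))‖ ≤ c1 * dd ^ (J - i))
    (h2 : ∀ k i : ℕ, i < J → ‖y ((u ^ k) ((V ^ i) g))‖ ≤ c2 * dd ^ (J - i)) (k : ℕ) :
    ‖y ((u ^ k) (((1 - u) * (u ^ L * V - aeval u m0) - τ • u ^ L)
        ((ms.map fun m => u ^ L * V - aeval u m).prod g))) -
        y (((1 - u) * u ^ (k + J * L)) ((V ^ J) g))‖ ≤
      c1 * ((1 + ρ * dd) ^ J - 1) + ‖τ‖ * (c2 * dd * (1 + ρ * dd) ^ (J - 1)) := by
  let Φ : ℂ[X][X] →ₐ[ℂ] (E →L[ℂ] E) := eval₂AlgHom (aeval u) V (comm_aeval huv)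
  have hu : Φ (C X) = u := by
    change eval₂ _ _ _ = _
    rw [eval₂_C]; exact aeval_X u
  have hV : Φ X = V := by
    change eval₂ _ _ _ = _
    rw [eval₂_X]
  have ha : ∀ m : ℂ[X], Φ (aeval (C X : ℂ[X][X]) m) = aeval u m := fun m => by
    rw [← aeval_algHom_apply, hu]
  let ph : ℂ[X][X] →ₗ[ℂ] ℂ :=
    (y : E →ₗ[ℂ] ℂ) ∘ₗ ((ContinuousLinearMap.apply ℂ E g : (E →L[ℂ] E) →L[ℂ] E) :
      (E →L[ℂ] E) →ₗ[ℂ] E) ∘ₗ Φ.toLinearMap
  have hph : ∀ r, ph r = y (Φ r g) := fun r => rfl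
  have key := P.MP_f981b0_an.IS77.perk (C X : ℂ[X][X]) X ph (univ : Finset (Fin ms.length))
    (fun q => ms[q.1]) m0 ρ dd c1 c2 τ L J (by simp [hJ]) hdd hc1 hc2 h0
    (fun q _ => hs _ (List.getElem_mem _))
    (fun k i hi => by
      rw [hph]; simp only [map_mul, map_sub, map_pow, map_one, hu, hV]; exact h1 k i hi)
    (fun k i hi => by
      rw [hph]; simp only [map_mul, map_pow, hu, hV]; exact h2 k i hi) k
  rw [Fin.prod_univ_fun_getElem ms
    (fun m => (C X : ℂ[X][X]) ^ L * X - aeval (C X : ℂ[X][X]) m), hph, hph] at key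
  simp only [map_mul, map_sub, map_pow, map_one, map_smul, hu, hV, ha, map_list_prod,
    List.map_map] at key
  have e : (⇑Φ ∘ fun m : ℂ[X] => (C X : ℂ[X][X]) ^ L * X - aeval (C X : ℂ[X][X]) m) =
      fun m : ℂ[X] => u ^ L * V - aeval u m := by
    funext m
    simp only [Function.comp, map_mul, map_sub, map_pow, hu, hV, ha]
  rw [e] at key
  exact key

theorem num1 {D : ℕ} (h : Big D) : dd D ≤ 21 * (D : ℝ) ^ 2 := by
  have : (65536 : ℝ) ≤ D := by exact_mod_cast h.1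
  unfold dd; nlinarith

theorem num2 {D J : ℕ} (h : Big D) (hJ : J ≤ D) :
    Real.exp (-(2 ^ D)) * dd D ^ J ≤ th D ^ 16 := by
  have hD : (65536 : ℝ) ≤ D := by exact_mod_cast h.1
  have h1 := h.num
  have h2 : (2 : ℝ) ^ (D / 2) ≤ 2 ^ D := pow_le_pow_right₀ (by norm_num) (Nat.div_le_self _ _)
  have h40 : (D : ℝ) ^ 2 ≤ (D : ℝ) ^ 40 := pow_le_pow_right₀ (by linarith) (by norm_num)
  have hp : (0 : ℝ) ≤ (D : ℝ) ^ 2 := by positivity
  have h3 : (D : ℝ) ^ 2 * 2 ^ 200 ≤ 2 ^ D :=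
    (mul_le_mul_of_nonneg_right h40 (by positivity)).trans (h1.trans h2)
  have h4 : (2 : ℝ) ^ D ≤ Real.exp D := by
    rw [← Real.exp_one_pow]
    exact pow_le_pow_left₀ (by norm_num) (by linarith [Real.add_one_le_exp 1]) D
  have hdd1 : 1 ≤ dd D := by unfold dd; nlinarith
  have h5 : dd D * 2 ^ 16 ≤ Real.exp D := by
    have := num1 h
    nlinarith
  have h6 : (dd D * 2 ^ 16) ^ D ≤ Real.exp (2 ^ D) := by
    refine (pow_le_pow_left₀ (by positivity) h5 D).trans ?_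
    rw [← Real.exp_nat_mul]
    exact Real.exp_le_exp.2 (by nlinarith)
  have h7 : dd D ^ J ≤ dd D ^ D := pow_le_pow_right₀ hdd1 hJ
  have h8 : ((2 : ℝ) ^ 16) ^ D * th D ^ 16 = 1 := by
    rw [← pow_mul, mul_comm 16 D, pow_mul, ← mul_pow, th_inv, one_pow]
  have ht : 0 < th D ^ 16 := pow_pos (th_pos D) _
  rw [Real.exp_neg, inv_mul_le_iff₀ (Real.exp_pos _)]
  calc dd D ^ J ≤ dd D ^ D * (((2 : ℝ) ^ 16) ^ D * th D ^ 16) := by rw [h8, mul_one]; exact h7
    _ = (dd D * 2 ^ 16) ^ D * th D ^ 16 := by rw [mul_pow]; ring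
    _ ≤ _ := mul_le_mul_of_nonneg_right h6 ht.le

theorem num3 {D J : ℕ} (h : Big D) (hJ : J ≤ D) :
    rh D * dd D * J ≤ 2 ^ 38 * (D : ℝ) ^ 6 * th D ^ 9 ∧ rh D * dd D * J ≤ 1 / 2 := by
  have hD : (65536 : ℝ) ≤ D := by exact_mod_cast h.1
  have hJ' : (J : ℝ) ≤ D := by exact_mod_cast hJ
  have ht := th_pos D
  have ht1 : th D ≤ 1 := pow_le_one₀ (by norm_num) (by norm_num)
  have hr : rh D = 2 ^ 33 * (D : ℝ) ^ 3 * th D ^ 9 := by unfold rh aa; push_cast; ring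
  have a1 : rh D * dd D * J ≤ 2 ^ 38 * (D : ℝ) ^ 6 * th D ^ 9 := by
    have h1 := num1 h
    have h0 : 0 ≤ dd D := by unfold dd; positivity
    calc rh D * dd D * J ≤ rh D * (32 * (D : ℝ) ^ 2) * D := by
          rw [hr]; gcongr; nlinarith
      _ = _ := by rw [hr]; ring
  refine ⟨a1, a1.trans ?_⟩
  have h2 := h.num'
  have h40 : (D : ℝ) ^ 6 ≤ (D : ℝ) ^ 40 := pow_le_pow_right₀ (by linarith) (by norm_num)
  have h9 : th D ^ 9 ≤ th D := by
    simpa using pow_le_pow_of_le_one ht.le ht1 (show 1 ≤ 9 by norm_num)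
  have h3 : (D : ℝ) ^ 6 * th D ^ 9 ≤ (D : ℝ) ^ 40 * th D := by gcongr
  nlinarith

theorem num4 {D J : ℕ} (h : Big D) (hJ : J ≤ D) :
    2 * del D * ((1 + rh D * dd D) ^ J - 1) +
      tau D * (13 / th D ^ 3 * dd D * (1 + rh D * dd D) ^ (J - 1)) +
      Real.exp (-(2 ^ D)) * dd D ^ J ≤ 2 ^ 44 * (D : ℝ) ^ 6 * th D ^ 16 := by
  have hD : (65536 : ℝ) ≤ D := by exact_mod_cast h.1
  have ht := th_pos D
  have ht1 : th D ≤ 1 := pow_le_one₀ (by norm_num) (by norm_num)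
  have h0 : 0 ≤ dd D := by unfold dd; positivity
  have hr0 : 0 ≤ rh D := by unfold rh; positivity
  obtain ⟨a1, a2⟩ := num3 h hJ
  obtain ⟨-, a3⟩ := num3 h ((Nat.sub_le J 1).trans hJ)
  have b1 := P.MP_f981b0_an.IS77.pow_sub_one_le (mul_nonneg hr0 h0) a2
  have b2 := P.MP_f981b0_an.IS77.pow_sub_one_le (mul_nonneg hr0 h0) a3
  have b3 := num2 h hJ
  have b4 := num1 h
  have h26 : (D : ℝ) ^ 2 ≤ (D : ℝ) ^ 6 := pow_le_pow_right₀ (by linarith) (by norm_num)
  have h06 : 1 ≤ (D : ℝ) ^ 6 := one_le_pow₀ (by linarith)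
  have t16 : 0 < th D ^ 16 := by positivity
  have c1 : 2 * del D * ((1 + rh D * dd D) ^ J - 1) ≤ 2 ^ 40 * (D : ℝ) ^ 6 * th D ^ 16 := by
    calc _ ≤ 2 * th D ^ 7 * (2 * (2 ^ 38 * (D : ℝ) ^ 6 * th D ^ 9)) := by
          unfold del; gcongr; linarith
      _ = _ := by ring
  have c2 : tau D * (13 / th D ^ 3 * dd D * (1 + rh D * dd D) ^ (J - 1)) ≤
      2 ^ 10 * (D : ℝ) ^ 6 * th D ^ 16 := by
    calc _ ≤ th D ^ 20 * (13 / th D ^ 3 * (32 * (D : ℝ) ^ 6) * 2) := by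
          unfold tau; gcongr <;> linarith
      _ = 832 * (D : ℝ) ^ 6 * th D ^ 16 * th D := by field_simp; ring
      _ ≤ 2 ^ 10 * (D : ℝ) ^ 6 * th D ^ 16 * 1 := by gcongr; norm_num
      _ = _ := mul_one _
  have c3 : th D ^ 16 ≤ (D : ℝ) ^ 6 * th D ^ 16 := le_mul_of_one_le_left t16.le h06
  have c4 : 0 ≤ (D : ℝ) ^ 6 * th D ^ 16 := by positivity
  nlinarith

end PerK_

open PerK_

theorem p_PerK (hG1 : S_G1) (hY3 : S_Y3) (hRel : S_Rel) : S_PerK := by
  intro M D y e' s hB hY hG hs jj h k hjj hdeg hdiv hk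
  have G := hG1 M D hB
  have Y := hY3 M D y e' hB hY
  obtain ⟨m0, ms, h0, hms, hlen, hR⟩ := hRel M D y e' s hB hY hG hs jj (by omega)
  obtain ⟨g, rfl⟩ := hdiv
  set J := 2 * jj + 1 with hJ
  have hg : g.natDegree ≤ D := by
    rcases eq_or_ne g 0 with rfl | hg
    · simp
    · rw [natDegree_X_pow_mul _ hg] at hdeg; omega
  have ht := th_pos D
  have hkj : 0 ≤ kj D s jj := by unfold kj; positivity
  have hk1 : J * L1 D ≤ k := by
    have : ((J * L1 D : ℕ) : ℝ) ≤ k := by rw [hJ]; push_cast; linarith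
    exact_mod_cast this
  obtain ⟨k', rfl⟩ : ∃ k', k = k' + J * L1 D := ⟨k - J * L1 D, by omega⟩
  have hk2 : kj D s jj ≤ k' := by rw [hJ] at hk; push_cast at hk; linarith
  have hdd : 0 ≤ dd D := by unfold dd; positivity
  set N := ‖aeval M.V (X ^ J * g) M.one‖ with hN
  have hN0 : 0 ≤ N := norm_nonneg _
  have hjV : ∀ v, M.j D (M.VF D v) = M.VG D (M.j D v) :=
    M.inc_V _ _ _ _ G.admF G.admG G.le_DG G.kG_le
  have hj1 : M.j D M.one = M.one := M.inc_one _ _ _ _ G.admF G.admG G.le_DG G.kG_le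
  have hj : ∀ p : ℂ[X], aeval (M.VG D) p M.one = M.j D (aeval (M.VF D) p M.one) := fun p => by
    rw [map_aeval _ _ _ hjV, hj1]
  have hpow : ∀ (A : E →L[ℂ] E) (i : ℕ), (A ^ i) (aeval A g M.one) = aeval A (X ^ i * g) M.one :=
    fun A i => by rw [map_mul, map_pow, aeval_X]; rfl
  have hv : ∀ n i : ℕ, i + n = J → ‖aeval (M.VF D) (X ^ i * g) M.one‖ ≤ N * dd D ^ n := by
    intro n
    induction n with
    | zero =>
      intro i hi
      rw [show i = J by omega, pow_zero, mul_one]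
      exact (congrArg norm (M.low D _ G.admF _ hdeg)).le
    | succ n ih =>
      intro i hi
      have e : aeval (M.VF D) (X ^ i * g) M.one =
          M.dF D (aeval (M.VF D) (X ^ (i + 1) * g) M.one) := by
        rw [← hpow, ← hpow, pow_succ', mul_apply_eq_comp]
        exact (M.dV D _ G.admF _).symm
      rw [e]
      calc _ ≤ ‖M.dF D‖ * ‖aeval (M.VF D) (X ^ (i + 1) * g) M.one‖ := (M.dF D).le_opNorm _
        _ ≤ dd D * (N * dd D ^ n) :=
          mul_le_mul (M.d_norm D _ G.admF) (ih (i + 1) (by omega)) (norm_nonneg _) hdd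
        _ = _ := by ring
  have hdel : 0 ≤ 2 * del D := by unfold del; positivity
  have hsu : ∀ k, ‖y ∘L M.su D k ∘L M.j D‖ ≤ 2 * del D := fun k =>
    (pow_le_pow_iff_left₀ (norm_nonneg _) hdel two_ne_zero).1
      ((Y.sm.le_tsum k fun _ _ => sq_nonneg _).trans Y.sq)
  have huv : Commute (M.u D) (M.VG D) := G.W_comm.pow_left _
  have key := perk_op (M.u D) (M.VG D) huv y (aeval (M.VG D) g M.one) ms m0 (rh D) (dd D)
    (2 * del D * N) (13 / th D ^ 3 * N) (tau D : ℂ) (L1 D) J (by omega) hdd (by positivity)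
    (by positivity) h0 hms
    (fun k i hi => by
      rw [hpow, hj, mul_assoc]
      exact ((y ∘L M.su D k ∘L M.j D).le_opNorm _).trans
        (mul_le_mul (hsu k) (hv _ i (by omega)) (norm_nonneg _) hdel))
    (fun k i hi => by
      rw [hpow, hj, mul_assoc]
      exact ((y ∘L (M.u D ^ k) ∘L M.j D).le_opNorm _).trans
        (mul_le_mul (Y.u k) (hv _ i (by omega)) (norm_nonneg _) (by positivity))) k'
  have hr := hR g hg k' hk2
  have hg0 : ‖aeval M.V g M.one‖ ≤ N * dd D ^ J := by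
    have := hv J 0 (by omega)
    rw [pow_zero, one_mul] at this
    exact (congrArg norm (M.low D _ G.admF _ hg)).symm.le.trans this
  have he : Real.exp (-(eta D * (k' - kj D s jj))) ≤ 1 :=
    Real.exp_le_one_iff.2 (neg_nonpos.2 (mul_nonneg (by unfold eta; positivity) (by linarith)))
  have hr2 : Real.exp (-(2 ^ D)) * Real.exp (-(eta D * (k' - kj D s jj))) *
      ‖aeval M.V g M.one‖ ≤ Real.exp (-(2 ^ D)) * 1 * (N * dd D ^ J) := by gcongr
  have hτ : ‖(tau D : ℂ)‖ = tau D := by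
    rw [Complex.norm_real, Real.norm_of_nonneg (by unfold tau; positivity)]
  rw [hτ, hpow] at key
  have hfin := mul_le_mul_of_nonneg_right (num4 hB hjj) hN0
  have tri := norm_sub_norm_le (y (M.su D (k' + J * L1 D) (aeval (M.VG D) (X ^ J * g) M.one)))
    (y ((M.u D ^ k') (M.Pr D m0 (M.prodF D ms (aeval (M.VG D) g M.one)))))
  rw [norm_sub_rev] at tri
  have key' : ‖y ((M.u D ^ k') (M.Pr D m0 (M.prodF D ms (aeval (M.VG D) g M.one)))) -
      y (M.su D (k' + J * L1 D) (aeval (M.VG D) (X ^ J * g) M.one))‖ ≤ _ := key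
  nlinarith

end Pool.Agent.IS
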