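import Pool.Agent.P.MP_f981b0_an.ISP9.Prop
import Pool.Agent.P.MP_f981b0_an.IS.Stmt

/-!
Package Prop.
-/

set_option autoImplicit false

namespace Pool.Agent.IS

theorem p_Prop : S_Prop := by
  intro f Mx R r p1 n hr h1 hR hf hM hc p hp0 hpR hpr
  exact P.MP_f981b0_an.ISP9.prop n
    (hf.mono fun z hz => ⟨by linarith [hz.1], by linarith [hz.2]⟩) hM
    (by linarith) (by linarith) hr (fun z _ _ hz => hc z hz) hp0 hpR hpr

end Pool.Agent.IS
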