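import Pool.Agent.P.MP_f981b0_an.IS.Stmt

/-! The `chi` term and the `Psi` term of the level step. -/

set_option autoImplicit false

open Polynomial Finset Filter Topology
open scoped Nat Real

noncomputable section

namespace Pool.Agent.IS

theorem Psi_pow {A A' S : E →L[ℂ] E} (h : ∀ v, S (A v) = A' (S v)) (n : ℕ) (v : E) :
    S ((A ^ n) v) = (A' ^ n) (S v) := by
  induction n generalizing v with
  | zero => simp
  | succ n ih => rw [pow_succ, pow_succ, ContinuousLinearMap.mul_apply,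
      ContinuousLinearMap.mul_apply, ih, h]

theorem Psi_aeval {A A' S : E →L[ℂ] E} (h : ∀ v, S (A v) = A' (S v)) (p : ℂ[X]) (v : E) :
    S (aeval A p v) = aeval A' p (S v) := by
  induction p using Polynomial.induction_on' with
  | add p q hp hq => simp only [map_add, ContinuousLinearMap.add_apply, hp, hq]
  | monomial n a =>
    simp only [aeval_monomial, Algebra.algebraMap_eq_smul_one, smul_mul_assoc, one_mul,
      ContinuousLinearMap.smul_apply, map_smul, Psi_pow h]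

theorem Psi_Xpow (A : E →L[ℂ] E) (n : ℕ) (p : ℂ[X]) (v : E) :
    aeval A (X ^ n * p) v = (A ^ n) (aeval A p v) := by
  rw [map_mul, map_pow, aeval_X, ContinuousLinearMap.mul_apply]

theorem Psi_pow_le {A : E →L[ℂ] E} (h : ‖A‖ ≤ 1) (n : ℕ) (v : E) : ‖(A ^ n) v‖ ≤ ‖v‖ := by
  induction n with
  | zero => simp
  | succ n ih =>
    rw [pow_succ', ContinuousLinearMap.mul_apply]
    calc _ ≤ ‖A‖ * ‖(A ^ n) v‖ := A.le_opNorm _
      _ ≤ 1 * ‖v‖ := mul_le_mul h ih (norm_nonneg _) zero_le_one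
      _ = _ := one_mul _

theorem Psi_contr {A : E →L[ℂ] E} (h : ‖A‖ ≤ 1) (v : E) : ‖A v‖ ≤ ‖v‖ := by
  simpa using Psi_pow_le h 1 v

theorem Psi_one (h1 : S_G1) (M : Model) (D D1 : ℕ) (y : E →L[ℂ] ℂ) (ch : E) (B β : ℝ) (b : ℂ[X])
    (hD : Big D) (hy : ‖y‖ ≤ mu D) (hch : ‖ch‖ ≤ 1) (hD1 : 1 ≤ D1) (hD2 : D1 + 1 ≤ D) (hB : 0 ≤ B)
    (hb : ‖aeval (M.VG D) b‖ ≤ β)
    (hg : ∀ g : ℂ[X], g.natDegree ≤ D1 + 1 →
      ‖y (aeval (M.VG D) g M.one)‖ ≤ B * ((D1 + 1)! : ℝ) * ‖aeval M.V g M.one‖) :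
    ‖y (aeval (M.VG D) (X ^ 5 * b) (((mu D : ℂ)⁻¹) • ch))‖ ≤
      β * (1 / (D1 : ℝ) + kap D + B * ((D1 + 1)! : ℝ) / mu D) := by
  have G := h1 M D hD
  have hβ : 0 ≤ β := (norm_nonneg _).trans hb
  have hmu : 0 < mu D := by unfold mu; positivity
  set f : E := (M.VG D ^ 4) (aeval (M.VG D) b ch) with hf
  have hfn : ‖f‖ ≤ β := by
    refine (Psi_pow_le G.VG_norm 4 _).trans ?_
    calc _ ≤ ‖aeval (M.VG D) b‖ * ‖ch‖ := ContinuousLinearMap.le_opNorm _ _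
      _ ≤ β * 1 := mul_le_mul hb hch (norm_nonneg _) hβ
      _ = β := mul_one _
  have e1 : aeval (M.VG D) (X ^ 5 * b) (((mu D : ℂ)⁻¹) • ch) = ((mu D : ℂ)⁻¹) • M.VG D f := by
    rw [map_smul, Psi_Xpow, hf, pow_succ', ContinuousLinearMap.mul_apply]
  obtain ⟨g, hgd, hge⟩ := M.pi_poly (DG D) (kG D) G.admG D1 f
  have e2 : M.VG D f = (M.VG D * (1 - M.pi D1)) f + aeval (M.VG D) (X ^ 1 * g) M.one := by
    rw [Psi_Xpow, pow_one]
    have : aeval (M.VG D) g M.one = M.pi D1 f := hge.symm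
    rw [this, ContinuousLinearMap.mul_apply, ← map_add]
    simp
  have b1 : ‖y ((M.VG D * (1 - M.pi D1)) f)‖ ≤ mu D * ((1 / (D1 : ℝ) + kap D) * β) := by
    have t1 : ‖M.VG D * (1 - M.pi D1)‖ ≤ 1 / (D1 : ℝ) + kap D :=
      (M.VS_tail (DG D) (kG D) G.admG D1 hD1).trans (by linarith [G.kG_le])
    calc _ ≤ ‖y‖ * ‖(M.VG D * (1 - M.pi D1)) f‖ := y.le_opNorm _
      _ ≤ mu D * ((1 / (D1 : ℝ) + kap D) * β) := by
        refine mul_le_mul hy ?_ (norm_nonneg _) hmu.le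
        exact (ContinuousLinearMap.le_opNorm _ _).trans
          (mul_le_mul t1 hfn (norm_nonneg _) ((norm_nonneg _).trans t1))
  have b2 : ‖y (aeval (M.VG D) (X ^ 1 * g) M.one)‖ ≤ B * ((D1 + 1)! : ℝ) * β := by
    have d1 : (X ^ 1 * g).natDegree ≤ D1 + 1 := by
      refine natDegree_mul_le.trans ?_
      rw [natDegree_X_pow]; omega
    refine (hg _ d1).trans (mul_le_mul_of_nonneg_left ?_ (by positivity))
    rw [Psi_Xpow]
    refine (Psi_pow_le (M.V_norm.trans (by norm_num)) 1 _).trans ?_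
    rw [← M.low (DG D) (kG D) G.admG g (by have := G.le_DG; omega), ← hge]
    exact (Psi_contr (M.pi_norm D1) f).trans hfn
  rw [e1, map_smul, norm_smul, norm_inv, Complex.norm_real, Real.norm_of_nonneg hmu.le, e2, map_add]
  calc _ ≤ (mu D)⁻¹ * (mu D * ((1 / (D1 : ℝ) + kap D) * β) + B * ((D1 + 1)! : ℝ) * β) :=
        mul_le_mul_of_nonneg_left ((norm_add_le _ _).trans (add_le_add b1 b2)) (by positivity)
    _ = _ := by field_simp

theorem Psi_num1 {D : ℕ} (hD : Big D) :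
    2 * del D * √((k0 D : ℝ) - (0 : ℕ)) * (th D * D) ≤ 1 / D := by
  have hn := hD.num
  obtain ⟨hD1, c, hc⟩ := hD
  obtain ⟨m, rfl⟩ : ∃ m, D = 2 * m := ⟨4 * c, by omega⟩
  have hm : (1 : ℝ) ≤ ((2 * m : ℕ) : ℝ) := by exact_mod_cast (by omega : 1 ≤ 2 * m)
  rw [show 2 * m / 2 = m by omega] at hn
  have e1 : √((k0 (2 * m) : ℝ) - (0 : ℕ)) = ((2 : ℝ) ^ m) ^ 15 := by
    rw [Nat.cast_zero, sub_zero, k0, Real.sqrt_eq_iff_mul_self_eq (by positivity) (by positivity)]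
    push_cast
    rw [← pow_mul, ← pow_add]
    congr 1
    omega
  have e2 : th (2 * m) = (((2 : ℝ) ^ m)⁻¹) ^ 2 := by
    unfold th
    rw [mul_comm 2 m, pow_mul, one_div, inv_pow]
  rw [e1, del, e2]
  generalize ((2 * m : ℕ) : ℝ) = d at hn hm ⊢
  have hx : (0 : ℝ) < 2 ^ m := by positivity
  generalize (2 : ℝ) ^ m = x at hn hx ⊢
  have hd : 0 < d := by linarith
  have h2 : 2 * d ^ 2 ≤ x := by
    refine le_trans ?_ hn
    have a1 : d ^ 2 ≤ d ^ 40 := pow_le_pow_right₀ hm (by norm_num)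
    have a2 : (2 : ℝ) ≤ 2 ^ 200 := by
      calc (2 : ℝ) = 2 ^ 1 := by norm_num
        _ ≤ 2 ^ 200 := pow_le_pow_right₀ (by norm_num) (by norm_num)
    calc 2 * d ^ 2 = d ^ 2 * 2 := mul_comm _ _
      _ ≤ d ^ 40 * 2 ^ 200 := mul_le_mul a1 a2 (by norm_num) (by positivity)
  have e3 : 2 * (x⁻¹ ^ 2) ^ 7 * x ^ 15 * (x⁻¹ ^ 2 * d) = 2 * d / x := by field_simp
  rw [e3, div_le_div_iff₀ hx hd]
  linarith

theorem Psi_num2 {D : ℕ} (hD : Big D) : (del D * (2 ^ 38 * D) + 1 / (D : ℝ) ^ 3) * D ≤ 2 / D := by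
  have hn := hD.num'
  have hm : (1 : ℝ) ≤ (D : ℝ) := by exact_mod_cast (by have := hD.1; omega : 1 ≤ D)
  have ht := th_pos D
  have ht1 : th D ≤ 1 := by unfold th; exact pow_le_one₀ (by norm_num) (by norm_num)
  have hdel : del D ≤ th D := by
    unfold del
    calc th D ^ 7 ≤ th D ^ 1 := pow_le_pow_of_le_one ht.le ht1 (by norm_num)
      _ = th D := pow_one _
  generalize del D = dl at hdel ⊢
  generalize th D = t at hn ht hdel
  generalize (D : ℝ) = d at hn hm ⊢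
  have hd : 0 < d := by linarith
  have a1 : d ^ 3 * 2 ^ 38 * t ≤ 1 := by
    refine le_trans ?_ hn
    refine mul_le_mul_of_nonneg_right ?_ ht.le
    exact mul_le_mul (pow_le_pow_right₀ hm (by norm_num))
      (pow_le_pow_right₀ (by norm_num) (by norm_num)) (by positivity) (by positivity)
  have a2 : d ^ 3 * 2 ^ 38 * dl ≤ 1 :=
    le_trans (mul_le_mul_of_nonneg_left hdel (by positivity)) a1
  have a3 : dl * (2 ^ 38 * d) * d ≤ 1 / d := by
    rw [le_div_iff₀ hd]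
    calc dl * (2 ^ 38 * d) * d * d = d ^ 3 * 2 ^ 38 * dl := by ring
      _ ≤ 1 := a2
  have a4 : 1 / d ^ 3 * d ≤ 1 / d := by
    rw [le_div_iff₀ hd]
    have : 1 / d ^ 3 * d * d = 1 / d := by field_simp
    rw [this, div_le_one hd]
    exact hm
  calc _ = dl * (2 ^ 38 * d) * d + 1 / d ^ 3 * d := by ring
    _ ≤ 1 / d + 1 / d := add_le_add a3 a4
    _ = 2 / d := by ring

theorem Psi_sqrt (D : ℕ) {e x0 : ℝ} (he : 0 ≤ e) (hx : 0 < x0) :
    del D * √(2 ^ 67 * ss D e x0) ≤ 2 ^ 40 * (e / x0) + del D * (2 ^ 38 * D) := by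
  have hdel : 0 < del D := by unfold del; exact pow_pos (th_pos D) 7
  have h1 : √(2 ^ 67 * ss D e x0) ≤ 2 ^ 40 * (e / (del D * x0)) + 2 ^ 38 * D := by
    rw [Real.sqrt_le_iff]
    refine ⟨by positivity, ?_⟩
    unfold ss
    rw [mul_div_assoc, ← div_pow]
    have ha : 0 ≤ e / (del D * x0) := by positivity
    have hb : (0 : ℝ) ≤ D := Nat.cast_nonneg D
    generalize e / (del D * x0) = a at ha ⊢
    generalize (D : ℝ) = d at hb ⊢
    nlinarith [mul_nonneg ha hb, sq_nonneg a, sq_nonneg d]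
  calc _ ≤ del D * (2 ^ 40 * (e / (del D * x0)) + 2 ^ 38 * D) :=
        mul_le_mul_of_nonneg_left h1 hdel.le
    _ = _ := by field_simp

theorem Psi_two (h1 : S_G1) (h2 : S_Y3) (h3 : S_C1) (M : Model) (D : ℕ) (y : E →L[ℂ] ℂ) (X8 : E)
    (e e' x0 β : ℝ) (b : ℂ[X]) (hD : Big D) (hy : M.YH D y e') (hG : M.GrH D y (ss D e x0))
    (he : 0 ≤ e) (hx : 0 < x0) (hX : ‖X8‖ ≤ D) (hb : ‖aeval (M.V8 D) b‖ ≤ β) :
    ‖y ((1 - M.u D ^ k0 D) (aeval (M.VG D) (X ^ 5 * b) (M.j D (M.i8 D X8))))‖ ≤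
      2 ^ 40 * (e * e' / x0) * ‖aeval M.V b (M.JF D (M.i8 D X8))‖ + 3 * β / D := by
  have G := h1 M D hD
  have Y := h2 M D y e' hD hy
  have hβ : 0 ≤ β := (norm_nonneg _).trans hb
  have hd : (0 : ℝ) < D := by exact_mod_cast (by have := hD.1; omega : 0 < D)
  have hdel : 0 < del D := by unfold del; exact pow_pos (th_pos D) 7
  have i8V : ∀ v, M.i8 D (M.V8 D v) = M.VF D (M.i8 D v) :=
    M.inc_V _ _ _ _ G.adm8 G.admF (Nat.div_le_self _ _) le_rfl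
  have jV : ∀ v, M.j D (M.VF D v) = M.VG D (M.j D v) :=
    M.inc_V _ _ _ _ G.admF G.admG G.le_DG G.kG_le
  have jone : M.j D M.one = M.one := M.inc_one _ _ _ _ G.admF G.admG G.le_DG G.kG_le
  have JV : ∀ v, M.JF D (M.VF D v) = M.V (M.JF D v) := M.J_V _ _ G.admF
  have Jone : M.JF D M.one = M.one := M.J_one _ _ G.admF
  have i8n : ‖M.i8 D‖ ≤ 1 := M.inc_norm _ _ _ _ G.adm8 G.admF (Nat.div_le_self _ _) le_rfl
  have Jn : ‖M.JF D‖ ≤ 1 := M.J_norm _ _ G.admF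
  set v8 : E := aeval (M.V8 D) b X8 with hv8
  have v8n : ‖v8‖ ≤ β * D :=
    (ContinuousLinearMap.le_opNorm _ _).trans (mul_le_mul hb hX (norm_nonneg _) hβ)
  set f : E := M.i8 D v8 with hf
  have fe : f = aeval (M.VF D) b (M.i8 D X8) := Psi_aeval i8V b X8
  have Ne : aeval M.V b (M.JF D (M.i8 D X8)) = M.JF D f := by rw [fe, Psi_aeval JV]
  rw [Ne]
  have Nn : ‖M.JF D f‖ ≤ β * D := (Psi_contr Jn f).trans ((Psi_contr i8n v8).trans v8n)
  obtain ⟨g, hgd, hge⟩ := M.pi_poly D (kap D) G.admF (D / 4) f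
  have hge' : aeval (M.VF D) g M.one = M.pi (D / 4) f := hge.symm
  have gn : ‖aeval M.V g M.one‖ ≤ ‖M.JF D f‖ := by
    have : aeval M.V g M.one = M.pi (D / 4) (M.JF D f) := by
      rw [← Jone, ← Psi_aeval JV, hge']
      exact M.J_pi _ _ G.admF _ _
    rw [this]
    exact Psi_contr (M.pi_norm _) _
  set r : E := (1 - M.pi (D / 4)) f with hr
  have rn : ‖r‖ ≤ th D * (β * D) := by
    have t1 := M.inc_gain D (kap D) G.adm8 hD.2 G.kapD
    have : r = ((1 - M.pi (D / 4)) * M.inc (D / 8) (kap D) D (kap D)) v8 := rfl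
    rw [this]
    exact (ContinuousLinearMap.le_opNorm _ _).trans
      (mul_le_mul t1 v8n (norm_nonneg _) (th_pos D).le)
  have e1 : aeval (M.VG D) (X ^ 5 * b) (M.j D (M.i8 D X8)) =
      aeval (M.VG D) (X ^ 5 * g) M.one + M.j D ((M.VF D ^ 5) r) := by
    rw [Psi_Xpow, Psi_Xpow, ← Psi_aeval jV, ← fe, ← jone, ← Psi_aeval jV, hge', Psi_pow jV,
      ← map_add, ← map_add, hr]
    simp
  have b1 := h3 M D y e' (ss D e x0) hD hy hG (by unfold ss; positivity) g hgd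
  have b2 : ‖y ((1 - M.u D ^ k0 D) (M.j D ((M.VF D ^ 5) r)))‖ ≤ β / D := by
    have t1 := Y.diff 0 (k0 D) (Nat.zero_le _)
    rw [pow_zero] at t1
    have t2 : y ((1 - M.u D ^ k0 D) (M.j D ((M.VF D ^ 5) r))) =
        (y ∘L (1 - M.u D ^ k0 D) ∘L M.j D) ((M.VF D ^ 5) r) := rfl
    rw [t2]
    calc _ ≤ _ := ContinuousLinearMap.le_opNorm _ _
      _ ≤ 2 * del D * √((k0 D : ℝ) - (0 : ℕ)) * (th D * (β * D)) :=
        mul_le_mul t1 ((Psi_pow_le G.VF_norm 5 r).trans rn) (norm_nonneg _) (by positivity)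
      _ = 2 * del D * √((k0 D : ℝ) - (0 : ℕ)) * (th D * D) * β := by ring
      _ ≤ 1 / D * β := mul_le_mul_of_nonneg_right (Psi_num1 hD) hβ
      _ = β / D := by ring
  have hs := Psi_sqrt D he hx
  have hn2 := Psi_num2 hD
  have e0 := hy.e0
  have e1' := hy.e1
  have c1 : e' * del D * √(2 ^ 67 * ss D e x0) + 1 / (D : ℝ) ^ 3 ≤
      2 ^ 40 * (e * e' / x0) + (del D * (2 ^ 38 * D) + 1 / (D : ℝ) ^ 3) := by
    have t1 : e' * (del D * √(2 ^ 67 * ss D e x0)) ≤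
        e' * (2 ^ 40 * (e / x0) + del D * (2 ^ 38 * D)) := mul_le_mul_of_nonneg_left hs e0
    have t2 : e' * (del D * (2 ^ 38 * D)) ≤ 1 * (del D * (2 ^ 38 * D)) :=
      mul_le_mul_of_nonneg_right e1' (by positivity)
    have t3 : e' * (2 ^ 40 * (e / x0)) = 2 ^ 40 * (e * e' / x0) := by ring
    rw [mul_add, t3] at t1
    rw [mul_assoc]
    linarith
  have c2 : (del D * (2 ^ 38 * D) + 1 / (D : ℝ) ^ 3) * ‖M.JF D f‖ ≤ 2 * β / D := by
    calc _ ≤ (del D * (2 ^ 38 * D) + 1 / (D : ℝ) ^ 3) * (β * D) :=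
          mul_le_mul_of_nonneg_left Nn (by positivity)
      _ = (del D * (2 ^ 38 * D) + 1 / (D : ℝ) ^ 3) * D * β := by ring
      _ ≤ 2 / D * β := mul_le_mul_of_nonneg_right hn2 hβ
      _ = 2 * β / D := by ring
  rw [e1, map_add, map_add]
  calc _ ≤ _ := norm_add_le _ _
    _ ≤ (2 ^ 40 * (e * e' / x0) + (del D * (2 ^ 38 * D) + 1 / (D : ℝ) ^ 3)) * ‖M.JF D f‖ +
        β / D := add_le_add (b1.trans (mul_le_mul c1 gn (norm_nonneg _) (by positivity))) b2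
    _ ≤ _ := by
      rw [add_mul]
      have : 3 * β / D = 2 * β / D + β / D := by ring
      rw [this]
      linarith

theorem p_Psi (h1 : S_G1) (h2 : S_Y3) (h3 : S_C1) : S_Psi :=
  ⟨fun M D D1 y ch B β b hD hy hch hD1 hD2 hB hb hg =>
      Psi_one h1 M D D1 y ch B β b hD hy hch hD1 hD2 hB hb hg,
    fun M D y X8 e e' x0 β b hD hy hG he hx hX hb =>
      Psi_two h1 h2 h3 M D y X8 e e' x0 β b hD hy hG he hx hX hb⟩

end Pool.Agent.IS
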