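import Mathlib

/-! # The `l1` norm of the coefficients of a complex polynomial (helper2) -/

set_option autoImplicit false

namespace ISNod

open Polynomial Finset

/-- sum of the moduli of the coefficients -/
noncomputable def l1 (p : ℂ[X]) : ℝ := ∑ i ∈ p.support, ‖p.coeff i‖

theorem l1_eq_of_subset {p : ℂ[X]} {s : Finset ℕ} (h : p.support ⊆ s) :
    l1 p = ∑ i ∈ s, ‖p.coeff i‖ := by
  unfold l1
  refine Finset.sum_subset h fun i _ hi => ?_
  rw [Polynomial.notMem_support_iff.1 hi, norm_zero]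

theorem l1_nonneg (p : ℂ[X]) : 0 ≤ l1 p := Finset.sum_nonneg fun _ _ => norm_nonneg _

@[simp] theorem l1_zero : l1 0 = 0 := by simp [l1]

theorem l1_monomial (n : ℕ) (c : ℂ) : l1 (monomial n c) = ‖c‖ := by
  rw [l1_eq_of_subset (s := {n}) (Polynomial.support_monomial_subset n c)]
  simp

theorem l1_C (c : ℂ) : l1 (C c) = ‖c‖ := by
  rw [← Polynomial.monomial_zero_left, l1_monomial]

@[simp] theorem l1_one : l1 1 = 1 := by
  rw [← Polynomial.C_1, l1_C, norm_one]

@[simp] theorem l1_X_pow (n : ℕ) : l1 (X ^ n) = 1 := by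
  rw [Polynomial.X_pow_eq_monomial, l1_monomial, norm_one]

@[simp] theorem l1_X : l1 X = 1 := by simpa using l1_X_pow 1

theorem l1_add_le (p q : ℂ[X]) : l1 (p + q) ≤ l1 p + l1 q := by
  classical
  rw [l1_eq_of_subset (p := p + q) (s := p.support ∪ q.support) Polynomial.support_add,
    l1_eq_of_subset (p := p) (s := p.support ∪ q.support) Finset.subset_union_left,
    l1_eq_of_subset (p := q) (s := p.support ∪ q.support) Finset.subset_union_right,
    ← Finset.sum_add_distrib]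
  exact Finset.sum_le_sum fun i _ => by rw [Polynomial.coeff_add]; exact norm_add_le _ _

@[simp] theorem l1_neg (p : ℂ[X]) : l1 (-p) = l1 p := by simp [l1]

theorem l1_sub_le (p q : ℂ[X]) : l1 (p - q) ≤ l1 p + l1 q := by
  rw [sub_eq_add_neg]; simpa using l1_add_le p (-q)

theorem l1_sum_le {ι : Type*} (s : Finset ι) (f : ι → ℂ[X]) :
    l1 (∑ i ∈ s, f i) ≤ ∑ i ∈ s, l1 (f i) := by
  classical
  induction s using Finset.induction_on with
  | empty => simp
  | insert a s ha ih =>
    rw [Finset.sum_insert ha, Finset.sum_insert ha]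
    exact (l1_add_le _ _).trans (by linarith)

theorem l1_mul_le (p q : ℂ[X]) : l1 (p * q) ≤ l1 p * l1 q := by
  rw [Polynomial.mul_eq_sum_sum]
  refine (l1_sum_le _ _).trans ?_
  unfold l1
  rw [Finset.sum_mul_sum]
  refine Finset.sum_le_sum fun i _ => ?_
  rw [Polynomial.sum_def]
  refine (l1_sum_le _ _).trans (Finset.sum_le_sum fun j _ => ?_)
  rw [l1_monomial, norm_mul]

theorem l1_pow_le (p : ℂ[X]) (n : ℕ) : l1 (p ^ n) ≤ l1 p ^ n := by
  induction n with
  | zero => simp
  | succ n ih =>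
    rw [pow_succ, pow_succ]
    exact (l1_mul_le _ _).trans (mul_le_mul_of_nonneg_right ih (l1_nonneg _))

theorem l1_prod_le {ι : Type*} (s : Finset ι) (f : ι → ℂ[X]) :
    l1 (∏ i ∈ s, f i) ≤ ∏ i ∈ s, l1 (f i) := by
  classical
  induction s using Finset.induction_on with
  | empty => simp
  | insert a s ha ih =>
    rw [Finset.prod_insert ha, Finset.prod_insert ha]
    exact (l1_mul_le _ _).trans (mul_le_mul_of_nonneg_left ih (l1_nonneg _))

theorem l1_C_mul_le (c : ℂ) (p : ℂ[X]) : l1 (C c * p) ≤ ‖c‖ * l1 p := by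
  simpa [l1_C] using l1_mul_le (C c) p

/-- use of `l1`: a linear map on an algebra that is bounded by `B` on all powers of `u`
is bounded by `l1 p * B` on `p(u)`. -/
theorem norm_map_aeval_le {A F : Type*} [Semiring A] [Algebra ℂ A] [SeminormedAddCommGroup F]
    [NormedSpace ℂ F] (φ : A →ₗ[ℂ] F) (u : A) {B : ℝ} (hB : ∀ k : ℕ, ‖φ (u ^ k)‖ ≤ B)
    (p : ℂ[X]) : ‖φ (aeval u p)‖ ≤ l1 p * B := by
  conv_lhs => rw [p.as_sum_support_C_mul_X_pow]
  rw [map_sum, map_sum]
  refine (norm_sum_le _ _).trans ?_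
  unfold l1
  rw [Finset.sum_mul]
  refine Finset.sum_le_sum fun i _ => ?_
  rw [map_mul, aeval_C, map_pow, aeval_X, ← Algebra.smul_def, map_smul, norm_smul]
  exact mul_le_mul_of_nonneg_left (hB i) (norm_nonneg _)

theorem norm_eval_le (p : ℂ[X]) {z : ℂ} (hz : ‖z‖ ≤ 1) : ‖p.eval z‖ ≤ l1 p := by
  have := norm_map_aeval_le (LinearMap.id : ℂ →ₗ[ℂ] ℂ) z (B := 1)
    (fun k => by simpa using pow_le_one₀ (norm_nonneg z) hz) p
  simpa using this

end ISNod
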