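import Pool.Agent.P.MP_f981b0_an.IS.Stmt
import Pool.Agent.P.MP_f981b0_an.IS.L1

/-! Package `Rel`: the relation between `u` and `V` under the functional `y`. -/

set_option autoImplicit false

open Polynomial Finset Filter Topology
open scoped Nat Real

noncomputable section

namespace Pool.Agent.IS

theorem Rel_avg_le {f : ℂ → ℂ} {R C : ℝ} (hR : 0 ≤ R) (h : ∀ w : ℂ, ‖w‖ = R → ‖f w‖ ≤ C) :
    ‖Real.circleAverage f 0 R‖ ≤ C := by
  rw [Real.circleAverage_def, norm_smul]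
  have h1 : ‖∫ θ in (0 : ℝ)..2 * π, f (circleMap 0 R θ)‖ ≤ C * |2 * π - 0| := by
    refine intervalIntegral.norm_integral_le_of_norm_le_const fun θ _ => h _ ?_
    rw [norm_circleMap_zero, abs_of_nonneg hR]
  have hp : 0 < 2 * π := by positivity
  rw [sub_zero, abs_of_pos hp] at h1
  rw [Real.norm_eq_abs, abs_of_pos (inv_pos.2 hp)]
  calc (2 * π)⁻¹ * ‖∫ θ in (0 : ℝ)..2 * π, f (circleMap 0 R θ)‖ ≤ (2 * π)⁻¹ * (C * (2 * π)) :=
        mul_le_mul_of_nonneg_left h1 (inv_pos.2 hp).le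
    _ = C := by field_simp

theorem Rel_prod_le_one (ff : ℂ[X] → ℂ) (ms : List ℂ[X]) (h : ∀ m ∈ ms, ‖ff m‖ ≤ 1) :
    ‖(ms.map ff).prod‖ ≤ 1 := by
  induction ms with
  | nil => simp
  | cons m ms ih =>
    rw [List.map_cons, List.prod_cons, norm_mul]
    exact mul_le_one₀ (h m (by simp)) (norm_nonneg _) (ih fun m' hm' => h m' (by simp [hm']))

theorem Rel_prod_le (ff : ℂ[X] → ℂ) (ms : List ℂ[X]) (h : ∀ m ∈ ms, ‖ff m‖ ≤ 1) {m1 : ℂ[X]}
    (hm1 : m1 ∈ ms) : ‖(ms.map ff).prod‖ ≤ ‖ff m1‖ := by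
  induction ms with
  | nil => simp at hm1
  | cons m ms ih =>
    rw [List.map_cons, List.prod_cons, norm_mul]
    have h' : ∀ m' ∈ ms, ‖ff m'‖ ≤ 1 := fun m' hm' => h m' (by simp [hm'])
    rcases List.mem_cons.1 hm1 with rfl | hm
    · exact mul_le_of_le_one_right (norm_nonneg _) (Rel_prod_le_one ff ms h')
    · exact (mul_le_of_le_one_left (norm_nonneg _) (h m (by simp))).trans (ih h' hm)

/-- The closure properties of the symbol relation. -/
structure Rel_Cl (M : Model) (D : ℕ) (y : E →L[ℂ] ℂ) : Prop where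
  one : M.Sy D y M.one (fun _ => 1)
  add : ∀ v v' f f', M.Sy D y v f → M.Sy D y v' f' → M.Sy D y (v + v') (fun w => f w + f' w)
  smul : ∀ (a : ℂ) v f, M.Sy D y v f → M.Sy D y (a • v) (fun w => a * f w)
  W : ∀ v f, M.Sy D y v f → M.Sy D y (M.W D v) (fun w => w * f w)
  V : ∀ v f, M.Sy D y v f → M.Sy D y (M.VG D v) (fun w => tw D w * f w)

theorem Rel_congr {M : Model} {D : ℕ} {y : E →L[ℂ] ℂ} {v v' : E} {f f' : ℂ → ℂ}
    (h : M.Sy D y v f) (hv : v' = v) (hf : ∀ w, f' w = f w) : M.Sy D y v' f' := by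
  have : f' = f := funext hf
  rw [hv, this]; exact h

theorem Rel_pow {M : Model} {D : ℕ} {y : E →L[ℂ] ℂ} {A : E →L[ℂ] E} {ff : ℂ → ℂ}
    (hA : ∀ v f, M.Sy D y v f → M.Sy D y (A v) (fun w => ff w * f w)) (n : ℕ) :
    ∀ v f, M.Sy D y v f → M.Sy D y ((A ^ n) v) (fun w => ff w ^ n * f w) := by
  induction n with
  | zero => intro v f h; exact Rel_congr h (by simp) (by simp)
  | succ n ih =>
    intro v f h
    refine Rel_congr (hA _ _ (ih v f h)) ?_ fun w => by ring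
    rw [pow_succ']; rfl

theorem Rel_aeval {M : Model} {D : ℕ} {y : E →L[ℂ] ℂ} (hc : Rel_Cl M D y) {A : E →L[ℂ] E}
    {ff : ℂ → ℂ} (hA : ∀ v f, M.Sy D y v f → M.Sy D y (A v) (fun w => ff w * f w)) (m : ℂ[X]) :
    ∀ v f, M.Sy D y v f → M.Sy D y (aeval A m v) (fun w => m.eval (ff w) * f w) := by
  intro v f h
  induction m using Polynomial.induction_on' with
  | add p q hp hq =>
    refine Rel_congr (hc.add _ _ _ _ hp hq) ?_ fun w => by rw [eval_add]; ring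
    rw [map_add]; rfl
  | monomial n a =>
    refine Rel_congr (hc.smul a _ _ (Rel_pow hA n v f h)) ?_ fun w => by
      rw [eval_monomial]; ring
    rw [aeval_monomial, ← Algebra.smul_def]; rfl

theorem Rel_sub {M : Model} {D : ℕ} {y : E →L[ℂ] ℂ} (hc : Rel_Cl M D y) {v v' : E}
    {f f' : ℂ → ℂ} (h : M.Sy D y v f) (h' : M.Sy D y v' f') :
    M.Sy D y (v - v') (fun w => f w - f' w) := by
  refine Rel_congr (hc.add _ _ _ _ h (hc.smul (-1) _ _ h')) ?_ fun w => by ring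
  rw [neg_one_smul, sub_eq_add_neg]

theorem Rel_u {M : Model} {D : ℕ} {y : E →L[ℂ] ℂ} (hc : Rel_Cl M D y) :
    ∀ v f, M.Sy D y v f → M.Sy D y (M.u D v) (fun w => w ^ aa D * f w) :=
  Rel_pow (ff := fun w => w) hc.W (aa D)

/-- The symbol of the node factor. -/
def Rel_fq (D : ℕ) (w : ℂ) (m : ℂ[X]) : ℂ := (w ^ aa D) ^ L1 D * tw D w - m.eval (w ^ aa D)

/-- The symbol of the principal factor. -/
def Rel_pr (D : ℕ) (w : ℂ) (m : ℂ[X]) : ℂ :=
  (1 - w ^ aa D) * Rel_fq D w m - (tau D : ℂ) * (w ^ aa D) ^ L1 D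

theorem Rel_Fq {M : Model} {D : ℕ} {y : E →L[ℂ] ℂ} (hc : Rel_Cl M D y) (m : ℂ[X]) :
    ∀ v f, M.Sy D y v f → M.Sy D y (M.Fq D m v) (fun w => Rel_fq D w m * f w) := by
  intro v f h
  refine Rel_congr (Rel_sub hc (Rel_pow (Rel_u hc) (L1 D) _ _ (hc.V _ _ h))
    (Rel_aeval hc (Rel_u hc) m v f h)) rfl fun w => ?_
  unfold Rel_fq; ring

theorem Rel_Pr {M : Model} {D : ℕ} {y : E →L[ℂ] ℂ} (hc : Rel_Cl M D y) (m : ℂ[X]) :
    ∀ v f, M.Sy D y v f → M.Sy D y (M.Pr D m v) (fun w => Rel_pr D w m * f w) := by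
  intro v f h
  have h1 := Rel_Fq hc m v f h
  refine Rel_congr (Rel_sub hc (Rel_sub hc h1 (Rel_u hc _ _ h1))
    (hc.smul (tau D : ℂ) _ _ (Rel_pow (Rel_u hc) (L1 D) _ _ h))) rfl fun w => ?_
  unfold Rel_pr; ring

theorem Rel_prodF {M : Model} {D : ℕ} {y : E →L[ℂ] ℂ} (hc : Rel_Cl M D y) (ms : List ℂ[X]) :
    ∀ v f, M.Sy D y v f →
      M.Sy D y (M.prodF D ms v) (fun w => (ms.map (Rel_fq D w)).prod * f w) := by
  intro v f h
  induction ms with
  | nil => exact Rel_congr h (by simp [Model.prodF]) (by simp)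
  | cons m ms ih =>
    refine Rel_congr (Rel_Fq hc m _ _ ih) ?_ fun w => by
      rw [List.map_cons, List.prod_cons]; ring
    unfold Model.prodF
    rw [List.map_cons, List.prod_cons]; rfl

/-! Numerical facts. -/

theorem Rel_th_le {D : ℕ} (hD : Big D) :
    (65536 : ℝ) ≤ D ∧ 0 < th D ∧ th D ≤ 1 ∧ (D : ℝ) ^ 3 * 2 ^ 40 * th D ≤ 1 := by
  have h1 : (65536 : ℝ) ≤ D := by exact_mod_cast hD.1
  have h2 := hD.num'
  have h3 := th_pos D
  refine ⟨h1, h3, by unfold th; exact pow_le_one₀ (by norm_num) (by norm_num), ?_⟩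
  refine le_trans (mul_le_mul_of_nonneg_right ?_ h3.le) h2
  exact mul_le_mul (pow_le_pow_right₀ (by linarith) (by norm_num))
    (pow_le_pow_right₀ (by norm_num) (by norm_num)) (by positivity) (by positivity)

theorem Rel_aa (D : ℕ) : (aa D : ℝ) = 64 * D := by unfold aa; push_cast; ring

theorem Rel_n1 (D : ℕ) : (n1 D : ℝ) * th D ^ 20 = 64 * D := by
  have h : ((2 : ℝ) ^ D) ^ 20 * th D ^ 20 = 1 := by rw [← mul_pow, th_inv, one_pow]
  unfold n1; push_cast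
  rw [mul_comm 20 D, pow_mul, mul_assoc, h, mul_one]

theorem Rel_r1 {D : ℕ} (hD : Big D) :
    0 < r1 D ∧ r1 D ≤ 1 ∧ 1 / 2 ≤ r1 D ∧ eta D / (2 * aa D) ≤ 1 - r1 D := by
  obtain ⟨h1, h2, h3, -⟩ := Rel_th_le hD
  have he0 : 0 < eta D := pow_pos h2 9
  have he1 : eta D ≤ 1 := pow_le_one₀ h2.le h3
  have ha : (2 : ℝ) ≤ aa D := by rw [Rel_aa]; linarith
  have ha0 : (0 : ℝ) < aa D := by linarith
  obtain ⟨x, hx⟩ : ∃ x : ℝ, x = eta D / aa D := ⟨_, rfl⟩
  have hx0 : 0 < x := by rw [hx]; positivity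
  have hx1 : x ≤ 1 / 2 := by rw [hx, div_le_iff₀ ha0]; linarith
  have hr : r1 D = Real.exp (-x) := by unfold r1; rw [hx, neg_div]
  have hh : eta D / (2 * aa D) = x / 2 := by rw [hx]; field_simp
  have e1 := Real.add_one_le_exp (-x)
  have e2 := Real.add_one_le_exp x
  have e3 : Real.exp (-x) * Real.exp x = 1 := by rw [← Real.exp_add]; simp
  have e4 := Real.exp_pos (-x)
  rw [hr, hh]
  refine ⟨e4, Real.exp_le_one_iff.2 (by linarith), by linarith, ?_⟩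
  have e5 : Real.exp (-x) * (x + 1) ≤ 1 := by nlinarith
  nlinarith

theorem Rel_circ {D : ℕ} (hD : Big D) {w : ℂ} (hw : ‖w‖ = r1 D) :
    ‖(1 - w)⁻¹‖ ≤ 2 * aa D / eta D ∧ ‖tw D w‖ ≤ 2 * th D ^ 11 ∧
      ‖w ^ aa D‖ = Real.exp (-eta D) := by
  obtain ⟨h1, h2, h3, -⟩ := Rel_th_le hD
  obtain ⟨r0, r1', -, r3⟩ := Rel_r1 hD
  have he0 : 0 < eta D := pow_pos h2 9
  have ha0 : (0 : ℝ) < aa D := by rw [Rel_aa]; linarith
  have hl : eta D / (2 * aa D) ≤ ‖1 - w‖ := by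
    have := norm_sub_norm_le (1 : ℂ) w
    rw [norm_one, hw] at this
    linarith
  have hp : 0 < eta D / (2 * aa D) := by positivity
  have hA : ‖(1 - w)⁻¹‖ ≤ 2 * aa D / eta D := by
    rw [norm_inv]
    calc ‖1 - w‖⁻¹ ≤ (eta D / (2 * aa D))⁻¹ := inv_anti₀ hp hl
      _ = 2 * aa D / eta D := by rw [inv_div]
  refine ⟨hA, ?_, ?_⟩
  · have hn := Rel_n1 D
    have hn0 : (0 : ℝ) < n1 D := by
      by_contra hc
      have : (n1 D : ℝ) * th D ^ 20 ≤ 0 :=
        mul_nonpos_of_nonpos_of_nonneg (not_lt.1 hc) (by positivity)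
      linarith
    have e : tw D w = w * (1 - w)⁻¹ * (n1 D : ℂ)⁻¹ := by
      unfold tw; rw [div_eq_mul_inv, mul_inv, mul_assoc]
    rw [e, norm_mul, norm_mul, norm_inv (n1 D : ℂ), Complex.norm_natCast, hw]
    calc r1 D * ‖(1 - w)⁻¹‖ * (n1 D : ℝ)⁻¹ ≤ 1 * (2 * aa D / eta D) * (n1 D : ℝ)⁻¹ := by
          gcongr
      _ = 2 * th D ^ 11 := by
          rw [Rel_aa, ← hn]; unfold eta; field_simp
  · rw [norm_pow, hw]; unfold r1
    rw [← Real.exp_nat_mul]; congr 1; field_simp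

theorem Rel_fac {D : ℕ} (hD : Big D) {w : ℂ} (hw : ‖w‖ = r1 D) {m : ℂ[X]} (hm : l1 m ≤ rh D) :
    ‖Rel_fq D w m‖ ≤ 1 ∧ ‖Rel_pr D w m‖ ≤ 1 := by
  obtain ⟨h1, h2, h3, h4⟩ := Rel_th_le hD
  obtain ⟨-, c2, c3⟩ := Rel_circ hD hw
  have he0 : 0 < eta D := pow_pos h2 9
  have hz : ‖w ^ aa D‖ ≤ 1 := by rw [c3]; exact Real.exp_le_one_iff.2 (by linarith)
  have hzL : ‖(w ^ aa D) ^ L1 D‖ ≤ 1 := by
    rw [norm_pow]; exact pow_le_one₀ (norm_nonneg _) hz
  have hev : ‖m.eval (w ^ aa D)‖ ≤ rh D := (ISNod.norm_eval_le m hz).trans hm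
  have hD3 : (1 : ℝ) ≤ (D : ℝ) ^ 3 := one_le_pow₀ (by linarith)
  have hth : th D ≤ 1 / 64 := by nlinarith
  have hp : ∀ n : ℕ, th D ^ (n + 1) ≤ th D := fun n => by
    rw [pow_succ]; exact mul_le_of_le_one_left h2.le (pow_le_one₀ h2.le h3)
  have hrh : rh D ≤ 1 / 8 := by
    unfold rh; rw [Rel_aa]
    have := hp 8
    calc (2 : ℝ) ^ 15 * (64 * D) ^ 3 * th D ^ 9 ≤ 2 ^ 15 * (64 * D) ^ 3 * th D := by gcongr
      _ = ((D : ℝ) ^ 3 * 2 ^ 40 * th D) / 128 := by ring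
      _ ≤ 1 / 8 := by linarith
  have hq : ‖Rel_fq D w m‖ ≤ 1 / 4 := by
    unfold Rel_fq
    refine (norm_sub_le _ _).trans ?_
    rw [norm_mul]
    have := mul_le_of_le_one_left (norm_nonneg (tw D w)) hzL
    have h11 : th D ^ 11 ≤ th D := hp 10
    linarith
  refine ⟨by linarith, ?_⟩
  unfold Rel_pr
  refine (norm_sub_le _ _).trans ?_
  rw [norm_mul, norm_mul, Complex.norm_real, Real.norm_eq_abs]
  have ht0 : 0 ≤ tau D := pow_nonneg h2.le 20
  have ht : tau D ≤ 1 / 64 := (hp 19).trans hth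
  have h1z : ‖1 - w ^ aa D‖ ≤ 2 := by
    refine (norm_sub_le _ _).trans ?_
    rw [norm_one]; linarith
  rw [abs_of_nonneg ht0]
  have a1 : ‖1 - w ^ aa D‖ * ‖Rel_fq D w m‖ ≤ 2 * (1 / 4) :=
    mul_le_mul h1z hq (norm_nonneg _) (by norm_num)
  have a2 := mul_le_of_le_one_right ht0 hzL
  linarith

theorem Rel_final {D : ℕ} (hD : Big D) :
    Real.exp (Lam D + 1) * (4 * ((D : ℝ) + 1)) * (2 * aa D / eta D) ≤
      Real.exp (-(2 ^ D) + eta D * 2 ^ (11 * D)) := by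
  obtain ⟨h1, h2, h3, h4⟩ := Rel_th_le hD
  have hi := th_inv D
  obtain ⟨x, hx⟩ : ∃ x : ℝ, x = 2 ^ D := ⟨_, rfl⟩
  rw [← hx] at hi
  have hx0 : 0 < x := by rw [hx]; positivity
  have hth : th D = x⁻¹ := by field_simp; linarith
  have hx1 : (D : ℝ) ^ 3 * 2 ^ 40 ≤ x := by
    rw [hth] at h4
    have := mul_le_mul_of_nonneg_right h4 hx0.le
    rwa [mul_assoc, inv_mul_cancel₀ hx0.ne', mul_one, one_mul] at this
  have e1 : eta D * 2 ^ (11 * D) = x ^ 2 := by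
    unfold eta; rw [mul_comm 11 D, pow_mul, ← hx, hth]; field_simp
  have e2 : 2 * (aa D : ℝ) / eta D = 128 * D * x ^ 9 := by
    unfold eta; rw [Rel_aa, hth]; field_simp; norm_num
  have hD2 : (D : ℝ) ^ 2 ≤ (D : ℝ) ^ 3 := pow_le_pow_right₀ (by linarith) (by norm_num)
  have hD1 : (D : ℝ) ≤ (D : ℝ) ^ 2 := by nlinarith
  have e3 : 4 * ((D : ℝ) + 1) * (128 * D) ≤ x := by nlinarith
  have e4 : x ≤ Real.exp D := by
    rw [hx]
    calc (2 : ℝ) ^ D ≤ Real.exp 1 ^ D :=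
          pow_le_pow_left₀ (by norm_num) (by have := Real.add_one_le_exp (1 : ℝ); linarith) D
      _ = Real.exp D := by rw [← Real.exp_nat_mul, mul_one]
  have e5 : x ^ 10 ≤ Real.exp (10 * D) := by
    calc x ^ 10 ≤ Real.exp D ^ 10 := pow_le_pow_left₀ hx0.le e4 10
      _ = Real.exp (10 * D) := by rw [← Real.exp_nat_mul]; norm_num
  rw [e1, e2, ← hx]
  calc Real.exp (Lam D + 1) * (4 * ((D : ℝ) + 1)) * (128 * D * x ^ 9)
      = Real.exp (Lam D + 1) * ((4 * ((D : ℝ) + 1) * (128 * D)) * x ^ 9) := by ring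
    _ ≤ Real.exp (Lam D + 1) * (x * x ^ 9) := by gcongr
    _ = Real.exp (Lam D + 1) * x ^ 10 := by ring
    _ ≤ Real.exp (Lam D + 1) * Real.exp (10 * D) := by gcongr
    _ = Real.exp (Lam D + 1 + 10 * D) := by rw [← Real.exp_add]
    _ ≤ Real.exp (-x + x ^ 2) := by
        refine Real.exp_le_exp.2 ?_
        have a1 : Lam D + 1 + 10 * D ≤ x := by unfold Lam; nlinarith
        have a2 : 2 ≤ x := by nlinarith
        nlinarith

theorem Rel_Tn {D : ℕ} (hD : Big D) :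
    Tn D * (Real.exp (Lam D) * max 1 ((r1 D)⁻¹ ^ (aa D * KK D))) ≤ Real.exp (Lam D) := by
  obtain ⟨h1, h2, -, -⟩ := Rel_th_le hD
  have he0 : 0 < eta D := pow_pos h2 9
  have ha0 : (0 : ℝ) < aa D := by rw [Rel_aa]; linarith
  have hK : 0 ≤ (KK D : ℝ) * eta D := by positivity
  have e1 : (r1 D)⁻¹ ^ (aa D * KK D) = Real.exp (KK D * eta D) := by
    unfold r1
    rw [← Real.exp_neg, ← Real.exp_nat_mul]; congr 1; push_cast; field_simp
  rw [e1, max_eq_right (Real.one_le_exp hK)]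
  unfold Tn
  rw [← Real.exp_add, ← Real.exp_add]
  exact Real.exp_le_exp.2 (by linarith)

theorem p_Rel (h1 : S_G1) (h2 : S_Symb) (h3 : S_Yh) (h4 : S_Nod) (h5 : S_Avg) : S_Rel := by
  intro M D y e' s hD hy hGr hs jj hjj
  obtain ⟨hne, m0, hm0, hz⟩ := h4 D hD
  have hne' : ∀ q : ℤ, ∃ m : ℂ[X], l1 m ≤ rh D ∧ (q ≠ 0 → |q| ≤ aa D → ∀ (ph : ℝ) (w : ℂ),
      w = r1 D * Complex.exp (ph * Complex.I) → |ph - π * q / aa D| ≤ π / (2 * aa D) →
      ‖Rel_fq D w m‖ ≤ Tn D) := by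
    intro q
    by_cases hq : q ≠ 0 ∧ |q| ≤ aa D
    · obtain ⟨m, hm, h⟩ := hne q hq.1 hq.2
      exact ⟨m, hm, fun _ _ => h⟩
    · exact ⟨m0, hm0, fun a b => (hq ⟨a, b⟩).elim⟩
  choose mq hmq1 hmq2 using hne'
  obtain ⟨ms, hms⟩ : ∃ ms : List ℂ[X], ms = (List.range jj).map (fun i : ℕ => mq ((i : ℤ) + 1)) ++
      (List.range jj).map (fun i : ℕ => mq (-((i : ℤ) + 1))) := ⟨_, rfl⟩
  have hl1 : ∀ m ∈ ms, l1 m ≤ rh D := by
    intro m hm
    rw [hms, List.mem_append, List.mem_map, List.mem_map] at hm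
    rcases hm with ⟨i, -, rfl⟩ | ⟨i, -, rfl⟩ <;> exact hmq1 _
  have hmem : ∀ q : ℤ, q ≠ 0 → |q| ≤ jj → mq q ∈ ms := by
    intro q hq0 hq
    rw [hms, List.mem_append, List.mem_map, List.mem_map]
    rw [abs_le] at hq
    rcases lt_or_gt_of_ne hq0 with h | h
    · refine Or.inr ⟨(-q - 1).toNat, List.mem_range.2 (by omega), ?_⟩
      congr 1; omega
    · refine Or.inl ⟨(q - 1).toNat, List.mem_range.2 (by omega), ?_⟩
      congr 1; omega
  refine ⟨m0, ms, hm0, hl1, by rw [hms]; simp; ring, ?_⟩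
  intro g hg k hk
  obtain ⟨a1, a2, a3, a4, a5⟩ := h5 M D y e' hD hy
  have hc : Rel_Cl M D y := ⟨a1, a2, a3, a4, a5⟩
  have hSy := Rel_pow (Rel_u hc) k _ _ (Rel_Pr hc m0 _ _ (Rel_prodF hc ms _ _
    (Rel_aeval hc hc.V g _ _ hc.one)))
  have hval := hSy.2 0
  rw [pow_zero, one_apply_eq_self] at hval
  rw [hval]
  obtain ⟨d1, d2, d3, d4⟩ := Rel_th_le hD
  obtain ⟨r0, r1', r2, r3⟩ := Rel_r1 hD
  have G := h1 M D hD
  have he0 : 0 < eta D := pow_pos d2 9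
  have ha0 : (0 : ℝ) < aa D := by rw [Rel_aa]; linarith
  obtain ⟨Gs, hGs⟩ : ∃ Gs : ℝ,
      Gs = 2 ^ 19 * s * eta D * (aa D : ℝ) ^ 4 / ((jj : ℝ) + 1 / 2) ^ 4 := ⟨_, rfl⟩
  have hGs0 : 0 ≤ Gs := by rw [hGs]; positivity
  have hkj : eta D * kj D s jj = Gs + eta D * 2 ^ (11 * D) := by
    rw [hGs]; unfold kj; ring
  refine Rel_avg_le r0.le fun w hw => ?_
  obtain ⟨c1, c2, c3⟩ := Rel_circ hD hw
  -- the polynomial factor
  have hgt : ‖g.eval (tw D w)‖ ≤ 4 * ((D : ℝ) + 1) * ‖aeval M.V g M.one‖ := by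
    obtain ⟨-, -, s3, -, -, s6⟩ := h2 M D (kap D) G.admF
    have hp : th D ^ 11 ≤ th D := by
      rw [pow_succ]; exact mul_le_of_le_one_left d2.le (pow_le_one₀ d2.le d3)
    have hdd : dd D ≤ 80 * (D : ℝ) ^ 3 := by
      unfold dd
      have hD2 : (D : ℝ) ^ 2 ≤ (D : ℝ) ^ 3 := pow_le_pow_right₀ (by linarith) (by norm_num)
      nlinarith
    have hdd0 : 0 ≤ dd D := by unfold dd; positivity
    have ht : ‖tw D w‖ * dd D ≤ 1 / 2 := by
      calc ‖tw D w‖ * dd D ≤ (2 * th D) * (80 * (D : ℝ) ^ 3) :=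
            mul_le_mul (by linarith) hdd hdd0 (by positivity)
        _ = ((D : ℝ) ^ 3 * 2 ^ 40 * th D) * (160 / 2 ^ 40) := by ring
        _ ≤ 1 * (160 / 2 ^ 40) := by gcongr
        _ ≤ 1 / 2 := by norm_num
    have := (s3 (aeval (M.VS D (kap D)) g M.one) (tw D w) ht).2.1
    rwa [s6 g (tw D w), M.low D (kap D) G.admF g hg] at this
  -- the node factors times `yh`
  have hw' : w = r1 D * Complex.exp ((Complex.arg w : ℝ) * Complex.I) := by
    rw [← hw]; exact (Complex.norm_mul_exp_arg_mul_I w).symm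
  have hf1 : ∀ m ∈ ms, ‖Rel_fq D w m‖ ≤ 1 := fun m hm => (Rel_fac hD hw (hl1 m hm)).1
  have hP1 : ‖Rel_pr D w m0‖ ≤ 1 := (Rel_fac hD hw hm0).2
  have hQ1 := Rel_prod_le_one (Rel_fq D w) ms hf1
  have hmain : ‖Rel_pr D w m0‖ * ‖(ms.map (Rel_fq D w)).prod‖ * ‖M.yh D y w‖ ≤
      Real.exp (Lam D + 1 + Gs) := by
    by_cases hcase : ((jj : ℝ) + 1 / 2) * π / aa D ≤ |Complex.arg w|
    · have hg := hGr jj (Complex.arg w) hcase (Complex.abs_arg_le_pi w)
      rw [← hw', ← hGs] at hg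
      exact (mul_le_of_le_one_left (norm_nonneg _)
        (mul_le_one₀ hP1 (norm_nonneg _) hQ1)).trans hg
    · have hpi := Real.pi_pos
      obtain ⟨x, hx⟩ : ∃ x : ℝ, x = Complex.arg w * aa D / π := ⟨_, rfl⟩
      have hph : Complex.arg w = π * x / aa D := by rw [hx]; field_simp
      have hxl : |x| < (jj : ℝ) + 1 / 2 := by
        rw [not_le, hph, abs_div, abs_mul, abs_of_pos hpi, abs_of_pos ha0,
          div_lt_div_iff_of_pos_right ha0] at hcase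
        nlinarith
      have hr := abs_sub_round x
      have hq : |round x| ≤ (jj : ℤ) := by
        have t1 : |((round x : ℤ) : ℝ)| < (jj : ℝ) + 1 := by
          have := abs_sub_abs_le_abs_sub ((round x : ℤ) : ℝ) x
          rw [abs_sub_comm] at this
          linarith
        have t2 : |round x| < (jj : ℤ) + 1 := by exact_mod_cast t1
        omega
      have harc : |Complex.arg w - π * (round x : ℤ) / aa D| ≤ π / (2 * aa D) := by
        have e : Complex.arg w - π * (round x : ℤ) / aa D = π / aa D * (x - round x) := by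
          rw [hph]; field_simp
        rw [e, abs_mul, abs_of_pos (by positivity : 0 < π / (aa D : ℝ))]
        calc π / (aa D : ℝ) * |x - round x| ≤ π / aa D * (1 / 2) := by gcongr
          _ = π / (2 * aa D) := by field_simp
      have hT : ‖Rel_pr D w m0‖ * ‖(ms.map (Rel_fq D w)).prod‖ ≤ Tn D := by
        by_cases hq0 : round x = 0
        · rw [hq0] at harc
          have := hz (Complex.arg w) w hw' (by simpa using harc)
          exact (mul_le_of_le_one_right (norm_nonneg _) hQ1).trans this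
        · have hqa : |round x| ≤ (aa D : ℤ) := by
            have : jj ≤ aa D := by unfold aa; omega
            omega
          have t1 := hmq2 (round x) hq0 hqa (Complex.arg w) w hw' harc
          have t2 := Rel_prod_le (Rel_fq D w) ms hf1 (hmem _ hq0 hq)
          exact (mul_le_of_le_one_left (norm_nonneg _) hP1).trans (t2.trans t1)
      have hyh := (h3 M D y e' hD hy).1 w (by rw [hw]; exact r2)
      rw [hw] at hyh
      have hT0 : 0 ≤ Tn D := (Real.exp_pos _).le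
      calc _ ≤ Tn D * (Real.exp (Lam D) * max 1 ((r1 D)⁻¹ ^ (aa D * KK D))) :=
            mul_le_mul hT hyh (norm_nonneg _) hT0
        _ ≤ Real.exp (Lam D) := Rel_Tn hD
        _ ≤ _ := Real.exp_le_exp.2 (by linarith)
  have hzk : ‖(w ^ aa D) ^ k‖ = Real.exp (-(eta D * k)) := by
    rw [norm_pow, c3, ← Real.exp_nat_mul]; congr 1; ring
  have hfin := Rel_final hD
  have hn0 := norm_nonneg (aeval M.V g M.one)
  calc ‖w ^ 0 * ((w ^ aa D) ^ k * (Rel_pr D w m0 * ((ms.map (Rel_fq D w)).prod *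
          (g.eval (tw D w) * 1)))) * M.yh D y w / (1 - w)‖
      = Real.exp (-(eta D * k)) *
          (‖Rel_pr D w m0‖ * ‖(ms.map (Rel_fq D w)).prod‖ * ‖M.yh D y w‖) *
          ‖g.eval (tw D w)‖ * ‖(1 - w)⁻¹‖ := by
        rw [div_eq_mul_inv, pow_zero, one_mul, mul_one, ← hzk]
        simp only [norm_mul]; ring
    _ ≤ Real.exp (-(eta D * k)) * Real.exp (Lam D + 1 + Gs) *
          (4 * ((D : ℝ) + 1) * ‖aeval M.V g M.one‖) * (2 * aa D / eta D) := by gcongr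
    _ = Real.exp (-(eta D * k)) * Real.exp Gs *
          (Real.exp (Lam D + 1) * (4 * ((D : ℝ) + 1)) * (2 * aa D / eta D)) *
          ‖aeval M.V g M.one‖ := by rw [Real.exp_add (Lam D + 1) Gs]; ring
    _ ≤ Real.exp (-(eta D * k)) * Real.exp Gs * Real.exp (-(2 ^ D) + eta D * 2 ^ (11 * D)) *
          ‖aeval M.V g M.one‖ := by gcongr
    _ = Real.exp (-(2 ^ D)) * Real.exp (-(eta D * (k - kj D s jj))) * ‖aeval M.V g M.one‖ := by
        rw [← Real.exp_add, ← Real.exp_add, ← Real.exp_add]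
        congr 2
        rw [mul_sub, hkj]; ring

end Pool.Agent.IS
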