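import Pool.Agent.P.MP_f981b0_an.IS.Stmt

/-! The symbol and the remainder of `x'`. -/

set_option autoImplicit false

open Polynomial Finset Filter Topology
open scoped Nat Real

noncomputable section

namespace Pool.Agent.IS

theorem Rem_D {D : ℕ} (h : Big D) : (65536 : ℝ) ≤ D := by exact_mod_cast h.1

theorem Rem_x {D : ℕ} (h : Big D) : (D : ℝ) ^ 2 * 2 ^ 200 ≤ 2 ^ D := by
  have h0 := Rem_D h
  have h1 := h.num
  have h2 : (2 : ℝ) ^ (D / 2) ≤ 2 ^ D := pow_le_pow_right₀ (by norm_num) (Nat.div_le_self _ _)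
  have h3 : (D : ℝ) ^ 2 ≤ (D : ℝ) ^ 40 := pow_le_pow_right₀ (by linarith) (by norm_num)
  exact le_trans (mul_le_mul_of_nonneg_right h3 (by positivity)) (h1.trans h2)

theorem Rem_th (D : ℕ) : th D = ((2 : ℝ) ^ D)⁻¹ := by unfold th; rw [one_div, inv_pow]

theorem Rem_n1 (D : ℕ) : (n1 D : ℝ) = 64 * D * ((2 : ℝ) ^ D) ^ 20 := by
  unfold n1; push_cast; rw [← pow_mul, mul_comm D 20]

theorem Rem_KK (D : ℕ) : (KK D : ℝ) = 128 * ((2 : ℝ) ^ D) ^ 20 := by
  unfold KK; push_cast; rw [← pow_mul, mul_comm D 20]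

theorem Rem_tau (D : ℕ) : tau D = (((2 : ℝ) ^ D) ^ 20)⁻¹ := by
  unfold tau; rw [Rem_th, inv_pow]

theorem Rem_del (D : ℕ) : ‖((del D : ℂ)⁻¹)‖ = 2 ^ (7 * D) := by
  rw [norm_inv, Complex.norm_real, del, Rem_th, inv_pow, Real.norm_eq_abs, abs_inv, inv_inv,
    abs_of_pos (by positivity), ← pow_mul, mul_comm]

theorem Rem_dd {D : ℕ} (h : Big D) : 18 * dd D < ((2 : ℝ) ^ D) ^ 20 := by
  have h0 := Rem_D h
  have h1 := Rem_x h
  have h2 : (1 : ℝ) ≤ 2 ^ D := one_le_pow₀ (by norm_num)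
  have h3 : (2 : ℝ) ^ D ≤ (2 ^ D) ^ 20 := le_self_pow₀ h2 (by norm_num)
  unfold dd
  nlinarith

theorem Rem_dd_pos (D : ℕ) : 0 < dd D := by unfold dd; positivity

theorem Rem_tdd {D : ℕ} (h : Big D) {t : ℂ} (ht : ‖t‖ ≤ 9 * tau D) : ‖t‖ * dd D < 1 / 2 := by
  have h1 := Rem_dd h
  have h2 := Rem_dd_pos D
  have h3 : (0 : ℝ) < ((2 : ℝ) ^ D) ^ 20 := by positivity
  rw [Rem_tau] at ht
  refine lt_of_le_of_lt (mul_le_mul_of_nonneg_right ht h2.le) ?_
  rw [mul_assoc, mul_comm _ (dd D), ← div_eq_mul_inv, ← mul_div_assoc, div_lt_iff₀ h3]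
  linarith

theorem Rem_ball {D : ℕ} (h : Big D) {t : ℂ} (ht : ‖t‖ ≤ 9 * tau D) :
    t ∈ Metric.ball (0 : ℂ) (1 / dd D) := by
  have := Rem_tdd h ht
  rw [mem_ball_zero_iff, lt_div_iff₀ (Rem_dd_pos D)]
  linarith

theorem Rem_tp {D : ℕ} (h : Big D) {p : ℂ} (hp : ‖p‖ ≤ 16 * (aa D : ℝ) + 1) :
    ‖tp D p‖ ≤ 9 * tau D := by
  have h0 := Rem_D h
  have h3 : (0 : ℝ) < ((2 : ℝ) ^ D) ^ 20 := by positivity
  have h4 : ‖p - 1‖ ≤ ‖p‖ + 1 := by simpa using norm_sub_le p 1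
  have h5 : (aa D : ℝ) = 64 * D := by unfold aa; push_cast; ring
  rw [tp, norm_div, norm_mul, Complex.norm_natCast, Rem_n1, Rem_tau, Complex.norm_ofNat,
    div_le_iff₀ (by positivity)]
  have : 9 * (((2 : ℝ) ^ D) ^ 20)⁻¹ * (2 * (64 * D * ((2 : ℝ) ^ D) ^ 20)) = 18 * (64 * D) := by
    field_simp; ring
  rw [this]; linarith

theorem Rem_wp {p : ℂ} (hp : 0 ≤ p.re) : ‖wp p‖ ≤ 1 := by
  rw [wp, norm_div]
  refine div_le_one_of_le₀ ?_ (norm_nonneg _)
  refine (sq_le_sq₀ (norm_nonneg _) (norm_nonneg _)).1 ?_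
  rw [Complex.sq_norm, Complex.sq_norm, Complex.normSq_apply, Complex.normSq_apply]
  simp only [Complex.sub_re, Complex.one_re, Complex.sub_im, Complex.one_im, Complex.add_re,
    Complex.add_im]
  nlinarith

theorem Rem_small {D : ℕ} (h : Big D) {t : ℂ} (ht : t ∈ Metric.ball (0 : ℂ) (1 / (2 * (n1 D : ℝ)))) :
    ‖t‖ ≤ 9 * tau D ∧ t + 1 / (n1 D : ℂ) ≠ 0 := by
  have h0 := Rem_D h
  have h3 : (0 : ℝ) < ((2 : ℝ) ^ D) ^ 20 := by positivity
  rw [mem_ball_zero_iff] at ht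
  have hn : (0 : ℝ) < n1 D := by rw [Rem_n1]; positivity
  refine ⟨ht.le.trans ?_, fun e => ?_⟩
  · rw [Rem_n1, Rem_tau, div_le_iff₀ (by positivity)]
    have : 9 * (((2 : ℝ) ^ D) ^ 20)⁻¹ * (2 * (64 * D * ((2 : ℝ) ^ D) ^ 20)) = 18 * (64 * D) := by
      field_simp; ring
    rw [this]; linarith
  · rw [eq_neg_of_add_eq_zero_left e, norm_neg, norm_div, norm_one, Complex.norm_natCast,
      div_lt_div_iff₀ hn (by positivity)] at ht
    linarith

theorem Rem_F {D : ℕ} (h : Big D) :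
    ((KK D + 2 : ℕ) : ℝ) * (4 * ((D : ℝ) + 1) * 2 ^ (7 * D + 2)) ≤ MF D := by
  have h0 := Rem_D h
  have h1 := Rem_x h
  have e1 : (2 : ℝ) ^ (7 * D + 2) = 4 * (2 ^ D) ^ 7 := by rw [pow_add, mul_comm 7 D, pow_mul]; ring
  have e2 : MF D = ((2 : ℝ) ^ D) ^ 30 := by rw [MF, mul_comm, pow_mul]
  push_cast
  rw [Rem_KK, e1, e2]
  have h2 : (1 : ℝ) ≤ 2 ^ D := one_le_pow₀ (by norm_num)
  generalize (2 : ℝ) ^ D = x at *
  have h3 : 1 ≤ x ^ 20 := one_le_pow₀ h2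
  have h4 : x ≤ x ^ 3 := le_self_pow₀ h2 (by norm_num)
  have h5 : 130 * 16 * ((D : ℝ) + 1) ≤ x ^ 3 := by nlinarith
  calc (128 * x ^ 20 + 2) * (4 * ((D : ℝ) + 1) * (4 * x ^ 7))
      ≤ (130 * x ^ 20) * (4 * ((D : ℝ) + 1) * (4 * x ^ 7)) :=
        mul_le_mul_of_nonneg_right (by linarith) (by positivity)
    _ = 130 * 16 * ((D : ℝ) + 1) * x ^ 27 := by ring
    _ ≤ x ^ 3 * x ^ 27 := mul_le_mul_of_nonneg_right h5 (by positivity)
    _ = x ^ 30 := by ring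

theorem Rem_P {D : ℕ} (h : Big D) :
    ((KK D + 2 : ℕ) : ℝ) * ((2 * ((aa D * (KK D + 2) : ℕ) : ℝ) + 1) * 2 ^ (7 * D + 2)) ≤
      Real.exp (100 * D) / 2 := by
  have h0 := Rem_D h
  have h1 := Rem_x h
  have e1 : (2 : ℝ) ^ (7 * D + 2) = 4 * (2 ^ D) ^ 7 := by rw [pow_add, mul_comm 7 D, pow_mul]; ring
  have h5 : (aa D : ℝ) = 64 * D := by unfold aa; push_cast; ring
  have e2 : ((2 : ℝ) ^ D) ^ 100 ≤ Real.exp (100 * D) := by
    have : Real.exp (100 * D) = (Real.exp 1 ^ D) ^ 100 := by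
      rw [← pow_mul, ← Real.exp_nat_mul]; push_cast; ring_nf
    rw [this]
    have h6 : (2 : ℝ) ≤ Real.exp 1 := by have := Real.add_one_le_exp 1; linarith
    gcongr
  push_cast
  rw [Rem_KK, e1, h5, le_div_iff₀ (by norm_num)]
  refine le_trans ?_ e2
  have h2 : (1 : ℝ) ≤ 2 ^ D := one_le_pow₀ (by norm_num)
  generalize (2 : ℝ) ^ D = x at *
  have h3 : 1 ≤ x ^ 20 := one_le_pow₀ h2
  have h4 : x ≤ x ^ 53 := le_self_pow₀ h2 (by norm_num)
  have h6 : 130 * 8 * (129 * 130) * (D : ℝ) ≤ x ^ 53 := by nlinarith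
  have h7 : 2 * (64 * (D : ℝ) * (128 * x ^ 20 + 2)) + 1 ≤ 129 * 130 * D * x ^ 20 := by
    have : 1 ≤ (D : ℝ) * x ^ 20 := one_le_mul_of_one_le_of_one_le (by linarith) h3
    have : (D : ℝ) ≤ D * x ^ 20 := le_mul_of_one_le_right (by linarith) h3
    nlinarith
  calc (128 * x ^ 20 + 2) * ((2 * (64 * (D : ℝ) * (128 * x ^ 20 + 2)) + 1) * (4 * x ^ 7)) * 2
      ≤ (130 * x ^ 20) * ((129 * 130 * D * x ^ 20) * (4 * x ^ 7)) * 2 := by gcongr; linarith
    _ = 130 * 8 * (129 * 130) * (D : ℝ) * x ^ 47 := by ring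
    _ ≤ x ^ 53 * x ^ 47 := mul_le_mul_of_nonneg_right h6 (by positivity)
    _ = x ^ 100 := by ring

theorem Rem_abel (M : Model) (D : ℕ) (X : E) (c : ℕ → E) (n : ℕ) :
    ∑ m ∈ range (n + 1), (M.u D ^ m) (M.j D (Xm D X c m)) =
      M.j D X + ∑ k ∈ range n, ((del D : ℂ)⁻¹) • M.su D k (M.j D (c k)) +
        ((del D : ℂ)⁻¹) • (M.u D ^ n) (M.j D (c n)) := by
  induction n with
  | zero => simp [Xm]
  | succ n ih =>
    rw [sum_range_succ, ih, sum_range_succ, Xm, if_neg (by omega), Nat.add_sub_cancel, Model.su,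
      sub_mul, one_mul, ← pow_succ']
    simp only [map_smul, map_sub, smul_sub, sub_apply]
    abel

theorem Rem_c {M : Model} {D : ℕ} {X : E} {c : ℕ → E} {e x0 : ℝ} (hX : M.XH D X c e x0) (k : ℕ) :
    ‖c k‖ ≤ 1 := by
  rcases lt_or_ge (KK D) k with hk | hk
  · rw [hX.zero k hk]; simp
  · have h1 : ‖c k‖ ^ 2 ≤ ∑ k ∈ range (KK D + 1), ‖c k‖ ^ 2 :=
      single_le_sum (f := fun k => ‖c k‖ ^ 2) (fun _ _ => sq_nonneg _) (mem_range.2 (by omega))
    have h2 := hX.sq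
    have h3 := hX.e0
    have h4 := hX.e1
    nlinarith [norm_nonneg (c k)]

theorem Rem_Xm {M : Model} {D : ℕ} {X : E} {c : ℕ → E} {e x0 : ℝ} (h : Big D)
    (hX : M.XH D X c e x0) (m : ℕ) : ‖Xm D X c m‖ ≤ 2 ^ (7 * D + 2) := by
  have hp : (0 : ℝ) < 2 ^ (7 * D) := by positivity
  rw [pow_add, Xm]
  split_ifs
  · refine (norm_add_le _ _).trans ?_
    rw [norm_smul, Rem_del]
    have h0 := Rem_D h
    have h1 := Rem_x h
    have h2 : (2 : ℝ) ^ D ≤ 2 ^ (7 * D) := pow_le_pow_right₀ (by norm_num) (by omega)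
    have h3 := mul_le_mul_of_nonneg_left (Rem_c hX 0) hp.le
    have h4 := hX.nX
    nlinarith
  · rw [norm_smul, Rem_del]
    have h1 := norm_sub_le (c m) (c (m - 1))
    have h2 := Rem_c hX m
    have h3 := Rem_c hX (m - 1)
    exact mul_le_mul_of_nonneg_left (by linarith) hp.le

theorem p_Rem (h1 : S_G1) (h2 : S_Symb) (h3 : S_RemW) : S_Rem := by
  intro M D X c e x0 hB hX
  have G := h1 M D hB
  obtain ⟨-, -, s3, s4, -⟩ := h2 M D (kap D) G.admF
  have hm := Rem_Xm hB hX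
  have hF : ∀ t w : ℂ, ‖t‖ ≤ 9 * tau D → ‖w‖ ≤ 1 → ‖M.Ft D X c t w‖ ≤ MF D := by
    intro t w ht hw
    refine le_trans ?_ (Rem_F hB)
    refine (norm_sum_le _ _).trans ((sum_le_card_nsmul _ _ _ fun m _ => ?_).trans
      (by rw [card_range, nsmul_eq_mul]))
    rw [norm_mul, norm_pow]
    have a1 : ‖w‖ ^ (aa D * m) ≤ 1 := pow_le_one₀ (norm_nonneg _) hw
    have a2 := (s3 (Xm D X c m) t (Rem_tdd hB ht).le).2.1
    refine (mul_le_of_le_one_left (norm_nonneg _) a1).trans (a2.trans ?_)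
    exact mul_le_mul_of_nonneg_left (hm m) (by positivity)
  have hN : ∀ m ∈ range (KK D + 2), (2 * ((aa D * m : ℕ) : ℝ) + 1) * ‖Xm D X c m‖ ≤
      (2 * ((aa D * (KK D + 2) : ℕ) : ℝ) + 1) * 2 ^ (7 * D + 2) := by
    intro m hmm
    have : ((aa D * m : ℕ) : ℝ) ≤ ((aa D * (KK D + 2) : ℕ) : ℝ) := by
      exact_mod_cast Nat.mul_le_mul_left _ (mem_range.1 hmm).le
    exact mul_le_mul (by linarith) (hm m) (norm_nonneg _) (by positivity)
  refine ⟨hm, hF, fun p hp hp' => hF _ _ (Rem_tp hB (by linarith)) (Rem_wp hp), ?_, ?_, ?_, ?_, ?_⟩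
  · unfold Model.Ff Model.Ft
    refine DifferentiableOn.fun_sum fun m _ => DifferentiableOn.mul ?_ ?_
    · refine DifferentiableOn.pow ?_ _
      unfold wp
      refine DifferentiableOn.div (by fun_prop) (by fun_prop) fun p hp e => ?_
      have := congrArg Complex.re e
      have := hp.1
      simp at *
      linarith
    · refine (s4 (Xm D X c m)).1.comp (f := tp D) ?_ fun p hp => Rem_ball hB (Rem_tp hB hp.2.le)
      unfold tp
      fun_prop
  · intro t w t0 ht hn hw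
    have a1 := Rem_abel M D X c (KK D + 1)
    rw [hX.zero (KK D + 1) (by omega)] at a1
    simp only [map_zero, smul_zero, add_zero] at a1
    rw [Model.xp, Model.lev, ← a1, Model.Ft, Model.rem, sum_smul, map_sum, smul_sum,
      ← sum_sub_distrib, ← sum_sub_distrib]
    refine sum_congr rfl fun m _ => ?_
    rw [← (h3 M D (aa D * m) (Xm D X c m) hB).1 t w t0 ht hn hw, Model.u, ← pow_mul]
  · intro t w ht hw
    have P := Rem_P hB
    refine ⟨?_, fun y hy i => ?_⟩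
    · refine (norm_sum_le _ _).trans ((sum_le_card_nsmul _ _ _ fun m hmm =>
        (((h3 M D (aa D * m) (Xm D X c m) hB).2.1 t w ht hw).1.trans (hN m hmm))).trans ?_)
      rw [card_range, nsmul_eq_mul]
      refine P.trans ((half_le_self (Real.exp_pos _).le).trans (Real.exp_le_exp.2 ?_))
      have := Rem_D hB
      unfold Lam
      nlinarith
    · rw [Model.rem, map_sum, map_sum]
      refine (norm_sum_le _ _).trans ((sum_le_card_nsmul _ _
        ((2 * ((aa D * (KK D + 2) : ℕ) : ℝ) + 1) * 2 ^ (7 * D + 2) *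
          Real.exp (Lam D - 100 * D)) fun m hmm =>
        (((h3 M D (aa D * m) (Xm D X c m) hB).2.1 t w ht hw).2 y hy i).trans ?_).trans ?_)
      · rw [mul_right_comm]
        exact mul_le_mul_of_nonneg_right (hN m hmm) (Real.exp_pos _).le
      · rw [card_range, nsmul_eq_mul, ← mul_assoc]
        refine (mul_le_mul_of_nonneg_right P (Real.exp_pos _).le).trans (le_of_eq ?_)
        rw [div_mul_eq_mul_div, ← Real.exp_add]
        congr 2
        ring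
  · unfold Model.rem
    exact continuousOn_finsetSum _ fun m _ =>
      (h3 M D (aa D * m) (Xm D X c m) hB).2.2.1.continuousOn
  · unfold Model.Ft
    refine continuousOn_finsetSum _ fun m _ => ContinuousOn.mul (ContinuousOn.pow ?_ _) ?_
    · unfold wt
      exact ContinuousOn.div (by fun_prop) (by fun_prop) fun t ht => (Rem_small hB ht).2
    · exact (s4 (Xm D X c m)).1.continuousOn.mono fun t ht => Rem_ball hB (Rem_small hB ht).1

end Pool.Agent.IS
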