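import Pool.Agent.P.MP_f981b0_an.IS.PRem

/-! Package RemW of the project IS: the remainder identity for `W ^ N g`. -/

set_option autoImplicit false

open Polynomial Finset Filter Topology
open scoped Nat Real

noncomputable section

namespace Pool.Agent.IS

theorem RemW_succ (M : Model) (D N : ℕ) (g : E) (t w : ℂ) :
    M.remW D (N + 1) g t w = w • M.remW D N g t w +
      w • (M.W D ^ N) (M.j D g - M.W D (M.j D g)) := by
  unfold Model.remW
  rw [sum_range_succ, smul_add, smul_sum, smul_smul, ← pow_succ', Nat.add_sub_cancel_left, pow_one,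
    add_assoc]
  congr 2
  refine sum_congr rfl fun i hi => ?_
  rw [smul_smul, ← pow_succ', Nat.succ_sub (mem_range.1 hi).le]

theorem RemW_step (M : Model) (D : ℕ) (hG : M.G1 D) (hn : (n1 D : ℂ) ≠ 0) (t w : ℂ) (ht : t ≠ 0)
    (hd : t + 1 / (n1 D : ℂ) ≠ 0) (hw : w = wt D t) (v : E) :
    M.W D v = w • v - (w • (v - M.W D v) - t⁻¹ • M.VG D (w • (v - M.W D v))) := by
  have h1 : M.VG D (v - M.W D v) = ((n1 D : ℂ)⁻¹) • M.W D v := by
    have a := DFunLike.congr_fun hG.W_eq v
    have b := DFunLike.congr_fun hG.W_comm.eq v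
    simp only [ContinuousLinearMap.mul_apply, ContinuousLinearMap.sub_apply,
      ContinuousLinearMap.one_apply, ContinuousLinearMap.smul_apply] at a b
    rw [map_sub, ← b, a]
  rw [map_smul, h1, smul_smul, smul_smul, smul_sub]
  have h2 : w + t⁻¹ * w * (n1 D : ℂ)⁻¹ = 1 := by
    rw [hw, wt]
    have : t * (n1 D : ℂ) + 1 ≠ 0 := by
      intro h0
      apply hd
      field_simp
      simpa using h0
    field_simp
  calc M.W D v = (w + t⁻¹ * w * (n1 D : ℂ)⁻¹) • M.W D v := by rw [h2, one_smul]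
    _ = _ := by rw [add_smul]; abel

theorem RemW_jV (M : Model) (D : ℕ) (hG : M.G1 D) (i : ℕ) (v : E) :
    (M.VG D ^ i) (M.j D v) = M.j D ((M.VF D ^ i) v) := by
  induction i with
  | zero => simp
  | succ i ih =>
    rw [pow_succ', pow_succ', ContinuousLinearMap.mul_apply, ContinuousLinearMap.mul_apply, ih]
    exact (M.inc_V _ _ _ _ hG.admF hG.admG hG.le_DG hG.kG_le _).symm

theorem RemW_pow_le {A : E →L[ℂ] E} (h : ‖A‖ ≤ 1) (i : ℕ) (v : E) : ‖(A ^ i) v‖ ≤ ‖v‖ := by
  induction i with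
  | zero => simp
  | succ i ih =>
    rw [pow_succ', ContinuousLinearMap.mul_apply]
    refine (A.le_opNorm _).trans ?_
    exact (mul_le_mul h ih (norm_nonneg _) zero_le_one).trans (one_mul _).le

theorem RemW_ps (A : E →L[ℂ] E) (m : ℕ) (v : E) : (A ^ m) (A v) = (A ^ (m + 1)) v := by
  rw [pow_succ]; rfl

theorem RemW_ps' (A : E →L[ℂ] E) (m : ℕ) (v : E) : A ((A ^ m) v) = (A ^ (m + 1)) v := by
  rw [pow_succ']; rfl

theorem p_RemW (h1 : S_G1) (h2 : S_Symb) : S_RemW := by
  intro M D N g hD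
  have hG := h1 M D hD
  obtain ⟨-, -, hS3, hS4, -⟩ := h2 M D (kap D) hG.admF
  have hn : (n1 D : ℂ) ≠ 0 := by
    have h0 := Rem_D hD
    have : (0 : ℝ) < n1 D := by rw [Rem_n1]; positivity
    exact_mod_cast (Nat.cast_pos.1 this).ne'
  have hj : ∀ v, ‖M.j D v‖ ≤ ‖v‖ := fun v =>
    ((M.j D).le_opNorm v).trans ((mul_le_mul_of_nonneg_right
      (M.inc_norm _ _ _ _ hG.admF hG.admG hG.le_DG hG.kG_le) (norm_nonneg _)).trans (one_mul _).le)
  have hsm : ∀ (w : ℂ) (m : ℕ) (v : E), ‖w‖ ≤ 1 → ‖w ^ m • v‖ ≤ ‖v‖ := by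
    intro w m v hw
    rw [norm_smul, norm_pow]
    exact mul_le_of_le_one_left (norm_nonneg _) (pow_le_one₀ (norm_nonneg _) hw)
  refine ⟨fun t w ht ht9 hd hw => ?_, fun t w ht9 hw => ⟨?_, fun y hy i => ?_⟩, ?_, ?_⟩
  · induction N with
    | zero =>
      have a := (hS3 g t (Rem_tdd hD ht9).le).2.2.2 ht
      have b : M.j D M.one = M.one := M.inc_one _ _ _ _ hG.admF hG.admG hG.le_DG hG.kG_le
      have c := RemW_jV M D hG 1 (rho (M.dF D) g t)
      rw [pow_one, pow_one] at c
      simp only [Model.remW, pow_zero, range_zero, sum_empty, add_zero, one_smul, one_mul,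
        ContinuousLinearMap.one_apply]
      rw [c, ← b, ← map_smul, ← map_smul, ← map_sub, ← map_sub]
      exact congrArg _ a
    | succ N ih =>
      have c : (M.W D ^ N) (M.j D g - M.W D (M.j D g)) =
          (M.W D ^ N) (M.j D g) - M.W D ((M.W D ^ N) (M.j D g)) := by
        rw [map_sub, RemW_ps, RemW_ps']
      have d := RemW_step M D hG hn t w ht hd hw ((M.W D ^ N) (M.j D g))
      rw [RemW_succ, c, pow_succ' (M.W D), ContinuousLinearMap.mul_apply]
      refine d.trans ?_
      generalize w • ((M.W D ^ N) (M.j D g) - M.W D ((M.W D ^ N) (M.j D g))) = u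
      rw [ih, map_add, map_smul, pow_succ' w, mul_assoc, ← smul_smul w]
      simp only [smul_sub, smul_add, smul_comm w t⁻¹]
      abel
  · have a := (hS3 g t (Rem_tdd hD ht9).le).2.2.1
    unfold Model.remW
    refine (norm_add_le _ _).trans ?_
    have b : ‖∑ i ∈ range N, w ^ (N - i) • (M.W D ^ i) (M.j D g - M.W D (M.j D g))‖ ≤
        N * (2 * ‖g‖) := by
      refine (norm_sum_le _ _).trans ?_
      refine (sum_le_card_nsmul _ _ (2 * ‖g‖) fun i _ => ?_).trans (by simp)
      refine (hsm _ _ _ hw).trans ((RemW_pow_le hG.W_norm _ _).trans ((norm_sub_le _ _).trans ?_))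
      have c := RemW_pow_le hG.W_norm 1 (M.j D g)
      rw [pow_one] at c
      linarith [hj g]
    have c : ‖w ^ N • M.j D (rho (M.dF D) g t)‖ ≤ ‖g‖ := (hsm _ _ _ hw).trans ((hj _).trans a)
    linarith
  · have a := (hS3 g t (Rem_tdd hD ht9).le).2.2.1
    set X := Real.exp (Lam D - 100 * D) with hX
    have hX0 : 0 ≤ X := (Real.exp_pos _).le
    have key : ∀ (m : ℕ) (v : E), ‖v‖ ≤ ‖g‖ →
        ‖y ((M.VG D ^ i) ((M.W D ^ m) (M.j D v)))‖ ≤ X * ‖g‖ := by
      intro m v hv
      have e : (M.VG D ^ i) ((M.W D ^ m) (M.j D v)) = (M.W D ^ m) (M.j D ((M.VF D ^ i) v)) := by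
        rw [← RemW_jV M D hG]
        exact (DFunLike.congr_fun (hG.W_comm.pow_pow m i).eq _).symm
      rw [e]
      refine ((y ∘L (M.W D ^ m) ∘L M.j D).le_opNorm _).trans ?_
      exact mul_le_mul (hy.W m) ((RemW_pow_le hG.VF_norm _ _).trans hv) (norm_nonneg _) hX0
    have hsc : ∀ (m : ℕ) (z : ℂ), ‖w ^ m • z‖ ≤ ‖z‖ := by
      intro m z
      rw [norm_smul, norm_pow]
      exact mul_le_of_le_one_left (norm_nonneg _) (pow_le_one₀ (norm_nonneg _) hw)
    unfold Model.remW
    rw [map_add, map_add, map_sum, map_sum]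
    refine (norm_add_le _ _).trans ?_
    have b : ‖∑ m ∈ range N, y ((M.VG D ^ i)
        (w ^ (N - m) • (M.W D ^ m) (M.j D g - M.W D (M.j D g))))‖ ≤ N * (2 * (X * ‖g‖)) := by
      refine (norm_sum_le _ _).trans ?_
      refine (sum_le_card_nsmul _ _ (2 * (X * ‖g‖)) fun m _ => ?_).trans (by simp)
      rw [map_smul, map_smul, map_sub, map_sub, map_sub, RemW_ps]
      refine (hsc _ _).trans ((norm_sub_le _ _).trans ?_)
      linarith [key m g le_rfl, key (m + 1) g le_rfl]
    have c : ‖y ((M.VG D ^ i) (w ^ N • M.j D (rho (M.dF D) g t)))‖ ≤ X * ‖g‖ := by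
      rw [map_smul, map_smul]
      refine (hsc _ _).trans ?_
      have := key 0 _ a
      rw [pow_zero, ContinuousLinearMap.one_apply] at this
      exact this
    linarith
  · have hw : DifferentiableOn ℂ (wt D) (Metric.ball 0 (1 / (2 * (n1 D : ℝ)))) := by
      unfold wt
      exact differentiableOn_id.div (differentiableOn_id.add_const _)
        fun t ht => (Rem_small hD ht).2
    have hr : DifferentiableOn ℂ (rho (M.dF D) g) (Metric.ball 0 (1 / (2 * (n1 D : ℝ)))) :=
      (hS4 g).2.1.mono fun t ht => Rem_ball hD (Rem_small hD ht).1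
    unfold Model.remW
    refine ((hw.pow N).smul ((M.j D).differentiable.comp_differentiableOn hr)).add ?_
    exact DifferentiableOn.fun_sum fun i _ => (hw.pow _).smul_const _
  · have a : rho (M.dF D) g 0 = 0 := (hS4 g).2.2
    have b : wt D 0 = 0 := by simp [wt]
    unfold Model.remW
    rw [a, b, map_zero, smul_zero, zero_add]
    refine sum_eq_zero fun i hi => ?_
    rw [zero_pow (Nat.sub_ne_zero_of_lt (mem_range.1 hi)), zero_smul]

end Pool.Agent.IS
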