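import Pool.Agent.P.MP_f981b0_an.IS.Glob

/-!
Package Star: the telescoping sum over the levels.
-/

set_option autoImplicit false

open Polynomial Finset Filter Topology
open scoped Nat Real

noncomputable section

namespace Pool.Agent.IS

theorem Star_pow {B B' : Type} [NormedAddCommGroup B] [NormedSpace ℂ B]
    [NormedAddCommGroup B'] [NormedSpace ℂ B'] (A : B →L[ℂ] B) (A' : B' →L[ℂ] B')
    (S : B →L[ℂ] B') (h : ∀ v, S (A v) = A' (S v)) (l : ℕ) (v : B) :
    S ((A ^ l) v) = (A' ^ l) (S v) := by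
  induction l with
  | zero => simp
  | succ l ih =>
    rw [pow_succ', pow_succ', ContinuousLinearMap.mul_apply, ContinuousLinearMap.mul_apply, h, ih]

theorem Star_aeval {B B' : Type} [NormedAddCommGroup B] [NormedSpace ℂ B]
    [NormedAddCommGroup B'] [NormedSpace ℂ B'] (A : B →L[ℂ] B) (A' : B' →L[ℂ] B')
    (S : B →L[ℂ] B') (h : ∀ v, S (A v) = A' (S v)) (p : ℂ[X]) (v : B) :
    S (aeval A p v) = aeval A' p (S v) := by
  rw [aeval_eq_sum_range, aeval_eq_sum_range, ContinuousLinearMap.sum_apply,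
    ContinuousLinearMap.sum_apply, map_sum]
  refine Finset.sum_congr rfl fun l _ => ?_
  rw [ContinuousLinearMap.smul_apply, ContinuousLinearMap.smul_apply, map_smul,
    Star_pow A A' S h]

theorem Star_zero (A : KS →L[ℂ] KS) (x et : KS) (h : ∀ l : ℕ, inner ℂ et ((A ^ l) x) = 0)
    (p : ℂ[X]) : inner ℂ et (aeval A p x) = 0 := by
  rw [aeval_eq_sum_range, ContinuousLinearMap.sum_apply, inner_sum]
  refine Finset.sum_eq_zero fun l _ => ?_
  rw [ContinuousLinearMap.smul_apply, inner_smul_right, h, mul_zero]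

theorem Star_geo (N k : ℕ) :
    ∑ i ∈ range k, ((1 : ℝ) / 2) ^ (N + i) ≤ 2 * (1 / 2) ^ N := by
  have h : ∀ k : ℕ, ∑ i ∈ range k, ((1 : ℝ) / 2) ^ (N + i) + 2 * (1 / 2) ^ (N + k) =
      2 * (1 / 2) ^ N := by
    intro k
    induction k with
    | zero => simp
    | succ k ih =>
      rw [sum_range_succ, ← ih, ← add_assoc N k 1, pow_succ]
      ring
  have h1 := h k
  have h2 : (0 : ℝ) ≤ 2 * (1 / 2) ^ (N + k) := by positivity
  linarith

theorem Star_img (N k : ℕ) (f : ℕ → ℝ) :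
    ∑ i ∈ range k, f (N + i + 1) = ∑ n ∈ (range k).image (fun i => N + i + 1), f n := by
  rw [sum_image]
  intro a _ b _ hab
  simp only at hab
  omega

theorem p_Star (_hG1 : S_G1) (hDg : S_Dg) (hGood : S_Good) (_hVK : S_VK) (hTh : S_Th)
    (hYn : S_Yn) (hTel : S_Tel) : S_Star := by
  intro M Ds x et hG hP he hx hx0 hz
  obtain ⟨N0', hN0⟩ := hTel M Ds x et hG hP he hx hx0 hz
  refine ⟨N0', fun N hN b hb => ?_⟩
  obtain ⟨-, -, hD3, hD4, hD5, -⟩ := hDg
  obtain ⟨-, -, hG3, -, hG5, -, hG7⟩ := hGood M Ds hG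
  obtain ⟨-, -, hT3, -, hT5, -, -, hT8, -, -⟩ := hTh M Ds hG
  obtain ⟨hY1, -⟩ := hYn M Ds et hG hP he
  set T : ℕ → ℂ := fun n =>
    yn (Ds n) n et (aeval (M.VG (Ds n)) (X ^ 5 * b) (M.head Ds n x)) with hT
  set x0 : ℝ := ‖M.Th Ds x‖ / 2 with hx0'
  have hx0p : 0 < x0 := by
    have := norm_pos_iff.mpr hx0
    rw [hx0']; linarith
  set Bn : ℝ := ‖aeval M.V b (M.JG (Ds N) (M.head Ds N x))‖ with hBn
  have hBn0 : 0 ≤ Bn := norm_nonneg _
  have hbV : ‖aeval M.V b‖ ≤ 2 * Real.exp (ZZ (Ds N)) :=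
    ((hG5 N (N + 1) (Nat.lt_succ_self N)).2 b hb).1
  -- the norm of `b X_n` in `Y`
  have hB : ∀ k : ℕ, ‖aeval M.V b (M.JG (Ds (N + k)) (M.head Ds (N + k) x))‖ ≤ Bn + 1 := by
    intro k
    have h1 : M.JG (Ds (N + k)) (M.head Ds (N + k) x) = M.JG (Ds N) (M.head Ds N x) +
        ∑ i ∈ range k, M.JG (Ds (N + i + 1)) (M.lift Ds (N + i + 1) x) := by
      rw [hT5, hT5, show N + k + 1 = (N + 1) + k by ring, sum_range_add]
      congr 1
      refine Finset.sum_congr rfl fun i _ => ?_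
      rw [show N + 1 + i = N + i + 1 by ring]
    have h2 : ‖∑ i ∈ range k, M.JG (Ds (N + i + 1)) (M.lift Ds (N + i + 1) x)‖ ≤
        ∑ i ∈ range k, th (Ds (N + i + 1)) ^ 2 := by
      refine (norm_sum_le _ _).trans (Finset.sum_le_sum fun i _ => ?_)
      refine (hT3 _ x).trans ?_
      exact mul_le_of_le_one_right (by positivity) hx
    have h3 := hG7 N ((range k).image (fun i => N + i + 1)) (by
      intro n hn
      obtain ⟨i, -, rfl⟩ := mem_image.mp hn
      omega)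
    rw [← Star_img N k (fun n => th (Ds n) ^ 2)] at h3
    rw [h1, map_add]
    refine (norm_add_le _ _).trans ?_
    have h4 : ‖aeval M.V b (∑ i ∈ range k, M.JG (Ds (N + i + 1)) (M.lift Ds (N + i + 1) x))‖ ≤
        2 * Real.exp (ZZ (Ds N)) * ∑ i ∈ range k, th (Ds (N + i + 1)) ^ 2 :=
      ((aeval M.V b).le_opNorm _).trans
        (mul_le_mul hbV h2 (norm_nonneg _) (by positivity))
    linarith
  have heps : ∀ (D n : ℕ) (z : KS), 0 ≤ eps D n z := fun D n z => Real.sqrt_nonneg _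
  -- partial telescoping
  have hS : ∀ k : ℕ, ‖T N - T (N + k)‖ ≤
      2 ^ 40 / x0 * (Bn + 1) *
        ∑ i ∈ range k, eps (Ds (N + i + 1)) (N + i + 1) x * eps (Ds (N + i + 1)) (N + i + 1) et +
        ∑ i ∈ range k, ((1 : ℝ) / 2) ^ (N + i) := by
    intro k
    induction k with
    | zero => simp
    | succ k ih =>
      have h1 := hN0 N (N + k) hN (Nat.le_add_right _ _) b hb
      have h2 : th (Ds (N + k)) ≤ ((1 : ℝ) / 2) ^ (N + k) :=
        pow_le_pow_of_le_one (by norm_num) (by norm_num) (hG3 _)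
      have h3 : 2 ^ 40 * (eps (Ds (N + k + 1)) (N + k + 1) x *
          eps (Ds (N + k + 1)) (N + k + 1) et / x0) *
          ‖aeval M.V b (M.JG (Ds (N + k)) (M.head Ds (N + k) x))‖ ≤
          2 ^ 40 * (eps (Ds (N + k + 1)) (N + k + 1) x *
          eps (Ds (N + k + 1)) (N + k + 1) et / x0) * (Bn + 1) := by
        refine mul_le_mul_of_nonneg_left (hB k) ?_
        have := heps (Ds (N + k + 1)) (N + k + 1) x
        have := heps (Ds (N + k + 1)) (N + k + 1) et
        positivity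
      have h4 : ‖T (N + k + 1) - T (N + k)‖ ≤ 2 ^ 40 * (eps (Ds (N + k + 1)) (N + k + 1) x *
          eps (Ds (N + k + 1)) (N + k + 1) et / x0) * (Bn + 1) + ((1 : ℝ) / 2) ^ (N + k) := by
        refine h1.trans ?_
        linarith
      have h5 : T N - T (N + (k + 1)) = (T N - T (N + k)) - (T (N + k + 1) - T (N + k)) := by
        rw [← add_assoc]; ring
      rw [h5, sum_range_succ, sum_range_succ]
      refine (norm_sub_le _ _).trans ?_
      have h6 : 2 ^ 40 * (eps (Ds (N + k + 1)) (N + k + 1) x *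
          eps (Ds (N + k + 1)) (N + k + 1) et / x0) * (Bn + 1) = 2 ^ 40 / x0 * (Bn + 1) *
          (eps (Ds (N + k + 1)) (N + k + 1) x * eps (Ds (N + k + 1)) (N + k + 1) et) := by
        ring
      rw [mul_add]
      linarith
  have hS' : ∀ k : ℕ, ‖T N - T (N + k)‖ ≤
      2 ^ 40 * (‖tailP N x‖ / x0) * (Bn + 1) + 2 * (1 / 2) ^ N := by
    intro k
    refine (hS k).trans ?_
    have h1 := hD5 Ds N x et ((range k).image (fun i => N + i + 1)) (by
      intro n hn
      obtain ⟨i, -, rfl⟩ := mem_image.mp hn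
      omega)
    rw [← Star_img N k (fun n => eps (Ds n) n x * eps (Ds n) n et)] at h1
    have h2 : ‖tailP N x‖ * ‖tailP N et‖ ≤ ‖tailP N x‖ :=
      mul_le_of_le_one_right (norm_nonneg _) ((hD3 N et).trans he)
    have h3 : 2 ^ 40 / x0 * (Bn + 1) *
        ∑ i ∈ range k, eps (Ds (N + i + 1)) (N + i + 1) x * eps (Ds (N + i + 1)) (N + i + 1) et ≤
        2 ^ 40 / x0 * (Bn + 1) * ‖tailP N x‖ :=
      mul_le_mul_of_nonneg_left (h1.trans h2) (by positivity)
    have h4 := Star_geo N k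
    have h5 : 2 ^ 40 / x0 * (Bn + 1) * ‖tailP N x‖ = 2 ^ 40 * (‖tailP N x‖ / x0) * (Bn + 1) := by
      ring
    linarith
  -- the terms tend to zero
  have hT0 : ∀ n, ‖T n‖ ≤ ‖tailP n (aeval (M.VK Ds) (X ^ 5 * b) x)‖ := by
    intro n
    have h1 : T n = -inner ℂ et (tailP n (aeval (M.VK Ds) (X ^ 5 * b) x)) := by
      simp only [hT]
      rw [← Star_aeval (M.VK Ds) (M.VG (Ds n)) (M.head Ds n) (hT8 n), hY1, inner_sub_right,
        Star_zero (M.VK Ds) x et hz, zero_sub]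
    rw [h1, norm_neg]
    exact (norm_inner_le_norm _ _).trans (mul_le_of_le_one_left (norm_nonneg _) he)
  have hlim : Tendsto (fun k : ℕ => ‖tailP (N + k) (aeval (M.VK Ds) (X ^ 5 * b) x)‖) atTop (𝓝 0) :=
    (hD4 _).comp (by simpa [add_comm] using tendsto_add_atTop_nat N)
  have hfin : ∀ k : ℕ, ‖T N‖ - (2 ^ 40 * (‖tailP N x‖ / x0) * (Bn + 1) + 2 * (1 / 2) ^ N) ≤
      ‖tailP (N + k) (aeval (M.VK Ds) (X ^ 5 * b) x)‖ := by
    intro k
    have h1 := hS' k
    have h2 := hT0 (N + k)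
    have h3 : ‖T N‖ ≤ ‖T N - T (N + k)‖ + ‖T (N + k)‖ := by
      simpa using norm_add_le (T N - T (N + k)) (T (N + k))
    linarith
  have := ge_of_tendsto' hlim hfin
  change ‖T N‖ ≤ _
  linarith

end Pool.Agent.IS
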