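import Pool.Agent.P.MP_f981b0_an.IS.Stmt

/-!
Project IS: the level step.
-/

set_option autoImplicit false

open Polynomial Finset Filter Topology
open scoped Nat Real

noncomputable section

namespace Pool.Agent.IS

theorem Step_th {D : ℕ} (h : Big D) : th D ≤ 1 ∧ th D ^ 5 ≤ 1 / (D : ℝ) := by
  have h0 : (1 : ℝ) ≤ D := by exact_mod_cast (show 1 ≤ D by have := h.1; omega)
  have h1 := h.num'
  have h2 := th_pos D
  have h3 : th D ≤ 1 := pow_le_one₀ (by norm_num) (by norm_num)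
  have h4 : (D : ℝ) ≤ (D : ℝ) ^ 40 * 2 ^ 200 :=
    (le_self_pow₀ h0 (by norm_num)).trans (le_mul_of_one_le_right (by positivity)
      (one_le_pow₀ (by norm_num)))
  refine ⟨h3, (pow_le_of_le_one h2.le h3 (by norm_num)).trans ?_⟩
  rw [le_div_iff₀ (by linarith), mul_comm]
  exact (mul_le_mul_of_nonneg_right h4 h2.le).trans h1

theorem Step_ss {D : ℕ} (h : Big D) {e x0 : ℝ} (h0 : 0 ≤ e) (h1 : e ≤ 1) (hx : 1 / (D : ℝ) ≤ x0) :
    0 ≤ ss D e x0 ∧ ss D e x0 ≤ 360 * (D : ℝ) ^ 2 / del D ^ 2 := by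
  have hD : (0 : ℝ) < D := by exact_mod_cast (show 0 < D by have := h.1; omega)
  have d0 : 0 < del D := pow_pos (th_pos D) 7
  have d1 : del D ≤ 1 := pow_le_one₀ (th_pos D).le (Step_th h).1
  have x1 : 0 < x0 := lt_of_lt_of_le (by positivity) hx
  refine ⟨by unfold ss; positivity, ?_⟩
  have a1 : 40 * e ^ 2 / (del D * x0) ^ 2 ≤ 40 * 1 ^ 2 / (del D * (1 / (D : ℝ))) ^ 2 := by
    gcongr
  have a2 : 320 * (D : ℝ) ^ 2 ≤ 320 * (D : ℝ) ^ 2 / del D ^ 2 :=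
    le_div_self (by positivity) (by positivity) (pow_le_one₀ d0.le d1)
  have a3 : 40 * 1 ^ 2 / (del D * (1 / (D : ℝ))) ^ 2 + 320 * (D : ℝ) ^ 2 / del D ^ 2 =
      360 * (D : ℝ) ^ 2 / del D ^ 2 := by
    field_simp
    ring
  unfold ss
  linarith

set_option linter.unusedVariables false in
theorem p_Step (h1 : S_G1) (h2 : S_LC) (h3 : S_Gr) (h4 : S_C2) (h5 : S_Nat) (h6 : S_Psi) :
    S_Step := by
  intro M D D1 m y X8 ch c e e' x0 e0 B β b hD hY hX hX8 hch hL hB hR hsh h8 hF hG hg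
  have hD0 : (0 : ℝ) < D := by exact_mod_cast (show 0 < D by have := hD.1; omega)
  have hβ : 0 ≤ β := (norm_nonneg _).trans hG
  have hx : 0 < x0 := lt_of_lt_of_le (by positivity) hX.x0
  have hGr := h3 M D y _ c e e' x0 hD hY hX hR
  obtain ⟨s0, s1⟩ := Step_ss hD hX.e0 hX.e1 hX.x0
  obtain ⟨c1, c2⟩ := h4 M D y e' _ hD hY hGr s0 s1
  have hd := h2.2.2 (M.dseq D y) D D1 m e0 hL
    (fun l => div_nonneg (Real.sqrt_nonneg _) (pow_pos (th_pos D) 7).le) c1 c2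
  obtain ⟨l0, -, l1, l2, l3, -⟩ := hL
  have a1 := h5 M D D1 y c e' e0 β b hD hY (hX.sq.trans (pow_le_one₀ hX.e0 hX.e1)) l1 (by omega)
    l0.le hd hF
  have a2 := h6.1 M D D1 y ch B β b hD hY.norm hch l1 (by omega) hB hG hg
  have a3 := h6.2 M D y X8 e e' x0 β b hD hY hGr hX.e0 hx hX8 h8
  have e1 : y (aeval (M.VG D) (X ^ 5 * b) (M.lev D c + ((mu D : ℂ)⁻¹) • ch)) =
      y ((1 - M.u D ^ k0 D) (aeval (M.VG D) (X ^ 5 * b) (M.xp D (M.i8 D X8) c))) -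
        y ((1 - M.u D ^ k0 D) (aeval (M.VG D) (X ^ 5 * b) (M.j D (M.i8 D X8)))) +
        y ((M.u D ^ k0 D) (aeval (M.VG D) (X ^ 5 * b) (M.lev D c))) +
        y (aeval (M.VG D) (X ^ 5 * b) (((mu D : ℂ)⁻¹) • ch)) := by
    simp only [Model.xp, map_add, ContinuousLinearMap.sub_apply, ContinuousLinearMap.one_apply,
      map_sub]
    ring
  have a4 : β * th D ^ 5 ≤ β * (1 / (D : ℝ)) := mul_le_mul_of_nonneg_left (Step_th hD).2 hβ
  have a5 : 0 ≤ β * (1 / (D : ℝ)) := by positivity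
  have e2 : gam M D D1 e0 B β = 3 * (β * (1 / (D1 : ℝ))) + β * (((D1 : ℝ) + 1) * M.A D1 * e0) +
      β * (B * ((D1 + 1)! : ℝ) / mu D) + 16384 * (β * (1 / (D : ℝ))) := by
    unfold gam
    ring
  have e3 : β * kap D = 2048 * (β * (1 / (D : ℝ))) := by
    unfold kap
    ring
  have e4 : 3 * β / D = 3 * (β * (1 / (D : ℝ))) := by ring
  rw [e1, e2]
  refine (norm_add_le _ _).trans ((add_le_add ((norm_add_le _ _).trans (add_le_add
    ((norm_sub_le _ _).trans (add_le_add hsh a3)) a1)) a2).trans ?_)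
  linarith

end Pool.Agent.IS
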