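import Pool.Agent.P.MP_f981b0_an.ISP9.Rect
import Pool.Agent.P.MP_f981b0_an.IS.Stmt

/-!
Package Strip.
-/

set_option autoImplicit false

namespace Pool.Agent.P.MP_f981b0_an.ISP9

open Complex Set

/-- The rectangle `0 ≤ x ≤ 1/8`, `|y| ≤ Y0`. -/
theorem rect' {g : ℂ → ℂ} {Λ C E Y1 Y0 : ℝ} (hC : 0 ≤ C) (hY : Y1 ≤ Y0)
    (hE : E ≤ Real.exp (Y0 - Y1) / 4)
    (hg : DifferentiableOn ℂ g {p | 0 ≤ p.re ∧ p.re ≤ 1 / 8 ∧ |p.im| ≤ Y0})
    (h0 : ∀ p : ℂ, p.re = 0 → |p.im| ≤ Y0 → ‖g p‖ ≤ Real.exp Λ)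
    (h1 : ∀ p : ℂ, p.re = 1 / 8 → |p.im| ≤ Y0 → ‖g p‖ ≤ Real.exp (Λ + C * (1 + p.im ^ 2)))
    (h2 : ∀ p : ℂ, 0 ≤ p.re → p.re ≤ 1 / 8 → |p.im| = Y0 → ‖g p‖ ≤ Real.exp (Λ + E))
    {p : ℂ} (hp0 : 0 ≤ p.re) (hp1 : p.re ≤ 1 / 8) (hp2 : |p.im| ≤ Y1) :
    ‖g p‖ ≤ Real.exp (Λ + 1 + 9 * C * p.re * (1 + p.im ^ 2)) := by
  have ha : 0 ≤ Y1 := (abs_nonneg p.im).trans hp2
  let φ : ℂ → ℂ := fun z => ((9 * C : ℝ) : ℂ) * (z - z ^ 3 / 3) +
    ((Real.exp (-Y1) : ℝ) : ℂ) * Complex.cos z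
  have hφ : ∀ z, (φ z).re = 9 * C * (z.re * (1 + z.im ^ 2 - z.re ^ 2 / 3)) +
      Real.exp (-Y1) * (Real.cos z.re * Real.cosh z.im) := fun z => by
    simp only [φ, add_re, re_ofReal_mul, re_cubic, re_cos]
  let k : ℂ → ℂ := fun z => g z * cexp (-φ z)
  let S : Set ℂ := {z | 0 ≤ z.re ∧ z.re ≤ 1 / 8 ∧ |z.im| ≤ Y0}
  let U : Set ℂ := {z | 0 < z.re ∧ z.re < 1 / 8 ∧ |z.im| < Y0}
  have hU : IsOpen U :=
    (isOpen_lt continuous_const continuous_re).inter
      ((isOpen_lt continuous_re continuous_const).inter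
        (isOpen_lt continuous_im.abs continuous_const))
  have hS : IsClosed S :=
    (isClosed_le continuous_const continuous_re).inter
      ((isClosed_le continuous_re continuous_const).inter
        (isClosed_le continuous_im.abs continuous_const))
  have hb : Bornology.IsBounded U :=
    (Metric.isBounded_closedBall (x := (0 : ℂ)) (r := 1 / 8 + Y0)).subset fun z hz => by
      have h := Complex.norm_le_abs_re_add_abs_im z
      have h' : |z.re| ≤ 1 / 8 := abs_le.mpr ⟨by linarith [hz.1], hz.2.1.le⟩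
      rw [mem_closedBall_zero_iff]
      linarith [hz.2.2]
  have hk : DifferentiableOn ℂ k S := hg.mul (by simp only [φ]; fun_prop)
  have hkn : ∀ z, ‖k z‖ = ‖g z‖ * Real.exp (-(φ z).re) := fun z => by
    simp only [k, norm_mul, Complex.norm_exp, neg_re]
  have hcos : ∀ z ∈ S, 1 / 2 ≤ Real.cos z.re := fun z hz => by
    have := Real.one_sub_sq_div_two_le_cos (x := z.re)
    nlinarith [hz.1, hz.2.1]
  have hA : ∀ z ∈ S, 0 ≤ 9 * C * (z.re * (1 + z.im ^ 2 - z.re ^ 2 / 3)) := fun z hz => by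
    have h3 : 0 ≤ 1 + z.im ^ 2 - z.re ^ 2 / 3 := by nlinarith [hz.1, hz.2.1, sq_nonneg z.im]
    have := hz.1
    positivity
  have hB : ∀ z ∈ S, 0 ≤ Real.exp (-Y1) * (Real.cos z.re * Real.cosh z.im) := fun z hz => by
    have := hcos z hz
    have := Real.cosh_pos z.im
    positivity
  have red : ∀ z, ∀ t : ℝ, ‖g z‖ ≤ Real.exp (Λ + t) → t ≤ (φ z).re → ‖k z‖ ≤ Real.exp Λ := by
    intro z t h ht
    rw [hkn]
    calc ‖g z‖ * Real.exp (-(φ z).re) ≤ Real.exp (Λ + t) * Real.exp (-(φ z).re) := by gcongr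
      _ ≤ Real.exp Λ := by
        rw [← Real.exp_add]
        exact Real.exp_le_exp.mpr (by linarith)
  have hpS : p ∈ S := ⟨hp0, hp1, by linarith⟩
  have key : ‖k p‖ ≤ Real.exp Λ := by
    refine max_closed hU hb hS (fun z hz => ⟨hz.1.le, hz.2.1.le, hz.2.2.le⟩) hk ?_ hpS
    intro z hz hzU
    by_cases c0 : z.re = 0
    · refine red z 0 (by simpa using h0 z c0 hz.2.2) ?_
      rw [hφ]
      linarith [hA z hz, hB z hz]
    by_cases c1 : z.re = 1 / 8
    · refine red z _ (h1 z c1 hz.2.2) ?_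
      rw [hφ]
      have : C * (1 + z.im ^ 2) ≤ 9 * C * (z.re * (1 + z.im ^ 2 - z.re ^ 2 / 3)) := by
        rw [c1]
        nlinarith [sq_nonneg z.im, mul_nonneg hC (sq_nonneg z.im)]
      linarith [hB z hz]
    · have c2 : |z.im| = Y0 := by
        by_contra h
        exact hzU ⟨lt_of_le_of_ne hz.1 (Ne.symm c0), lt_of_le_of_ne hz.2.1 c1,
          lt_of_le_of_ne hz.2.2 h⟩
      refine red z _ (h2 z hz.1 hz.2.1 c2) ?_
      rw [hφ]
      have e1 : Real.exp Y0 / 2 ≤ Real.cosh z.im := by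
        rw [← Real.cosh_abs, c2, Real.cosh_eq]
        have := Real.exp_pos (-Y0)
        linarith
      have e2 : Real.exp (-Y1) * Real.exp Y0 = Real.exp (Y0 - Y1) := by
        rw [← Real.exp_add]; congr 1; ring
      have e3 : Real.exp (-Y1) * (1 / 2 * (Real.exp Y0 / 2)) ≤
          Real.exp (-Y1) * (Real.cos z.re * Real.cosh z.im) := by
        have := hcos z hz
        gcongr
      nlinarith [hA z hz]
  have e4 : Real.exp (-Y1) * (Real.cos p.re * Real.cosh p.im) ≤ 1 := by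
    have c1 : Real.cosh p.im ≤ Real.exp Y1 := by
      rw [← Real.cosh_abs, Real.cosh_eq]
      have d1 : Real.exp |p.im| ≤ Real.exp Y1 := Real.exp_le_exp.mpr hp2
      have d2 : Real.exp (-|p.im|) ≤ Real.exp Y1 :=
        Real.exp_le_exp.mpr (by linarith [abs_nonneg p.im])
      linarith
    have c2 : Real.cos p.re * Real.cosh p.im ≤ 1 * Real.exp Y1 := by
      have := Real.cos_le_one p.re
      have := Real.cosh_pos p.im
      gcongr
    calc _ ≤ Real.exp (-Y1) * (1 * Real.exp Y1) := by gcongr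
      _ = 1 := by rw [one_mul, ← Real.exp_add]; simp
  have e5 : 9 * C * (p.re * (1 + p.im ^ 2 - p.re ^ 2 / 3)) ≤ 9 * C * p.re * (1 + p.im ^ 2) := by
    have : 0 ≤ C * (p.re * p.re ^ 2) := by positivity
    nlinarith
  rw [hkn] at key
  calc ‖g p‖ = ‖g p‖ * Real.exp (-(φ p).re) * Real.exp ((φ p).re) := by
        rw [mul_assoc, ← Real.exp_add]; simp
    _ ≤ Real.exp Λ * Real.exp ((φ p).re) := by gcongr
    _ ≤ _ := by
      rw [← Real.exp_add]
      refine Real.exp_le_exp.mpr ?_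
      rw [hφ]
      linarith

end Pool.Agent.P.MP_f981b0_an.ISP9

namespace Pool.Agent.IS

theorem p_Strip : S_Strip := by
  intro g La A S Y1 Y0 hA _ hY hS hg h0 h1 h2 p hp0 hp1 hp2
  exact P.MP_f981b0_an.ISP9.rect' hA hY hS
    (hg.mono fun z hz => ⟨by linarith [hz.1], by linarith [hz.2.1], by linarith [hz.2.2]⟩)
    h0 h1 h2 hp0 hp1 hp2

end Pool.Agent.IS
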