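import Pool.Agent.P.MP_f981b0_an.IS.Stmt

/-! Package Symb of the project IS: symbols on a scale. -/

set_option autoImplicit false

open Polynomial Finset Filter Topology
open scoped Nat Real

noncomputable section

namespace Pool.Agent.IS

section

variable {B : Type} [NormedAddCommGroup B] [NormedSpace ℂ B]
variable {V d : B →L[ℂ] B} {ev : B →L[ℂ] ℂ} {one : B} {e0 q0 : ℝ}

theorem Symb_pow (hd : ‖d‖ ≤ q0) (l : ℕ) (g : B) : ‖(d ^ l) g‖ ≤ q0 ^ l * ‖g‖ := by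
  have h0 : 0 ≤ q0 := (norm_nonneg _).trans hd
  induction l with
  | zero => simp
  | succ l ih =>
    rw [pow_succ', mul_apply_eq_comp, pow_succ', mul_assoc]
    exact (d.le_opNorm _).trans (mul_le_mul hd ih (norm_nonneg _) h0)

theorem Symb_ev (he : ‖ev‖ ≤ e0) (hd : ‖d‖ ≤ q0) (l : ℕ) (g : B) :
    ‖ev ((d ^ l) g)‖ ≤ e0 * q0 ^ l * ‖g‖ := by
  rw [mul_assoc]
  exact (ev.le_opNorm _).trans
    (mul_le_mul he (Symb_pow hd l g) (norm_nonneg _) ((norm_nonneg _).trans he))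

theorem Symb_term (he : ‖ev‖ ≤ e0) (hd : ‖d‖ ≤ q0) {t : ℂ} {q : ℝ} (ht : ‖t‖ * q0 ≤ q)
    (g : B) (l : ℕ) : ‖ev ((d ^ l) g) * t ^ l‖ ≤ e0 * ‖g‖ * q ^ l := by
  have h0 : 0 ≤ q0 := (norm_nonneg _).trans hd
  have h1 : 0 ≤ e0 := (norm_nonneg _).trans he
  rw [norm_mul, norm_pow]
  calc _ ≤ e0 * q0 ^ l * ‖g‖ * ‖t‖ ^ l :=
        mul_le_mul_of_nonneg_right (Symb_ev he hd l g) (by positivity)
    _ = e0 * ‖g‖ * (‖t‖ * q0) ^ l := by rw [mul_pow]; ring
    _ ≤ _ := by gcongr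

theorem Symb_vterm (hd : ‖d‖ ≤ q0) {t : ℂ} {q : ℝ} (ht : ‖t‖ * q0 ≤ q)
    (g : B) (l : ℕ) : ‖t ^ l • (d ^ l) g‖ ≤ ‖g‖ * q ^ l := by
  have h0 : 0 ≤ q0 := (norm_nonneg _).trans hd
  rw [norm_smul, norm_pow]
  calc _ ≤ ‖t‖ ^ l * (q0 ^ l * ‖g‖) :=
        mul_le_mul_of_nonneg_left (Symb_pow hd l g) (by positivity)
    _ = ‖g‖ * (‖t‖ * q0) ^ l := by rw [mul_pow]; ring
    _ ≤ _ := by gcongr

theorem Symb_taylor (hVd : ∀ v, V (d v) = v - ev v • one) (g : B) (l : ℕ) :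
    g = ∑ i ∈ range l, ev ((d ^ i) g) • (V ^ i) one + (V ^ l) ((d ^ l) g) := by
  induction l with
  | zero => simp
  | succ l ih =>
    have e1 : (V ^ (l + 1)) ((d ^ (l + 1)) g)
        = (V ^ l) ((d ^ l) g) - ev ((d ^ l) g) • (V ^ l) one := by
      rw [pow_succ V, pow_succ' d, mul_apply_eq_comp, mul_apply_eq_comp,
        hVd, map_sub, map_smul]
    rw [sum_range_succ, e1]
    conv_lhs => rw [ih]
    abel

theorem Symb_hasSum (he : ‖ev‖ ≤ e0) (hd : ‖d‖ ≤ q0) {t : ℂ} (ht : ‖t‖ * q0 ≤ 1 / 2) (g : B) :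
    HasSum (fun l : ℕ => ev ((d ^ l) g) * t ^ l) (sym d ev g t) :=
  (Summable.of_norm_bounded (summable_geometric_two.mul_left (e0 * ‖g‖))
    (Symb_term he hd ht g)).hasSum

theorem Symb_norm (he : ‖ev‖ ≤ e0) (hd : ‖d‖ ≤ q0) {t : ℂ} (ht : ‖t‖ * q0 ≤ 1 / 2) (g : B) :
    ‖sym d ev g t‖ ≤ 2 * e0 * ‖g‖ := by
  have h := tsum_of_norm_bounded (hasSum_geometric_two.mul_left (e0 * ‖g‖))
    (Symb_term he hd ht g)
  unfold sym
  linarith

theorem Symb_rho_norm (hd : ‖d‖ ≤ q0) {t : ℂ} (ht : ‖t‖ * q0 ≤ 1 / 2) (g : B) :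
    ‖rho d g t‖ ≤ ‖g‖ := by
  have h := tsum_of_norm_bounded (f := fun l : ℕ => t ^ (l + 1) • (d ^ (l + 1)) g)
    (hasSum_geometric_two.mul_left (‖g‖ * (1 / 2)))
    (fun l => (Symb_vterm hd ht g (l + 1)).trans (le_of_eq (by ring)))
  unfold rho
  linarith

theorem Symb_ident [CompleteSpace B] (he : ‖ev‖ ≤ e0) (hd : ‖d‖ ≤ q0)
    (hVd : ∀ v, V (d v) = v - ev v • one) {t : ℂ} (ht : ‖t‖ * q0 ≤ 1 / 2) (ht0 : t ≠ 0) (g : B) :
    g = sym d ev g t • one - (rho d g t - t⁻¹ • V (rho d g t)) := by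
  have hs : Summable fun l : ℕ => t ^ l • (d ^ l) g :=
    Summable.of_norm_bounded (summable_geometric_two.mul_left ‖g‖) (Symb_vterm hd ht g)
  have hs1 : Summable fun l : ℕ => t ^ (l + 1) • (d ^ (l + 1)) g :=
    (summable_nat_add_iff (f := fun l : ℕ => t ^ l • (d ^ l) g) 1).2 hs
  have h1 : HasSum (fun l : ℕ => t ^ (l + 1) • (d ^ (l + 1)) g) (rho d g t) := hs1.hasSum
  have h2 : HasSum (fun l : ℕ => t ^ l • (d ^ l) g) (g + rho d g t) := by
    have := (hasSum_nat_add_iff (f := fun l : ℕ => t ^ l • (d ^ l) g) 1).1 h1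
    simpa [add_comm] using this
  have h3 : HasSum (fun l : ℕ => t⁻¹ • V (t ^ (l + 1) • (d ^ (l + 1)) g))
      (t⁻¹ • V (rho d g t)) := (V.hasSum h1).const_smul t⁻¹
  have h4 : HasSum (fun l : ℕ => t ^ l • (d ^ l) g - (ev ((d ^ l) g) * t ^ l) • one)
      (g + rho d g t - sym d ev g t • one) :=
    h2.sub ((Symb_hasSum he hd ht g).smul_const one)
  have h5 : (fun l : ℕ => t⁻¹ • V (t ^ (l + 1) • (d ^ (l + 1)) g))
      = fun l : ℕ => t ^ l • (d ^ l) g - (ev ((d ^ l) g) * t ^ l) • one := by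
    funext l
    rw [map_smul, pow_succ' d, mul_apply_eq_comp, hVd, smul_smul, smul_sub, smul_smul]
    have e : t⁻¹ * t ^ (l + 1) = t ^ l := by rw [pow_succ']; field_simp
    rw [e, mul_comm (t ^ l)]
  rw [h5] at h3
  rw [h3.unique h4]
  abel

theorem Symb_local {q0 : ℝ} (h0 : 0 < q0) {t : ℂ} (ht : t ∈ Metric.ball (0 : ℂ) (1 / q0)) :
    ∃ q : ℝ, 0 ≤ q ∧ q < 1 ∧ ‖t‖ * q0 < q := by
  rw [mem_ball_zero_iff, lt_div_iff₀ h0] at ht
  refine ⟨(‖t‖ * q0 + 1) / 2, by positivity, by linarith, by linarith⟩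

theorem Symb_diff (hd : ‖d‖ ≤ q0) (h0 : 0 < q0) (g : B) :
    DifferentiableOn ℂ (sym d ev g) (Metric.ball 0 (1 / q0)) := by
  intro t ht
  obtain ⟨q, hq0, hq1, hq⟩ := Symb_local h0 ht
  have hU : IsOpen {t : ℂ | ‖t‖ * q0 < q} := isOpen_lt (by fun_prop) continuous_const
  have h : DifferentiableOn ℂ (fun t : ℂ => ∑' l : ℕ, ev ((d ^ l) g) * t ^ l)
      {t : ℂ | ‖t‖ * q0 < q} :=
    Complex.differentiableOn_tsum_of_summable_norm
      (u := fun l => ‖ev‖ * ‖g‖ * q ^ l)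
      ((summable_geometric_of_lt_one hq0 hq1).mul_left _)
      (fun l => by fun_prop) hU (fun l w hw => Symb_term le_rfl hd (le_of_lt hw) g l)
  exact (h.differentiableAt (hU.mem_nhds hq)).differentiableWithinAt

theorem Symb_rho_diff [CompleteSpace B] (hd : ‖d‖ ≤ q0) (h0 : 0 < q0) (g : B) :
    DifferentiableOn ℂ (rho d g) (Metric.ball 0 (1 / q0)) := by
  intro t ht
  obtain ⟨q, hq0, hq1, hq⟩ := Symb_local h0 ht
  have hU : IsOpen {t : ℂ | ‖t‖ * q0 < q} := isOpen_lt (by fun_prop) continuous_const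
  have h : DifferentiableOn ℂ (fun t : ℂ => ∑' l : ℕ, t ^ (l + 1) • (d ^ (l + 1)) g)
      {t : ℂ | ‖t‖ * q0 < q} :=
    Complex.differentiableOn_tsum_of_summable_norm
      (u := fun l => ‖g‖ * q * q ^ l)
      ((summable_geometric_of_lt_one hq0 hq1).mul_left _)
      (fun l => by fun_prop) hU
      (fun l w hw => (Symb_vterm hd (le_of_lt hw) g (l + 1)).trans (le_of_eq (by ring)))
  exact (h.differentiableAt (hU.mem_nhds hq)).differentiableWithinAt

theorem Symb_mono (hdV : ∀ v, d (V v) = v) (hevV : ∀ v, ev (V v) = 0) (hev1 : ev one = 1)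
    (hd1 : d one = 0) (n l : ℕ) : ev ((d ^ l) ((V ^ n) one)) = if n = l then 1 else 0 := by
  induction n generalizing l with
  | zero =>
    cases l with
    | zero => simp [hev1]
    | succ l => simp [pow_succ d, hd1]
  | succ n ih =>
    cases l with
    | zero => simp [pow_succ' V, hevV]
    | succ l =>
      rw [pow_succ d, pow_succ' V, mul_apply_eq_comp, mul_apply_eq_comp,
        hdV, ih]
      simp

theorem Symb_coeff (hdV : ∀ v, d (V v) = v) (hevV : ∀ v, ev (V v) = 0) (hev1 : ev one = 1)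
    (hd1 : d one = 0) (g : ℂ[X]) (l : ℕ) : ev ((d ^ l) (aeval V g one)) = g.coeff l := by
  induction g using Polynomial.induction_on' with
  | add p q hp hq => simp only [map_add, add_apply, hp, hq, coeff_add]
  | monomial n a =>
    rw [aeval_monomial, ← Algebra.smul_def, smul_apply, map_smul, map_smul,
      Symb_mono hdV hevV hev1 hd1, coeff_monomial]
    split_ifs <;> simp

end

theorem p_Symb : S_Symb := by
  intro M D k h
  have he := M.ev_norm D k h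
  have hd := M.d_norm D k h
  have h0 : 0 < dd D := by unfold dd; positivity
  have hc := Symb_coeff (M.dV D k h) (M.evV D k h) (M.ev_one D k h) (M.d_one D k h)
  refine ⟨fun g l => Symb_ev he hd l g, fun g l => Symb_taylor (M.Vd D k h) g l,
    fun g t ht => ⟨Symb_hasSum he hd ht g, ?_, Symb_rho_norm hd ht g,
      fun ht0 => Symb_ident he hd (M.Vd D k h) ht ht0 g⟩,
    fun g => ⟨Symb_diff hd h0 g, Symb_rho_diff hd h0 g, ?_⟩, hc, fun g t => ?_⟩
  · exact (Symb_norm he hd ht g).trans (le_of_eq (by ring))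
  · simp [rho]
  · unfold sym
    simp only [hc]
    rw [eval_eq_sum_range, tsum_eq_sum (s := range (g.natDegree + 1))]
    intro l hl
    rw [coeff_eq_zero_of_natDegree_lt (by simpa [Nat.succ_le_iff] using hl), zero_mul]

end Pool.Agent.IS
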