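import Pool.Agent.P.MP_f981b0_an.IS.Stmt

/-! What the later levels give: the resolvent bound and the shift bound (helper31). -/

set_option autoImplicit false

open Polynomial Finset Filter Topology
open scoped Nat Real

noncomputable section

namespace Pool.Agent.IS

namespace TailP

variable {B H : Type} [NormedAddCommGroup B] [NormedSpace ℂ B] [CompleteSpace B]
  [NormedAddCommGroup H] [NormedSpace ℂ H] [CompleteSpace H]

/-- A pair of vectors whose orbits are annihilated by the sum of two functionals. -/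
def Zp (V : B →L[ℂ] B) (A : H →L[ℂ] H) (y : B →L[ℂ] ℂ) (e : H →L[ℂ] ℂ) (v : B) (w : H) : Prop :=
  ∀ l : ℕ, y ((V ^ l) v) + e ((A ^ l) w) = 0

variable {V : B →L[ℂ] B} {A : H →L[ℂ] H} {y : B →L[ℂ] ℂ} {e : H →L[ℂ] ℂ}

omit [CompleteSpace B] [CompleteSpace H] in
theorem Zp.pow {v : B} {w : H} (h : Zp V A y e v w) (m : ℕ) :
    Zp V A y e ((V ^ m) v) ((A ^ m) w) := by
  intro l
  have := h (l + m)
  rwa [pow_add, pow_add, mul_apply_eq_comp, mul_apply_eq_comp] at this

omit [CompleteSpace B] [CompleteSpace H] in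
theorem Zp.add {v v' : B} {w w' : H} (h : Zp V A y e v w) (h' : Zp V A y e v' w') :
    Zp V A y e (v + v') (w + w') := by
  intro l
  have h1 := h l
  have h2 := h' l
  simp only [map_add]
  linear_combination h1 + h2

omit [CompleteSpace B] [CompleteSpace H] in
theorem Zp.sub {v v' : B} {w w' : H} (h : Zp V A y e v w) (h' : Zp V A y e v' w') :
    Zp V A y e (v - v') (w - w') := by
  intro l
  have h1 := h l
  have h2 := h' l
  simp only [map_sub]
  linear_combination h1 - h2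

omit [CompleteSpace B] [CompleteSpace H] in
theorem Zp.smul {v : B} {w : H} (h : Zp V A y e v w) (c : ℂ) :
    Zp V A y e (c • v) (c • w) := by
  intro l
  have h1 := h l
  simp only [map_smul, smul_eq_mul]
  linear_combination c * h1

omit [CompleteSpace B] [CompleteSpace H] in
theorem Zp.aeval {v : B} {w : H} (h : Zp V A y e v w) (p : ℂ[X]) :
    Zp V A y e (aeval V p v) (aeval A p w) := by
  induction p using Polynomial.induction_on' with
  | add p q hp hq =>
    simp only [map_add, add_apply]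
    exact hp.add hq
  | monomial n c =>
    simp only [aeval_monomial, ← Algebra.smul_def, smul_apply]
    exact (h.pow n).smul c

theorem Zp.res (hRes : S_Res) {Z : ℝ} (hV : Sm V Z) (hA : Sm A Z) {z : ℂ} (hz : ‖z‖ ≤ Z)
    {v : B} {w : H} (h : Zp V A y e v w) : Zp V A y e (res V z v) (res A z w) := by
  intro l
  have h1 := (hRes.1 B V Z z hV hz).1
  have h2 := (hRes.1 H A Z z hA hz).1
  have h3 := (y ∘L (V ^ l) ∘L ContinuousLinearMap.apply ℂ B v).hasSum h1
  have h4 := (e ∘L (A ^ l) ∘L ContinuousLinearMap.apply ℂ H w).hasSum h2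
  have h5 := h3.add h4
  have h6 : (fun m : ℕ => (y ∘L (V ^ l) ∘L ContinuousLinearMap.apply ℂ B v) (z ^ m • V ^ m) +
      (e ∘L (A ^ l) ∘L ContinuousLinearMap.apply ℂ H w) (z ^ m • A ^ m)) = fun _ => 0 := by
    funext m
    have := ((h.pow m).smul (z ^ m)) l
    simpa using this
  rw [h6] at h5
  have h7 := hasSum_zero.unique h5
  simpa using h7.symm

theorem Zp.wpow (hRes : S_Res) {Z : ℝ} (hV : Sm V Z) (hA : Sm A Z) {n : ℕ} (hn : (n : ℝ) ≤ Z)
    {v : B} {w : H} (h : Zp V A y e v w) (N : ℕ) :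
    Zp V A y e ((Wop V n ^ N) v) ((Wop A n ^ N) w) := by
  induction N with
  | zero => simpa using h
  | succ N ih =>
    rw [pow_succ', pow_succ', mul_apply_eq_comp, mul_apply_eq_comp]
    have hz : ‖(-(n : ℂ))‖ ≤ Z := by simpa using hn
    have := ih.sub (ih.res hRes hV hA hz)
    simpa [Wop] using this

omit [CompleteSpace B] in
theorem norm_shift {T : B →L[ℂ] B} {c β : ℝ} (hT : ‖T * V‖ ≤ c) (hV : ‖V‖ ≤ 1) (b : ℂ[X])
    (hb : ‖Polynomial.aeval V b‖ ≤ β) (v : B) :
    ‖T (Polynomial.aeval V (X ^ 5 * b) v)‖ ≤ c * β * ‖v‖ := by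
  have h1 : T (Polynomial.aeval V (X ^ 5 * b) v) =
      (T * V) ((V ^ 4) (Polynomial.aeval V b v)) := by
    rw [map_mul, map_pow, aeval_X, show V ^ 5 = V * V ^ 4 from pow_succ' V 4]
    simp
  have h2 : ‖V ^ 4‖ ≤ 1 :=
    (norm_pow_le' V (by norm_num)).trans (pow_le_one₀ (norm_nonneg _) hV)
  have hc : 0 ≤ c := (norm_nonneg _).trans hT
  have h3 : ‖Polynomial.aeval V b v‖ ≤ β * ‖v‖ :=
    (ContinuousLinearMap.le_opNorm _ _).trans (mul_le_mul_of_nonneg_right hb (norm_nonneg _))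
  have h4 : ‖(V ^ 4) (Polynomial.aeval V b v)‖ ≤ β * ‖v‖ := by
    calc _ ≤ ‖V ^ 4‖ * ‖Polynomial.aeval V b v‖ := ContinuousLinearMap.le_opNorm _ _
      _ ≤ 1 * ‖Polynomial.aeval V b v‖ := mul_le_mul_of_nonneg_right h2 (norm_nonneg _)
      _ ≤ β * ‖v‖ := by rw [one_mul]; exact h3
  rw [h1]
  calc _ ≤ ‖T * V‖ * ‖(V ^ 4) (Polynomial.aeval V b v)‖ := ContinuousLinearMap.le_opNorm _ _
    _ ≤ c * (β * ‖v‖) := mul_le_mul hT h4 (norm_nonneg _) hc
    _ = c * β * ‖v‖ := by ring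

theorem tau_n1 (D : ℕ) : tau D * (n1 D : ℝ) = aa D := by
  have h := th_inv D
  unfold tau n1 aa
  push_cast
  have h2 : (2 : ℝ) ^ (20 * D) * th D ^ 20 = 1 := by
    rw [mul_comm 20 D, pow_mul, ← mul_pow, h, one_pow]
  linear_combination (64 * (D : ℝ)) * h2

theorem k0_n1 {D : ℕ} (hD : 0 < D) : ((aa D * k0 D : ℕ) : ℝ) / n1 D = th D ^ 5 := by
  have h := th_inv D
  have hD' : (0 : ℝ) < D := by exact_mod_cast hD
  have hn : (0 : ℝ) < n1 D := by unfold n1; positivity
  rw [div_eq_iff hn.ne']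
  unfold n1 aa k0
  push_cast
  have h2 : (2 : ℝ) ^ (20 * D) * th D ^ 5 = 2 ^ (15 * D) := by
    have : (2 : ℝ) ^ (20 * D) = 2 ^ (15 * D) * (2 ^ D) ^ 5 := by
      rw [← pow_mul, ← pow_add]; congr 1; ring
    rw [this, mul_assoc, ← mul_pow, h, one_pow, mul_one]
  linear_combination (-(64 * (D : ℝ))) * h2

end TailP

open TailP in
theorem p_Tail (hRes : S_Res) (hAcc : S_Acc) (hG1 : S_G1) : S_Tail := by
  intro M D y x ch hD hy hch H _ _ _ A et xi het hxi hA hsm hacc h0
  have G := hG1 M D hD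
  have hDpos : 0 < D := by have := hD.1; omega
  have hD' : (0 : ℝ) < D := by exact_mod_cast hDpos
  have hn0 : 0 < n1 D := by unfold n1; positivity
  have hn : (0 : ℝ) < n1 D := by exact_mod_cast hn0
  have hmu : 0 < mu D := by unfold mu; positivity
  have hk : 0 ≤ kG D := by unfold kG; positivity
  have hZ : Zp (M.VG D) A y (innerSL ℂ et) (x + ((mu D : ℂ)⁻¹) • ch) xi := by
    intro l
    simpa using h0 l
  have hyc : ∀ (T : E →L[ℂ] E) (c : ℝ), ‖T ch‖ ≤ c → ‖y (T (((mu D : ℂ)⁻¹) • ch))‖ ≤ c := by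
    intro T c hc
    rw [map_smul, map_smul, norm_smul, norm_inv, Complex.norm_real, Real.norm_eq_abs,
      abs_of_pos hmu]
    have h1 : ‖y (T ch)‖ ≤ mu D * c :=
      (y.le_opNorm _).trans (mul_le_mul hy hc (norm_nonneg _) hmu.le)
    calc (mu D)⁻¹ * ‖y (T ch)‖ ≤ (mu D)⁻¹ * (mu D * c) :=
          mul_le_mul_of_nonneg_left h1 (by positivity)
      _ = c := by field_simp
  have hin : ∀ (w : H) (c : ℝ), ‖w‖ ≤ c → ‖innerSL ℂ et w‖ ≤ c := by
    intro w c hc
    rw [innerSL_apply_apply]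
    calc _ ≤ ‖et‖ * ‖w‖ := norm_inner_le_norm _ _
      _ ≤ 1 * c := mul_le_mul het hc (norm_nonneg _) zero_le_one
      _ = c := one_mul c
  have hAV := hAcc E (M.VG D) (kG D) (3 * n1 D) hk G.accr G.sm
  have hAA := hAcc H A (kG D) (3 * n1 D) hk hacc hsm
  refine ⟨?_, ?_⟩
  · intro t ht htn
    have h38 : 0 < 3 / (8 * (n1 D : ℝ)) := by positivity
    have hre : 3 / (8 * (n1 D : ℝ)) ≤ ‖t‖ := by
      have := Complex.abs_re_le_norm t
      have h2 := neg_abs_le t.re
      linarith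
    have hz : ‖t⁻¹‖ ≤ 3 * (n1 D : ℝ) := by
      rw [norm_inv]
      calc ‖t‖⁻¹ ≤ (3 / (8 * (n1 D : ℝ)))⁻¹ := inv_anti₀ h38 hre
        _ = 8 / 3 * (n1 D : ℝ) := by field_simp
        _ ≤ 3 * (n1 D : ℝ) := by linarith
    have hgap : 23 / (64 * (n1 D : ℝ)) ≤ -t.re - kG D := by
      have : 23 / (64 * (n1 D : ℝ)) = 3 / (8 * (n1 D : ℝ)) - kG D := by
        unfold kG; field_simp; norm_num
      linarith
    have h23 : 0 < 23 / (64 * (n1 D : ℝ)) := by positivity
    have hlt : t.re < -kG D := by linarith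
    have hq : ‖t‖ / (-t.re - kG D) ≤ 32 * (aa D : ℝ) := by
      rw [div_le_iff₀ (by linarith)]
      have h1 := tau_n1 D
      have htau : 0 < tau D := by unfold tau; exact pow_pos (th_pos D) _
      calc ‖t‖ ≤ 9 * tau D := htn
        _ ≤ 32 * (tau D * n1 D) * (23 / (64 * (n1 D : ℝ))) := by
            have : 32 * (tau D * n1 D) * (23 / (64 * (n1 D : ℝ))) = 23 / 2 * tau D := by
              field_simp; norm_num
            rw [this]; linarith
        _ ≤ 32 * (aa D : ℝ) * (-t.re - kG D) := by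
            rw [h1]; exact mul_le_mul_of_nonneg_left hgap (by positivity)
    have h1 := (hAV.1 t hz hlt).trans hq
    have h2 := (hAA.1 t hz hlt).trans hq
    have h3 := (hZ.res hRes G.sm hsm hz) 0
    simp only [pow_zero, one_apply_eq_self, map_add] at h3
    have h4 : y (res (M.VG D) t⁻¹ x) = -(y (res (M.VG D) t⁻¹ (((mu D : ℂ)⁻¹) • ch))) -
        innerSL ℂ et (res A t⁻¹ xi) := by linear_combination h3
    have h5 := hyc (res (M.VG D) t⁻¹) (32 * (aa D : ℝ)) (by
      calc _ ≤ ‖res (M.VG D) t⁻¹‖ * ‖ch‖ := ContinuousLinearMap.le_opNorm _ _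
        _ ≤ 32 * (aa D : ℝ) * 1 := mul_le_mul h1 hch (norm_nonneg _) (by positivity)
        _ = _ := mul_one _)
    have h6 := hin (res A t⁻¹ xi) (32 * (aa D : ℝ)) (by
      calc _ ≤ ‖res A t⁻¹‖ * ‖xi‖ := ContinuousLinearMap.le_opNorm _ _
        _ ≤ 32 * (aa D : ℝ) * 1 := mul_le_mul h2 hxi (norm_nonneg _) (by positivity)
        _ = _ := mul_one _)
    rw [h4]
    refine (norm_sub_le _ _).trans ?_
    rw [norm_neg]
    linarith
  · intro b β hbA hbV
    have hβ : 0 ≤ β := (norm_nonneg _).trans hbA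
    have hth : 0 ≤ th D ^ 5 := (pow_pos (th_pos D) _).le
    have hn3 : (n1 D : ℝ) ≤ 3 * n1 D := by linarith
    have hkn : kG D ≤ 1 / (2 * (n1 D : ℝ)) := by
      unfold kG
      exact one_div_le_one_div_of_le (by positivity) (by linarith)
    have h1 := (hAA.2 (n1 D) hn0 hn3 hkn).2.2.2.2.2 (aa D * k0 D)
    have h2 := G.W_sub (aa D * k0 D)
    rw [k0_n1 hDpos] at h1 h2
    have hp := hZ.aeval (X ^ 5 * b)
    have h3 := (hp.sub (hp.wpow hRes G.sm hsm hn3 (aa D * k0 D))) 0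
    have hu : M.u D ^ k0 D = Wop (M.VG D) (n1 D) ^ (aa D * k0 D) := by
      rw [Model.u, ← pow_mul]; rfl
    have h4 : y ((1 - M.u D ^ k0 D) (aeval (M.VG D) (X ^ 5 * b) x)) =
        -(y (((1 - M.W D ^ (aa D * k0 D)) * aeval (M.VG D) (X ^ 5 * b))
          (((mu D : ℂ)⁻¹) • ch))) -
        innerSL ℂ et ((1 - Wop A (n1 D) ^ (aa D * k0 D)) (aeval A (X ^ 5 * b) xi)) := by
      rw [hu]
      simp only [pow_zero, one_apply_eq_self, map_add, map_sub] at h3
      simp only [sub_apply, one_apply_eq_self, map_sub,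
        mul_apply_eq_comp, Model.W]
      linear_combination h3
    have h5 := hyc ((1 - M.W D ^ (aa D * k0 D)) * aeval (M.VG D) (X ^ 5 * b)) (th D ^ 5 * β) (by
      rw [mul_apply_eq_comp]
      calc _ ≤ th D ^ 5 * β * ‖ch‖ := norm_shift h2 G.VG_norm b hbV ch
        _ ≤ th D ^ 5 * β * 1 := mul_le_mul_of_nonneg_left hch (by positivity)
        _ = _ := mul_one _)
    have h6 := hin ((1 - Wop A (n1 D) ^ (aa D * k0 D)) (aeval A (X ^ 5 * b) xi))
      (th D ^ 5 * β) (by
      calc _ ≤ th D ^ 5 * β * ‖xi‖ := norm_shift h1 hA b hbA xi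
        _ ≤ th D ^ 5 * β * 1 := mul_le_mul_of_nonneg_left hxi (by positivity)
        _ = _ := mul_one _)
    rw [h4]
    refine (norm_sub_le _ _).trans ?_
    rw [norm_neg]
    linarith

end Pool.Agent.IS
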