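import Pool.Agent.P.MP_f981b0_an.IS.Glob

/-!
One step of the telescoping sum.
-/

set_option autoImplicit false

open Polynomial Finset Filter Topology
open scoped Nat

noncomputable section

namespace Pool.Agent.IS

theorem Tel_pow {B B' : Type} [NormedAddCommGroup B] [NormedSpace ℂ B] [NormedAddCommGroup B']
    [NormedSpace ℂ B'] {A : B →L[ℂ] B} {A' : B' →L[ℂ] B'} {S : B →L[ℂ] B'}
    (h : ∀ v, S (A v) = A' (S v)) (l : ℕ) (v : B) : S ((A ^ l) v) = (A' ^ l) (S v) := by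
  induction l with
  | zero => rfl
  | succ l ih =>
    rw [pow_succ', pow_succ']
    change S (A ((A ^ l) v)) = A' ((A' ^ l) (S v))
    rw [h, ih]

theorem Tel_aeval {B B' : Type} [NormedAddCommGroup B] [NormedSpace ℂ B] [NormedAddCommGroup B']
    [NormedSpace ℂ B'] {A : B →L[ℂ] B} {A' : B' →L[ℂ] B'} {S : B →L[ℂ] B'}
    (h : ∀ v, S (A v) = A' (S v)) (p : ℂ[X]) (v : B) : S (aeval A p v) = aeval A' p (S v) := by
  induction p using Polynomial.induction_on' with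
  | add p q hp hq =>
    rw [map_add, map_add]
    change S (aeval A p v + aeval A q v) = aeval A' p (S v) + aeval A' q (S v)
    rw [map_add, hp, hq]
  | monomial n c =>
    simp only [aeval_monomial, Algebra.algebraMap_eq_smul_one, smul_mul_assoc, one_mul]
    change S (c • (A ^ n) v) = c • (A' ^ n) (S v)
    rw [map_smul, Tel_pow h]

theorem Tel_gam (M : Model) (D D1 : ℕ) {e0 B β β' : ℝ} (he : 0 ≤ e0) (hB : 0 ≤ B) (h : β ≤ β') :
    gam M D D1 e0 B β ≤ gam M D D1 e0 B β' := by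
  have h1 := M.A_nonneg D1
  have h2 : 0 < mu D := by unfold mu; positivity
  unfold gam
  exact mul_le_mul_of_nonneg_right h (by positivity)

theorem p_Tel (_h1 : S_G1) (h2 : S_Dg) (h3 : S_Good) (h4 : S_VK) (h5 : S_Th) (h6 : S_Yn)
    (h7 : S_XH) (h8 : S_Tail) (h9 : S_Step) : S_Tel := by
  intro M Ds x et hG hP het hx hT h0
  obtain ⟨N0', hN0⟩ := h7 M Ds x hG hx hT
  refine ⟨N0', fun N n hN hn b hb => ?_⟩
  obtain ⟨hXH, hX8, hch, hhead⟩ := hN0 n (hN.trans hn)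
  obtain ⟨hbig, -, -, hinc, hpol, hmono, -⟩ := h3 M Ds hG
  obtain ⟨-, -, hggV, -, -, -, hJF⟩ := hinc n
  obtain ⟨hA1, hA2, hA3, hA4, hA5⟩ := (h4 M Ds hG).2.2 (n + 1)
  obtain ⟨hlift, -, -, -, -, -, -, hhV, -, -⟩ := h5 M Ds hG
  obtain ⟨hy1, hy2, -, hy4, hy5⟩ := h6 M Ds et hG hP het
  obtain ⟨-, -, -, -, -, -, D1, m, e0, hLC, hgam⟩ := hG.2 n
  obtain ⟨-, hb8, hbF, hbG⟩ := (hpol N (n + 1) (by omega)).2 b hb
  have hmu : 0 ≤ mu (Ds n) := by unfold mu; positivity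
  have htail := h8 M (Ds (n + 1)) _ _ _ (hbig _) (hy4 n).norm hch KS (M.tailA Ds (n + 1)) et
    (tailP (n + 1) x) het ((h2.2.2.1 _ _).trans hx) hA1 hA2 hA3 (fun l => by
      rw [← hhead, ← Tel_pow (hhV (n + 1)), hy1, ← hA4, inner_sub_right, h0]
      ring)
  have hstep := h9 M (Ds (n + 1)) D1 m _ _ _ _ _ _ _ e0 (mu (Ds n)) _ b (hbig _) (hy4 n) hXH hX8
    hch hLC hmu htail.1 (htail.2 b _ (hA5 N (by omega) b hb) hbG) hb8 hbF hbG (fun g hg =>
      (hy5 (n + 1) (D1 + 1) g hg).trans (mul_le_mul_of_nonneg_right (mul_le_mul_of_nonneg_right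
        (hmono 0 n (Nat.zero_le _)).2 (by positivity)) (norm_nonneg _)))
  have e1 : M.head Ds (n + 1) x = M.gg Ds n (M.head Ds n x) + M.lift Ds (n + 1) x := rfl
  rw [e1, map_add, map_add, ← Tel_aeval hggV, hy2, add_sub_cancel_left, hlift]
  rw [hJF] at hstep
  refine hstep.trans (add_le_add le_rfl (le_trans (Tel_gam M _ _ hLC.1.le hmu ?_) hgam))
  have := (hmono N n hn).1
  linarith

end Pool.Agent.IS
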