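import Pool.Agent.P.MP_f981b0_an.IS.Glob

set_option autoImplicit false

open Polynomial Finset Filter Topology
open scoped Nat Real

noncomputable section

namespace Pool.Agent.IS

theorem Th_n1 {D : ℕ} (h : Big D) : 20 * D + 8 ≤ n1 D := by
  have h1 := h.1
  have h2 : 1 ≤ 2 ^ (20 * D) := Nat.one_le_two_pow
  unfold n1
  nlinarith

theorem Th_mu_pos (D : ℕ) : 0 < mu D := by unfold mu; positivity

theorem Th_mu_ge {D : ℕ} (h : Big D) : 256 * ((2 : ℝ) ^ D) ^ 20 ≤ mu D := by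
  have h1 : (2 : ℝ) ^ (20 * D + 8) ≤ 2 ^ n1 D := pow_le_pow_right₀ (by norm_num) (Th_n1 h)
  have h2 : (2 : ℝ) ^ (20 * D + 8) = 256 * ((2 : ℝ) ^ D) ^ 20 := by
    rw [pow_add, mul_comm 20 D, pow_mul]
    norm_num [mul_comm]
  unfold mu
  linarith

theorem Th_th_eq (D : ℕ) : th D = ((2 : ℝ) ^ D)⁻¹ := by
  unfold th
  rw [one_div, inv_pow]

theorem Th_one_le (D : ℕ) : (1 : ℝ) ≤ 2 ^ D := one_le_pow₀ (by norm_num)

theorem Th_mu_inv {D : ℕ} (h : Big D) : (mu D)⁻¹ ≤ th D ^ 2 / 2 := by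
  have h1 := Th_mu_ge h
  have h2 := Th_one_le D
  rw [Th_th_eq]
  generalize (2 : ℝ) ^ D = x at *
  have h3 : x ^ 2 ≤ x ^ 20 := pow_le_pow_right₀ h2 (by norm_num)
  have h4 : 0 < x ^ 2 := by positivity
  have h5 : x⁻¹ ^ 2 / 2 = (2 * x ^ 2)⁻¹ := by field_simp
  rw [h5]
  exact inv_anti₀ (by positivity) (by linarith)

theorem Th_mu_half {D : ℕ} (h : Big D) : 24 / th D ^ 17 + (mu D)⁻¹ ≤ mu D / 2 := by
  have h1 := Th_mu_ge h
  have h2 := Th_one_le D
  rw [Th_th_eq]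
  generalize (2 : ℝ) ^ D = x at *
  have h3 : x ^ 17 ≤ x ^ 20 := pow_le_pow_right₀ h2 (by norm_num)
  have h4 : 1 ≤ x ^ 20 := one_le_pow₀ h2
  have h5 : 24 / x⁻¹ ^ 17 = 24 * x ^ 17 := by field_simp
  have h6 : (mu D)⁻¹ ≤ 1 := inv_le_one_of_one_le₀ (by linarith)
  rw [h5]
  linarith

theorem Th_D_half {D : ℕ} (h : Big D) : (D : ℝ) ≤ mu D / 2 := by
  have h1 := Th_mu_ge h
  have h2 := Th_one_le D
  have h3 : (D : ℝ) ≤ 2 ^ D := by exact_mod_cast (Nat.lt_two_pow_self (n := D)).le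
  generalize (2 : ℝ) ^ D = x at *
  have h4 : x ^ 1 ≤ x ^ 20 := pow_le_pow_right₀ h2 (by norm_num)
  rw [pow_one] at h4
  linarith

theorem Th_lift (hDg : S_Dg) (M : Model) (Ds : ℕ → ℕ) (n : ℕ) (x : KS) :
    M.lift Ds n x = M.lev (Ds n) (cc (Ds n) n x) + ((mu (Ds n) : ℂ)⁻¹) • x (n, 0) := by
  unfold Model.lift Model.lev
  rw [add_apply, _root_.sum_apply, smul_apply,
    hDg.2.1]
  congr 1
  apply Finset.sum_congr rfl
  intro k hk
  have hk' : k ≤ KK (Ds n) := Nat.lt_succ_iff.1 (Finset.mem_range.1 hk)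
  rw [smul_apply, ContinuousLinearMap.comp_apply,
    ContinuousLinearMap.comp_apply, hDg.2.1, cc, if_pos hk']

theorem Th_sq (D n : ℕ) (x : KS) :
    ∑ k ∈ range (KK D + 1), ‖cc D n x k‖ ^ 2 ≤ eps D n x ^ 2 := by
  unfold eps
  rw [Real.sq_sqrt (Finset.sum_nonneg fun _ _ => sq_nonneg _), Finset.sum_range_succ' _ (KK D + 1)]
  have h1 : ∑ k ∈ range (KK D + 1), ‖cc D n x k‖ ^ 2
      = ∑ k ∈ range (KK D + 1), ‖x (n, k + 1)‖ ^ 2 := by
    apply Finset.sum_congr rfl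
    intro k hk
    have hk' : k ≤ KK D := Nat.lt_succ_iff.1 (Finset.mem_range.1 hk)
    rw [cc, if_pos hk']
  rw [h1]
  have := sq_nonneg ‖x (n, 0)‖
  linarith

theorem Th_sq' (hDg : S_Dg) (D n : ℕ) (x : KS) :
    ∑ k ∈ range (KK D + 1), ‖cc D n x k‖ ^ 2 ≤ ‖x‖ ^ 2 := by
  refine (Th_sq D n x).trans ?_
  have h1 := (hDg.2.2.2.2.2 D n 0 x).1
  have h2 : 0 ≤ eps D n x := Real.sqrt_nonneg _
  exact pow_le_pow_left₀ h2 h1 2

theorem Th_chi (D : ℕ) (x : KS) (i : ℕ × ℕ) : ‖((mu D : ℂ)⁻¹) • x i‖ ≤ (mu D)⁻¹ * ‖x‖ := by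
  have h1 : ‖x i‖ ≤ ‖x‖ := lp.norm_apply_le_norm (by norm_num) x i
  have h2 := Th_mu_pos D
  rw [norm_smul, norm_inv, Complex.norm_real, Real.norm_of_nonneg h2.le]
  exact mul_le_mul_of_nonneg_left h1 (by positivity)

theorem Th_su_comm {M : Model} {D : ℕ} (h : M.G1 D) (k : ℕ) : Commute (M.su D k) (M.VG D) := by
  have h1 : Commute (M.u D) (M.VG D) := h.W_comm.pow_left _
  exact ((Commute.one_left _).sub_left h1).mul_left (h1.pow_left k)

theorem p_Th (h1 : S_G1) (h2 : S_G2) (h3 : S_Dg) (h4 : S_Good) (h5 : S_VK) : S_Th := by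
  intro M Ds hG
  obtain ⟨hB, -, hn, hgg, -⟩ := h4 M Ds hG
  obtain ⟨hVK, -⟩ := h5 M Ds hG
  have g1 : ∀ n, M.G1 (Ds n) := fun n => h1 M _ (hB n)
  have a3 : ∀ n x, ‖M.JG (Ds n) (M.lift Ds n x)‖ ≤ th (Ds n) ^ 2 * ‖x‖ := by
    intro n x
    have b1 := (h2 M (Ds n) (cc (Ds n) n x) ‖x‖ (hB n) (norm_nonneg _) (Th_sq' h3 _ n x)).1
    have b2 : ‖M.JG (Ds n) (((mu (Ds n) : ℂ)⁻¹) • x (n, 0))‖ ≤ (mu (Ds n))⁻¹ * ‖x‖ := by
      refine ((M.JG (Ds n)).le_opNorm _).trans ?_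
      have b3 : ‖M.JG (Ds n)‖ ≤ 1 := M.J_norm _ _ (g1 n).admG
      have b4 := Th_chi (Ds n) x (n, 0)
      calc _ ≤ 1 * ((mu (Ds n))⁻¹ * ‖x‖) := mul_le_mul b3 b4 (norm_nonneg _) (by norm_num)
        _ = _ := one_mul _
    have b5 := mul_le_mul_of_nonneg_right (Th_mu_inv (hB n)) (norm_nonneg x)
    rw [Th_lift h3, map_add]
    refine (norm_add_le _ _).trans ?_
    linarith
  have a4 : ∀ x, HasSum (fun n => M.JG (Ds n) (M.lift Ds n x)) (M.Th Ds x) := by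
    intro x
    have b1 : Summable fun n : ℕ => M.JG (Ds n) ∘L M.lift Ds n := by
      refine Summable.of_norm_bounded (g := fun n : ℕ => (1 / 2 : ℝ) ^ n)
        summable_geometric_two ?_
      intro n
      have b2 : th (Ds n) ≤ (1 / 2 : ℝ) ^ n :=
        pow_le_pow_of_le_one (by norm_num) (by norm_num) (hn n)
      have b3 : th (Ds n) ≤ 1 := pow_le_one₀ (by norm_num) (by norm_num)
      have b4 := th_pos (Ds n)
      refine ContinuousLinearMap.opNorm_le_bound _ (by positivity) ?_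
      intro z
      refine (a3 n z).trans (mul_le_mul_of_nonneg_right ?_ (norm_nonneg _))
      nlinarith
    exact b1.hasSum.mapL (ContinuousLinearMap.apply ℂ E x)
  have a5 : ∀ n x, M.JG (Ds n) (M.head Ds n x)
      = ∑ m ∈ range (n + 1), M.JG (Ds m) (M.lift Ds m x) := by
    intro n x
    induction n with
    | zero => rw [Finset.sum_range_one]; rfl
    | succ n ih =>
      rw [Finset.sum_range_succ, ← ih, ← (hgg n).2.2.2.2.2.1, ← map_add]
      rfl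
  have al : ∀ n x, ‖M.lift Ds n x‖ ≤ mu (Ds n) / 2 * ‖x‖ := by
    intro n x
    have b1 := (h2 M (Ds n) (cc (Ds n) n x) ‖x‖ (hB n) (norm_nonneg _) (Th_sq' h3 _ n x)).2
    have b4 := Th_chi (Ds n) x (n, 0)
    have b5 := mul_le_mul_of_nonneg_right (Th_mu_half (hB n)) (norm_nonneg x)
    rw [Th_lift h3]
    refine (norm_add_le _ _).trans ?_
    linarith
  have a6 : ∀ n x, ‖M.head Ds n x‖ ≤ mu (Ds n) * ‖x‖ := by
    intro n x
    induction n with
    | zero =>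
      have b1 := al 0 x
      have b2 : 0 ≤ mu (Ds 0) * ‖x‖ := mul_nonneg (Th_mu_pos _).le (norm_nonneg _)
      change ‖M.lift Ds 0 x‖ ≤ _
      linarith
    | succ n ih =>
      have b1 := al (n + 1) x
      have b2 : ‖M.gg Ds n (M.head Ds n x)‖ ≤ 1 * (mu (Ds n) * ‖x‖) :=
        ((M.gg Ds n).le_opNorm _).trans
          (mul_le_mul (hgg n).2.2.2.1 ih (norm_nonneg _) (by norm_num))
      have b3 : mu (Ds n) ≤ mu (Ds (n + 1)) / 2 :=
        (hG.2 n).2.2.2.2.2.1.trans (Th_D_half (hB (n + 1)))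
      have b4 := mul_le_mul_of_nonneg_right b3 (norm_nonneg x)
      change ‖M.gg Ds n (M.head Ds n x) + M.lift Ds (n + 1) x‖ ≤ _
      refine (norm_add_le _ _).trans ?_
      linarith
  have a7 : ∀ n x, M.lift Ds n (M.VK Ds x) = M.VG (Ds n) (M.lift Ds n x) := by
    intro n x
    rw [Th_lift h3, Th_lift h3, map_add, map_smul, hVK]
    congr 1
    unfold Model.lev
    rw [map_sum]
    apply Finset.sum_congr rfl
    intro k hk
    have hk' : k ≤ KK (Ds n) := Nat.lt_succ_iff.1 (Finset.mem_range.1 hk)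
    have b1 : M.Vc Ds (n, k + 1) = M.VF (Ds n) := if_neg (Nat.succ_ne_zero k)
    have b2 : ∀ v, M.j (Ds n) (M.VF (Ds n) v) = M.VG (Ds n) (M.j (Ds n) v) :=
      M.inc_V _ _ _ _ (g1 n).admF (g1 n).admG (g1 n).le_DG (g1 n).kG_le
    have b3 := congrArg (fun T : E →L[ℂ] E => T (M.j (Ds n) (x (n, k + 1))))
      (Th_su_comm (g1 n) k).eq
    rw [map_smul, cc, cc, if_pos hk', if_pos hk', hVK, b1, b2]
    congr 1
  have a8 : ∀ n x, M.head Ds n (M.VK Ds x) = M.VG (Ds n) (M.head Ds n x) := by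
    intro n x
    induction n with
    | zero => exact a7 0 x
    | succ n ih =>
      change M.gg Ds n (M.head Ds n (M.VK Ds x)) + M.lift Ds (n + 1) (M.VK Ds x)
        = M.VG (Ds (n + 1)) (M.gg Ds n (M.head Ds n x) + M.lift Ds (n + 1) x)
      rw [ih, (hgg n).2.2.1, a7, map_add]
  refine ⟨Th_lift h3 M Ds, fun n x => Th_sq _ n x, a3, a4, a5, a6, a7, a8, ?_, ?_⟩
  · intro x
    refine (a4 (M.VK Ds x)).unique ?_
    have b1 := (a4 x).mapL M.V
    have b2 : (fun n => M.JG (Ds n) (M.lift Ds n (M.VK Ds x)))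
        = fun n => M.V (M.JG (Ds n) (M.lift Ds n x)) := by
      funext n
      rw [a7]
      exact M.J_V _ _ (g1 n).admG _
    rw [b2]
    exact b1
  · intro n k v
    refine (a4 _).unique (hasSum_single n ?_)
    intro m hm
    have b1 : ∀ i : ℕ, (lp.single 2 (n, k) v : KS) (m, i) = 0 := by
      intro i
      have b0 : (m, i) ≠ (n, k) := fun h => hm (congrArg Prod.fst h)
      exact lp.single_apply_ne (E := fun _ : ℕ × ℕ => E) 2 (n, k) v b0
    have b2 : cc (Ds m) m (lp.single 2 (n, k) v) = fun _ => 0 := by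
      funext i
      rw [cc, b1, ite_self]
    rw [Th_lift h3, b1, b2]
    simp [Model.lev]

end Pool.Agent.IS
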