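import Pool.Agent.P.MP_f981b0_an.IS.Glob

/-! The diagonal operators on the big space. -/

set_option autoImplicit false

open Polynomial Finset Filter Topology
open scoped Nat Real

noncomputable section

namespace Pool.Agent.IS

theorem VK_pow (h3 : S_Dg) (A : ℕ × ℕ → E →L[ℂ] E) (C : ℝ) (hC : 0 ≤ C) (hA : ∀ i, ‖A i‖ ≤ C)
    (l : ℕ) (x : KS) (i : ℕ × ℕ) : (dg A ^ l) x i = (A i ^ l) (x i) := by
  induction l with
  | zero => simp
  | succ l ih =>
    rw [pow_succ', pow_succ']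
    change dg A ((dg A ^ l) x) i = A i ((A i ^ l) (x i))
    rw [(h3.1 A C hC hA).1, ih]

theorem VK_norm_of (h3 : S_Dg) (T : KS →L[ℂ] KS) (A : ℕ × ℕ → E →L[ℂ] E) (C : ℝ) (hC : 0 ≤ C)
    (hA : ∀ i, ‖A i‖ ≤ C) (hT : ∀ (x : KS) (i : ℕ × ℕ), T x i = A i (x i)) : ‖T‖ ≤ C := by
  have e : T = dg A := by
    refine ContinuousLinearMap.ext fun x => lp.ext (funext fun i => ?_)
    rw [hT, (h3.1 A C hC hA).1]
  rw [e]
  exact (h3.1 A C hC hA).2

theorem VK_re (T : KS →L[ℂ] KS) (A : ℕ × ℕ → E →L[ℂ] E)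
    (hT : ∀ (x : KS) (i : ℕ × ℕ), T x i = A i (x i))
    (hA : ∀ i (v : E), 0 ≤ (inner ℂ v (A i v)).re) (x : KS) : 0 ≤ (inner ℂ x (T x)).re := by
  have h := Complex.hasSum_re (lp.hasSum_inner (𝕜 := ℂ) x (T x))
  refine h.nonneg fun i => ?_
  rw [hT]
  exact hA i _

theorem VK_kap_anti {D D' : ℕ} (h0 : 0 < D) (h : D ≤ D') : kap D' ≤ kap D := by
  unfold kap
  exact div_le_div_of_nonneg_left (by norm_num) (by exact_mod_cast h0) (by exact_mod_cast h)

theorem VK_kap_nonneg (D : ℕ) : 0 ≤ kap D := by unfold kap; positivity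

theorem VK_n1 {D : ℕ} (h : Big D) : 3 * (n1 D : ℝ) ≤ ZZ D := by
  have h1 : 2 ≤ n1 D := by
    unfold n1
    have := h.1
    have h2 : 1 ≤ 2 ^ (20 * D) := Nat.one_le_two_pow
    nlinarith
  have h2 : (2 : ℝ) ≤ n1 D := by exact_mod_cast h1
  unfold ZZ
  generalize (n1 D : ℝ) = x at h2
  nlinarith [mul_nonneg (sub_nonneg.2 h2) (sub_nonneg.2 h2), mul_nonneg (sub_nonneg.2 h2)
    (mul_nonneg (sub_nonneg.2 h2) (sub_nonneg.2 h2))]

theorem p_VK (h1 : S_Res) (h2 : S_G1) (h3 : S_Dg) (h4 : S_Good) : S_VK := by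
  intro M Ds hG
  obtain ⟨hB, hmono, -⟩ := h4 M Ds hG
  have hVc : ∀ i, ‖M.Vc Ds i‖ ≤ 1 := fun i => by
    unfold Model.Vc
    split_ifs
    · exact (h2 M _ (hB _)).VG_norm
    · exact (h2 M _ (hB _)).VF_norm
  have hsub : ∀ i : ℕ × ℕ, ‖M.Vc Ds i - M.V‖ ≤ kap (Ds i.1) := fun i => by
    have g := h2 M _ (hB i.1)
    unfold Model.Vc
    split_ifs
    · exact (M.VS_sub _ _ g.admG).trans g.kG_le
    · exact M.VS_sub _ _ g.admF
  have hpos : ∀ n, 0 < Ds n := fun n => by have := (hB n).1; omega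
  refine ⟨(h3.1 _ 1 zero_le_one hVc).1, (h3.1 _ 1 zero_le_one hVc).2, fun n => ?_⟩
  set At : ℕ × ℕ → E →L[ℂ] E := fun i => if n < i.1 then M.Vc Ds i else 0 with hAt
  set A0 : ℕ × ℕ → E →L[ℂ] E := fun i => if n < i.1 then M.V else 0 with hA0
  have hT : M.tailA Ds n = dg At := rfl
  have nAt : ∀ i, ‖At i‖ ≤ 1 := fun i => by
    simp only [hAt]
    split_ifs
    · exact hVc i
    · simp
  have nA0 : ∀ i, ‖A0 i‖ ≤ 1 := fun i => by
    simp only [hA0]
    split_ifs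
    · exact M.V_norm.trans (by norm_num)
    · simp
  have pA0 : ∀ l : ℕ, ‖dg A0 ^ l‖ ≤ 1 / (l ! : ℝ) := fun l => by
    refine VK_norm_of h3 _ (fun i => A0 i ^ l) _ (by positivity) (fun i => ?_)
      (VK_pow h3 A0 1 zero_le_one nA0 l)
    simp only [hA0]
    split_ifs
    · exact M.V_pow l
    · rcases Nat.eq_zero_or_pos l with rfl | hl
      · rw [pow_zero, Nat.factorial_zero, Nat.cast_one, div_one]
        exact ContinuousLinearMap.norm_id_le
      · rw [zero_pow hl.ne', norm_zero]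
        positivity
  have dA : ‖dg At - dg A0‖ ≤ kap (Ds (n + 1)) := by
    refine VK_norm_of h3 _ (fun i => At i - A0 i) _ (VK_kap_nonneg _) (fun i => ?_) fun x i => ?_
    · simp only [hAt, hA0]
      split_ifs with hi
      · exact (hsub i).trans (VK_kap_anti (hpos _) (hmono.monotone hi))
      · simpa using VK_kap_nonneg _
    · rw [sub_apply, sub_apply, lp.coeFn_sub, Pi.sub_apply,
        (h3.1 _ 1 zero_le_one nAt).1, (h3.1 _ 1 zero_le_one nA0).1]
  have key : ∀ N, N ≤ n → Sm (dg At) (ZZ (Ds N)) ∧ ∀ b : ℂ[X],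
      (∀ l, ‖b.coeff l‖ ≤ ZZ (Ds N) ^ l) → ‖aeval (dg At) b‖ ≤ 2 * Real.exp (ZZ (Ds N)) := by
    intro N hN
    have hZ : 0 ≤ ZZ (Ds N) := by unfold ZZ; positivity
    have hk : kap (Ds (n + 1)) ≤ kap (Ds (N + 1)) :=
      VK_kap_anti (hpos _) (hmono.monotone (by omega))
    have := h1.2.2 KS (dg At) (dg A0) (kap (Ds (N + 1))) (ZZ (Ds N)) pA0 (dA.trans hk) hZ
      (hG.2 N).2.2.2.2.1
    exact ⟨this.1, this.2.2⟩
  rw [hT]
  refine ⟨(h3.1 _ 1 zero_le_one nAt).2, ?_, fun v => ?_, fun l x => ?_,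
    fun N hN => (key N hN).2⟩
  · refine Summable.of_nonneg_of_le (fun l => by positivity) (fun l => ?_) (key n le_rfl).1
    exact mul_le_mul_of_nonneg_right (pow_le_pow_left₀ (by positivity) (VK_n1 (hB n)) l)
      (norm_nonneg _)
  · have r0 : 0 ≤ (inner ℂ v (dg A0 v)).re := by
      refine VK_re _ A0 (h3.1 _ 1 zero_le_one nA0).1 (fun i w => ?_) v
      simp only [hA0]
      split_ifs
      · have := M.accr w
        nlinarith [sq_nonneg ‖inner ℂ M.one w‖]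
      · simp
    have hk : ‖dg At - dg A0‖ ≤ kG (Ds n) := dA.trans (hG.2 n).2.2.2.1
    have r1 : ‖inner ℂ v ((dg At - dg A0) v)‖ ≤ ‖v‖ * (kG (Ds n) * ‖v‖) :=
      (norm_inner_le_norm _ _).trans
        (mul_le_mul_of_nonneg_left ((dg At - dg A0).le_of_opNorm_le hk v) (norm_nonneg _))
    have r2 := (abs_le.1 ((Complex.abs_re_le_norm _).trans r1)).1
    rw [sub_apply, inner_sub_right, Complex.sub_re] at r2
    nlinarith
  · have nP : ∀ i : ℕ × ℕ, ‖(if n < i.1 then 1 else 0 : E →L[ℂ] E)‖ ≤ 1 := fun i => by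
      split_ifs
      · exact ContinuousLinearMap.norm_id_le
      · simp
    have eP : ∀ (z : KS) (i : ℕ × ℕ), tailP n z i = (if n < i.1 then 1 else 0 : E →L[ℂ] E) (z i) :=
      (h3.1 _ 1 zero_le_one nP).1
    refine lp.ext (funext fun i => ?_)
    rw [VK_pow h3 At 1 zero_le_one nAt, eP, eP, Model.VK, VK_pow h3 _ 1 zero_le_one hVc]
    simp only [hAt]
    split_ifs
    · rfl
    · rw [zero_apply, zero_apply, map_zero]

end Pool.Agent.IS
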