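import Pool.Agent.P.MP_f981b0_an.IS.Glob

/-! A zero pair gives the level hypotheses at all high levels. -/

set_option autoImplicit false

open Polynomial Finset Filter Topology
open scoped Nat Real

noncomputable section

namespace Pool.Agent.IS

theorem p_XH (h1 : S_G1) (h2 : S_Dg) (h3 : S_Good) (h4 : S_Th) : S_XH := by
  intro M Ds x hG hx hT
  obtain ⟨hbig, -, hge, hinc, -⟩ := h3 M Ds hG
  obtain ⟨t1, t2, -, t4, t5, t6, -⟩ := h4 M Ds hG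
  have hpos : 0 < ‖M.Th Ds x‖ := norm_pos_iff.2 hT
  have hlim : Tendsto (fun n => ‖M.JG (Ds n) (M.head Ds n x)‖) atTop (𝓝 ‖M.Th Ds x‖) := by
    have := ((t4 x).tendsto_sum_nat.comp (tendsto_add_atTop_nat 1)).norm
    refine this.congr fun n => ?_
    rw [t5]
    rfl
  have hev : ∀ᶠ n in atTop, ‖M.Th Ds x‖ / 2 ≤ ‖M.JG (Ds n) (M.head Ds n x)‖ :=
    hlim.eventually_const_le (by linarith)
  obtain ⟨N1, hN1⟩ := eventually_atTop.1 hev
  obtain ⟨N2, hN2⟩ := exists_nat_ge (2 / ‖M.Th Ds x‖)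
  refine ⟨max N1 N2, fun n hn => ?_⟩
  have g1 := h1 M _ (hbig (n + 1))
  have hmu : mu (Ds n) ≤ Ds (n + 1) := (hG.2 n).2.2.2.2.2.1
  have hmu0 : 0 ≤ mu (Ds n) := by unfold mu; positivity
  have hg8 : ‖M.g8 Ds n (M.head Ds n x)‖ ≤ Ds (n + 1) := by
    calc _ ≤ 1 * ‖M.head Ds n x‖ := (M.g8 Ds n).le_of_opNorm_le (hinc n).2.1 _
      _ ≤ mu (Ds n) * ‖x‖ := by rw [one_mul]; exact t6 n x
      _ ≤ mu (Ds n) * 1 := mul_le_mul_of_nonneg_left hx hmu0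
      _ ≤ _ := by rwa [mul_one]
  have hi8 : ‖M.i8 (Ds (n + 1))‖ ≤ 1 :=
    M.inc_norm _ _ _ _ g1.adm8 g1.admF (Nat.div_le_self _ _) le_rfl
  refine ⟨⟨?_, t2 _ _, ?_, Real.sqrt_nonneg _, ((h2.2.2.2.2.2 _ _ 0 x).1).trans hx, ?_, ?_⟩,
    hg8, (lp.norm_apply_le_norm (by norm_num) x _).trans hx, ?_⟩
  · calc _ ≤ 1 * ‖M.g8 Ds n (M.head Ds n x)‖ := (M.i8 _).le_of_opNorm_le hi8 _
      _ ≤ _ := by rwa [one_mul]
  · intro k hk
    simp [cc, not_le.2 hk]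
  · rw [(hinc n).2.2.2.2.2.2]
    exact hN1 n (le_of_max_le_left hn)
  · have h5 : (N2 : ℝ) ≤ Ds (n + 1) := by
      exact_mod_cast (le_of_max_le_right hn).trans ((Nat.le_succ n).trans (hge (n + 1)))
    have h6 : 2 / ‖M.Th Ds x‖ ≤ Ds (n + 1) := hN2.trans h5
    have h7 : (0 : ℝ) < Ds (n + 1) := lt_of_lt_of_le (by positivity) h6
    rw [div_le_iff₀ hpos] at h6
    rw [div_le_div_iff₀ h7 (by norm_num)]
    linarith
  · have : M.head Ds (n + 1) x = M.gg Ds n (M.head Ds n x) + M.lift Ds (n + 1) x := rfl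
    rw [this, t1, Model.xp, add_assoc]
    rfl

end Pool.Agent.IS
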