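import Pool.Agent.P.MP_f981b0_an.IS.Stmt

/-!
The consequences (Y1) (Y2) (Y3) of the hypotheses on the functional.
-/

set_option autoImplicit false

open Polynomial Finset Filter Topology
open scoped Nat Real

noncomputable section

namespace Pool.Agent.IS

theorem Y3_comp (y : E →L[ℂ] ℂ) (A j : E →L[ℂ] E) (hj : ‖j‖ ≤ 1) :
    ‖y ∘L A ∘L j‖ ≤ ‖y‖ * ‖A‖ :=
  calc _ ≤ ‖y‖ * ‖A ∘L j‖ := ContinuousLinearMap.opNorm_comp_le _ _
    _ ≤ ‖y‖ * (‖A‖ * ‖j‖) := by gcongr; exact ContinuousLinearMap.opNorm_comp_le _ _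
    _ ≤ ‖y‖ * (‖A‖ * 1) := by gcongr
    _ = _ := by rw [mul_one]

theorem Y3_pow {A : E →L[ℂ] E} {c : ℝ} (h : ‖A‖ ≤ c) (n : ℕ) : ‖A ^ n‖ ≤ c ^ n := by
  induction n with
  | zero => rw [pow_zero, pow_zero]; exact ContinuousLinearMap.norm_id_le
  | succ n ih =>
    rw [pow_succ, pow_succ]
    exact (norm_mul_le _ _).trans
      (mul_le_mul ih h (norm_nonneg _) (pow_nonneg ((norm_nonneg _).trans h) _))

theorem Y3_tel (y : E →L[ℂ] ℂ) (u j : E →L[ℂ] E) (k k' : ℕ) (h : k ≤ k') :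
    ‖y ∘L (u ^ k - u ^ k') ∘L j‖ ≤ ∑ i ∈ Ico k k', ‖y ∘L ((1 - u) * u ^ i) ∘L j‖ := by
  induction k', h using Nat.le_induction with
  | base => simp
  | succ n hn ih =>
    rw [sum_Ico_succ_top hn]
    have h1 : u ^ k - u ^ (n + 1) = (u ^ k - u ^ n) + (1 - u) * u ^ n := by
      rw [sub_mul, one_mul, ← pow_succ']
      abel
    rw [h1, ContinuousLinearMap.add_comp, ContinuousLinearMap.comp_add]
    exact (norm_add_le _ _).trans (by gcongr)

theorem Y3_cs (f : ℕ → ℝ) (s : Finset ℕ) (c r : ℝ) (hc : 0 ≤ c) (hr : 0 ≤ r)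
    (h : ∑ i ∈ s, f i ^ 2 ≤ c ^ 2) (hs : (s.card : ℝ) ≤ r ^ 2) : ∑ i ∈ s, f i ≤ c * r := by
  refine le_trans (le_abs_self _) (abs_le_of_sq_le_sq ?_ (by positivity))
  calc _ ≤ (s.card : ℝ) * ∑ i ∈ s, f i ^ 2 := sq_sum_le_card_mul_sum_sq
    _ ≤ r ^ 2 * c ^ 2 := by gcongr
    _ = _ := by ring

theorem Y3_num (D : ℕ) (hD : 1 ≤ D) (i : ℕ) :
    2 * mu D * (8 ^ N0 D / 8 ^ (aa D * (KK D + 1 + i))) ≤ del D * (1 / 2) ^ i := by
  have h1 : 64 * D ≤ n1 D := Nat.le_mul_of_pos_right _ (by positivity)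
  have h2 : aa D * KK D = 128 * n1 D := by unfold aa KK n1; ring
  have h3 : i ≤ aa D * (1 + i) := by unfold aa; nlinarith
  have h4 : aa D * (KK D + 1 + i) = 128 * n1 D + aa D * (1 + i) := by rw [← h2]; ring
  have h5 : (2 : ℝ) ^ (1 + n1 D + 3 * N0 D + 7 * D + i) ≤ 2 ^ (3 * (aa D * (KK D + 1 + i))) :=
    pow_le_pow_right₀ (by norm_num) (by unfold N0; omega)
  have h8 : ∀ n : ℕ, (8 : ℝ) ^ n = 2 ^ (3 * n) := fun n => by rw [pow_mul]; norm_num
  have h6 : del D * (1 / 2) ^ i = 1 / (2 ^ (7 * D) * 2 ^ i) := by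
    unfold del th
    rw [← pow_mul, mul_comm D 7, one_div_pow, one_div_pow, div_mul_div_comm, one_mul]
  rw [h6, h8, h8, ← mul_div_assoc, div_le_div_iff₀ (by positivity) (by positivity), one_mul]
  refine le_trans (le_of_eq ?_) h5
  unfold mu
  simp only [pow_add]
  ring

theorem Y3_fin (D : ℕ) (hD : Big D) :
    13 / th D ^ 3 * 2 ^ aa D * (2 * (n1 D : ℝ)) ^ aa D ≤ Real.exp (Lam D - 100 * D) := by
  have h0 := hD.1
  have h1 : 64 * D ≤ 2 ^ (D + 6) := by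
    rw [pow_add]
    have := (Nat.lt_two_pow_self (n := D)).le
    omega
  have h2 : (n1 D : ℝ) ≤ 2 ^ (D + 6 + 20 * D) := by
    rw [pow_add]
    exact_mod_cast Nat.mul_le_mul_right _ h1
  have h3 : 13 / th D ^ 3 ≤ 2 ^ (4 + 3 * D) := by
    unfold th
    rw [← pow_mul, one_div_pow, div_div_eq_mul_div, div_one, pow_add, mul_comm D 3]
    gcongr
    norm_num
  have h4 : (2 : ℝ) ≤ Real.exp 1 := by have := Real.add_one_le_exp 1; linarith
  calc _ ≤ 2 ^ (4 + 3 * D) * 2 ^ aa D * (2 * (2 : ℝ) ^ (D + 6 + 20 * D)) ^ aa D := by gcongr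
    _ = 2 ^ (4 + 3 * D + aa D + (D + 6 + 20 * D + 1) * aa D) := by
      rw [← pow_succ', ← pow_mul, ← pow_add, ← pow_add]
    _ ≤ Real.exp 1 ^ (4 + 3 * D + aa D + (D + 6 + 20 * D + 1) * aa D) := by gcongr
    _ ≤ _ := by
      rw [← Real.exp_nat_mul, mul_one]
      refine Real.exp_le_exp.2 ?_
      have h5 : (65536 : ℝ) ≤ D := by exact_mod_cast h0
      unfold aa Lam
      push_cast
      nlinarith

/-- Bound for all powers of `W` from the bound for the powers of `W ^ a`. -/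
theorem Y3_W (y : E →L[ℂ] ℂ) (W V V' j : E →L[ℂ] E) (a n : ℕ) (C : ℝ) (hn : 1 ≤ n)
    (hc : Commute W V) (he : (1 - W) * V = ((n : ℂ)⁻¹) • W) (hV : ‖V'‖ ≤ 1)
    (hj : ∀ v, j (V' v) = V (j v)) (ha : 0 < a)
    (hC : ∀ k : ℕ, ‖y ∘L ((W ^ a) ^ k) ∘L j‖ ≤ C) (N : ℕ) :
    ‖y ∘L (W ^ N) ∘L j‖ ≤ C * 2 ^ a * (2 * (n : ℝ)) ^ a := by
  have hn0 : (n : ℂ) ≠ 0 := by exact_mod_cast (by omega : n ≠ 0)
  have hC0 : 0 ≤ C := (norm_nonneg _).trans (hC 0)
  obtain ⟨R, hR⟩ : ∃ R : E →L[ℂ] E, R = V + ((n : ℂ)⁻¹) • 1 := ⟨_, rfl⟩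
  obtain ⟨R', hR'⟩ : ∃ R' : E →L[ℂ] E, R' = V' + ((n : ℂ)⁻¹) • 1 := ⟨_, rfl⟩
  have hWR : W * R = V := by
    rw [hR, mul_add, mul_smul_comm, mul_one, ← he, sub_mul, one_mul]
    abel
  have hcR : Commute W R := by
    rw [hR]
    exact hc.add_right ((Commute.one_right W).smul_right _)
  have hR2 : ‖R'‖ ≤ 2 := by
    have h1 : ‖((n : ℂ)⁻¹)‖ ≤ 1 := by
      rw [norm_inv, Complex.norm_natCast]
      exact inv_le_one_of_one_le₀ (by exact_mod_cast hn)
    have h2 : ‖(1 : E →L[ℂ] E)‖ ≤ 1 := ContinuousLinearMap.norm_id_le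
    have h3 := norm_smul_le ((n : ℂ)⁻¹) (1 : E →L[ℂ] E)
    have h4 := mul_le_one₀ h1 (norm_nonneg _) h2
    rw [hR']
    exact (norm_add_le _ _).trans (by linarith)
  have hjV : V * j = j * V' := by ext1 v; exact (hj v).symm
  have hjR : R * j = j * R' := by
    rw [hR, hR', add_mul, mul_add, hjV, smul_mul_assoc, mul_smul_comm, one_mul, mul_one]
  have hp : ∀ A A' : E →L[ℂ] E, A * j = j * A' → ∀ s : ℕ, A ^ s * j = j * A' ^ s :=
    fun A A' h s => (SemiconjBy.pow_right (show SemiconjBy j A' A from h.symm) s).symm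
  have key : ∀ m r : ℕ, r + m = a → ∀ N : ℕ,
      ‖y ∘L (W ^ N * R ^ r) ∘L j‖ ≤ C * 2 ^ a * (2 * (n : ℝ)) ^ m := by
    intro m
    induction m with
    | zero =>
      intro r hr N
      obtain ⟨s, hs⟩ := Nat.exists_eq_add_of_le (Nat.mod_lt N ha).le
      have h1 : W ^ N * R ^ r = (W ^ a) ^ (N / a) * (V ^ (N % a) * R ^ s) := by
        rw [← hWR, hcR.mul_pow, ← pow_mul, mul_assoc, ← pow_add, ← hs, ← mul_assoc, ← pow_add,
          Nat.div_add_mod, ← hr, add_zero]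
      have h2 : y ∘L (W ^ N * R ^ r) ∘L j =
          (y ∘L ((W ^ a) ^ (N / a)) ∘L j) ∘L (V' ^ (N % a) * R' ^ s) := by
        have h3 : (W ^ N * R ^ r) * j = (W ^ a) ^ (N / a) * j * (V' ^ (N % a) * R' ^ s) := by
          rw [h1, mul_assoc, mul_assoc, hp _ _ hjR, ← mul_assoc (V ^ _), hp _ _ hjV, mul_assoc,
            mul_assoc]
        exact congrArg (fun A : E →L[ℂ] E => y ∘L A) h3
      have h4 : ‖V' ^ (N % a) * R' ^ s‖ ≤ 2 ^ a :=
        calc _ ≤ ‖V' ^ (N % a)‖ * ‖R' ^ s‖ := norm_mul_le _ _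
          _ ≤ 1 ^ (N % a) * 2 ^ s :=
            mul_le_mul (Y3_pow hV _) (Y3_pow hR2 _) (norm_nonneg _) (by positivity)
          _ ≤ 2 ^ a := by
            rw [one_pow, one_mul]
            exact pow_le_pow_right₀ (by norm_num) (by omega)
      rw [h2, pow_zero, mul_one]
      exact (ContinuousLinearMap.opNorm_comp_le _ _).trans
        (mul_le_mul (hC _) h4 (norm_nonneg _) hC0)
    | succ m ih =>
      intro r hr N
      have h0 : R - W * R = ((n : ℂ)⁻¹) • 1 := by rw [hWR, hR]; abel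
      have h1 : W ^ N * R ^ r =
          (n : ℂ) • (W ^ N * R ^ (r + 1) - W ^ (N + 1) * R ^ (r + 1)) := by
        rw [pow_succ W, pow_succ' R, mul_assoc, ← mul_sub, ← mul_assoc W, ← sub_mul, h0,
          smul_mul_assoc, mul_smul_comm, one_mul, smul_smul, mul_inv_cancel₀ hn0, one_smul]
      have h2 := ih (r + 1) (by omega) N
      have h3 := ih (r + 1) (by omega) (N + 1)
      rw [h1, ContinuousLinearMap.smul_comp, ContinuousLinearMap.comp_smul, norm_smul,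
        ContinuousLinearMap.sub_comp, ContinuousLinearMap.comp_sub, Complex.norm_natCast]
      calc _ ≤ (n : ℝ) * (C * 2 ^ a * (2 * (n : ℝ)) ^ m + C * 2 ^ a * (2 * (n : ℝ)) ^ m) := by
            gcongr
            exact (norm_sub_le _ _).trans (add_le_add h2 h3)
        _ = _ := by ring
  simpa using key a 0 (zero_add a) N

theorem p_Y3 (h1 : S_G1) : S_Y3 := by
  intro M D y e' hD hy
  have hG := h1 M D hD
  have hD1 : 1 ≤ D := by have := hD.1; omega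
  have hj : ‖M.j D‖ ≤ 1 := M.inc_norm _ _ _ _ hG.admF hG.admG hG.le_DG hG.kG_le
  have hdel : 0 < del D := pow_pos (th_pos D) _
  have hmu : 0 ≤ mu D := (norm_nonneg _).trans hy.norm
  have hth : th D ≤ 1 := pow_le_one₀ (by norm_num) (by norm_num)
  have hth0 := th_pos D
  have hu : ‖M.u D‖ ≤ 1 := (Y3_pow hG.W_norm (aa D)).trans (one_pow _).le
  have hup : ∀ k, ‖M.u D ^ k‖ ≤ 8 ^ N0 D / 8 ^ (aa D * k) := fun k => by
    rw [Model.u, ← pow_mul]
    exact hG.W_pow _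
  have htail : ∀ i, ‖y ∘L M.su D (KK D + 1 + i) ∘L M.j D‖ ≤ del D * (1 / 2) ^ i := fun i => by
    have h2 : ‖(1 : E →L[ℂ] E) - M.u D‖ ≤ 2 := by
      have h3 : ‖(1 : E →L[ℂ] E)‖ ≤ 1 := ContinuousLinearMap.norm_id_le
      exact (norm_sub_le _ _).trans (by linarith)
    refine (Y3_comp _ _ _ hj).trans (le_trans ?_ (Y3_num D hD1 i))
    calc _ ≤ mu D * (2 * (8 ^ N0 D / 8 ^ (aa D * (KK D + 1 + i)))) :=
          mul_le_mul hy.norm ((norm_mul_le _ _).trans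
            (mul_le_mul h2 (hup _) (norm_nonneg _) (by norm_num))) (norm_nonneg _) hmu
      _ = _ := by ring
  have htail2 : ∀ i, ‖y ∘L M.su D (i + (KK D + 1)) ∘L M.j D‖ ^ 2 ≤ del D ^ 2 * (1 / 2) ^ i :=
    fun i => by
      rw [add_comm i]
      have h2 : ((1 : ℝ) / 2) ^ i ≤ 1 := pow_le_one₀ (by norm_num) (by norm_num)
      calc _ ≤ (del D * (1 / 2) ^ i) ^ 2 := by gcongr; exact htail i
        _ = del D ^ 2 * (1 / 2) ^ i * (1 / 2) ^ i := by ring
        _ ≤ del D ^ 2 * (1 / 2) ^ i * 1 := by gcongr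
        _ = _ := mul_one _
  have hgeo : HasSum (fun i : ℕ => del D ^ 2 * (1 / 2) ^ i) (del D ^ 2 * 2) :=
    hasSum_geometric_two.mul_left _
  have hs1 : Summable fun i => ‖y ∘L M.su D (i + (KK D + 1)) ∘L M.j D‖ ^ 2 :=
    Summable.of_nonneg_of_le (fun _ => by positivity) htail2 hgeo.summable
  have hsm : Summable fun k : ℕ => ‖y ∘L M.su D k ∘L M.j D‖ ^ 2 :=
    (summable_nat_add_iff (KK D + 1)).1 hs1
  have hhead : ∑ k ∈ range (KK D + 1), ‖y ∘L M.su D k ∘L M.j D‖ ^ 2 ≤ del D ^ 2 := by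
    have h2 := hy.e0
    have h3 := hy.e1
    calc _ ≤ (del D * e') ^ 2 := hy.sq
      _ ≤ (del D * 1) ^ 2 := by gcongr
      _ = _ := by rw [mul_one]
  have hsq : ∑' k : ℕ, ‖y ∘L M.su D k ∘L M.j D‖ ^ 2 ≤ (2 * del D) ^ 2 := by
    rw [← hsm.sum_add_tsum_nat_add (KK D + 1)]
    have h2 := hs1.tsum_le_tsum htail2 hgeo.summable
    rw [hgeo.tsum_eq] at h2
    nlinarith [sq_nonneg (del D)]
  have hbig : ∀ i, ‖y ∘L (M.u D ^ (KK D + 1 + i)) ∘L M.j D‖ ≤ 1 / th D ^ 3 := fun i => by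
    have h2 : ((1 : ℝ) / 2) ^ i ≤ 1 := pow_le_one₀ (by norm_num) (by norm_num)
    have h3 : del D ≤ 1 := pow_le_one₀ hth0.le hth
    have h4 : (1 : ℝ) ≤ 1 / th D ^ 3 :=
      one_le_one_div (by positivity) (pow_le_one₀ hth0.le hth)
    have h5 := Y3_num D hD1 i
    have h6 := mul_le_mul hy.norm (hup (KK D + 1 + i)) (norm_nonneg _) hmu
    have h7 := mul_le_one₀ h3 (by positivity) h2
    have h8 := mul_nonneg (norm_nonneg y) (norm_nonneg (M.u D ^ (KK D + 1 + i)))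
    refine (Y3_comp _ _ _ hj).trans ?_
    linarith
  have hU : ∀ k : ℕ, ‖y ∘L (M.u D ^ k) ∘L M.j D‖ ≤ 13 / th D ^ 3 := fun k => by
    have h0 : 0 < 1 / th D ^ 3 := by positivity
    have h13 : 13 / th D ^ 3 = 13 * (1 / th D ^ 3) := by ring
    rcases le_total (KK D + 1) k with h | h
    · obtain ⟨i, rfl⟩ := Nat.exists_eq_add_of_le h
      linarith [hbig i]
    · have h2 := Y3_tel y (M.u D) (M.j D) k _ h
      have h3 : ∑ i ∈ Ico k (KK D + 1), ‖y ∘L M.su D i ∘L M.j D‖ ≤ del D * (12 / th D ^ 10) := by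
        refine Y3_cs _ _ _ _ hdel.le (by positivity) (le_trans ?_ hhead) ?_
        · exact sum_le_sum_of_subset_of_nonneg
            (fun i hi => mem_range.2 (mem_Ico.1 hi).2) (fun _ _ _ => by positivity)
        · have h4 : (Ico k (KK D + 1)).card ≤ 144 * 2 ^ (20 * D) := by
            have : 0 < 2 ^ (20 * D) := by positivity
            rw [Nat.card_Ico, KK]
            omega
          have h5 : ((2 : ℝ) ^ D) = 1 / th D := by
            rw [eq_div_iff hth0.ne', th_inv]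
          calc _ ≤ ((144 * 2 ^ (20 * D) : ℕ) : ℝ) := by exact_mod_cast h4
            _ = _ := by
              push_cast
              rw [mul_comm 20 D, pow_mul, h5]
              field_simp
              norm_num
      have h4 : del D * (12 / th D ^ 10) = 12 * (1 / th D ^ 3) := by
        unfold del
        field_simp
      have h5 : y ∘L (M.u D ^ k) ∘L M.j D = y ∘L (M.u D ^ k - M.u D ^ (KK D + 1)) ∘L M.j D +
          y ∘L (M.u D ^ (KK D + 1 + 0)) ∘L M.j D := by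
        rw [← ContinuousLinearMap.comp_add, ← ContinuousLinearMap.add_comp, add_zero,
          sub_add_cancel]
      rw [h5]
      refine (norm_add_le _ _).trans ?_
      have h6 := hbig 0
      have h7 := h2.trans h3
      linarith
  refine ⟨hsm, hsq, hU, fun k k' h => ?_, fun N => ?_⟩
  · refine (Y3_tel y (M.u D) (M.j D) k k' h).trans ?_
    refine Y3_cs (fun i => ‖y ∘L M.su D i ∘L M.j D‖) _ _ _ (by positivity) (Real.sqrt_nonneg _)
      ((hsm.sum_le_tsum _ fun _ _ => by positivity).trans hsq) ?_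
    have h2 : (k : ℝ) ≤ k' := by exact_mod_cast h
    rw [Real.sq_sqrt (by linarith), Nat.card_Ico, Nat.cast_sub h]
  · refine le_trans ?_ (Y3_fin D hD)
    refine Y3_W y (M.W D) (M.VG D) (M.VF D) (M.j D) (aa D) (n1 D) _ ?_ hG.W_comm hG.W_eq hG.VF_norm
      (M.inc_V _ _ _ _ hG.admF hG.admG hG.le_DG hG.kG_le) (by unfold aa; omega) hU N
    exact Nat.mul_pos (by omega) (by positivity)

end Pool.Agent.IS
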