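import Pool.Agent.P.MP_f981b0_an.IS.Stmt

/-! The generating function `yh`: bound, analyticity, resolvent formula. -/

set_option autoImplicit false

open Polynomial Finset Filter Topology
open scoped Nat Real

noncomputable section

namespace Pool.Agent.IS

theorem Yh_pow {M : Model} {D : ℕ} (G : M.G1 D) (N : ℕ) :
    ‖(M.W D ^ N) M.one‖ ≤ 8 ^ N0 D / 8 ^ N := by
  calc _ ≤ ‖M.W D ^ N‖ * ‖M.one‖ := ContinuousLinearMap.le_opNorm _ _
    _ ≤ _ := by rw [M.one_norm, mul_one]; exact G.W_pow N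

theorem Yh_nu2 {M : Model} {D : ℕ} {y : E →L[ℂ] ℂ} (G : M.G1 D) (hy : ‖y‖ ≤ mu D) (N : ℕ) :
    ‖M.nu D y N‖ ≤ mu D * (8 ^ N0 D / 8 ^ N) := by
  calc _ ≤ ‖y‖ * ‖(M.W D ^ N) M.one‖ := ContinuousLinearMap.le_opNorm _ _
    _ ≤ _ := mul_le_mul hy (Yh_pow G N) (norm_nonneg _) ((norm_nonneg _).trans hy)

theorem Yh_d2 {M : Model} {D : ℕ} {y : E →L[ℂ] ℂ} (G : M.G1 D) (hy : ‖y‖ ≤ mu D) (N : ℕ) :
    ‖M.nu D y N - M.nu D y (N + 1)‖ ≤ 2 * mu D * 8 ^ N0 D * (1 / 8) ^ N := by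
  have h1 := Yh_nu2 G hy N
  have h2 := Yh_nu2 G hy (N + 1)
  have hm : 0 ≤ mu D := (norm_nonneg _).trans hy
  have h3 : (8 : ℝ) ^ N0 D / 8 ^ (N + 1) ≤ 8 ^ N0 D / 8 ^ N :=
    div_le_div_of_nonneg_left (by positivity) (by positivity)
      (pow_le_pow_right₀ (by norm_num) (Nat.le_succ N))
  have h4 := mul_le_mul_of_nonneg_left h3 hm
  calc _ ≤ ‖M.nu D y N‖ + ‖M.nu D y (N + 1)‖ := norm_sub_le _ _
    _ ≤ 2 * (mu D * (8 ^ N0 D / 8 ^ N)) := by linarith
    _ = _ := by rw [one_div, inv_pow]; ring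

theorem Yh_nu1 {M : Model} {D : ℕ} {y : E →L[ℂ] ℂ} (G : M.G1 D) (Y : M.Y3 D y) (N : ℕ) :
    ‖M.nu D y N‖ ≤ Real.exp (Lam D - 100 * D) := by
  have h : M.j D M.one = M.one := M.inc_one _ _ _ _ G.admF G.admG G.le_DG G.kG_le
  have e : M.nu D y N = (y ∘L (M.W D ^ N) ∘L M.j D) M.one := by
    simp only [ContinuousLinearMap.comp_apply, h]; rfl
  rw [e]
  calc _ ≤ ‖y ∘L (M.W D ^ N) ∘L M.j D‖ * ‖M.one‖ := ContinuousLinearMap.le_opNorm _ _
    _ ≤ _ := by rw [M.one_norm, mul_one]; exact Y.W N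

theorem Yh_sum {M : Model} {D : ℕ} {y : E →L[ℂ] ℂ} (G : M.G1 D) (hy : ‖y‖ ≤ mu D) {s : ℝ}
    (h0 : 0 ≤ s) (h4 : s ≤ 4) :
    Summable fun N : ℕ => ‖M.nu D y N - M.nu D y (N + 1)‖ * s ^ N := by
  have hm : 0 ≤ mu D := (norm_nonneg _).trans hy
  refine Summable.of_nonneg_of_le (fun N => by positivity) (fun N => ?_)
    (summable_geometric_two.mul_left (2 * mu D * 8 ^ N0 D))
  calc _ ≤ 2 * mu D * 8 ^ N0 D * (1 / 8) ^ N * 4 ^ N :=
        mul_le_mul (Yh_d2 G hy N) (pow_le_pow_left₀ h0 h4 N) (by positivity) (by positivity)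
    _ = 2 * mu D * 8 ^ N0 D * ((1 / 8) * 4) ^ N := by rw [mul_pow]; ring
    _ = _ := by norm_num

theorem Yh_num {D : ℕ} (h : Big D) :
    ((aa D * KK D : ℕ) : ℝ) * (2 * Real.exp (Lam D - 100 * D)) + 4 ≤ Real.exp (Lam D) := by
  have hD := h.1
  have h1 : aa D * KK D * 4 ≤ 2 ^ (100 * D) := by
    have a1 : D ≤ 2 ^ D := Nat.lt_two_pow_self.le
    have a2 : 2 ^ 15 ≤ 2 ^ D := Nat.pow_le_pow_right (by norm_num) (by omega)
    calc aa D * KK D * 4 = 2 ^ 15 * D * 2 ^ (20 * D) := by unfold aa KK; ring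
      _ ≤ 2 ^ D * 2 ^ D * 2 ^ (20 * D) := Nat.mul_le_mul_right _ (Nat.mul_le_mul a2 a1)
      _ = 2 ^ (D + D + 20 * D) := by rw [← pow_add, ← pow_add]
      _ ≤ _ := Nat.pow_le_pow_right (by norm_num) (by omega)
  have h2 : ((aa D * KK D : ℕ) : ℝ) * 4 ≤ Real.exp (100 * D) := by
    have a1 : ((aa D * KK D : ℕ) : ℝ) * 4 ≤ 2 ^ (100 * D) := by exact_mod_cast h1
    have a2 : (2 : ℝ) ≤ Real.exp 1 := by linarith [Real.add_one_le_exp (1 : ℝ)]
    calc _ ≤ (2 : ℝ) ^ (100 * D) := a1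
      _ ≤ Real.exp 1 ^ (100 * D) := pow_le_pow_left₀ (by norm_num) a2 _
      _ = _ := by rw [← Real.exp_nat_mul]; push_cast; ring_nf
  have h3 : (8 : ℝ) ≤ Real.exp (Lam D) := by
    have a1 : (65536 : ℝ) ≤ D := by exact_mod_cast hD
    have a2 : (7 : ℝ) ≤ Lam D := by unfold Lam; nlinarith
    linarith [Real.add_one_le_exp (Lam D)]
  have h4 : Real.exp (100 * D) * Real.exp (Lam D - 100 * D) = Real.exp (Lam D) := by
    rw [← Real.exp_add]; ring_nf
  have h5 := mul_le_mul_of_nonneg_right h2 (Real.exp_pos (Lam D - 100 * D)).le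
  rw [h4] at h5
  linarith

theorem Yh_bound {M : Model} {D : ℕ} {y : E →L[ℂ] ℂ} (hD : Big D) (G : M.G1 D) (Y : M.Y3 D y)
    (hy : ‖y‖ ≤ mu D) {s : ℝ} (h0 : 0 ≤ s) (h2 : s ≤ 2) :
    ∑' N : ℕ, ‖M.nu D y N - M.nu D y (N + 1)‖ * s ^ N ≤
      Real.exp (Lam D) * max 1 (s ^ (aa D * KK D)) := by
  have hs := Yh_sum G hy h0 (by linarith : s ≤ 4)
  have hm : 0 ≤ mu D := (norm_nonneg _).trans hy
  have hK : aa D * KK D = N0 D + N0 D := by unfold aa KK N0 n1; ring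
  have hnum := Yh_num hD
  have hmu : mu D * (1 / 8) ^ N0 D ≤ 1 := by
    have a1 : mu D ≤ 8 ^ N0 D := by
      unfold mu N0
      calc (2 : ℝ) ^ n1 D ≤ 8 ^ n1 D := pow_le_pow_left₀ (by norm_num) (by norm_num) _
        _ ≤ _ := pow_le_pow_right₀ (by norm_num) (by omega)
    calc _ ≤ (8 : ℝ) ^ N0 D * (1 / 8) ^ N0 D := mul_le_mul_of_nonneg_right a1 (by positivity)
      _ = 1 := by rw [← mul_pow]; norm_num
  have h8 : (8 : ℝ) ^ N0 D * (1 / 8) ^ N0 D = 1 := by rw [← mul_pow]; norm_num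
  generalize aa D * KK D = P at hK hnum ⊢
  set m : ℝ := max 1 (s ^ P) with hmdef
  have hm1 : 1 ≤ m := le_max_left _ _
  have hmP : s ^ P ≤ m := le_max_right _ _
  rw [← hs.sum_add_tsum_nat_add P]
  have A : ∑ N ∈ range P, ‖M.nu D y N - M.nu D y (N + 1)‖ * s ^ N ≤
      (P : ℝ) * (2 * Real.exp (Lam D - 100 * D)) * m := by
    calc _ ≤ ∑ _N ∈ range P, 2 * Real.exp (Lam D - 100 * D) * m := by
          refine sum_le_sum fun N hN => mul_le_mul ?_ ?_ (by positivity) (by positivity)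
          · linarith [norm_sub_le (M.nu D y N) (M.nu D y (N + 1)), Yh_nu1 G Y N,
              Yh_nu1 G Y (N + 1)]
          · rcases le_total s 1 with h | h
            · exact (pow_le_one₀ h0 h).trans hm1
            · exact (pow_le_pow_right₀ h (mem_range.1 hN).le).trans hmP
      _ = _ := by rw [sum_const, card_range, nsmul_eq_mul]; ring
  have B : ∑' i : ℕ, ‖M.nu D y (i + P) - M.nu D y (i + P + 1)‖ * s ^ (i + P) ≤ 4 * m := by
    have hg : HasSum (fun i : ℕ => 2 * m * (1 / 2 : ℝ) ^ i) (2 * m * 2) :=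
      hasSum_geometric_two.mul_left _
    have hle : ∀ i : ℕ, ‖M.nu D y (i + P) - M.nu D y (i + P + 1)‖ * s ^ (i + P) ≤
        2 * m * (1 / 2 : ℝ) ^ i := by
      intro i
      have a1 : s ^ (i + P) ≤ 4 ^ i * m := by
        rw [pow_add]
        exact mul_le_mul (pow_le_pow_left₀ h0 (by linarith) i) hmP (by positivity) (by positivity)
      have a2 : 2 * mu D * 8 ^ N0 D * (1 / 8 : ℝ) ^ (i + P) ≤ 2 * (1 / 8) ^ i := by
        rw [hK, pow_add, pow_add]
        calc _ = 2 * (1 / 8 : ℝ) ^ i * (mu D * (1 / 8) ^ N0 D) * (8 ^ N0 D * (1 / 8) ^ N0 D) := by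
              ring
          _ ≤ 2 * (1 / 8 : ℝ) ^ i * 1 * 1 := by
              rw [h8]
              exact mul_le_mul_of_nonneg_right (mul_le_mul_of_nonneg_left hmu (by positivity))
                zero_le_one
          _ = _ := by ring
      calc _ ≤ 2 * (1 / 8 : ℝ) ^ i * (4 ^ i * m) :=
            mul_le_mul ((Yh_d2 G hy (i + P)).trans a2) a1 (by positivity) (by positivity)
        _ = 2 * m * ((1 / 8) * 4) ^ i := by rw [mul_pow]; ring
        _ = _ := by norm_num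
    have := ((summable_nat_add_iff P).2 hs).tsum_le_tsum hle hg.summable
    rw [hg.tsum_eq] at this
    linarith
  have C := mul_le_mul_of_nonneg_right hnum (by linarith : 0 ≤ m)
  linarith

theorem Yh_res {M : Model} {D : ℕ} (y : E →L[ℂ] ℂ) (h1 : S_Res) (G : M.G1 D) {t : ℂ} (ht : t ≠ 0)
    (hz : ‖t⁻¹‖ ≤ 3 * (n1 D : ℝ)) (hw : 1 / 2 ≤ ‖wt D t‖) :
    M.yh D y (wt D t) = y (res (M.VG D) t⁻¹ M.one) := by
  obtain ⟨-, -, hR, -, -⟩ := h1.1 E (M.VG D) _ t⁻¹ G.sm hz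
  have hwi : (wt D t)⁻¹ = 1 + t⁻¹ * (n1 D : ℂ)⁻¹ := by
    rw [wt, inv_div, add_div, div_self ht, one_div, div_eq_mul_inv, mul_comm]
  have hw2 : ‖(wt D t)⁻¹‖ ≤ 2 := by
    rw [norm_inv]
    exact (inv_le_comm₀ (by linarith) (by norm_num)).2 (by linarith)
  unfold Model.yh
  generalize (wt D t)⁻¹ = v at hwi hw2 ⊢
  set f : ℕ → E := fun N => v ^ N • (M.W D ^ N) M.one with hf
  have hs : Summable f := by
    refine Summable.of_norm_bounded (summable_geometric_two.mul_left (8 ^ N0 D)) fun N => ?_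
    rw [hf, norm_smul, norm_pow]
    calc _ ≤ (4 : ℝ) ^ N * (8 ^ N0 D / 8 ^ N) :=
          mul_le_mul (pow_le_pow_left₀ (norm_nonneg _) (by linarith) N) (Yh_pow G N)
            (norm_nonneg _) (by positivity)
      _ = 8 ^ N0 D * (4 / 8) ^ N := by rw [div_pow]; ring
      _ = _ := by norm_num
  have hW : ∀ N, M.W D ((M.W D ^ N) M.one) = (M.W D ^ (N + 1)) M.one := fun N => by
    rw [pow_succ']; rfl
  have e1 : ∑' N : ℕ, (M.nu D y N - M.nu D y (N + 1)) * v ^ N = y ((1 - M.W D) (∑' N, f N)) := by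
    have := ((y ∘L (1 - M.W D)).hasSum hs.hasSum).tsum_eq
    rw [ContinuousLinearMap.comp_apply] at this
    rw [← this]
    refine tsum_congr fun N => ?_
    simp only [hf, ContinuousLinearMap.comp_apply, ContinuousLinearMap.sub_apply,
      ContinuousLinearMap.one_apply, map_smul, map_sub, hW, smul_eq_mul, Model.nu]
    ring
  have e2 : (v • M.W D) (∑' N, f N) = ∑' N, f (N + 1) := by
    rw [← ((v • M.W D).hasSum hs.hasSum).tsum_eq]
    refine tsum_congr fun N => ?_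
    simp only [hf, ContinuousLinearMap.smul_apply, map_smul, hW, smul_smul, pow_succ]
  have e3 : (1 - t⁻¹ • M.VG D) * (1 - M.W D) = 1 - v • M.W D := by
    have c : M.VG D * (1 - M.W D) = ((n1 D : ℂ)⁻¹) • M.W D := by
      rw [← G.W_eq, mul_sub, sub_mul, G.W_comm.eq, mul_one, one_mul]
    rw [sub_mul, one_mul, smul_mul_assoc, c, smul_smul, hwi, add_smul, one_smul, sub_sub]
  have e4 : (1 - t⁻¹ • M.VG D) ((1 - M.W D) (∑' N, f N)) = M.one := by
    rw [← ContinuousLinearMap.mul_apply, e3, ContinuousLinearMap.sub_apply, e2,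
      ContinuousLinearMap.one_apply, hs.tsum_eq_zero_add, add_sub_cancel_right]
    simp [hf]
  rw [e1, ← e4, ← ContinuousLinearMap.mul_apply (res (M.VG D) t⁻¹), hR,
    ContinuousLinearMap.one_apply]

theorem p_Yh (h1 : S_Res) (h2 : S_G1) (h3 : S_Y3) : S_Yh := by
  intro M D y e' hD hy
  have G := h2 M D hD
  have Y := h3 M D y e' hD hy
  refine ⟨fun w hw => ?_, ?_, fun r hr => ?_, fun t ht hz _ hw => Yh_res y h1 G ht hz hw⟩
  · have a2 : ‖w‖⁻¹ ≤ 2 := (inv_le_comm₀ (by linarith) (by norm_num)).2 (by linarith)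
    have a0 : 0 ≤ ‖w‖⁻¹ := by positivity
    have hs := Yh_sum G hy.norm a0 (by linarith)
    have e : ∀ N : ℕ, ‖(M.nu D y N - M.nu D y (N + 1)) * w⁻¹ ^ N‖ =
        ‖M.nu D y N - M.nu D y (N + 1)‖ * ‖w‖⁻¹ ^ N := fun N => by
      rw [norm_mul, norm_pow, norm_inv]
    refine le_trans ?_ (Yh_bound hD G Y hy.norm a0 a2)
    exact tsum_of_norm_bounded hs.hasSum fun N => (e N).le
  · refine Complex.differentiableOn_tsum_of_summable_norm
      (Yh_sum G hy.norm (by norm_num : (0 : ℝ) ≤ 4) le_rfl) (fun N w hw => ?_)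
      (isOpen_lt continuous_const continuous_norm) fun N w hw => ?_
    · have hw' : 1 / 4 < ‖w‖ := hw
      have h0 : w ≠ 0 := norm_pos_iff.1 (by linarith)
      exact (((differentiableAt_inv h0).pow N).const_mul _).differentiableWithinAt
    · have hw' : 1 / 4 < ‖w‖ := hw
      rw [norm_mul, norm_pow, norm_inv]
      exact mul_le_mul_of_nonneg_left (pow_le_pow_left₀ (by positivity)
        ((inv_le_comm₀ (by linarith) (by norm_num)).2 (by linarith)) N) (norm_nonneg _)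
  · exact Yh_sum G hy.norm (by positivity)
      ((inv_le_comm₀ (by linarith) (by norm_num)).2 (by linarith))

end Pool.Agent.IS
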