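import Pool.Agent.P.MP_f981b0_an.IS.Glob

/-!
Package `Yn`: the functionals `y_n`.
-/

set_option autoImplicit false

open Polynomial Finset Filter Topology
open scoped Nat Real

noncomputable section

namespace Pool.Agent.IS

theorem Yn_mu_pos (D : ℕ) : 0 < mu D := by unfold mu; positivity

theorem Yn_del_pos (D : ℕ) : 0 < del D := by unfold del; exact pow_pos (th_pos D) _

theorem Yn_apply (D n : ℕ) (et : KS) (v : E) :
    yn D n et v = (mu D : ℂ) * inner ℂ (et (n, 0)) v := by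
  simp [yn]

theorem Yn_norm (D n : ℕ) (et : KS) (h : ‖et‖ ≤ 1) : ‖yn D n et‖ ≤ mu D := by
  refine ContinuousLinearMap.opNorm_le_bound _ (Yn_mu_pos D).le fun v => ?_
  rw [Yn_apply, norm_mul, Complex.norm_real, Real.norm_of_nonneg (Yn_mu_pos D).le]
  refine mul_le_mul_of_nonneg_left ?_ (Yn_mu_pos D).le
  have h1 : ‖et (n, 0)‖ ≤ ‖et‖ := lp.norm_apply_le_norm (by norm_num) et (n, 0)
  calc ‖inner ℂ (et (n, 0)) v‖ ≤ ‖et (n, 0)‖ * ‖v‖ := norm_inner_le_norm _ _
    _ ≤ 1 * ‖v‖ := mul_le_mul_of_nonneg_right (h1.trans h) (norm_nonneg _)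
    _ = ‖v‖ := one_mul _

theorem Yn_lev_zero (M : Model) (D : ℕ) (c : ℕ → E) (h : ∀ k, c k = 0) : M.lev D c = 0 := by
  unfold Model.lev
  refine Finset.sum_eq_zero fun k _ => ?_
  rw [h k, map_zero, map_zero, smul_zero]

theorem Yn_aeval {A B T : E →L[ℂ] E} (h : ∀ v, T (A v) = B (T v)) (g : ℂ[X]) (v : E) :
    T (aeval A g v) = aeval B g (T v) := by
  induction g using Polynomial.induction_on generalizing v with
  | C a => simp [Algebra.algebraMap_eq_smul_one]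
  | add p q hp hq => simp [hp, hq]
  | monomial n a ih =>
    have e1 : (aeval A (C a * X ^ (n + 1)) : E →L[ℂ] E) v = aeval A (C a * X ^ n) (A v) := by
      rw [pow_succ, ← mul_assoc, map_mul, aeval_X]; rfl
    have e2 : (aeval B (C a * X ^ (n + 1)) : E →L[ℂ] E) (T v) =
        aeval B (C a * X ^ n) (B (T v)) := by
      rw [pow_succ, ← mul_assoc, map_mul, aeval_X]; rfl
    rw [e1, e2, ih, h]

theorem Yn_pow_one (M : Model) (A : E →L[ℂ] E) (h : ‖A‖ ≤ 1) (l : ℕ) :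
    ‖(A ^ l) M.one‖ ≤ 1 := by
  induction l with
  | zero => simp [M.one_norm]
  | succ l ih =>
    rw [pow_succ']
    exact (A.le_opNorm _).trans (mul_le_one₀ h (norm_nonneg _) ih)

theorem Yn_th0 (h4 : S_Th) (M : Model) (Ds : ℕ → ℕ) (hG : Good M Ds) (n : ℕ) (v : E) :
    M.Th Ds (lp.single 2 (n, 0) ((mu (Ds n) : ℂ) • v)) = M.JG (Ds n) v := by
  obtain ⟨t1, -, -, -, -, -, -, -, -, t10⟩ := h4 M Ds hG
  rw [t10, t1, Yn_lev_zero]
  · rw [lp.single_apply_self, smul_smul, inv_mul_cancel₀, one_smul, zero_add]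
    exact_mod_cast (Yn_mu_pos _).ne'
  · intro k
    unfold cc
    split_ifs
    · exact lp.single_apply_ne _ _ _ (by simp)
    · rfl

theorem Yn_thk (h4 : S_Th) (M : Model) (Ds : ℕ → ℕ) (hG : Good M Ds) (n k : ℕ)
    (hk : k ∈ range (KK (Ds n) + 1)) (v : E) :
    M.Th Ds (lp.single 2 (n, k + 1) ((del (Ds n) : ℂ) • v)) =
      M.JG (Ds n) (M.su (Ds n) k (M.j (Ds n) v)) := by
  obtain ⟨t1, -, -, -, -, -, -, -, -, t10⟩ := h4 M Ds hG
  rw [t10, t1, lp.single_apply_ne _ _ _ (by simp), smul_zero, add_zero]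
  congr 1
  unfold Model.lev
  rw [Finset.sum_eq_single k]
  · have hk' : k ≤ KK (Ds n) := by simpa [Nat.lt_succ_iff] using hk
    unfold cc
    rw [if_pos hk', lp.single_apply_self, map_smul, map_smul, smul_smul, inv_mul_cancel₀, one_smul]
    exact_mod_cast (Yn_del_pos _).ne'
  · intro i _ hi
    have : cc (Ds n) n (lp.single 2 (n, k + 1) ((del (Ds n) : ℂ) • v)) i = 0 := by
      unfold cc
      split_ifs
      · exact lp.single_apply_ne _ _ _ (by simpa using hi)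
      · rfl
    rw [this, map_zero, map_zero, smul_zero]
  · intro h; exact absurd hk h

theorem Yn_key (h4 : S_Th) (M : Model) (Ds : ℕ → ℕ) (et : KS) (hG : Good M Ds)
    (hP : Perp M Ds et) (n : ℕ) (x : KS) (v : E) (h : M.Th Ds x = M.JG (Ds n) v) :
    yn (Ds n) n et v = inner ℂ et x := by
  have h0 := hP (x - lp.single 2 (n, 0) ((mu (Ds n) : ℂ) • v))
    (by rw [map_sub, Yn_th0 h4 M Ds hG, h, sub_self])
  rw [inner_sub_right, sub_eq_zero, lp.inner_single_right, inner_smul_right] at h0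
  rw [Yn_apply, h0]

theorem Yn_cut (h2 : S_Dg) (h4 : S_Th) (M : Model) (Ds : ℕ → ℕ) (hG : Good M Ds) (n : ℕ)
    (x : KS) : M.Th Ds (x - tailP n x) = M.JG (Ds n) (M.head Ds n x) := by
  obtain ⟨t1, -, -, t4, t5, -⟩ := h4 M Ds hG
  have hT : ∀ i : ℕ × ℕ, tailP n x i = (if n < i.1 then (1 : E →L[ℂ] E) else 0) (x i) := by
    intro i
    refine (h2.1 (fun i => if n < i.1 then (1 : E →L[ℂ] E) else 0) 1 zero_le_one ?_).1 x i
    intro i
    split_ifs
    · exact ContinuousLinearMap.norm_id_le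
    · simp
  have hlo : ∀ m k, m ≤ n → (x - tailP n x) (m, k) = x (m, k) := by
    intro m k hm
    rw [lp.coeFn_sub, Pi.sub_apply, hT, if_neg (by simpa using hm)]
    simp
  have hhi : ∀ m k, n < m → (x - tailP n x) (m, k) = 0 := by
    intro m k hm
    rw [lp.coeFn_sub, Pi.sub_apply, hT, if_pos hm]
    simp
  have hs : HasSum (fun m => M.JG (Ds m) (M.lift Ds m (x - tailP n x)))
      (∑ m ∈ range (n + 1), M.JG (Ds m) (M.lift Ds m (x - tailP n x))) := by
    refine hasSum_sum_of_ne_finset_zero fun m hm => ?_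
    have hm' : n < m := by simpa [Nat.lt_succ_iff] using hm
    rw [t1, hhi m 0 hm', smul_zero, add_zero, Yn_lev_zero, map_zero]
    intro k
    unfold cc
    split_ifs
    · exact hhi m _ hm'
    · rfl
  rw [(t4 (x - tailP n x)).unique hs, t5]
  refine Finset.sum_congr rfl fun m hm => ?_
  have hm' : m ≤ n := by simpa [Nat.lt_succ_iff] using hm
  have hc : cc (Ds m) m (x - tailP n x) = cc (Ds m) m x := by
    funext k
    unfold cc
    rw [hlo m _ hm']
  rw [t1, t1, hlo m 0 hm', hc]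

theorem p_Yn (h1 : S_G1) (h2 : S_Dg) (h3 : S_Good) (h4 : S_Th) : S_Yn := by
  intro M Ds et hG hP het
  obtain ⟨g1, -, -, g4, -, g6, -⟩ := h3 M Ds hG
  have a2 : ∀ n v, yn (Ds (n + 1)) (n + 1) et (M.gg Ds n v) = yn (Ds n) n et v := by
    intro n v
    have e := Yn_th0 h4 M Ds hG n v
    rw [Yn_key h4 M Ds et hG hP n _ v e,
      Yn_key h4 M Ds et hG hP (n + 1) _ (M.gg Ds n v) (e.trans ((g4 n).2.2.2.2.2.1 v).symm)]
  have a3 : ∀ n (g : ℂ[X]), yn (Ds n) n et (aeval (M.VG (Ds n)) g M.one) =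
      yn (Ds 0) 0 et (aeval (M.VG (Ds 0)) g M.one) := by
    intro n g
    induction n with
    | zero => rfl
    | succ n ih =>
      rw [← ih, ← a2 n, Yn_aeval (g4 n).2.2.1, (g4 n).2.2.2.2.1]
  have hy0 : ∀ v : E, ‖yn (Ds 0) 0 et v‖ ≤ mu (Ds 0) * ‖v‖ := fun v =>
    ((yn (Ds 0) 0 et).le_opNorm v).trans
      (mul_le_mul_of_nonneg_right (Yn_norm _ _ _ het) (norm_nonneg _))
  refine ⟨fun n x => Yn_key h4 M Ds et hG hP n _ _ (Yn_cut h2 h4 M Ds hG n x), a2, a3,
    fun n => ⟨Yn_norm _ _ _ het, ?_, Real.sqrt_nonneg _, ?_, fun l => ?_⟩, fun n m g hg => ?_⟩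
  · have hd := Yn_del_pos (Ds (n + 1))
    have hk : ∀ k ∈ range (KK (Ds (n + 1)) + 1),
        ‖yn (Ds (n + 1)) (n + 1) et ∘L M.su (Ds (n + 1)) k ∘L M.j (Ds (n + 1))‖ ^ 2 ≤
          del (Ds (n + 1)) ^ 2 * ‖et (n + 1, k + 1)‖ ^ 2 := by
      intro k hk
      rw [← mul_pow]
      refine pow_le_pow_left₀ (norm_nonneg _) ?_ 2
      refine ContinuousLinearMap.opNorm_le_bound _ (by positivity) fun v => ?_
      have e := Yn_key h4 M Ds et hG hP (n + 1) _ _ (Yn_thk h4 M Ds hG (n + 1) k hk v)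
      rw [lp.inner_single_right, inner_smul_right] at e
      simp only [ContinuousLinearMap.comp_apply]
      rw [e, norm_mul, Complex.norm_real, Real.norm_of_nonneg hd.le, mul_assoc]
      exact mul_le_mul_of_nonneg_left (norm_inner_le_norm _ _) hd.le
    refine (Finset.sum_le_sum hk).trans ?_
    rw [← Finset.mul_sum, mul_pow]
    refine mul_le_mul_of_nonneg_left ?_ (by positivity)
    unfold eps
    rw [Real.sq_sqrt (Finset.sum_nonneg fun _ _ => by positivity),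
      Finset.sum_range_succ' (fun k => ‖et (n + 1, k)‖ ^ 2)]
    exact le_add_of_nonneg_right (sq_nonneg _)
  · exact (h2.2.2.2.2.2 _ _ 0 et).1.trans het
  · have e := a3 (n + 1) (X ^ l)
    rw [map_pow, map_pow, aeval_X, aeval_X] at e
    rw [e]
    have hV : ‖(M.VG (Ds 0) ^ l) M.one‖ ≤ 1 :=
      Yn_pow_one M _ (h1 M (Ds 0) (g1 0)).VG_norm l
    have hmu : mu (Ds 0) ≤ (Ds (n + 1) : ℝ) :=
      (g6 0 n (Nat.zero_le n)).2.trans (hG.2 n).2.2.2.2.2.1
    calc _ ≤ mu (Ds 0) * ‖(M.VG (Ds 0) ^ l) M.one‖ := hy0 _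
      _ ≤ mu (Ds 0) * 1 := mul_le_mul_of_nonneg_left hV (Yn_mu_pos _).le
      _ ≤ _ := by rw [mul_one]; exact hmu
  · rw [a3, mul_assoc]
    refine (hy0 _).trans (mul_le_mul_of_nonneg_left ?_ (Yn_mu_pos _).le)
    exact M.fact _ _ (h1 M (Ds 0) (g1 0)).admG m g hg

end Pool.Agent.IS
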