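import Pool.Agent.P.MP_f981b0_an.IS.PMSchur
import Pool.Agent.P.MP_f981b0_an.IS.PMDiag
import Pool.Agent.P.MP_f981b0_an.IS.PMLeg
import Pool.Agent.P.MP_f981b0_an.IS.PMOrth
import Pool.Agent.P.MP_f981b0_an.IS.PMV
import Pool.Agent.P.MP_f981b0_an.IS.PMd
import Pool.Agent.P.MP_f981b0_an.IS.PMYN
import Pool.Agent.P.MP_f981b0_an.IS.PMLow
import Pool.Agent.P.MP_f981b0_an.IS.PMF5
import Pool.Agent.P.MP_f981b0_an.IS.PMIpl
import Pool.Agent.P.MP_f981b0_an.IS.PRes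
import Pool.Agent.P.MP_f981b0_an.IS.PAcc
import Pool.Agent.P.MP_f981b0_an.IS.PLag
import Pool.Agent.P.MP_f981b0_an.IS.PProp
import Pool.Agent.P.MP_f981b0_an.IS.PMM
import Pool.Agent.P.MP_f981b0_an.IS.PStrip
import Pool.Agent.P.MP_f981b0_an.IS.PKer
import Pool.Agent.P.MP_f981b0_an.IS.PNod
import Pool.Agent.P.MP_f981b0_an.IS.PLC
import Pool.Agent.P.MP_f981b0_an.IS.PDiv
import Pool.Agent.P.MP_f981b0_an.IS.PSymb
import Pool.Agent.P.MP_f981b0_an.IS.PG1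
import Pool.Agent.P.MP_f981b0_an.IS.PY3
import Pool.Agent.P.MP_f981b0_an.IS.PG2
import Pool.Agent.P.MP_f981b0_an.IS.PRemW
import Pool.Agent.P.MP_f981b0_an.IS.PRem
import Pool.Agent.P.MP_f981b0_an.IS.PYh
import Pool.Agent.P.MP_f981b0_an.IS.PB2
import Pool.Agent.P.MP_f981b0_an.IS.PJet
import Pool.Agent.P.MP_f981b0_an.IS.PLemJ
import Pool.Agent.P.MP_f981b0_an.IS.PLine
import Pool.Agent.P.MP_f981b0_an.IS.PGr
import Pool.Agent.P.MP_f981b0_an.IS.PAvg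
import Pool.Agent.P.MP_f981b0_an.IS.PRel
import Pool.Agent.P.MP_f981b0_an.IS.PPerK
import Pool.Agent.P.MP_f981b0_an.IS.PC1
import Pool.Agent.P.MP_f981b0_an.IS.PC2
import Pool.Agent.P.MP_f981b0_an.IS.PTail
import Pool.Agent.P.MP_f981b0_an.IS.PNat
import Pool.Agent.P.MP_f981b0_an.IS.PPsi
import Pool.Agent.P.MP_f981b0_an.IS.PStep
import Pool.Agent.P.MP_f981b0_an.IS.PCirc
import Pool.Agent.P.MP_f981b0_an.IS.PEnd
import Pool.Agent.P.MP_f981b0_an.IS.PDg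
import Pool.Agent.P.MP_f981b0_an.IS.PPar
import Pool.Agent.P.MP_f981b0_an.IS.PGood
import Pool.Agent.P.MP_f981b0_an.IS.PVK
import Pool.Agent.P.MP_f981b0_an.IS.PTh
import Pool.Agent.P.MP_f981b0_an.IS.PYn
import Pool.Agent.P.MP_f981b0_an.IS.PG0
import Pool.Agent.P.MP_f981b0_an.IS.PXH
import Pool.Agent.P.MP_f981b0_an.IS.PTel
import Pool.Agent.P.MP_f981b0_an.IS.PStar
import Pool.Agent.P.MP_f981b0_an.IS.PFin
import Pool.Agent.P.MP_f981b0_an.IS.PInf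
import Pool.Agent.P.MP_f981b0_an.IS.Asm
import Pool.Agent.P.MP_f981b0_an.ISP9.Final

/-!
Project IS: assembly of all packages.
-/

set_option autoImplicit false

namespace Pool.Agent.IS

theorem t_MSchur : SM_Schur := p_MSchur
theorem t_MDiag : SM_Diag := p_MDiag t_MSchur
theorem t_MLeg : SM_Leg := p_MLeg
theorem t_MOrth : SM_Orth := p_MOrth t_MLeg
theorem t_MV : SM_V := p_MV t_MSchur t_MDiag t_MLeg
theorem t_Md : SM_d := p_Md t_MSchur t_MDiag t_MV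
theorem t_MYN : SM_YN := p_MYN t_MSchur t_MDiag t_MLeg t_MOrth t_MV
theorem t_MLow : SM_Low := p_MLow t_MSchur t_MDiag t_MLeg t_MV t_MYN
theorem t_MF5 : SM_F5 := p_MF5 t_MSchur t_MDiag t_MLeg t_MV t_Md t_MYN t_MLow
theorem t_MIpl : SM_Ipl := p_MIpl t_MYN
theorem t_Res : S_Res := p_Res
theorem t_Acc : S_Acc := p_Acc t_Res
theorem t_Lag : S_Lag := p_Lag
theorem t_Prop : S_Prop := p_Prop
theorem t_MM : S_MM := p_MM
theorem t_Strip : S_Strip := p_Strip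
theorem t_Ker : S_Ker := p_Ker
theorem t_Nod : S_Nod := p_Nod t_Ker
theorem t_LC : S_LC := p_LC
theorem t_Div : S_Div := p_Div
theorem t_Symb : S_Symb := p_Symb
theorem t_G1 : S_G1 := p_G1 t_Res t_Acc
theorem t_Y3 : S_Y3 := p_Y3 t_G1
theorem t_G2 : S_G2 := p_G2 t_Res t_Acc t_G1
theorem t_RemW : S_RemW := p_RemW t_G1 t_Symb
theorem t_Rem : S_Rem := p_Rem t_G1 t_Symb t_RemW
theorem t_Yh : S_Yh := p_Yh t_Res t_G1 t_Y3
theorem t_B2 : S_B2 := p_B2 t_Res t_G1 t_Y3 t_Rem t_Yh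
theorem t_Jet : S_Jet := p_Jet t_Lag t_G1 t_Symb t_Rem
theorem t_LemJ : S_LemJ := p_LemJ t_G1 t_Symb t_Rem t_Jet
theorem t_Line : S_Line := p_Line t_Prop t_MM t_Rem t_Yh t_B2 t_LemJ
theorem t_Gr : S_Gr := p_Gr t_Strip t_Yh t_Line
theorem t_Avg : S_Avg := p_Avg t_G1 t_Yh
theorem t_Rel : S_Rel := p_Rel t_G1 t_Symb t_Yh t_Nod t_Avg
theorem t_PerK : S_PerK := p_PerK t_G1 t_Y3 t_Rel
theorem t_C1 : S_C1 := p_C1 t_G1 t_PerK
theorem t_C2 : S_C2 := p_C2 t_G1 t_Y3 t_Rel t_LC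
theorem t_Tail : S_Tail := p_Tail t_Res t_Acc t_G1
theorem t_Nat : S_Nat := p_Nat t_G1 t_Y3
theorem t_Psi : S_Psi := p_Psi t_G1 t_Y3 t_C1
theorem t_Step : S_Step := p_Step t_G1 t_LC t_Gr t_C2 t_Nat t_Psi
theorem t_Circ : S_Circ := p_Circ t_G1 t_Symb t_Prop t_MM t_Rem t_LemJ
theorem t_End : S_End := p_End t_Res t_G1 t_Y3 t_Symb t_RemW t_Rem t_Div t_Circ
theorem t_Dg : S_Dg := p_Dg
theorem t_Par : S_Par := p_Par
theorem t_Good : S_Good := p_Good t_Res t_G1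
theorem t_VK : S_VK := p_VK t_Res t_G1 t_Dg t_Good
theorem t_Th : S_Th := p_Th t_G1 t_G2 t_Dg t_Good t_VK
theorem t_Yn : S_Yn := p_Yn t_G1 t_Dg t_Good t_Th
theorem t_G0 : S_G0 := p_G0 t_G1 t_Y3 t_Dg t_Good t_Th t_Yn
theorem t_XH : S_XH := p_XH t_G1 t_Dg t_Good t_Th
theorem t_Tel : S_Tel := p_Tel t_G1 t_Dg t_Good t_VK t_Th t_Yn t_XH t_Tail t_Step
theorem t_Star : S_Star := p_Star t_G1 t_Dg t_Good t_VK t_Th t_Yn t_Tel
theorem t_Fin : S_Fin := p_Fin t_G1 t_Dg t_Good t_VK t_Th t_Yn t_XH t_G0 t_End t_Star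

theorem t_Model : Nonempty Model := model_of t_MDiag t_MV t_Md t_MYN t_MLow t_MF5 t_MIpl

/-- Both negations. -/
theorem main :
    (¬ (∀ (E : Type) [NormedAddCommGroup E] [NormedSpace ℂ E] [CompleteSpace E]
      [TopologicalSpace.SeparableSpace E],
      ¬ FiniteDimensional ℂ E →
      Function.Surjective (NormedSpace.inclusionInDoubleDual ℂ E) →
      ∀ T : E →L[ℂ] E,
        ∃ M : Submodule ℂ E,
          IsClosed (M : Set E) ∧ M ≠ ⊥ ∧ M ≠ ⊤ ∧ ∀ x ∈ M, T x ∈ M)) ∧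
    (¬ (∀ (H : Type) [NormedAddCommGroup H] [InnerProductSpace ℂ H] [CompleteSpace H]
      (T : H →L[ℂ] H),
      (∀ K : Submodule ℂ H, IsClosed (K : Set H) → (∀ x ∈ K, T x ∈ K) →
          ∀ x ∈ K, ContinuousLinearMap.adjoint T x ∈ K) →
      IsStarNormal T)) := by
  obtain ⟨M⟩ := t_Model
  obtain ⟨Ds, hDs⟩ := exists_good t_Par M
  obtain ⟨hinf, hsep⟩ := p_Inf t_G1 t_Dg t_Good t_Th
  refine Pool.Agent.P.MP_f981b0_an.ISP9.both (M.Th Ds) (M.VK Ds) M.V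
    (t_Th M Ds hDs).2.2.2.2.2.2.2.2.1 (hinf M Ds hDs) ?_
  intro x et hx he hne hp hz
  have h0 := t_Fin M Ds x et hDs hp he.le hx.le hne hz
  rw [h0, norm_zero] at he
  exact zero_ne_one he

end Pool.Agent.IS
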