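import Mathlib

/-!
Interface of the project IS, part 1: the space, power series resolvents, the abstract model
(Volterra operator and Legendre scales) and the parameters of one level.
-/

set_option autoImplicit false

open Polynomial Finset Filter Topology
open scoped Nat

noncomputable section

namespace Pool.Agent.IS

/-- The coordinate space of `Y`, of every `F(D,k)`. -/
abbrev E : Type := lp (fun _ : ℕ => ℂ) 2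

section General

variable {B : Type} [NormedAddCommGroup B] [NormedSpace ℂ B]

/-- `b_z`, the power series of `(1 - z A)⁻¹`. -/
def res (A : B →L[ℂ] B) (z : ℂ) : B →L[ℂ] B := ∑' l : ℕ, z ^ l • A ^ l

/-- Absolute convergence of the series for `‖z‖ ≤ Z`. -/
def Sm (A : B →L[ℂ] B) (Z : ℝ) : Prop := Summable fun l : ℕ => Z ^ l * ‖A ^ l‖

/-- `W = A (A + 1/n)⁻¹`. -/
def Wop (A : B →L[ℂ] B) (n : ℕ) : B →L[ℂ] B := 1 - res A (-(n : ℂ))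

/-- The symbol `g^(t)`. -/
def sym (d : B →L[ℂ] B) (ev : B →L[ℂ] ℂ) (g : B) (t : ℂ) : ℂ := ∑' l : ℕ, ev ((d ^ l) g) * t ^ l

/-- The remainder `rho_t g`. -/
def rho (d : B →L[ℂ] B) (g : B) (t : ℂ) : B := ∑' l : ℕ, t ^ (l + 1) • (d ^ (l + 1)) g

end General

/-- Sum of the moduli of the coefficients. -/
def l1 (p : ℂ[X]) : ℝ := ∑ i ∈ p.support, ‖p.coeff i‖

/-- The square-sum norm of a sequence. -/
def n2 (f : ℕ → ℂ) : ℝ := √(∑' k, ‖f k‖ ^ 2)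

/-- Admissible scale parameters. -/
def Adm (D : ℕ) (k : ℝ) : Prop := 0 < k ∧ k ≤ 1 / 4 ∧ 2 ≤ k * D

/-- Bound for the norm of `d`. -/
def dd (D : ℕ) : ℝ := 20 * ((D : ℝ) + 1) ^ 2

/-- The abstract model: `V` on `Y`, and the scale `F(D,k)` in orthonormal coordinates. -/
structure Model where
  V : E →L[ℂ] E
  one : E
  pi : ℕ → E →L[ℂ] E
  VS : ℕ → ℝ → E →L[ℂ] E
  dS : ℕ → ℝ → E →L[ℂ] E
  evS : ℕ → ℝ → E →L[ℂ] ℂ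
  JS : ℕ → ℝ → E →L[ℂ] E
  inc : ℕ → ℝ → ℕ → ℝ → E →L[ℂ] E
  A : ℕ → ℝ
  one_norm : ‖one‖ = 1
  accr : ∀ v : E, 2 * (inner ℂ v (V v)).re = ‖inner ℂ one v‖ ^ 2
  V_norm : ‖V‖ ≤ 3 / 4
  V_pow : ∀ l : ℕ, ‖V ^ l‖ ≤ 1 / (l ! : ℝ)
  A_nonneg : ∀ m, 0 ≤ A m
  coeff_le : ∀ (m : ℕ) (g : ℂ[X]), g.natDegree ≤ m → ∀ l, ‖g.coeff l‖ ≤ A m * ‖aeval V g one‖
  ipl : ∀ (N J : ℕ) (f : ℂ[X]), 0 < N → ∃ h : ℂ[X], h.natDegree ≤ f.natDegree + 5 + N ∧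
    X ^ J ∣ h ∧ (N < J → h = 0) ∧
    ‖aeval V (X ^ 5 * f - h) one‖ ≤ min 1 (6144 * ((J : ℝ) / N) ^ 4) * ‖aeval V f one‖
  pi_norm : ∀ m, ‖pi m‖ ≤ 1
  pi_norm' : ∀ m, ‖1 - pi m‖ ≤ 1
  pi_tendsto : ∀ v : E, Tendsto (fun m => pi m v) atTop (𝓝 v)
  VS_sub : ∀ D k, Adm D k → ‖VS D k - V‖ ≤ k
  VS_tail : ∀ D k, Adm D k → ∀ m : ℕ, 1 ≤ m → ‖VS D k * (1 - pi m)‖ ≤ 1 / (m : ℝ) + k
  VS_pow : ∀ D k, Adm D k → ∀ N : ℕ, 1 ≤ N → 3 * N ≤ D →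
    ‖VS D k ^ N‖ ≤ 1 / (N ! : ℝ) + (1 / (N : ℝ) + k) ^ N
  ev_norm : ∀ D k, Adm D k → ‖evS D k‖ ≤ 2 * ((D : ℝ) + 1)
  d_norm : ∀ D k, Adm D k → ‖dS D k‖ ≤ dd D
  Vd : ∀ D k, Adm D k → ∀ v, VS D k (dS D k v) = v - evS D k v • one
  dV : ∀ D k, Adm D k → ∀ v, dS D k (VS D k v) = v
  evV : ∀ D k, Adm D k → ∀ v, evS D k (VS D k v) = 0
  ev_one : ∀ D k, Adm D k → evS D k one = 1
  d_one : ∀ D k, Adm D k → dS D k one = 0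
  J_norm : ∀ D k, Adm D k → ‖JS D k‖ ≤ 1
  J_V : ∀ D k, Adm D k → ∀ v, JS D k (VS D k v) = V (JS D k v)
  J_one : ∀ D k, Adm D k → JS D k one = one
  J_pi : ∀ D k, Adm D k → ∀ m v, JS D k (pi m v) = pi m (JS D k v)
  low : ∀ D k, Adm D k → ∀ g : ℂ[X], g.natDegree ≤ D → aeval (VS D k) g one = aeval V g one
  pi_poly : ∀ D k, Adm D k → ∀ (m : ℕ) (v : E), ∃ g : ℂ[X], g.natDegree ≤ m ∧
    pi m v = aeval (VS D k) g one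
  fact : ∀ D k, Adm D k → ∀ (m : ℕ) (g : ℂ[X]), g.natDegree ≤ m →
    ‖aeval (VS D k) g one‖ ≤ (m ! : ℝ) * ‖aeval V g one‖
  F5 : ∀ D k, Adm D k → 2048 ≤ k * D → ∀ (l : ℕ) (v : E),
    ‖JS D k ((VS D k ^ l) ((dS D k ^ l) v))‖ ≤ (1 / 7) ^ l * (2 * ((D : ℝ) + 1) * 32 ^ D) * ‖v‖
  inc_norm : ∀ D k D' k', Adm D k → Adm D' k' → D ≤ D' → k' ≤ k → ‖inc D k D' k'‖ ≤ 1
  inc_J : ∀ D k D' k', Adm D k → Adm D' k' → D ≤ D' → k' ≤ k →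
    ∀ v, JS D' k' (inc D k D' k' v) = JS D k v
  inc_V : ∀ D k D' k', Adm D k → Adm D' k' → D ≤ D' → k' ≤ k →
    ∀ v, inc D k D' k' (VS D k v) = VS D' k' (inc D k D' k' v)
  inc_one : ∀ D k D' k', Adm D k → Adm D' k' → D ≤ D' → k' ≤ k → inc D k D' k' one = one
  inc_gain : ∀ (D : ℕ) (k : ℝ), Adm (D / 8) k → 8 ∣ D → k * D = 2048 →
    ‖(1 - pi (D / 4)) * inc (D / 8) k D k‖ ≤ (1 / 2) ^ D

/-! Parameters of the level `D`. -/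

def th (D : ℕ) : ℝ := (1 / 2) ^ D
def tau (D : ℕ) : ℝ := th D ^ 20
def del (D : ℕ) : ℝ := th D ^ 7
def eta (D : ℕ) : ℝ := th D ^ 9
def aa (D : ℕ) : ℕ := 64 * D
def n1 (D : ℕ) : ℕ := 64 * D * 2 ^ (20 * D)
def KK (D : ℕ) : ℕ := 128 * 2 ^ (20 * D)
def kap (D : ℕ) : ℝ := 2048 / D
def k0 (D : ℕ) : ℕ := 2 ^ (15 * D)
def DG (D : ℕ) : ℕ := 192 * n1 D
def kG (D : ℕ) : ℝ := 1 / (64 * (n1 D : ℝ))
def mu (D : ℕ) : ℝ := 2 ^ n1 D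
def N0 (D : ℕ) : ℕ := 64 * n1 D
def Lam (D : ℕ) : ℝ := 3000 * (D : ℝ) ^ 2
def MF (D : ℕ) : ℝ := 2 ^ (30 * D)
/-- `L1 = N / a`. -/
def L1 (D : ℕ) : ℕ := 2 ^ 13 * aa D * 2 ^ (11 * D)
def rh (D : ℕ) : ℝ := 2 ^ 15 * (aa D : ℝ) ^ 3 * th D ^ 9
def Tn (D : ℕ) : ℝ := Real.exp (-(3 / 2) * (KK D : ℝ) * eta D)
def r1 (D : ℕ) : ℝ := Real.exp (-(eta D) / aa D)
/-- `Z = n1 ^ 3`. -/
def ZZ (D : ℕ) : ℝ := (n1 D : ℝ) ^ 3
/-- `s*`. -/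
def ss (D : ℕ) (e x0 : ℝ) : ℝ := 40 * e ^ 2 / (del D * x0) ^ 2 + 320 * (D : ℝ) ^ 2
/-- `k_j`. -/
def kj (D : ℕ) (s : ℝ) (j : ℕ) : ℝ :=
  2 ^ 19 * s * (aa D : ℝ) ^ 4 / ((j : ℝ) + 1 / 2) ^ 4 + 2 ^ (11 * D)

/-- Large level parameter. -/
def Big (D : ℕ) : Prop := 65536 ≤ D ∧ 8 ∣ D

def tp (D : ℕ) (p : ℂ) : ℂ := (p - 1) / (2 * (n1 D : ℂ))
def wp (p : ℂ) : ℂ := (p - 1) / (p + 1)
def tw (D : ℕ) (w : ℂ) : ℂ := w / ((1 - w) * (n1 D : ℂ))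
def wt (D : ℕ) (t : ℂ) : ℂ := t / (t + 1 / (n1 D : ℂ))

theorem num_aux (n : ℕ) (h : 2000 ≤ n) : n ^ 40 * 2 ^ 200 ≤ 2 ^ (n / 2) := by
  have key : ∀ m : ℕ, 1000 ≤ m → (2 * m + 1) ^ 40 * 2 ^ 200 ≤ 2 ^ m := by
    intro m hm
    induction m, hm using Nat.le_induction with
    | base =>
      calc (2 * 1000 + 1) ^ 40 * 2 ^ 200 ≤ (2 ^ 11) ^ 40 * 2 ^ 200 :=
            Nat.mul_le_mul_right _ (Nat.pow_le_pow_left (by norm_num) 40)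
        _ = 2 ^ (11 * 40 + 200) := by rw [← pow_mul, ← pow_add]
        _ ≤ 2 ^ 1000 := Nat.pow_le_pow_right (by norm_num) (by norm_num)
    | succ m hm ih =>
      have h1 : (2 * (m + 1) + 1) * 100 ≤ (2 * m + 1) * 101 := by omega
      have h2 : ((2 * (m + 1) + 1) * 100) ^ 40 ≤ ((2 * m + 1) * 101) ^ 40 :=
        Nat.pow_le_pow_left h1 40
      rw [mul_pow, mul_pow] at h2
      have h3 : 101 ^ 40 ≤ 2 * 100 ^ 40 := by norm_num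
      have h4 : (2 * (m + 1) + 1) ^ 40 * 100 ^ 40 ≤ (2 * (2 * m + 1) ^ 40) * 100 ^ 40 := by
        calc _ ≤ (2 * m + 1) ^ 40 * 101 ^ 40 := h2
          _ ≤ (2 * m + 1) ^ 40 * (2 * 100 ^ 40) := Nat.mul_le_mul_left _ h3
          _ = _ := by ring
      have h5 : (2 * (m + 1) + 1) ^ 40 ≤ 2 * (2 * m + 1) ^ 40 :=
        Nat.le_of_mul_le_mul_right h4 (by norm_num)
      calc _ ≤ 2 * (2 * m + 1) ^ 40 * 2 ^ 200 := Nat.mul_le_mul_right _ h5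
        _ = 2 * ((2 * m + 1) ^ 40 * 2 ^ 200) := by ring
        _ ≤ 2 * 2 ^ m := Nat.mul_le_mul_left _ ih
        _ = 2 ^ (m + 1) := by ring
  have h1 : n ≤ 2 * (n / 2) + 1 := by omega
  exact le_trans (Nat.mul_le_mul_right _ (Nat.pow_le_pow_left h1 40)) (key _ (by omega))

/-- The one numerical inequality: polynomial factors are far below `2 ^ (D / 2)`. -/
theorem Big.num {D : ℕ} (h : Big D) : (D : ℝ) ^ 40 * 2 ^ 200 ≤ 2 ^ (D / 2) := by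
  exact_mod_cast num_aux D (by have := h.1; omega)

theorem Big.num' {D : ℕ} (h : Big D) : (D : ℝ) ^ 40 * 2 ^ 200 * th D ≤ 1 := by
  have h1 := h.num
  have h2 : (2 : ℝ) ^ (D / 2) ≤ 2 ^ D := pow_le_pow_right₀ (by norm_num) (Nat.div_le_self _ _)
  have h3 : (2 : ℝ) ^ D * th D = 1 := by unfold th; rw [← mul_pow]; norm_num
  have h4 : 0 ≤ th D := by unfold th; positivity
  calc _ ≤ 2 ^ D * th D := mul_le_mul_of_nonneg_right (h1.trans h2) h4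
    _ = 1 := h3

theorem th_pos (D : ℕ) : 0 < th D := by unfold th; positivity

theorem th_inv (D : ℕ) : (2 : ℝ) ^ D * th D = 1 := by unfold th; rw [← mul_pow]; norm_num

end Pool.Agent.IS
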