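import Pool.Agent.P.MP_f981b0_an.IS.All

/-!
Project IS: the operator transported to the sequence space.
-/

set_option autoImplicit false

namespace Pool.Agent.IS

theorem exists_iso_l2 {H : Type*} [NormedAddCommGroup H] [InnerProductSpace ℂ H] [CompleteSpace H]
    [TopologicalSpace.SeparableSpace H] (hH : ¬ FiniteDimensional ℂ H) :
    Nonempty (H ≃ₗᵢ[ℂ] lp (fun _ : ℕ => ℂ) 2) := by
  classical
  obtain ⟨w, b, hb⟩ := exists_hilbertBasis ℂ H
  have hon : Orthonormal ℂ (fun i : w => (i : H)) := by
    have := b.orthonormal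
    rwa [hb] at this
  have hc : Countable w := by
    have hd : (Set.univ : Set w).PairwiseDisjoint fun i : w => Metric.ball (i : H) (1 / 2) := by
      intro i _ j _ hij
      refine Metric.ball_disjoint_ball ?_
      have h1 : ‖(i : H) - j‖ ^ 2 = 2 := by
        rw [@norm_sub_sq ℂ, hon.1 i, hon.1 j, hon.2 hij]
        norm_num
      rw [dist_eq_norm]
      nlinarith [norm_nonneg ((i : H) - j)]
    have := Set.PairwiseDisjoint.countable_of_isOpen hd (fun i _ => Metric.isOpen_ball)
      (fun i _ => ⟨i, Metric.mem_ball_self (by norm_num)⟩)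
    exact Set.countable_univ_iff.mp this
  have hi : Infinite w := by
    by_contra hf
    have : Finite w := not_infinite_iff_finite.mp hf
    have := Fintype.ofFinite w
    exact hH (b.toOrthonormalBasis.toBasis.finiteDimensional_of_finite)
  obtain ⟨e⟩ : Nonempty (ℕ ≃ w) := nonempty_equiv_of_countable
  have hon' : Orthonormal ℂ (fun n : ℕ => b (e n)) := b.orthonormal.comp _ e.injective
  have hsp : ⊤ ≤ (Submodule.span ℂ (Set.range fun n : ℕ => b (e n))).topologicalClosure := by
    have : (Set.range fun n : ℕ => b (e n)) = Set.range b := e.surjective.range_comp b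
    rw [this, b.dense_span]
  exact ⟨(HilbertBasis.mk hon' hsp).repr⟩

/-- An operator on the Hilbert sequence space without non-trivial closed invariant subspaces. -/
theorem main_l2 : ∃ T : lp (fun _ : ℕ => ℂ) 2 →L[ℂ] lp (fun _ : ℕ => ℂ) 2,
    ∀ K : Submodule ℂ (lp (fun _ : ℕ => ℂ) 2), IsClosed (K : Set (lp (fun _ : ℕ => ℂ) 2)) →
      (∀ x ∈ K, T x ∈ K) → K = ⊥ ∨ K = ⊤ := by
  obtain ⟨M⟩ := t_Model
  obtain ⟨Ds, hDs⟩ := exists_good t_Par M
  obtain ⟨hinf, hsep⟩ := p_Inf t_G1 t_Dg t_Good t_Th
  obtain ⟨T, hT⟩ := Pool.Agent.P.MP_f981b0_an.ISP9.exists_noinv (M.Th Ds) (M.VK Ds) M.V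
    (t_Th M Ds hDs).2.2.2.2.2.2.2.2.1 (by
      intro x et hx he hne hp hz
      have h0 := t_Fin M Ds x et hDs hp he.le hx.le hne hz
      rw [h0, norm_zero] at he
      exact zero_ne_one he)
  have hH := Pool.Agent.P.MP_f981b0_an.ISP9.not_finite_orth (M.Th Ds) (hinf M Ds hDs)
  have : SecondCountableTopology KS := UniformSpace.secondCountable_of_separable KS
  obtain ⟨U⟩ := exists_iso_l2 hH
  let e := U.toContinuousLinearEquiv
  refine ⟨e.toContinuousLinearMap ∘L T ∘L e.symm.toContinuousLinearMap, fun K hK hinvK => ?_⟩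
  have h := hT (K.comap e.toLinearEquiv.toLinearMap) (hK.preimage e.continuous) (by
    intro x hx
    have := hinvK (e x) hx
    simpa using this)
  rcases h with h | h
  · left
    rw [eq_bot_iff]
    intro v hv
    have h1 : e.symm v ∈ K.comap e.toLinearEquiv.toLinearMap := by simpa using hv
    rw [h] at h1
    have h2 : e.symm v = 0 := h1
    have h3 := congrArg e h2
    simpa using h3
  · right
    rw [eq_top_iff]
    intro v _
    have h1 : e.symm v ∈ K.comap e.toLinearEquiv.toLinearMap := by rw [h]; trivial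
    simpa using h1

/-- The same on every separable infinite-dimensional complex Hilbert space. -/
theorem main_hilbert {H : Type*} [NormedAddCommGroup H] [InnerProductSpace ℂ H] [CompleteSpace H]
    [TopologicalSpace.SeparableSpace H] (hH : ¬ FiniteDimensional ℂ H) :
    ∃ T : H →L[ℂ] H, ∀ K : Submodule ℂ H, IsClosed (K : Set H) → (∀ x ∈ K, T x ∈ K) →
      K = ⊥ ∨ K = ⊤ := by
  obtain ⟨T, hT⟩ := main_l2
  obtain ⟨U⟩ := exists_iso_l2 hH
  let e := U.toContinuousLinearEquiv.symm
  refine ⟨e.toContinuousLinearMap ∘L T ∘L e.symm.toContinuousLinearMap, fun K hK hinvK => ?_⟩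
  have h := hT (K.comap e.toLinearEquiv.toLinearMap) (hK.preimage e.continuous) (by
    intro x hx
    have := hinvK (e x) hx
    simpa using this)
  rcases h with h | h
  · left
    rw [eq_bot_iff]
    intro v hv
    have h1 : e.symm v ∈ K.comap e.toLinearEquiv.toLinearMap := by simpa using hv
    rw [h] at h1
    have h2 : e.symm v = 0 := h1
    have h3 := congrArg e h2
    simpa using h3
  · right
    rw [eq_top_iff]
    intro v _
    have h1 : e.symm v ∈ K.comap e.toLinearEquiv.toLinearMap := by rw [h]; trivial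
    simpa using h1

end Pool.Agent.IS
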