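import Pool.Agent.P.MP_f981b0_an.IS.Base

/-!
Interface of the project IS, part 2: the objects of one level and the statements about one level.
-/

set_option autoImplicit false

open Polynomial Finset Filter Topology
open scoped Nat Real

noncomputable section

namespace Pool.Agent.IS

namespace Model

variable (M : Model) (D : ℕ)

def VF : E →L[ℂ] E := M.VS D (kap D)
def dF : E →L[ℂ] E := M.dS D (kap D)
def evF : E →L[ℂ] ℂ := M.evS D (kap D)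
def JF : E →L[ℂ] E := M.JS D (kap D)
def VG : E →L[ℂ] E := M.VS (DG D) (kG D)
def dG : E →L[ℂ] E := M.dS (DG D) (kG D)
def evG : E →L[ℂ] ℂ := M.evS (DG D) (kG D)
def JG : E →L[ℂ] E := M.JS (DG D) (kG D)
/-- `V` on `F(D/8, kap)`. -/
def V8 : E →L[ℂ] E := M.VS (D / 8) (kap D)
/-- The inclusion of `F(D/8, kap)` in `F`. -/
def i8 : E →L[ℂ] E := M.inc (D / 8) (kap D) D (kap D)
/-- The inclusion of `F` in `G`. -/
def j : E →L[ℂ] E := M.inc D (kap D) (DG D) (kG D)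
/-- `W` on `G`. -/
def W : E →L[ℂ] E := Wop (M.VG D) (n1 D)
def u : E →L[ℂ] E := M.W D ^ aa D
/-- `sig u^k` on `G`. -/
def su (k : ℕ) : E →L[ℂ] E := (1 - M.u D) * M.u D ^ k
/-- The level part `sum sig u^k c_k / delta`, in `G`. -/
def lev (c : ℕ → E) : E :=
  ∑ k ∈ range (KK D + 1), ((del D : ℂ)⁻¹) • M.su D k (M.j D (c k))
/-- `x'`, in `G`. -/
def xp (X : E) (c : ℕ → E) : E := M.j D X + M.lev D c

end Model

/-- `X_m`, in `F`. -/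
def Xm (D : ℕ) (X : E) (c : ℕ → E) (m : ℕ) : E :=
  if m = 0 then X + ((del D : ℂ)⁻¹) • c 0 else ((del D : ℂ)⁻¹) • (c m - c (m - 1))

namespace Model

variable (M : Model) (D : ℕ)

/-- The symbol of `x'` with `t` and `w` as separate variables. -/
def Ft (X : E) (c : ℕ → E) (t w : ℂ) : ℂ :=
  ∑ m ∈ range (KK D + 2), w ^ (aa D * m) * sym (M.dF D) (M.evF D) (Xm D X c m) t
/-- The symbol `F(p)`. -/
def Ff (X : E) (c : ℕ → E) (p : ℂ) : ℂ := M.Ft D X c (tp D p) (wp p)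
/-- The remainder of `W^N g` for `g` in `F`, a vector of `G`. -/
def remW (N : ℕ) (g : E) (t w : ℂ) : E :=
  w ^ N • M.j D (rho (M.dF D) g t) +
    ∑ i ∈ range N, w ^ (N - i) • (M.W D ^ i) (M.j D g - M.W D (M.j D g))
/-- The remainder of `x'`. -/
def rem (X : E) (c : ℕ → E) (t w : ℂ) : E :=
  ∑ m ∈ range (KK D + 2), M.remW D (aa D * m) (Xm D X c m) t w
def nu (y : E →L[ℂ] ℂ) (N : ℕ) : ℂ := y ((M.W D ^ N) M.one)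
/-- `yh(w)`. -/
def yh (y : E →L[ℂ] ℂ) (w : ℂ) : ℂ := ∑' N : ℕ, (M.nu D y N - M.nu D y (N + 1)) * w⁻¹ ^ N
/-- The node factor `u^L1 V - mu(u)`. -/
def Fq (m : ℂ[X]) : E →L[ℂ] E := M.u D ^ L1 D * M.VG D - aeval (M.u D) m
/-- The principal factor. -/
def Pr (m : ℂ[X]) : E →L[ℂ] E := (1 - M.u D) * M.Fq D m - (tau D : ℂ) • M.u D ^ L1 D
def prodF (ms : List ℂ[X]) : E →L[ℂ] E := (ms.map (M.Fq D)).prod
/-- `d_l` of (C2). -/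
def dseq (y : E →L[ℂ] ℂ) (l : ℕ) : ℝ :=
  n2 (fun k => y (M.su D (k0 D + k) ((M.VG D ^ l) M.one))) / del D

/-- Hypotheses on the functional `y` on `G`. -/
structure YH (y : E →L[ℂ] ℂ) (e' : ℝ) : Prop where
  norm : ‖y‖ ≤ mu D
  sq : ∑ k ∈ range (KK D + 1), ‖y ∘L M.su D k ∘L M.j D‖ ^ 2 ≤ (del D * e') ^ 2
  e0 : 0 ≤ e'
  e1 : e' ≤ 1
  one : ∀ l : ℕ, ‖y ((M.VG D ^ l) M.one)‖ ≤ D

/-- Hypotheses on the head `X` and the level coordinates `c`, vectors of `F`. -/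
structure XH (X : E) (c : ℕ → E) (e x0 : ℝ) : Prop where
  nX : ‖X‖ ≤ D
  sq : ∑ k ∈ range (KK D + 1), ‖c k‖ ^ 2 ≤ e ^ 2
  zero : ∀ k, KK D < k → c k = 0
  e0 : 0 ≤ e
  e1 : e ≤ 1
  low : x0 ≤ ‖M.JF D X‖
  x0 : 1 / (D : ℝ) ≤ x0

/-- The resolvent bound that the later levels give. -/
def RH (y : E →L[ℂ] ℂ) (x : E) : Prop :=
  ∀ t : ℂ, t.re ≤ -(3 / (8 * (n1 D : ℝ))) → ‖t‖ ≤ 9 * tau D →
    ‖y (res (M.VG D) t⁻¹ x)‖ ≤ 64 * (aa D : ℝ)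

/-- The growth bound (Gr) with slope parameter `s`. -/
def GrH (y : E →L[ℂ] ℂ) (s : ℝ) : Prop :=
  ∀ (jj : ℕ) (ph : ℝ), ((jj : ℝ) + 1 / 2) * π / aa D ≤ |ph| → |ph| ≤ π →
    ‖M.yh D y (r1 D * Complex.exp (ph * Complex.I))‖ ≤
      Real.exp (Lam D + 1 + 2 ^ 19 * s * eta D * (aa D : ℝ) ^ 4 / ((jj : ℝ) + 1 / 2) ^ 4)

/-- `v` in `G` has the symbol `f` for the circle mean formula. -/
def Sy (y : E →L[ℂ] ℂ) (v : E) (f : ℂ → ℂ) : Prop :=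
  ContinuousOn f (Metric.sphere 0 (r1 D)) ∧ ∀ N : ℕ, y ((M.W D ^ N) v) =
    Real.circleAverage (fun w => w ^ N * f w * M.yh D y w / (1 - w)) 0 (r1 D)

/-- The basic facts on the spaces of one level. -/
structure G1 : Prop where
  admF : Adm D (kap D)
  adm8 : Adm (D / 8) (kap D)
  admG : Adm (DG D) (kG D)
  kapD : kap D * D = 2048
  le_DG : D ≤ DG D
  kG_le : kG D ≤ kap D
  VF_norm : ‖M.VF D‖ ≤ 1
  V8_norm : ‖M.V8 D‖ ≤ 1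
  VG_norm : ‖M.VG D‖ ≤ 1
  sm : Sm (M.VG D) (3 * n1 D)
  accr : ∀ v : E, -(kG D) * ‖v‖ ^ 2 ≤ (inner ℂ v (M.VG D v)).re
  W_norm : ‖M.W D‖ ≤ 1
  W_pow : ∀ N : ℕ, ‖M.W D ^ N‖ ≤ 8 ^ N0 D / 8 ^ N
  W_comm : Commute (M.W D) (M.VG D)
  W_eq : (1 - M.W D) * M.VG D = ((n1 D : ℂ)⁻¹) • M.W D
  W_fac : ∃ R : E →L[ℂ] E, M.W D = M.VG D * R ∧ Commute R (M.VG D)
  W_sub : ∀ N : ℕ, ‖(1 - M.W D ^ N) * M.VG D‖ ≤ (N : ℝ) / n1 D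
  J_W : ∀ v, M.JG D (M.W D v) = Wop M.V (n1 D) (M.JG D v)
  WY_norm : ‖Wop M.V (n1 D)‖ ≤ 1

/-- The consequences (Y1) (Y2) (Y3). -/
structure Y3 (y : E →L[ℂ] ℂ) : Prop where
  sm : Summable fun k : ℕ => ‖y ∘L M.su D k ∘L M.j D‖ ^ 2
  sq : ∑' k : ℕ, ‖y ∘L M.su D k ∘L M.j D‖ ^ 2 ≤ (2 * del D) ^ 2
  u : ∀ k : ℕ, ‖y ∘L (M.u D ^ k) ∘L M.j D‖ ≤ 13 / th D ^ 3
  diff : ∀ k k' : ℕ, k ≤ k' →
    ‖y ∘L (M.u D ^ k - M.u D ^ k') ∘L M.j D‖ ≤ 2 * del D * √((k' : ℝ) - k)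
  W : ∀ N : ℕ, ‖y ∘L (M.W D ^ N) ∘L M.j D‖ ≤ Real.exp (Lam D - 100 * D)

end Model

/-- The conditions of the log-convexity step. -/
def LCc (D D1 m : ℕ) (e0 : ℝ) : Prop :=
  0 < e0 ∧ e0 ≤ 1 ∧ 1 ≤ D1 ∧ 1 ≤ m ∧ D1 + m + 3 ≤ D ∧ 2 / (m ! : ℝ) < e0 * (e0 / 4) ^ m ∧
    th D ^ 4 ≤ (e0 * (e0 / 4) ^ m) ^ 2 / (2 * m)

/-- The error of the level step. -/
def gam (M : Model) (D D1 : ℕ) (e0 B β : ℝ) : ℝ :=
  β * (3 / D1 + ((D1 : ℝ) + 1) * M.A D1 * e0 + B * ((D1 + 1)! : ℝ) / mu D + 2 ^ 14 / D)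

end Pool.Agent.IS
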