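import Pool.Agent.P.MP_f981b0_an.IS.Base

/-!
Interface of the project IS, part 5: the concrete model and the statements that give `Model`.
-/

set_option autoImplicit false

open Polynomial Finset Filter Topology
open scoped Nat Real

noncomputable section

namespace Pool.Agent.IS

/-- The weight of `F(D,k)`. -/
def om (D : ℕ) (k : ℝ) (i : ℕ) : ℝ := ∏ j ∈ Ioc D i, k * (j : ℝ)
/-- The weight of `Y`. -/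
def o1 : ℕ → ℝ := fun _ => 1
/-- The norm of the polynomial `L_i` for the weight `o`. -/
def wg (o : ℕ → ℝ) (i : ℕ) : ℝ := o i / √(2 * (i : ℝ) + 1)
/-- The coordinate vector. -/
def sg (i : ℕ) : E := lp.single 2 i (1 : ℂ)
/-- The vector of the polynomial `L_i`. -/
def pv (o : ℕ → ℝ) (i : ℕ) : E := (wg o i : ℂ) • sg i

open Classical in
/-- The operator of a matrix. -/
def mat (A : ℕ → ℕ → ℂ) : E →L[ℂ] E :=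
  if h : ∃ T : E →L[ℂ] E, ∀ i j, T (sg j) i = A i j then h.choose else 0

open Classical in
/-- The functional of a row. -/
def row (c : ℕ → ℂ) : E →L[ℂ] ℂ :=
  if h : ∃ f : E →L[ℂ] ℂ, ∀ j, f (sg j) = c j then h.choose else 0

/-- Integration in the basis `L_j`. -/
def Vm (i j : ℕ) : ℂ :=
  if i = j + 1 then -(1 / (2 * (2 * (j : ℂ) + 1)))
  else if j = i + 1 then 1 / (2 * (2 * (j : ℂ) + 1))
  else if i = 0 ∧ j = 0 then 1 / 2 else 0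
/-- Differentiation in the basis `L_j`. -/
def dm (i j : ℕ) : ℂ := if i < j ∧ (j - i) % 2 = 1 then -(2 * (2 * (i : ℂ) + 1)) else 0
/-- A matrix in orthonormal coordinates. -/
def cj (o : ℕ → ℝ) (A : ℕ → ℕ → ℂ) (i j : ℕ) : ℂ := A i j * (wg o i : ℂ) / (wg o j : ℂ)

def VW (o : ℕ → ℝ) : E →L[ℂ] E := mat (cj o Vm)
def dW (o : ℕ → ℝ) : E →L[ℂ] E := mat (cj o dm)
def evW (o : ℕ → ℝ) : E →L[ℂ] ℂ := row fun j => 1 / (wg o j : ℂ)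
/-- The inclusion from the weight `o` to the smaller weight `o'`. -/
def JW (o o' : ℕ → ℝ) : E →L[ℂ] E := mat fun i j => if i = j then ((o' i / o i : ℝ) : ℂ) else 0
def piW (m : ℕ) : E →L[ℂ] E := mat fun i j => if i = j ∧ i ≤ m then 1 else 0

/-- The polynomial in `V` that gives `L_i`. -/
def Lt (i : ℕ) : ℂ[X] :=
  ∑ l ∈ range (i + 1),
    monomial l ((-1) ^ l * (i.choose l : ℂ) * ((i + l).choose i : ℂ) * (l ! : ℂ))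
/-- From polynomials in `V` to polynomials in `s`. -/
def bor (g : ℂ[X]) : ℂ[X] := ∑ l ∈ g.support, monomial l (g.coeff l / (l ! : ℂ))

/-- Admissible weights. -/
def Wt (o : ℕ → ℝ) (k : ℝ) : Prop :=
  0 ≤ k ∧ k ≤ 1 / 4 ∧ o 0 = 1 ∧
    ∀ i, 0 < o i ∧ o i ≤ o (i + 1) ∧ o (i + 1) ≤ max 1 (k * ((i : ℝ) + 1)) * o i

/-- Schur test, rows, extensionality. -/
def SM_Schur : Prop :=
  (∀ (A : ℕ → ℕ → ℂ) (C : ℝ), 0 ≤ C → (∀ i (s : Finset ℕ), ∑ j ∈ s, ‖A i j‖ ≤ C) →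
    (∀ j (s : Finset ℕ), ∑ i ∈ s, ‖A i j‖ ≤ C) →
    (∀ i j, mat A (sg j) i = A i j) ∧ ‖mat A‖ ≤ C) ∧
  (∀ (A : ℕ → ℕ → ℂ) (C : ℝ) (T : E →L[ℂ] E), 0 ≤ C → (∀ i j, T (sg j) i = A i j) →
    (∀ i (s : Finset ℕ), ∑ j ∈ s, ‖A i j‖ ≤ C) → (∀ j (s : Finset ℕ), ∑ i ∈ s, ‖A i j‖ ≤ C) →
    ‖T‖ ≤ C) ∧
  (∀ (c : ℕ → ℂ) (C : ℝ), 0 ≤ C → (∀ s : Finset ℕ, ∑ j ∈ s, ‖c j‖ ^ 2 ≤ C ^ 2) →
    (∀ j, row c (sg j) = c j) ∧ ‖row c‖ ≤ C) ∧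
  (∀ (F : Type) [NormedAddCommGroup F] [NormedSpace ℂ F] [CompleteSpace F] (S T : E →L[ℂ] F),
    (∀ j, S (sg j) = T (sg j)) → S = T) ∧
  ∀ (F : Type) [NormedAddCommGroup F] [NormedSpace ℂ F] [CompleteSpace F] (T : E →L[ℂ] F) (C : ℝ),
    0 ≤ C → (∀ s : Finset ℕ, ∑ j ∈ s, ‖T (sg j)‖ ^ 2 ≤ C ^ 2) → ‖T‖ ≤ C

/-- Diagonal operators and weights. -/
def SM_Diag : Prop :=
  (∀ (m : ℕ) (v : E) (i : ℕ), piW m v i = if i ≤ m then v i else 0) ∧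
  (∀ m, ‖piW m‖ ≤ 1 ∧ ‖1 - piW m‖ ≤ 1) ∧
  (∀ v : E, Tendsto (fun m => piW m v) atTop (𝓝 v)) ∧
  (∀ (m : ℕ) (v : E), piW m v = ∑ i ∈ range (m + 1), v i • sg i) ∧
  (∀ o o' : ℕ → ℝ, (∀ i, 0 < o' i ∧ o' i ≤ o i) →
    (∀ (v : E) (i : ℕ), JW o o' v i = ((o' i / o i : ℝ) : ℂ) * v i) ∧ ‖JW o o'‖ ≤ 1 ∧
    ∀ i, JW o o' (pv o i) = pv o' i) ∧
  Wt o1 0 ∧ (∀ D k, Adm D k → Wt (om D k) k ∧ (∀ i, 1 ≤ om D k i ∧ om D k i ≤ (i ! : ℝ)) ∧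
    ∀ i ≤ D, om D k i = 1) ∧
  (∀ D k D' k', Adm D k → Adm D' k' → D ≤ D' → k' ≤ k → ∀ i, om D' k' i ≤ om D k i) ∧
  ∀ (D : ℕ) (k : ℝ), Adm (D / 8) k → 8 ∣ D → k * D = 2048 →
    ‖(1 - piW (D / 4)) * JW (om (D / 8) k) (om D k)‖ ≤ (1 / 2) ^ D

/-- Algebra of the polynomials `Lt`. -/
def SM_Leg : Prop :=
  Lt 0 = 1 ∧ (2 : ℂ) • (X * Lt 0) = Lt 0 - Lt 1 ∧
  (∀ j : ℕ, (2 * (2 * ((j : ℂ) + 1) + 1)) • (X * Lt (j + 1)) = Lt j - Lt (j + 2)) ∧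
  (∀ i, (Lt i).natDegree ≤ i) ∧
  (∀ (m : ℕ) (g : ℂ[X]), g.natDegree ≤ m → ∃ c : ℕ → ℂ, g = ∑ i ∈ range (m + 1), c i • Lt i) ∧
  ∀ i l : ℕ, ∑ l' ∈ range (i + 1), (if l ≤ l' then ‖(Lt i).coeff l'‖ / (l' ! : ℝ) else 0) ≤
    (1 / 7) ^ l * 32 ^ i

/-- Orthogonality. -/
def SM_Orth : Prop :=
  ∀ (m : ℕ) (c : ℕ → ℂ),
    ∫ s in (0 : ℝ)..1, ‖(bor (∑ i ∈ range (m + 1), c i • Lt i)).eval (s : ℂ)‖ ^ 2 =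
      ∑ i ∈ range (m + 1), ‖c i‖ ^ 2 / (2 * (i : ℝ) + 1)

/-- The operator `V` for an admissible weight. -/
def SM_V : Prop :=
  (∀ o k, Wt o k →
    (∀ i j, VW o (sg j) i = cj o Vm i j) ∧
    (2 : ℂ) • VW o (pv o 0) = pv o 0 - pv o 1 ∧
    (∀ j : ℕ, (2 * (2 * ((j : ℂ) + 1) + 1)) • VW o (pv o (j + 1)) = pv o j - pv o (j + 2)) ∧
    (∀ m : ℕ, 1 ≤ m → ‖VW o * (1 - piW m)‖ ≤ 1 / (m : ℝ) + k) ∧
    (∀ m : ℕ, piW m * VW o * (1 - piW (m + 1)) = 0) ∧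
    (∀ m : ℕ, (1 - piW (m + 1)) * VW o * piW m = 0) ∧
    ∀ i, aeval (VW o) (Lt i) (sg 0) = pv o i) ∧
  (∀ D k, Adm D k → ‖VW (om D k) - VW o1‖ ≤ k ∧
    ∀ m, m < D → VW (om D k) * piW m = VW o1 * piW m) ∧
  ∀ v : E, 2 * (inner ℂ v (VW o1 v)).re = ‖inner ℂ (sg 0) v‖ ^ 2

/-- Differentiation and evaluation. -/
def SM_d : Prop :=
  ∀ D k, Adm D k →
    ‖evW (om D k)‖ ≤ 2 * ((D : ℝ) + 1) ∧ ‖dW (om D k)‖ ≤ dd D ∧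
    (∀ v, VW (om D k) (dW (om D k) v) = v - evW (om D k) v • sg 0) ∧
    (∀ v, dW (om D k) (VW (om D k) v) = v) ∧ (∀ v, evW (om D k) (VW (om D k) v) = 0) ∧
    evW (om D k) (sg 0) = 1 ∧ dW (om D k) (sg 0) = 0

/-- The norm of `Y` is the integral norm; powers of `V`. -/
def SM_YN : Prop :=
  (∀ g : ℂ[X], ‖aeval (VW o1) g (sg 0)‖ ^ 2 = ∫ s in (0 : ℝ)..1, ‖(bor g).eval (s : ℂ)‖ ^ 2) ∧
  ‖VW o1‖ ≤ 3 / 4 ∧ ∀ l : ℕ, ‖VW o1 ^ l‖ ≤ 1 / (l ! : ℝ)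

/-- Polynomial vectors, inclusions, powers. -/
def SM_Low : Prop :=
  (∀ o k o' k', Wt o k → Wt o' k' → (∀ i, o' i ≤ o i) →
    (∀ v, JW o o' (VW o v) = VW o' (JW o o' v)) ∧ JW o o' (sg 0) = sg 0 ∧
    ∀ m v, JW o o' (piW m v) = piW m (JW o o' v)) ∧
  (∀ D k D' k', Adm D k → Adm D' k' → D ≤ D' → k' ≤ k →
    ∀ v, JW (om D' k') o1 (JW (om D k) (om D' k') v) = JW (om D k) o1 v) ∧
  (∀ o k, Wt o k → ∀ (m : ℕ) (v : E), ∃ g : ℂ[X], g.natDegree ≤ m ∧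
    piW m v = aeval (VW o) g (sg 0)) ∧
  ∀ D k, Adm D k →
    (∀ g : ℂ[X], g.natDegree ≤ D → aeval (VW (om D k)) g (sg 0) = aeval (VW o1) g (sg 0)) ∧
    (∀ (m : ℕ) (g : ℂ[X]), g.natDegree ≤ m →
      ‖aeval (VW (om D k)) g (sg 0)‖ ≤ (m ! : ℝ) * ‖aeval (VW o1) g (sg 0)‖) ∧
    ∀ N : ℕ, 1 ≤ N → 3 * N ≤ D → ‖VW (om D k) ^ N‖ ≤ 1 / (N ! : ℝ) + (1 / (N : ℝ) + k) ^ N

/-- (F5) and the coefficient bound. -/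
def SM_F5 : Prop :=
  (∀ D k, Adm D k → 2048 ≤ k * D → ∀ (l : ℕ) (v : E),
    ‖JW (om D k) o1 ((VW (om D k) ^ l) ((dW (om D k) ^ l) v))‖ ≤
      (1 / 7) ^ l * (2 * ((D : ℝ) + 1) * 32 ^ D) * ‖v‖) ∧
  ∃ A : ℕ → ℝ, (∀ m, 0 ≤ A m) ∧ ∀ (m : ℕ) (g : ℂ[X]), g.natDegree ≤ m →
    ∀ l, ‖g.coeff l‖ ≤ A m * ‖aeval (VW o1) g (sg 0)‖

/-- Incomplete polynomials. -/
def SM_Ipl : Prop :=
  ∀ (N J : ℕ) (f : ℂ[X]), 0 < N → ∃ h : ℂ[X], h.natDegree ≤ f.natDegree + 5 + N ∧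
    X ^ J ∣ h ∧ (N < J → h = 0) ∧
    ‖aeval (VW o1) (X ^ 5 * f - h) (sg 0)‖ ≤
      min 1 (6144 * ((J : ℝ) / N) ^ 4) * ‖aeval (VW o1) f (sg 0)‖

end Pool.Agent.IS
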