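import Pool.Agent.P.MP_f981b0_an.IS.L1

/-! # (Nod): polynomial nodes on the arcs (helper2)

On the arc `|a φ - 2 π q / 3| ≤ π / 3` the function `t = τ₁ w / (1 - w)` is an analytic function
of `s = sin (a φ - 2 π q / 3 + i η)` on the unit disc; its Taylor polynomial in `s` is a Laurent
polynomial in `ζ = w ^ a` with small `l1` norm. -/

set_option autoImplicit false

namespace ISNod

open Polynomial Finset Complex Metric

/-- Taylor approximation on the unit disc -/
theorem taylor_approx (f : ℂ → ℂ) (B : ℝ) (hf : DifferentiableOn ℂ f (ball 0 1))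
    (hB : ∀ s ∈ ball (0 : ℂ) 1, ‖f s‖ ≤ B) :
    ∃ c : ℕ → ℂ, c 0 = f 0 ∧ (∀ m, ‖c m‖ ≤ B) ∧ ∀ (M : ℕ) (s : ℂ), ‖s‖ ≤ 9 / 10 →
      ‖f s - ∑ m ∈ range M, c m * s ^ m‖ ≤ 10 * B * (9 / 10) ^ M := by
  have hB0 : 0 ≤ B := (norm_nonneg _).trans (hB 0 (by simp))
  set c : ℕ → ℂ := fun m => ((m.factorial : ℂ))⁻¹ * iteratedDeriv m f 0 with hc
  have hcB : ∀ m, ‖c m‖ ≤ B := by
    intro m
    have h1 : ∀ R : ℝ, 0 < R → R < 1 → ‖c m‖ ≤ B / R ^ m := by
      intro R hR0 hR1
      have hd : DiffContOnCl ℂ f (ball 0 R) :=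
        hf.diffContOnCl_ball (closedBall_subset_ball hR1)
      have := norm_iteratedDeriv_le_of_forall_mem_sphere_norm_le m hR0 hd (C := B)
        (fun z hz => hB z (sphere_subset_ball hR1 hz))
      have hf0 : (0 : ℝ) < m.factorial := by exact_mod_cast m.factorial_pos
      simp only [hc, norm_mul, norm_inv, Complex.norm_natCast]
      rw [inv_mul_le_iff₀ hf0]
      calc _ ≤ _ := this
        _ = _ := by ring
    have h2 : Filter.Tendsto (fun R : ℝ => B / R ^ m) (nhdsWithin 1 (Set.Iio 1)) (nhds (B / 1 ^ m)) := by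
      apply Filter.Tendsto.mono_left _ nhdsWithin_le_nhds
      exact (continuousAt_const.div (by fun_prop) (by simp)).tendsto
    have h3 : ‖c m‖ ≤ B / 1 ^ m := by
      refine ge_of_tendsto h2 ?_
      filter_upwards [Ioo_mem_nhdsLT (show (0 : ℝ) < 1 by norm_num)] with R hR
      exact h1 R hR.1 hR.2
    simpa using h3
  refine ⟨c, by simp [hc], hcB, fun M s hs => ?_⟩
  have hs1 : s ∈ ball (0 : ℂ) 1 := by
    rw [mem_ball_zero_iff]; linarith
  have hsum : HasSum (fun m => c m * s ^ m) (f s) := by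
    have := hasSum_taylorSeries_on_ball hf hs1
    have h2 : (fun m => c m * s ^ m) =
        fun n : ℕ => ((n.factorial : ℂ))⁻¹ • (s - 0) ^ n • iteratedDeriv n f 0 := by
      funext m
      simp only [hc, sub_zero, smul_eq_mul]; ring
    rw [h2]; exact this
  have htail : HasSum (fun m => c (m + M) * s ^ (m + M)) (f s - ∑ m ∈ range M, c m * s ^ m) :=
    (hasSum_nat_add_iff' M).2 hsum
  have hgeo : HasSum (fun m : ℕ => B * (9 / 10 : ℝ) ^ M * (9 / 10) ^ m)
      (B * (9 / 10 : ℝ) ^ M * (1 - 9 / 10)⁻¹) :=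
    (hasSum_geometric_of_lt_one (by norm_num) (by norm_num)).mul_left _
  have := htail.norm_le_of_bounded hgeo (fun m => by
    rw [norm_mul, norm_pow, mul_assoc, ← pow_add, add_comm M m]
    exact mul_le_mul (hcB _) (pow_le_pow_left₀ (norm_nonneg _) hs _) (by positivity) hB0)
  calc _ ≤ _ := this
    _ = _ := by norm_num; ring

/-- `√(1 - s²)` -/
noncomputable def rt (s : ℂ) : ℂ := exp (log (1 - s ^ 2) / 2)

/-- `i s + √(1 - s²)` -/
noncomputable def zt (s : ℂ) : ℂ := I * s + rt s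

theorem re_one_sub_sq_pos {s : ℂ} (hs : ‖s‖ < 1) : 0 < (1 - s ^ 2).re := by
  have h1 : (s ^ 2).re ≤ ‖s ^ 2‖ := re_le_norm _
  have h2 : ‖s ^ 2‖ < 1 := by rw [norm_pow]; nlinarith [norm_nonneg s]
  simp only [sub_re, one_re]; linarith

theorem rt_sq {s : ℂ} (hs : ‖s‖ < 1) : rt s ^ 2 = 1 - s ^ 2 := by
  have h : (1 - s ^ 2) ≠ 0 := fun h => by simpa [h] using re_one_sub_sq_pos hs
  rw [rt, ← Complex.exp_nat_mul]
  have : ((2 : ℕ) : ℂ) * (log (1 - s ^ 2) / 2) = log (1 - s ^ 2) := by push_cast; ring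
  rw [this, exp_log h]

theorem rt_re_pos (s : ℂ) (hs : ‖s‖ < 1) : 0 < (rt s).re := by
  have h := (abs_arg_lt_pi_div_two_iff (z := 1 - s ^ 2)).2 (Or.inl (re_one_sub_sq_pos hs))
  rw [rt, exp_re]
  refine mul_pos (Real.exp_pos _) (Real.cos_pos_of_mem_Ioo ?_)
  have : (log (1 - s ^ 2) / 2).im = arg (1 - s ^ 2) / 2 := by
    rw [div_ofNat_im, log_im]
  rw [this]
  rw [abs_lt] at h
  constructor <;> linarith [Real.pi_pos]

theorem zt_mul {s : ℂ} (hs : ‖s‖ < 1) : zt s * (rt s - I * s) = 1 := by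
  have := rt_sq hs
  unfold zt
  linear_combination this - s ^ 2 * I_sq

theorem zt_re_pos {s : ℂ} (hs : ‖s‖ < 1) : 0 < (zt s).re := by
  have h1 := zt_mul hs
  have h2 := rt_re_pos s hs
  set z := zt s with hz
  set z' := rt s - I * s with hz'
  have h3 : z.re + z'.re = 2 * (rt s).re := by
    simp only [hz, hz', zt, add_re, sub_re]; ring
  have hre : z.re * z'.re - z.im * z'.im = 1 := by simpa using congrArg Complex.re h1
  have him : z.re * z'.im + z.im * z'.re = 0 := by simpa using congrArg Complex.im h1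
  by_contra hneg
  push Not at hneg
  have h4 : 0 < z'.re := by linarith
  have h5 : z.re * (z'.re ^ 2 + z'.im ^ 2) = z'.re := by
    linear_combination z'.re * hre + z'.im * him
  nlinarith [mul_nonneg (neg_nonneg.2 hneg) (add_nonneg (sq_nonneg z'.re) (sq_nonneg z'.im))]

theorem norm_zt_le {s : ℂ} (hs : ‖s‖ < 1) : ‖zt s‖ ≤ 5 / 2 := by
  have h1 : ‖rt s‖ ^ 2 ≤ 2 := by
    rw [← norm_pow, rt_sq hs]
    refine (norm_sub_le _ _).trans ?_
    rw [norm_pow, norm_one]; nlinarith [norm_nonneg s]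
  have h2 : ‖rt s‖ ≤ 3 / 2 := by nlinarith [norm_nonneg (rt s)]
  refine (norm_add_le _ _).trans ?_
  rw [norm_mul, norm_I]; linarith

theorem diff_log_zt : DifferentiableOn ℂ (fun s => log (zt s)) (ball 0 1) := by
  intro s hs
  rw [mem_ball_zero_iff] at hs
  refine DifferentiableAt.differentiableWithinAt ?_
  have h1 : DifferentiableAt ℂ rt s := by
    unfold rt
    refine DifferentiableAt.cexp (DifferentiableAt.div_const (DifferentiableAt.clog (by fun_prop) ?_) _)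
    exact Or.inl (re_one_sub_sq_pos hs)
  refine DifferentiableAt.clog ?_ (Or.inl (zt_re_pos hs))
  unfold zt
  exact (differentiableAt_id.const_mul I).add h1

theorem zt_zero : zt 0 = 1 := by simp [zt, rt]

/-- the point of the arc -/
theorem arc_facts {θ η : ℝ} (hθ : |θ| ≤ Real.pi / 3) (hη0 : 0 ≤ η) (hη : η ≤ 1 / 10) :
    ‖sin ((θ : ℂ) + η * I)‖ ≤ 9 / 10 ∧ log (zt (sin ((θ : ℂ) + η * I))) = -η + θ * I := by
  have hcos : 1 / 2 ≤ Real.cos θ := by
    rw [← Real.cos_abs, ← Real.cos_pi_div_three]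
    exact Real.cos_le_cos_of_nonneg_of_le_pi (abs_nonneg _) (by linarith [Real.pi_pos]) hθ
  have hsh0 : 0 ≤ Real.sinh η := Real.sinh_nonneg_iff.2 hη0
  have hsh : Real.sinh η ≤ 1 / 5 := by
    rw [Real.sinh_eq]
    have h1 := Real.exp_bound_div_one_sub_of_interval hη0 (by linarith)
    have h2 := Real.add_one_le_exp (-η)
    have h3 : 1 / (1 - η) ≤ 10 / 9 := by
      rw [div_le_div_iff₀ (by linarith) (by norm_num)]; linarith
    linarith
  have hn : ‖sin ((θ : ℂ) + η * I)‖ ≤ 9 / 10 := by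
    have h1 : ‖sin ((θ : ℂ) + η * I)‖ ^ 2 =
        (Real.sin θ * Real.cosh η) ^ 2 + (Real.cos θ * Real.sinh η) ^ 2 := by
      rw [sin_add_mul_I, ← ofReal_sin, ← ofReal_cos, ← ofReal_cosh, ← ofReal_sinh, ← ofReal_mul,
        ← ofReal_mul, Complex.sq_norm, normSq_add_mul_I]
    have h2 := Real.cosh_sq η
    have h3 := Real.sin_sq_add_cos_sq θ
    have h4 : ‖sin ((θ : ℂ) + η * I)‖ ^ 2 = Real.sin θ ^ 2 + Real.sinh η ^ 2 := by
      rw [h1]; linear_combination Real.sin θ ^ 2 * h2 + Real.sinh η ^ 2 * h3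
    have h5 : ‖sin ((θ : ℂ) + η * I)‖ ^ 2 ≤ (9 / 10) ^ 2 := by rw [h4]; nlinarith
    exact abs_le_of_sq_le_sq' h5 (by norm_num) |>.2
  refine ⟨hn, ?_⟩
  set u : ℂ := (θ : ℂ) + η * I with hu
  have hs1 : ‖sin u‖ < 1 := by linarith
  have hcre : 0 < (cos u).re := by
    rw [hu, cos_add_mul_I, ← ofReal_sin, ← ofReal_cos, ← ofReal_cosh, ← ofReal_sinh, ← ofReal_mul,
      ← ofReal_mul]
    simp only [sub_re, ofReal_re, mul_re, I_re, mul_zero, ofReal_im, I_im, mul_one, sub_self,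
      sub_zero]
    exact mul_pos (by linarith) (Real.cosh_pos _)
  have hrt : rt (sin u) = cos u := by
    have h1 : rt (sin u) ^ 2 = cos u ^ 2 := by rw [rt_sq hs1, cos_sq']
    rcases sq_eq_sq_iff_eq_or_eq_neg.1 h1 with h | h
    · exact h
    · have := rt_re_pos _ hs1
      rw [h, neg_re] at this; linarith
  have hz : zt (sin u) = exp (-η + θ * I) := by
    rw [zt, hrt]
    have : (-η + θ * I : ℂ) = u * I := by
      rw [hu]; linear_combination (-η : ℂ) * I_sq
    rw [this, exp_mul_I]; ring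
  rw [hz]
  rw [abs_le] at hθ
  refine log_exp ?_ ?_ <;> simp <;> linarith [Real.pi_pos]

/-- `2 i sin u` in terms of `e^{iu}` -/
theorem sin_mul (θ η : ℝ) :
    exp (-η + θ * I) * sin ((θ : ℂ) + η * I) = (exp (-η + θ * I) ^ 2 - 1) / (2 * I) := by
  set u : ℂ := (θ : ℂ) + η * I with hu
  have : (-η + θ * I : ℂ) = u * I := by
    rw [hu]; linear_combination (-η : ℂ) * I_sq
  rw [this, exp_mul_I, eq_div_iff (by simp)]
  linear_combination (sin u) ^ 2 * I_sq - (cos_sq_add_sin_sq u)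

theorem pow_w (a : ℕ) (ha : a ≠ 0) (η φ : ℝ) :
    exp (((-η / a : ℝ) : ℂ) + φ * I) ^ a = exp (-η + (a * φ : ℝ) * I) := by
  rw [← Complex.exp_nat_mul]
  congr 1
  have : (a : ℂ) ≠ 0 := by exact_mod_cast ha
  push_cast; field_simp

theorem norm_exp_arc (η x : ℝ) (hη0 : 0 ≤ η) : ‖exp (-η + x * I : ℂ)‖ ≤ 1 := by
  rw [norm_exp]
  simpa using hη0

/-- **(Nod), `q ≠ 0`.** -/
theorem nod_ne (a L : ℕ) (τ₁ : ℝ) (hτ : 0 ≤ τ₁) (q : ℤ) (hq0 : q ≠ 0) (hq : 4 * |q| ≤ a) :
    ∃ μ : ℂ[X], l1 μ ≤ 4 * (a * τ₁) * (L + 1) ∧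
      ∀ η φ : ℝ, 0 ≤ η → η ≤ 1 / 10 → |a * φ - 2 * Real.pi * q / 3| ≤ Real.pi / 3 →
        ∀ w : ℂ, w = exp (((-η / a : ℝ) : ℂ) + φ * I) →
          ‖(w ^ a) ^ L * (τ₁ * w / (1 - w)) - μ.eval (w ^ a)‖ ≤ 40 * (a * τ₁) * (9 / 10) ^ L := by
  have hq1 : (1 : ℝ) ≤ |(q : ℝ)| := by exact_mod_cast Int.one_le_abs hq0
  have hqa : 4 * |(q : ℝ)| ≤ a := by exact_mod_cast hq
  have ha4 : (4 : ℝ) ≤ a := by linarith
  have ha0 : a ≠ 0 := by rintro rfl; norm_num at ha4
  have haC : (a : ℂ) ≠ 0 := by exact_mod_cast ha0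
  set ψ : ℝ := 2 * Real.pi * q / 3 with hψ
  set W : ℂ → ℂ := fun s => exp ((ψ * I + log (zt s)) / a) with hW
  have hpi := Real.pi_pos
  have hψabs : |ψ| = 2 * Real.pi * |(q : ℝ)| / 3 := by
    rw [hψ, abs_div, abs_mul, abs_of_pos (by positivity : 0 < 2 * Real.pi)]; norm_num
  -- lower bound for `1 - W`
  have hlow : ∀ s : ℂ, ‖s‖ < 1 → ‖W s‖ ≤ 3 * a * ‖1 - W s‖ := by
    intro s hs
    have h1 := (abs_arg_lt_pi_div_two_iff (z := zt s)).2 (Or.inl (zt_re_pos hs))
    set α : ℝ := (ψ + arg (zt s)) / a with hα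
    have him : ((ψ * I + log (zt s)) / a).im = α := by
      rw [div_natCast_im]; simp [hα, log_im]
    have h2 : (W s).im = ‖W s‖ * Real.sin α := by
      simp only [hW]; rw [exp_im, norm_exp, him]
    have hαabs : |α| = |ψ + arg (zt s)| / a := by
      rw [hα, abs_div, abs_of_pos (by linarith : (0 : ℝ) < a)]
    have h3 : Real.pi / 6 ≤ |ψ + arg (zt s)| := by
      have := abs_sub_abs_le_abs_add ψ (arg (zt s))
      nlinarith
    have h4 : |ψ + arg (zt s)| ≤ Real.pi / 2 * a := by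
      have := abs_add_le ψ (arg (zt s))
      nlinarith
    have h5 : |α| ≤ Real.pi / 2 := by
      rw [hαabs, div_le_iff₀ (by linarith)]; exact h4
    have h6 := Real.mul_abs_le_abs_sin h5
    have h7 : 1 ≤ 3 * a * |Real.sin α| := by
      have h8 : 1 / (3 * a) ≤ 2 / Real.pi * |α| := by
        rw [hαabs]
        calc 1 / (3 * (a : ℝ)) = 2 / Real.pi * (Real.pi / 6 / a) := by field_simp; norm_num
          _ ≤ _ := by gcongr
      have h9 := h8.trans h6
      rw [div_le_iff₀ (by linarith)] at h9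
      linarith
    have h10 : ‖W s‖ * |Real.sin α| ≤ ‖1 - W s‖ := by
      have := abs_im_le_norm (1 - W s)
      rw [sub_im, one_im, zero_sub, abs_neg, h2, abs_mul, abs_of_nonneg (norm_nonneg _)] at this
      exact this
    nlinarith [norm_nonneg (W s)]
  have hW0 : ∀ s, 0 < ‖W s‖ := fun s => norm_pos_iff.2 (exp_ne_zero _)
  have hne : ∀ s : ℂ, ‖s‖ < 1 → 1 - W s ≠ 0 := by
    intro s hs h
    have := hlow s hs
    rw [h, norm_zero, mul_zero] at this
    linarith [hW0 s]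
  have hWd : DifferentiableOn ℂ W (ball 0 1) :=
    (((differentiableOn_const _).add diff_log_zt).div_const _).cexp
  obtain ⟨c, -, hc, happ⟩ := taylor_approx (fun s => τ₁ * W s / (1 - W s)) (4 * (a * τ₁))
    ((hWd.const_mul _).div ((differentiableOn_const _).sub hWd)
      (fun s hs => hne s (mem_ball_zero_iff.1 hs)))
    (fun s hs => by
      have hs' := mem_ball_zero_iff.1 hs
      rw [norm_div, norm_mul, norm_real, Real.norm_of_nonneg hτ,
        div_le_iff₀ (norm_pos_iff.2 (hne s hs'))]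
      have := hlow s hs'
      have h0 := norm_nonneg (1 - W s)
      nlinarith [mul_le_mul_of_nonneg_left this hτ, mul_nonneg (mul_nonneg hτ h0) (by linarith : (0:ℝ) ≤ a)])
  set e : ℂ := exp (ψ * I) with he
  have he1 : ‖e‖ = 1 := by rw [he]; exact norm_exp_ofReal_mul_I ψ
  have he0 : e ≠ 0 := exp_ne_zero _
  set S : ℂ[X] := C (e⁻¹ / (2 * I)) * X ^ 2 - C (e / (2 * I)) with hS
  have hSl : l1 S ≤ 1 := by
    refine (l1_sub_le _ _).trans ?_
    have := l1_C_mul_le (e⁻¹ / (2 * I)) (X ^ 2)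
    rw [l1_C]
    simp only [norm_div, norm_inv, he1, norm_mul, norm_I, l1_X_pow, Complex.norm_ofNat] at this ⊢
    linarith
  refine ⟨∑ m ∈ range (L + 1), C (c m) * (X ^ (L - m) * S ^ m), ?_, ?_⟩
  · refine (l1_sum_le _ _).trans ?_
    have : ∀ m ∈ range (L + 1), l1 (C (c m) * (X ^ (L - m) * S ^ m)) ≤ 4 * (a * τ₁) := by
      intro m _
      refine (l1_C_mul_le _ _).trans ?_
      have h1 : l1 (X ^ (L - m) * S ^ m) ≤ 1 := by
        refine (l1_mul_le _ _).trans ?_
        rw [l1_X_pow, one_mul]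
        exact (l1_pow_le _ _).trans (pow_le_one₀ (l1_nonneg _) hSl)
      nlinarith [hc m, norm_nonneg (c m), l1_nonneg (X ^ (L - m) * S ^ m)]
    refine (Finset.sum_le_card_nsmul _ _ _ this).trans ?_
    simp [mul_comm]
  · intro η φ hη0 hη hφ w hw
    obtain ⟨hn, hlog⟩ := arc_facts hφ hη0 hη
    set θ : ℝ := a * φ - ψ with hθ
    set s : ℂ := sin ((θ : ℂ) + η * I) with hs
    have hWs : W s = w := by
      simp only [hW]
      rw [hlog, hw]
      congr 1
      rw [hθ]; push_cast; field_simp; ring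
    have hζ : w ^ a = exp (-η + θ * I) * e := by
      rw [hw, pow_w a ha0, he, ← Complex.exp_add]
      congr 1
      rw [hθ]; push_cast; ring
    have hSe : S.eval (w ^ a) = w ^ a * s := by
      have h1 := sin_mul θ η
      rw [← hs] at h1
      simp only [hS, eval_sub, eval_mul, eval_C, eval_pow, eval_X]
      rw [hζ, mul_right_comm, h1]
      field_simp
    have hζn : ‖w ^ a‖ ≤ 1 := by
      rw [hζ, norm_mul, he1, mul_one]; exact norm_exp_arc η θ hη0
    have hev : (∑ m ∈ range (L + 1), C (c m) * (X ^ (L - m) * S ^ m)).eval (w ^ a) =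
        (w ^ a) ^ L * ∑ m ∈ range (L + 1), c m * s ^ m := by
      rw [eval_finsetSum, Finset.mul_sum]
      refine Finset.sum_congr rfl fun m hm => ?_
      have hm' : m ≤ L := Nat.lt_succ_iff.1 (mem_range.1 hm)
      simp only [eval_mul, eval_C, eval_pow, eval_X, hSe]
      obtain ⟨k, rfl⟩ := Nat.exists_eq_add_of_le hm'
      rw [Nat.add_sub_cancel_left, mul_pow, pow_add]; ring
    rw [hev, ← mul_sub, norm_mul, norm_pow]
    have h1 := happ (L + 1) s hn
    simp only [hWs] at h1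
    have h2 : ‖w ^ a‖ ^ L ≤ 1 := pow_le_one₀ (norm_nonneg _) hζn
    have h3 : (0 : ℝ) ≤ a * τ₁ * (9 / 10) ^ L := by positivity
    calc _ ≤ 1 * (10 * (4 * (a * τ₁)) * (9 / 10) ^ (L + 1)) :=
          mul_le_mul h2 h1 (norm_nonneg _) zero_le_one
      _ ≤ _ := by rw [pow_succ]; nlinarith

/-- **(Nod), `q = 0`.** -/
theorem nod_zero (a L : ℕ) (ha : 1 ≤ a) (τ₁ : ℝ) (hτ : 0 ≤ τ₁) :
    ∃ μ : ℂ[X], l1 μ ≤ 4 * (a * τ₁) * (L + 1) ∧
      ∀ η φ : ℝ, 0 ≤ η → η ≤ 1 / 10 → |a * φ| ≤ Real.pi / 3 →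
        ∀ w : ℂ, w = exp (((-η / a : ℝ) : ℂ) + φ * I) → w ≠ 1 →
          ‖(1 - w ^ a) * ((w ^ a) ^ L * (τ₁ * w / (1 - w)) - μ.eval (w ^ a))
            - (a * τ₁ : ℝ) * (w ^ a) ^ L‖ ≤ 40 * (a * τ₁) * (9 / 10) ^ L := by
  have ha1 : (1 : ℝ) ≤ a := by exact_mod_cast ha
  have ha0 : a ≠ 0 := by omega
  have haC : (a : ℂ) ≠ 0 := by exact_mod_cast ha0
  set W : ℂ → ℂ := fun s => exp (log (zt s) / a) with hW
  have hWd : DifferentiableOn ℂ W (ball 0 1) := (diff_log_zt.div_const _).cexp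
  have hWb : ∀ s : ℂ, ‖s‖ < 1 → ∀ i : ℕ, i ≤ a → ‖W s ^ i‖ ≤ 5 / 2 := by
    intro s hs i hi
    have hz0 : zt s ≠ 0 := fun h => by simpa [h] using zt_re_pos hs
    have hWa : W s ^ a = zt s := by
      simp only [hW]
      rw [← Complex.exp_nat_mul, mul_div_cancel₀ _ haC, exp_log hz0]
    rw [norm_pow]
    rcases le_total ‖W s‖ 1 with h | h
    · exact (pow_le_one₀ (norm_nonneg _) h).trans (by norm_num)
    · refine (pow_le_pow_right₀ h hi).trans ?_
      rw [← norm_pow, hWa]; exact norm_zt_le hs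
  obtain ⟨c, hc0, hc, happ⟩ := taylor_approx
    (fun s => τ₁ * ∑ i ∈ range a, (W s ^ (i + 1) - 1)) (4 * (a * τ₁))
    (DifferentiableOn.const_mul (DifferentiableOn.fun_sum fun i _ =>
      (hWd.pow _).sub (differentiableOn_const _)) _)
    (fun s hs => by
      have hs' := mem_ball_zero_iff.1 hs
      rw [norm_mul, norm_real, Real.norm_of_nonneg hτ]
      have h1 : ‖∑ i ∈ range a, (W s ^ (i + 1) - 1)‖ ≤ a * 4 := by
        refine (norm_sum_le _ _).trans ?_
        have : ∀ i ∈ range a, ‖W s ^ (i + 1) - 1‖ ≤ 4 := by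
          intro i hi
          refine (norm_sub_le _ _).trans ?_
          have := hWb s hs' (i + 1) (mem_range.1 hi)
          rw [norm_one]; linarith
        simpa using Finset.sum_le_card_nsmul _ _ _ this
      nlinarith [mul_le_mul_of_nonneg_left h1 hτ])
  have hc0' : c 0 = 0 := by rw [hc0]; simp [hW, zt_zero]
  set S : ℂ[X] := C (1 / (2 * I)) * X ^ 2 - C (1 / (2 * I)) with hS
  set S' : ℂ[X] := -(C (1 / (2 * I)) * X + C (1 / (2 * I))) with hS'
  have hSl : l1 S ≤ 1 := by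
    refine (l1_sub_le _ _).trans ?_
    have := l1_C_mul_le (1 / (2 * I)) (X ^ 2)
    rw [l1_C]
    simp only [norm_div, norm_one, norm_mul, norm_I, l1_X_pow, Complex.norm_ofNat] at this ⊢
    linarith
  have hSl' : l1 S' ≤ 1 := by
    rw [hS', l1_neg]
    refine (l1_add_le _ _).trans ?_
    have := l1_C_mul_le (1 / (2 * I)) X
    rw [l1_C]
    simp only [norm_div, norm_one, norm_mul, norm_I, l1_X, Complex.norm_ofNat] at this ⊢
    linarith
  refine ⟨∑ m ∈ range L, C (c (m + 1)) * (X ^ (L - (m + 1)) * (S' * S ^ m)), ?_, ?_⟩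
  · refine (l1_sum_le _ _).trans ?_
    have : ∀ m ∈ range L,
        l1 (C (c (m + 1)) * (X ^ (L - (m + 1)) * (S' * S ^ m))) ≤ 4 * (a * τ₁) := by
      intro m _
      refine (l1_C_mul_le _ _).trans ?_
      have h1 : l1 (X ^ (L - (m + 1)) * (S' * S ^ m)) ≤ 1 := by
        refine (l1_mul_le _ _).trans ?_
        rw [l1_X_pow, one_mul]
        refine (l1_mul_le _ _).trans ?_
        exact mul_le_one₀ hSl' (l1_nonneg _)
          ((l1_pow_le _ _).trans (pow_le_one₀ (l1_nonneg _) hSl))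
      nlinarith [hc (m + 1), norm_nonneg (c (m + 1)), l1_nonneg (X ^ (L - (m + 1)) * (S' * S ^ m))]
    refine (Finset.sum_le_card_nsmul _ _ _ this).trans ?_
    have : (0 : ℝ) ≤ a * τ₁ := by positivity
    simp only [card_range, nsmul_eq_mul]
    nlinarith
  · intro η φ hη0 hη hφ w hw hw1
    obtain ⟨hn, hlog⟩ := arc_facts hφ hη0 hη
    set θ : ℝ := a * φ with hθ
    set s : ℂ := sin ((θ : ℂ) + η * I) with hs
    have hWs : W s = w := by
      simp only [hW]
      rw [hlog, hw]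
      congr 1
      rw [hθ]; push_cast; field_simp
    have hζ : w ^ a = exp (-η + θ * I) := by rw [hw, pow_w a ha0]
    have hSe : ((w ^ a) ^ 2 - 1) / (2 * I) = w ^ a * s := by
      have h1 := sin_mul θ η
      rw [← hs, ← hζ] at h1
      exact h1.symm
    have hSe1 : S.eval (w ^ a) = w ^ a * s := by
      rw [← hSe]
      simp only [hS, eval_sub, eval_mul, eval_C, eval_pow, eval_X]; ring
    have hSe2 : (1 - w ^ a) * S'.eval (w ^ a) = w ^ a * s := by
      rw [← hSe]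
      simp only [hS', eval_neg, eval_add, eval_mul, eval_C, eval_X]; ring
    have hζn : ‖w ^ a‖ ≤ 1 := by rw [hζ]; exact norm_exp_arc η θ hη0
    have hev : (1 - w ^ a) *
        (∑ m ∈ range L, C (c (m + 1)) * (X ^ (L - (m + 1)) * (S' * S ^ m))).eval (w ^ a) =
        (w ^ a) ^ L * ∑ m ∈ range (L + 1), c m * s ^ m := by
      rw [eval_finsetSum, Finset.sum_range_succ', hc0', zero_mul, add_zero, Finset.mul_sum,
        Finset.mul_sum]
      refine Finset.sum_congr rfl fun m hm => ?_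
      have hm' : m + 1 ≤ L := mem_range.1 hm
      simp only [eval_mul, eval_C, eval_pow, eval_X, hSe1]
      obtain ⟨k, rfl⟩ := Nat.exists_eq_add_of_le hm'
      rw [Nat.add_sub_cancel_left, mul_pow, pow_add (w ^ a) (m + 1) k, pow_succ (w ^ a) m,
        pow_succ s m]
      linear_combination c (m + 1) * (w ^ a) ^ k * ((w ^ a) ^ m * s ^ m) * hSe2
    have hgeo : (1 - w ^ a) * (τ₁ * w / (1 - w)) - (a * τ₁ : ℝ) =
        τ₁ * ∑ i ∈ range a, (w ^ (i + 1) - 1) := by
      have h1 : 1 - w ≠ 0 := sub_ne_zero.2 hw1.symm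
      have h2 := mul_neg_geom_sum w a
      rw [Finset.sum_sub_distrib]
      simp only [pow_succ, ← Finset.sum_mul, sum_const, card_range, nsmul_eq_mul, mul_one]
      rw [← h2]; push_cast; field_simp
    have h0 : (1 - w ^ a) * ((w ^ a) ^ L * (τ₁ * w / (1 - w)) -
        (∑ m ∈ range L, C (c (m + 1)) * (X ^ (L - (m + 1)) * (S' * S ^ m))).eval (w ^ a))
          - (a * τ₁ : ℝ) * (w ^ a) ^ L =
        (w ^ a) ^ L * (τ₁ * ∑ i ∈ range a, (w ^ (i + 1) - 1) -
          ∑ m ∈ range (L + 1), c m * s ^ m) := by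
      rw [mul_sub (1 - w ^ a), hev, ← hgeo]; ring
    rw [h0, norm_mul, norm_pow]
    have h1 := happ (L + 1) s hn
    simp only [hWs] at h1
    have h2 : ‖w ^ a‖ ^ L ≤ 1 := pow_le_one₀ (norm_nonneg _) hζn
    have h3 : (0 : ℝ) ≤ a * τ₁ * (9 / 10) ^ L := by positivity
    calc _ ≤ 1 * (10 * (4 * (a * τ₁)) * (9 / 10) ^ (L + 1)) :=
          mul_le_mul h2 h1 (norm_nonneg _) zero_le_one
      _ ≤ _ := by rw [pow_succ]; nlinarith

/-- the arcs with `|q| ≤ j` cover `|x| ≤ (j + 1/2) 2π/3` -/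
theorem cover (j : ℕ) (x : ℝ) (hx : |x| ≤ (j + 1 / 2) * (2 * Real.pi / 3)) :
    ∃ q : ℤ, |q| ≤ j ∧ |x - 2 * Real.pi * q / 3| ≤ Real.pi / 3 := by
  have hpi := Real.pi_pos
  induction j with
  | zero =>
    refine ⟨0, by simp, ?_⟩
    simp only [Int.cast_zero, mul_zero, zero_div, sub_zero]
    simp only [Nat.cast_zero, zero_add] at hx
    linarith
  | succ j ih =>
    by_cases h : |x| ≤ (j + 1 / 2) * (2 * Real.pi / 3)
    · obtain ⟨q, h1, h2⟩ := ih h
      exact ⟨q, by push_cast; omega, h2⟩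
    · push Not at h
      push_cast at hx
      rcases le_total 0 x with h0 | h0
      · rw [abs_of_nonneg h0] at h hx
        refine ⟨(j : ℤ) + 1, by push_cast; rw [abs_of_nonneg (by omega)], ?_⟩
        push_cast
        rw [abs_le]; constructor <;> nlinarith
      · rw [abs_of_nonpos h0] at h hx
        refine ⟨-((j : ℤ) + 1), by push_cast; rw [abs_neg, abs_of_nonneg (by omega)], ?_⟩
        push_cast
        rw [abs_le]; constructor <;> nlinarith

end ISNod
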