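import Pool.Agent.P.MP_f981b0_an.IS.Stmt

/-! The circle mean formula (Avg). -/

set_option autoImplicit false

open Polynomial Finset Filter Topology Real Metric

noncomputable section

namespace Pool.Agent.IS

theorem Avg_norm {g : ℂ → ℂ} {r C : ℝ} (hr : 0 ≤ r) (h : ∀ w ∈ sphere (0 : ℂ) r, ‖g w‖ ≤ C) :
    ‖circleAverage g 0 r‖ ≤ C := by
  have h1 := intervalIntegral.norm_integral_le_of_norm_le_const (a := 0) (b := 2 * π)
    (f := fun θ => g (circleMap 0 r θ)) (C := C) fun θ _ => h _ (circleMap_mem_sphere 0 hr θ)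
  have h2 : 0 < 2 * π := by positivity
  rw [sub_zero, abs_of_pos h2] at h1
  rw [circleAverage_def, norm_smul, Real.norm_of_nonneg (inv_nonneg.2 h2.le),
    inv_mul_le_iff₀ h2]
  exact h1.trans_eq (mul_comm _ _)

theorem Avg_lim {K : ℂ → ℂ} {r : ℝ} (hr : 0 ≤ r) (hr1 : r < 1) (hK : ContinuousOn K (sphere 0 r)) :
    Tendsto (fun N : ℕ => circleAverage (fun w => w ^ N * K w) 0 r) atTop (𝓝 0) := by
  obtain ⟨C, hC⟩ := (isCompact_sphere (0 : ℂ) r).exists_bound_of_continuousOn hK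
  refine squeeze_zero_norm (a := fun N => r ^ N * C) (fun N => Avg_norm hr fun w hw => ?_) ?_
  · rw [norm_mul, norm_pow, mem_sphere_zero_iff_norm.1 hw]
    exact mul_le_mul_of_nonneg_left (hC w hw) (pow_nonneg hr _)
  · simpa using (tendsto_pow_atTop_nhds_zero_of_lt_one hr hr1).mul_const C

theorem Avg_uniq {a b : ℕ → ℂ} (h : ∀ N, a N - a (N + 1) = b N - b (N + 1))
    (ha : Tendsto a atTop (𝓝 0)) (hb : Tendsto b atTop (𝓝 0)) (N : ℕ) : a N = b N := by
  have h1 : ∀ k, a (k + N) - b (k + N) = a N - b N := by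
    intro k
    induction k with
    | zero => simp
    | succ k ih =>
      rw [← ih, add_right_comm]
      linear_combination -h (k + N)
  have h2 := ((tendsto_add_atTop_iff_nat N).2 ha).sub ((tendsto_add_atTop_iff_nat N).2 hb)
  simp only [h1, sub_zero] at h2
  exact sub_eq_zero.1 (tendsto_nhds_unique tendsto_const_nhds h2)

theorem Avg_mono {r : ℝ} (hr : 0 < r) (N n : ℕ) :
    ∫ θ in (0 : ℝ)..2 * π, circleMap 0 r θ ^ N * (circleMap 0 r θ)⁻¹ ^ n =
      if n = N then ((2 * π : ℝ) : ℂ) else 0 := by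
  have hr' : (r : ℂ) ≠ 0 := by exact_mod_cast hr.ne'
  split_ifs with h
  · subst h
    rw [intervalIntegral.integral_congr (g := fun _ => (1 : ℂ)) fun θ _ => by
      simp only [← mul_pow, mul_inv_cancel₀ (circleMap_ne_center hr.ne'), one_pow]]
    simp
  · have h1 : ∀ θ : ℝ, circleMap 0 r θ ^ N * (circleMap 0 r θ)⁻¹ ^ n =
        ((r : ℂ) ^ N * (r : ℂ)⁻¹ ^ n) * Complex.exp ((((N : ℂ) - n) * Complex.I) * θ) := by
      intro θ
      rw [circleMap_zero, mul_inv, mul_pow, mul_pow, ← Complex.exp_neg, ← Complex.exp_nat_mul,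
        ← Complex.exp_nat_mul, mul_mul_mul_comm, ← Complex.exp_add]
      congr 2
      ring
    have h2 : ((N : ℂ) - n) * Complex.I ≠ 0 :=
      mul_ne_zero (sub_ne_zero.2 fun hh => h (by exact_mod_cast hh.symm)) Complex.I_ne_zero
    simp only [h1]
    rw [intervalIntegral.integral_const_mul, integral_exp_mul_complex h2]
    have h3 := Complex.exp_int_mul_two_pi_mul_I ((N : ℤ) - n)
    have h4 : ((N : ℂ) - n) * Complex.I * ((2 * π : ℝ) : ℂ) =
        (((N : ℤ) - n : ℤ) : ℂ) * (2 * π * Complex.I) := by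
      push_cast
      ring
    rw [h4, h3]
    simp

theorem Avg_coeff {c : ℕ → ℂ} {r : ℝ} (hr : 0 < r) (hs : Summable fun n : ℕ => ‖c n‖ * r⁻¹ ^ n)
    (N : ℕ) : circleAverage (fun w => w ^ N * ∑' n : ℕ, c n * w⁻¹ ^ n) 0 r = c N := by
  have hn : ∀ θ, ‖circleMap 0 r θ‖ = r := fun θ => by
    rw [norm_circleMap_zero, abs_of_pos hr]
  have hb : ∀ n θ, ‖c n * (circleMap 0 r θ)⁻¹ ^ n‖ = ‖c n‖ * r⁻¹ ^ n := fun n θ => by
    rw [norm_mul, norm_pow, norm_inv, hn]
  have hs' : ∀ θ, Summable fun n : ℕ => c n * (circleMap 0 r θ)⁻¹ ^ n := fun θ =>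
    Summable.of_norm (hs.congr fun n => (hb n θ).symm)
  have h1 := intervalIntegral.hasSum_integral_of_dominated_convergence (μ := MeasureTheory.volume)
    (a := 0) (b := 2 * π)
    (F := fun n θ => circleMap 0 r θ ^ N * (c n * (circleMap 0 r θ)⁻¹ ^ n))
    (f := fun θ => circleMap 0 r θ ^ N * ∑' n : ℕ, c n * (circleMap 0 r θ)⁻¹ ^ n)
    (fun n _ => r ^ N * (‖c n‖ * r⁻¹ ^ n))
    (fun n => Continuous.aestronglyMeasurable (((continuous_circleMap 0 r).pow N).mul
      (continuous_const.mul (((continuous_circleMap 0 r).inv₀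
        fun θ => circleMap_ne_center hr.ne').pow n))))
    (fun n => MeasureTheory.ae_of_all _ fun θ _ => by rw [norm_mul, hb, norm_pow, hn])
    (MeasureTheory.ae_of_all _ fun θ _ => hs.mul_left _) intervalIntegrable_const
    (MeasureTheory.ae_of_all _ fun θ _ => (hs' θ).hasSum.mul_left _)
  simp only [mul_left_comm _ (c _), intervalIntegral.integral_const_mul, Avg_mono hr, mul_ite,
    mul_zero] at h1
  have h0 : (fun n => if n = N then c n * ((2 * π : ℝ) : ℂ) else 0) =
      fun n => if n = N then c N * ((2 * π : ℝ) : ℂ) else 0 := funext fun n => by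
    split_ifs with h
    · rw [h]
    · rfl
  rw [h0] at h1
  have h2 := (hasSum_ite_eq N (c N * ((2 * π : ℝ) : ℂ))).unique h1
  have h3 : ((2 * π : ℝ) : ℂ) ≠ 0 := by exact_mod_cast (by positivity : (2 * π : ℝ) ≠ 0)
  rw [circleAverage_def, ← h2, Complex.real_smul, Complex.ofReal_inv]
  field_simp

theorem p_Avg (h1 : S_G1) (h2 : S_Yh) : S_Avg := by
  intro M D y e' hD hy
  have G := h1 M D hD
  obtain ⟨-, y2, y3, -⟩ := h2 M D y e' hD hy
  have hD0 : (1 : ℝ) ≤ D := by exact_mod_cast (show 1 ≤ D by have := hD.1; omega)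
  have a1 : (1 : ℝ) ≤ aa D := by
    unfold aa
    push_cast
    linarith
  have e0 : 0 < eta D := pow_pos (th_pos D) _
  have e1 : eta D ≤ 1 := pow_le_one₀ (th_pos D).le (pow_le_one₀ (by norm_num) (by norm_num))
  have r0 : 0 < r1 D := Real.exp_pos _
  have rl : r1 D < 1 := Real.exp_lt_one_iff.2 (div_neg_of_neg_of_pos (neg_neg_of_pos e0) (by linarith))
  have rg : 1 / 4 < r1 D := by
    have b1 : -1 ≤ -(eta D) / aa D := by
      rw [le_div_iff₀ (by linarith)]
      linarith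
    have b2 := Real.exp_neg_one_gt_d9
    have b3 := Real.exp_le_exp.2 b1
    unfold r1
    linarith
  have n0 : (n1 D : ℂ) ≠ 0 := by
    have : n1 D ≠ 0 := by
      unfold n1
      have := hD.1
      positivity
    exact_mod_cast this
  have hne : ∀ w ∈ sphere (0 : ℂ) (r1 D), 1 - w ≠ 0 := by
    intro w hw h
    have := mem_sphere_zero_iff_norm.1 hw
    rw [← sub_eq_zero.1 h, norm_one] at this
    linarith
  have cy : ContinuousOn (M.yh D y) (sphere 0 (r1 D)) := y2.continuousOn.mono fun w hw => by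
    have := mem_sphere_zero_iff_norm.1 hw
    simp only [Set.mem_ofPred_eq]
    linarith
  have cK : ∀ (N : ℕ) (f : ℂ → ℂ), ContinuousOn f (sphere 0 (r1 D)) →
      ContinuousOn (fun w => w ^ N * f w * M.yh D y w / (1 - w)) (sphere 0 (r1 D)) :=
    fun N f hf => ((((continuous_pow N).continuousOn).mul hf).mul cy).div (by fun_prop) hne
  have iK : ∀ (N : ℕ) (f : ℂ → ℂ), ContinuousOn f (sphere 0 (r1 D)) →
      CircleIntegrable (fun w => w ^ N * f w * M.yh D y w / (1 - w)) 0 (r1 D) :=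
    fun N f hf => (cK N f hf).circleIntegrable r0.le
  have lK : ∀ f : ℂ → ℂ, ContinuousOn f (sphere 0 (r1 D)) → Tendsto (fun N : ℕ =>
      circleAverage (fun w => w ^ N * f w * M.yh D y w / (1 - w)) 0 (r1 D)) atTop (𝓝 0) := by
    intro f hf
    have := Avg_lim r0.le rl (cK 0 f hf)
    simpa only [pow_zero, one_mul, mul_assoc, mul_div_assoc] using this
  have lW : ∀ v : E, Tendsto (fun N : ℕ => y ((M.W D ^ N) v)) atTop (𝓝 0) := by
    intro v
    refine squeeze_zero_norm (a := fun N => ‖y‖ * 8 ^ N0 D * ‖v‖ * (1 / 8) ^ N) (fun N => ?_) ?_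
    · refine (y.le_opNorm _).trans ?_
      have := (M.W D ^ N).le_of_opNorm_le (G.W_pow N) v
      calc _ ≤ ‖y‖ * (8 ^ N0 D / 8 ^ N * ‖v‖) := mul_le_mul_of_nonneg_left this (norm_nonneg _)
        _ = _ := by
          rw [one_div, inv_pow]
          ring
    · simpa using (tendsto_pow_atTop_nhds_zero_of_lt_one (r := (1 / 8 : ℝ)) (by norm_num)
        (by norm_num)).const_mul (‖y‖ * 8 ^ N0 D * ‖v‖)
  have sph : ∀ {f g : ℂ → ℂ}, (∀ w, 1 - w ≠ 0 → f w = g w) →
      circleAverage f 0 (r1 D) = circleAverage g 0 (r1 D) := fun h =>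
    circleAverage_congr_sphere fun w hw => h w (hne w (by rwa [abs_of_pos r0] at hw))
  refine ⟨⟨continuousOn_const, Avg_uniq (fun N => ?_) (lW _) (lK _ continuousOn_const)⟩, ?_, ?_,
    ?_, ?_⟩
  · rw [← circleAverage_fun_sub (iK _ _ continuousOn_const) (iK _ _ continuousOn_const)]
    refine (Avg_coeff (c := fun N => M.nu D y N - M.nu D y (N + 1)) r0 (y3 _ rg) N).symm.trans
      (sph fun w hw => ?_)
    change w ^ N * M.yh D y w = _
    field_simp
    ring
  · rintro v v' f f' ⟨c1, s1⟩ ⟨c2, s2⟩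
    refine ⟨c1.add c2, fun N => ?_⟩
    rw [map_add, map_add, s1, s2, ← circleAverage_fun_add (iK _ _ c1) (iK _ _ c2)]
    exact sph fun w _ => by ring
  · rintro a v f ⟨c1, s1⟩
    refine ⟨continuousOn_const.mul c1, fun N => ?_⟩
    rw [map_smul, map_smul, s1, ← circleAverage_fun_smul]
    exact sph fun w _ => by
      rw [smul_eq_mul]
      ring
  · rintro v f ⟨c1, s1⟩
    refine ⟨continuousOn_id.mul c1, fun N => ?_⟩
    rw [← mul_apply_eq_comp, ← pow_succ, s1]
    exact sph fun w _ => by ring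
  · rintro v f ⟨c1, s1⟩
    have ct : ContinuousOn (fun w => tw D w * f w) (sphere 0 (r1 D)) :=
      (continuousOn_id.div (by fun_prop) fun w hw => mul_ne_zero (hne w hw) n0).mul c1
    refine ⟨ct, Avg_uniq (fun N => ?_) (lW _) (lK _ ct)⟩
    have b1 : M.W D ^ N * M.VG D - M.W D ^ (N + 1) * M.VG D = ((n1 D : ℂ)⁻¹) • M.W D ^ (N + 1) := by
      rw [pow_succ, ← mul_smul_comm, ← G.W_eq, sub_mul, one_mul, mul_sub, mul_assoc]
    rw [← mul_apply_eq_comp, ← mul_apply_eq_comp, ← map_sub, ← sub_apply, b1, smul_apply, map_smul,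
      s1, ← circleAverage_fun_smul, ← circleAverage_fun_sub (iK _ _ ct) (iK _ _ ct)]
    refine sph fun w hw => ?_
    rw [smul_eq_mul, tw]
    field_simp
    ring

end Pool.Agent.IS
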