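import Pool.Agent.P.MP_f981b0_an.IS.Glob

/-!
Package Dg of the project IS: diagonal operators on the sum of the levels.
-/

set_option autoImplicit false

open Polynomial Finset Filter Topology
open scoped Nat Real

noncomputable section

namespace Pool.Agent.IS

theorem Dg_hasSum (x : KS) : HasSum (fun i => ‖x i‖ ^ 2) (‖x‖ ^ 2) := by
  have h := lp.hasSum_norm (p := 2) (by norm_num) x
  simpa using h

theorem Dg_sum_le (x : KS) (s : Finset (ℕ × ℕ)) : ∑ i ∈ s, ‖x i‖ ^ 2 ≤ ‖x‖ ^ 2 :=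
  sum_le_hasSum s (fun _ _ => by positivity) (Dg_hasSum x)

theorem Dg_pt (A : ℕ × ℕ → E →L[ℂ] E) (C : ℝ) (hA : ∀ i, ‖A i‖ ≤ C) (x : KS) (i : ℕ × ℕ) :
    ‖A i (x i)‖ ^ 2 ≤ C ^ 2 * ‖x i‖ ^ 2 := by
  rw [← mul_pow]
  refine pow_le_pow_left₀ (norm_nonneg _) ?_ 2
  exact ((A i).le_opNorm _).trans (mul_le_mul_of_nonneg_right (hA i) (norm_nonneg _))

theorem Dg_mem (A : ℕ × ℕ → E →L[ℂ] E) (C : ℝ) (hA : ∀ i, ‖A i‖ ≤ C) (x : KS) :
    Memℓp (fun i => A i (x i)) 2 := by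
  apply memℓp_gen
  have h : Summable fun i => ‖A i (x i)‖ ^ 2 :=
    Summable.of_nonneg_of_le (fun _ => by positivity) (Dg_pt A C hA x)
      ((Dg_hasSum x).summable.mul_left _)
  simpa using h

theorem Dg_norm_le (A : ℕ × ℕ → E →L[ℂ] E) (C : ℝ) (hC : 0 ≤ C) (hA : ∀ i, ‖A i‖ ≤ C) (x y : KS)
    (hy : ∀ i, y i = A i (x i)) : ‖y‖ ≤ C * ‖x‖ := by
  have h : ‖y‖ ^ 2 ≤ (C * ‖x‖) ^ 2 := by
    rw [mul_pow]
    refine hasSum_le (fun i => ?_) (Dg_hasSum y) ((Dg_hasSum x).mul_left (C ^ 2))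
    rw [hy i]
    exact Dg_pt A C hA x i
  exact (pow_le_pow_iff_left₀ (norm_nonneg _) (by positivity) two_ne_zero).1 h

theorem Dg_exists (A : ℕ × ℕ → E →L[ℂ] E) (C : ℝ) (hC : 0 ≤ C) (hA : ∀ i, ‖A i‖ ≤ C) :
    ∃ T : KS →L[ℂ] KS, ∀ (x : KS) (i : ℕ × ℕ), T x i = A i (x i) := by
  let L : KS →ₗ[ℂ] KS :=
    { toFun := fun x => ⟨fun i => A i (x i), Dg_mem A C hA x⟩
      map_add' := fun x y => by
        apply lp.ext
        funext i
        change A i ((x + y) i) = A i (x i) + A i (y i)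
        rw [lp.coeFn_add, Pi.add_apply, map_add]
      map_smul' := fun c x => by
        apply lp.ext
        funext i
        change A i ((c • x) i) = c • A i (x i)
        rw [lp.coeFn_smul, Pi.smul_apply, map_smul] }
  refine ⟨L.mkContinuous C (fun x => Dg_norm_le A C hC hA x _ (fun _ => rfl)), fun x i => rfl⟩

theorem Dg_apply (A : ℕ × ℕ → E →L[ℂ] E) (C : ℝ) (hC : 0 ≤ C) (hA : ∀ i, ‖A i‖ ≤ C)
    (x : KS) (i : ℕ × ℕ) : dg A x i = A i (x i) := by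
  have h := Dg_exists A C hC hA
  unfold dg
  rw [dif_pos h]
  exact h.choose_spec x i

theorem Dg_opNorm (A : ℕ × ℕ → E →L[ℂ] E) (C : ℝ) (hC : 0 ≤ C) (hA : ∀ i, ‖A i‖ ≤ C) :
    ‖dg A‖ ≤ C :=
  ContinuousLinearMap.opNorm_le_bound _ hC fun x =>
    Dg_norm_le A C hC hA x _ (Dg_apply A C hC hA x)

theorem Dg_tail_bd (n : ℕ) (i : ℕ × ℕ) : ‖(if n < i.1 then 1 else 0 : E →L[ℂ] E)‖ ≤ 1 := by
  split_ifs
  · exact ContinuousLinearMap.norm_id_le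
  · simp

theorem Dg_tail_apply (n : ℕ) (x : KS) (i : ℕ × ℕ) :
    tailP n x i = if n < i.1 then x i else 0 := by
  unfold tailP
  rw [Dg_apply _ 1 zero_le_one (Dg_tail_bd n)]
  split_ifs <;> simp

theorem Dg_tail_le (n : ℕ) (x : KS) : ‖tailP n x‖ ≤ ‖x‖ := by
  have h := Dg_norm_le _ 1 zero_le_one (Dg_tail_bd n) x (tailP n x)
    (Dg_apply _ 1 zero_le_one (Dg_tail_bd n) x)
  simpa using h

theorem Dg_tail_tendsto (x : KS) : Tendsto (fun n => ‖tailP n x‖) atTop (𝓝 0) := by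
  have h1 : Tendsto (fun n => ∑' i, ‖tailP n x i‖ ^ 2) atTop (𝓝 (∑' _ : ℕ × ℕ, (0 : ℝ))) := by
    refine tendsto_tsum_of_dominated_convergence (bound := fun i => ‖x i‖ ^ 2)
      (Dg_hasSum x).summable (fun i => ?_) (Eventually.of_forall fun n i => ?_)
    · refine tendsto_const_nhds.congr' ?_
      filter_upwards [eventually_ge_atTop i.1] with n hn
      rw [Dg_tail_apply, if_neg (by omega)]
      simp
    · rw [Dg_tail_apply]
      split_ifs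
      · simp
      · simp
  have h2 : Tendsto (fun n => ‖tailP n x‖ ^ 2) atTop (𝓝 0) := by
    simp only [tsum_zero] at h1
    refine h1.congr fun n => (Dg_hasSum _).tsum_eq
  have h3 := h2.sqrt
  simpa using h3

theorem Dg_eps_nonneg (D n : ℕ) (x : KS) : 0 ≤ eps D n x := Real.sqrt_nonneg _

theorem Dg_eps_sq (D n : ℕ) (x : KS) :
    eps D n x ^ 2 = ∑ k ∈ range (KK D + 2), ‖x (n, k)‖ ^ 2 :=
  Real.sq_sqrt (sum_nonneg fun _ _ => by positivity)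

theorem Dg_sum_eps (Ds : ℕ → ℕ) (N : ℕ) (x : KS) (s : Finset ℕ) (hs : ∀ n ∈ s, N < n) :
    ∑ n ∈ s, eps (Ds n) n x ^ 2 ≤ ‖tailP N x‖ ^ 2 := by
  set K := s.sup fun n => KK (Ds n) + 2 with hK
  calc ∑ n ∈ s, eps (Ds n) n x ^ 2 ≤ ∑ n ∈ s, ∑ k ∈ range K, ‖tailP N x (n, k)‖ ^ 2 := by
        refine sum_le_sum fun n hn => ?_
        rw [Dg_eps_sq]
        have hle : KK (Ds n) + 2 ≤ K := Finset.le_sup (f := fun n => KK (Ds n) + 2) hn
        calc _ ≤ ∑ k ∈ range K, ‖x (n, k)‖ ^ 2 :=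
              sum_le_sum_of_subset_of_nonneg (range_subset_range.2 hle) fun _ _ _ => by positivity
          _ = _ := sum_congr rfl fun k _ => by rw [Dg_tail_apply, if_pos (hs n hn)]
    _ = ∑ i ∈ s ×ˢ range K, ‖tailP N x i‖ ^ 2 := by rw [sum_product]
    _ ≤ _ := Dg_sum_le _ _

theorem Dg_eps_tail (D n N : ℕ) (x : KS) (h : N < n) : eps D n x ≤ ‖tailP N x‖ := by
  have h1 := Dg_sum_eps (fun _ => D) N x {n} (by simpa using h)
  rw [sum_singleton] at h1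
  exact (pow_le_pow_iff_left₀ (Dg_eps_nonneg _ _ _) (norm_nonneg _) two_ne_zero).1 h1

theorem Dg_eps_le (D n : ℕ) (x : KS) : eps D n x ≤ ‖x‖ := by
  have h1 : eps D n x ^ 2 ≤ ‖x‖ ^ 2 := by
    rw [Dg_eps_sq]
    have h2 := Dg_sum_le x (({n} : Finset ℕ) ×ˢ range (KK D + 2))
    rwa [sum_product, sum_singleton] at h2
  exact (pow_le_pow_iff_left₀ (Dg_eps_nonneg _ _ _) (norm_nonneg _) two_ne_zero).1 h1

theorem p_Dg : S_Dg := by
  refine ⟨fun A C hC hA => ⟨Dg_apply A C hC hA, Dg_opNorm A C hC hA⟩, fun x i => rfl,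
    Dg_tail_le, Dg_tail_tendsto, fun Ds N x z s hs => ?_,
    fun D n N x => ⟨Dg_eps_le D n x, Dg_eps_tail D n N x⟩⟩
  refine (Real.sum_mul_le_sqrt_mul_sqrt s _ _).trans ?_
  refine mul_le_mul ?_ ?_ (Real.sqrt_nonneg _) (norm_nonneg _)
  · exact Real.sqrt_le_iff.2 ⟨norm_nonneg _, Dg_sum_eps Ds N x s hs⟩
  · exact Real.sqrt_le_iff.2 ⟨norm_nonneg _, Dg_sum_eps Ds N z s hs⟩

end Pool.Agent.IS
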