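import Pool.Agent.P.MP_f981b0_an.IS.PDiv

/-! The dividing polynomial: abstract part and numerical part. -/

set_option autoImplicit false

open Polynomial Finset Filter Topology
open scoped Nat Real

noncomputable section

namespace Pool.Agent.IS

theorem End_pow {A A' S : E →L[ℂ] E} (h : ∀ v, S (A v) = A' (S v)) (l : ℕ) (v : E) :
    S ((A ^ l) v) = (A' ^ l) (S v) := by
  induction l generalizing v with
  | zero => simp
  | succ l ih =>
    rw [pow_succ, pow_succ]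
    show S ((A ^ l) (A v)) = (A' ^ l) (A' (S v))
    rw [ih, h]

theorem End_aeval {A A' S : E →L[ℂ] E} (h : ∀ v, S (A v) = A' (S v)) (g : ℂ[X]) (v : E) :
    S (aeval A g v) = aeval A' g (S v) := by
  induction g using Polynomial.induction_on' with
  | add p q hp hq => simp [hp, hq]
  | monomial n a =>
    rw [aeval_monomial, aeval_monomial, Algebra.algebraMap_eq_smul_one, smul_mul_assoc,
      smul_mul_assoc, one_mul, one_mul]
    show S (a • (A ^ n) v) = a • (A' ^ n) (S v)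
    rw [map_smul, End_pow h]

/-- The truncated series as a polynomial. -/
def End_tr (ph : ℕ → ℂ) (L : ℕ) : ℂ[X] := ∑ l ∈ range L, monomial l (ph l)

theorem End_tr_coeff (ph : ℕ → ℂ) (L l : ℕ) :
    (End_tr ph L).coeff l = if l < L then ph l else 0 := by
  simp [End_tr, coeff_monomial]

theorem End_tr_aeval (ph : ℕ → ℂ) (L : ℕ) (A : E →L[ℂ] E) (v : E) :
    aeval A (End_tr ph L) v = ∑ l ∈ range L, ph l • (A ^ l) v := by
  simp [End_tr, map_sum, aeval_monomial, Algebra.algebraMap_eq_smul_one]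

theorem End_abs (hDiv : S_Div) {VG A2 i2 V JG : E →L[ℂ] E} {y y2 : E →L[ℂ] ℂ} {Z r Q C : ℝ}
    {one x G : E} {f q : ℂ → ℂ} {rx rG : ℂ → E} (hr : 0 < r) (hZ : r⁻¹ ≤ Z) (hS2 : Sm A2 Z)
    (hSV : Sm V Z) (hi : ∀ v, i2 (VG v) = A2 (i2 v)) (hJ : ∀ v, JG (VG v) = V (JG v))
    (hy : ∀ v, y2 (i2 v) = y v) (hJn : ‖JG‖ ≤ 1)
    (cq : ContinuousOn q (Metric.sphere 0 r)) (cr : ContinuousOn rx (Metric.sphere 0 r))
    (dG : DifferentiableOn ℂ rG (Metric.closedBall 0 r)) (h0 : rG 0 = 0)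
    (hx : ∀ t : ℂ, ‖t‖ = r → x = f t • one - (rx t - t⁻¹ • VG (rx t)))
    (hG : ∀ t : ℂ, ‖t‖ = r → G = (q t * f t) • one - (rG t - t⁻¹ • VG (rG t)))
    (hq : ∀ t : ℂ, ‖t‖ = r → ‖q t‖ ≤ Q) (hQ1 : Q ≤ 1)
    (hC1 : ∀ t : ℂ, ‖t‖ = r → ‖rx t‖ ≤ C) (hC2 : ∀ t : ℂ, ‖t‖ = r → ‖y ((VG ^ 5) (rx t))‖ ≤ C)
    (hQC : Q * C ≤ 1 / 16) :
    ∃ b : ℂ[X], (∀ l, ‖b.coeff l‖ ≤ Z ^ l) ∧
      ‖y (aeval VG (X ^ 5 * b) x) - y ((VG ^ 5) G)‖ ≤ 1 / 8 ∧
      ‖aeval V b (JG x)‖ ≤ ‖G‖ + 1 := by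
  have hZ0 : 0 ≤ Z := (inv_pos.2 hr).le.trans hZ
  have hQ0 : 0 ≤ Q := (norm_nonneg _).trans (hq (r : ℂ) (by simp [abs_of_pos hr]))
  set ph : ℕ → ℂ := fun l => Real.circleAverage (fun t => q t * t⁻¹ ^ l) 0 r with hph
  set R : E := Real.circleAverage (fun t => q t • rx t) 0 r with hR
  have H2 : HasSum (fun l : ℕ => ph l • (A2 ^ l) (i2 x)) (i2 (G - R)) :=
    hDiv E E VG A2 i2 Z r one x G f q rx rG hr hZ hS2 hi cq cr dG h0 hx hG
  have HV : HasSum (fun l : ℕ => ph l • (V ^ l) (JG x)) (JG (G - R)) :=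
    hDiv E E VG V JG Z r one x G f q rx rG hr hZ hSV hJ cq cr dG h0 hx hG
  have hphl : ∀ l, ‖ph l‖ ≤ Z ^ l := fun l =>
    DivAux.norm_avg_le hr fun t ht => by
      rw [norm_mul, norm_pow, norm_inv, ht]
      calc ‖q t‖ * r⁻¹ ^ l ≤ 1 * Z ^ l :=
            mul_le_mul ((hq t ht).trans hQ1) (pow_le_pow_left₀ (inv_pos.2 hr).le hZ l)
              (by positivity) zero_le_one
        _ = Z ^ l := one_mul _
  have hRn : ‖R‖ ≤ 1 / 16 := by
    refine le_trans (DivAux.norm_avg_le hr fun t ht => ?_) hQC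
    rw [norm_smul]
    exact mul_le_mul (hq t ht) (hC1 t ht) (norm_nonneg _) hQ0
  have hci : CircleIntegrable (fun t => q t • rx t) 0 r := (cq.smul cr).circleIntegrable hr.le
  have hRy : ‖y ((VG ^ 5) R)‖ ≤ 1 / 16 := by
    have e1 : Real.circleAverage (fun t => (y ∘L (VG ^ 5)) (q t • rx t)) 0 r = y ((VG ^ 5) R) :=
      DivAux.avg_clm (y ∘L (VG ^ 5)) hci
    rw [← e1]
    refine le_trans (DivAux.norm_avg_le hr fun t ht => ?_) hQC
    rw [map_smul, norm_smul, ContinuousLinearMap.comp_apply]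
    exact mul_le_mul (hq t ht) (hC2 t ht) (norm_nonneg _) hQ0
  have H3 : HasSum (fun l : ℕ => y ((VG ^ 5) (ph l • (VG ^ l) x))) (y ((VG ^ 5) (G - R))) := by
    have h1 := (y2 ∘L (A2 ^ 5)).hasSum H2
    have h2 : ∀ v, (y2 ∘L (A2 ^ 5)) (i2 v) = y ((VG ^ 5) v) := fun v => by
      rw [ContinuousLinearMap.comp_apply, ← End_pow hi, hy]
    rw [h2] at h1
    have h3 : (fun l : ℕ => y ((VG ^ 5) (ph l • (VG ^ l) x))) =
        fun l : ℕ => (y2 ∘L (A2 ^ 5)) (ph l • (A2 ^ l) (i2 x)) := by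
      funext l
      rw [← End_pow hi, ← map_smul i2, h2]
    rw [h3]
    exact h1
  have T3 := H3.tendsto_sum_nat
  have TV := HV.tendsto_sum_nat
  have E3 := Metric.tendsto_atTop.1 T3 (1 / 16) (by norm_num)
  have EV := Metric.tendsto_atTop.1 TV (1 / 2) (by norm_num)
  obtain ⟨L3, hL3⟩ := E3
  obtain ⟨LV, hLV⟩ := EV
  have k3 := hL3 (max L3 LV) (le_max_left _ _)
  have kV := hLV (max L3 LV) (le_max_right _ _)
  rw [dist_eq_norm] at k3 kV
  refine ⟨End_tr ph (max L3 LV), fun l => ?_, ?_, ?_⟩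
  · rw [End_tr_coeff]
    split_ifs
    · exact hphl l
    · simpa using pow_nonneg hZ0 l
  · have e1 : y (aeval VG (X ^ 5 * End_tr ph (max L3 LV)) x) =
        ∑ l ∈ range (max L3 LV), y ((VG ^ 5) (ph l • (VG ^ l) x)) := by
      rw [map_mul, map_pow, aeval_X]
      show y ((VG ^ 5) (aeval VG (End_tr ph (max L3 LV)) x)) = _
      rw [End_tr_aeval, map_sum, map_sum]
    rw [e1]
    have e2 : ∑ l ∈ range (max L3 LV), y ((VG ^ 5) (ph l • (VG ^ l) x)) - y ((VG ^ 5) G) =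
        (∑ l ∈ range (max L3 LV), y ((VG ^ 5) (ph l • (VG ^ l) x)) - y ((VG ^ 5) (G - R))) -
          y ((VG ^ 5) R) := by
      rw [map_sub, map_sub]; ring
    rw [e2]
    have := norm_sub_le (∑ l ∈ range (max L3 LV), y ((VG ^ 5) (ph l • (VG ^ l) x)) -
      y ((VG ^ 5) (G - R))) (y ((VG ^ 5) R))
    linarith
  · rw [End_tr_aeval]
    have h1 : ‖JG (G - R)‖ ≤ ‖G‖ + 1 / 16 := by
      calc ‖JG (G - R)‖ ≤ ‖JG‖ * ‖G - R‖ := JG.le_opNorm _
        _ ≤ 1 * (‖G‖ + ‖R‖) := mul_le_mul hJn (norm_sub_le _ _) (norm_nonneg _) zero_le_one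
        _ ≤ ‖G‖ + 1 / 16 := by linarith
    have h2 := norm_le_norm_add_norm_sub' (∑ l ∈ range (max L3 LV), ph l • (V ^ l) (JG x))
      (JG (G - R))
    linarith

end Pool.Agent.IS
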