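import Pool.Agent.P.MP_f981b0_an.IS.Stmt

/-! The basic facts on the spaces of one level. -/

set_option autoImplicit false

open Polynomial Finset Filter Topology
open scoped Nat Real

noncomputable section

namespace Pool.Agent.IS

theorem G1_pow_le_one {A : E →L[ℂ] E} (h : ‖A‖ ≤ 1) (r : ℕ) : ‖A ^ r‖ ≤ 1 := by
  induction r with
  | zero => exact ContinuousLinearMap.norm_id_le
  | succ r ih =>
    rw [pow_succ]
    exact (norm_mul_le _ _).trans (mul_le_one₀ ih (norm_nonneg _) h)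

theorem G1_pow_le {A : E →L[ℂ] E} {c : ℝ} (h : ‖A‖ ≤ c) (r : ℕ) : ‖A ^ r‖ ≤ c ^ r := by
  have hc : 0 ≤ c := (norm_nonneg _).trans h
  induction r with
  | zero => exact ContinuousLinearMap.norm_id_le
  | succ r ih =>
    rw [pow_succ, pow_succ]
    exact (norm_mul_le _ _).trans (mul_le_mul ih h (norm_nonneg _) (by positivity))

theorem G1_geom {A : E →L[ℂ] E} {c : ℝ} {N : ℕ} (h : ‖A‖ ≤ 1) (hN : 0 < N) (hc : 0 < c)
    (hc1 : c ≤ 1) (hA : ‖A ^ N‖ ≤ c ^ N) (l : ℕ) : ‖A ^ l‖ ≤ c ^ l / c ^ N := by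
  have e : A ^ l = (A ^ N) ^ (l / N) * A ^ (l % N) := by
    rw [← pow_mul, ← pow_add, Nat.div_add_mod]
  have h1 : ‖A ^ l‖ ≤ (c ^ N) ^ (l / N) := by
    rw [e]
    exact (norm_mul_le _ _).trans ((mul_le_of_le_one_right (norm_nonneg _)
      (G1_pow_le_one h _)).trans (G1_pow_le hA _))
  refine h1.trans ?_
  rw [le_div_iff₀ (by positivity), ← pow_mul, ← pow_add]
  refine pow_le_pow_of_le_one hc.le hc1 ?_
  have := Nat.div_add_mod l N
  have := Nat.mod_lt l hN
  omega

theorem G1_fact {n : ℝ} {N : ℕ} (hn : 0 < n) (hN : (N : ℝ) = 64 * n) (h2 : 2 ≤ N) :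
    1 / (N ! : ℝ) + (1 / (N : ℝ) + 1 / (64 * n)) ^ N ≤ (1 / (16 * n)) ^ N := by
  have hf : (0 : ℝ) < N ! := by exact_mod_cast Nat.factorial_pos N
  have h1 := Real.pow_div_factorial_le_exp (N : ℝ) (by positivity) N
  have h3 : Real.exp N ≤ 3 ^ N := by
    rw [← Real.exp_one_pow]
    exact pow_le_pow_left₀ (Real.exp_pos _).le (by linarith [Real.exp_one_lt_d9]) N
  have hN0 : (0 : ℝ) < N := by rw [hN]; positivity
  have h4 : 1 / (N ! : ℝ) ≤ (3 / 4) ^ N * (1 / (16 * n)) ^ N := by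
    rw [← mul_pow, show 3 / 4 * (1 / (16 * n)) = 3 / (N : ℝ) by rw [hN]; field_simp; norm_num,
      div_pow, div_le_div_iff₀ hf (by positivity), one_mul]
    rw [div_le_iff₀ hf] at h1
    exact h1.trans (mul_le_mul_of_nonneg_right h3 hf.le)
  have h5 : (1 / (N : ℝ) + 1 / (64 * n)) ^ N = (1 / 2) ^ N * (1 / (16 * n)) ^ N := by
    rw [← mul_pow, hN]; congr 1; field_simp; norm_num
  have h6 : (3 / 4 : ℝ) ^ N ≤ (3 / 4) ^ 2 := pow_le_pow_of_le_one (by norm_num) (by norm_num) h2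
  have h7 : (1 / 2 : ℝ) ^ N ≤ (1 / 2) ^ 2 := pow_le_pow_of_le_one (by norm_num) (by norm_num) h2
  have h8 : 0 ≤ (1 / (16 * n)) ^ N := by positivity
  rw [h5]
  nlinarith

theorem G1_norm (M : Model) {D : ℕ} {k : ℝ} (h : Adm D k) : ‖M.VS D k‖ ≤ 1 := by
  have h1 := norm_add_le (M.VS D k - M.V) M.V
  rw [sub_add_cancel] at h1
  linarith [M.VS_sub D k h, M.V_norm, h.2.1]

theorem G1_accr0 (M : Model) (v : E) : -(0 : ℝ) * ‖v‖ ^ 2 ≤ (inner ℂ v (M.V v)).re := by
  have := M.accr v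
  have h2 := sq_nonneg ‖inner ℂ M.one v‖
  rw [neg_zero, zero_mul]
  linarith

theorem G1_accr (M : Model) {D : ℕ} {k : ℝ} (h : Adm D k) (v : E) :
    -k * ‖v‖ ^ 2 ≤ (inner ℂ v (M.VS D k v)).re := by
  have e : M.VS D k v = M.V v + (M.VS D k - M.V) v := by simp
  have h1 := G1_accr0 M v
  have h2 : ‖inner ℂ v ((M.VS D k - M.V) v)‖ ≤ ‖v‖ * (k * ‖v‖) :=
    (norm_inner_le_norm _ _).trans (mul_le_mul_of_nonneg_left
      (((M.VS D k - M.V).le_opNorm v).trans
        (mul_le_mul_of_nonneg_right (M.VS_sub D k h) (norm_nonneg _))) (norm_nonneg _))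
  have h3 := (abs_le.1 (Complex.abs_re_le_norm (inner ℂ v ((M.VS D k - M.V) v)))).1
  rw [e, inner_add_right, Complex.add_re]
  nlinarith

theorem p_G1 (hRes : S_Res) (hAcc : S_Acc) : S_G1 := by
  intro M D hB
  have hD : (65536 : ℝ) ≤ D := by exact_mod_cast hB.1
  have hn : D ≤ n1 D := by
    have : 1 ≤ 2 ^ (20 * D) := Nat.one_le_two_pow
    unfold n1; nlinarith
  have hn0 : 0 < n1 D := by have := hB.1; omega
  have hnr : (D : ℝ) ≤ n1 D := by exact_mod_cast hn
  have hnp : (0 : ℝ) < n1 D := by linarith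
  have kapD : kap D * D = 2048 := by unfold kap; field_simp
  have hk0 : 0 < kap D := by unfold kap; positivity
  have hk1 : kap D ≤ 1 / 4 := by unfold kap; rw [div_le_iff₀ (by linarith)]; linarith
  have admF : Adm D (kap D) := ⟨hk0, hk1, by rw [kapD]; norm_num⟩
  have adm8 : Adm (D / 8) (kap D) := ⟨hk0, hk1, by
    obtain ⟨m, hm⟩ := hB.2
    have h1 : D / 8 = m := by omega
    have h2 : (D : ℝ) = 8 * m := by exact_mod_cast hm
    rw [h1]
    have h3 : kap D * (8 * m) = 2048 := by rw [← h2]; exact kapD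
    linarith⟩
  have hg0 : 0 < kG D := by unfold kG; positivity
  have admG : Adm (DG D) (kG D) := ⟨hg0, by
    unfold kG; exact one_div_le_one_div_of_le (by norm_num) (by linarith), by
    unfold kG DG; push_cast; field_simp; norm_num⟩
  have VG1 : ‖M.VG D‖ ≤ 1 := G1_norm M admG
  have hN0 : 2 ≤ N0 D := by unfold N0; omega
  have hpow : ‖M.VG D ^ N0 D‖ ≤ (1 / (16 * (n1 D : ℝ))) ^ N0 D :=
    (M.VS_pow _ _ admG (N0 D) (by omega) (by unfold N0 DG; omega)).trans
      (G1_fact hnp (by unfold N0; push_cast; ring) hN0)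
  have hc1 : 1 / (16 * (n1 D : ℝ)) ≤ 1 := by
    rw [div_le_one (by positivity)]; linarith
  have sm : Sm (M.VG D) (3 * n1 D) := by
    refine Summable.of_nonneg_of_le (fun l => by positivity) (fun l => ?_)
      ((summable_geometric_of_lt_one (r := 3 / 16) (by norm_num) (by norm_num)).div_const
        ((1 / (16 * (n1 D : ℝ))) ^ N0 D))
    refine (mul_le_mul_of_nonneg_left (G1_geom VG1 (by omega) (by positivity) hc1 hpow l)
      (by positivity)).trans_eq ?_
    rw [← mul_div_assoc, ← mul_pow]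
    congr 2
    field_simp
  have accr := G1_accr M admG
  have hz : ‖(-(n1 D : ℂ))‖ ≤ 3 * (n1 D : ℝ) := by
    rw [norm_neg, Complex.norm_natCast]; linarith
  obtain ⟨a1, a2, a3, a4, a5, a6⟩ := (hAcc E (M.VG D) (kG D) (3 * n1 D) hg0.le accr sm).2 (n1 D)
    hn0 (by linarith) (by unfold kG; exact one_div_le_one_div_of_le (by positivity) (by linarith))
  have smV : Sm M.V (3 * n1 D) := (hRes.2.2 E M.V M.V 0 (3 * n1 D) M.V_pow (by simp)
    (by positivity) (by simp)).1
  obtain ⟨-, -, b3, -⟩ := (hAcc E M.V 0 (3 * n1 D) le_rfl (G1_accr0 M) smV).2 (n1 D)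
    hn0 (by linarith) (by positivity)
  have hR : Commute ((n1 D : ℂ) • res (M.VG D) (-(n1 D : ℂ))) (M.VG D) :=
    (hRes.1 E (M.VG D) _ _ sm hz).2.2.2.1.smul_left _
  have hRn : ‖(n1 D : ℂ) • res (M.VG D) (-(n1 D : ℂ))‖ ≤ n1 D * 2 := by
    rw [norm_smul, Complex.norm_natCast]
    exact mul_le_mul_of_nonneg_left a1 hnp.le
  have hW : ‖M.W D ^ N0 D‖ ≤ (1 / 8) ^ N0 D := by
    unfold Model.W
    rw [a2, hR.symm.mul_pow]
    refine (norm_mul_le _ _).trans ((mul_le_mul hpow (G1_pow_le hRn _) (norm_nonneg _)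
      (by positivity)).trans_eq ?_)
    rw [← mul_pow]
    congr 1
    field_simp
    norm_num
  exact
    { admF := admF, adm8 := adm8, admG := admG, kapD := kapD
      le_DG := by unfold DG; omega
      kG_le := by
        unfold kG kap
        rw [div_le_div_iff₀ (by positivity) (by linarith)]
        linarith
      VF_norm := G1_norm M admF
      V8_norm := G1_norm M adm8
      VG_norm := VG1
      sm := sm
      accr := accr
      W_norm := a3
      W_pow := fun N => by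
        refine (G1_geom a3 (by omega) (by norm_num) (by norm_num) hW N).trans_eq ?_
        rw [one_div_pow, one_div_pow]
        field_simp
      W_comm := a4
      W_eq := a5
      W_fac := ⟨_, a2, hR⟩
      W_sub := a6
      J_W := fun v => by
        have := hRes.2.1 E E (M.VG D) M.V (M.JG D) _ _ sm smV hz (M.J_V _ _ admG) v
        simp only [Model.W, Wop, sub_apply, one_apply_eq_self, map_sub, this]
      WY_norm := b3 }

end Pool.Agent.IS
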