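import Pool.Agent.P.MP_f981b0_an.IS.Glob

/-! The range of `Th` is infinite-dimensional and the big space is separable. -/

set_option autoImplicit false

open Polynomial Finset TopologicalSpace

noncomputable section

namespace Pool.Agent.IS

theorem Inf_sep {ι F : Type} [Countable ι] [NormedAddCommGroup F] [NormedSpace ℂ F]
    [SeparableSpace F] : SeparableSpace (lp (fun _ : ι => F) 2) := by
  classical
  have h1 : IsSeparable (⋃ i : ι, Set.range (lp.singleContinuousLinearMap ℂ (fun _ : ι => F) 2 i)) :=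
    .iUnion fun i => isSeparable_range (ContinuousLinearMap.continuous _)
  rw [← isSeparable_univ_iff]
  refine (h1.span (R := ℂ)).closure.mono fun x _ => ?_
  refine mem_closure_of_tendsto (lp.hasSum_single (by simp) x) (.of_forall fun s => ?_)
  exact Submodule.sum_mem _ fun i _ => Submodule.subset_span (Set.mem_iUnion.2 ⟨i, x i, rfl⟩)

theorem p_Inf (h1 : S_G1) (_h2 : S_Dg) (_h3 : S_Good) (h4 : S_Th) :
    (∀ (M : Model) (Ds : ℕ → ℕ), Good M Ds →
      ¬ FiniteDimensional ℂ (LinearMap.range (M.Th Ds : KS →ₗ[ℂ] E))) ∧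
    TopologicalSpace.SeparableSpace KS := by
  have : SeparableSpace E := Inf_sep
  refine ⟨fun M Ds hG hf => ?_, Inf_sep⟩
  obtain ⟨a1, -, -, -, -, -, -, -, a2, a3⟩ := h4 M Ds hG
  have hm : (mu (Ds 0) : ℂ) ≠ 0 := by
    rw [mu]
    exact_mod_cast (by positivity : (2 : ℝ) ^ n1 (Ds 0) ≠ 0)
  have hone : M.one ∈ LinearMap.range (M.Th Ds : KS →ₗ[ℂ] E) := by
    refine ⟨lp.single 2 (0, 0) ((mu (Ds 0) : ℂ) • M.one), (a3 0 0 _).trans ?_⟩
    have hc : cc (Ds 0) 0 (lp.single 2 (0, 0) ((mu (Ds 0) : ℂ) • M.one)) = 0 := funext fun k => by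
      rw [cc, lp.single_apply_ne _ _ _ (by simp), ite_self]
      rfl
    rw [a1, hc, lp.single_apply_self, inv_smul_smul₀ hm, Model.lev,
      sum_eq_zero fun k _ => by rw [Pi.zero_apply, map_zero, map_zero, smul_zero], zero_add]
    exact M.J_one _ _ (h1 M _ hG.1).admG
  have hp : ∀ g : ℂ[X], aeval M.V g M.one ∈ LinearMap.range (M.Th Ds : KS →ₗ[ℂ] E) := fun g => by
    induction g using Polynomial.induction_on with
    | C a =>
      rw [aeval_C, Algebra.algebraMap_eq_smul_one]
      exact Submodule.smul_mem _ _ hone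
    | add p q hp hq =>
      rw [map_add]
      exact Submodule.add_mem _ hp hq
    | monomial n a h =>
      obtain ⟨x, hx⟩ := h
      refine ⟨M.VK Ds x, (a2 x).trans ?_⟩
      rw [pow_succ, ← mul_assoc, mul_comm _ X, map_mul, aeval_X]
      exact congrArg M.V hx
  let φ : ℂ[X] →ₗ[ℂ] E :=
    ((ContinuousLinearMap.apply ℂ E M.one : (E →L[ℂ] E) →L[ℂ] E) : (E →L[ℂ] E) →ₗ[ℂ] E) ∘ₗ
      (aeval M.V).toLinearMap
  refine Polynomial.not_finite (R := ℂ) (Module.Finite.of_injective (φ.codRestrict _ hp) ?_)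
  refine (injective_iff_map_eq_zero _).2 fun g hg => Polynomial.ext fun l => ?_
  have := M.coeff_le _ g le_rfl l
  rw [show aeval M.V g M.one = 0 from congrArg Subtype.val hg, norm_zero, mul_zero] at this
  exact norm_le_zero_iff.1 this

end Pool.Agent.IS
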