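import Pool.Agent.P.MP_f981b0_an.IS.Mod
import Pool.Agent.P.MP_f981b0_an.IS6.Schur

/-!
Package MSchur: Schur test, rows and extensionality on the coordinate space.
-/

set_option autoImplicit false

open Finset Filter Topology

noncomputable section

namespace Pool.Agent.IS

open Pool.Agent.P.MP_f981b0_an

lemma MSchur_single (x : E) (j : ℕ) : (lp.single 2 j (x j) : E) = x j • sg j := by
  rw [sg, ← lp.single_smul, smul_eq_mul, mul_one]

lemma MSchur_hasSum {F : Type} [NormedAddCommGroup F] [NormedSpace ℂ F] (T : E →L[ℂ] F) (x : E) :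
    HasSum (fun j => x j • T (sg j)) (T x) := by
  have h := (lp.hasSum_single (by norm_num) x).mapL T
  simpa only [MSchur_single, map_smul] using h

lemma MSchur_ext {F : Type} [NormedAddCommGroup F] [NormedSpace ℂ F] (S T : E →L[ℂ] F)
    (h : ∀ j, S (sg j) = T (sg j)) : S = T := by
  ext x
  have h1 := MSchur_hasSum S x
  simp only [h] at h1
  exact h1.unique (MSchur_hasSum T x)

lemma MSchur_hs {F : Type} [NormedAddCommGroup F] [NormedSpace ℂ F] (T : E →L[ℂ] F) (C : ℝ)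
    (hC : 0 ≤ C) (h : ∀ s : Finset ℕ, ∑ j ∈ s, ‖T (sg j)‖ ^ 2 ≤ C ^ 2) : ‖T‖ ≤ C := by
  refine T.opNorm_le_bound hC fun x => ?_
  refine le_of_tendsto' (MSchur_hasSum T x).norm fun s => (norm_sum_le _ _).trans ?_
  refine abs_le_of_sq_le_sq' ?_ (by positivity) |>.2
  have h1 := sum_mul_sq_le_sq_mul_sq s (fun j => ‖x j‖) (fun j => ‖T (sg j)‖)
  have h2 : ∑ j ∈ s, ‖x j‖ ^ 2 ≤ ‖x‖ ^ 2 := by
    rw [← IS6.tsum_sq]
    exact (IS6.sq_summable x).sum_le_tsum s fun j _ => by positivity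
  simp only [norm_smul]
  refine h1.trans ?_
  rw [mul_pow, mul_comm (C ^ 2)]
  exact mul_le_mul h2 (h s) (sum_nonneg fun j _ => by positivity) (by positivity)

lemma MSchur_apply (i j : ℕ) : sg j i = if i = j then 1 else 0 := by
  rw [sg, lp.single_apply, Pi.single_apply]

lemma MSchur_ex (A : ℕ → ℕ → ℂ) (C : ℝ) (hC : 0 ≤ C)
    (hr : ∀ i (s : Finset ℕ), ∑ j ∈ s, ‖A i j‖ ≤ C)
    (hc : ∀ j (s : Finset ℕ), ∑ i ∈ s, ‖A i j‖ ≤ C) :
    ∃ T : E →L[ℂ] E, ‖T‖ ≤ C ∧ ∀ i j, T (sg j) i = A i j := by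
  obtain ⟨T, hT, h⟩ := IS6.schur A hC hr hc
  refine ⟨T, hT, fun i j => (h (sg j) i).unique ?_⟩
  have := hasSum_single (f := fun l => A i l * sg j l) j fun l hl => by
    rw [MSchur_apply, if_neg hl, mul_zero]
  simpa only [MSchur_apply, if_true, mul_one] using this

lemma MSchur_le (A : ℕ → ℕ → ℂ) (C : ℝ) (T : E →L[ℂ] E) (hC : 0 ≤ C)
    (hT : ∀ i j, T (sg j) i = A i j) (hr : ∀ i (s : Finset ℕ), ∑ j ∈ s, ‖A i j‖ ≤ C)
    (hc : ∀ j (s : Finset ℕ), ∑ i ∈ s, ‖A i j‖ ≤ C) : ‖T‖ ≤ C := by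
  obtain ⟨S, hS, h⟩ := MSchur_ex A C hC hr hc
  rwa [MSchur_ext T S fun j => lp.ext (funext fun i => (hT i j).trans (h i j).symm)]

theorem p_MSchur : SM_Schur := by
  refine ⟨fun A C hC hr hc => ?_, MSchur_le, fun c C hC h => ?_,
    fun F _ _ _ S T h => MSchur_ext S T h, fun F _ _ _ T C hC h => MSchur_hs T C hC h⟩
  · obtain ⟨T, -, hT⟩ := MSchur_ex A C hC hr hc
    have e : ∃ T : E →L[ℂ] E, ∀ i j, T (sg j) i = A i j := ⟨T, hT⟩
    have h1 : ∀ i j, mat A (sg j) i = A i j := by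
      rw [mat, dif_pos e]
      exact e.choose_spec
    exact ⟨h1, MSchur_le A C _ hC h1 hr hc⟩
  · have hm : Memℓp (fun j => (starRingEnd ℂ) (c j)) 2 :=
      memℓp_gen' (C := C ^ 2) fun s => by simpa using h s
    have e : ∃ f : E →L[ℂ] ℂ, ∀ j, f (sg j) = c j :=
      ⟨innerSL ℂ (⟨_, hm⟩ : E), fun j => by
        rw [innerSL_apply_apply, sg, lp.inner_single_right]
        simp⟩
    have h1 : ∀ j, row c (sg j) = c j := by
      rw [row, dif_pos e]
      exact e.choose_spec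
    exact ⟨h1, MSchur_hs _ C hC fun s => by simpa only [h1] using h s⟩

end Pool.Agent.IS
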