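import Pool.Agent.P.MP_f981b0_an.IS.Stmt
import Pool.Agent.P.MP_f981b0_an.IS27.Ser

/-!
The power series resolvent.
-/

set_option autoImplicit false

open Polynomial Finset Filter Topology
open scoped Nat

noncomputable section

namespace Pool.Agent.IS

open Pool.Agent.P.MP_f981b0_an

theorem Res_sm {B : Type} [NormedAddCommGroup B] [NormedSpace ℂ B] {A : B →L[ℂ] B} {Z : ℝ} {z : ℂ}
    (h : Sm A Z) (hz : ‖z‖ ≤ Z) : Summable fun l : ℕ => ‖z‖ ^ l * ‖A ^ l‖ :=
  Summable.of_nonneg_of_le (fun _ => by positivity) (fun l => mul_le_mul_of_nonneg_right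
    (pow_le_pow_left₀ (norm_nonneg _) hz l) (norm_nonneg _)) h

theorem Res_pow {B B' : Type} [NormedAddCommGroup B] [NormedSpace ℂ B] [NormedAddCommGroup B']
    [NormedSpace ℂ B'] {A : B →L[ℂ] B} {A' : B' →L[ℂ] B'} {S : B →L[ℂ] B'}
    (h : ∀ v, S (A v) = A' (S v)) (l : ℕ) (v : B) : S ((A ^ l) v) = (A' ^ l) (S v) := by
  induction l with
  | zero => rfl
  | succ l ih =>
    rw [pow_succ', pow_succ']
    change S (A ((A ^ l) v)) = A' ((A' ^ l) (S v))
    rw [h, ih]

theorem p_Res : S_Res := by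
  refine ⟨fun B _ _ _ A Z z h hz => ?_, fun B B' _ _ _ _ _ _ A A' S Z z h h' hz hS v => ?_,
    fun B _ _ _ A A0 k Z h0 hk hZ hkZ => ?_⟩
  · have hs := Res_sm h hz
    have h1 : HasSum (fun l : ℕ => z ^ l • A ^ l) (res A z) := (IS27.summable_ser hs).hasSum
    refine ⟨h1, (IS27.ser_inv hs).1, (IS27.ser_inv hs).2, ?_, fun y v hv l => ?_⟩
    · have h2 := h1.mul_right A
      have h3 := h1.mul_left A
      have h4 : (fun l : ℕ => z ^ l • A ^ l * A) = fun l : ℕ => A * z ^ l • A ^ l :=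
        funext fun l => by rw [smul_mul_assoc, mul_smul_comm, ← pow_succ, ← pow_succ']
      rw [h4] at h2
      exact h2.unique h3
    · have h2 := IS27.hasSum_ser hs y v l
      simp only [hv, mul_zero] at h2
      exact h2.unique hasSum_zero
  · have h1 := ((IS27.summable_ser (Res_sm h hz)).hasSum).mapL
      (S ∘L ContinuousLinearMap.apply ℂ B v)
    have h2 := ((IS27.summable_ser (Res_sm h' hz)).hasSum).mapL
      (ContinuousLinearMap.apply ℂ B' (S v))
    refine h1.unique ?_
    convert h2 using 2 with l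
    · change S (z ^ l • (A ^ l) v) = z ^ l • (A' ^ l) (S v)
      rw [map_smul, Res_pow hS]
    · rfl
  · have hM : ∀ n, ∑ l ∈ range n, Z ^ l * ‖A0 ^ l‖ ≤ Real.exp Z := fun n =>
      le_trans (sum_le_sum fun l _ => by
        rw [div_eq_mul_one_div]
        exact mul_le_mul_of_nonneg_left (h0 l) (by positivity)) (Real.sum_le_exp_of_nonneg hZ n)
    have h1 := IS27.f4 A0 (A - A0) hZ hk hM hkZ
    rw [add_sub_cancel] at h1
    refine ⟨h1.1, h1.2, fun b hb => le_trans ?_ h1.2⟩
    rw [aeval_eq_sum_range]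
    refine (norm_sum_le _ _).trans (le_trans (sum_le_sum fun l _ => ?_)
      (h1.1.sum_le_tsum _ fun _ _ => by positivity))
    exact (norm_smul_le _ _).trans (mul_le_mul_of_nonneg_right (hb l) (norm_nonneg _))

end Pool.Agent.IS
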